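import Mathlib

/-!
# Digits (project FTO, D0)

Every `v ≥ 0` is `∑ q n * x ^ n` with bounded natural digits, supported in degrees `≥ e`, and with
prescribed lower bound for the first digit.
-/

noncomputable section

namespace Pool.Agent.FTO

/-- the remainders of the greedy expansion -/
def digRem (x y : ℝ) : ℕ → ℝ
  | 0 => y
  | n + 1 => (digRem x y n - (⌊digRem x y n⌋₊ : ℝ)) / x

/-- the digits of the greedy expansion -/
def digD (x y : ℝ) (n : ℕ) : ℕ := ⌊digRem x y n⌋₊

variable {x y : ℝ}

theorem digRem_nonneg (hx0 : 0 < x) (hy : 0 ≤ y) (n : ℕ) : 0 ≤ digRem x y n := by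
  induction n with
  | zero => exact hy
  | succ n ih => exact div_nonneg (sub_nonneg.2 (Nat.floor_le ih)) hx0.le

theorem digRem_lt (hx0 : 0 < x) (n : ℕ) : digRem x y (n + 1) < 1 / x := by
  show (digRem x y n - (⌊digRem x y n⌋₊ : ℝ)) / x < 1 / x
  have := Nat.lt_floor_add_one (digRem x y n)
  exact div_lt_div_of_pos_right (by linarith) hx0

theorem digRem_sum (hx0 : 0 < x) (n : ℕ) :
    y = ∑ k ∈ Finset.range n, (digD x y k : ℝ) * x ^ k + x ^ n * digRem x y n := by
  induction n with
  | zero => simp [digRem]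
  | succ n ih =>
    rw [Finset.sum_range_succ]
    have h1 : digRem x y (n + 1) = (digRem x y n - (digD x y n : ℝ)) / x := rfl
    rw [h1]
    have h2 : x ^ (n + 1) * ((digRem x y n - (digD x y n : ℝ)) / x) =
        x ^ n * (digRem x y n - (digD x y n : ℝ)) := by
      field_simp
      ring
    rw [h2]
    linarith

theorem digD_le (hx0 : 0 < x) (hy : 0 ≤ y) (n : ℕ) : (digD x y n : ℝ) ≤ max y (1 / x) := by
  have h1 : (digD x y n : ℝ) ≤ digRem x y n := Nat.floor_le (digRem_nonneg hx0 hy n)
  cases n with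
  | zero => exact h1.trans (le_max_left _ _)
  | succ n => exact (h1.trans (digRem_lt hx0 n).le).trans (le_max_right _ _)

theorem digD_hasSum (hx0 : 0 < x) (hx1 : x < 1) (hy : 0 ≤ y) :
    HasSum (fun n => (digD x y n : ℝ) * x ^ n) y := by
  rw [hasSum_iff_tendsto_nat_of_nonneg (fun n => by positivity)]
  have h1 : ∀ n, ∑ k ∈ Finset.range n, (digD x y k : ℝ) * x ^ k = y - x ^ n * digRem x y n :=
    fun n => by linarith [digRem_sum (y := y) hx0 n]
  simp_rw [h1]
  have h2 : Filter.Tendsto (fun n => x ^ n * digRem x y n) Filter.atTop (nhds 0) := by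
    have h3 : Filter.Tendsto (fun n => x ^ n * max y (1 / x)) Filter.atTop (nhds 0) := by
      have := (tendsto_pow_atTop_nhds_zero_of_lt_one hx0.le hx1).mul_const (max y (1 / x))
      simpa using this
    refine squeeze_zero (fun n => mul_nonneg (by positivity) (digRem_nonneg hx0 hy n))
      (fun n => mul_le_mul_of_nonneg_left ?_ (by positivity)) h3
    cases n with
    | zero => exact le_max_left _ _
    | succ n => exact (digRem_lt hx0 n).le.trans (le_max_right _ _)
  simpa using h2.const_sub y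

/-- **digits**: `v = ∑ q n * x ^ n` with bounded natural digits in degrees `≥ e`, the first digit
at least `w` if `v` allows it -/
theorem exists_digits (hx0 : 0 < x) (hx1 : x < 1) {v : ℝ} (e w : ℕ) (hw : (w : ℝ) * x ^ e ≤ v) :
    ∃ (q : ℕ → ℕ) (C : ℕ), (∀ n, q n ≤ C) ∧ (∀ n < e, q n = 0) ∧ w ≤ q e ∧
      HasSum (fun n => (q n : ℝ) * x ^ n) v := by
  have hxe : 0 < x ^ e := pow_pos hx0 e
  have hy : 0 ≤ v / x ^ e := div_nonneg ((mul_nonneg (Nat.cast_nonneg w) hxe.le).trans hw) hxe.le
  refine ⟨fun n => if n < e then 0 else digD x (v / x ^ e) (n - e),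
    ⌈max (v / x ^ e) (1 / x)⌉₊, fun n => ?_, fun n hn => if_pos hn, ?_, ?_⟩
  · dsimp only
    split_ifs with h
    · exact Nat.zero_le _
    · have h1 := digD_le hx0 hy (n - e)
      have h2 := Nat.le_ceil (max (v / x ^ e) (1 / x))
      exact_mod_cast h1.trans h2
  · show w ≤ (if e < e then 0 else digD x (v / x ^ e) (e - e))
    rw [if_neg (lt_irrefl e), Nat.sub_self]
    show w ≤ ⌊v / x ^ e⌋₊
    exact Nat.le_floor ((le_div_iff₀ hxe).2 hw)
  · have h1 := (digD_hasSum hx0 hx1 hy).mul_right (x ^ e)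
    rw [div_mul_cancel₀ v hxe.ne'] at h1
    have h2 : Function.Injective (fun n : ℕ => n + e) := add_left_injective e
    rw [← h2.hasSum_iff]
    · have h5 : ((fun n => (((fun n => if n < e then 0 else digD x (v / x ^ e) (n - e)) n : ℕ) : ℝ) *
          x ^ n) ∘ fun n => n + e) = fun n => (digD x (v / x ^ e) n : ℝ) * x ^ n * x ^ e := by
        funext n
        simp only [Function.comp_apply]
        rw [if_neg (by omega), Nat.add_sub_cancel, pow_add]
        ring
      rw [h5]
      exact h1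
    · intro n hn
      have h3 : n < e := by
        by_contra h
        exact hn ⟨n - e, by show n - e + e = n; omega⟩
      simp [h3]

/-- the same with power series -/
theorem exists_digits_ps (hx0 : 0 < x) (hx1 : x < 1) {v : ℝ} (e w : ℕ)
    (hw : (w : ℝ) * x ^ e ≤ v) :
    ∃ (q : PowerSeries ℕ) (C : ℕ), (∀ n, PowerSeries.coeff n q ≤ C) ∧
      (∀ n < e, PowerSeries.coeff n q = 0) ∧ w ≤ PowerSeries.coeff e q ∧
      HasSum (fun n => ((PowerSeries.coeff n q : ℕ) : ℝ) * x ^ n) v := by
  obtain ⟨q, C, h1, h2, h3, h4⟩ := exists_digits hx0 hx1 e w hw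
  refine ⟨PowerSeries.mk q, C, fun n => ?_, fun n hn => ?_, ?_, ?_⟩
  · rw [PowerSeries.coeff_mk]; exact h1 n
  · rw [PowerSeries.coeff_mk]; exact h2 n hn
  · rw [PowerSeries.coeff_mk]; exact h3
  · simpa only [PowerSeries.coeff_mk] using h4

/-- bounded digits have finite norm at every radius `r < 1` -/
theorem summable_of_bdd {q : ℕ → ℕ} {C : ℕ} (h : ∀ n, q n ≤ C) {r : ℝ} (hr0 : 0 ≤ r)
    (hr1 : r < 1) : Summable (fun n => (q n : ℝ) * r ^ n) := by
  refine Summable.of_nonneg_of_le (fun n => by positivity) (fun n => ?_)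
    ((summable_geometric_of_lt_one hr0 hr1).mul_left (C : ℝ))
  exact mul_le_mul_of_nonneg_right (by exact_mod_cast h n) (by positivity)

end Pool.Agent.FTO
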