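import Pool.Agent.FTO.TDefs
import Pool.Agent.FTO.Digits

/-!
# FTO, A2: kinds of local vertices

`PreFib`: the part of a local vertex which does not depend on the hub (`ξ`, `e`, `q`), with the
values `∑ θ, n b θ * tv θ` which the series `q b` must have. `PreFib.exists_fib`: for all small `ξ`
there are series `q` with bounded digits. Kinds: `preT` (trivial fibre), `preN` (one block with two
elements), `preH` (one component with two blocks of one element).
-/

set_option autoImplicit false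

open scoped BigOperators
open Matrix Polynomial

namespace Pool.Agent.FTO

open Pool.Agent.SSE

attribute [local instance] Classical.propDecidable

/-! ### Sums of digit series -/

section qsum

variable {Th : Type} [Fintype Th]

/-- `∑ θ, m θ * qd θ` -/
noncomputable def qsum (m : Th → ℕ) (qd : Th → PowerSeries ℕ) : PowerSeries ℤ :=
  PowerSeries.mk fun d => ∑ θ, (m θ : ℤ) * ((PowerSeries.coeff d (qd θ) : ℕ) : ℤ)

/-- digits of `v θ` from degree `e` on, the first digit at least `W`, all digits at most `C` -/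
structure Digs (x : ℝ) (v : Th → ℝ) (e W C : ℕ) (qd : Th → PowerSeries ℕ) : Prop where
  bd : ∀ θ d, PowerSeries.coeff d (qd θ) ≤ C
  lt : ∀ θ, ∀ d < e, PowerSeries.coeff d (qd θ) = 0
  ge : ∀ θ, W ≤ PowerSeries.coeff e (qd θ)
  sum : ∀ θ, HasSum (fun d => ((PowerSeries.coeff d (qd θ) : ℕ) : ℝ) * x ^ d) (v θ)

variable {x : ℝ} {v : Th → ℝ} {e W C : ℕ} {qd : Th → PowerSeries ℕ}

theorem coeff_qsum (m : Th → ℕ) (qd : Th → PowerSeries ℕ) (d : ℕ) :
    PowerSeries.coeff d (qsum m qd) = ∑ θ, (m θ : ℤ) * ((PowerSeries.coeff d (qd θ) : ℕ) : ℤ) := by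
  unfold qsum
  rw [PowerSeries.coeff_mk]

theorem qsum_nn (m : Th → ℕ) (qd : Th → PowerSeries ℕ) : HN.Nn (qsum m qd) := by
  intro d
  rw [coeff_qsum]
  exact Finset.sum_nonneg fun θ _ => mul_nonneg (Int.natCast_nonneg _) (Int.natCast_nonneg _)

theorem qsum_sum {B : Type} [Fintype B] (p : B → Prop) (n : B → Th → ℕ) (kn : Th → ℕ)
    (h : ∀ θ, ∑ b, (if p b then n b θ else 0) = kn θ) (qd : Th → PowerSeries ℕ) :
    ∑ b, (if p b then qsum (n b) qd else 0) = qsum kn qd := by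
  ext d
  rw [map_sum, coeff_qsum]
  have h1 : ∀ b, PowerSeries.coeff d (if p b then qsum (n b) qd else 0) =
      ∑ θ, ((if p b then n b θ else 0 : ℕ) : ℤ) * ((PowerSeries.coeff d (qd θ) : ℕ) : ℤ) := by
    intro b
    split_ifs with hb
    · exact coeff_qsum _ _ _
    · simp
  simp only [h1]
  rw [Finset.sum_comm]
  refine Finset.sum_congr rfl fun θ _ => ?_
  rw [← Finset.sum_mul, ← h θ]
  push_cast
  rfl

namespace Digs

theorem qsum_bd (h : Digs x v e W C qd) (m : Th → ℕ) (d : ℕ) :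
    PowerSeries.coeff d (qsum m qd) ≤ (((∑ θ, m θ) * C : ℕ) : ℤ) := by
  rw [coeff_qsum]
  push_cast
  rw [Finset.sum_mul]
  exact Finset.sum_le_sum fun θ _ => mul_le_mul_of_nonneg_left (by exact_mod_cast h.bd θ d)
    (Int.natCast_nonneg _)

theorem qsum_ts (h : Digs x v e W C qd) (he : 0 < e) (m : Th → ℕ) {r : ℝ} (hr0 : 0 ≤ r)
    (hr1 : r < 1) : TS r (qsum m qd) := by
  refine ⟨?_, qsum_nn m qd, ?_⟩
  · rw [coeff_qsum]
    exact Finset.sum_eq_zero fun θ _ => by rw [h.lt θ 0 he]; simp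
  · refine PF.hasN_of_le (K := (((∑ θ, m θ) * C : ℕ) : ℝ)) (s := 1) hr0 zero_le_one
      (by simpa using hr1) fun d => ?_
    rw [HN.norm_coeff (qsum_nn m qd), one_pow, mul_one]
    exact_mod_cast h.qsum_bd m d

theorem qsum_sv (h : Digs x v e W C qd) (m : Th → ℕ) : sv x (qsum m qd) = ∑ θ, (m θ : ℝ) * v θ := by
  have h1 : HasSum (fun d => ∑ θ, (m θ : ℝ) * (((PowerSeries.coeff d (qd θ) : ℕ) : ℝ) * x ^ d))
      (∑ θ, (m θ : ℝ) * v θ) := hasSum_sum fun θ _ => (h.sum θ).mul_left (m θ : ℝ)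
  rw [← h1.tsum_eq]
  unfold sv PF.ev
  refine tsum_congr fun d => ?_
  rw [HN.coeff_toRS, coeff_qsum]
  push_cast
  rw [Finset.sum_mul]
  refine Finset.sum_congr rfl fun θ _ => ?_
  ring

theorem qsum_ge (h : Digs x v e W C qd) (m : Th → ℕ) (hm : ∃ θ, m θ ≠ 0) :
    (W : ℤ) ≤ PowerSeries.coeff e (qsum m qd) := by
  obtain ⟨θ, hθ⟩ := hm
  rw [coeff_qsum]
  refine le_trans ?_ (Finset.single_le_sum (f := fun θ => (m θ : ℤ) *
    ((PowerSeries.coeff e (qd θ) : ℕ) : ℤ)) (fun θ _ => mul_nonneg (Int.natCast_nonneg _)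
      (Int.natCast_nonneg _)) (Finset.mem_univ θ))
  have h1 : (1 : ℤ) ≤ m θ := by exact_mod_cast Nat.one_le_iff_ne_zero.2 hθ
  have h2 : (W : ℤ) ≤ ((PowerSeries.coeff e (qd θ) : ℕ) : ℤ) := by exact_mod_cast h.ge θ
  have h3 : (0 : ℤ) ≤ W := Int.natCast_nonneg _
  nlinarith

end Digs

/-- for all small `ξ` the values `tv θ / ξ` have digits -/
theorem exists_digs {x : ℝ} (hx0 : 0 < x) (hx1 : x < 1) (tv : Th → ℝ) (htv : ∀ θ, 0 < tv θ)
    (e W : ℕ) : ∃ ξ0 : ℝ, 0 < ξ0 ∧ ∀ ξ : ℝ, 0 < ξ → ξ ≤ ξ0 →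
      ∃ (C : ℕ) (qd : Th → PowerSeries ℕ), Digs x (fun θ => tv θ / ξ) e W C qd := by
  have hW : (0 : ℝ) < (W : ℝ) * x ^ e + 1 :=
    add_pos_of_nonneg_of_pos (mul_nonneg (Nat.cast_nonneg W) (pow_pos hx0 e).le) one_pos
  have h1 : ∃ t0 : ℝ, 0 < t0 ∧ ∀ θ, t0 ≤ tv θ := by
    rcases isEmpty_or_nonempty Th with hE | hE
    · exact ⟨1, one_pos, fun θ => isEmptyElim θ⟩
    · obtain ⟨θ0, hθ0⟩ := Finite.exists_min tv
      exact ⟨tv θ0, htv θ0, hθ0⟩
  obtain ⟨t0, ht0, ht⟩ := h1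
  refine ⟨t0 / ((W : ℝ) * x ^ e + 1), div_pos ht0 hW, fun ξ hξ hξ1 => ?_⟩
  have h2 : ∀ θ, (W : ℝ) * x ^ e ≤ tv θ / ξ := by
    intro θ
    rw [le_div_iff₀ hξ]
    rw [le_div_iff₀ hW] at hξ1
    have := ht θ
    nlinarith
  choose qd C h3 h4 h5 h6 using fun θ => exists_digits_ps hx0 hx1 (v := tv θ / ξ) e W (h2 θ)
  exact ⟨∑ θ, C θ, qd, fun θ d => (h3 θ d).trans
    (Finset.single_le_sum (f := C) (fun _ _ => Nat.zero_le _) (Finset.mem_univ θ)), h4, h5, h6⟩

end qsum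

/-! ### Local vertices without the hub -/

variable {K KN KB KH L : Type} [AddCommGroup K] [Module ℤ[X] K] [AddCommGroup KN]
  [Module ℤ[X] KN] [AddCommGroup KB] [Module ℤ[X] KB] [AddCommGroup KH] [Module ℤ[X] KH]
  [AddCommGroup L] [Module ℤ[X] L]

/-- a local vertex without the series to the hub -/
structure PreFib (F : Fil K KN KB KH L) {δ : ℤ[X]} (D : PFM K δ) (r : ℝ) where
  I : Type
  Bl : Type
  Co : Type
  fI : Fintype I
  fB : Fintype Bl
  fC : Fintype Co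
  blk : I → Bl
  cmp : Bl → Co
  sB : Function.Surjective blk
  sC : Function.Surjective cmp
  ne : Nonempty Co
  DI : Matrix I I (PowerSeries ℤ)
  DB : Matrix Bl Bl (PowerSeries ℤ)
  DC : Matrix Co Co (PowerSeries ℤ)
  l : PowerSeries ℤ
  h1 : ∀ i b', ∑ i', (if blk i' = b' then DI i i' else 0) = DB (blk i) b'
  h2 : ∀ a b', ∑ b, (if cmp b = a then DB b b' else 0) = DC a (cmp b')
  h3 : ∀ a, ∑ a', DC a a' = l
  dN : PowerSeries ℤ
  dH : PowerSeries ℤ
  hdH : dH * (1 - DC).det = (1 - DB).det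
  hdN : dN * ((1 - l) * dH) = (1 - DI).det
  c : I → K
  cb : KB
  hc : ∀ a (t : I → ℕ), (∀ b, cmp b = a → ∑ i, (if blk i = b then t i else 0) = 1) →
    (∀ i, cmp (blk i) ≠ a → t i = 0) → F.s (∑ i, (t i : ℤ[X]) • c i) = F.b cb
  wt : Bl → ℕ
  kap : ℕ
  wt_pos : ∀ b, 0 < wt b
  hwt : ∀ a, ∑ b, (if cmp b = a then wt b else 0) = kap
  tsD : ∀ i i', TS r (DI i i')
  c_pos : ∀ i, 0 < D.tau (c i)
  Th : Type
  fT : Fintype Th
  tv : Th → ℝ
  tv_pos : ∀ θ, 0 < tv θ
  n : Bl → Th → ℕ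
  n_ne : ∀ b, ∃ θ, n b θ ≠ 0
  kn : Th → ℕ
  hn : ∀ a θ, ∑ b, (if cmp b = a then n b θ else 0) = kn θ
  bal : ∀ i, D.tau (c i) = ∑ i', sv D.lam⁻¹ (DI i i') * D.tau (c i') + ∑ θ, (n (blk i) θ : ℝ) * tv θ

attribute [instance] PreFib.fI PreFib.fB PreFib.fC PreFib.fT

namespace PreFib

variable {F : Fil K KN KB KH L} {δ : ℤ[X]} {D : PFM K δ} {r : ℝ}

/-- the local vertex with given digits -/
noncomputable def toFib (P : PreFib F D r) {ξ : ℝ} {e W C : ℕ} {qd : P.Th → PowerSeries ℕ}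
    (hξ : 0 < ξ) (he : 0 < e) (hr0 : 0 ≤ r) (hr1 : r < 1) (hW : ∀ b, P.wt b ≤ W)
    (h : Digs D.lam⁻¹ (fun θ => P.tv θ / ξ) e W C qd) : Fib F D r ξ e where
  I := P.I
  Bl := P.Bl
  Co := P.Co
  fI := P.fI
  fB := P.fB
  fC := P.fC
  blk := P.blk
  cmp := P.cmp
  sB := P.sB
  sC := P.sC
  ne := P.ne
  DI := P.DI
  DB := P.DB
  DC := P.DC
  l := P.l
  h1 := P.h1
  h2 := P.h2
  h3 := P.h3
  dN := P.dN
  dH := P.dH
  hdH := P.hdH
  hdN := P.hdN
  q := fun b => qsum (P.n b) qd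
  kq := qsum P.kn qd
  hq := fun a => qsum_sum (fun b => P.cmp b = a) P.n P.kn (P.hn a) qd
  c := P.c
  cb := P.cb
  hc := P.hc
  wt := P.wt
  kap := P.kap
  wt_pos := P.wt_pos
  hwt := P.hwt
  see := fun b => le_trans (by exact_mod_cast hW b) (h.qsum_ge (P.n b) (P.n_ne b))
  tsD := P.tsD
  tsq := fun b => h.qsum_ts he (P.n b) hr0 hr1
  c_pos := P.c_pos
  bal := fun i => by
    rw [P.bal i, h.qsum_sv, Finset.sum_mul]
    congr 1
    refine Finset.sum_congr rfl fun θ _ => ?_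
    field_simp

/-- the property of the `N`-vertices -/
def IsN (P : PreFib F D r) (n : KN) : Prop :=
  ∃ i0 i1 : P.I, i0 ≠ i1 ∧ (∀ i, i = i0 ∨ i = i1) ∧ P.blk i0 = P.blk i1 ∧ P.c i1 - P.c i0 = F.i n

/-- the property of the `H`-vertices -/
def IsH (P : PreFib F D r) (h : KH) : Prop :=
  ∃ i0 i1 : P.I, (∀ i, i = i0 ∨ i = i1) ∧ P.blk i0 ≠ P.blk i1 ∧
    P.cmp (P.blk i0) = P.cmp (P.blk i1) ∧ F.p (F.s (P.c i0)) = h ∧ F.p (F.s (P.c i1)) = -h

/-- **the generic lemma**: for all small `ξ` there is a local vertex with the same data -/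
theorem exists_fib (P : PreFib F D r) (hr : 1 < D.lam * r) (hr1 : r < 1) (e : ℕ) (he : 0 < e) :
    ∃ ξ0 : ℝ, 0 < ξ0 ∧ ∀ ξ : ℝ, 0 < ξ → ξ ≤ ξ0 → ∃ Y : Fib F D r ξ e,
      Y.l = P.l ∧ Y.dN = P.dN ∧ Y.dH = P.dH ∧ Y.cb = P.cb ∧
      (∃ C : ℕ, ∀ d, PowerSeries.coeff d Y.kq ≤ C) ∧ (∀ d, 0 ≤ PowerSeries.coeff d Y.kq) ∧
      (∀ n, P.IsN n → Y.IsN n) ∧ ∀ h, P.IsH h → Y.IsH h := by
  have hlam : 0 < D.lam := lt_trans one_pos D.one_lt
  have hr0 : 0 ≤ r := by
    by_contra h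
    have h' := not_le.1 h
    nlinarith
  obtain ⟨ξ0, h1, h2⟩ := exists_digs (x := D.lam⁻¹) (inv_pos.2 hlam) (inv_lt_one_of_one_lt₀ D.one_lt)
    P.tv P.tv_pos e (∑ b, P.wt b)
  refine ⟨ξ0, h1, fun ξ hξ hξ1 => ?_⟩
  obtain ⟨C, qd, h3⟩ := h2 ξ hξ hξ1
  refine ⟨P.toFib hξ he hr0 hr1 (fun b => Finset.single_le_sum (f := P.wt)
    (fun _ _ => Nat.zero_le _) (Finset.mem_univ b)) h3, rfl, rfl, rfl, rfl,
    ⟨_, fun d => h3.qsum_bd P.kn d⟩, fun d => qsum_nn P.kn qd d, fun n hn => hn, fun h hh => hh⟩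

end PreFib

/-! ### The kinds -/

section kinds

/-- the matrix over one point -/
def un {R : Type} (l : R) : Matrix Unit Unit R := of fun _ _ => l

/-- the matrix over two points -/
def tw {R : Type} (al be : R) : Matrix (Fin 2) (Fin 2) R := of fun i j => if i = j then al else be

theorem un_apply {R : Type} (l : R) (i j : Unit) : un l i j = l := rfl

theorem tw_apply {R : Type} (al be : R) (i j : Fin 2) :
    tw al be i j = if i = j then al else be := rfl

theorem det_un {R : Type} [CommRing R] [DecidableEq Unit] (l : R) : (1 - un l).det = 1 - l := by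
  rw [Matrix.det_unique, Matrix.sub_apply, Matrix.one_apply_eq]
  rfl

theorem det_tw {R : Type} [CommRing R] [inst : DecidableEq (Fin 2)] (al be : R) :
    (1 - tw al be).det = (1 - (al - be)) * (1 - (al + be)) := by
  have h : inst = instDecidableEqFin 2 := Subsingleton.elim _ _
  subst h
  rw [Matrix.det_fin_two]
  simp [tw_apply]
  ring

theorem det_un_ps (l : PowerSeries ℤ) :
    1 - l = @Matrix.det Unit (fun a b => Classical.propDecidable (a = b)) _ (PowerSeries ℤ) _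
      (@HSub.hSub _ _ _ _ (@OfNat.ofNat _ 1 (@One.toOfNat1 _ (@Matrix.one _ _
        (fun a b => Classical.propDecidable (a = b)) _ _))) (un l)) :=
  (@det_un (PowerSeries ℤ) _ (fun a b => Classical.propDecidable (a = b)) l).symm

theorem det_tw_ps (al be : PowerSeries ℤ) :
    (1 - (al - be)) * (1 - (al + be)) =
      @Matrix.det (Fin 2) (fun a b => Classical.propDecidable (a = b)) _ (PowerSeries ℤ) _
      (@HSub.hSub _ _ _ _ (@OfNat.ofNat _ 1 (@One.toOfNat1 _ (@Matrix.one _ _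
        (fun a b => Classical.propDecidable (a = b)) _ _))) (tw al be)) :=
  (@det_tw (PowerSeries ℤ) _ (fun a b => Classical.propDecidable (a = b)) al be).symm

variable {F : Fil K KN KB KH L} {δ : ℤ[X]} {D : PFM K δ} {r : ℝ}

/-- (T), (B): trivial fibre with the loop `l` and the class `z` -/
noncomputable def preT (D : PFM K δ) {r : ℝ} (l : PowerSeries ℤ) (hl : TS r l)
    (hl1 : sv D.lam⁻¹ l < 1) (z : K) (y : KB) (hzy : F.s z = F.b y) (hz : 0 < D.tau z) :
    PreFib F D r where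
  I := Unit
  Bl := Unit
  Co := Unit
  fI := inferInstance
  fB := inferInstance
  fC := inferInstance
  blk := id
  cmp := id
  sB := Function.surjective_id
  sC := Function.surjective_id
  ne := ⟨()⟩
  DI := un l
  DB := un l
  DC := un l
  l := l
  h1 := fun i b' => by simp [un_apply]
  h2 := fun i b' => by simp [un_apply]
  h3 := fun i => by simp [un_apply]
  dN := 1
  dH := 1
  hdH := one_mul _
  hdN := (by ring : (1 : PowerSeries ℤ) * ((1 - l) * 1) = 1 - l).trans (det_un_ps l)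
  c := fun _ => z
  cb := y
  hc := fun a t h1 _ => by
    have h2 := h1 () (Subsingleton.elim _ _)
    have h3 : t () = 1 := by simpa using h2
    simpa [h3] using hzy
  wt := fun _ => 1
  kap := 1
  wt_pos := fun _ => one_pos
  hwt := fun a => by simp
  tsD := fun _ _ => hl
  c_pos := fun _ => hz
  Th := Unit
  fT := inferInstance
  tv := fun _ => (1 - sv D.lam⁻¹ l) * D.tau z
  tv_pos := fun _ => mul_pos (sub_pos.2 hl1) hz
  n := fun _ _ => 1
  n_ne := fun _ => ⟨(), one_ne_zero⟩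
  kn := fun _ => 1
  hn := fun a θ => by simp
  bal := fun i => by
    simp [un_apply]
    ring

/-- (N2): one block with two elements of the classes `u0`, `u1` -/
noncomputable def preN (D : PFM K δ) {r : ℝ} (al be : PowerSeries ℤ) (hal : TS r al)
    (hbe : TS r be) (hl1 : sv D.lam⁻¹ al + sv D.lam⁻¹ be < 1) (u0 u1 : K) (y : KB)
    (h0y : F.s u0 = F.b y) (h1y : F.s u1 = F.b y) (hu : 0 < D.tau u0)
    (hu1 : D.tau u1 = D.tau u0) : PreFib F D r where
  I := Fin 2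
  Bl := Unit
  Co := Unit
  fI := inferInstance
  fB := inferInstance
  fC := inferInstance
  blk := fun _ => ()
  cmp := id
  sB := fun _ => ⟨0, rfl⟩
  sC := Function.surjective_id
  ne := ⟨()⟩
  DI := tw al be
  DB := un (al + be)
  DC := un (al + be)
  l := al + be
  h1 := fun i b' => by
    fin_cases i
    · simp [un_apply, tw_apply]
    · simp [un_apply, tw_apply, add_comm]
  h2 := fun i b' => by simp [un_apply]
  h3 := fun i => by simp [un_apply]
  dN := 1 - (al - be)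
  dH := 1
  hdH := one_mul _
  hdN := (by ring : (1 - (al - be)) * ((1 - (al + be)) * 1) =
    (1 - (al - be)) * (1 - (al + be))).trans (det_tw_ps al be)
  c := ![u0, u1]
  cb := y
  hc := fun a t h1 _ => by
    have h2 := h1 () (Subsingleton.elim _ _)
    have h3 : t 0 + t 1 = 1 := by simpa using h2
    have h4 : ((t 0 : ℤ[X]) + (t 1 : ℤ[X])) = 1 := by exact_mod_cast h3
    rw [Fin.sum_univ_two, map_add, map_smul, map_smul]
    show (t 0 : ℤ[X]) • F.s u0 + (t 1 : ℤ[X]) • F.s u1 = F.b y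
    rw [h0y, h1y, ← add_smul, h4, one_smul]
  wt := fun _ => 1
  kap := 1
  wt_pos := fun _ => one_pos
  hwt := fun a => by simp
  tsD := fun i i' => by
    fin_cases i <;> fin_cases i' <;> assumption
  c_pos := fun i => by
    fin_cases i
    · exact hu
    · exact hu1 ▸ hu
  Th := Unit
  fT := inferInstance
  tv := fun _ => (1 - (sv D.lam⁻¹ al + sv D.lam⁻¹ be)) * D.tau u0
  tv_pos := fun _ => mul_pos (sub_pos.2 hl1) hu
  n := fun _ _ => 1
  n_ne := fun _ => ⟨(), one_ne_zero⟩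
  kn := fun _ => 1
  hn := fun a θ => by simp
  bal := fun i => by
    rw [Fin.sum_univ_two]
    fin_cases i
    · show D.tau u0 = sv D.lam⁻¹ al * D.tau u0 + sv D.lam⁻¹ be * D.tau u1 + _
      rw [hu1]
      simp
      ring
    · show D.tau u1 = sv D.lam⁻¹ be * D.tau u0 + sv D.lam⁻¹ al * D.tau u1 + _
      rw [hu1]
      simp
      ring

theorem preN_isN (D : PFM K δ) {r : ℝ} (al be : PowerSeries ℤ) (hal : TS r al)
    (hbe : TS r be) (hl1 : sv D.lam⁻¹ al + sv D.lam⁻¹ be < 1) (u0 u1 : K) (y : KB)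
    (h0y : F.s u0 = F.b y) (h1y : F.s u1 = F.b y) (hu : 0 < D.tau u0)
    (hu1 : D.tau u1 = D.tau u0) (n : KN) (hn : u1 - u0 = F.i n) :
    (preN D al be hal hbe hl1 u0 u1 y h0y h1y hu hu1).IsN n :=
  ⟨(0 : Fin 2), (1 : Fin 2), Fin.zero_ne_one, fun i => by
    change Fin 2 at i
    fin_cases i
    · exact Or.inl rfl
    · exact Or.inr rfl, rfl, hn⟩

/-- (H2): one component with two blocks of one element, of the classes `u0`, `u1` -/
noncomputable def preH (D : PFM K δ) {r : ℝ} (al be : PowerSeries ℤ) (hal : TS r al)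
    (hbe : TS r be) (u0 u1 : K) (y : KB) (hy : F.s (u0 + u1) = F.b y)
    (hu0 : 0 < D.tau u0) (hu1 : 0 < D.tau u1)
    (hv0 : sv D.lam⁻¹ al * D.tau u0 + sv D.lam⁻¹ be * D.tau u1 < D.tau u0)
    (hv1 : sv D.lam⁻¹ be * D.tau u0 + sv D.lam⁻¹ al * D.tau u1 < D.tau u1) : PreFib F D r where
  I := Fin 2
  Bl := Fin 2
  Co := Unit
  fI := inferInstance
  fB := inferInstance
  fC := inferInstance
  blk := id
  cmp := fun _ => ()
  sB := Function.surjective_id
  sC := fun _ => ⟨0, rfl⟩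
  ne := ⟨()⟩
  DI := tw al be
  DB := tw al be
  DC := un (al + be)
  l := al + be
  h1 := fun i b' => by
    rw [Fin.sum_univ_two]
    fin_cases b' <;> simp
  h2 := fun i b' => by
    rw [Fin.sum_univ_two]
    fin_cases b'
    · simp [un_apply, tw_apply]
    · simp [un_apply, tw_apply, add_comm]
  h3 := fun i => by simp [un_apply]
  dN := 1
  dH := 1 - (al - be)
  hdH := (congrArg (fun z => (1 - (al - be)) * z) (det_un_ps (al + be)).symm).trans (det_tw_ps al be)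
  hdN := (by ring : 1 * ((1 - (al + be)) * (1 - (al - be))) =
    (1 - (al - be)) * (1 - (al + be))).trans (det_tw_ps al be)
  c := ![u0, u1]
  cb := y
  hc := fun a t h1 _ => by
    have h2 : ∀ b : Fin 2, t b = 1 := by
      intro b
      have h3 := h1 b rfl
      rw [Fin.sum_univ_two] at h3
      fin_cases b
      · simpa using h3
      · simpa using h3
    rw [Fin.sum_univ_two, h2 0, h2 1, Nat.cast_one, one_smul, one_smul]
    exact hy
  wt := fun _ => 1
  kap := 2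
  wt_pos := fun _ => one_pos
  hwt := fun a => by simp
  tsD := fun i i' => by
    fin_cases i <;> fin_cases i' <;> assumption
  c_pos := fun i => by
    fin_cases i
    · exact hu0
    · exact hu1
  Th := Fin 2
  fT := inferInstance
  tv := ![D.tau u0 - (sv D.lam⁻¹ al * D.tau u0 + sv D.lam⁻¹ be * D.tau u1),
    D.tau u1 - (sv D.lam⁻¹ be * D.tau u0 + sv D.lam⁻¹ al * D.tau u1)]
  tv_pos := fun θ => by
    fin_cases θ
    · exact sub_pos.2 hv0
    · exact sub_pos.2 hv1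
  n := fun b θ => if b = θ then 1 else 0
  n_ne := fun b => ⟨b, by rw [if_pos rfl]; exact one_ne_zero⟩
  kn := fun _ => 1
  hn := fun a θ => by simp
  bal := fun i => by
    rw [Fin.sum_univ_two, Fin.sum_univ_two]
    fin_cases i
    · show D.tau u0 = sv D.lam⁻¹ al * D.tau u0 + sv D.lam⁻¹ be * D.tau u1 + _
      simp
    · show D.tau u1 = sv D.lam⁻¹ be * D.tau u0 + sv D.lam⁻¹ al * D.tau u1 + _
      simp

theorem preH_isH (D : PFM K δ) {r : ℝ} (al be : PowerSeries ℤ) (hal : TS r al)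
    (hbe : TS r be) (u0 u1 : K) (y : KB) (hy : F.s (u0 + u1) = F.b y)
    (hu0 : 0 < D.tau u0) (hu1 : 0 < D.tau u1)
    (hv0 : sv D.lam⁻¹ al * D.tau u0 + sv D.lam⁻¹ be * D.tau u1 < D.tau u0)
    (hv1 : sv D.lam⁻¹ be * D.tau u0 + sv D.lam⁻¹ al * D.tau u1 < D.tau u1) (h : KH)
    (h0 : F.p (F.s u0) = h) (h1 : F.p (F.s u1) = -h) :
    (preH D al be hal hbe u0 u1 y hy hu0 hu1 hv0 hv1).IsH h :=
  ⟨(0 : Fin 2), (1 : Fin 2), fun i => by
    change Fin 2 at i
    fin_cases i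
    · exact Or.inl rfl
    · exact Or.inr rfl, Fin.zero_ne_one, rfl, h0, h1⟩

end kinds

end Pool.Agent.FTO
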