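import Pool.Agent.FTO.Lvl
import Pool.Agent.FTO.Kinds

/-!
# FTO: the weights of a system
-/

set_option autoImplicit false

open scoped BigOperators
open Matrix Polynomial

namespace Pool.Agent.FTO

attribute [local instance] Classical.propDecidable

namespace PSys

variable (X : PSys)

/-- number of blocks of a component -/
noncomputable def nb (a : X.Co) : ℕ := Fintype.card {b // X.cmp b = a}

/-- product of all numbers of blocks -/
noncomputable def Nn : ℕ := ∏ a, X.nb a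

/-- the weight of a block -/
noncomputable def w (b : X.Bl) : ℕ := X.Nn / X.nb (X.cmp b)

theorem nb_pos (a : X.Co) : 0 < X.nb a := by
  obtain ⟨b, hb⟩ := X.sC a
  exact Fintype.card_pos_iff.2 ⟨⟨b, hb⟩⟩

theorem Nn_pos : 0 < X.Nn := Finset.prod_pos fun a _ => X.nb_pos a

theorem w_mul (b : X.Bl) : X.w b * X.nb (X.cmp b) = X.Nn :=
  Nat.div_mul_cancel (Finset.dvd_prod_of_mem _ (Finset.mem_univ _))

theorem w_pos (b : X.Bl) : 0 < X.w b := by
  rcases Nat.eq_zero_or_pos (X.w b) with h | h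
  · have := X.w_mul b
    rw [h, zero_mul] at this
    exact absurd this.symm X.Nn_pos.ne'
  · exact h

theorem nb_pC (a : X.Co) : X.nb (X.pC a) = X.nb a := by
  refine (Fintype.card_congr ?_).symm
  refine X.pB.subtypeEquiv fun b => ?_
  rw [X.hC, X.pC.injective.eq_iff]

theorem w_pB (b : X.Bl) : X.w (X.pB b) = X.w b := by
  unfold w
  rw [X.hC, X.nb_pC]

theorem w_blk (i : X.I) : X.w (X.blk (X.pI i)) = X.w (X.blk i) := by
  rw [X.hB, X.w_pB]

theorem sum_w (a : X.Co) : (∑ b, if X.cmp b = a then X.w b else 0) = X.Nn := by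
  have h : ∀ b, (if X.cmp b = a then X.w b else 0) =
      if X.cmp b = a then X.Nn / X.nb a else 0 := by
    intro b
    split_ifs with hb
    · rw [w, hb]
    · rfl
  rw [Finset.sum_congr rfl fun b _ => h b, ← Finset.sum_filter, Finset.sum_const, smul_eq_mul]
  have h2 : (Finset.univ.filter fun b => X.cmp b = a).card = X.nb a := by
    rw [nb, Fintype.card_subtype]
  rw [h2, mul_comm]
  exact Nat.div_mul_cancel (Finset.dvd_prod_of_mem _ (Finset.mem_univ _))

/-- the weight of a transversal -/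
theorem tr_w (a : X.Co) (t : X.I → ℕ)
    (h1 : ∀ b, X.cmp b = a → ∑ i, (if X.blk i = b then t i else 0) = 1)
    (h2 : ∀ i, X.cmp (X.blk i) ≠ a → t i = 0) : ∑ i, t i * X.w (X.blk i) = X.Nn := by
  have h3 : ∀ b, (∑ i, (if X.blk i = b then t i else 0)) * X.w b =
      if X.cmp b = a then X.w b else 0 := by
    intro b
    by_cases hb : X.cmp b = a
    · rw [h1 b hb, one_mul, if_pos hb]
    · rw [if_neg hb]
      have : (∑ i, (if X.blk i = b then t i else 0)) = 0 := by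
        refine Finset.sum_eq_zero fun i _ => ?_
        split_ifs with hi
        · apply h2
          rw [hi]
          exact hb
        · rfl
      rw [this, zero_mul]
  rw [← X.sum_w a, ← Finset.sum_congr rfl fun b _ => h3 b]
  simp only [Finset.sum_mul]
  rw [Finset.sum_comm]
  refine Finset.sum_congr rfl fun i _ => ?_
  rw [Finset.sum_eq_single (X.blk i)]
  · rw [if_pos rfl]
  · intro b _ hb
    rw [if_neg (fun h => hb h.symm), zero_mul]
  · intro h
    exact absurd (Finset.mem_univ _) h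

open Pool.Agent.SSE in
theorem ts_pm {r : ℝ} {d : ℕ} (hd : 0 < d) {I : Type} (π : Equiv.Perm I) (i j : I) :
    TS r (((PowerSeries.X ^ d : PowerSeries ℤ) • pm (PowerSeries ℤ) π) i j) := by
  rw [Matrix.smul_apply, pm, Matrix.of_apply]
  split_ifs
  · rw [smul_eq_mul, mul_one]
    refine ⟨?_, HN.nn_X_pow d, ?_⟩
    · rw [PowerSeries.coeff_X_pow, if_neg hd.ne]
    · show PF.HasN r (HN.toRS (PowerSeries.X ^ d))
      rw [map_pow]
      have : HN.toRS PowerSeries.X = ((Polynomial.X : ℝ[X]) : PowerSeries ℝ) := by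
        unfold HN.toRS
        rw [PowerSeries.map_X, Polynomial.coe_X]
      rw [this, ← Polynomial.coe_pow]
      exact PF.hasN_poly r _
  · rw [smul_zero]
    refine ⟨map_zero _, fun d => by rw [map_zero], ?_⟩
    show PF.HasN r (HN.toRS 0)
    rw [map_zero]
    exact PF.hasN_zero r

open Pool.Agent.SSE in
theorem sv_pm {x : ℝ} {d : ℕ} {I : Type} (π : Equiv.Perm I) (i j : I) :
    sv x (((PowerSeries.X ^ d : PowerSeries ℤ) • pm (PowerSeries ℤ) π) i j) =
      if π i = j then x ^ d else 0 := by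
  rw [Matrix.smul_apply, pm, Matrix.of_apply]
  split_ifs
  · rw [smul_eq_mul, mul_one]
    show PF.ev x (HN.toRS (PowerSeries.X ^ d)) = _
    unfold PF.ev
    rw [tsum_eq_single d]
    · rw [HN.coeff_toRS, PowerSeries.coeff_X_pow, if_pos rfl, Int.cast_one, one_mul]
    · intro n hn
      rw [HN.coeff_toRS, PowerSeries.coeff_X_pow, if_neg hn, Int.cast_zero, zero_mul]
  · rw [smul_zero]
    show PF.ev x (HN.toRS 0) = _
    unfold PF.ev
    simp

end PSys

section kind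

open Pool.Agent.SSE

variable {K KN KB KH L : Type} [AddCommGroup K] [Module ℤ[X] K] [AddCommGroup KN]
  [Module ℤ[X] KN] [AddCommGroup KB] [Module ℤ[X] KB] [AddCommGroup KH] [Module ℤ[X] KH]
  [AddCommGroup L] [Module ℤ[X] L]
  {F : Fil K KN KB KH L} {δ : ℤ[X]} {D : PFM K δ} {r : ℝ}

/-- (Y): low orbits -/
noncomputable def preY (D : PFM K δ) {r : ℝ} (X : PSys) {d : ℕ} (hd : 0 < d) {z : K} {y : KB}
    (hzy : F.s z = F.b y) (hz : 0 < D.tau z) (dN dH : PowerSeries ℤ)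
    (hH : dH * pdet X.pC (PowerSeries.X ^ d) = pdet X.pB (PowerSeries.X ^ d))
    (hN : dN * ((1 - PowerSeries.X ^ d) * dH) = pdet X.pI (PowerSeries.X ^ d)) :
    PreFib F D r where
  I := X.I
  Bl := X.Bl
  Co := X.Co
  fI := X.finI
  fB := X.finB
  fC := X.finC
  blk := X.blk
  cmp := X.cmp
  sB := X.sB
  sC := X.sC
  ne := ⟨X.cmp X.b0⟩
  DI := (PowerSeries.X ^ d : PowerSeries ℤ) • pm (PowerSeries ℤ) X.pI
  DB := (PowerSeries.X ^ d : PowerSeries ℤ) • pm (PowerSeries ℤ) X.pB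
  DC := (PowerSeries.X ^ d : PowerSeries ℤ) • pm (PowerSeries ℤ) X.pC
  l := PowerSeries.X ^ d
  h1 := X.pm_bs _
  h2 := X.pm_cs _
  h3 := X.pm_fs _
  dN := dN
  dH := dH
  hdH := by rw [← pdet_eq, ← pdet_eq, hH]
  hdN := by rw [← pdet_eq, hN]
  c := fun i => (X.w (X.blk i) : ℤ[X]) • z
  cb := (X.Nn : ℤ[X]) • y
  hc := fun a t h1 h2 => by
    rw [map_smul, ← hzy, ← map_smul, ← X.tr_w a t h1 h2]
    congr 1
    push_cast
    rw [Finset.sum_smul]
    exact Finset.sum_congr rfl fun i _ => smul_smul _ _ _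
  wt := X.w
  kap := X.Nn
  wt_pos := X.w_pos
  hwt := X.sum_w
  tsD := PSys.ts_pm hd X.pI
  c_pos := fun i => by
    have h1 : D.tau ((X.w (X.blk i) : ℤ[X]) • z) = (X.w (X.blk i) : ℝ) * D.tau z := by
      rw [Nat.cast_smul_eq_nsmul, map_nsmul, nsmul_eq_mul]
    rw [h1]
    exact mul_pos (Nat.cast_pos.2 (X.w_pos _)) hz
  Th := Unit
  fT := inferInstance
  tv := fun _ => (1 - D.lam⁻¹ ^ d) * D.tau z
  tv_pos := fun _ => by
    refine mul_pos ?_ hz
    rw [sub_pos]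
    exact pow_lt_one₀ (inv_nonneg.2 (by linarith [D.one_lt])) (inv_lt_one_of_one_lt₀ D.one_lt) hd.ne'
  n := fun b _ => X.w b
  n_ne := fun b => ⟨(), (X.w_pos b).ne'⟩
  kn := fun _ => X.Nn
  hn := fun a _ => X.sum_w a
  bal := fun i => by
    have h1 : ∀ j, D.tau ((X.w (X.blk j) : ℤ[X]) • z) = (X.w (X.blk j) : ℝ) * D.tau z := by
      intro j
      rw [Nat.cast_smul_eq_nsmul, map_nsmul, nsmul_eq_mul]
    have h2 : ∑ _θ : Unit, (X.w (X.blk i) : ℝ) * ((1 - D.lam⁻¹ ^ d) * D.tau z) =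
        (X.w (X.blk i) : ℝ) * ((1 - D.lam⁻¹ ^ d) * D.tau z) :=
      Finset.sum_const _ |>.trans (by simp)
    rw [h2, Finset.sum_eq_single (X.pI i)]
    · rw [PSys.sv_pm, if_pos rfl, h1, h1, X.w_blk]
      ring
    · intro j _ hj
      rw [PSys.sv_pm, if_neg (fun h => hj h.symm), zero_mul]
    · intro h
      exact absurd (Finset.mem_univ _) h

/-- **kind (Y)**, generic form -/
theorem exists_fibY (hr : 1 < D.lam * r) (hr1 : r < 1) {e : ℕ} (he : 0 < e) (X : PSys) {d : ℕ}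
    (hd : 0 < d) {z : K} {y : KB} (hzy : F.s z = F.b y) (hz : 0 < D.tau z)
    (dN dH : PowerSeries ℤ)
    (hH : dH * pdet X.pC (PowerSeries.X ^ d) = pdet X.pB (PowerSeries.X ^ d))
    (hN : dN * ((1 - PowerSeries.X ^ d) * dH) = pdet X.pI (PowerSeries.X ^ d)) :
    ∃ ξ0 : ℝ, 0 < ξ0 ∧ ∀ ξ : ℝ, 0 < ξ → ξ ≤ ξ0 → ∃ Y : Fib F D r ξ e,
      Y.l = PowerSeries.X ^ d ∧ Y.dN = dN ∧ Y.dH = dH ∧ Y.cb = X.Nn • y ∧
      (∃ C : ℕ, ∀ d, PowerSeries.coeff d Y.kq ≤ (C : ℤ)) ∧ HN.Nn Y.kq := by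
  obtain ⟨ξ0, h0, h⟩ := (preY (r := r) D X hd hzy hz dN dH hH hN).exists_fib hr hr1 e he
  refine ⟨ξ0, h0, fun ξ hξ hξ1 => ?_⟩
  obtain ⟨Y, k1, k2, k3, k4, k5, k6, -, -⟩ := h ξ hξ hξ1
  refine ⟨Y, k1, k2, k3, ?_, k5, k6⟩
  rw [k4]
  exact Nat.cast_smul_eq_nsmul _ _ _

end kind

end Pool.Agent.FTO
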