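import Pool.Agent.FTO.Kinds

/-!
# FTO, A2: the kinds (T), (B), (N2), (H2) in packed form
-/

set_option autoImplicit false

open scoped BigOperators
open Matrix Polynomial

namespace Pool.Agent.FTO

open Pool.Agent.SSE

attribute [local instance] Classical.propDecidable

variable {K KN KB KH L : Type} [AddCommGroup K] [Module ℤ[X] K] [AddCommGroup KN]
  [Module ℤ[X] KN] [AddCommGroup KB] [Module ℤ[X] KB] [AddCommGroup KH] [Module ℤ[X] KH]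
  [AddCommGroup L] [Module ℤ[X] L]

variable {F : Fil K KN KB KH L} {δ : ℤ[X]} {D : PFM K δ} {r : ℝ} {e : ℕ}

theorem ts_add {r : ℝ} (hr : 0 ≤ r) {f g : PowerSeries ℤ} (hf : TS r f) (hg : TS r g) :
    TS r (f + g) := by
  refine ⟨by rw [map_add, hf.c0, hg.c0, add_zero], hf.nn.add hg.nn, ?_⟩
  show PF.HasN r (HN.toRS (f + g))
  rw [map_add]
  exact PF.HasN.add hr hf.fn hg.fn

theorem sv_add' (hr : 1 < D.lam * r) {f g : PowerSeries ℤ} (hf : TS r f) (hg : TS r g) :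
    sv D.lam⁻¹ (f + g) = sv D.lam⁻¹ f + sv D.lam⁻¹ g := by
  have hlam : 0 < D.lam := lt_trans one_pos D.one_lt
  have h1 : ‖D.lam⁻¹‖ ≤ r := by
    rw [Real.norm_of_nonneg (inv_pos.2 hlam).le, inv_eq_one_div, div_le_iff₀ hlam]
    linarith
  show PF.ev D.lam⁻¹ (HN.toRS (f + g)) = _
  rw [map_add, PF.ev_add hf.fn hg.fn h1]

/-- the conclusion of `PreFib.exists_fib`, packed -/
theorem exists_T (hr : 1 < D.lam * r) (hr1 : r < 1) (he : 0 < e) (l : PowerSeries ℤ)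
    (hl : TS r l) (hl1 : sv D.lam⁻¹ l < 1) (z : K) (y : KB) (hzy : F.s z = F.b y)
    (hz : 0 < D.tau z) :
    ∃ ξ0 : ℝ, 0 < ξ0 ∧ ∀ ξ : ℝ, 0 < ξ → ξ ≤ ξ0 → ∃ Y : Fib F D r ξ e,
      Y.l = l ∧ Y.dN = 1 ∧ Y.dH = 1 ∧ Y.cb = y ∧
      (∃ C : ℕ, ∀ d, PowerSeries.coeff d Y.kq ≤ C) ∧ (∀ d, 0 ≤ PowerSeries.coeff d Y.kq) := by
  obtain ⟨ξ0, h1, h2⟩ := (preT (F := F) D l hl hl1 z y hzy hz).exists_fib hr hr1 e he
  refine ⟨ξ0, h1, fun ξ hξ hξ1 => ?_⟩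
  obtain ⟨Y, h3, h4, h5, h6, h7, h8, -, -⟩ := h2 ξ hξ hξ1
  exact ⟨Y, h3, h4, h5, h6, h7, h8⟩

theorem exists_N2 (hr : 1 < D.lam * r) (hr1 : r < 1) (he : 0 < e) (al be : PowerSeries ℤ)
    (hal : TS r al) (hbe : TS r be) (hl1 : sv D.lam⁻¹ (al + be) < 1) (U : K) (b0 : KB)
    (hU : F.s U = F.b b0) (hU0 : 0 < D.tau U) (n : KN) (hn : D.tau (F.i n) = 0) :
    ∃ ξ0 : ℝ, 0 < ξ0 ∧ ∀ ξ : ℝ, 0 < ξ → ξ ≤ ξ0 → ∃ Y : Fib F D r ξ e,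
      Y.l = al + be ∧ Y.dN = 1 - (al - be) ∧ Y.dH = 1 ∧ Y.cb = b0 ∧
      (∃ C : ℕ, ∀ d, PowerSeries.coeff d Y.kq ≤ C) ∧ (∀ d, 0 ≤ PowerSeries.coeff d Y.kq) ∧
      Y.IsN n := by
  have hs : F.s (F.i n) = 0 := (F.exK _).2 ⟨n, rfl⟩
  have h1y : F.s (U + F.i n) = F.b b0 := by rw [map_add, hs, add_zero, hU]
  have ht : D.tau (U + F.i n) = D.tau U := by rw [map_add, hn, add_zero]
  rw [sv_add' hr hal hbe] at hl1
  obtain ⟨ξ0, h1, h2⟩ := (preN (F := F) D al be hal hbe hl1 U (U + F.i n) b0 hU h1y hU0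
    ht).exists_fib hr hr1 e he
  refine ⟨ξ0, h1, fun ξ hξ hξ1 => ?_⟩
  obtain ⟨Y, h3, h4, h5, h6, h7, h8, h9, -⟩ := h2 ξ hξ hξ1
  exact ⟨Y, h3, h4, h5, h6, h7, h8,
    h9 n (preN_isN D al be hal hbe hl1 U (U + F.i n) b0 hU h1y hU0 ht n (add_sub_cancel_left _ _))⟩

/-- (H2) with loops, both classes `U` -/
theorem exists_H2_loops (hr : 1 < D.lam * r) (hr1 : r < 1) (he : 0 < e) (al be : PowerSeries ℤ)
    (hal : TS r al) (hbe : TS r be) (hl1 : sv D.lam⁻¹ (al + be) < 1) (U : K) (b0 : KB)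
    (hU : F.s U = F.b b0) (hU0 : 0 < D.tau U) :
    ∃ ξ0 : ℝ, 0 < ξ0 ∧ ∀ ξ : ℝ, 0 < ξ → ξ ≤ ξ0 → ∃ Y : Fib F D r ξ e,
      Y.l = al + be ∧ Y.dN = 1 ∧ Y.dH = 1 - (al - be) ∧ Y.cb = (2 * 1 : ℕ) • b0 ∧
      (∃ C : ℕ, ∀ d, PowerSeries.coeff d Y.kq ≤ C) ∧ (∀ d, 0 ≤ PowerSeries.coeff d Y.kq) := by
  rw [sv_add' hr hal hbe] at hl1
  have hy : F.s (U + U) = F.b ((2 * 1 : ℕ) • b0) := by
    rw [mul_one, two_nsmul, map_add, map_add, hU]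
  obtain ⟨ξ0, h1, h2⟩ := (preH (F := F) D al be hal hbe U U ((2 * 1 : ℕ) • b0) hy hU0 hU0
    (by nlinarith) (by nlinarith)).exists_fib hr hr1 e he
  refine ⟨ξ0, h1, fun ξ hξ hξ1 => ?_⟩
  obtain ⟨Y, h3, h4, h5, h6, h7, h8, -, -⟩ := h2 ξ hξ hξ1
  exact ⟨Y, h3, h4, h5, h6, h7, h8⟩

theorem ts_zero (r : ℝ) : TS r (0 : PowerSeries ℤ) := by
  refine ⟨map_zero _, HN.nn_zero, ?_⟩
  show PF.HasN r (HN.toRS 0)
  rw [map_zero]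
  exact PF.hasN_zero r

theorem sv_zero (x : ℝ) : sv x (0 : PowerSeries ℤ) = 0 := by
  show PF.ev x (HN.toRS 0) = 0
  rw [map_zero]
  unfold PF.ev
  simp

/-- (H2) without loops, the classes `z0 + m U` and `- z0 + m U` for large `m` -/
theorem exists_H2_class (hr : 1 < D.lam * r) (hr1 : r < 1) (he : 0 < e) (U : K) (b0 : KB)
    (hU : F.s U = F.b b0) (hU0 : 0 < D.tau U) (z0 : K) :
    ∃ m : ℕ, 0 < m ∧ ∃ ξ0 : ℝ, 0 < ξ0 ∧ ∀ ξ : ℝ, 0 < ξ → ξ ≤ ξ0 → ∃ Y : Fib F D r ξ e,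
      Y.l = 0 ∧ Y.dN = 1 ∧ Y.dH = 1 ∧ Y.cb = (2 * m : ℕ) • b0 ∧
      (∃ C : ℕ, ∀ d, PowerSeries.coeff d Y.kq ≤ C) ∧ (∀ d, 0 ≤ PowerSeries.coeff d Y.kq) ∧
      Y.IsH (F.p (F.s z0)) := by
  obtain ⟨m, hm⟩ := exists_nat_gt (|D.tau z0| / D.tau U)
  rw [div_lt_iff₀ hU0] at hm
  have hm0 : 0 < m := by
    rcases Nat.eq_zero_or_pos m with h | h
    · rw [h, Nat.cast_zero, zero_mul] at hm
      exact absurd hm (not_lt.2 (abs_nonneg _))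
    · exact h
  have hp : F.p (F.s (m • U)) = 0 := by
    rw [map_nsmul, hU, map_nsmul, (F.exL (F.b b0)).2 ⟨b0, rfl⟩, smul_zero]
  have ht0 : D.tau (z0 + m • U) = D.tau z0 + m * D.tau U := by
    rw [map_add, map_nsmul, nsmul_eq_mul]
  have ht1 : D.tau (-z0 + m • U) = -D.tau z0 + m * D.tau U := by
    rw [map_add, map_neg, map_nsmul, nsmul_eq_mul]
  have h0 : 0 < D.tau (z0 + m • U) := by
    rw [ht0]
    have := neg_abs_le (D.tau z0)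
    linarith
  have h0' : 0 < D.tau (-z0 + m • U) := by
    rw [ht1]
    have := le_abs_self (D.tau z0)
    linarith
  have hy : F.s ((z0 + m • U) + (-z0 + m • U)) = F.b ((2 * m : ℕ) • b0) := by
    have e1 : (z0 + m • U) + (-z0 + m • U) = (2 * m : ℕ) • U := by
      rw [two_mul, add_nsmul]
      abel
    rw [e1, map_nsmul, map_nsmul, hU]
  obtain ⟨ξ0, h1, h2⟩ := (preH (F := F) D 0 0 (ts_zero r) (ts_zero r) (z0 + m • U) (-z0 + m • U)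
    ((2 * m : ℕ) • b0) hy h0 h0' (by rw [sv_zero]; linarith) (by rw [sv_zero]; linarith)).exists_fib
      hr hr1 e he
  refine ⟨m, hm0, ξ0, h1, fun ξ hξ hξ1 => ?_⟩
  obtain ⟨Y, h3, h4, h5, h6, h7, h8, -, h9⟩ := h2 ξ hξ hξ1
  refine ⟨Y, ?_, h4, ?_, h6, h7, h8, h9 _ (preH_isH D 0 0 (ts_zero r) (ts_zero r) (z0 + m • U)
    (-z0 + m • U) ((2 * m : ℕ) • b0) hy h0 h0' _ _ _ ?_ ?_)⟩
  · rw [h3]
    exact add_zero 0
  · rw [h5]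
    show (1 : PowerSeries ℤ) - (0 - 0) = 1
    rw [sub_zero, sub_zero]
  · rw [map_add, map_add, hp, add_zero]
  · rw [map_add, map_add, hp, add_zero, map_neg, map_neg]

end Pool.Agent.FTO
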