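import Pool.Agent.SSE.PresOf

/-!
# FTO, T-REL: relation matrices of families of generators

* `RelOf.tri`: adding generators by a block triangular matrix;
* `RelOf.re`: renumbering; `RelOf.change`: change of generators; `RelOf.signs`;
* `RelOf.of_subfamily`: a family which contains a subfamily with a square relation matrix has one;
* `RelOf.hub`: the relation matrix of the classes `x`, `w`, `v` with the prescribed row `x`.
-/

set_option autoImplicit false

open scoped BigOperators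
open Matrix Polynomial

namespace Pool.Agent.FTO

open Pool.Agent.SSE

attribute [local instance] Classical.propDecidable

variable {ι κ Φ : Type} [Fintype ι] [Fintype κ] [Fintype Φ]
variable {K : Type} [AddCommGroup K] [Module ℤ[X] K]

/-- adding generators: the new rows are `(D, W)` with `D` invertible -/
theorem relOf_tri {δ : ℤ[X]} {g : ι → K} {R : Matrix ι ι ℤ[X]} (h : RelOf δ g R) (g' : κ → K)
    (D D' : Matrix κ κ ℤ[X]) (W : Matrix κ ι ℤ[X]) (hD : D' * D = 1) (hdet : D.det = 1)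
    (hW : ∀ k, ∑ l, D k l • g' l + ∑ i, W k i • g i = 0) :
    RelOf δ (Sum.elim g' g) (fromBlocks D W 0 R : Matrix (κ ⊕ ι) (κ ⊕ ι) ℤ[X]) := by
  refine ⟨?_, ?_, ?_, ?_⟩
  · rintro (k | i)
    · rw [Fintype.sum_sum_type]
      simpa using hW k
    · rw [Fintype.sum_sum_type]
      simpa using h.rel i
  · intro v hv
    rw [Fintype.sum_sum_type] at hv
    simp only [Sum.elim_inl, Sum.elim_inr] at hv
    -- the coefficients of the new rows
    have hc : ((fun k => v (Sum.inl k)) ᵥ* D') ᵥ* D = fun k => v (Sum.inl k) := by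
      rw [Matrix.vecMul_vecMul, hD, Matrix.vecMul_one]
    obtain ⟨c, hcd⟩ : ∃ c : κ → ℤ[X], c = (fun k => v (Sum.inl k)) ᵥ* D' := ⟨_, rfl⟩
    rw [← hcd] at hc
    have h1 : ∑ l, (c ᵥ* D) l • g' l + ∑ i, (c ᵥ* W) i • g i = 0 := by
      have e1 : ∑ l, (c ᵥ* D) l • g' l = ∑ k, c k • ∑ l, D k l • g' l := by
        simp only [Matrix.vecMul, dotProduct, Finset.sum_smul, mul_smul, Finset.smul_sum]
        rw [Finset.sum_comm]
      have e2 : ∑ i, (c ᵥ* W) i • g i = ∑ k, c k • ∑ i, W k i • g i := by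
        simp only [Matrix.vecMul, dotProduct, Finset.sum_smul, mul_smul, Finset.smul_sum]
        rw [Finset.sum_comm]
      rw [e1, e2, ← Finset.sum_add_distrib]
      refine Finset.sum_eq_zero fun k _ => ?_
      rw [← smul_add, hW k, smul_zero]
    have h2 : ∑ i, (v (Sum.inr i) - (c ᵥ* W) i) • g i = 0 := by
      simp only [sub_smul, Finset.sum_sub_distrib]
      rw [hc] at h1
      have h3 := sub_eq_zero.2 (hv.trans h1.symm)
      rw [add_sub_add_left_eq_sub] at h3
      exact h3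
    obtain ⟨d, hd⟩ := h.span _ h2
    refine ⟨Sum.elim c d, ?_⟩
    funext j
    rcases j with k | i
    · have := congrFun hc k
      simp only [Matrix.vecMul, dotProduct, Fintype.sum_sum_type, Sum.elim_inl, Sum.elim_inr,
        fromBlocks_apply₁₁, fromBlocks_apply₂₁, Matrix.zero_apply, mul_zero,
        Finset.sum_const_zero, add_zero] at this ⊢
      exact this.symm
    · have := congrFun hd i
      simp only [Matrix.vecMul, dotProduct, Fintype.sum_sum_type, Sum.elim_inl, Sum.elim_inr,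
        fromBlocks_apply₁₂, fromBlocks_apply₂₂] at this ⊢
      rw [← this]
      ring
  · intro z
    obtain ⟨v, hv⟩ := h.top z
    refine ⟨Sum.elim 0 v, ?_⟩
    rw [Fintype.sum_sum_type]
    simpa using hv
  · have h1 : (fromBlocks D W 0 R : Matrix (κ ⊕ ι) (κ ⊕ ι) ℤ[X]).det = δ := by
      rw [det_fromBlocks_zero₂₁, hdet, one_mul, h.det]
    exact cast (by congr) h1

/-- adding arbitrary elements to the family -/
theorem relOf_src {δ : ℤ[X]} {g : ι → K} {R : Matrix ι ι ℤ[X]} (h : RelOf δ g R) (g' : κ → K) :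
    ∃ R' : Matrix (κ ⊕ ι) (κ ⊕ ι) ℤ[X], RelOf δ (Sum.elim g' g) R' := by
  choose w hw using fun j : κ => h.top (g' j)
  refine ⟨_, relOf_tri h _ 1 1 (-(of w)) (Matrix.one_mul 1) det_one fun j => ?_⟩
  have e1 : ∑ l, (1 : Matrix κ κ ℤ[X]) j l • g' l = g' j := by
    rw [Finset.sum_eq_single j]
    · rw [Matrix.one_apply_eq, one_smul]
    · intro l _ hl
      rw [Matrix.one_apply_ne (Ne.symm hl), zero_smul]
    · simp
  rw [e1]
  conv_lhs => rw [hw j]
  simp

/-- renumbering -/
theorem relOf_re {δ : ℤ[X]} {g : ι → K} {R : Matrix ι ι ℤ[X]} (h : RelOf δ g R) (e : κ ≃ ι) :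
    RelOf δ (fun k => g (e k)) (R.submatrix e e) := by
  refine ⟨?_, ?_, ?_, ?_⟩
  · intro i
    have h1 := h.rel (e i)
    rw [← Equiv.sum_comp e] at h1
    exact h1
  · intro v hv
    obtain ⟨c, hc⟩ := h.span (fun i => v (e.symm i)) (by
      rw [← Equiv.sum_comp e]
      simpa using hv)
    refine ⟨fun k => c (e k), ?_⟩
    funext k
    have h1 := congrFun hc (e k)
    simp only [Equiv.symm_apply_apply, Matrix.vecMul, dotProduct] at h1 ⊢
    rw [h1, ← Equiv.sum_comp e]
    rfl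
  · intro z
    obtain ⟨v, hv⟩ := h.top z
    refine ⟨fun k => v (e k), ?_⟩
    rw [hv]
    exact (Equiv.sum_comp e fun j => v j • g j).symm
  · rw [det_submatrix_equiv_self, h.det]

/-- change of generators -/
theorem relOf_change {δ : ℤ[X]} {g : ι → K} {R : Matrix ι ι ℤ[X]} (h : RelOf δ g R)
    (U V : Matrix ι ι ℤ[X]) (hUV : U * V = 1) :
    RelOf δ (fun i => ∑ j, U i j • g j) (U * R * V) := by
  have hVU : V * U = 1 := mul_eq_one_comm.1 hUV
  have key : ∀ v : ι → ℤ[X], ∑ i, v i • ∑ j, U i j • g j = ∑ j, (v ᵥ* U) j • g j := by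
    intro v
    simp only [Matrix.vecMul, dotProduct, Finset.sum_smul, mul_smul, Finset.smul_sum]
    rw [Finset.sum_comm]
  refine ⟨?_, ?_, ?_, ?_⟩
  · intro i
    rw [key]
    have h1 : (U * R * V) i ᵥ* U = U i ᵥ* R := by
      have h2 : (U * R * V) * U = U * R := by rw [Matrix.mul_assoc, hVU, Matrix.mul_one]
      exact congrFun h2 i
    rw [h1]
    exact rel_vecMul h.rel _
  · intro v hv
    rw [key] at hv
    obtain ⟨c, hc⟩ := h.span _ hv
    refine ⟨c ᵥ* V, ?_⟩
    have h1 : v = (v ᵥ* U) ᵥ* V := by rw [Matrix.vecMul_vecMul, hUV, Matrix.vecMul_one]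
    rw [Matrix.vecMul_vecMul, ← Matrix.mul_assoc, ← Matrix.mul_assoc, hVU, Matrix.one_mul,
      ← Matrix.vecMul_vecMul, ← hc]
    exact h1
  · intro z
    obtain ⟨v, hv⟩ := h.top z
    refine ⟨v ᵥ* V, ?_⟩
    rw [key, Matrix.vecMul_vecMul, hVU, Matrix.vecMul_one]
    exact hv
  · have h1 : U.det * V.det = 1 := by rw [← det_mul, hUV, det_one]
    rw [det_mul, det_mul, h.det]
    linear_combination δ * h1

/-- changing the signs of the generators -/
theorem relOf_signs {δ : ℤ[X]} {g : ι → K} {R : Matrix ι ι ℤ[X]} (h : RelOf δ g R)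
    (ε : ι → ℤ[X]) (hε : ∀ i, ε i * ε i = 1) :
    ∃ R' : Matrix ι ι ℤ[X], RelOf δ (fun i => ε i • g i) R' := by
  have h1 : diagonal ε * diagonal ε = (1 : Matrix ι ι ℤ[X]) := by
    rw [diagonal_mul_diagonal, ← diagonal_one]
    congr 1
    funext i
    exact hε i
  refine ⟨diagonal ε * R * diagonal ε, ?_⟩
  have h2 := relOf_change h (diagonal ε) (diagonal ε) h1
  have h3 : (fun i => ∑ j, (diagonal ε : Matrix ι ι ℤ[X]) i j • g j) = fun i => ε i • g i := by
    funext i
    rw [Finset.sum_eq_single i]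
    · rw [diagonal_apply_eq]
    · intro j _ hj
      rw [diagonal_apply_ne _ (Ne.symm hj), zero_smul]
    · simp
  rw [h3] at h2
  exact h2

/-- a family which contains a subfamily with a square relation matrix has a square relation
matrix -/
theorem relOf_of_subfamily {δ : ℤ[X]} {g : Φ → K} {f : ι → Φ} (hf : Function.Injective f)
    {M : Matrix ι ι ℤ[X]} (h : RelOf δ (fun i => g (f i)) M) :
    ∃ R : Matrix Φ Φ ℤ[X], RelOf δ g R := by
  -- the complement
  let C := {j : Φ // j ∉ Set.range f}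
  obtain ⟨R', h1⟩ := relOf_src h (fun j : C => g j.1)
  -- the numbering
  have hb : Function.Bijective (Sum.elim (fun j : C => j.1) f : C ⊕ ι → Φ) := by
    constructor
    · rintro (a | a) (b | b) hab
      · exact congrArg Sum.inl (Subtype.ext hab)
      · exact absurd ⟨b, hab.symm⟩ a.2
      · exact absurd ⟨a, hab⟩ b.2
      · exact congrArg Sum.inr (hf hab)
    · intro j
      by_cases hj : j ∈ Set.range f
      · obtain ⟨i, hi⟩ := hj
        exact ⟨Sum.inr i, hi⟩
      · exact ⟨Sum.inl ⟨j, hj⟩, rfl⟩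
  let e : C ⊕ ι ≃ Φ := Equiv.ofBijective _ hb
  have h2 := relOf_re h1 e.symm
  have h3 : (fun k => (Sum.elim (fun j : C => g j.1) (fun i => g (f i)) : C ⊕ ι → K) (e.symm k)) =
      g := by
    funext k
    obtain ⟨c, rfl⟩ := e.surjective k
    rw [Equiv.symm_apply_apply]
    rcases c with c | c <;> rfl
  rw [h3] at h2
  exact ⟨_, h2⟩

/-- the same with signs -/
theorem relOf_of_signed {δ : ℤ[X]} {g : Φ → K} {f : ι → Φ} (hf : Function.Injective f)
    {g0 : ι → K} {M : Matrix ι ι ℤ[X]} (h : RelOf δ g0 M) (ε : ι → ℤ[X])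
    (hε : ∀ i, ε i * ε i = 1) (hg : ∀ i, g (f i) = ε i • g0 i) :
    ∃ R : Matrix Φ Φ ℤ[X], RelOf δ g R := by
  obtain ⟨R', h1⟩ := relOf_signs h ε hε
  refine relOf_of_subfamily hf (M := R') ?_
  have h2 : (fun i => g (f i)) = fun i => ε i • g0 i := funext hg
  rw [h2]
  exact h1

/-- the same with signs, the signs being given by an alternative -/
theorem relOf_of_pm {δ : ℤ[X]} {g : Φ → K} {f : ι → Φ} (hf : Function.Injective f)
    {g0 : ι → K} {M : Matrix ι ι ℤ[X]} (h : RelOf δ g0 M)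
    (hg : ∀ i, g (f i) = g0 i ∨ g (f i) = - g0 i) : ∃ R : Matrix Φ Φ ℤ[X], RelOf δ g R := by
  refine relOf_of_signed hf h (fun i => if g (f i) = g0 i then 1 else -1) (fun i => ?_)
    fun i => ?_
  · split_ifs <;> ring
  · split_ifs with h1
    · rw [one_smul, h1]
    · rw [neg_smul, one_smul]
      exact (hg i).resolve_left h1

/-- **the hub**: the classes of `x` and `w` are `X z` and `(1 - s) z - μ / X`; the row `x` of the
relation matrix is prescribed -/
theorem relOf_hub {J : Type} [Fintype J] {δ : ℤ[X]} {cb : ι → K} {R : Matrix ι ι ℤ[X]}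
    (h : RelOf δ cb R) (s : ℤ[X]) (hs : s.coeff 0 = 0) (m : ι → ℤ[X]) (z : K) (cB : J → K)
    (x w : J) (v : ι → J) (hxw : x ≠ w) (hv : Function.Injective v) (hx : ∀ i, v i ≠ x)
    (hw : ∀ i, v i ≠ w) (hJ : ∀ j, j = x ∨ j = w ∨ ∃ i, v i = j)
    (hcv : ∀ i, cB (v i) = cb i) (hcx : cB x = (X : ℤ[X]) • z)
    (hcw : cB w = (1 - s) • z - ∑ i, m i • cb i) (ρ : J → ℤ[X]) (hρx : ρ x = 1 - s)
    (hρw : ρ w = -X) (hρv : ∀ i, ρ (v i) = -(X * m i)) :
    ∃ RB : Matrix J J ℤ[X], RelOf δ cB RB ∧ ∀ j, RB x j = ρ j := by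
  obtain ⟨s', rfl⟩ : ∃ s' : ℤ[X], s = X * s' := by
    obtain ⟨s', hs'⟩ := (Polynomial.X_dvd_iff (f := s)).2 hs
    exact ⟨s', hs'⟩
  obtain ⟨ζ, hζ⟩ := h.top z
  -- the numbering
  have hb : Function.Bijective (Sum.elim ![x, w] v : Fin 2 ⊕ ι → J) := by
    constructor
    · rintro (a | a) (b | b) hab
      · fin_cases a <;> fin_cases b
        · rfl
        · exact absurd hab hxw
        · exact absurd hab hxw.symm
        · rfl
      · fin_cases a
        · exact absurd hab.symm (hx b)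
        · exact absurd hab.symm (hw b)
      · fin_cases b
        · exact absurd hab (hx a)
        · exact absurd hab (hw a)
      · exact congrArg Sum.inr (hv hab)
    · intro j
      rcases hJ j with h1 | h1 | ⟨i, h1⟩
      · exact ⟨Sum.inl 0, h1.symm⟩
      · exact ⟨Sum.inl 1, h1.symm⟩
      · exact ⟨Sum.inr i, h1⟩
  let e : Fin 2 ⊕ ι ≃ J := Equiv.ofBijective _ hb
  have hex : e.symm x = Sum.inl 0 := by
    rw [Equiv.symm_apply_eq]
    rfl
  have hew : e.symm w = Sum.inl 1 := by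
    rw [Equiv.symm_apply_eq]
    rfl
  have hev : ∀ i, e.symm (v i) = Sum.inr i := by
    intro i
    rw [Equiv.symm_apply_eq]
    rfl
  have h1 : RelOf δ (Sum.elim ![cB x, cB w] cb)
      (fromBlocks !![1 - X * s', -X; s', 1] (of ![fun i => -(X * m i), fun i => m i - ζ i]) 0 R :
        Matrix (Fin 2 ⊕ ι) (Fin 2 ⊕ ι) ℤ[X]) := by
    refine relOf_tri h _ _ !![1, X; -s', 1 - X * s'] _ ?_ ?_ ?_
    · refine Matrix.ext fun i j => ?_
      fin_cases i <;> fin_cases j <;> simp [Matrix.mul_apply, Fin.sum_univ_two]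
      all_goals ring
    · have h2 : (!![1 - X * s', -X; s', 1] : Matrix (Fin 2) (Fin 2) ℤ[X]).det = 1 := by
        rw [Matrix.det_fin_two_of]
        ring
      exact cast (by congr) h2
    · have hmu : ∑ i, (X * m i) • cb i = (X : ℤ[X]) • ∑ i, m i • cb i := by
        rw [Finset.smul_sum]
        simp only [mul_smul]
      intro k
      fin_cases k
      · simp only [Fin.sum_univ_two, of_apply, cons_val_zero, cons_val_one, Fin.zero_eta,
          neg_smul, Finset.sum_neg_distrib]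
        rw [hmu, hcx, hcw, smul_sub, smul_smul, smul_smul, mul_comm (X : ℤ[X]) (1 - X * s')]
        abel
      · simp only [Fin.sum_univ_two, of_apply, cons_val_zero, cons_val_one, Fin.mk_one,
          sub_smul, Finset.sum_sub_distrib]
        rw [← hζ, hcx, hcw, smul_smul, one_smul, sub_smul, one_smul, mul_comm s' (X : ℤ[X])]
        abel
  have h2 := relOf_re h1 e.symm
  have h3 : (fun k => (Sum.elim ![cB x, cB w] cb : Fin 2 ⊕ ι → K) (e.symm k)) = cB := by
    funext k
    obtain ⟨c, rfl⟩ := e.surjective k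
    rw [Equiv.symm_apply_apply]
    rcases c with c | c
    · fin_cases c <;> rfl
    · exact (hcv c).symm
  rw [h3] at h2
  refine ⟨_, h2, fun j => ?_⟩
  rcases hJ j with h4 | h4 | ⟨i, h4⟩
  · subst h4
    rw [submatrix_apply, hex, hρx]
    rfl
  · subst h4
    rw [submatrix_apply, hex, hew, hρw]
    rfl
  · subst h4
    rw [submatrix_apply, hex, hev, hρv]
    rfl

/-- the hub, the row written out -/
theorem relOf_hub' {J : Type} [Fintype J] {δ : ℤ[X]} {cb : ι → K} {R : Matrix ι ι ℤ[X]}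
    (h : RelOf δ cb R) (s : ℤ[X]) (hs : s.coeff 0 = 0) (m : ι → ℤ[X]) (z : K) (cB : J → K)
    (x w : J) (v : ι → J) (hxw : x ≠ w) (hv : Function.Injective v) (hx : ∀ i, v i ≠ x)
    (hw : ∀ i, v i ≠ w) (hJ : ∀ j, j = x ∨ j = w ∨ ∃ i, v i = j)
    (hcv : ∀ i, cB (v i) = cb i) (hcx : cB x = (X : ℤ[X]) • z)
    (hcw : cB w = (1 - s) • z - ∑ i, m i • cb i) :
    ∃ RB : Matrix J J ℤ[X], RelOf δ cB RB ∧ RB x x = 1 - s ∧ RB x w = -X ∧
      ∀ i, RB x (v i) = -(X * m i) := by
  obtain ⟨ρ, hρ⟩ : ∃ ρ : J → ℤ[X], ∀ j, ρ j = if j = x then 1 - s else if j = w then -X else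
      ∑ i, if v i = j then -(X * m i) else 0 := ⟨_, fun _ => rfl⟩
  have hρx : ρ x = 1 - s := by rw [hρ, if_pos rfl]
  have hρw : ρ w = -X := by rw [hρ, if_neg hxw.symm, if_pos rfl]
  have hρv : ∀ i, ρ (v i) = -(X * m i) := by
    intro i
    rw [hρ, if_neg (hx i), if_neg (hw i), Finset.sum_eq_single i]
    · rw [if_pos rfl]
    · intro l _ hl
      rw [if_neg (fun h => hl (hv h))]
    · simp
  obtain ⟨RB, h1, h2⟩ := relOf_hub h s hs m z cB x w v hxw hv hx hw hJ hcv hcx hcw ρ hρx hρw hρv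
  exact ⟨RB, h1, by rw [h2, hρx], by rw [h2, hρw], fun i => by rw [h2, hρv]⟩

end Pool.Agent.FTO
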