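import Pool.Agent.FTO.TPack
import Pool.Agent.FTO.KindsB
import Pool.Agent.FTO.KindY
import Pool.Agent.FTO.Rel

/-!
# FTO, A2: the target from the numbers
-/

set_option autoImplicit false
set_option linter.unusedSectionVars false

open scoped BigOperators
open Matrix Polynomial

namespace Pool.Agent.FTO

open Pool.Agent.SSE

attribute [local instance] Classical.propDecidable

variable {K KN KB KH L : Type} [AddCommGroup K] [Module ℤ[X] K] [AddCommGroup KN]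
  [Module ℤ[X] KN] [AddCommGroup KB] [Module ℤ[X] KB] [AddCommGroup KH] [Module ℤ[X] KH]
  [AddCommGroup L] [Module ℤ[X] L]

/-! ### Loops -/

theorem LoopT.ts {ρ r : ℝ} {l : PowerSeries ℤ} (h : LoopT ρ l) (hr0 : 0 ≤ r) (hrρ : r ≤ ρ) :
    TS r l := ⟨h.c0, h.nn, PF.HasN.mono hr0 hrρ h.fn⟩

theorem LoopT.lt {ρ x : ℝ} {l : PowerSeries ℤ} (h : LoopT ρ l) (hx0 : 0 ≤ x) (hx : x < ρ) :
    sv x l < 1 := loop_lt hx0 hx h.nn h.c0 h.fn h.le

theorem loopT_zero (ρ : ℝ) : LoopT ρ (0 : PowerSeries ℤ) :=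
  ⟨(ts_zero ρ).nn, (ts_zero ρ).c0, (ts_zero ρ).fn, by rw [sv_zero]; exact zero_le_one⟩

theorem loopT_X {ρ : ℝ} (h0 : 0 ≤ ρ) (h1 : ρ ≤ 1) {d : ℕ} (hd : 0 < d) :
    LoopT ρ (PowerSeries.X ^ d : PowerSeries ℤ) := by
  refine ⟨HN.nn_X_pow d, ?_, ?_, ?_⟩
  · rw [PowerSeries.coeff_X_pow, if_neg hd.ne]
  · show PF.HasN ρ (HN.toRS (PowerSeries.X ^ d))
    rw [map_pow]
    have : HN.toRS PowerSeries.X = ((Polynomial.X : ℝ[X]) : PowerSeries ℝ) := by
      unfold HN.toRS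
      rw [PowerSeries.map_X, Polynomial.coe_X]
    rw [this, ← Polynomial.coe_pow]
    exact PF.hasN_poly ρ _
  · show PF.ev ρ (HN.toRS (PowerSeries.X ^ d)) ≤ 1
    unfold PF.ev
    rw [tsum_eq_single d]
    · rw [HN.coeff_toRS, PowerSeries.coeff_X_pow, if_pos rfl, Int.cast_one, one_mul]
      exact pow_le_one₀ h0 h1
    · intro n hn
      rw [HN.coeff_toRS, PowerSeries.coeff_X_pow, if_neg hn, Int.cast_zero, zero_mul]

theorem ts_of_abs {r : ℝ} (hr0 : 0 ≤ r) {k f : PowerSeries ℤ} (h : TS r (absS k))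
    (hf : HN.Nn f) (hle : ∀ d, PowerSeries.coeff d f ≤ |PowerSeries.coeff d k|) : TS r f := by
  refine ⟨le_antisymm ((hle 0).trans ?_) (hf 0), hf, ?_⟩
  · have h1 := h.c0
    rw [coeff_absS] at h1
    rw [h1]
  · refine PF.HasN.of_le hr0 h.fn fun n => ?_
    rw [HN.norm_coeff hf, HN.norm_coeff (nn_absS k), coeff_absS]
    exact_mod_cast hle n

theorem ts_posS {r : ℝ} (hr0 : 0 ≤ r) {k : PowerSeries ℤ} (h : TS r (absS k)) :
    TS r (posS k) := by
  refine ts_of_abs hr0 h (nn_posS k) fun d => ?_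
  rw [coeff_posS]
  exact max_le (le_abs_self _) (abs_nonneg _)

theorem ts_negS {r : ℝ} (hr0 : 0 ≤ r) {k : PowerSeries ℤ} (h : TS r (absS k)) :
    TS r (negS k) := by
  refine ts_of_abs hr0 h (nn_negS k) fun d => ?_
  rw [coeff_negS]
  exact max_le (neg_le_abs _) (abs_nonneg _)

/-! ### The kinds, existence form -/

section ex

variable {F : Fil K KN KB KH L} {δ : ℤ[X]} {D : PFM K δ} {r : ℝ}

theorem ex_T {l : PowerSeries ℤ} (hl : TS r l) (hl1 : sv D.lam⁻¹ l < 1) {z : K} {y : KB}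
    (hzy : F.s z = F.b y) (hz : 0 < D.tau z) :
    ∃ P : PreFib F D r, P.l = l ∧ P.dN = 1 ∧ P.dH = 1 ∧ P.cb = y :=
  ⟨preT D l hl hl1 z y hzy hz, rfl, rfl, rfl, rfl⟩

theorem ex_Y (X : PSys) {d : ℕ} (hd : 0 < d) {z : K} {y : KB}
    (hzy : F.s z = F.b y) (hz : 0 < D.tau z) (dN dH : PowerSeries ℤ)
    (hH : dH * pdet X.pC (PowerSeries.X ^ d) = pdet X.pB (PowerSeries.X ^ d))
    (hN : dN * ((1 - PowerSeries.X ^ d) * dH) = pdet X.pI (PowerSeries.X ^ d)) :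
    ∃ P : PreFib F D r, P.l = PowerSeries.X ^ d ∧ P.dN = dN ∧ P.dH = dH :=
  ⟨preY D X hd hzy hz dN dH hH hN, rfl, rfl, rfl⟩

theorem ex_N (hr : 1 < D.lam * r) {al be : PowerSeries ℤ} (hal : TS r al) (hbe : TS r be)
    (hl1 : sv D.lam⁻¹ (al + be) < 1) {U : K} {b0 : KB}
    (hU : F.s U = F.b b0) (hU0 : 0 < D.tau U) (n : KN) (hn : D.tau (F.i n) = 0) :
    ∃ P : PreFib F D r, P.l = al + be ∧ P.dN = 1 - (al - be) ∧ P.dH = 1 ∧ P.IsN n := by
  have hs : F.s (F.i n) = 0 := (F.exK _).2 ⟨n, rfl⟩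
  have h1y : F.s (U + F.i n) = F.b b0 := by rw [map_add, hs, add_zero, hU]
  have ht : D.tau (U + F.i n) = D.tau U := by rw [map_add, hn, add_zero]
  rw [sv_add' hr hal hbe] at hl1
  exact ⟨preN D al be hal hbe hl1 U (U + F.i n) b0 hU h1y hU0 ht, rfl, rfl, rfl,
    preN_isN D al be hal hbe hl1 U (U + F.i n) b0 hU h1y hU0 ht n (add_sub_cancel_left _ _)⟩

theorem ex_H (hr : 1 < D.lam * r) {al be : PowerSeries ℤ} (hal : TS r al) (hbe : TS r be)
    (hl1 : sv D.lam⁻¹ (al + be) < 1) {U : K} {b0 : KB}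
    (hU : F.s U = F.b b0) (hU0 : 0 < D.tau U) :
    ∃ P : PreFib F D r, P.l = al + be ∧ P.dN = 1 ∧ P.dH = 1 - (al - be) := by
  rw [sv_add' hr hal hbe] at hl1
  have hy : F.s (U + U) = F.b ((2 * 1 : ℕ) • b0) := by
    rw [mul_one, two_nsmul, map_add, map_add, hU]
  exact ⟨preH D al be hal hbe U U ((2 * 1 : ℕ) • b0) hy hU0 hU0
    (by nlinarith) (by nlinarith), rfl, rfl, rfl⟩

theorem ex_H' {U : K} {b0 : KB} (hU : F.s U = F.b b0) (hU0 : 0 < D.tau U) (z0 : K) :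
    ∃ P : PreFib F D r, P.l = 0 ∧ P.dN = 1 ∧ P.dH = 1 ∧ P.IsH (F.p (F.s z0)) := by
  obtain ⟨m, hm⟩ := exists_nat_gt (|D.tau z0| / D.tau U)
  rw [div_lt_iff₀ hU0] at hm
  have hp : F.p (F.s (m • U)) = 0 := by
    rw [map_nsmul, hU, map_nsmul, (F.exL (F.b b0)).2 ⟨b0, rfl⟩, smul_zero]
  have ht0 : D.tau (z0 + m • U) = D.tau z0 + m * D.tau U := by
    rw [map_add, map_nsmul, nsmul_eq_mul]
  have ht1 : D.tau (-z0 + m • U) = -D.tau z0 + m * D.tau U := by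
    rw [map_add, map_neg, map_nsmul, nsmul_eq_mul]
  have h0 : 0 < D.tau (z0 + m • U) := by
    rw [ht0]
    have := neg_abs_le (D.tau z0)
    linarith
  have h0' : 0 < D.tau (-z0 + m • U) := by
    rw [ht1]
    have := le_abs_self (D.tau z0)
    linarith
  have hy : F.s ((z0 + m • U) + (-z0 + m • U)) = F.b ((2 * m : ℕ) • b0) := by
    have e1 : (z0 + m • U) + (-z0 + m • U) = (2 * m : ℕ) • U := by
      rw [two_mul, add_nsmul]
      abel
    rw [e1, map_nsmul, map_nsmul, hU]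
  refine ⟨preH D 0 0 (ts_zero r) (ts_zero r) (z0 + m • U) (-z0 + m • U)
    ((2 * m : ℕ) • b0) hy h0 h0' (by rw [sv_zero]; linarith) (by rw [sv_zero]; linarith),
    add_zero 0, rfl, ?_, preH_isH D 0 0 (ts_zero r) (ts_zero r) (z0 + m • U)
    (-z0 + m • U) ((2 * m : ℕ) • b0) hy h0 h0' _ _ _ ?_ ?_⟩
  · show (1 : PowerSeries ℤ) - (0 - 0) = 1
    rw [sub_zero, sub_zero]
  · rw [map_add, map_add, hp, add_zero]
  · rw [map_add, map_add, hp, add_zero, map_neg, map_neg]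

end ex

/-- **the target from the numbers** -/
theorem tgt_of_pack {δN δB δH : ℤ[X]} (F : Fil K KN KB KH L) (D : PFM K (δN * (δB * δH)))
    (DB : PFM KB δB) (hlam : DB.lam = D.lam)
    (hcomp : ∀ z y, F.s z = F.b y → D.tau z = DB.tau y) (htauN : ∀ n, D.tau (F.i n) = 0)
    {r ρ : ℝ} (hr1 : 1 < D.lam * r) (hr2 : r ≤ D.rad) (hrρ : r < ρ) (hρ1 : ρ < 1)
    (Q : Pack D.lam⁻¹ r ρ (ps δN) (ps δB) (ps δH))
    {ιB : Type} [Fintype ιB] [Nonempty ιB] {eB : ιB → KB} {RB : Matrix ιB ιB ℤ[X]}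
    (hRB : RelOf δB eB RB) (heB : ∀ j, 0 < DB.tau (eB j))
    {ιN : Type} [Fintype ιN] {gN : ιN → KN} {RN : Matrix ιN ιN ℤ[X]} (hRN : RelOf δN gN RN)
    {ιH : Type} [Fintype ιH] {gH : ιH → KH} {RH : Matrix ιH ιH ℤ[X]} (hRH : RelOf δH gH RH) :
    ∃ (I J : Type) (_ : Fintype I) (_ : Fintype J) (S : Str I J) (c : I → K) (cB : J → KB)
      (PS : Matrix I I (PowerSeries ℤ)) (QS : Matrix J J (PowerSeries ℤ)) (x : I),
      Tgt F D S c cB r PS QS x := by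
  obtain ⟨j0⟩ := ‹Nonempty ιB›
  let _ : Fintype Q.Y := Q.fY
  let _ : Fintype Q.T := Q.fT
  have hlam0 : 0 < D.lam := lt_trans one_pos D.one_lt
  have hr0 : 0 < r := by
    by_contra h
    have h' := not_lt.1 h
    nlinarith
  have hx0 : 0 ≤ D.lam⁻¹ := (inv_pos.2 hlam0).le
  have hxr : D.lam⁻¹ < r := by
    rw [inv_eq_one_div, div_lt_iff₀ hlam0]
    linarith
  have hxρ : D.lam⁻¹ < ρ := hxr.trans hrρ
  have hρ0 : 0 ≤ ρ := hr0.le.trans hrρ.le
  -- the class `U`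
  obtain ⟨U, hU⟩ := F.s_surj (F.b (eB j0))
  have hU0 : 0 < D.tau U := by
    rw [hcomp U (eB j0) hU]
    exact heB j0
  -- loops
  have tsN := (Q.loopN.ts hr0.le hrρ.le)
  have tsH := (Q.loopH.ts hr0.le hrρ.le)
  have ltN := Q.loopN.lt hx0 hxρ
  have ltH := Q.loopH.lt hx0 hxρ
  rw [← posS_add_negS] at ltN ltH
  let V := ((Q.Y ⊕ Q.T) ⊕ (Unit ⊕ Unit)) ⊕ ((ιN ⊕ ιH) ⊕ ιB)
  let fl : V → PowerSeries ℤ := Sum.elim (Sum.elim
    (Sum.elim (fun y => PowerSeries.X ^ Q.d y) Q.lT)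
    (Sum.elim (fun _ => absS Q.kN) (fun _ => absS Q.kH))) (fun _ => 0)
  let fN : V → PowerSeries ℤ := Sum.elim (Sum.elim (Sum.elim Q.nN (fun _ => 1))
    (Sum.elim (fun _ => 1 - Q.kN) (fun _ => 1))) (fun _ => 1)
  let fH : V → PowerSeries ℤ := Sum.elim (Sum.elim (Sum.elim Q.nH (fun _ => 1))
    (Sum.elim (fun _ => 1) (fun _ => 1 - Q.kH))) (fun _ => 1)
  let ex : V → PreFib F D r → Prop := Sum.elim (fun _ _ => True)
    (Sum.elim (Sum.elim (fun k P => P.IsN (gN k)) (fun k P => P.IsH (gH k)))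
      (fun j P => P.cb = eB j))
  have key : ∀ v : V, ∃ P : PreFib F D r, P.l = fl v ∧ P.dN = fN v ∧ P.dH = fH v ∧ ex v P := by
    rintro (((y | t) | (_ | _)) | ((k | k) | j))
    · obtain ⟨P, h1, h2, h3⟩ := ex_Y (F := F) (D := D) (r := r) (Q.X y) (Q.hd y) hU hU0 (Q.nN y)
        (Q.nH y) (Q.hH y) (Q.hN y)
      exact ⟨P, h1, h2, h3, trivial⟩
    · obtain ⟨P, h1, h2, h3, -⟩ := ex_T (F := F) (D := D) (r := r)
        ((Q.loopT t).ts hr0.le hrρ.le) ((Q.loopT t).lt hx0 hxρ) hU hU0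
      exact ⟨P, h1, h2, h3, trivial⟩
    · obtain ⟨P, h1, h2, h3, -⟩ := ex_N (F := F) (D := D) (r := r) hr1 (ts_posS hr0.le tsN)
        (ts_negS hr0.le tsN) ltN hU hU0 0 (htauN 0)
      refine ⟨P, ?_, ?_, h3, trivial⟩
      · rw [h1, posS_add_negS]
        rfl
      · rw [h2, posS_sub_negS]
        rfl
    · obtain ⟨P, h1, h2, h3⟩ := ex_H (F := F) (D := D) (r := r) hr1 (ts_posS hr0.le tsH)
        (ts_negS hr0.le tsH) ltH hU hU0
      refine ⟨P, ?_, h2, ?_, trivial⟩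
      · rw [h1, posS_add_negS]
        rfl
      · rw [h3, posS_sub_negS]
        rfl
    · obtain ⟨P, h1, h2, h3, h4⟩ := ex_N (F := F) (D := D) (r := r) hr1 (ts_zero r) (ts_zero r)
        (by rw [add_zero, sv_zero]; exact one_pos) hU hU0 (gN k) (htauN (gN k))
      refine ⟨P, ?_, ?_, h3, h4⟩
      · rw [h1, add_zero]
        rfl
      · rw [h2, sub_zero, sub_zero]
        rfl
    · obtain ⟨l, hl⟩ := F.p_surj (gH k)
      obtain ⟨z0, hz0⟩ := F.s_surj l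
      obtain ⟨P, h1, h2, h3, h4⟩ := ex_H' (F := F) (D := D) (r := r) hU hU0 z0
      rw [hz0, hl] at h4
      exact ⟨P, h1, h2, h3, h4⟩
    · obtain ⟨z, hz⟩ := F.s_surj (F.b (eB j))
      obtain ⟨P, h1, h2, h3, h4⟩ := ex_T (F := F) (D := D) (r := r) (ts_zero r)
        (by rw [sv_zero]; exact one_pos) hz (by rw [hcomp z (eB j) hz]; exact heB j)
      exact ⟨P, h1, h2, h3, h4⟩
  choose P hl hdN hdH hex using key
  have hloop : ∀ v, LoopT ρ (P v).l := by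
    intro v
    rw [hl v]
    rcases v with (((y | t) | (_ | _)) | ((k | k) | j))
    · exact loopT_X hρ0 hρ1.le (Q.hd y)
    · exact Q.loopT t
    · exact Q.loopN
    · exact Q.loopH
    · exact loopT_zero ρ
    · exact loopT_zero ρ
    · exact loopT_zero ρ
  have hB : (∏ v, (1 - (P v).l)) * (1 - Q.HQ) = ps δB := by
    have h1 : ∏ v, (1 - (P v).l) = ∏ v : V, (1 - fl v) :=
      Finset.prod_congr rfl fun v _ => by rw [hl v]
    refine Eq.trans ?_ Q.eqB.symm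
    rw [h1]
    simp only [V, fl, Fintype.prod_sum_type, Sum.elim_inl, Sum.elim_inr, Finset.univ_unique,
      Finset.prod_singleton, sub_zero, Finset.prod_const_one, mul_one]
  have hN : ∏ v, (P v).dN = ps δN := by
    have h1 : ∏ v, (P v).dN = ∏ v : V, fN v := Finset.prod_congr rfl fun v _ => hdN v
    refine Eq.trans ?_ Q.eqN.symm
    rw [h1]
    simp only [V, fN, Fintype.prod_sum_type, Sum.elim_inl, Sum.elim_inr, Finset.univ_unique,
      Finset.prod_singleton, Finset.prod_const_one, mul_one]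
    rw [mul_comm]
  have hH : ∏ v, (P v).dH = ps δH := by
    have h1 : ∏ v, (P v).dH = ∏ v : V, fH v := Finset.prod_congr rfl fun v _ => hdH v
    refine Eq.trans ?_ Q.eqH.symm
    rw [h1]
    simp only [V, fH, Fintype.prod_sum_type, Sum.elim_inl, Sum.elim_inr, Finset.univ_unique,
      Finset.prod_singleton, Finset.prod_const_one, mul_one, one_mul]
    rw [mul_comm]
  obtain ⟨R, hR⟩ : ∃ R : Matrix V V ℤ[X], RelOf δB (fun v => (P v).cb) R := by
    refine relOf_of_subfamily (f := fun j : ιB => (Sum.inr (Sum.inr j) : V))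
      (fun a b h => Sum.inr_injective (Sum.inr_injective h)) (M := RB) ?_
    have h1 : (fun j : ιB => (P (Sum.inr (Sum.inr j))).cb) = eB :=
      funext fun j => hex (Sum.inr (Sum.inr j))
    show RelOf δB (fun j : ιB => (P (Sum.inr (Sum.inr j))).cb) RB
    rw [h1]
    exact hRB
  exact tgt_of_pre F D DB hlam hcomp hr1 hr2 hrρ hρ1 P hloop Q.hub hB hN hH hR U (eB j0) hU hU0
    (fun k : ιN => (Sum.inr (Sum.inl (Sum.inl k)) : V))
    (fun a b h => Sum.inl_injective (Sum.inl_injective (Sum.inr_injective h))) gN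
    (fun k => hex (Sum.inr (Sum.inl (Sum.inl k)))) RN hRN
    (fun k : ιH => (Sum.inr (Sum.inl (Sum.inr k)) : V))
    (fun a b h => Sum.inr_injective (Sum.inl_injective (Sum.inr_injective h))) gH
    (fun k => hex (Sum.inr (Sum.inl (Sum.inr k)))) RH hRH

end Pool.Agent.FTO
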