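import Pool.Agent.FT.Perron
import Pool.Agent.FT.Cond

/-!
# FTO: Perron values, periodic points
-/

set_option autoImplicit false

open scoped BigOperators
open Matrix

namespace Pool.Agent.FTO

open Pool.Agent.FT

/-! ### Perron values -/

/-- equal entropy: a common Perron value -/
theorem common_perron {a b : ℕ} {A : Matrix (Fin a) (Fin a) ℕ} {B : Matrix (Fin b) (Fin b) ℕ}
    (hA : IsPrimitive A) (hB : IsPrimitive B)
    (hent : ∃ h, HasEntropy (edgeShift A) h ∧ HasEntropy (edgeShift B) h) :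
    ∃ (lam : ℝ) (r : Fin a → ℝ) (s : Fin b → ℝ), 0 < lam ∧ (∀ i, 0 < r i) ∧ (∀ i, 0 < s i) ∧
      (A.map (Nat.cast : ℕ → ℝ)) *ᵥ r = lam • r ∧ (B.map (Nat.cast : ℕ → ℝ)) *ᵥ s = lam • s := by
  obtain ⟨lam, C, r, hlam, hC, hr, heig, hbA⟩ := perron_bounds hA
  obtain ⟨mu, C', s, hmu, hC', hs, heig', hbB⟩ := perron_bounds hB
  obtain ⟨h, hhA, hhB⟩ := hent
  have h1 := tendsto_nhds_unique hhA (hasEntropy_log hA hlam hC hbA)
  have h2 := tendsto_nhds_unique hhB (hasEntropy_log hB hmu hC' hbB)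
  have h3 : lam = mu := Real.log_injOn_pos hlam hmu (h1.symm.trans h2)
  exact ⟨lam, r, s, hlam, hr, hs, heig, by rw [h3]; exact heig'⟩

/-- the entropy is `log lam` -/
theorem entropy_of_perron {a : ℕ} {A : Matrix (Fin a) (Fin a) ℕ} (hA : IsPrimitive A) :
    ∃ (lam : ℝ) (r : Fin a → ℝ), 0 < lam ∧ (∀ i, 0 < r i) ∧
      (A.map (Nat.cast : ℕ → ℝ)) *ᵥ r = lam • r ∧ HasEntropy (edgeShift A) (Real.log lam) := by
  obtain ⟨lam, C, r, hlam, hC, hr, heig, hbA⟩ := perron_bounds hA
  exact ⟨lam, r, hlam, hr, heig, hasEntropy_log hA hlam hC hbA⟩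

theorem two_le_pow {n : ℕ} {A : Matrix (Fin n) (Fin n) ℕ} {p : ℕ} (hp : 0 < p)
    (h : ∀ i j, 0 < (A ^ p) i j) (hA : ∃ i j, 2 ≤ (A ^ p) i j) :
    ∃ q, 0 < q ∧ ∀ i j, 2 ≤ (A ^ q) i j := by
  obtain ⟨a, b, hab⟩ := hA
  refine ⟨p + p + p, by omega, fun i j => ?_⟩
  rw [pow_add, pow_add, Matrix.mul_apply]
  refine le_trans ?_ (Finset.single_le_sum (f := fun w => (A ^ p * A ^ p) i w * (A ^ p) w j)
    (fun _ _ => Nat.zero_le _) (Finset.mem_univ b))
  have h1 : 2 ≤ (A ^ p * A ^ p) i b := by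
    rw [Matrix.mul_apply]
    refine le_trans ?_ (Finset.single_le_sum (f := fun w => (A ^ p) i w * (A ^ p) w b)
      (fun _ _ => Nat.zero_le _) (Finset.mem_univ a))
    exact le_trans (by omega) (Nat.mul_le_mul (h i a) hab)
  exact le_trans (by omega) (Nat.mul_le_mul h1 (h b j))

/-- a primitive matrix is `(1)` or has a power with entries `≥ 2` -/
theorem prim_cases {n : ℕ} {A : Matrix (Fin n) (Fin n) ℕ} (hA : IsPrimitive A) {lam : ℝ}
    {r : Fin n → ℝ} (hlam : 0 < lam) (hr : ∀ i, 0 < r i)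
    (heig : (A.map (Nat.cast : ℕ → ℝ)) *ᵥ r = lam • r) :
    (1 < lam ∧ ∃ p, 0 < p ∧ ∀ i j, 2 ≤ (A ^ p) i j) ∨ (lam = 1 ∧ n = 1 ∧ ∀ i j, A i j = 1) := by
  obtain ⟨hn, k, hk, hpos⟩ := hA
  have key : (∃ p, 0 < p ∧ ∀ i j, 2 ≤ (A ^ p) i j) ∨ (n = 1 ∧ ∀ i j, A i j = 1) := by
    by_cases h2 : ∃ i j, 2 ≤ (A ^ k) i j
    · exact Or.inl (two_le_pow hk hpos h2)
    · push Not at h2
      have h1 : ∀ i j, (A ^ k) i j = 1 := fun i j => by
        have := h2 i j
        have := hpos i j
        omega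
      by_cases hn1 : n = 1
      · right
        refine ⟨hn1, ?_⟩
        subst hn1
        intro i j
        have hi : i = 0 := Subsingleton.elim _ _
        have hj : j = 0 := Subsingleton.elim _ _
        subst hi
        subst hj
        have h3 : ∀ m : ℕ, (A ^ m) 0 0 = (A 0 0) ^ m := by
          intro m
          induction m with
          | zero => simp
          | succ m ih => rw [pow_succ, Matrix.mul_apply, Fin.sum_univ_one, ih, pow_succ]
        have h4 := h1 0 0
        rw [h3] at h4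
        exact (Nat.pow_eq_one.1 h4).resolve_right (by omega)
      · left
        have h5 : ∀ i j, 2 ≤ (A ^ (k + k)) i j := by
          intro i j
          rw [pow_add, Matrix.mul_apply]
          simp only [h1, mul_one, Finset.sum_const, Finset.card_univ, Fintype.card_fin,
            smul_eq_mul]
          omega
        exact ⟨k + k, by omega, h5⟩
  rcases key with ⟨p, hp, h2⟩ | ⟨hn1, h1⟩
  · left
    refine ⟨?_, p, hp, h2⟩
    by_contra hle
    push Not at hle
    haveI : Nonempty (Fin n) := ⟨⟨0, hn⟩⟩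
    obtain ⟨i⟩ := this
    have h3 := congrFun (pow_mulVec_eig heig p) i
    rw [Matrix.mulVec, dotProduct, Pi.smul_apply, smul_eq_mul] at h3
    have h4 : 2 * r i ≤ ∑ j, ((A.map (Nat.cast : ℕ → ℝ)) ^ p) i j * r j := by
      refine le_trans ?_ (Finset.single_le_sum
        (f := fun j => ((A.map (Nat.cast : ℕ → ℝ)) ^ p) i j * r j) (fun j _ => ?_)
        (Finset.mem_univ i))
      · rw [← cast_pow_entry]
        exact mul_le_mul_of_nonneg_right (by exact_mod_cast h2 i i) (hr i).le
      · rw [← cast_pow_entry]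
        exact mul_nonneg (Nat.cast_nonneg _) (hr j).le
    rw [h3] at h4
    have h5 : lam ^ p ≤ 1 := pow_le_one₀ hlam.le hle
    have h6 : lam ^ p * r i ≤ 1 * r i := mul_le_mul_of_nonneg_right h5 (hr i).le
    have := hr i
    linarith
  · right
    refine ⟨?_, hn1, h1⟩
    subst hn1
    have h3 := congrFun heig 0
    rw [Matrix.mulVec, dotProduct, Fin.sum_univ_one, Matrix.map_apply, h1, Pi.smul_apply,
      smul_eq_mul] at h3
    have := hr 0
    push_cast at h3
    rw [one_mul] at h3
    have h4 : (lam - 1) * r 0 = 0 := by linarith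
    rcases mul_eq_zero.1 h4 with h5 | h5
    · linarith
    · linarith

/-! ### Periodic points -/

theorem exists_walk {n : ℕ} {A : Matrix (Fin n) (Fin n) ℕ} (k : ℕ) :
    ∀ i j, (A ^ k) i j ≠ 0 → ∃ v : ℕ → Fin n, v 0 = i ∧ v k = j ∧ ∀ m < k, A (v m) (v (m + 1)) ≠ 0 := by
  induction k with
  | zero =>
    intro i j h
    rw [pow_zero, Matrix.one_apply] at h
    have hij : i = j := by
      by_contra hne
      rw [if_neg hne] at h
      exact h rfl
    exact ⟨fun _ => i, rfl, hij, fun m hm => absurd hm (Nat.not_lt_zero _)⟩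
  | succ k ih =>
    intro i j h
    rw [pow_succ, Matrix.mul_apply] at h
    obtain ⟨l, -, hl⟩ := Finset.exists_ne_zero_of_sum_ne_zero h
    obtain ⟨v, h0, hk, hv⟩ := ih i l (left_ne_zero_of_mul hl)
    refine ⟨fun m => if m ≤ k then v m else j, by simp [h0], by simp, ?_⟩
    intro m hm
    by_cases h1 : m + 1 ≤ k
    · simp only [if_pos (show m ≤ k by omega), if_pos h1]
      exact hv m (by omega)
    · have h2 : m = k := by omega
      subst h2
      simp only [le_refl, if_true, if_neg h1]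
      rw [hk]
      exact right_ne_zero_of_mul hl

theorem pow_ne_zero_of_walk {n : ℕ} {A : Matrix (Fin n) (Fin n) ℕ} (v : ℕ → Fin n) (k : ℕ)
    (h : ∀ m < k, A (v m) (v (m + 1)) ≠ 0) : (A ^ k) (v 0) (v k) ≠ 0 := by
  induction k with
  | zero => simp
  | succ k ih =>
    rw [pow_succ, Matrix.mul_apply]
    intro h0
    have h1 := Finset.sum_eq_zero_iff.1 h0 (v k) (Finset.mem_univ _)
    rcases Nat.mul_eq_zero.1 h1 with h2 | h2
    · exact ih (fun m hm => h m (by omega)) h2
    · exact h k (by omega) h2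

/-- periodic points and traces -/
theorem periodic_iff {n : ℕ} (A : Matrix (Fin n) (Fin n) ℕ) {k : ℕ} (hk : 0 < k) :
    (∃ x ∈ edgeShift A, ∀ i : ℤ, x (i + k) = x i) ↔ (A ^ k).trace ≠ 0 := by
  constructor
  · rintro ⟨x, hx, hp⟩ h0
    have h1 := pow_ne_zero_of_walk (A := A) (fun m : ℕ => src (x m)) k (by
      intro m _
      have h2 : tgt (x m) = src (x (m + 1)) := hx m
      have h3 : (m : ℤ) + 1 = ((m + 1 : ℕ) : ℤ) := by push_cast; ring
      change A (src (x m)) (src (x ((m + 1 : ℕ) : ℤ))) ≠ 0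
      rw [← h3, ← h2]
      intro h4
      have h6 : ((x m).2 : ℕ) < A (src (x m)) (tgt (x m)) := (x m).2.2
      omega)
    have h2 : src (x (k : ℤ)) = src (x ((0 : ℕ) : ℤ)) := by
      have := hp 0
      rw [zero_add] at this
      rw [this]
      rfl
    change (A ^ k) (src (x ((0 : ℕ) : ℤ))) (src (x (k : ℤ))) ≠ 0 at h1
    rw [h2] at h1
    apply h1
    rw [Matrix.trace] at h0
    exact Finset.sum_eq_zero_iff.1 h0 _ (Finset.mem_univ _)
  · intro h
    rw [Matrix.trace] at h
    obtain ⟨i, -, hi⟩ := Finset.exists_ne_zero_of_sum_ne_zero h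
    obtain ⟨v, h0, hk', hv⟩ := exists_walk k i i hi
    have hk0 : (k : ℤ) ≠ 0 := by exact_mod_cast hk.ne'
    have hkp : (0 : ℤ) < k := by exact_mod_cast hk
    set m : ℤ → ℕ := fun z => (z % k).toNat with hm
    have hmlt : ∀ z, m z < k := by
      intro z
      have h1 := Int.emod_nonneg z hk0
      have h2 := Int.emod_lt_of_pos z hkp
      rw [hm]
      simp only
      omega
    have hms : ∀ z, v (m (z + 1)) = v (m z + 1) := by
      intro z
      by_cases h1 : m z + 1 < k
      · congr 1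
        rw [hm]
        simp only
        have h2 : (z + 1) % k = z % k + 1 := by
          have h4 : 0 ≤ z % k := Int.emod_nonneg z hk0
          have h5 : z % k + 1 < k := by
            rw [hm] at h1
            simp only at h1
            omega
          rw [Int.add_emod]
          have h6 : (1 : ℤ) % k = 1 := Int.emod_eq_of_lt (by norm_num) (by omega)
          rw [h6]
          exact Int.emod_eq_of_lt (by omega) h5
        rw [h2]
        have h4 : 0 ≤ z % k := Int.emod_nonneg z hk0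
        omega
      · have h2 : m z + 1 = k := by
          have := hmlt z
          omega
        have h3 : m (z + 1) = 0 := by
          rw [hm] at h2 ⊢
          simp only at h2 ⊢
          have h4 : 0 ≤ z % k := Int.emod_nonneg z hk0
          have h5 : z % k = k - 1 := by omega
          have h6 : (z + 1) % k = 0 := by
            have h7 : z + 1 = k * (z / k + 1) := by
              have := Int.mul_ediv_add_emod z k
              linarith
            rw [h7]
            exact Int.mul_emod_right _ _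
          rw [h6]
          rfl
        rw [h2, h3, h0, hk']
    have hpos : ∀ z, 0 < A (v (m z)) (v (m z + 1)) := fun z => Nat.pos_of_ne_zero (hv _ (hmlt z))
    refine ⟨fun z => ⟨(v (m z), v (m z + 1)), ⟨0, hpos z⟩⟩, ?_, ?_⟩
    · intro z
      change v (m z + 1) = v (m (z + 1))
      exact (hms z).symm
    · intro z
      have h1 : m (z + k) = m z := by
        rw [hm]
        simp only
        rw [Int.add_emod_right]
      have h2 : ∀ p q : ℕ, p = q → ∀ (hp : 0 < A (v p) (v (p + 1))) (hq : 0 < A (v q) (v (q + 1))),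
          (⟨(v p, v (p + 1)), ⟨0, hp⟩⟩ : Edge A) = ⟨(v q, v (q + 1)), ⟨0, hq⟩⟩ := by
        rintro p q rfl hp hq
        rfl
      exact h2 _ _ h1 _ _

/-- the periodic point condition in terms of traces -/
theorem period_trace {a b : ℕ} {A : Matrix (Fin a) (Fin a) ℕ} {B : Matrix (Fin b) (Fin b) ℕ}
    (h : PeriodCondition (edgeShift A) (edgeShift B)) (k : ℕ) (hk : 0 < k)
    (hB : (B ^ k).trace = 0) : (A ^ k).trace = 0 := by
  by_contra hne
  exact (periodic_iff B hk).1 (h k hk ((periodic_iff A hk).2 hne)) hB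

/-- a factor code maps periodic points to periodic points -/
theorem period_of_fc {a b : ℕ} {A : Matrix (Fin a) (Fin a) ℕ} {B : Matrix (Fin b) (Fin b) ℕ}
    (h : ∃ φ : edgeShift A → edgeShift B, IsFactorCode φ) :
    PeriodCondition (edgeShift A) (edgeShift B) := by
  obtain ⟨φ, hφ⟩ := h
  rintro n hn ⟨x, hx, hp⟩
  have hsh : ∀ m : ℕ, (fun i : ℤ => x (i + m)) ∈ edgeShift A := by
    intro m i
    change tgt (x (i + m)) = src (x (i + 1 + m))
    rw [hx (i + m), add_right_comm]
  have key : ∀ m : ℕ, ∀ i : ℤ, (φ ⟨_, hsh m⟩).1 i = (φ ⟨x, hx⟩).1 (i + m) := by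
    intro m
    induction m with
    | zero =>
      intro i
      have h1 : (⟨_, hsh 0⟩ : edgeShift A) = ⟨x, hx⟩ := by
        apply Subtype.ext
        funext i
        simp
      rw [h1]
      simp
    | succ m ih =>
      intro i
      have h1 := hφ.commutes ⟨_, hsh m⟩ ⟨_, hsh (m + 1)⟩ (by
        intro i
        change x (i + ((m + 1 : ℕ) : ℤ)) = x (i + 1 + m)
        congr 1
        push_cast
        ring) i
      rw [h1, ih]
      congr 1
      push_cast
      ring
  refine ⟨(φ ⟨x, hx⟩).1, (φ ⟨x, hx⟩).2, fun i => ?_⟩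
  rw [← key n i]
  have h1 : (⟨_, hsh n⟩ : edgeShift A) = ⟨x, hx⟩ := by
    apply Subtype.ext
    funext i
    exact hp i
  rw [h1]

/-- factor code onto a point -/
theorem fc_point {a b : ℕ} {A : Matrix (Fin a) (Fin a) ℕ} {B : Matrix (Fin b) (Fin b) ℕ}
    (ha : a = 1) (hA : ∀ i j, A i j = 1) (hb : b = 1) (hB : ∀ i j, B i j = 1) :
    ∃ φ : edgeShift A → edgeShift B, IsFactorCode φ := by
  subst ha
  subst hb
  have hsub : ∀ e e' : Edge B, e = e' := by
    rintro ⟨⟨p, q⟩, e⟩ ⟨⟨p', q'⟩, e'⟩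
    obtain rfl : p = p' := Subsingleton.elim _ _
    obtain rfl : q = q' := Subsingleton.elim _ _
    have he := e.2
    have he' := e'.2
    have h1 : B p q = 1 := hB p q
    have h2 : e = e' := Fin.ext (by
      have h3 : (e : ℕ) < B p q := he
      have h4 : (e' : ℕ) < B p q := he'
      omega)
    rw [h2]
  set eA : Edge A := ⟨(0, 0), ⟨0, by rw [hA]; norm_num⟩⟩
  set eB : Edge B := ⟨(0, 0), ⟨0, by rw [hB]; norm_num⟩⟩
  refine ⟨fun _ => ⟨fun _ => eB, fun _ => rfl⟩, continuous_const, ?_, fun _ _ _ _ => rfl⟩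
  intro y
  refine ⟨⟨fun _ => eA, fun _ => rfl⟩, ?_⟩
  apply Subtype.ext
  funext i
  exact hsub _ _

end Pool.Agent.FTO
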