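import Pool.Agent.FTO.Num4
import Pool.Agent.SSE.HMain

/-!
# FTO, numbers: the packed form (helper23)
-/

set_option autoImplicit false

open scoped BigOperators
open PowerSeries

namespace Pool.Agent.FTO

open Pool.Agent.SSE Pool.Agent.SSE.HN Pool.Agent.SSE.PF

/-- `f = (1 - H) ∏ (1 - c)`: hub series and loops of the own hubs -/
def HubFac (lam ρ : ℝ) (f : ℤ⟦X⟧) : Prop :=
  ∃ (θ : ℝ) (H : ℤ⟦X⟧) (cs : List ℤ⟦X⟧) (b : ℕ), θ < 1 ∧ Nn H ∧ coeff 0 H = 0 ∧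
    HasN ρ (toRS H) ∧ val lam⁻¹ H = 1 ∧ (∀ d, b ≤ d → 1 ≤ coeff d H) ∧ (∀ c ∈ cs, OwnC ρ θ c) ∧
    (1 - H) * (cs.map fun c => 1 - c).prod = f

lemma OwnC.mono {ρ ρ' θ : ℝ} (h0 : 0 ≤ ρ') (h : ρ' ≤ ρ) {c : ℤ⟦X⟧} (hc : OwnC ρ θ c) :
    OwnC ρ' θ c :=
  ⟨hc.nn, hc.c0, hc.N.mono h0 h, (nS_mono h0 h hc.N).trans hc.le⟩

lemma HubFac.mono {lam ρ ρ' : ℝ} (h0 : 0 ≤ ρ') (h : ρ' ≤ ρ) {f : ℤ⟦X⟧} (hf : HubFac lam ρ f) :
    HubFac lam ρ' f := by
  obtain ⟨θ, H, cs, b, h1, h2, h3, h4, h5, h6, h7, h8⟩ := hf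
  exact ⟨θ, H, cs, b, h1, h2, h3, h4.mono h0 h, h5, h6, fun c hc => OwnC.mono h0 h (h7 c hc), h8⟩

/-- `S1D` data give such a factorisation -/
theorem hubFac_of_S1D {K : Type} [AddCommGroup K] [Module (Polynomial ℤ) K] {δ : Polynomial ℤ}
    {D : PFM K δ} {ξ : K} (S : S1D D ξ) : HubFac D.lam S.ρ (ps δ) := by
  obtain ⟨θ, cs, φ, h1, h2, h3, h4, h5, h6, -⟩ := S.hub_side
  exact ⟨θ, S.H, cs, S.b0, h2, h4.nn, h4.c0, h4.fn, h5, S.hb0,
    fun c hc => ⟨(h3 c hc).1.nn, (h3 c hc).1.c0, (h3 c hc).1.fn, (h3 c hc).2⟩, h6⟩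

/-- the exponents of `f = (1 - H) ∏ (1 - c)` are nonnegative -/
theorem HubFac.ex_nonneg {lam ρ : ℝ} {f : ℤ⟦X⟧} (hf : HubFac lam ρ f) (n : ℕ) : 0 ≤ ex f n := by
  obtain ⟨θ, H, cs, b, h1, h2, h3, h4, h5, h6, h7, h8⟩ := hf
  rcases Nat.eq_zero_or_pos n with hn | hn
  · subst hn; exact le_rfl
  · have e1 := low_prod H n
    have e2 := prod_lows cs n
    have e3 : f = ((1 - lowS H n) * (cs.map fun c => 1 - lowS c n).prod) *
        PrN (fun p => lm H p + nums cs p) (n + 1) := by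
      have e4 : PrN (fun p => lm H p + nums cs p) (n + 1) = Pr (lm H) 0 n * Pr (nums cs) 0 n := by
        unfold PrN
        rw [← Pr_Ico _ (by omega), Nat.add_sub_cancel, Pr_add]
      rw [e4, ← h8, ← e1, ← e2]
      ring
    have hcg : ∀ {c : ℤ⟦X⟧}, Nn c → coeff 0 c = 0 → Cg n (1 - lowS c n) 1 := by
      intro c hc hc0 d hd
      rw [map_sub, (low_facts hc hc0 n).2.1 d hd, sub_zero]
    have hU : Cg n ((1 - lowS H n) * (cs.map fun c => 1 - lowS c n).prod) 1 := by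
      have hl : Cg n (cs.map fun c => 1 - lowS c n).prod 1 := by
        clear e2 e3 h8
        induction cs with
        | nil => simpa using Cg.refl _
        | cons c cs ih =>
          rw [List.map_cons, List.prod_cons]
          have hc := h7 c (List.mem_cons_self ..)
          simpa using (hcg hc.nn hc.c0).mul (ih fun c hc => h7 c (List.mem_cons_of_mem _ hc))
      simpa using (hcg h2 h3).mul hl
    rw [ex_eq_of_prod e3 (fun d hd => by rw [hU d (by omega), coeff_one]) (by omega) n hn (by omega)]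
    exact Int.natCast_nonneg _

/-- the multiset of the long cycles -/
def longE (e : ℕ → ℕ) (L p : ℕ) : Multiset ℕ :=
  (Finset.Ico 1 L).val.bind fun n => Multiset.replicate (e n) (n * p)

lemma longE_ge {e : ℕ → ℕ} {L p : ℕ} : ∀ l ∈ longE e L p, p ≤ l := by
  intro l hl
  unfold longE at hl
  rw [Multiset.mem_bind] at hl
  obtain ⟨n, hn, hl⟩ := hl
  rw [Multiset.eq_of_mem_replicate hl]
  have h1 := Finset.mem_Ico.1 (Finset.mem_def.2 hn)
  exact Nat.le_mul_of_pos_left p (by omega)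

lemma longE_card (e : ℕ → ℕ) (L p : ℕ) : (longE e L p).card = ∑ n ∈ Finset.Ico 1 L, e n := by
  unfold longE
  rw [Multiset.card_bind]
  simp only [Function.comp_def, Multiset.card_replicate]
  rfl

lemma longE_prod (e : ℕ → ℕ) (L p : ℕ) :
    ((longE e L p).map fun l => (1 - X ^ l : ℤ⟦X⟧)).prod =
      ∏ n ∈ Finset.Ico 1 L, (1 - X ^ (n * p)) ^ e n := by
  unfold longE
  rw [Multiset.map_bind, Multiset.prod_bind]
  unfold Finset.prod
  congr 1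
  refine Multiset.map_congr rfl fun n _ => ?_
  rw [Multiset.map_replicate, Multiset.prod_replicate]

/-- `small_of_ex` in terms of units -/
lemma small_units {f : Polynomial ℤ} {L p K : ℕ} {μ : ℝ} {e : ℕ → ℕ} (hp : 0 < p)
    (h : ∀ E : Multiset ℕ, (∀ l ∈ E, p ≤ l) → E.card ≤ K →
      ∀ (a b : ℕ → ℕ) (g : ℤ⟦X⟧), (∀ n, 1 ≤ n → n < L → (a n : ℤ) - b n = ex (f : ℤ⟦X⟧) n) →
        g * PrN b L = PrN a L * (E.map fun l => 1 - X ^ l).prod →
        ∃ h : ℤ⟦X⟧, SmallS L μ h ∧ (1 - h) * g = (f : ℤ⟦X⟧))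
    (hK : ∑ n ∈ Finset.Ico 1 L, e n ≤ K) :
    ∃ h : ℤ⟦X⟧, SmallS L μ h ∧ ∀ u : ℕ → ℤ⟦X⟧ˣ, (∀ n, 0 < n → (u n : ℤ⟦X⟧) = 1 - X ^ n) →
      ps f = (1 - h) * (((∏ n ∈ Finset.Ico 1 L, u n ^ ex (ps f) n) *
        ∏ n ∈ Finset.Ico 1 L, u (n * p) ^ (e n : ℤ) : ℤ⟦X⟧ˣ) : ℤ⟦X⟧) := by
  classical
  -- a fixed system of units
  let v : ℕ → ℤ⟦X⟧ˣ := fun n => if h : 0 < n then
    ⟨1 - X ^ n, geo (X ^ n), one_sub_mul_geo (coeff_zero_X_pow h),
      geo_mul_one_sub (coeff_zero_X_pow h)⟩ else 1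
  have hv : ∀ n, 0 < n → (v n : ℤ⟦X⟧) = 1 - X ^ n := by
    intro n hn
    simp only [v, dif_pos hn]
  have huv : ∀ u : ℕ → ℤ⟦X⟧ˣ, (∀ n, 0 < n → (u n : ℤ⟦X⟧) = 1 - X ^ n) → ∀ n, 0 < n → u n = v n :=
    fun u hu n hn => Units.ext (by rw [hu n hn, hv n hn])
  have key : (((∏ n ∈ Finset.Ico 1 L, v n ^ ex (ps f) n) *
        ∏ n ∈ Finset.Ico 1 L, v (n * p) ^ (e n : ℤ) : ℤ⟦X⟧ˣ) : ℤ⟦X⟧) * PrN (exM (ps f)) L =
      PrN (exP (ps f)) L * ((longE e L p).map fun l => 1 - X ^ l).prod := by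
    have hP : ∀ a : ℕ → ℕ, PrN a L = ((∏ n ∈ Finset.Ico 1 L, v n ^ (a n : ℤ) : ℤ⟦X⟧ˣ) : ℤ⟦X⟧) := by
      intro a
      unfold PrN
      rw [Units.coe_prod]
      refine Finset.prod_congr rfl fun n hn => ?_
      rw [Finset.mem_Ico] at hn
      rw [zpow_natCast, Units.val_pow_eq_pow_val, hv n (by omega)]
    have hE : ((longE e L p).map fun l => (1 - X ^ l : ℤ⟦X⟧)).prod =
        ((∏ n ∈ Finset.Ico 1 L, v (n * p) ^ (e n : ℤ) : ℤ⟦X⟧ˣ) : ℤ⟦X⟧) := by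
      rw [longE_prod, Units.coe_prod]
      refine Finset.prod_congr rfl fun n hn => ?_
      rw [Finset.mem_Ico] at hn
      rw [zpow_natCast, Units.val_pow_eq_pow_val, hv (n * p) (Nat.mul_pos (by omega) hp)]
    rw [hP, hP, hE, ← Units.val_mul, ← Units.val_mul]
    congr 1
    have h1 : (∏ n ∈ Finset.Ico 1 L, v n ^ ex (ps f) n) * ∏ n ∈ Finset.Ico 1 L, v n ^ ((exM (ps f) n : ℕ) : ℤ) =
        ∏ n ∈ Finset.Ico 1 L, v n ^ ((exP (ps f) n : ℕ) : ℤ) := by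
      rw [← Finset.prod_mul_distrib]
      refine Finset.prod_congr rfl fun n _ => ?_
      rw [← zpow_add]
      congr 1
      have := exP_sub_exM (ps f) n
      linarith
    rw [← h1]
    exact mul_right_comm _ _ _
  obtain ⟨hh, h1, h2⟩ := h (longE e L p) longE_ge (by rw [longE_card]; exact hK) (exP (ps f))
    (exM (ps f)) _ (fun n _ _ => exP_sub_exM (ps f) n) key
  refine ⟨hh, h1, fun u hu => ?_⟩
  have e1 : (∏ n ∈ Finset.Ico 1 L, u n ^ ex (ps f) n) = ∏ n ∈ Finset.Ico 1 L, v n ^ ex (ps f) n :=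
    Finset.prod_congr rfl fun n hn => by
      rw [Finset.mem_Ico] at hn
      rw [huv u hu n (by omega)]
  have e2 : (∏ n ∈ Finset.Ico 1 L, u (n * p) ^ (e n : ℤ)) =
      ∏ n ∈ Finset.Ico 1 L, v (n * p) ^ (e n : ℤ) :=
    Finset.prod_congr rfl fun n hn => by
      rw [Finset.mem_Ico] at hn
      rw [huv u hu (n * p) (Nat.mul_pos (by omega) hp)]
  rw [e1, e2]
  exact h2.symm

/-- low orbits -/
def LowK (m : ℕ → ℕ) (L : ℕ) : Type := Σ k : Fin (L - 1), Fin (m (k + 1))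

instance (m : ℕ → ℕ) (L : ℕ) : Fintype (LowK m L) := by unfold LowK; infer_instance

/-- length of a low orbit -/
def LowK.d {m : ℕ → ℕ} {L : ℕ} (y : LowK m L) : ℕ := y.1 + 1

lemma lowY_count (m : ℕ → ℕ) {L n : ℕ} (h0 : 0 < n) (hL : n < L) :
    (∑ y : LowK m L, if y.d = n then (1 : ℤ) else 0) = m n := by
  have h1 : (∑ y : LowK m L, if y.d = n then (1 : ℤ) else 0) =
      ∑ k : Fin (L - 1), ∑ _i : Fin (m (k + 1)), if ((k : ℕ) + 1) = n then (1 : ℤ) else 0 := by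
    unfold LowK LowK.d
    rw [Fintype.sum_sigma]
  rw [h1]
  have h2 : ∀ k : Fin (L - 1), (∑ _i : Fin (m (k + 1)), if ((k : ℕ) + 1) = n then (1 : ℤ) else 0) =
      if (k : ℕ) = n - 1 then (m n : ℤ) else 0 := by
    intro k
    rw [Finset.sum_const, Finset.card_univ, Fintype.card_fin, nsmul_eq_mul]
    by_cases h : (k : ℕ) + 1 = n
    · rw [if_pos h, if_pos (by omega), h, mul_one]
    · rw [if_neg h, if_neg (by omega), mul_zero]
  rw [Finset.sum_congr rfl fun k _ => h2 k]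
  rw [Finset.sum_eq_single (⟨n - 1, by omega⟩ : Fin (L - 1))]
  · rw [if_pos rfl]
  · intro k _ hk
    rw [if_neg fun h => hk (Fin.ext h)]
  · intro h
    exact absurd (Finset.mem_univ _) h

lemma lowY_prod (m : ℕ → ℕ) {L : ℕ} (hL : 1 ≤ L) :
    (∏ y : LowK m L, (1 - X ^ y.d : ℤ⟦X⟧)) = PrN m L := by
  have h1 : (∏ y : LowK m L, (1 - X ^ y.d : ℤ⟦X⟧)) =
      ∏ k : Fin (L - 1), ∏ _i : Fin (m (k + 1)), (1 - X ^ ((k : ℕ) + 1) : ℤ⟦X⟧) := by
    unfold LowK LowK.d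
    rw [Fintype.prod_sigma]
  rw [h1]
  unfold PrN
  rw [← Pr_Ico m hL]
  unfold Pr
  rw [← Finset.range_eq_Ico, Finset.prod_range]
  refine Finset.prod_congr rfl fun k _ => ?_
  rw [Finset.prod_const, Finset.card_univ, Fintype.card_fin]

/-- **numbers, packed form** -/
theorem num_packed {lam rad ρA ρB : ℝ} (hlam : 1 < lam) (hrad : 1 < lam * rad) (hrad1 : rad < 1)
    {dN dB dH : Polynomial ℤ} (h0N : dN.coeff 0 = 1) (h0B : dB.coeff 0 = 1) (h0H : dH.coeff 0 = 1)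
    (hA : HubFac lam ρA (ps (dN * (dB * dH)))) (hB : HubFac lam ρB (ps dB)) (hρB : 1 < lam * ρB)
    (hzN : ∀ z : ℂ, ‖z‖ ≤ rad → Polynomial.aeval z dN ≠ 0)
    (hzH : ∀ z : ℂ, ‖z‖ ≤ rad → Polynomial.aeval z dH ≠ 0)
    (hTN : ∀ k, 0 < k → Tw (ps dB) k = 0 → Tw (ps dN) k = 0)
    (hTH : ∀ k, 0 < k → Tw (ps dB) k = 0 → Tw (ps dH) k = 0) :
    ∃ r ρ : ℝ, 1 < lam * r ∧ r ≤ rad ∧ r < ρ ∧ ρ < 1 ∧
      ∃ (Y : Type) (_ : Fintype Y) (d : Y → ℕ) (L : ℕ) (cN cH : ℕ → ℤ),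
        (∀ y, 0 < d y) ∧ (∀ y, d y < L) ∧
        (∀ n, 0 < n → n < L → 0 ≤ cN n + (∑ y, if d y = n then (1 : ℤ) else 0) + cH n) ∧
        (∀ n, 0 < n → n < L → (∀ y, ¬ d y ∣ n) → cN n = 0 ∧ cH n = 0) ∧
        ∀ eN eH : ℕ → ℕ, ∃ p, 0 < p ∧ ∃ (T : Type) (_ : Fintype T) (lT : T → ℤ⟦X⟧)
          (alN beN alH beH HQ : ℤ⟦X⟧),
          (∀ l, ((∃ t, l = lT t) ∨ l = alN + beN ∨ l = alH + beH) → FN ρ l ∧ sn ρ l ≤ 1) ∧
          (∀ f, ((∃ t, f = lT t) ∨ f = alN ∨ f = beN ∨ f = alH ∨ f = beH) →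
            HN.Nn f ∧ coeff 0 f = 0) ∧
          (∀ u : ℕ → ℤ⟦X⟧ˣ, (∀ n, 0 < n → (u n : ℤ⟦X⟧) = 1 - X ^ n) →
            ps dN = (1 - (alN - beN)) * (((∏ n ∈ Finset.Ico 1 L, u n ^ cN n) *
              ∏ n ∈ Finset.Ico 1 L, u (n * p) ^ (eN n : ℤ) : ℤ⟦X⟧ˣ) : ℤ⟦X⟧)) ∧
          (∀ u : ℕ → ℤ⟦X⟧ˣ, (∀ n, 0 < n → (u n : ℤ⟦X⟧) = 1 - X ^ n) →
            ps dH = (1 - (alH - beH)) * (((∏ n ∈ Finset.Ico 1 L, u n ^ cH n) *
              ∏ n ∈ Finset.Ico 1 L, u (n * p) ^ (eH n : ℤ) : ℤ⟦X⟧ˣ) : ℤ⟦X⟧)) ∧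
          ps dB = (∏ y, (1 - X ^ d y)) * (∏ t, (1 - lT t)) * (1 - (alN + beN)) *
            (1 - (alH + beH)) * (1 - HQ) ∧
          HN.Nn HQ ∧ coeff 0 HQ = 0 ∧ FN r HQ ∧ 1 < sv r HQ ∧ sv lam⁻¹ HQ = 1 ∧
          ∃ c > (0 : ℝ), ∃ D0 : ℕ, ∀ d, D0 ≤ d → c ≤ ((coeff d HQ : ℤ) : ℝ) * ρ ^ d := by
  have hlam0 : 0 < lam := one_pos.trans hlam
  set x0 := lam⁻¹ with hx0def
  have hx0 : 0 < x0 := inv_pos.2 hlam0
  have hx0rad : x0 < rad := by rw [hx0def, inv_lt_iff_one_lt_mul₀ hlam0]; linarith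
  have hx0ρ : x0 < ρB := by rw [hx0def, inv_lt_iff_one_lt_mul₀ hlam0]; linarith
  have hrad0 : 0 < rad := hx0.trans hx0rad
  -- the radius
  set ρ0 := min ρB rad with hρ0
  have hxρ0 : x0 < ρ0 := lt_min hx0ρ hx0rad
  have hρ01 : ρ0 < 1 := (min_le_right _ _).trans_lt hrad1
  obtain ⟨θ, H, cs, b, hθ, hH, hH0, hHN, hH1, hHb, hcs, hprod⟩ :=
    hB.mono (hx0.trans hxρ0).le (min_le_left ρB rad)
  -- μ
  obtain ⟨ν, hν1, hν2⟩ := exists_between hx0rad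
  have hν : 0 < ν := hx0.trans hν1
  set μ := ν⁻¹ with hμdef
  have hμ0 : 0 < μ := inv_pos.2 hν
  have hμx : μ * x0 < 1 := by
    rw [hμdef, inv_mul_lt_iff₀ hν]; linarith
  have hμr : 1 < μ * rad := by
    rw [hμdef, ← div_eq_inv_mul, one_lt_div hν]; exact hν2
  obtain ⟨m, r, ρ, c, n1, r1, r2, r3, r4, hc, hn1, hnum⟩ :=
    exists_num hx0 hxρ0 hρ01 hθ hH hH0 hHN hH1 hHb hcs hμ0 hμx
  obtain ⟨nN, hN⟩ := small_of_ex h0N hrad1 hμ0 hμr hzN
  obtain ⟨nH, hH'⟩ := small_of_ex h0H hrad1 hμ0 hμr hzH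
  have hr0 : 0 < r := hx0.trans r1
  have hρpos : 0 < ρ := hr0.trans r2
  set L := n1 + nN + nH with hL
  have hL1 : 1 ≤ L := by omega
  have hz0 : ∀ {q : Polynomial ℤ}, q.coeff 0 = 1 → coeff 0 (ps q) = 1 := by
    intro q hq
    have : ps q = (q : ℤ⟦X⟧) := rfl
    rw [this, Polynomial.coeff_coe, hq]
  -- m = exponents of B
  have hm : ∀ n, 1 ≤ n → n < L → ex (ps dB) n = m n := by
    have hsm : SmallS L μ (0 : ℤ⟦X⟧) := ⟨fun d _ => by simp, fun d => by simp [pow_nonneg hμ0.le d]⟩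
    obtain ⟨ls, HQ, q1, q2, q3, q4, q5, q6, q7, q8, q9, q10, q11⟩ := hnum L (by omega) 0 0 hsm hsm
    have hcg : ∀ {l : ℤ⟦X⟧}, (∀ d < L, coeff d l = 0) → Cg (L - 1) (1 - l) 1 := by
      intro l hl d hd
      rw [map_sub, hl d (by omega), sub_zero]
    have hls : Cg (L - 1) (ls.map fun l => 1 - l).prod 1 := by
      clear q2 q11
      induction ls with
      | nil => simpa using Cg.refl _
      | cons l ls ih =>
        rw [List.map_cons, List.prod_cons]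
        simpa using (hcg (q1 l (List.mem_cons_self ..)).low).mul
          (ih fun l hl => q1 l (List.mem_cons_of_mem _ hl))
    have hU : Cg (L - 1) ((1 - HQ) * ((1 - absS 0) * (1 - absS 0)) * (ls.map fun l => 1 - l).prod) 1 := by
      simpa using ((hcg q6).mul ((hcg q3.low).mul (hcg q3.low))).mul hls
    refine ex_eq_of_prod (U := (1 - HQ) * ((1 - absS 0) * (1 - absS 0)) *
      (ls.map fun l => 1 - l).prod) ?_ (fun d hd => by rw [hU d (by omega), coeff_one]) hL1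
    rw [← hprod, ← q11]
    rfl
  have hps : ps (dN * (dB * dH)) = ps dN * (ps dB * ps dH) := by
    have : ∀ p q : Polynomial ℤ, ps (p * q) = ps p * ps q := fun p q => Polynomial.coe_mul p q
    rw [this, this]
  refine ⟨r, ρ, ?_, (r2.trans r3).le.trans (min_le_right _ _), r2, r3.trans hρ01, LowK m L,
    inferInstance, LowK.d, L, ex (ps dN), ex (ps dH), fun y => Nat.succ_pos _, fun y => ?_, ?_, ?_, ?_⟩
  · rw [hx0def, inv_lt_iff_one_lt_mul₀ hlam0] at r1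
    linarith
  · have := y.1.2
    unfold LowK.d
    omega
  · intro n h0 h1
    rw [lowY_count m h0 h1, ← hm n h0 h1]
    have h2 := hA.ex_nonneg n
    rw [hps, ex_mul (hz0 h0N) (coeff_zero_mul' (hz0 h0B) (hz0 h0H)) h0,
      ex_mul (hz0 h0B) (hz0 h0H) h0] at h2
    linarith
  · intro n h0 h1 h2
    have hTB : ∀ k, k ∣ n → Tw (ps dB) k = 0 := by
      intro k hk
      have hk0 := Nat.pos_of_dvd_of_pos hk h0
      rw [Tw_eq (hz0 h0B) hk0]
      refine Finset.sum_eq_zero fun j hj => ?_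
      have hj1 := Nat.dvd_of_mem_divisors hj
      have hj0 := Nat.pos_of_mem_divisors hj
      have hjn : j ∣ n := hj1.trans hk
      have hjL : j < L := lt_of_le_of_lt (Nat.le_of_dvd h0 hjn) h1
      have h3 : m j = 0 := by
        by_contra hcon
        exact h2 ⟨⟨j - 1, by omega⟩, ⟨0, by
          have : j - 1 + 1 = j := by omega
          simp only [this]
          omega⟩⟩ (by
            unfold LowK.d
            have : j - 1 + 1 = j := by omega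
            simp only [this]
            exact hjn)
      rw [hm j hj0 hjL, h3]
      simp
    exact ⟨ex_eq_zero (hz0 h0N) h0 fun k hk => hTN k (Nat.pos_of_dvd_of_pos hk h0) (hTB k hk),
      ex_eq_zero (hz0 h0H) h0 fun k hk => hTH k (Nat.pos_of_dvd_of_pos hk h0) (hTB k hk)⟩
  · intro eN eH
    obtain ⟨pN, hpN⟩ := hN L (by omega) (∑ n ∈ Finset.Ico 1 L, eN n)
    obtain ⟨pH, hpH⟩ := hH' L (by omega) (∑ n ∈ Finset.Ico 1 L, eH n)
    set p := pN + pH + 1 with hp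
    obtain ⟨sN, hsN, hsN'⟩ := small_units (f := dN) (p := p) (e := eN) (by omega)
      (fun E hE hE' => hpN E (fun l hl => le_trans (by omega) (hE l hl)) hE') le_rfl
    obtain ⟨sH, hsH, hsH'⟩ := small_units (f := dH) (p := p) (e := eH) (by omega)
      (fun E hE hE' => hpH E (fun l hl => le_trans (by omega) (hE l hl)) hE') le_rfl
    obtain ⟨ls, HQ, q1, q2, q3, q4, q5, q6, q7, q8, q9, q10, q11⟩ :=
      hnum L (by omega) sN sH hsN hsH
    have hsn : ∀ {l : ℤ⟦X⟧}, LoopS L r ρ l → FN ρ l ∧ sn ρ l ≤ 1 := by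
      intro l hl
      refine ⟨hl.fin, ?_⟩
      have := nS_eq_val hρpos.le hl.nn
      show nS ρ (toRS l) ≤ 1
      rw [this]
      exact hl.le
    refine ⟨p, by omega, Fin ls.length, inferInstance, fun t => ls.get t, posS sN, negS sN,
      posS sH, negS sH, HQ, ?_, ?_, ?_, ?_, ?_, q5, q6 0 (by omega), q7, q8, q9, c, hc, L, ?_⟩
    · rintro l (⟨t, rfl⟩ | rfl | rfl)
      · exact hsn (q1 _ (List.get_mem _ _))
      · rw [posS_add_negS]; exact hsn q3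
      · rw [posS_add_negS]; exact hsn q4
    · have z1 : ∀ {h : ℤ⟦X⟧}, SmallS L μ h → coeff 0 (posS h) = 0 ∧ coeff 0 (negS h) = 0 := by
        intro h hh
        rw [coeff_posS, coeff_negS, hh.1 0 (by omega)]
        simp
      rintro f (⟨t, rfl⟩ | rfl | rfl | rfl | rfl)
      · have := q1 _ (List.get_mem ls t)
        exact ⟨this.nn, this.low 0 (by omega)⟩
      · exact ⟨nn_posS _, (z1 hsN).1⟩
      · exact ⟨nn_negS _, (z1 hsN).2⟩
      · exact ⟨nn_posS _, (z1 hsH).1⟩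
      · exact ⟨nn_negS _, (z1 hsH).2⟩
    · intro u hu
      rw [posS_sub_negS]
      exact hsN' u hu
    · intro u hu
      rw [posS_sub_negS]
      exact hsH' u hu
    · rw [lowY_prod m hL1, posS_add_negS, posS_add_negS, ← hprod, ← q11]
      have e1 : (∏ t : Fin ls.length, (1 - ls.get t)) = (ls.map fun l => 1 - l).prod := by
        rw [← List.prod_ofFn]
        congr 1
        rw [← List.ofFn_get ls, List.map_ofFn]
        simp [Function.comp_def]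
      rw [e1]
      unfold PrN
      ring
    · intro d hd
      have h1 := q10 d hd
      have h2 : 0 < ρ ^ d := pow_pos hρpos d
      rw [← div_eq_mul_inv, div_le_iff₀ h2] at h1
      exact h1

end Pool.Agent.FTO
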