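import Pool.Agent.FTO.Small

/-!
# FTO: the level series of a system
-/

set_option autoImplicit false

open scoped BigOperators
open PowerSeries

namespace Pool.Agent.FTO

theorem pdet_constantCoeff {I : Type} [Fintype I] (π : Equiv.Perm I) {d : ℕ} (hd : 0 < d) :
    constantCoeff (pdet π ((X : PowerSeries ℤ) ^ d)) = 1 := by
  classical
  rw [pdet_eq, RingHom.map_det]
  have h : (constantCoeff (R := ℤ)).mapMatrix
      (1 - (X : PowerSeries ℤ) ^ d • pm (PowerSeries ℤ) π) = 1 := by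
    rw [map_sub, map_one]
    have h2 : (constantCoeff (R := ℤ)).mapMatrix
        ((X : PowerSeries ℤ) ^ d • pm (PowerSeries ℤ) π) = 0 := by
      ext i j
      rw [RingHom.mapMatrix_apply, Matrix.map_apply, Matrix.smul_apply, smul_eq_mul, map_mul,
        map_pow, constantCoeff_X, zero_pow hd.ne', zero_mul]
      rfl
    rw [h2, sub_zero]
  rw [h, Matrix.det_one]

theorem isUnit_pdet {I : Type} [Fintype I] (π : Equiv.Perm I) {d : ℕ} (hd : 0 < d) :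
    IsUnit (pdet π ((X : PowerSeries ℤ) ^ d)) := by
  rw [PowerSeries.isUnit_iff_constantCoeff, pdet_constantCoeff π hd]
  exact isUnit_one

/-- the two level series of a system -/
theorem PSys.exists_levels (Y : PSys) {d : ℕ} (hd : 0 < d) : ∃ dN dH : PowerSeries ℤ,
    dH * pdet Y.pC (X ^ d) = pdet Y.pB (X ^ d) ∧
    dN * ((1 - X ^ d) * dH) = pdet Y.pI (X ^ d) := by
  obtain ⟨uC, hC⟩ := isUnit_pdet Y.pC hd
  obtain ⟨uB, hB⟩ := isUnit_pdet Y.pB hd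
  have h1 : ((uX d : (PowerSeries ℤ)ˣ) : PowerSeries ℤ) = 1 - X ^ d := uX_val d hd
  refine ⟨pdet Y.pI ((X : PowerSeries ℤ) ^ d) *
    (((uX d * (uB * uC⁻¹))⁻¹ : (PowerSeries ℤ)ˣ) : PowerSeries ℤ),
    ((uB * uC⁻¹ : (PowerSeries ℤ)ˣ) : PowerSeries ℤ), ?_, ?_⟩
  · rw [← hC, ← hB, ← Units.val_mul, inv_mul_cancel_right]
  · rw [← h1, ← Units.val_mul, mul_assoc, Units.inv_mul, mul_one]

/-- **hosts**, with the level series -/
theorem exists_hosts_levels {Y : Type} [Fintype Y] (d : Y → ℕ) (hd : ∀ y, 0 < d y) (L : ℕ)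
    (hL : ∀ y, d y < L) (cN cH : ℕ → ℤ)
    (hφ : ∀ n, 0 < n → n < L →
      0 ≤ cN n + (∑ y, if d y = n then (1 : ℤ) else 0) + cH n)
    (hT : ∀ n, 0 < n → n < L → (∀ y, ¬ d y ∣ n) → cN n = 0 ∧ cH n = 0) :
    ∃ eN eH : ℕ → ℕ, ∀ p, 0 < p → ∃ (X : Y → PSys) (dN dH : Y → PowerSeries ℤ),
      (∀ y, dH y * pdet (X y).pC (PowerSeries.X ^ d y) = pdet (X y).pB (PowerSeries.X ^ d y)) ∧
      (∀ y, dN y * ((1 - PowerSeries.X ^ d y) * dH y) = pdet (X y).pI (PowerSeries.X ^ d y)) ∧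
      ∏ y, dN y = ((∏ n ∈ Finset.Ico 1 L, uX n ^ cN n) *
        ∏ n ∈ Finset.Ico 1 L, uX (n * p) ^ (eN n : ℤ) : (PowerSeries ℤ)ˣ) ∧
      ∏ y, dH y = ((∏ n ∈ Finset.Ico 1 L, uX n ^ cH n) *
        ∏ n ∈ Finset.Ico 1 L, uX (n * p) ^ (eH n : ℤ) : (PowerSeries ℤ)ˣ) := by
  obtain ⟨eN, eH, h⟩ := exists_hosts d hd L hL cN cH hφ hT
  refine ⟨eN, eH, fun p hp => ?_⟩
  obtain ⟨Z, hZ⟩ := h p hp
  choose dN dH h1 h2 using fun y => (Z y).exists_levels (hd y)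
  obtain ⟨k1, k2⟩ := hZ (PowerSeries ℤ) PowerSeries.X uX uX_val dN dH h1 fun y => (h2 y).symm
  exact ⟨Z, dN, dH, h1, h2, k1, k2⟩

end Pool.Agent.FTO
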