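import Pool.Agent.FTO.Local
import Mathlib.Algebra.BigOperators.Intervals
import Mathlib.Tactic

/-!
# FTO: hosts

The local systems of a finite set of low loops, with prescribed products of the level determinants.
-/

set_option autoImplicit false

open scoped BigOperators

namespace Pool.Agent.FTO

open Classical in
/-- a host of `n`: a loop whose length divides `n` -/
noncomputable def host {Y : Type} (d : Y → ℕ) (n : ℕ) : Option Y :=
  if h : ∃ y, d y ∣ n then some h.choose else none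

theorem host_dvd {Y : Type} {d : Y → ℕ} {n : ℕ} {y : Y} (h : host d n = some y) : d y ∣ n := by
  unfold host at h
  split_ifs at h with h1
  rw [← Option.some.inj h]
  exact h1.choose_spec

theorem exists_host {Y : Type} {d : Y → ℕ} {n : ℕ} (h : ∃ y, d y ∣ n) :
    ∃ y, host d n = some y := ⟨h.choose, dif_pos h⟩

/-- products over the multiples of `d` -/
theorem prod_mul_left {G : Type} [CommGroup G] (d L : ℕ) (hd : 0 < d) (f : ℕ → G) :
    ∏ m ∈ Finset.Ico 1 L, (if d * m < L then f (d * m) else 1) =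
      ∏ n ∈ Finset.Ico 1 L, (if d ∣ n then f n else 1) := by
  rw [← Finset.prod_filter, ← Finset.prod_filter]
  refine Finset.prod_nbij' (fun m => d * m) (fun n => n / d) ?_ ?_ ?_ ?_ ?_
  · intro m hm
    rw [Finset.mem_filter, Finset.mem_Ico] at hm ⊢
    exact ⟨⟨Nat.mul_pos hd hm.1.1, hm.2⟩, dvd_mul_right d m⟩
  · intro n hn
    rw [Finset.mem_filter, Finset.mem_Ico] at hn ⊢
    have h1 : d * (n / d) = n := Nat.mul_div_cancel' hn.2
    refine ⟨⟨Nat.div_pos (Nat.le_of_dvd hn.1.1 hn.2) hd, ?_⟩, ?_⟩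
    · exact lt_of_le_of_lt (Nat.div_le_self n d) hn.1.2
    · rw [h1]
      exact hn.1.2
  · intro m _
    exact Nat.mul_div_cancel_left m hd
  · intro n hn
    rw [Finset.mem_filter] at hn
    exact Nat.mul_div_cancel' hn.2
  · intro m _
    rfl

/-- the product in a group with exponents that depend on the vertex -/
theorem prod_zpow_sum {G Y : Type} [CommGroup G] [Fintype Y] (s : Finset ℕ) (u : ℕ → G)
    (w : Y → ℕ → ℤ) : ∏ y, ∏ n ∈ s, u n ^ w y n = ∏ n ∈ s, u n ^ ∑ y, w y n := by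
  rw [Finset.prod_comm]
  refine Finset.prod_congr rfl fun n _ => ?_
  induction (Finset.univ : Finset Y) using Finset.cons_induction with
  | empty => simp
  | cons a s ha ih => rw [Finset.prod_cons, Finset.sum_cons, zpow_add, ih]

/-- one fibre: from the counts to the levels -/
theorem one_fibre {R : Type} [CommRing R] (Y : PSys) {p L : ℕ} {a b c : ℕ → ℕ}
    {s : R} (v : ℕ → Rˣ) (hv : ∀ m, 0 < m → (v m : R) = 1 - s ^ m) (hp : 0 < p)
    (hI : pdet Y.pI s = (1 - s ^ p) * (∏ m ∈ Finset.Ico 1 L, (1 - s ^ m) ^ a m) *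
        ∏ m ∈ Finset.Ico 1 L, (1 - s ^ (m * p)) ^ (b m + c m))
    (hB : pdet Y.pB s = (1 - s) * (∏ m ∈ Finset.Ico 1 L, (1 - s ^ m) ^ b m) *
        ∏ m ∈ Finset.Ico 1 L, (1 - s ^ (m * p)) ^ c m)
    (hC : pdet Y.pC s = (1 - s) * ∏ m ∈ Finset.Ico 1 L, (1 - s ^ m) ^ c m)
    {nN nH : R} (h1 : nH * pdet Y.pC s = pdet Y.pB s)
    (h2 : pdet Y.pI s = nN * ((1 - s) * nH)) :
    nH = ((∏ m ∈ Finset.Ico 1 L, v m ^ ((b m : ℤ) - c m)) *
      ∏ m ∈ Finset.Ico 1 L, v (m * p) ^ (c m : ℤ) : Rˣ) ∧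
    nN * (1 - s) = ((v p * ∏ m ∈ Finset.Ico 1 L, v m ^ ((a m : ℤ) - b m + c m)) *
      ∏ m ∈ Finset.Ico 1 L, v (m * p) ^ (b m : ℤ) : Rˣ) := by
  have hcoe : ∀ e : ℕ → ℕ, ((∏ m ∈ Finset.Ico 1 L, v m ^ e m : Rˣ) : R) =
      ∏ m ∈ Finset.Ico 1 L, (1 - s ^ m) ^ e m := by
    intro e
    rw [Units.coe_prod]
    refine Finset.prod_congr rfl fun m hm => ?_
    rw [Units.val_pow_eq_pow_val, hv m (Finset.mem_Ico.1 hm).1]
  have hcoe' : ∀ e : ℕ → ℕ, ((∏ m ∈ Finset.Ico 1 L, v (m * p) ^ e m : Rˣ) : R) =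
      ∏ m ∈ Finset.Ico 1 L, (1 - s ^ (m * p)) ^ e m := by
    intro e
    rw [Units.coe_prod]
    refine Finset.prod_congr rfl fun m hm => ?_
    rw [Units.val_pow_eq_pow_val, hv _ (Nat.mul_pos (Finset.mem_Ico.1 hm).1 hp)]
  have hv1 : (v 1 : R) = 1 - s := by rw [hv 1 one_pos, pow_one]
  have hvp : (v p : R) = 1 - s ^ p := hv p hp
  set VA : Rˣ := ∏ m ∈ Finset.Ico 1 L, v m ^ a m with hVA
  set VB : Rˣ := ∏ m ∈ Finset.Ico 1 L, v m ^ b m with hVB
  set VC : Rˣ := ∏ m ∈ Finset.Ico 1 L, v m ^ c m with hVC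
  set PB : Rˣ := ∏ m ∈ Finset.Ico 1 L, v (m * p) ^ b m with hPB
  set PC : Rˣ := ∏ m ∈ Finset.Ico 1 L, v (m * p) ^ c m with hPC
  have hsum : ((∏ m ∈ Finset.Ico 1 L, v (m * p) ^ (b m + c m) : Rˣ)) = PB * PC := by
    rw [hPB, hPC, ← Finset.prod_mul_distrib]
    exact Finset.prod_congr rfl fun m _ => pow_add _ _ _
  have hI' : pdet Y.pI s = ((v p * VA * (PB * PC) : Rˣ) : R) := by
    rw [hI, ← hcoe a, ← hcoe' fun m => b m + c m, hsum, ← hvp, ← Units.val_mul, ← Units.val_mul]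
  have hB' : pdet Y.pB s = ((v 1 * VB * PC : Rˣ) : R) := by
    rw [hB, ← hcoe b, ← hcoe' c, ← hv1, ← Units.val_mul, ← Units.val_mul]
  have hC' : pdet Y.pC s = ((v 1 * VC : Rˣ) : R) := by
    rw [hC, ← hcoe c, ← hv1, ← Units.val_mul]
  have e1 : (∏ m ∈ Finset.Ico 1 L, v m ^ ((b m : ℤ) - c m)) = VB * VC⁻¹ := by
    rw [hVB, hVC, ← Finset.prod_inv_distrib, ← Finset.prod_mul_distrib]
    refine Finset.prod_congr rfl fun m _ => ?_
    rw [zpow_sub, zpow_natCast, zpow_natCast]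
  have e2 : (∏ m ∈ Finset.Ico 1 L, v (m * p) ^ (c m : ℤ)) = PC := by
    rw [hPC]
    exact Finset.prod_congr rfl fun m _ => zpow_natCast _ _
  have e3 : (∏ m ∈ Finset.Ico 1 L, v m ^ ((a m : ℤ) - b m + c m)) = VA * VB⁻¹ * VC := by
    rw [hVA, hVB, hVC, ← Finset.prod_inv_distrib, ← Finset.prod_mul_distrib,
      ← Finset.prod_mul_distrib]
    refine Finset.prod_congr rfl fun m _ => ?_
    rw [zpow_add, zpow_sub, zpow_natCast, zpow_natCast, zpow_natCast]
  have e4 : (∏ m ∈ Finset.Ico 1 L, v (m * p) ^ (b m : ℤ)) = PB := by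
    rw [hPB]
    exact Finset.prod_congr rfl fun m _ => zpow_natCast _ _
  rw [e1, e2, e3, e4]
  have hH : nH = ((VB * VC⁻¹ * PC : Rˣ) : R) := by
    rw [hB', hC'] at h1
    have h3 : nH = (((v 1 * VB * PC) * (v 1 * VC)⁻¹ : Rˣ) : R) := by
      rw [Units.val_mul (v 1 * VB * PC), ← h1, mul_assoc, Units.mul_inv, mul_one]
    rw [h3]
    congr 1
    rw [mul_inv]
    calc v 1 * VB * PC * ((v 1)⁻¹ * VC⁻¹) = v 1 * (v 1)⁻¹ * (VB * VC⁻¹ * PC) := by
          ac_rfl
      _ = _ := by rw [mul_inv_cancel, one_mul]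
  refine ⟨hH, ?_⟩
  have h4 : nN * (1 - s) = (((v p * VA * (PB * PC)) * (VB * VC⁻¹ * PC)⁻¹ : Rˣ) : R) := by
    rw [Units.val_mul (v p * VA * (PB * PC)), ← hI', h2, hH, mul_assoc, mul_assoc,
      Units.mul_inv, mul_one]
  rw [h4]
  congr 1
  rw [mul_inv, mul_inv, inv_inv]
  calc v p * VA * (PB * PC) * (VB⁻¹ * VC * PC⁻¹) = PC * PC⁻¹ * (v p * (VA * VB⁻¹ * VC) * PB) := by
        ac_rfl
    _ = _ := by rw [mul_inv_cancel, one_mul]

/-- **Hosts.** The low loops `y` of lengths `d y < L`; prescribed exponents `cN`, `cH` of the two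
levels in the degrees below `L`. The exponents `eN`, `eH` of the long cycles do not depend on
`p`. -/
theorem exists_hosts {Y : Type} [Fintype Y] (d : Y → ℕ) (hd : ∀ y, 0 < d y) (L : ℕ)
    (hL : ∀ y, d y < L) (cN cH : ℕ → ℤ)
    (hφ : ∀ n, 0 < n → n < L →
      0 ≤ cN n + (∑ y, if d y = n then (1 : ℤ) else 0) + cH n)
    (hT : ∀ n, 0 < n → n < L → (∀ y, ¬ d y ∣ n) → cN n = 0 ∧ cH n = 0) :
    ∃ eN eH : ℕ → ℕ, ∀ p, 0 < p → ∃ X : Y → PSys, ∀ (R : Type) [CommRing R] (t : R)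
      (u : ℕ → Rˣ), (∀ n, 0 < n → (u n : R) = 1 - t ^ n) → ∀ nN nH : Y → R,
      (∀ y, nH y * pdet (X y).pC (t ^ d y) = pdet (X y).pB (t ^ d y)) →
      (∀ y, pdet (X y).pI (t ^ d y) = nN y * ((1 - t ^ d y) * nH y)) →
      ∏ y, nN y = ((∏ n ∈ Finset.Ico 1 L, u n ^ cN n) *
        ∏ n ∈ Finset.Ico 1 L, u (n * p) ^ (eN n : ℤ) : Rˣ) ∧
      ∏ y, nH y = ((∏ n ∈ Finset.Ico 1 L, u n ^ cH n) *
        ∏ n ∈ Finset.Ico 1 L, u (n * p) ^ (eH n : ℤ) : Rˣ) := by
  classical
  -- the weights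
  let wN : Y → ℕ → ℤ := fun y n => if host d n = some y then cN n else 0
  let wH : Y → ℕ → ℤ := fun y n => (if host d n = some y then
    cH n + (∑ y', if d y' = n then (1 : ℤ) else 0) else 0) - if d y = n then 1 else 0
  have dN : ∀ y n, wN y n = if host d n = some y then cN n else 0 := fun _ _ => rfl
  have dH : ∀ y n, wH y n = (if host d n = some y then
    cH n + (∑ y', if d y' = n then (1 : ℤ) else 0) else 0) - if d y = n then 1 else 0 :=
    fun _ _ => rfl
  have hwN : ∀ y n, ¬ d y ∣ n → wN y n = 0 := fun y n h => if_neg fun h' => h (host_dvd h')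
  have hwH : ∀ y n, ¬ d y ∣ n → wH y n = 0 := by
    intro y n h
    rw [dH, if_neg (fun h' => h (host_dvd h')), if_neg (fun h' => h (by rw [h'])), sub_zero]
  have hpos : ∀ y n, 0 < n → n < L → 0 ≤ wN y n + wH y n + if d y = n then 1 else 0 := by
    intro y n h0 h1
    rw [dN, dH]
    by_cases h : host d n = some y
    · rw [if_pos h, if_pos h]
      have := hφ n h0 h1
      linarith
    · rw [if_neg h, if_neg h]
      linarith
  have hsN : ∀ n, 0 < n → n < L → ∑ y, wN y n = cN n := by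
    intro n h0 h1
    by_cases h : ∃ y, d y ∣ n
    · obtain ⟨y, hy⟩ := exists_host h
      rw [Finset.sum_eq_single y]
      · exact if_pos hy
      · intro y' _ hy'
        exact if_neg fun h' => hy' (Option.some.inj (h'.symm.trans hy))
      · intro h'
        exact absurd (Finset.mem_univ _) h'
    · rw [(hT n h0 h1 fun y hy => h ⟨y, hy⟩).1]
      exact Finset.sum_eq_zero fun y _ => hwN y n fun hy => h ⟨y, hy⟩
  have hsH : ∀ n, 0 < n → n < L → ∑ y, wH y n = cH n := by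
    intro n h0 h1
    by_cases h : ∃ y, d y ∣ n
    · obtain ⟨y, hy⟩ := exists_host h
      simp only [dH]
      rw [Finset.sum_sub_distrib, Finset.sum_eq_single y]
      · rw [if_pos hy]
        ring
      · intro y' _ hy'
        exact if_neg fun h' => hy' (Option.some.inj (h'.symm.trans hy))
      · intro h'
        exact absurd (Finset.mem_univ _) h'
    · rw [(hT n h0 h1 fun y hy => h ⟨y, hy⟩).2]
      exact Finset.sum_eq_zero fun y _ => hwH y n fun hy => h ⟨y, hy⟩
  -- the counts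
  let a : Y → ℕ → ℕ := fun y m => if d y * m < L then
    (wN y (d y * m) + wH y (d y * m) + if d y = d y * m then 1 else 0).toNat else 0
  let b : Y → ℕ → ℕ := fun y m => if d y * m < L then (wH y (d y * m)).toNat else 0
  let c : Y → ℕ → ℕ := fun y m => if d y * m < L then (-(wH y (d y * m))).toNat else 0
  refine ⟨fun n => ∑ y, ((wH y n).toNat + if d y = n then 1 else 0),
    fun n => ∑ y, (-(wH y n)).toNat, fun p hp => ?_⟩
  choose X hX using fun y => PSys.exists_counts p hp (a y) (b y) (c y) L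
  refine ⟨X, fun R _ t u hu nN nH h1 h2 => ?_⟩
  -- one fibre
  have key : ∀ y, nN y = ((∏ n ∈ Finset.Ico 1 L, u n ^ wN y n) * ∏ n ∈ Finset.Ico 1 L,
      u (n * p) ^ (((wH y n).toNat + if d y = n then 1 else 0 : ℕ) : ℤ) : Rˣ) ∧
      nH y = ((∏ n ∈ Finset.Ico 1 L, u n ^ wH y n) * ∏ n ∈ Finset.Ico 1 L,
      u (n * p) ^ ((-(wH y n)).toNat : ℤ) : Rˣ) := by
    intro y
    obtain ⟨hI, hB, hC⟩ := hX y R (t ^ d y)
    have hv : ∀ m, 0 < m → ((u (d y * m) : Rˣ) : R) = 1 - (t ^ d y) ^ m := by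
      intro m hm
      rw [hu _ (Nat.mul_pos (hd y) hm), pow_mul]
    obtain ⟨k1, k2⟩ := one_fibre (X y) (fun m => u (d y * m)) hv hp hI hB hC (h1 y) (h2 y)
    have hprod : ∀ f : ℕ → Rˣ, (∀ n, ¬ d y ∣ n → f n = 1) →
        ∏ m ∈ Finset.Ico 1 L, (if d y * m < L then f (d y * m) else 1) =
          ∏ n ∈ Finset.Ico 1 L, f n := by
      intro f hf
      rw [prod_mul_left (d y) L (hd y) f]
      refine Finset.prod_congr rfl fun n _ => ?_
      split_ifs with h
      · rfl
      · exact (hf n h).symm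
    have hsing : ∀ f : ℕ → Rˣ, ∏ n ∈ Finset.Ico 1 L, f n ^ ((if d y = n then 1 else 0 : ℕ) : ℤ) =
        f (d y) := by
      intro f
      rw [Finset.prod_eq_single (d y)]
      · rw [if_pos rfl, Nat.cast_one, zpow_one]
      · intro n _ hn
        rw [if_neg (fun h => hn h.symm), Nat.cast_zero, zpow_zero]
      · intro h
        exact absurd (Finset.mem_Ico.2 ⟨hd y, hL y⟩) h
    have e1 : ∏ m ∈ Finset.Ico 1 L, u (d y * m) ^ ((b y m : ℤ) - c y m) =
        ∏ n ∈ Finset.Ico 1 L, u n ^ wH y n := by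
      rw [← hprod (fun n => u n ^ wH y n) fun n hn => by
        show u n ^ wH y n = 1
        rw [hwH y n hn, zpow_zero]]
      refine Finset.prod_congr rfl fun m _ => ?_
      show u (d y * m) ^ (((if d y * m < L then (wH y (d y * m)).toNat else 0 : ℕ) : ℤ) -
        ((if d y * m < L then (-(wH y (d y * m))).toNat else 0 : ℕ) : ℤ)) = _
      by_cases h : d y * m < L
      · rw [if_pos h, if_pos h, if_pos h, Int.toNat_sub_toNat_neg]
      · rw [if_neg h, if_neg h, if_neg h, sub_self, zpow_zero]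
    have e2 : ∏ m ∈ Finset.Ico 1 L, u (d y * (m * p)) ^ (c y m : ℤ) =
        ∏ n ∈ Finset.Ico 1 L, u (n * p) ^ ((-(wH y n)).toNat : ℤ) := by
      rw [← hprod (fun n => u (n * p) ^ ((-(wH y n)).toNat : ℤ)) fun n hn => by
        show u (n * p) ^ ((-(wH y n)).toNat : ℤ) = 1
        rw [hwH y n hn, neg_zero, Int.toNat_zero, Nat.cast_zero, zpow_zero]]
      refine Finset.prod_congr rfl fun m _ => ?_
      show u (d y * (m * p)) ^
        ((if d y * m < L then (-(wH y (d y * m))).toNat else 0 : ℕ) : ℤ) = _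
      by_cases h : d y * m < L
      · rw [if_pos h, if_pos h, mul_assoc]
      · rw [if_neg h, if_neg h, Nat.cast_zero, zpow_zero]
    have e3 : ∏ m ∈ Finset.Ico 1 L, u (d y * m) ^ ((a y m : ℤ) - b y m + c y m) =
        (∏ n ∈ Finset.Ico 1 L, u n ^ wN y n) * u (d y) := by
      rw [← hsing u, ← Finset.prod_mul_distrib,
        ← hprod (fun n => u n ^ wN y n * u n ^ ((if d y = n then 1 else 0 : ℕ) : ℤ))
          fun n hn => by
            show u n ^ wN y n * u n ^ ((if d y = n then 1 else 0 : ℕ) : ℤ) = 1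
            rw [hwN y n hn, zpow_zero, if_neg (fun h' => hn (by rw [h'])), Nat.cast_zero,
              zpow_zero, mul_one]]
      refine Finset.prod_congr rfl fun m hm => ?_
      show u (d y * m) ^ (((if d y * m < L then
        (wN y (d y * m) + wH y (d y * m) + if d y = d y * m then 1 else 0).toNat else 0 : ℕ) : ℤ) -
        ((if d y * m < L then (wH y (d y * m)).toNat else 0 : ℕ) : ℤ) +
        ((if d y * m < L then (-(wH y (d y * m))).toNat else 0 : ℕ) : ℤ)) = _
      by_cases h : d y * m < L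
      · have hm0 : 0 < d y * m := Nat.mul_pos (hd y) (Finset.mem_Ico.1 hm).1
        rw [if_pos h, if_pos h, if_pos h, if_pos h, ← zpow_add,
          Int.toNat_of_nonneg (hpos y _ hm0 h)]
        congr 1
        have := Int.toNat_sub_toNat_neg (wH y (d y * m))
        split_ifs <;> push_cast <;> linarith
      · rw [if_neg h, if_neg h, if_neg h, if_neg h, Nat.cast_zero, sub_self, zero_add, zpow_zero]
    have e4 : u (d y * p) * ∏ m ∈ Finset.Ico 1 L, u (d y * (m * p)) ^ (b y m : ℤ) =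
        ∏ n ∈ Finset.Ico 1 L,
          u (n * p) ^ (((wH y n).toNat + if d y = n then 1 else 0 : ℕ) : ℤ) := by
      have h3 : ∏ n ∈ Finset.Ico 1 L,
          u (n * p) ^ (((wH y n).toNat + if d y = n then 1 else 0 : ℕ) : ℤ) =
          (∏ n ∈ Finset.Ico 1 L, u (n * p) ^ ((wH y n).toNat : ℤ)) * u (d y * p) := by
        rw [← hsing fun n => u (n * p), ← Finset.prod_mul_distrib]
        refine Finset.prod_congr rfl fun n _ => ?_
        rw [← zpow_add, Nat.cast_add]
      rw [h3, mul_comm]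
      congr 1
      rw [← hprod (fun n => u (n * p) ^ ((wH y n).toNat : ℤ)) fun n hn => by
        show u (n * p) ^ ((wH y n).toNat : ℤ) = 1
        rw [hwH y n hn, Int.toNat_zero, Nat.cast_zero, zpow_zero]]
      refine Finset.prod_congr rfl fun m _ => ?_
      show u (d y * (m * p)) ^
        ((if d y * m < L then (wH y (d y * m)).toNat else 0 : ℕ) : ℤ) = _
      by_cases h : d y * m < L
      · rw [if_pos h, if_pos h, mul_assoc]
      · rw [if_neg h, if_neg h, Nat.cast_zero, zpow_zero]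
    refine ⟨?_, ?_⟩
    · have h4 : nN y * (u (d y) : R) = ((∏ n ∈ Finset.Ico 1 L, u n ^ wN y n) *
          (∏ n ∈ Finset.Ico 1 L,
            u (n * p) ^ (((wH y n).toNat + if d y = n then 1 else 0 : ℕ) : ℤ)) * u (d y) : Rˣ) := by
        rw [hu _ (hd y), k2]
        congr 1
        rw [e3, ← e4]
        ac_rfl
      have h5 := congrArg (fun z : R => z * ((u (d y))⁻¹ : Rˣ)) h4
      simp only [mul_assoc, Units.mul_inv, mul_one, Units.val_mul] at h5
      rw [h5, Units.val_mul]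
    · rw [k1]
      congr 1
      rw [e1, e2]
  refine ⟨?_, ?_⟩
  · rw [Finset.prod_congr rfl fun y _ => (key y).1, ← Units.coe_prod, Finset.prod_mul_distrib,
      prod_zpow_sum, prod_zpow_sum (Finset.Ico 1 L) (fun n => u (n * p))
        fun y n => (((wH y n).toNat + if d y = n then 1 else 0 : ℕ) : ℤ)]
    congr 2
    · refine Finset.prod_congr rfl fun n hn => ?_
      rw [hsN n (Finset.mem_Ico.1 hn).1 (Finset.mem_Ico.1 hn).2]
    · refine Finset.prod_congr rfl fun n _ => ?_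
      rw [Nat.cast_sum]
  · rw [Finset.prod_congr rfl fun y _ => (key y).2, ← Units.coe_prod, Finset.prod_mul_distrib,
      prod_zpow_sum, prod_zpow_sum (Finset.Ico 1 L) (fun n => u (n * p))
        fun y n => ((-(wH y n)).toNat : ℤ)]
    congr 2
    · refine Finset.prod_congr rfl fun n hn => ?_
      rw [hsH n (Finset.mem_Ico.1 hn).1 (Finset.mem_Ico.1 hn).2]
    · refine Finset.prod_congr rfl fun n _ => ?_
      rw [Nat.cast_sum]

end Pool.Agent.FTO
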