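import Pool.Agent.FTO.TFin
import Pool.Agent.FTO.Hosts

/-!
# FTO, A2: the numbers of the target
-/

set_option autoImplicit false
set_option linter.unusedSectionVars false

open scoped BigOperators
open Matrix Polynomial

namespace Pool.Agent.FTO

open Pool.Agent.SSE

attribute [local instance] Classical.propDecidable

variable {K KN KB KH L : Type} [AddCommGroup K] [Module ℤ[X] K] [AddCommGroup KN]
  [Module ℤ[X] KN] [AddCommGroup KB] [Module ℤ[X] KB] [AddCommGroup KH] [Module ℤ[X] KH]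
  [AddCommGroup L] [Module ℤ[X] L]

/-- the numbers of the target -/
structure Pack (x0 r ρ : ℝ) (δN δB δH : PowerSeries ℤ) where
  Y : Type
  fY : Fintype Y
  d : Y → ℕ
  X : Y → PSys
  nN : Y → PowerSeries ℤ
  nH : Y → PowerSeries ℤ
  hd : ∀ y, 0 < d y
  hH : ∀ y, nH y * pdet (X y).pC (PowerSeries.X ^ d y) = pdet (X y).pB (PowerSeries.X ^ d y)
  hN : ∀ y, nN y * ((1 - PowerSeries.X ^ d y) * nH y) = pdet (X y).pI (PowerSeries.X ^ d y)
  T : Type
  fT : Fintype T
  lT : T → PowerSeries ℤ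
  loopT : ∀ t, LoopT ρ (lT t)
  kN : PowerSeries ℤ
  kH : PowerSeries ℤ
  HQ : PowerSeries ℤ
  loopN : LoopT ρ (absS kN)
  loopH : LoopT ρ (absS kH)
  hub : HubT x0 r ρ HQ
  eqN : δN = (1 - kN) * ∏ y, nN y
  eqH : δH = (1 - kH) * ∏ y, nH y
  eqB : δB = (∏ y, (1 - PowerSeries.X ^ d y)) * (∏ t, (1 - lT t)) *
    ((1 - absS kN) * (1 - absS kH)) * (1 - HQ)

end Pool.Agent.FTO
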