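import Pool.Agent.FTO.Num2
import Pool.Agent.FTO.Levels
import Pool.Agent.FTO.TPack

/-!
# FTO: assembly of the numbers
-/

set_option autoImplicit false

open scoped BigOperators
open PowerSeries

namespace Pool.Agent.FTO

open Pool.Agent.SSE Pool.Agent.SSE.HN Pool.Agent.SSE.PF

/-- the low loops -/
abbrev LowY (m : ℕ → ℕ) (L : ℕ) : Type := Σ p : {p // p ∈ Finset.Ico 1 L}, Fin (m p.1)

theorem prod_LowY (m : ℕ → ℕ) (L : ℕ) (f : ℕ → ℤ⟦X⟧) :
    ∏ y : LowY m L, f y.1.1 = ∏ p ∈ Finset.Ico 1 L, f p ^ m p := by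
  rw [Fintype.prod_sigma]
  have h : ∀ p : {p // p ∈ Finset.Ico 1 L}, ∏ _y : Fin (m p.1), f p.1 = f p.1 ^ m p.1 := by
    intro p
    rw [Finset.prod_const, Finset.card_univ, Fintype.card_fin]
  rw [Finset.prod_congr rfl fun p _ => h p]
  exact Finset.prod_coe_sort (Finset.Ico 1 L) fun p => f p ^ m p

theorem sum_LowY (m : ℕ → ℕ) (L : ℕ) {n : ℕ} (h0 : 0 < n) (h1 : n < L) :
    ∑ y : LowY m L, (if y.1.1 = n then (1 : ℤ) else 0) = m n := by
  rw [Fintype.sum_sigma]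
  have h : ∀ p : {p // p ∈ Finset.Ico 1 L}, ∑ _y : Fin (m p.1), (if p.1 = n then (1 : ℤ) else 0) =
      if p.1 = n then (m p.1 : ℤ) else 0 := by
    intro p
    rw [Finset.sum_const, Finset.card_univ, Fintype.card_fin]
    split_ifs <;> simp
  rw [Finset.sum_congr rfl fun p _ => h p,
    Finset.sum_coe_sort (Finset.Ico 1 L) fun p => if p = n then (m p : ℤ) else 0,
    Finset.sum_ite_eq' (Finset.Ico 1 L), if_pos (Finset.mem_Ico.2 ⟨h0, h1⟩)]

/-- smallness of a level, in the form used here -/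
def SmallLevel (μ : ℝ) (f : ℤ⟦X⟧) : Prop := ∃ n1 : ℕ, ∀ L, n1 ≤ L → ∀ e : ℕ → ℕ, ∃ p0 : ℕ,
  ∀ p, p0 ≤ p → 0 < p → ∃ k : ℤ⟦X⟧, SmallS L μ k ∧
    f = (1 - k) * ((∏ n ∈ Finset.Ico 1 L, uX n ^ ex f n) *
      ∏ n ∈ Finset.Ico 1 L, uX (n * p) ^ (e n : ℤ) : (PowerSeries ℤ)ˣ)

lemma cg_one_sub {L : ℕ} (hL : 1 ≤ L) {l : ℤ⟦X⟧} (h : ∀ d < L, coeff d l = 0) :
    Cg (L - 1) (1 - l) 1 := by
  intro d hd
  rw [map_sub, h d (by omega), sub_zero]

lemma cg_list {L : ℕ} (hL : 1 ≤ L) (ls : List ℤ⟦X⟧) (h : ∀ l ∈ ls, ∀ d < L, coeff d l = 0) :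
    Cg (L - 1) (ls.map fun l => 1 - l).prod 1 := by
  induction ls with
  | nil => exact Cg.refl _
  | cons a ls ih =>
    rw [List.map_cons, List.prod_cons]
    have h1 := (cg_one_sub hL (h a List.mem_cons_self)).mul
      (ih fun l hl => h l (List.mem_cons_of_mem a hl))
    rwa [mul_one] at h1

/-- **assembly of the numbers** -/
theorem exists_pack_of {x0 ρ0 θ : ℝ} {b : ℕ} (hx0 : 0 < x0) (hxρ : x0 < ρ0) (hρ : ρ0 < 1)
    (hθ : θ < 1) {H : ℤ⟦X⟧} (hH : Nn H) (hH0 : coeff 0 H = 0) (hHN : HasN ρ0 (toRS H))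
    (hH1 : val x0 H = 1) (hHb : ∀ d, b ≤ d → 1 ≤ coeff d H) {cs : List ℤ⟦X⟧}
    (hcs : ∀ c ∈ cs, OwnC ρ0 θ c) {μ : ℝ} (hμ0 : 0 < μ) (hμ : μ * x0 < 1)
    {fN fB fH : ℤ⟦X⟧} (hfN : coeff 0 fN = 1) (hfB : coeff 0 fB = 1) (hfH : coeff 0 fH = 1)
    (hB : fB = (1 - H) * (cs.map fun c => 1 - c).prod)
    (hpos : ∀ n, 0 < n → 0 ≤ ex fN n + ex fB n + ex fH n)
    (hT : ∀ n, 0 < n → Tw fB n = 0 → Tw fN n = 0 ∧ Tw fH n = 0)
    (hsN : SmallLevel μ fN) (hsH : SmallLevel μ fH) :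
    ∃ r ρ : ℝ, x0 < r ∧ r < ρ ∧ ρ < ρ0 ∧ Nonempty (Pack x0 r ρ fN fB fH) := by
  obtain ⟨m, r, ρ, c, n1, hr1, hr2, hr3, hr4, hc, hn1, hnum⟩ :=
    exists_num hx0 hxρ hρ hθ hH hH0 hHN hH1 hHb hcs hμ0 hμ
  obtain ⟨nN, hnN⟩ := hsN
  obtain ⟨nH, hnH⟩ := hsH
  set L : ℕ := n1 + nN + nH with hLdef
  have hL1 : n1 ≤ L := by omega
  -- the exponents of `fB`
  have hz : SmallS L μ (0 : ℤ⟦X⟧) := by
    refine ⟨fun d _ => map_zero _, fun d => ?_⟩
    rw [map_zero, Int.cast_zero, abs_zero]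
    exact pow_nonneg hμ0.le d
  have habs0 : absS (0 : ℤ⟦X⟧) = 0 := by
    ext n
    rw [coeff_absS, map_zero, abs_zero]
  have hexB : ∀ n, 1 ≤ n → n < L → ex fB n = m n := by
    obtain ⟨ls, HQ, h1, -, -, -, h5, h6, -, -, -, -, h11⟩ := hnum L hL1 0 0 hz hz
    refine ex_eq_of_prod (U := (1 - HQ) * ((1 - absS 0) * (1 - absS 0)) *
      (ls.map fun l => 1 - l).prod) (m := m) (L := L) ?_ ?_ (by omega)
    · rw [hB, ← h11]
      rfl
    · have k1 : Cg (L - 1) ((1 - HQ) * ((1 - absS 0) * (1 - absS 0)) *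
          (ls.map fun l => 1 - l).prod) 1 := by
        have k2 := ((cg_one_sub (l := HQ) (by omega) h6).mul
          ((cg_one_sub (l := absS (0 : ℤ⟦X⟧)) (by omega) fun d _ => by rw [habs0, map_zero]).mul
            (cg_one_sub (l := absS (0 : ℤ⟦X⟧)) (by omega)
              fun d _ => by rw [habs0, map_zero]))).mul
          (cg_list (by omega) ls fun l hl => (h1 l hl).low)
        rwa [mul_one, mul_one, mul_one] at k2
      intro d hd
      rw [k1 d (by omega), coeff_one]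
  -- hosts
  have hd : ∀ y : LowY m L, 0 < y.1.1 := fun y => (Finset.mem_Ico.1 y.1.2).1
  have hdL : ∀ y : LowY m L, y.1.1 < L := fun y => (Finset.mem_Ico.1 y.1.2).2
  have hTw : ∀ n, 0 < n → n < L → (∀ y : LowY m L, ¬ y.1.1 ∣ n) →
      ex fN n = 0 ∧ ex fH n = 0 := by
    intro n h0 h1 h2
    have hm0 : ∀ p, 0 < p → p ∣ n → ex fB p = 0 := by
      intro p hp hpn
      have hpL : p < L := lt_of_le_of_lt (Nat.le_of_dvd h0 hpn) h1
      rw [hexB p hp hpL]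
      by_contra hne
      have hpos' : 0 < m p := by
        rcases Nat.eq_zero_or_pos (m p) with h | h
        · exact absurd (by rw [h]; rfl) hne
        · exact h
      exact h2 ⟨⟨p, Finset.mem_Ico.2 ⟨hp, hpL⟩⟩, ⟨0, hpos'⟩⟩ hpn
    have hTB : ∀ k, k ∣ n → Tw fB k = 0 := by
      intro k hk
      have hk0 := Nat.pos_of_dvd_of_pos hk h0
      rw [Tw_eq hfB hk0]
      refine Finset.sum_eq_zero fun p hp => ?_
      rw [hm0 p (Nat.pos_of_mem_divisors hp) ((Nat.dvd_of_mem_divisors hp).trans hk), mul_zero]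
    exact ⟨ex_eq_zero hfN h0 fun k hk => (hT k (Nat.pos_of_dvd_of_pos hk h0) (hTB k hk)).1,
      ex_eq_zero hfH h0 fun k hk => (hT k (Nat.pos_of_dvd_of_pos hk h0) (hTB k hk)).2⟩
  obtain ⟨eN, eH, hhost⟩ := exists_hosts_levels (fun y : LowY m L => y.1.1) hd L hdL (ex fN)
    (ex fH) (fun n h0 h1 => by
      rw [sum_LowY m L h0 h1, ← hexB n h0 h1]
      exact hpos n h0) hTw
  obtain ⟨pN, hpN⟩ := hnN L (by omega) eN
  obtain ⟨pH, hpH⟩ := hnH L (by omega) eH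
  obtain ⟨kN, hkN1, hkN2⟩ := hpN (pN + pH + 1) (by omega) (by omega)
  obtain ⟨kH, hkH1, hkH2⟩ := hpH (pN + pH + 1) (by omega) (by omega)
  obtain ⟨X, dN, dH, g1, g2, g3, g4⟩ := hhost (pN + pH + 1) (by omega)
  obtain ⟨ls, HQ, h1, -, h3, h4, h5, h6, h7, h8, h9, h10, h11⟩ := hnum L hL1 kN kH hkN1 hkH1
  have loop : ∀ {l : ℤ⟦X⟧}, LoopS L r ρ l → LoopT ρ l := fun {l} h =>
    ⟨h.nn, h.low 0 (by omega), h.fin, h.le⟩
  refine ⟨r, ρ, hr1, hr2, hr3, ⟨?_⟩⟩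
  exact
  { Y := LowY m L
    fY := inferInstance
    d := fun y => y.1.1
    X := X
    nN := dN
    nH := dH
    hd := hd
    hH := g1
    hN := g2
    T := Fin ls.length
    fT := inferInstance
    lT := fun t => ls.get t
    loopT := fun t => loop (h1 _ (List.get_mem ls t))
    kN := kN
    kH := kH
    HQ := HQ
    loopN := loop h3
    loopH := loop h4
    hub :=
    { nn := h5
      c0 := h6 0 (by omega)
      fn := h7
      gt := h8
      one := h9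
      growth := ⟨c, L, hc, fun d hd' => by
        have hρ0 : 0 < ρ := hx0.trans (hr1.trans hr2)
        have := h10 d hd'
        rwa [← div_eq_mul_inv, div_le_iff₀ (pow_pos hρ0 d)] at this⟩ }
    eqN := by rw [hkN2, ← g3]
    eqH := by rw [hkH2, ← g4]
    eqB := by
      have e1 : ∏ y : LowY m L, (1 - (PowerSeries.X : ℤ⟦X⟧) ^ y.1.1) =
          ∏ p ∈ Finset.Ico 1 L, (1 - PowerSeries.X ^ p) ^ m p :=
        prod_LowY m L fun p => 1 - PowerSeries.X ^ p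
      have e2 : ∏ t : Fin ls.length, (1 - ls.get t) = (ls.map fun l => 1 - l).prod := by
        rw [← List.prod_ofFn]
        congr 1
        exact List.ofFn_getElem_eq_map ls fun l => 1 - l
      rw [e1, e2, hB, ← h11]
      ring }

end Pool.Agent.FTO
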