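import Pool.Agent.FTO.A0
import Pool.Agent.FTO.Pack
import Pool.Agent.FTO.Num5

/-!
# FTO: the numbers for a pair of primitive matrices (helper23)
-/

set_option autoImplicit false
set_option linter.unusedSectionVars false
set_option maxHeartbeats 400000

open scoped BigOperators
open Matrix Polynomial

namespace Pool.Agent.FTO

open Pool.Agent.SSE Pool.Agent.SSE.HN Pool.Agent.SSE.PF

attribute [local instance] Classical.propDecidable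

theorem smallLevel_of {f : ℤ[X]} (h0 : f.coeff 0 = 1) {s μ : ℝ} (hs1 : s < 1) (hμ : 0 < μ)
    (hμs : 1 < μ * s) (hz : ∀ z : ℂ, ‖z‖ ≤ s → Polynomial.aeval z f ≠ 0) :
    SmallLevel μ (ps f) := by
  obtain ⟨n1, hn⟩ := small_of_ex h0 hs1 hμ hμs hz
  refine ⟨n1, fun L hL e => ?_⟩
  obtain ⟨p0, hp0⟩ := hn L hL (∑ n ∈ Finset.Ico 1 L, e n)
  refine ⟨p0, fun p hp hp1 => ?_⟩
  obtain ⟨h, h1, h2⟩ := small_units (f := f) (p := p) (e := e) hp1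
    (fun E hE hE' => hp0 E (fun l hl => le_trans hp (hE l hl)) hE') le_rfl
  refine ⟨h, h1, ?_⟩
  exact h2 uX fun n hn => uX_val n hn

theorem exists_tiny {K : Type} [AddCommGroup K] [Module ℤ[X] K] {δ : ℤ[X]} (D : PFM K δ) {n : ℕ}
    (hn : 0 < n) {g : Fin n → K} (hg : ∀ i, 0 < D.tau (g i)) :
    ∃ ξ : K, 0 < D.tau ξ ∧ ∀ i, D.tau ξ < D.lam⁻¹ ^ (n + 2) * D.tau (g i) := by
  have hlam : 0 < D.lam := lt_trans one_pos D.one_lt
  have hx0 : 0 < D.lam⁻¹ := inv_pos.2 hlam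
  have hx1 : D.lam⁻¹ < 1 := inv_lt_one_of_one_lt₀ D.one_lt
  have hne : (Finset.univ : Finset (Fin n)).Nonempty := ⟨⟨0, hn⟩, Finset.mem_univ _⟩
  obtain ⟨i0, -, hi0⟩ := Finset.exists_min_image Finset.univ
    (fun i => D.lam⁻¹ ^ (n + 2) * D.tau (g i)) hne
  have hpos : 0 < D.lam⁻¹ ^ (n + 2) * D.tau (g i0) := mul_pos (pow_pos hx0 _) (hg i0)
  have htq : ∀ (m : ℕ) (z : K), D.tau ((X : ℤ[X]) ^ m • z) = D.lam⁻¹ ^ m * D.tau z := by
    intro m z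
    induction m with
    | zero => simp
    | succ m ih => rw [pow_succ', mul_smul, D.tau_X, ih, pow_succ']; ring
  obtain ⟨m, hm⟩ := exists_pow_lt_of_lt_one (div_pos hpos (hg i0)) hx1
  refine ⟨(X : ℤ[X]) ^ m • g i0, ?_, fun i => ?_⟩
  · rw [htq]
    exact mul_pos (pow_pos hx0 _) (hg i0)
  · rw [htq]
    rw [lt_div_iff₀ (hg i0)] at hm
    exact lt_of_lt_of_le hm (hi0 i (Finset.mem_univ i))

theorem Tw_relM {n : ℕ} (M : Matrix (Fin n) (Fin n) ℤ) {k : ℕ} (hk : 0 < k) :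
    Tw (ps (relM M).det) k = (M ^ k).trace := by
  have h := Tw_cdet M hk
  have e : (relM M).det = cdet M := by
    unfold cdet relM
    congr <;> exact Subsingleton.elim _ _
  rw [e]
  exact h

theorem Tw_relOf {K : Type} [AddCommGroup K] [Module ℤ[X] K] {n : ℕ}
    {M : Matrix (Fin n) (Fin n) ℤ} {δ : ℤ[X]} {g : Fin n → K} (h : RelOf δ g (relM M)) {k : ℕ}
    (hk : 0 < k) : Tw (ps δ) k = (M ^ k).trace := by
  have h1 := h.det
  have h2 := Tw_relM M hk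
  have e : (relM M).det = δ := by
    rw [← h1]
    congr <;> exact Subsingleton.elim _ _
  rw [e] at h2
  exact h2

theorem zM_pow_trace {n : ℕ} (B : Matrix (Fin n) (Fin n) ℕ) (k : ℕ) :
    ((zM B) ^ k).trace = (((B ^ k).trace : ℕ) : ℤ) := by
  have h : (zM B) ^ k = (B ^ k).map (Nat.castRingHom ℤ) := by
    have := (Nat.castRingHom ℤ).mapMatrix.map_pow B k
    rw [RingHom.mapMatrix_apply, RingHom.mapMatrix_apply] at this
    rw [this]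
    rfl
  rw [h, Matrix.trace, Matrix.trace]
  simp

theorem Tw_pres {K : Type} [AddCommGroup K] [Module ℤ[X] K] {n : ℕ}
    {B : Matrix (Fin n) (Fin n) ℕ} {δ : ℤ[X]} {g : Fin n → K} (h : PresOf δ g (ofMat B)) {k : ℕ}
    (hk : 0 < k) : Tw (ps δ) k = (((B ^ k).trace : ℕ) : ℤ) := by
  rw [← zM_pow_trace]
  refine Tw_relOf (g := g) ?_ hk
  rw [relM_zM]
  exact h.relOf

theorem exists_pack {K KN KB KH : Type} [AddCommGroup K] [Module ℤ[X] K] [AddCommGroup KN]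
    [Module ℤ[X] KN] [AddCommGroup KB] [Module ℤ[X] KB] [AddCommGroup KH] [Module ℤ[X] KH]
    {a b : ℕ} (ha : 0 < a) (hb : 0 < b) {A : Matrix (Fin a) (Fin a) ℕ}
    {B : Matrix (Fin b) (Fin b) ℕ} {p q : ℕ} (hp : 0 < p) (hpA : ∀ i j, 2 ≤ (A ^ p) i j)
    (hq : 0 < q) (hqB : ∀ i j, 2 ≤ (B ^ q) i j) {δN δB δH : ℤ[X]}
    (D : PFM K (δN * (δB * δH))) (DB : PFM KB δB) (hlam : DB.lam = D.lam)
    (hrad : DB.rad = D.rad) (h1 : δN.coeff 0 = 1) (h2 : δB.coeff 0 = 1) (h3 : δH.coeff 0 = 1)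
    {eA : Fin a → K} (hA : PresOf (δN * (δB * δH)) eA (ofMat A)) (heA : ∀ i, 0 < D.tau (eA i))
    {eB : Fin b → KB} (hB : PresOf δB eB (ofMat B)) (heB : ∀ i, 0 < DB.tau (eB i))
    {nN : ℕ} {AN : Matrix (Fin nN) (Fin nN) ℤ} {gN : Fin nN → KN} (hRN : RelOf δN gN (relM AN))
    {nH : ℕ} {AH : Matrix (Fin nH) (Fin nH) ℤ} {gH : Fin nH → KH} (hRH : RelOf δH gH (relM AH))
    (hzN : ∀ z : ℂ, ‖z‖ ≤ D.rad → aeval z δN ≠ 0) (hzH : ∀ z : ℂ, ‖z‖ ≤ D.rad → aeval z δH ≠ 0)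
    (htN : ∀ k, 0 < k → (B ^ k).trace = 0 → (AN ^ k).trace = 0)
    (htA : ∀ k, 0 < k → (((A ^ k).trace : ℕ) : ℤ) =
      (AN ^ k).trace + (((B ^ k).trace : ℕ) : ℤ) + (AH ^ k).trace)
    (hper : ∀ k, 0 < k → (B ^ k).trace = 0 → (A ^ k).trace = 0) :
    ∃ r ρ : ℝ, 1 < D.lam * r ∧ r ≤ D.rad ∧ r < ρ ∧ ρ < 1 ∧
      Nonempty (Pack D.lam⁻¹ r ρ (ps δN) (ps δB) (ps δH)) := by
  have hlam0 : 0 < D.lam := lt_trans one_pos D.one_lt
  set x0 := D.lam⁻¹ with hx0def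
  have hx0 : 0 < x0 := inv_pos.2 hlam0
  obtain ⟨ξA, hξA, hξA'⟩ := exists_tiny D ha heA
  obtain ⟨SA, -⟩ := exists_S1D D ha hp hpA hA heA hξA hξA'
  obtain ⟨ξB, hξB, hξB'⟩ := exists_tiny DB hb heB
  obtain ⟨SB, -⟩ := exists_S1D DB hb hq hqB hB heB hξB hξB'
  have FA := hubFac_of_S1D SA
  have FB := hubFac_of_S1D SB
  rw [hlam] at FB
  have hρB : 1 < D.lam * SB.ρ := hlam ▸ SB.ρ_gt
  have hx0rad : x0 < D.rad := by
    rw [hx0def, inv_lt_iff_one_lt_mul₀ hlam0]; linarith [D.rad_gt]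
  have hx0ρ : x0 < SB.ρ := by rw [hx0def, inv_lt_iff_one_lt_mul₀ hlam0]; linarith
  set ρ0 := min SB.ρ D.rad with hρ0
  have hxρ0 : x0 < ρ0 := lt_min hx0ρ hx0rad
  have hρ01 : ρ0 < 1 := (min_le_right _ _).trans_lt D.rad_lt
  obtain ⟨θ, H, cs, b', hθ, hH, hH0, hHN, hH1, hHb, hcs, hprod⟩ :=
    FB.mono (hx0.trans hxρ0).le (min_le_left SB.ρ D.rad)
  obtain ⟨ν, hν1, hν2⟩ := exists_between hx0rad
  have hν : 0 < ν := hx0.trans hν1
  set μ := ν⁻¹ with hμdef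
  have hμ0 : 0 < μ := inv_pos.2 hν
  have hμx : μ * x0 < 1 := by
    rw [hμdef, inv_mul_lt_iff₀ hν]; linarith
  have hμr : 1 < μ * D.rad := by
    rw [hμdef, ← div_eq_inv_mul, one_lt_div hν]; exact hν2
  have hz0 : ∀ {q : ℤ[X]}, q.coeff 0 = 1 → PowerSeries.coeff 0 (ps q) = 1 := by
    intro q hq
    have : ps q = (q : PowerSeries ℤ) := rfl
    rw [this, Polynomial.coeff_coe, hq]
  have hps : ps (δN * (δB * δH)) = ps δN * (ps δB * ps δH) := by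
    have : ∀ p q : ℤ[X], ps (p * q) = ps p * ps q := fun p q => Polynomial.coe_mul p q
    rw [this, this]
  have hpos : ∀ n, 0 < n → 0 ≤ ex (ps δN) n + ex (ps δB) n + ex (ps δH) n := by
    intro n hn
    have h4 := FA.ex_nonneg n
    rw [hps, ex_mul (hz0 h1) (coeff_zero_mul' (hz0 h2) (hz0 h3)) hn,
      ex_mul (hz0 h2) (hz0 h3) hn] at h4
    linarith
  -- traces
  have hTB : ∀ k, 0 < k → Tw (ps δB) k = (((B ^ k).trace : ℕ) : ℤ) := fun k hk => Tw_pres hB hk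
  have hTN : ∀ k, 0 < k → Tw (ps δN) k = (AN ^ k).trace := fun k hk => Tw_relOf hRN hk
  have hTH : ∀ k, 0 < k → Tw (ps δH) k = (AH ^ k).trace := fun k hk => Tw_relOf hRH hk
  have hT : ∀ n, 0 < n → Tw (ps δB) n = 0 → Tw (ps δN) n = 0 ∧ Tw (ps δH) n = 0 := by
    intro n hn h
    rw [hTB n hn] at h
    have hB0 : (B ^ n).trace = 0 := by exact_mod_cast h
    have hA0 := hper n hn hB0
    have hN0 := htN n hn hB0
    have h5 := htA n hn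
    rw [hB0, hA0, hN0] at h5
    rw [hTN n hn, hTH n hn]
    refine ⟨hN0, ?_⟩
    push_cast at h5
    linarith
  obtain ⟨r, ρ, hr1, hr2, hr3, hP⟩ := exists_pack_of (x0 := x0) (ρ0 := ρ0) (θ := θ) (b := b')
    hx0 hxρ0 hρ01 hθ hH hH0 hHN hH1 hHb hcs hμ0 hμx (hz0 h1) (hz0 h2) (hz0 h3) hprod.symm hpos hT
    (smallLevel_of h1 D.rad_lt hμ0 hμr hzN) (smallLevel_of h3 D.rad_lt hμ0 hμr hzH)
  refine ⟨r, ρ, ?_, (hr2.trans hr3).le.trans (min_le_right _ _), hr2, hr3.trans hρ01, hP⟩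
  rw [hx0def, inv_lt_iff_one_lt_mul₀ hlam0] at hr1
  linarith

end Pool.Agent.FTO
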