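import Pool.Agent.FTO.Core
import Pool.Agent.FTO.Per
import Pool.Agent.FTO.XPack
import Pool.Agent.FTO.PackA
import Pool.Agent.FT.Main
import Pool.Agent.FT.CondT

/-!
# FTO: the theorem
-/

set_option autoImplicit false

open scoped BigOperators
open Matrix Polynomial

namespace Pool.Agent.FTO

open Pool.Agent.SSE

/-- **sufficiency** -/
theorem fto {a b : ℕ} (A : Matrix (Fin a) (Fin a) ℕ) (B : Matrix (Fin b) (Fin b) ℕ)
    (hA : FT.IsPrimitive A) (hB : FT.IsPrimitive B)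
    (hent : ∃ h, FT.HasEntropy (FT.edgeShift A) h ∧ FT.HasEntropy (FT.edgeShift B) h)
    (hD : FT.TraceDimCondition A B)
    (hP : FT.PeriodCondition (FT.edgeShift A) (FT.edgeShift B)) :
    ∃ φ : FT.edgeShift A → FT.edgeShift B, FT.IsFactorCode φ := by
  obtain ⟨lam, r, s, hlam, hr, hs, hAr, hBs⟩ := common_perron hA hB hent
  rcases prim_cases hA hlam hr hAr with ⟨h1, p, hp, hpA⟩ | ⟨h1, hA1, hA2⟩
  · rcases prim_cases hB hlam hs hBs with ⟨-, q, hq, hqB⟩ | ⟨h1', -⟩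
    · have ha := hA.1
      have hb := hB.1
      have hAr' : ∀ i, ∑ j, (A i j : ℝ) * r j = lam * r i := fun i => congrFun hAr i
      have hBs' : ∀ i, ∑ j, (B i j : ℝ) * s j = lam * s i := fun i => congrFun hBs i
      obtain ⟨K, KN, KB, KH, L, i1, i2, i3, i4, i5, i6, i7, i8, i9, i10, δN, δB, δH, F, D, DB, eA,
        eB, nN, AN, gN, nH, AH, gH, hN0, hB0, hH0, hDl, hDBl, hDBr, hpresA, htA, hpresB, htB,
        htauN, hcomp, hRN, hRH, hzN, hzH, htrN, htrA⟩ :=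
        exists_fil ha hb A B hp hpA hq (fun i j => lt_of_lt_of_le (by norm_num) (hqB i j)) hr hAr'
          hs hBs' hD
      obtain ⟨r', ρ, hr1, hr2, hr3, hr4, ⟨Q⟩⟩ := exists_pack ha hb hp hpA hq hqB D DB hDBl hDBr hN0
        hB0 hH0 hpresA htA hpresB htB hRN hRH hzN hzH htrN htrA (period_trace hP)
      have : Nonempty (Fin b) := ⟨⟨0, hb⟩⟩
      obtain ⟨I, J, fI, fJ, S, c, cB, PS, QS, x, hT⟩ := tgt_of_pack F D DB hDBl hcomp htauN hr1 hr2
        hr3 hr4 Q hpresB.relOf htB hRN hRH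
      exact fc_of_tgt F D DB hN0 hB0 hH0 hcomp ha hb hp hpA hq hqB hpresA htA hpresB htB S c cB r'
        PS QS x hT
    · exact absurd h1' h1.ne'
  · rcases prim_cases hB hlam hs hBs with ⟨h1', -⟩ | ⟨-, hB1, hB2⟩
    · exact absurd h1 h1'.ne'
    · exact fc_point hA1 hA2 hB1 hB2

/-- **the criterion** -/
theorem fto_iff {a b : ℕ} (A : Matrix (Fin a) (Fin a) ℕ) (B : Matrix (Fin b) (Fin b) ℕ)
    (hA : FT.IsPrimitive A) (hB : FT.IsPrimitive B)
    (hent : ∃ h, FT.HasEntropy (FT.edgeShift A) h ∧ FT.HasEntropy (FT.edgeShift B) h) :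
    (∃ φ : FT.edgeShift A → FT.edgeShift B, FT.IsFactorCode φ) ↔
      FT.DimTraceCondition A B ∧ FT.PeriodCondition (FT.edgeShift A) (FT.edgeShift B) := by
  constructor
  · intro h
    exact ⟨(FT.dimTrace_iff A B).2 (FT.trace_condition A B hA hB hent h), period_of_fc h⟩
  · rintro ⟨h1, h2⟩
    exact fto A B hA hB hent ((FT.dimTrace_iff A B).1 h1) h2

end Pool.Agent.FTO
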