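import Pool.Agent.FTO.A0c

/-!
# FTO, A0e: traces of powers and the determinant `det (1 - X A)`
-/

set_option autoImplicit false

open scoped BigOperators
open Matrix Polynomial

namespace Pool.Agent.FTO

open Pool.Agent.SSE Pool.Agent.FT

section Trace

variable {K : Type} [Field K] [IsAlgClosed K] {V : Type} [Fintype V] [DecidableEq V]

private theorem tp_det_sub (M : Matrix V V K) (μ : K) :
    (aeval M (X - C μ)).det = (M.charpoly.roots.map fun l => (X - C μ : K[X]).eval l).prod := by
  have hs : M.charpoly.Splits := IsAlgClosed.splits _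
  have hcard : Multiset.card M.charpoly.roots = Fintype.card V := by
    rw [← hs.natDegree_eq_card_roots, Matrix.charpoly_natDegree_eq_dim]
  have h1 : M.charpoly.eval μ = (M.charpoly.roots.map fun l => μ - l).prod := by
    rw [hs.eval_eq_prod_roots, (Matrix.charpoly_monic M).leadingCoeff, one_mul]
  rw [Matrix.eval_charpoly] at h1
  have h2 : aeval M (X - C μ) = -(Matrix.scalar V μ - M) := by
    rw [map_sub, aeval_X, aeval_C, neg_sub]
    rfl
  rw [h2, Matrix.det_neg, h1, ← hcard, ← Multiset.card_map (fun l => μ - l),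
    ← Multiset.prod_map_neg, Multiset.map_map]
  congr 1
  apply Multiset.map_congr rfl
  intro l _
  simp

private theorem tp_det_aeval (M : Matrix V V K) (p : K[X]) :
    (aeval M p).det = (M.charpoly.roots.map fun l => p.eval l).prod := by
  have hs : M.charpoly.Splits := IsAlgClosed.splits _
  have hcard : Multiset.card M.charpoly.roots = Fintype.card V := by
    rw [← hs.natDegree_eq_card_roots, Matrix.charpoly_natDegree_eq_dim]
  have key : ∀ s : Multiset K,
      (aeval M ((s.map fun μ => (X - C μ : K[X])).prod)).det =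
        (M.charpoly.roots.map fun l => ((s.map fun μ => (X - C μ : K[X])).prod).eval l).prod := by
    intro s
    induction s using Multiset.induction with
    | empty => simp
    | cons a s ih =>
      rw [Multiset.map_cons, Multiset.prod_cons, map_mul, Matrix.det_mul, ih, tp_det_sub,
        ← Multiset.prod_map_mul]
      congr 1
      apply Multiset.map_congr rfl
      intro l _
      rw [eval_mul]
  rw [(IsAlgClosed.splits p).eq_prod_roots, map_mul, Matrix.det_mul, key, aeval_C]
  have h3 : (algebraMap K (Matrix V V K) p.leadingCoeff).det =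
      (M.charpoly.roots.map fun _ => p.leadingCoeff).prod := by
    rw [Multiset.map_const', Multiset.prod_replicate, hcard, Matrix.algebraMap_eq_diagonal,
      Matrix.det_diagonal]
    simp
  rw [h3, ← Multiset.prod_map_mul]
  congr 1
  apply Multiset.map_congr rfl
  intro l _
  rw [eval_mul, eval_C]

/-- `tr M^k = ∑ λ^k`. -/
theorem trace_pow_roots (M : Matrix V V K) (k : ℕ) :
    (M ^ k).trace = (M.charpoly.roots.map fun l => l ^ k).sum := by
  have hch : (M ^ k).charpoly =
      ((M.charpoly.roots.map fun l => l ^ k).map fun l => (X - C l : K[X])).prod := by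
    apply Polynomial.funext
    intro x
    have h1 := tp_det_aeval M (C x - X ^ k)
    rw [Matrix.eval_charpoly]
    have h2 : aeval M (C x - X ^ k : K[X]) = Matrix.scalar V x - M ^ k := by
      rw [map_sub, map_pow, aeval_X, aeval_C]
      rfl
    rw [← h2, h1, eval_multiset_prod, Multiset.map_map, Multiset.map_map]
    congr 1
    apply Multiset.map_congr rfl
    intro l _
    simp
  rw [Matrix.trace_eq_sum_roots_charpoly, hch, roots_multiset_prod_X_sub_C]

end Trace

section Rev

variable {R : Type} [CommRing R] {V V' : Type} [Fintype V] [DecidableEq V] [Fintype V']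
  [DecidableEq V']

theorem charpolyRev_fromBlocks (M : Matrix V V R) (N : Matrix V' V' R) :
    (fromBlocks M 0 0 N).charpolyRev = M.charpolyRev * N.charpolyRev := by
  have h1 : (1 : Matrix (V ⊕ V') (V ⊕ V') R[X]) - (X : R[X]) • (fromBlocks M 0 0 N).map C =
      fromBlocks (1 - (X : R[X]) • M.map C) 0 0 (1 - (X : R[X]) • N.map C) := by
    ext a b : 2
    rcases a with a | a <;> rcases b with b | b <;>
      simp [Matrix.one_apply, Matrix.sub_apply]
  rw [Matrix.charpolyRev, h1, Matrix.det_fromBlocks_zero₂₁]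
  rfl

theorem fromBlocks_pow (M : Matrix V V R) (N : Matrix V' V' R) (k : ℕ) :
    (fromBlocks M 0 0 N) ^ k = fromBlocks (M ^ k) 0 0 (N ^ k) := by
  induction k with
  | zero => simp [Matrix.fromBlocks_one]
  | succ k ih => rw [pow_succ, ih, Matrix.fromBlocks_multiply]; simp [pow_succ]

theorem trace_fromBlocks_pow (M : Matrix V V R) (N : Matrix V' V' R) (k : ℕ) :
    ((fromBlocks M 0 0 N) ^ k).trace = (M ^ k).trace + (N ^ k).trace := by
  rw [fromBlocks_pow]
  simp [Matrix.trace, Fintype.sum_sum_type]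

/-- matrices with the same size and the same `det (1 - X M)` have the same characteristic
polynomial -/
theorem charpoly_of_rev (M : Matrix V V R) (N : Matrix V' V' R) [Nontrivial R]
    (hc : Fintype.card V = Fintype.card V') (h : M.charpolyRev = N.charpolyRev) :
    M.charpoly = N.charpoly := by
  have h1 : M.charpoly.reverse = N.charpoly.reverse := by
    rw [Matrix.reverse_charpoly, Matrix.reverse_charpoly, h]
  have h2 : M.charpoly.natDegree = N.charpoly.natDegree := by
    rw [Matrix.charpoly_natDegree_eq_dim, Matrix.charpoly_natDegree_eq_dim, hc]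
  unfold Polynomial.reverse at h1
  rw [h2] at h1
  have h3 := congrArg (Polynomial.reflect N.charpoly.natDegree) h1
  ext d
  have h4 := congrArg (fun p => Polynomial.coeff p d) h3
  simp only [Polynomial.coeff_reflect, Polynomial.revAt_invol] at h4
  exact h4

theorem trace_zero_pow {V : Type} [Fintype V] [DecidableEq V] {k : ℕ} (hk : 0 < k) :
    ((0 : Matrix V V R) ^ k).trace = 0 := by
  rw [zero_pow hk.ne', Matrix.trace_zero]

/-- `det (1 - X M)` determines the traces of the powers -/
theorem trace_of_charpolyRev {V V' : Type} [Fintype V] [DecidableEq V] [Fintype V']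
    [DecidableEq V'] (M : Matrix V V ℤ) (N : Matrix V' V' ℤ)
    (h : M.charpolyRev = N.charpolyRev) {k : ℕ} (hk : 0 < k) : (M ^ k).trace = (N ^ k).trace := by
  -- same size
  let M1 : Matrix (V ⊕ V') (V ⊕ V') ℤ := fromBlocks M 0 0 0
  let N1 : Matrix (V' ⊕ V) (V' ⊕ V) ℤ := fromBlocks N 0 0 0
  have h0 : ∀ (W : Type) [Fintype W] [DecidableEq W], (0 : Matrix W W ℤ).charpolyRev = 1 := by
    intro W _ _
    simp [Matrix.charpolyRev]
  have h1 : M1.charpolyRev = N1.charpolyRev := by
    rw [charpolyRev_fromBlocks, charpolyRev_fromBlocks, h0, h0, h]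
  have h2 := charpoly_of_rev M1 N1 (by
    rw [Fintype.card_sum, Fintype.card_sum, add_comm]) h1
  have h3 : (M1 ^ k).trace = (N1 ^ k).trace := by
    let i : ℤ →+* ℂ := Int.castRingHom ℂ
    have hi : Function.Injective i := Int.cast_injective
    apply hi
    have h4 : ∀ (W : Type) [Fintype W] [DecidableEq W] (P : Matrix W W ℤ),
        i (P ^ k).trace = ((P.map i) ^ k).trace := by
      intro W _ _ P
      have e1 : (P.map i) ^ k = (P ^ k).map i := by
        have := map_pow (i.mapMatrix (m := W)) P k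
        simpa [RingHom.mapMatrix_apply] using this.symm
      rw [e1]
      simp [Matrix.trace]
    rw [h4, h4, trace_pow_roots, trace_pow_roots]
    have h5 : (M1.map i).charpoly = (N1.map i).charpoly := by
      rw [Matrix.charpoly_map, Matrix.charpoly_map, h2]
    rw [h5]
  rw [trace_fromBlocks_pow, trace_fromBlocks_pow, trace_zero_pow hk, trace_zero_pow hk, add_zero,
    add_zero] at h3
  exact h3

end Rev

theorem rdet_eq {ι : Type} [Fintype ι] [DecidableEq ι] (A : Matrix ι ι ℤ) :
    rdet A = A.charpolyRev := by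
  unfold rdet relM Matrix.charpolyRev
  congr <;> exact Subsingleton.elim _ _

theorem rdet_coeff {ι : Type} [Fintype ι] (A : Matrix ι ι ℤ) : (rdet A).coeff 0 = 1 := by
  classical
  rw [rdet_eq, Polynomial.coeff_zero_eq_eval_zero, Matrix.eval_charpolyRev]

/-- additivity of traces -/
theorem trace_add_of_rdet {a m b q : ℕ} (A : Matrix (Fin a) (Fin a) ℤ) (N : Matrix (Fin m) (Fin m) ℤ)
    (B : Matrix (Fin b) (Fin b) ℤ) (H : Matrix (Fin q) (Fin q) ℤ)
    (h : rdet A = rdet N * (rdet B * rdet H)) {k : ℕ} (hk : 0 < k) :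
    (A ^ k).trace = (N ^ k).trace + (B ^ k).trace + (H ^ k).trace := by
  have h1 := trace_of_charpolyRev A (fromBlocks N 0 0 (fromBlocks B 0 0 H)) (by
    rw [charpolyRev_fromBlocks, charpolyRev_fromBlocks, ← rdet_eq, ← rdet_eq, ← rdet_eq,
      ← rdet_eq, h]) hk
  rw [h1, trace_fromBlocks_pow, trace_fromBlocks_pow, add_assoc]

/-- the matrix of `A` on a basis of the lattice of `U` has the traces of `A` on `U` -/
theorem trace_restr {n m : ℕ} {A : Matrix (Fin n) (Fin n) ℕ} {U : Submodule ℚ (Fin n → ℚ)}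
    (hU : ∀ w ∈ U, w ᵥ* toQ A ∈ U) (AN : Matrix (Fin m) (Fin m) ℤ) (bs : Fin m → Fin n → ℤ)
    (hli : LinearIndependent ℤ bs) (hb : ∀ i, bs i ∈ lat U)
    (hspan : ∀ z ∈ lat U, ∃ w : Fin m → ℤ, z = ∑ j, w j • bs j)
    (hA : ∀ i, bs i ᵥ* zM A = ∑ j, AN i j • bs j) (k : ℕ) :
    (((AN ^ k).trace : ℤ) : ℚ) = LinearMap.trace ℚ U ((restr A U hU) ^ k) := by
  classical
  let bq : Fin m → U := fun i => ⟨fun j => (bs i j : ℚ), hb i⟩
  have hsum : ∀ w : Fin m → ℤ, ((∑ j, (w j : ℚ) • bq j : U) : Fin n → ℚ) =
      fun k => ((∑ j, w j • bs j : Fin n → ℤ) k : ℚ) := by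
    intro w
    rw [Submodule.coe_sum]
    funext k
    rw [Finset.sum_apply, Finset.sum_apply]
    push_cast
    refine Finset.sum_congr rfl fun j _ => ?_
    rw [Pi.smul_apply, Pi.smul_apply, smul_eq_mul, smul_eq_mul]
    push_cast
    rfl
  have hcd : ∀ (r : ℕ) (v : Fin r → ℚ), ∃ (c : ℤ) (w : Fin r → ℤ), c ≠ 0 ∧
      ∀ j, (c : ℚ) * v j = (w j : ℚ) := by
    intro r v
    refine ⟨∏ j, ((v j).den : ℤ), fun j => (v j).num * ∏ i ∈ Finset.univ.erase j, ((v i).den : ℤ),
      ?_, fun j => ?_⟩
    · exact Finset.prod_ne_zero_iff.2 fun j _ => by exact_mod_cast (v j).den_nz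
    · rw [← Finset.mul_prod_erase Finset.univ (fun j => ((v j).den : ℤ)) (Finset.mem_univ j)]
      push_cast
      have h1 : ((v j).den : ℚ) * v j = (v j).num := by
        rw [mul_comm]; exact Rat.mul_den_eq_num (v j)
      rw [mul_right_comm, h1]
  have hliq : LinearIndependent ℚ bq := by
    rw [Fintype.linearIndependent_iff]
    intro v hv
    obtain ⟨c, w, hc, hw⟩ := hcd m v
    have h1 : ∑ j, (w j : ℚ) • bq j = 0 := by
      have h2 : ∀ j, (w j : ℚ) • bq j = (c : ℚ) • (v j • bq j) := by
        intro j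
        rw [smul_smul, hw]
      rw [Finset.sum_congr rfl fun j _ => h2 j, ← Finset.smul_sum, hv, smul_zero]
    have h2 := hsum w
    rw [h1] at h2
    have h3 : ∑ j, w j • bs j = 0 := by
      funext k
      have h4 := congrFun h2 k
      have h5 : (((∑ j, w j • bs j : Fin n → ℤ) k : ℤ) : ℚ) = 0 := h4.symm
      exact_mod_cast h5
    intro j
    have h4 := Fintype.linearIndependent_iff.mp hli w h3 j
    have h5 := hw j
    rw [h4, Int.cast_zero, mul_eq_zero] at h5
    exact h5.resolve_left (by exact_mod_cast hc)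
  have hspq : ⊤ ≤ Submodule.span ℚ (Set.range bq) := by
    rintro ⟨u, hu⟩ -
    obtain ⟨c, w, hc, hw⟩ := hcd n u
    have hw' : (fun j => (w j : ℚ)) = (c : ℚ) • u := by
      funext j; rw [Pi.smul_apply, smul_eq_mul, hw]
    have hwU : w ∈ lat U := by
      rw [mem_lat, hw']
      exact U.smul_mem _ hu
    obtain ⟨w', hw2⟩ := hspan w hwU
    have h1 : (c : ℚ) • (⟨u, hu⟩ : U) = ∑ j, (w' j : ℚ) • bq j := by
      apply Subtype.ext
      rw [hsum, ← hw2, hw']
      rfl
    have hc' : (c : ℚ) ≠ 0 := by exact_mod_cast hc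
    have h2 : (⟨u, hu⟩ : U) = (c : ℚ)⁻¹ • ∑ j, (w' j : ℚ) • bq j := by
      rw [← h1, smul_smul, inv_mul_cancel₀ hc', one_smul]
    rw [h2]
    exact Submodule.smul_mem _ _ (Submodule.sum_mem _ fun j _ =>
      Submodule.smul_mem _ _ (Submodule.subset_span ⟨j, rfl⟩))
  let b : Module.Basis (Fin m) ℚ U := Module.Basis.mk hliq hspq
  have hb' : ∀ i, b i = bq i := fun i => Module.Basis.mk_apply hliq hspq i
  have hmat : LinearMap.toMatrix b b (restr A U hU) = (AN.map (Int.castRingHom ℚ))ᵀ := by
    ext i j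
    rw [LinearMap.toMatrix_apply, hb']
    have h1 : restr A U hU (bq j) = ∑ l, ((AN j l : ℤ) : ℚ) • b l := by
      have h3 := zM_pow_vec A (bs j) 1
      rw [pow_one, pow_one, hA j] at h3
      apply Subtype.ext
      have h4 : ((∑ l, ((AN j l : ℤ) : ℚ) • b l : U) : Fin n → ℚ) =
          ((∑ l, ((AN j l : ℤ) : ℚ) • bq l : U) : Fin n → ℚ) := by
        simp only [hb']
      rw [h4, hsum (fun l => AN j l), h3]
      rfl
    rw [h1]
    simp only [map_sum, map_smul, Module.Basis.repr_self, Finsupp.coe_finsetSum, Finset.sum_apply,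
      Finsupp.smul_apply, smul_eq_mul, Finsupp.single_apply, mul_ite, mul_one, mul_zero,
      Finset.sum_ite_eq', Finset.mem_univ, if_true, Matrix.transpose_apply, Matrix.map_apply]
    rfl
  have h2 : LinearMap.toMatrix b b ((restr A U hU) ^ k) = ((AN.map (Int.castRingHom ℚ))ᵀ) ^ k := by
    rw [← LinearMap.toMatrix_pow, hmat]
  rw [LinearMap.trace_eq_matrix_trace ℚ b, h2, ← Matrix.transpose_pow, Matrix.trace_transpose]
  have e1 : (AN.map (Int.castRingHom ℚ)) ^ k = (AN ^ k).map (Int.castRingHom ℚ) := by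
    have := map_pow ((Int.castRingHom ℚ).mapMatrix (m := Fin m)) AN k
    simpa [RingHom.mapMatrix_apply] using this.symm
  rw [e1]
  simp [Matrix.trace]

end Pool.Agent.FTO
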