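import Pool.Agent.FTO.Magic

/-!
# The module of the magic word
-/

set_option autoImplicit false

namespace Pool.FTO

variable {V W : Type} [Fintype V] [DecidableEq V] [Fintype W] [DecidableEq W]
variable {E : Matrix V V ℕ} {π : V → W} {F : Matrix W W ℕ}

/-- cast to the rationals -/
def toQ {m n : Type} (A : Matrix m n ℕ) : Matrix m n ℚ := A.map (Nat.cast : ℕ → ℚ)

@[simp] theorem toQ_apply {m n : Type} (A : Matrix m n ℕ) (i : m) (j : n) :
    toQ A i j = (A i j : ℚ) := rfl

omit [Fintype W] in
theorem mat_snoc (j k : W) (l : List W) (x v : V) :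
    mat E π j (l ++ [k]) x v = if π v = k then (mat E π j l * E) x v else 0 := by
  rw [mat_append, mat_cons, mat_nil, ← Matrix.mul_assoc, mat_mul_fibP, ← Matrix.mul_assoc,
    mul_fibP]

/-- generators of the module -/
def gen (E : Matrix V V ℕ) (π : V → W) (j : W) (l : List W) (x : V) : V → ℚ :=
  fun v => (mat E π j l x v : ℚ)

theorem gen_vecMul (j : W) (l : List W) (x : V) :
    Matrix.vecMul (gen E π j l x) (toQ E) = ∑ k : W, gen E π j (l ++ [k]) x := by
  funext v
  rw [Finset.sum_apply]
  simp only [gen, Matrix.vecMul, dotProduct, mat_snoc, toQ_apply]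
  have h1 : ∀ k : W, (((if π v = k then (mat E π j l * E) x v else 0 : ℕ)) : ℚ) =
      if k = π v then (((mat E π j l * E) x v : ℕ) : ℚ) else 0 := by
    intro k
    by_cases h : π v = k
    · rw [if_pos h, if_pos h.symm]
    · rw [if_neg h, if_neg (Ne.symm h), Nat.cast_zero]
  simp_rw [h1]
  rw [Finset.sum_ite_eq' Finset.univ (π v), if_pos (Finset.mem_univ _), Matrix.mul_apply]
  push_cast
  rfl

/-- the algebraic output of a cover without diamonds -/
structure ModData (E : Matrix V V ℕ) (π : V → W) (F : Matrix W W ℕ)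
    (M : Submodule ℚ (V → ℚ)) (R : Matrix V W ℤ) : Prop where
  inv : ∀ f ∈ M, Matrix.vecMul f (toQ E) ∈ M
  eqv : ∀ f ∈ M, Matrix.vecMul (Matrix.vecMul f (toQ E)) (R.map (Int.cast : ℤ → ℚ)) =
    Matrix.vecMul (Matrix.vecMul f (R.map (Int.cast : ℤ → ℚ))) (toQ F)
  onto : ∀ g : W → ℤ, ∃ f : V → ℤ, (fun v => (f v : ℚ)) ∈ M ∧
    Matrix.vecMul (fun v => (f v : ℚ)) (R.map (Int.cast : ℤ → ℚ)) = fun w => (g w : ℚ)
  grad : ∀ (j : W), ∀ f ∈ M, (fun v => if π v = j then f v else 0) ∈ M
  supp : ∀ v j, π v ≠ j → R v j = 0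

/-- the matrix of the functionals -/
noncomputable def Rmat (E : Matrix V V ℕ) (π : V → W) (D : Finset V) (l₁ : List W)
    (wd : W → List W) : Matrix V W ℤ :=
  fun v j => ∑ y ∈ D, (mat E π j (wd j ++ l₁) v y : ℤ)

omit [Fintype W] in
theorem GCover.gen_R (h : GCover E π F) {a : W} {l₁ l₂ : List W} (m : Magic E π F a l₁ l₂)
    {wd : W → List W} (hwd : ∀ j, Legal F j (wd j) ∧ (wd j).getLastD j = a)
    {x : V} (hx : x ∈ cut E π a l₁ l₂) (u : List W) :
    Matrix.vecMul (gen E π (l₁.getLastD a) (l₂ ++ u) x)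
      ((Rmat E π (cut E π a l₁ l₂) l₁ wd).map (Int.cast : ℤ → ℚ)) =
    if Legal F (l₁.getLastD a) (l₂ ++ u) then
      Pi.single ((l₂ ++ u).getLastD (l₁.getLastD a)) 1 else 0 := by
  classical
  set j₀ := l₁.getLastD a with hj₀
  set D := cut E π a l₁ l₂ with hD
  have hl1 := (legal_append F a l₁ l₂).mp m.legal
  have key : ∀ j, Matrix.vecMul (gen E π j₀ (l₂ ++ u) x)
      ((Rmat E π D l₁ wd).map (Int.cast : ℤ → ℚ)) j =
      ∑ y ∈ D, ∑ v, ((mat E π j₀ (l₂ ++ u) x v * mat E π j (wd j ++ l₁) v y : ℕ) : ℚ) := by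
    intro j
    simp only [Matrix.vecMul, dotProduct, gen, Rmat, Matrix.map_apply]
    push_cast
    simp_rw [Finset.mul_sum]
    rw [Finset.sum_comm]
  funext j
  rw [key]
  by_cases hleg : Legal F j₀ (l₂ ++ u)
  · rw [if_pos hleg]
    by_cases hj : j = (l₂ ++ u).getLastD j₀
    · subst hj
      rw [Pi.single_eq_same]
      set e := (l₂ ++ u).getLastD j₀ with he
      have h1 : ∀ y, ∑ v, ((mat E π j₀ (l₂ ++ u) x v * mat E π e (wd e ++ l₁) v y : ℕ) : ℚ) =
          ((mat E π j₀ (l₂ ++ ((u ++ wd e) ++ l₁)) x y : ℕ) : ℚ) := by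
        intro y
        have h2 : l₂ ++ ((u ++ wd e) ++ l₁) = (l₂ ++ u) ++ (wd e ++ l₁) := by simp
        rw [h2, mat_append E π j₀ (l₂ ++ u) (wd e ++ l₁), Matrix.mul_apply, ← he]
        push_cast
        rfl
      simp_rw [h1]
      have hend : (l₂ ++ (u ++ wd e)).getLastD j₀ = a := by
        rw [← List.append_assoc, getLastD_app, ← he]
        exact (hwd e).2
      have hc : Legal F j₀ (l₂ ++ ((u ++ wd e) ++ l₁)) := by
        have h2 : l₂ ++ ((u ++ wd e) ++ l₁) = (l₂ ++ u) ++ (wd e ++ l₁) := by simp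
        rw [h2, legal_append F j₀ (l₂ ++ u) (wd e ++ l₁), ← he, legal_append F e (wd e) l₁,
          (hwd e).2]
        exact ⟨hleg, (hwd e).1, hl1.1⟩
      have h3 := h.row_sum m hc hend hx
      rw [← hj₀, ← hD] at h3
      exact_mod_cast h3
    · rw [Pi.single_eq_of_ne hj]
      refine Finset.sum_eq_zero fun y _ => Finset.sum_eq_zero fun v _ => ?_
      by_cases hv : mat E π j₀ (l₂ ++ u) x v = 0
      · rw [hv, zero_mul, Nat.cast_zero]
      · have h4 := mat_ne_zero_right E π hv
        rw [mat_eq_zero_left E π (fun h5 => hj (h5.symm.trans h4)), mul_zero, Nat.cast_zero]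
  · rw [if_neg hleg]
    have h5 : ∀ v, mat E π j₀ (l₂ ++ u) x v = 0 := fun v => by
      by_contra hv
      exact hleg (h.legal hv)
    simp [h5]

theorem GCover.modData [Nonempty W] (h : GCover E π F) :
    ∃ (M : Submodule ℚ (V → ℚ)) (R : Matrix V W ℤ), ModData E π F M R := by
  classical
  obtain ⟨a, l₁, l₂, m⟩ := exists_magic E π F
  choose wd hwd using fun j => h.conn j a
  set j₀ := l₁.getLastD a with hj₀
  set D := cut E π a l₁ l₂ with hD
  obtain ⟨x₀, hx₀⟩ : D.Nonempty := h.cut_nonempty m.legal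
  set S : Set (V → ℚ) := {f | ∃ x ∈ D, ∃ u : List W, f = gen E π j₀ (l₂ ++ u) x} with hS
  set R := Rmat E π D l₁ wd with hR
  have hl1 := (legal_append F a l₁ l₂).mp m.legal
  refine ⟨Submodule.span ℚ S, R, ⟨?_, ?_, ?_, ?_, ?_⟩⟩
  · intro f hf
    induction hf using Submodule.span_induction with
    | mem f hf =>
      obtain ⟨x, hx, u, rfl⟩ := hf
      rw [gen_vecMul]
      refine Submodule.sum_mem _ fun k _ => Submodule.subset_span ⟨x, hx, u ++ [k], ?_⟩
      rw [List.append_assoc]
    | zero =>
      rw [Matrix.zero_vecMul]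
      exact Submodule.zero_mem _
    | add f g _ _ ihf ihg =>
      rw [Matrix.add_vecMul]
      exact Submodule.add_mem _ ihf ihg
    | smul c f _ ih =>
      rw [Matrix.smul_vecMul]
      exact Submodule.smul_mem _ _ ih
  · intro f hf
    induction hf using Submodule.span_induction with
    | mem f hf =>
      obtain ⟨x, hx, u, rfl⟩ := hf
      have h1 := h.gen_R m hwd hx u
      rw [← hj₀, ← hD, ← hR] at h1
      rw [h1, gen_vecMul, Matrix.sum_vecMul]
      have h2 : ∀ k : W, Matrix.vecMul (gen E π j₀ ((l₂ ++ u) ++ [k]) x)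
          (R.map (Int.cast : ℤ → ℚ)) =
          if Legal F j₀ (l₂ ++ (u ++ [k])) then Pi.single k 1 else 0 := by
        intro k
        have h3 := h.gen_R m hwd hx (u ++ [k])
        rw [← hj₀, ← hD, ← hR] at h3
        rw [List.append_assoc, h3]
        congr 2
        rw [← List.append_assoc, getLastD_app]
        rfl
      simp_rw [h2]
      by_cases hleg : Legal F j₀ (l₂ ++ u)
      · rw [if_pos hleg]
        funext j
        rw [Matrix.single_one_vecMul, Finset.sum_apply]
        have h4 : ∀ k : W, (if Legal F j₀ (l₂ ++ (u ++ [k])) then (Pi.single k (1 : ℚ) : W → ℚ)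
            else 0) j = if k = j then (F ((l₂ ++ u).getLastD j₀) j : ℚ) else 0 := by
          intro k
          have hiff : Legal F j₀ (l₂ ++ (u ++ [k])) ↔
              Legal F j₀ (l₂ ++ u) ∧ Legal F ((l₂ ++ u).getLastD j₀) [k] := by
            rw [← List.append_assoc, legal_append]
          by_cases hk : k = j
          · subst hk
            rw [if_pos rfl]
            rcases Nat.eq_zero_or_pos (F ((l₂ ++ u).getLastD j₀) k) with h5 | h5
            · rw [if_neg (fun h6 => (hiff.mp h6).2.1 h5), h5]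
              simp
            · have h6 : F ((l₂ ++ u).getLastD j₀) k = 1 := le_antisymm (h.F01 _ _) h5
              rw [if_pos (hiff.mpr ⟨hleg, by rw [h6]; exact one_ne_zero, trivial⟩), h6]
              simp
          · rw [if_neg hk]
            split_ifs
            · exact Pi.single_eq_of_ne (Ne.symm hk) _
            · rfl
        simp_rw [h4]
        rw [Finset.sum_ite_eq' Finset.univ j, if_pos (Finset.mem_univ _)]
        rfl
      · rw [if_neg hleg, Matrix.zero_vecMul]
        refine Finset.sum_eq_zero fun k _ => ?_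
        have hiff : Legal F j₀ (l₂ ++ (u ++ [k])) ↔
            Legal F j₀ (l₂ ++ u) ∧ Legal F ((l₂ ++ u).getLastD j₀) [k] := by
          rw [← List.append_assoc, legal_append]
        rw [if_neg (fun h6 => hleg (hiff.mp h6).1)]
    | zero => simp
    | add f g _ _ ihf ihg =>
      simp only [Matrix.add_vecMul]
      rw [ihf, ihg]
    | smul c f _ ih =>
      simp only [Matrix.smul_vecMul]
      rw [ih]
  · intro g
    have h1 : ∀ j : W, ∃ u : List W, Legal F j₀ (l₂ ++ u) ∧ (l₂ ++ u).getLastD j₀ = j := by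
      intro j
      obtain ⟨u, hu1, hu2⟩ := h.conn (l₂.getLastD j₀) j
      exact ⟨u, (legal_append F _ _ _).mpr ⟨hl1.2, hu1⟩, by rw [getLastD_app]; exact hu2⟩
    choose ud hud1 hud2 using h1
    refine ⟨fun v => ∑ j, g j * (mat E π j₀ (l₂ ++ ud j) x₀ v : ℤ), ?_, ?_⟩
    · have h2 : (fun v => ((∑ j, g j * (mat E π j₀ (l₂ ++ ud j) x₀ v : ℤ) : ℤ) : ℚ)) =
          ∑ j, (g j : ℚ) • gen E π j₀ (l₂ ++ ud j) x₀ := by
        funext v
        rw [Finset.sum_apply]
        push_cast
        rfl
      rw [h2]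
      exact Submodule.sum_mem _ fun j _ => Submodule.smul_mem _ _
        (Submodule.subset_span ⟨x₀, hx₀, ud j, rfl⟩)
    · have h2 : (fun v => ((∑ j, g j * (mat E π j₀ (l₂ ++ ud j) x₀ v : ℤ) : ℤ) : ℚ)) =
          ∑ j, (g j : ℚ) • gen E π j₀ (l₂ ++ ud j) x₀ := by
        funext v
        rw [Finset.sum_apply]
        push_cast
        rfl
      rw [h2, Matrix.sum_vecMul]
      have h3 : ∀ j : W, Matrix.vecMul ((g j : ℚ) • gen E π j₀ (l₂ ++ ud j) x₀)
          (R.map (Int.cast : ℤ → ℚ)) = Pi.single j (g j : ℚ) := by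
        intro j
        have h4 := h.gen_R m hwd hx₀ (ud j)
        rw [← hj₀, ← hD, ← hR] at h4
        rw [Matrix.smul_vecMul, h4, if_pos (hud1 j), hud2 j, ← Pi.single_smul, smul_eq_mul,
          mul_one]
      simp_rw [h3]
      funext w
      rw [Finset.sum_apply]
      simp [Pi.single_apply]
  · intro j f hf
    induction hf using Submodule.span_induction with
    | mem f hf =>
      obtain ⟨x, hx, u, rfl⟩ := hf
      by_cases hj : j = (l₂ ++ u).getLastD j₀
      · have h1 : (fun v => if π v = j then gen E π j₀ (l₂ ++ u) x v else 0) =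
            gen E π j₀ (l₂ ++ u) x := by
          funext v
          by_cases hv : π v = j
          · rw [if_pos hv]
          · rw [if_neg hv, gen, mat_eq_zero_right E π (by rwa [← hj]), Nat.cast_zero]
        rw [h1]
        exact Submodule.subset_span ⟨x, hx, u, rfl⟩
      · have h1 : (fun v => if π v = j then gen E π j₀ (l₂ ++ u) x v else 0) = 0 := by
          funext v
          by_cases hv : π v = j
          · rw [if_pos hv, gen, mat_eq_zero_right E π (by rw [hv]; exact hj), Nat.cast_zero]
            rfl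
          · rw [if_neg hv]
            rfl
        rw [h1]
        exact Submodule.zero_mem _
    | zero =>
      have h1 : (fun v => if π v = j then (0 : V → ℚ) v else 0) = 0 := by
        funext v
        simp
      rw [h1]
      exact Submodule.zero_mem _
    | add f g _ _ ihf ihg =>
      have h1 : (fun v => if π v = j then (f + g) v else 0) =
          (fun v => if π v = j then f v else 0) + fun v => if π v = j then g v else 0 := by
        funext v
        simp only [Pi.add_apply]
        split_ifs <;> simp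
      rw [h1]
      exact Submodule.add_mem _ ihf ihg
    | smul c f _ ih =>
      have h1 : (fun v => if π v = j then (c • f) v else 0) =
          c • fun v => if π v = j then f v else 0 := by
        funext v
        simp only [Pi.smul_apply]
        split_ifs <;> simp
      rw [h1]
      exact Submodule.smul_mem _ _ ih
  · intro v j hvj
    simp only [hR, Rmat]
    refine Finset.sum_eq_zero fun y _ => ?_
    rw [mat_eq_zero_left E π hvj, Nat.cast_zero]

end Pool.FTO
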