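import Pool.Agent.FTO.A0f

/-!
# FTO, A0: the filtered module and the Perron data of `TraceDimCondition`
-/

set_option autoImplicit false

open scoped BigOperators
open Matrix Polynomial

namespace Pool.Agent.FTO

open Pool.Agent.SSE Pool.Agent.FT

attribute [local instance] Classical.propDecidable

/-- the functional of `A` on `W ∩ G_A` is a nonzero multiple of the functional of `B` -/
theorem exists_scalar {K KB : Type} [AddCommGroup K] [Module ℤ[X] K] [AddCommGroup KB]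
    [Module ℤ[X] KB] {a b h : ℕ} (B : Matrix (Fin b) (Fin b) ℕ) {q : ℕ}
    (hB : PF.Prim (rmat B) q) {lam : ℝ} {vB uB : Fin b → ℝ} (hd : PF.Data (rmat B) lam vB uB)
    (SW : Submodule ℤ[X] K) (φ : SW →ₗ[ℤ[X]] KB) (hφs : Function.Surjective φ)
    (τ : K →+ ℝ) (hτX : ∀ z, τ ((X : ℤ[X]) • z) = lam⁻¹ * τ z)
    (hτ0 : ∀ z : SW, φ z = 0 → τ (z : K) = 0)
    (gA : Fin a → K) (hgA : ∃ i, τ (gA i) ≠ 0)
    (τB : KB →+ ℝ) (hτBX : ∀ z, τB ((X : ℤ[X]) • z) = lam⁻¹ * τB z) (gB : Fin b → KB)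
    (hgB : ∀ i, τB (gB i) = vB i)
    (hrel : ∀ i, gB i = (X : ℤ[X]) • ∑ j, C ((B i j : ℕ) : ℤ) • gB j)
    (htop : ∀ z : KB, ∃ v : Fin b → ℤ[X], z = ∑ j, v j • gB j)
    {δH : ℤ[X]} {gH : Fin h → K ⧸ SW} {MH : Matrix (Fin h) (Fin h) ℤ[X]} (hH : RelOf δH gH MH)
    (hδH : δH.eval₂ (Int.castRingHom ℝ) lam⁻¹ ≠ 0) :
    ∃ c : ℝ, c ≠ 0 ∧ ∀ z : SW, τ (z : K) = c * τB (φ z) := by
  have hl0 := hd.lam_pos
  choose z hz using fun i => hφs (gB i)
  -- the values on the lifts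
  have ht : rmat B *ᵥ (fun i => τ (z i : K)) = lam • fun i => τ (z i : K) := by
    funext i
    have h1 : φ (z i - (X : ℤ[X]) • ∑ j, C ((B i j : ℕ) : ℤ) • z j) = 0 := by
      rw [map_sub, map_smul, map_sum, hz]
      have h2 : ∀ j, φ (C ((B i j : ℕ) : ℤ) • z j) = C ((B i j : ℕ) : ℤ) • gB j := fun j => by
        rw [map_smul, hz]
      rw [Finset.sum_congr rfl fun j _ => h2 j, ← hrel, sub_self]
    have h2 := hτ0 _ h1
    have h3 : ((z i - (X : ℤ[X]) • ∑ j, C ((B i j : ℕ) : ℤ) • z j : SW) : K) =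
        (z i : K) - (X : ℤ[X]) • ∑ j, C ((B i j : ℕ) : ℤ) • (z j : K) := by
      rw [Submodule.coe_sub, Submodule.coe_smul, Submodule.coe_sum]
      rfl
    rw [h3, map_sub, hτX, map_sum, sub_eq_zero] at h2
    have h4 : ∀ j, τ (C ((B i j : ℕ) : ℤ) • (z j : K)) = (B i j : ℝ) * τ (z j : K) := by
      intro j
      rw [C_smul, map_zsmul, zsmul_eq_mul]
      push_cast
      rfl
    rw [Finset.sum_congr rfl fun j _ => h4 j] at h2
    simp only [Matrix.mulVec, dotProduct, Pi.smul_apply, smul_eq_mul, rmat, Matrix.map_apply]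
    rw [h2, ← mul_assoc, mul_inv_cancel₀ hl0.ne', one_mul]
    rfl
  obtain ⟨c, hc⟩ := perron_multiple hB hd _ ht
  have hall : ∀ y : SW, τ (y : K) = c * τB (φ y) := by
    intro y
    obtain ⟨v, hv⟩ := htop (φ y)
    have h1 : φ (y - ∑ j, v j • z j) = 0 := by
      rw [map_sub, map_sum, hv, sub_eq_zero]
      exact Finset.sum_congr rfl fun j _ => by rw [map_smul, hz]
    have h2 := hτ0 _ h1
    have h3 : ((y - ∑ j, v j • z j : SW) : K) = (y : K) - ∑ j, v j • (z j : K) := by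
      rw [Submodule.coe_sub, Submodule.coe_sum]
      rfl
    rw [h3, map_sub, sub_eq_zero, map_sum] at h2
    rw [h2, hv, map_sum, Finset.mul_sum]
    refine Finset.sum_congr rfl fun j _ => ?_
    rw [tau_smul hτX, tau_smul hτBX, hgB, hc]
    ring
  refine ⟨c, ?_, hall⟩
  rintro rfl
  obtain ⟨i, hi⟩ := hgA
  apply hi
  have h1 : SW.mkQ (δH • gA i) = 0 := by
    rw [map_smul, RelOf.smul_eq_zero hH]
  rw [Submodule.mkQ_apply, Submodule.Quotient.mk_eq_zero] at h1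
  have h2 := hall ⟨_, h1⟩
  rw [zero_mul] at h2
  have h3 : τ (δH • gA i) = 0 := h2
  rw [tau_smul hτX, mul_eq_zero] at h3
  exact h3.resolve_left hδH

theorem cls_rel {n : ℕ} (A : Matrix (Fin n) (Fin n) ℕ) (i : Fin n) :
    cls A i = (X : ℤ[X]) • ∑ j, C ((A i j : ℕ) : ℤ) • cls A j := by
  have h := (relOf_cls A).rel i
  have h1 : ∀ j, relM (zM A) i j • cls A j = (if i = j then cls A j else 0) -
      (X : ℤ[X]) • C ((A i j : ℕ) : ℤ) • cls A j := by
    intro j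
    simp only [relM, Matrix.sub_apply, Matrix.one_apply, Matrix.smul_apply, Matrix.map_apply,
      smul_eq_mul, sub_smul, mul_smul, zM]
    congr 1
    split_ifs <;> simp
  rw [Finset.sum_congr rfl fun j _ => h1 j, Finset.sum_sub_distrib, Finset.sum_ite_eq,
    if_pos (Finset.mem_univ _), ← Finset.smul_sum] at h
  exact sub_eq_zero.1 h

theorem rmat_eig {n : ℕ} {A : Matrix (Fin n) (Fin n) ℕ} {lam : ℝ} {v : Fin n → ℝ}
    (h : rmat A *ᵥ v = lam • v) (i : Fin n) : ∑ j, (A i j : ℝ) * v j = lam * v i := by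
  have h1 := congrFun h i
  simp only [Matrix.mulVec, dotProduct, Pi.smul_apply, smul_eq_mul, rmat, Matrix.map_apply] at h1
  exact h1

theorem rmat_pow' {n : ℕ} (A : Matrix (Fin n) (Fin n) ℕ) (m : ℕ) (i j : Fin n) :
    (rmat A ^ m) i j = ((A ^ m) i j : ℝ) := by
  have h1 : rmat A ^ m = (A ^ m).map (Nat.castRingHom ℝ) := by
    unfold rmat
    exact ((Nat.castRingHom ℝ).mapMatrix.map_pow A m).symm
  rw [h1]
  simp

theorem toR_rdet {n : ℕ} (A : Matrix (Fin n) (Fin n) ℕ) :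
    toR (rdet (zM A)) = (rmat A).charpolyRev := by
  rw [rdet, relM_zM, toR_det_IP A]
  unfold Matrix.charpolyRev
  congr <;> exact Subsingleton.elim _ _

/-- the values at real points of the closed disc -/
theorem ne_of_aeval {δ : ℤ[X]} {rad x : ℝ} (h : ∀ z : ℂ, ‖z‖ ≤ rad → aeval z δ ≠ 0) (hx0 : 0 ≤ x)
    (hx : x ≤ rad) : δ.eval₂ (Int.castRingHom ℝ) x ≠ 0 := by
  intro h1
  apply h (x : ℂ) (by rw [Complex.norm_real, Real.norm_of_nonneg hx0]; exact hx)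
  rw [Polynomial.aeval_def]
  have h2 : (algebraMap ℤ ℂ) = (Complex.ofRealHom).comp (Int.castRingHom ℝ) := by
    ext; simp
  have h3 := Polynomial.hom_eval₂ δ (Int.castRingHom ℝ) Complex.ofRealHom x
  rw [h1, map_zero] at h3
  rw [h2]
  exact h3.symm

/-- **A0.** -/
theorem exists_fil {a b : ℕ} (ha : 0 < a) (hb : 0 < b) (A : Matrix (Fin a) (Fin a) ℕ)
    (B : Matrix (Fin b) (Fin b) ℕ) {p q : ℕ} (hp : 0 < p) (hpA : ∀ i j, 2 ≤ (A ^ p) i j)
    (hq : 0 < q) (hqB : ∀ i j, 0 < (B ^ q) i j) {lam : ℝ} {r : Fin a → ℝ} {s : Fin b → ℝ}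
    (hr : ∀ i, 0 < r i) (hAr : ∀ i, ∑ j, (A i j : ℝ) * r j = lam * r i) (hs : ∀ i, 0 < s i)
    (hBs : ∀ i, ∑ j, (B i j : ℝ) * s j = lam * s i) (hcond : FT.TraceDimCondition A B) :
    ∃ (K KN KB KH L : Type) (_ : AddCommGroup K) (_ : Module ℤ[X] K) (_ : AddCommGroup KN)
      (_ : Module ℤ[X] KN) (_ : AddCommGroup KB) (_ : Module ℤ[X] KB) (_ : AddCommGroup KH)
      (_ : Module ℤ[X] KH) (_ : AddCommGroup L) (_ : Module ℤ[X] L) (δN δB δH : ℤ[X])
      (F : Fil K KN KB KH L) (D : PFM K (δN * (δB * δH))) (DB : PFM KB δB)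
      (eA : Fin a → K) (eB : Fin b → KB)
      (nN : ℕ) (AN : Matrix (Fin nN) (Fin nN) ℤ) (gN : Fin nN → KN)
      (nH : ℕ) (AH : Matrix (Fin nH) (Fin nH) ℤ) (gH : Fin nH → KH),
      δN.coeff 0 = 1 ∧ δB.coeff 0 = 1 ∧ δH.coeff 0 = 1 ∧
      D.lam = lam ∧ DB.lam = D.lam ∧ DB.rad = D.rad ∧
      PresOf (δN * (δB * δH)) eA (ofMat A) ∧ (∀ i, 0 < D.tau (eA i)) ∧
      PresOf δB eB (ofMat B) ∧ (∀ i, 0 < DB.tau (eB i)) ∧
      (∀ n, D.tau (F.i n) = 0) ∧ (∀ z y, F.s z = F.b y → D.tau z = DB.tau y) ∧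
      RelOf δN gN (relM AN) ∧ RelOf δH gH (relM AH) ∧
      (∀ z : ℂ, ‖z‖ ≤ D.rad → aeval z δN ≠ 0) ∧ (∀ z : ℂ, ‖z‖ ≤ D.rad → aeval z δH ≠ 0) ∧
      (∀ k, 0 < k → (B ^ k).trace = 0 → (AN ^ k).trace = 0) ∧
      ∀ k, 0 < k → (((A ^ k).trace : ℕ) : ℤ) =
        (AN ^ k).trace + (((B ^ k).trace : ℕ) : ℤ) + (AH ^ k).trace := by
  obtain ⟨W, U, hW, hU, ψ0, hUW, hWe, hψ0, hker0, hdim0, htr⟩ := hcond
  have : Nonempty (Fin a) := ⟨⟨0, ha⟩⟩
  have : Nonempty (Fin b) := ⟨⟨0, hb⟩⟩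
  have hprA : PF.Prim (rmat A) p := ⟨fun i j => by simp [rmat], hp, fun i j => by
    rw [rmat_pow']
    have := hpA i j
    exact_mod_cast (by omega : 0 < (A ^ p) i j)⟩
  have hprB : PF.Prim (rmat B) q := ⟨fun i j => by simp [rmat], hq, fun i j => by
    rw [rmat_pow']; exact_mod_cast hqB i j⟩
  obtain ⟨lA, vA, uA, hdA⟩ := PF.exists_data hprA
  obtain ⟨lB, vB, uB, hdB⟩ := PF.exists_data hprB
  have hlA : lam = lA := (hdA.unique hprA (mu := lam) (w := r) (fun i => (hr i).le)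
    ⟨⟨0, ha⟩, hr _⟩ (by
      funext i
      simp only [Matrix.mulVec, dotProduct, Pi.smul_apply, smul_eq_mul, rmat, Matrix.map_apply]
      exact hAr i)).1
  have hlB : lam = lB := (hdB.unique hprB (mu := lam) (w := s) (fun i => (hs i).le)
    ⟨⟨0, hb⟩, hs _⟩ (by
      funext i
      simp only [Matrix.mulVec, dotProduct, Pi.smul_apply, smul_eq_mul, rmat, Matrix.map_apply]
      exact hBs i)).1
  subst hlA
  subst hlB
  have hlam : 1 < lam := hdA.one_lt (p := p) fun i j => by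
    rw [rmat_pow']
    exact_mod_cast hpA i j
  have hlam0 : 0 < lam := hdA.lam_pos
  obtain ⟨th, f1, hth0, hthl, hfac, hf0, hf1⟩ := hdA.exists_factor hprA
  obtain ⟨th', f1B, -, -, hfacB, hf0B, hf1B⟩ := hdB.exists_factor hprB
  have hmin : lam⁻¹ < min 1 th⁻¹ := by
    refine lt_min (inv_lt_one_of_one_lt₀ hlam) ?_
    exact (inv_lt_inv₀ hlam0 hth0).2 hthl
  obtain ⟨rad, hr1, hr2⟩ := exists_between hmin
  have hrad0 : 0 < rad := (inv_pos.2 hlam0).trans hr1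
  have hf1' : ∀ z : ℂ, ‖z‖ ≤ rad → aeval z f1 ≠ 0 := by
    intro z hz
    refine hf1 z ?_
    calc ‖z‖ * th ≤ rad * th := mul_le_mul_of_nonneg_right hz hth0.le
      _ < th⁻¹ * th := mul_lt_mul_of_pos_right (hr2.trans_le (min_le_right _ _)) hth0
      _ = 1 := inv_mul_cancel₀ hth0.ne'
  have hradlt : rad < 1 := hr2.trans_le (min_le_left _ _)
  have hradgt : 1 < lam * rad := by
    have := mul_lt_mul_of_pos_left hr1 hlam0
    rwa [mul_inv_cancel₀ hlam0.ne'] at this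
  -- integral matrices
  obtain ⟨nN, AN, gN, bs, -, hbli, hbU, hbspan, hbA, hRN⟩ := exists_rel_sub (A := A) hU
    (hUW.trans hWe)
  obtain ⟨nH, AH, gH, hRH⟩ := exists_rel_quot (A := A) hW hWe
  have hA0 := relOf_cls A
  have hB0 := relOf_cls B
  -- the sign
  have hon0 : ∀ w ∈ W, w ∈ dimGroup A → ψ0 w ∈ dimGroup B := fun w hw hwd =>
    (hdim0 _).2 ⟨w, hw, hwd, rfl⟩
  -- determinants
  have key : ∀ ψ : (Fin a → ℚ) →ₗ[ℚ] (Fin b → ℚ),
      ∀ (hψ : ∀ w ∈ W, ψ (w ᵥ* toQ A) = ψ w ᵥ* toQ B)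
        (hker : ∀ w ∈ W, ψ w = 0 ↔ w ∈ U)
        (hon : ∀ w ∈ W, w ∈ dimGroup A → ψ w ∈ dimGroup B)
        (honto : ∀ y ∈ dimGroup B, ∃ w ∈ W, w ∈ dimGroup A ∧ ψ w = y),
      ∃ F : Fil (KM A) (subM A U hU (hUW.trans hWe)) (KM B) (KM A ⧸ subM A W hW hWe)
        (KM A ⧸ subM A U hU (hUW.trans hWe)),
        (∀ z : subM A U hU (hUW.trans hWe), F.i z = (z : KM A)) ∧
        (∀ z : subM A W hW hWe, F.s (z : KM A) = F.b (phiM hW hWe ψ hψ hon z)) ∧
        Function.Surjective (phiM hW hWe ψ hψ hon) ∧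
        rdet (zM A) = rdet AN * (rdet (zM B) * rdet AH) := by
    intro ψ hψ hker hon honto
    obtain ⟨F, hF1, hF2⟩ := exists_Fil hW hWe hU hUW ψ hψ hon honto hker
    refine ⟨F, hF1, hF2, ?_, ?_⟩
    · intro y
      obtain ⟨w, hw, hwd, hwy⟩ := honto _ (val_mem B y)
      refine ⟨⟨mk A w hwd, mem_subM.2 (by rw [val_mk]; exact hw)⟩, ?_⟩
      apply val_inj B
      rw [val_phiM, val_mk, hwy]
    · obtain ⟨g1, M1, h1⟩ := RelOf.extend F.b F.p F.b_inj F.p_surj F.exL hB0 hRH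
      obtain ⟨g2, M2, h2⟩ := RelOf.extend F.i F.s F.i_inj F.s_surj F.exK hRN h1
      refine RelOf.det_unique hA0 h2 (rdet_coeff _) ?_
      rw [Polynomial.mul_coeff_zero, Polynomial.mul_coeff_zero, rdet_coeff, rdet_coeff, rdet_coeff]
      norm_num
  obtain ⟨-, -, -, -, hdet⟩ := key ψ0 hψ0 hker0 hon0 fun y hy => (hdim0 y).1 hy
  -- real polynomials
  have hAr' : toR (rdet (zM A)) = (1 - C lam * X) * f1 := by
    rw [toR_rdet, hfac]
  have hBr' : toR (rdet (zM B)) = (1 - C lam * X) * f1B := by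
    rw [toR_rdet, hfacB]
  have hne1 : (1 - C lam * X : ℝ[X]) ≠ 0 := by
    intro h
    have := congrArg (fun p => Polynomial.coeff p 0) h
    simp at this
  have hf1eq : f1 = toR (rdet AN) * (f1B * toR (rdet AH)) := by
    apply mul_left_cancel₀ hne1
    rw [← hAr', hdet, map_mul, map_mul, hBr']
    ring
  have hev : ∀ z : ℂ, ‖z‖ ≤ rad → aeval z (rdet AN) ≠ 0 ∧ aeval z f1B ≠ 0 ∧
      aeval z (rdet AH) ≠ 0 := by
    intro z hz
    have h1 := hf1' z hz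
    rw [hf1eq, map_mul, map_mul] at h1
    have h2 : ∀ δ : ℤ[X], aeval z (toR δ) = aeval z δ := by
      intro δ
      exact Polynomial.aeval_map_algebraMap ℝ z δ
    rw [h2, h2] at h1
    exact ⟨left_ne_zero_of_mul h1, left_ne_zero_of_mul (right_ne_zero_of_mul h1),
      right_ne_zero_of_mul (right_ne_zero_of_mul h1)⟩
  have hli0 : 0 ≤ lam⁻¹ := (inv_pos.2 hlam0).le
  have hNne : (rdet AN).eval₂ (Int.castRingHom ℝ) lam⁻¹ ≠ 0 :=
    ne_of_aeval (fun z hz => (hev z hz).1) hli0 hr1.le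
  have hHne : (rdet AH).eval₂ (Int.castRingHom ℝ) lam⁻¹ ≠ 0 :=
    ne_of_aeval (fun z hz => (hev z hz).2.2) hli0 hr1.le
  -- functionals
  have heA := rmat_eig hdA.eig
  have heB := rmat_eig hdB.eig
  have hτX := tauM_X A hlam0.ne' heA
  have hτBX := tauM_X B hlam0.ne' heB
  have hτU : ∀ z : subM A U hU (hUW.trans hWe), tauM A vA (z : KM A) = 0 := by
    intro z
    have h1 := RelOf.smul_eq_zero hRN z
    have h2 : rdet AN • (z : KM A) = 0 := congrArg Subtype.val h1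
    have h3 : tauM A vA (rdet AN • (z : KM A)) = 0 := by rw [h2, map_zero]
    rw [tau_smul hτX, mul_eq_zero] at h3
    exact h3.resolve_left hNne
  -- scalar
  have hscal : ∀ ψ : (Fin a → ℚ) →ₗ[ℚ] (Fin b → ℚ),
      ∀ (hψ : ∀ w ∈ W, ψ (w ᵥ* toQ A) = ψ w ᵥ* toQ B)
        (hker : ∀ w ∈ W, ψ w = 0 ↔ w ∈ U)
        (hon : ∀ w ∈ W, w ∈ dimGroup A → ψ w ∈ dimGroup B)
        (honto : ∀ y ∈ dimGroup B, ∃ w ∈ W, w ∈ dimGroup A ∧ ψ w = y),
      ∃ c : ℝ, c ≠ 0 ∧ ∀ z : subM A W hW hWe,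
        tauM A vA (z : KM A) = c * tauM B vB (phiM hW hWe ψ hψ hon z) := by
    intro ψ hψ hker hon honto
    obtain ⟨F, hF1, hF2, hsurj, -⟩ := key ψ hψ hker hon honto
    refine exists_scalar B hprB hdB (subM A W hW hWe) (phiM hW hWe ψ hψ hon) hsurj (tauM A vA) hτX
      ?_ (cls A) ⟨⟨0, ha⟩, ?_⟩ (tauM B vB) hτBX (cls B) ?_ (cls_rel B) hB0.top hRH hHne
    · intro z hz
      have h1 : val A (z : KM A) ∈ U := by
        rw [← hker _ (mem_subM.1 z.2), ← val_phiM hW hWe ψ hψ hon, hz, map_zero]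
      exact hτU ⟨(z : KM A), h1⟩
    · rw [tauM_cls A hlam0.ne' heA]
      exact (hdA.v_pos _).ne'
    · intro i
      rw [tauM_cls B hlam0.ne' heB]
  obtain ⟨ψ, hψ, hker, hon, honto, c, hc, hcz⟩ : ∃ ψ : (Fin a → ℚ) →ₗ[ℚ] (Fin b → ℚ),
      ∃ (hψ : ∀ w ∈ W, ψ (w ᵥ* toQ A) = ψ w ᵥ* toQ B)
        (_ : ∀ w ∈ W, ψ w = 0 ↔ w ∈ U)
        (hon : ∀ w ∈ W, w ∈ dimGroup A → ψ w ∈ dimGroup B)
        (_ : ∀ y ∈ dimGroup B, ∃ w ∈ W, w ∈ dimGroup A ∧ ψ w = y)
        (c : ℝ), 0 < c ∧ ∀ z : subM A W hW hWe,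
        tauM A vA (z : KM A) = c * tauM B vB (phiM hW hWe ψ hψ hon z) := by
    obtain ⟨c, hc, hcz⟩ := hscal ψ0 hψ0 hker0 hon0 fun y hy => (hdim0 y).1 hy
    rcases lt_or_gt_of_ne hc with hneg | hpos
    · have hn : ∀ y, y ∈ dimGroup B → -y ∈ dimGroup B := fun y hy => (dG B).neg_mem hy
      have hon' : ∀ w ∈ W, w ∈ dimGroup A → (-ψ0) w ∈ dimGroup B := fun w hw hwd => by
        rw [LinearMap.neg_apply]
        exact hn _ (hon0 w hw hwd)
      have hψ' : ∀ w ∈ W, (-ψ0) (w ᵥ* toQ A) = (-ψ0) w ᵥ* toQ B := fun w hw => by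
        rw [LinearMap.neg_apply, LinearMap.neg_apply, hψ0 w hw, Matrix.neg_vecMul]
      refine ⟨-ψ0, hψ', fun w hw => ?_, hon', fun y hy => ?_, -c, by linarith, fun z => ?_⟩
      · rw [LinearMap.neg_apply, neg_eq_zero, hker0 w hw]
      · obtain ⟨w, hw, hwd, hwy⟩ := (hdim0 _).1 (hn y hy)
        exact ⟨w, hw, hwd, by rw [LinearMap.neg_apply, hwy, neg_neg]⟩
      · rw [hcz z]
        have h1 : phiM hW hWe (-ψ0) hψ' hon' z = - phiM hW hWe ψ0 hψ0 hon0 z := by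
          apply val_inj B
          rw [map_neg, val_phiM, val_phiM, LinearMap.neg_apply]
        rw [h1, map_neg]
        ring
    · exact ⟨ψ0, hψ0, hker0, hon0, fun y hy => (hdim0 y).1 hy, c, hpos, hcz⟩
  obtain ⟨F, hF1, hF2, hsurj, -⟩ := key ψ hψ hker hon honto
  let D : PFM (KM A) (rdet AN * (rdet (zM B) * rdet AH)) :=
    { lam := lam
      one_lt := hlam
      tau := tauM A vA
      tau_X := hτX
      rad := rad
      rad_gt := hradgt
      rad_lt := hradlt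
      f1 := f1
      fac := by rw [← hdet, hAr']
      ne := hf1' }
  let DB : PFM (KM B) (rdet (zM B)) :=
    { lam := lam
      one_lt := hlam
      tau := (AddMonoidHom.mulLeft c).comp (tauM B vB)
      tau_X := fun z => by
        simp only [AddMonoidHom.comp_apply, AddMonoidHom.coe_mulLeft]
        rw [hτBX]
        ring
      rad := rad
      rad_gt := hradgt
      rad_lt := hradlt
      f1 := f1B
      fac := hBr'
      ne := fun z hz => (hev z hz).2.1 }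
  refine ⟨KM A, subM A U hU (hUW.trans hWe), KM B, KM A ⧸ subM A W hW hWe,
    KM A ⧸ subM A U hU (hUW.trans hWe), inferInstance, inferInstance, inferInstance,
    inferInstance, inferInstance, inferInstance, inferInstance, inferInstance, inferInstance,
    inferInstance, rdet AN, rdet (zM B), rdet AH, F, D, DB, cls A, cls B, nN, AN, gN, nH, AH, gH,
    rdet_coeff _, rdet_coeff _, rdet_coeff _, rfl, rfl, rfl, ?_, ?_, presOf_cls B, ?_, ?_, ?_, hRN,
    hRH, fun z hz => (hev z hz).1, fun z hz => (hev z hz).2.2, ?_, ?_⟩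
  · rw [← hdet]
    exact presOf_cls A
  · intro i
    show 0 < tauM A vA (cls A i)
    rw [tauM_cls A hlam0.ne' heA]
    exact hdA.v_pos i
  · intro i
    show 0 < c * tauM B vB (cls B i)
    rw [tauM_cls B hlam0.ne' heB]
    exact mul_pos hc (hdB.v_pos i)
  · intro n
    show tauM A vA (F.i n) = 0
    rw [hF1]
    exact hτU n
  · intro z y hzy
    obtain ⟨w, rfl⟩ := hsurj y
    show tauM A vA z = c * tauM B vB (phiM hW hWe ψ hψ hon w)
    rw [← hF2, ← sub_eq_zero, ← map_sub, F.exK] at hzy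
    obtain ⟨n, hn⟩ := hzy
    rw [hF1] at hn
    have h1 := hτU n
    rw [hn, map_sub, sub_eq_zero] at h1
    rw [h1, hcz]
  · intro k hk hB
    have h1 := trace_restr hU AN bs hbli hbU hbspan hbA k
    rw [(htr k hk hB).2] at h1
    exact_mod_cast h1
  · intro k hk
    have h1 := trace_add_of_rdet (zM A) AN (zM B) AH hdet hk
    have h2 : ∀ {n : ℕ} (M : Matrix (Fin n) (Fin n) ℕ), (((M ^ k).trace : ℕ) : ℤ) =
        (zM M ^ k).trace := by
      intro n M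
      have e1 : (zM M) ^ k = (M ^ k).map (Nat.cast : ℕ → ℤ) := by
        have := map_pow ((Nat.castRingHom ℤ).mapMatrix (m := Fin n)) M k
        simpa [RingHom.mapMatrix_apply, zM] using this.symm
      rw [e1]
      simp [Matrix.trace]
    rw [h2, h2, h1]

end Pool.Agent.FTO
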