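import Pool.Agent.SSE.PresOf

/-!
# FTO, A0a: modules generated by lattices, extensions
-/

set_option autoImplicit false

open scoped BigOperators
open Matrix Polynomial

namespace Pool.Agent.FTO

open Pool.Agent.SSE

attribute [local instance] Classical.propDecidable

section Lattice

variable {ι : Type} [Fintype ι] {G : Type} [AddCommGroup G] [Module ℤ[X] G]

/-- the relation matrix `1 - X A` -/
noncomputable def relM (A : Matrix ι ι ℤ) : Matrix ι ι ℤ[X] := 1 - (X : ℤ[X]) • A.map C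

/-- its determinant -/
noncomputable def rdet (A : Matrix ι ι ℤ) : ℤ[X] := (relM A).det

/-- constant vectors -/
noncomputable def cv (w : ι → ℤ) : ι → ℤ[X] := fun j => C (w j)

omit [Fintype ι] in
theorem cv_add (w w' : ι → ℤ) : cv (w + w') = cv w + cv w' := by
  ext1 j; simp [cv]

omit [Fintype ι] in
theorem cv_zero : cv (0 : ι → ℤ) = 0 := by
  ext1 j; simp [cv]

theorem cv_relM (A : Matrix ι ι ℤ) (w : ι → ℤ) :
    cv w ᵥ* relM A = cv w - (X : ℤ[X]) • cv (w ᵥ* A) := by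
  rw [relM, Matrix.vecMul_sub, Matrix.vecMul_one, Matrix.vecMul_smul]
  congr 2
  ext1 j
  simp only [Matrix.vecMul, dotProduct, cv, Matrix.map_apply, map_sum, map_mul]

/-- the row space -/
def InRow (A : Matrix ι ι ℤ) (v : ι → ℤ[X]) : Prop := ∃ c : ι → ℤ[X], v = c ᵥ* relM A

theorem InRow.add {A : Matrix ι ι ℤ} {v w : ι → ℤ[X]} (hv : InRow A v) (hw : InRow A w) :
    InRow A (v + w) := by
  obtain ⟨c, rfl⟩ := hv
  obtain ⟨d, rfl⟩ := hw
  exact ⟨c + d, by rw [Matrix.add_vecMul]⟩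

theorem InRow.smul {A : Matrix ι ι ℤ} {v : ι → ℤ[X]} (p : ℤ[X]) (hv : InRow A v) :
    InRow A (p • v) := by
  obtain ⟨c, rfl⟩ := hv
  exact ⟨p • c, by rw [Matrix.smul_vecMul]⟩

theorem inRow_cv (A : Matrix ι ι ℤ) (w : ι → ℤ) (k : ℕ) :
    InRow A (cv w - (X ^ k : ℤ[X]) • cv (w ᵥ* A ^ k)) := by
  induction k with
  | zero =>
    rw [pow_zero, pow_zero, one_smul, Matrix.vecMul_one, sub_self]
    exact ⟨0, by rw [Matrix.zero_vecMul]⟩
  | succ k ih =>
    have h1 : InRow A ((X ^ k : ℤ[X]) • (cv (w ᵥ* A ^ k) -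
        (X : ℤ[X]) • cv (w ᵥ* A ^ k ᵥ* A))) :=
      InRow.smul _ ⟨cv (w ᵥ* A ^ k), (cv_relM A _).symm⟩
    have h2 := ih.add h1
    rw [smul_sub, smul_smul, ← pow_succ, sub_add_sub_cancel, Matrix.vecMul_vecMul,
      ← pow_succ] at h2
    exact h2

theorem exists_top (A : Matrix ι ι ℤ) (D : ℕ) (v : ι → ℤ[X]) (hv : ∀ j, (v j).natDegree ≤ D) :
    ∃ w : ι → ℤ, InRow A (v - (X ^ D : ℤ[X]) • cv w) := by
  induction D generalizing v with
  | zero =>
    refine ⟨fun j => (v j).coeff 0, 0, ?_⟩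
    rw [Matrix.zero_vecMul, pow_zero, one_smul]
    ext1 j
    simp only [Pi.sub_apply, Pi.zero_apply, cv]
    rw [← Polynomial.eq_C_of_natDegree_le_zero (hv j), sub_self]
  | succ D ih =>
    obtain ⟨w, hw⟩ := ih (fun j => (v j).divX) (fun j => by
      rw [Polynomial.natDegree_divX_eq_natDegree_tsub_one]
      have := hv j
      omega)
    refine ⟨w + (fun j => (v j).coeff 0) ᵥ* A ^ (D + 1), ?_⟩
    have h1 := (inRow_cv A (fun j => (v j).coeff 0) (D + 1)).add (hw.smul X)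
    have h2 : v - (X ^ (D + 1) : ℤ[X]) • cv (w + (fun j => (v j).coeff 0) ᵥ* A ^ (D + 1)) =
        cv (fun j => (v j).coeff 0) -
          (X ^ (D + 1) : ℤ[X]) • cv ((fun j => (v j).coeff 0) ᵥ* A ^ (D + 1)) +
        (X : ℤ[X]) • ((fun j => (v j).divX) - (X ^ D : ℤ[X]) • cv w) := by
      funext j
      have h3 : v j = (v j).divX * X + C ((v j).coeff 0) := (Polynomial.divX_mul_X_add (v j)).symm
      simp only [Pi.sub_apply, Pi.add_apply, Pi.smul_apply, smul_eq_mul, cv, map_add]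
      linear_combination h3
    rw [h2]
    exact h1

/-- A module generated by a lattice. -/
theorem relOf_lattice (g : ι → G) (A : Matrix ι ι ℤ)
    (hg : ∀ i, g i = (X : ℤ[X]) • ∑ j, C (A i j) • g j)
    (hX : ∀ z : G, (X : ℤ[X]) • z = 0 → z = 0)
    (hker : ∀ w : ι → ℤ, ∑ j, C (w j) • g j = 0 → ∃ k, w ᵥ* A ^ k = 0)
    (htop : ∀ z : G, ∃ (k : ℕ) (w : ι → ℤ), z = (X ^ k : ℤ[X]) • ∑ j, C (w j) • g j) :
    RelOf (rdet A) g (relM A) := by
  have hrel : ∀ i, ∑ j, relM A i j • g j = 0 := by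
    intro i
    have h1 : ∀ j, relM A i j • g j = (if i = j then g j else 0) - (X : ℤ[X]) • C (A i j) • g j := by
      intro j
      simp only [relM, Matrix.sub_apply, Matrix.one_apply, Matrix.smul_apply, Matrix.map_apply,
        smul_eq_mul, sub_smul, mul_smul]
      congr 1
      split_ifs <;> simp
    rw [Finset.sum_congr rfl fun j _ => h1 j, Finset.sum_sub_distrib, Finset.sum_ite_eq,
      if_pos (Finset.mem_univ _), ← Finset.smul_sum, ← hg, sub_self]
  refine ⟨hrel, fun v hv => ?_, fun z => ?_, rfl⟩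
  · obtain ⟨w, hw⟩ := exists_top A (Finset.univ.sup fun j => (v j).natDegree) v
      (fun j => Finset.le_sup (f := fun j => (v j).natDegree) (Finset.mem_univ j))
    set D := Finset.univ.sup fun j => (v j).natDegree
    have h0 : ∀ u, InRow A u → ∑ j, u j • g j = 0 := by
      rintro u ⟨c, rfl⟩
      exact rel_vecMul hrel c
    have h1 : ∑ j, ((X ^ D : ℤ[X]) • cv w) j • g j = 0 := by
      have h2 := h0 _ hw
      simp only [Pi.sub_apply, sub_smul, Finset.sum_sub_distrib] at h2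
      rw [hv, zero_sub, neg_eq_zero] at h2
      exact h2
    have h2 : (X ^ D : ℤ[X]) • ∑ j, C (w j) • g j = 0 := by
      rw [Finset.smul_sum]
      rw [← h1]
      refine Finset.sum_congr rfl fun j _ => ?_
      rw [Pi.smul_apply, smul_eq_mul, mul_smul]
      rfl
    have h3 : ∀ (D : ℕ) (z : G), (X ^ D : ℤ[X]) • z = 0 → z = 0 := by
      intro D
      induction D with
      | zero => intro z hz; rwa [pow_zero, one_smul] at hz
      | succ D ih =>
        intro z hz
        rw [pow_succ', mul_smul] at hz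
        exact ih z (hX _ hz)
    obtain ⟨k, hk⟩ := hker w (h3 D _ h2)
    have h4 := (inRow_cv A w k).smul (X ^ D : ℤ[X])
    rw [hk, cv_zero, smul_zero, sub_zero] at h4
    have h5 := hw.add h4
    rw [sub_add_cancel] at h5
    exact h5
  · obtain ⟨k, w, hz⟩ := htop z
    refine ⟨fun j => X ^ k * C (w j), ?_⟩
    rw [hz, Finset.smul_sum]
    exact Finset.sum_congr rfl fun j _ => by rw [mul_smul]

end Lattice

section Ext

variable {ι κ : Type} [Fintype ι] [Fintype κ] {K K1 K2 : Type} [AddCommGroup K] [Module ℤ[X] K]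
  [AddCommGroup K1] [Module ℤ[X] K1] [AddCommGroup K2] [Module ℤ[X] K2]

/-- relation matrices of an extension -/
theorem RelOf.extend {δ1 δ2 : ℤ[X]} (i : K1 →ₗ[ℤ[X]] K) (s : K →ₗ[ℤ[X]] K2)
    (hi : Function.Injective i) (hs : Function.Surjective s) (hex : ∀ z, s z = 0 ↔ ∃ n, i n = z)
    {g1 : ι → K1} {M1 : Matrix ι ι ℤ[X]} (h1 : RelOf δ1 g1 M1)
    {g2 : κ → K2} {M2 : Matrix κ κ ℤ[X]} (h2 : RelOf δ2 g2 M2) :
    ∃ (g : ι ⊕ κ → K) (M : Matrix (ι ⊕ κ) (ι ⊕ κ) ℤ[X]), RelOf (δ1 * δ2) g M := by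
  choose g2' hg2' using fun k => hs (g2 k)
  have hs2 : ∀ v : κ → ℤ[X], s (∑ k, v k • g2' k) = ∑ k, v k • g2 k := by
    intro v
    rw [map_sum]
    exact Finset.sum_congr rfl fun k _ => by rw [map_smul, hg2']
  have hi1 : ∀ v : ι → ℤ[X], i (∑ k, v k • g1 k) = ∑ k, v k • i (g1 k) := by
    intro v
    rw [map_sum]
    exact Finset.sum_congr rfl fun k _ => by rw [map_smul]
  have hsi : ∀ n, s (i n) = 0 := fun n => (hex _).2 ⟨n, rfl⟩
  -- lifts of the relations of K2
  have hT : ∀ k, ∃ t : ι → ℤ[X], ∑ l, M2 k l • g2' l = ∑ j, t j • i (g1 j) := by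
    intro k
    have h3 : s (∑ l, M2 k l • g2' l) = 0 := by rw [hs2, h2.rel]
    obtain ⟨n, hn⟩ := (hex _).1 h3
    obtain ⟨t, ht⟩ := h1.top n
    exact ⟨t, by rw [← hn, ht, hi1]⟩
  choose t ht using hT
  refine ⟨Sum.elim (fun j => i (g1 j)) g2', fromBlocks M1 0 (-(of t)) M2, ⟨?_, ?_, ?_, ?_⟩⟩
  · intro a
    rw [Fintype.sum_sum_type]
    rcases a with a | a
    · simp only [fromBlocks_apply₁₁, fromBlocks_apply₁₂, Sum.elim_inl, Sum.elim_inr,
        Matrix.zero_apply, zero_smul, Finset.sum_const_zero, add_zero]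
      rw [← hi1, h1.rel, map_zero]
    · simp only [fromBlocks_apply₂₁, fromBlocks_apply₂₂, Sum.elim_inl, Sum.elim_inr,
        Matrix.neg_apply, of_apply, neg_smul, Finset.sum_neg_distrib]
      rw [← ht, neg_add_cancel]
  · intro v hv
    rw [Fintype.sum_sum_type] at hv
    simp only [Sum.elim_inl, Sum.elim_inr] at hv
    have h3 : ∑ k, v (Sum.inr k) • g2 k = 0 := by
      have h4 := congrArg s hv
      rw [map_add, map_zero, ← hi1 (fun j => v (Sum.inl j)), hsi, zero_add,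
        hs2 (fun k => v (Sum.inr k))] at h4
      exact h4
    obtain ⟨c2, hc2⟩ := h2.span _ h3
    have h5 : ∑ k, v (Sum.inr k) • g2' k = ∑ j, (c2 ᵥ* (of t)) j • i (g1 j) := by
      have h6 : ∀ k, v (Sum.inr k) • g2' k = (c2 ᵥ* M2) k • g2' k := fun k => by
        rw [← congrFun hc2 k]
      rw [Finset.sum_congr rfl fun k _ => h6 k]
      simp only [Matrix.vecMul, dotProduct, Finset.sum_smul, mul_smul, of_apply]
      rw [Finset.sum_comm]
      rw [Finset.sum_comm (f := fun j a => c2 a • t a j • i (g1 j))]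
      refine Finset.sum_congr rfl fun a _ => ?_
      rw [← Finset.smul_sum, ht, Finset.smul_sum]
    have h7 : ∑ j, (v (Sum.inl j) + (c2 ᵥ* (of t)) j) • g1 j = 0 := by
      apply hi
      rw [map_zero, hi1]
      simp only [add_smul, Finset.sum_add_distrib]
      rw [← h5]
      exact hv
    obtain ⟨c1, hc1⟩ := h1.span _ h7
    refine ⟨Sum.elim c1 c2, ?_⟩
    ext1 a
    rw [Matrix.vecMul_fromBlocks]
    rcases a with a | a
    · simp only [Sum.elim_inl, Sum.elim_comp_inl, Sum.elim_comp_inr, Pi.add_apply, Matrix.vecMul_neg,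
        Pi.neg_apply]
      have h8 := congrFun hc1 a
      rw [← h8]
      ring
    · simp only [Sum.elim_inr, Sum.elim_comp_inl, Sum.elim_comp_inr, Matrix.vecMul_zero, zero_add]
      exact congrFun hc2 a
  · intro z
    obtain ⟨v2, hv2⟩ := h2.top (s z)
    have h3 : s (z - ∑ k, v2 k • g2' k) = 0 := by rw [map_sub, hs2, ← hv2, sub_self]
    obtain ⟨n, hn⟩ := (hex _).1 h3
    obtain ⟨v1, hv1⟩ := h1.top n
    refine ⟨Sum.elim v1 v2, ?_⟩
    rw [Fintype.sum_sum_type]
    simp only [Sum.elim_inl, Sum.elim_inr]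
    rw [← hi1, ← hv1, hn, sub_add_cancel]
  · have h9 := det_fromBlocks_zero₁₂ M1 (-(of t)) M2
    rw [h1.det, h2.det] at h9
    exact cast (by congr) h9

/-- the determinant of a presentation is unique -/
theorem RelOf.det_unique {δ1 δ2 : ℤ[X]} {g1 : ι → K} {M1 : Matrix ι ι ℤ[X]}
    (h1 : RelOf δ1 g1 M1) {g2 : κ → K} {M2 : Matrix κ κ ℤ[X]} (h2 : RelOf δ2 g2 M2)
    (c1 : δ1.coeff 0 = 1) (c2 : δ2.coeff 0 = 1) : δ1 = δ2 := by
  have h3 : δ1 ∣ δ2 := by
    have := h1.dvd h2.top M2 h2.rel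
    rwa [h2.det] at this
  have h4 : δ2 ∣ δ1 := by
    have := h2.dvd h1.top M1 h1.rel
    rwa [h1.det] at this
  obtain ⟨u, hu⟩ := associated_of_dvd_dvd h3 h4
  obtain ⟨c, hc, hc2⟩ := Polynomial.isUnit_iff.1 u.isUnit
  rw [← hc2] at hu
  have h5 : c = 1 := by
    have h6 := congrArg (fun p => Polynomial.coeff p 0) hu
    simp only [Polynomial.coeff_mul_C, c1, c2, one_mul] at h6
    exact h6
  rw [h5, map_one, mul_one] at hu
  exact hu

end Ext

end Pool.Agent.FTO
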