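import Pool.Agent.FTO.A0a
import Pool.Agent.FT.EvRange
import Pool.Agent.FT.TraceCond

/-!
# FTO, A0b: the dimension module of a matrix, subquotients
-/

set_option autoImplicit false

open scoped BigOperators
open Matrix Polynomial

namespace Pool.Agent.FTO

open Pool.Agent.SSE Pool.Agent.FT

attribute [local instance] Classical.propDecidable

/-- additive maps commuting with `X` are linear -/
def linOfX {K K' : Type} [AddCommGroup K] [Module ℤ[X] K] [AddCommGroup K'] [Module ℤ[X] K']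
    (f : K →+ K') (h : ∀ z, f ((X : ℤ[X]) • z) = (X : ℤ[X]) • f z) : K →ₗ[ℤ[X]] K' where
  toFun := f
  map_add' := f.map_add
  map_smul' := by
    have h1 : ∀ (n : ℤ) (z : K), f (C n • z) = C n • f z := by
      intro n z
      have h2 : ∀ {G : Type} [AddCommGroup G] [Module ℤ[X] G] (y : G),
          (C n : ℤ[X]) • y = n • y := by
        intro G _ _ y
        rw [← Int.cast_smul_eq_zsmul ℤ[X] n y]
        rfl
      rw [h2, h2, map_zsmul]
    have h2 : ∀ (k : ℕ) (z : K), f ((X ^ k : ℤ[X]) • z) = (X ^ k : ℤ[X]) • f z := by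
      intro k
      induction k with
      | zero => intro z; rw [pow_zero, one_smul, one_smul]
      | succ k ih => intro z; rw [pow_succ, mul_smul, mul_smul, ih, h]
    intro p z
    rw [RingHom.id_apply]
    induction p using Polynomial.induction_on' with
    | add p q hp hq => rw [add_smul, add_smul, map_add, hp, hq]
    | monomial k n => rw [← C_mul_X_pow_eq_monomial, mul_smul, mul_smul, h1, h2]

theorem C_smul {G : Type} [AddCommGroup G] [Module ℤ[X] G] (n : ℤ) (y : G) :
    (C n : ℤ[X]) • y = n • y := by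
  rw [← Int.cast_smul_eq_zsmul ℤ[X] n y]
  rfl

section Dim

variable {n : ℕ} (A : Matrix (Fin n) (Fin n) ℕ)

theorem integral_up {v : Fin n → ℚ} {k l : ℕ} (hkl : k ≤ l)
    (h : ∃ z : Fin n → ℤ, ∀ j, (v ᵥ* (toQ A) ^ k) j = (z j : ℚ)) :
    ∃ z : Fin n → ℤ, ∀ j, (v ᵥ* (toQ A) ^ l) j = (z j : ℚ) := by
  obtain ⟨z, hz⟩ := h
  have hz' : v ᵥ* (toQ A) ^ k = fun j => (z j : ℚ) := funext hz
  refine ⟨z ᵥ* (A ^ (l - k)).map (Nat.cast : ℕ → ℤ), fun j => ?_⟩
  have h1 : v ᵥ* (toQ A) ^ l = v ᵥ* (toQ A) ^ k ᵥ* (toQ A) ^ (l - k) := by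
    rw [Matrix.vecMul_vecMul, ← pow_add, Nat.add_sub_cancel' hkl]
  rw [h1, hz', ← qpow]
  simp only [Matrix.vecMul, dotProduct, toQ, Matrix.map_apply]
  push_cast
  rfl

/-- the dimension group as an additive subgroup -/
def dG : Submodule ℤ (Fin n → ℚ) where
  carrier := dimGroup A
  add_mem' := by
    rintro v w ⟨hv, k, hk⟩ ⟨hw, l, hl⟩
    refine ⟨(evRange A).add_mem hv hw, max k l, ?_⟩
    obtain ⟨z, hz⟩ := integral_up A (le_max_left k l) hk
    obtain ⟨z', hz'⟩ := integral_up A (le_max_right k l) hl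
    refine ⟨z + z', fun j => ?_⟩
    rw [Matrix.add_vecMul, Pi.add_apply, hz, hz', Pi.add_apply]
    push_cast
    rfl
  zero_mem' := ⟨(evRange A).zero_mem, 0, 0, fun j => by simp⟩
  smul_mem' := by
    rintro c v ⟨hv, k, z, hz⟩
    have h1 : (c • v : Fin n → ℚ) = (c : ℚ) • v := (Int.cast_smul_eq_zsmul ℚ c v).symm
    refine ⟨?_, k, c • z, fun j => ?_⟩
    · rw [h1]
      exact (evRange A).smul_mem _ hv
    · rw [h1, Matrix.smul_vecMul, Pi.smul_apply, hz]
      simp

theorem mem_dG {v : Fin n → ℚ} : v ∈ dG A ↔ v ∈ dimGroup A := Iff.rfl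

/-- multiplication by `A` on the dimension group -/
def dA : Module.End ℤ (dG A) where
  toFun v := ⟨(v : Fin n → ℚ) ᵥ* toQ A, by
    obtain ⟨hv, k, hk⟩ := v.2
    refine ⟨evRange_inv A hv, k, ?_⟩
    obtain ⟨z, hz⟩ := integral_up A (Nat.le_succ k) hk
    exact ⟨z, fun j => by rw [Matrix.vecMul_vecMul, ← pow_succ']; exact hz j⟩⟩
  map_add' v w := Subtype.ext (by
    show ((v : Fin n → ℚ) + (w : Fin n → ℚ)) ᵥ* toQ A =
      (v : Fin n → ℚ) ᵥ* toQ A + (w : Fin n → ℚ) ᵥ* toQ A
    rw [Matrix.add_vecMul])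
  map_smul' c v := Subtype.ext (by
    show (c • (v : Fin n → ℚ)) ᵥ* toQ A = c • ((v : Fin n → ℚ) ᵥ* toQ A)
    rw [Matrix.smul_vecMul])

theorem dA_bij : Function.Bijective (dA A) := by
  constructor
  · intro v w h
    apply Subtype.ext
    have h1 : (v : Fin n → ℚ) ᵥ* toQ A = (w : Fin n → ℚ) ᵥ* toQ A := congrArg Subtype.val h
    exact evRange_eq A v.2.1 w.2.1 1 (by rw [pow_one]; exact h1)
  · intro v
    obtain ⟨hv, k, hk⟩ := v.2
    obtain ⟨w, hw, hwv⟩ := sub_surj A le_rfl (fun v hv => evRange_inv A hv) 1 hv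
    rw [pow_one] at hwv
    refine ⟨⟨w, hw, k + 1, ?_⟩, Subtype.ext hwv⟩
    obtain ⟨z, hz⟩ := hk
    exact ⟨z, fun j => by rw [pow_succ', ← Matrix.vecMul_vecMul, hwv]; exact hz j⟩

/-- the inverse of `A` on the dimension group -/
noncomputable def dT : Module.End ℤ (dG A) := (LinearEquiv.ofBijective (dA A) (dA_bij A)).symm

/-- the dimension module, `X` acts as the inverse of `A` -/
abbrev KM : Type := Module.AEval' (dT A)

/-- the vector of an element of the dimension module -/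
noncomputable def val : KM A →+ (Fin n → ℚ) :=
  (dG A).subtype.toAddMonoidHom.comp (Module.AEval'.of (dT A)).symm.toLinearMap.toAddMonoidHom

/-- element with a given vector -/
noncomputable def mk (v : Fin n → ℚ) (hv : v ∈ dimGroup A) : KM A :=
  Module.AEval'.of (dT A) ⟨v, hv⟩

@[simp] theorem val_mk (v : Fin n → ℚ) (hv : v ∈ dimGroup A) : val A (mk A v hv) = v := by
  show (((Module.AEval'.of (dT A)).symm (Module.AEval'.of (dT A) ⟨v, hv⟩) : dG A) : Fin n → ℚ) = v
  rw [LinearEquiv.symm_apply_apply]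

theorem val_inj {z w : KM A} (h : val A z = val A w) : z = w :=
  (Module.AEval'.of (dT A)).symm.injective (Subtype.ext h)

theorem val_mem (z : KM A) : val A z ∈ dimGroup A := ((Module.AEval'.of (dT A)).symm z).2

theorem val_X (z : KM A) : val A ((X : ℤ[X]) • z) ᵥ* toQ A = val A z := by
  obtain ⟨v, rfl⟩ := (Module.AEval'.of (dT A)).surjective z
  rw [Module.AEval'.X_smul_of]
  have h1 : ∀ v : dG A, val A (Module.AEval'.of (dT A) v) = v := fun v => val_mk A v.1 v.2
  rw [h1, h1]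
  exact congrArg Subtype.val ((LinearEquiv.ofBijective (dA A) (dA_bij A)).apply_symm_apply v)

theorem val_X_eq {z : KM A} {v : Fin n → ℚ} (hv : v ∈ evRange A) (h : v ᵥ* toQ A = val A z) :
    val A ((X : ℤ[X]) • z) = v := by
  refine evRange_eq A (val_mem A _).1 hv 1 ?_
  rw [pow_one, val_X, h]

theorem X_inj {z : KM A} (h : (X : ℤ[X]) • z = 0) : z = 0 := by
  apply val_inj A
  rw [← val_X, h, map_zero, Matrix.zero_vecMul]

theorem val_Xk (k : ℕ) (z : KM A) : val A ((X ^ k : ℤ[X]) • z) ᵥ* toQ A ^ k = val A z := by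
  induction k generalizing z with
  | zero => rw [pow_zero, pow_zero, one_smul, Matrix.vecMul_one]
  | succ k ih =>
    rw [pow_succ', mul_smul, pow_succ', ← Matrix.vecMul_vecMul, val_X, ih]

theorem eq_Xk {z y : KM A} {k : ℕ} (h : val A z ᵥ* toQ A ^ k = val A y) :
    z = (X ^ k : ℤ[X]) • y := by
  apply val_inj A
  refine evRange_eq A (val_mem A _).1 (val_mem A _).1 k ?_
  rw [val_Xk, h]

theorem val_C (c : ℤ) (z : KM A) : val A (C c • z) = (c : ℚ) • val A z := by
  rw [C_smul, map_zsmul, Int.cast_smul_eq_zsmul]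

theorem val_comb {ι : Type} [Fintype ι] (w : ι → ℤ) (g : ι → KM A) :
    val A (∑ j, C (w j) • g j) = ∑ j, (w j : ℚ) • val A (g j) := by
  rw [map_sum]
  exact Finset.sum_congr rfl fun j _ => val_C A _ _

/-- the class of the vertex `i` -/
theorem exists_cls (i : Fin n) : ∃ z : KM A, val A z ᵥ* toQ A ^ n = Pi.single i 1 ᵥ* toQ A ^ n := by
  obtain ⟨v, hv, h⟩ := sub_surj A le_rfl (fun v hv => evRange_inv A hv) n
    (mem_evRange_of_le A le_rfl (Pi.single i (1 : ℚ)))
  have hd : v ∈ dimGroup A := by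
    refine ⟨hv, n, fun j => ((A ^ n) i j : ℕ), fun j => ?_⟩
    rw [h, Matrix.single_one_vecMul, ← qpow]
    simp [toQ, Matrix.row]
  exact ⟨mk A v hd, by rw [val_mk, h]⟩

noncomputable def cls (i : Fin n) : KM A := (exists_cls A i).choose

theorem cls_spec (i : Fin n) : val A (cls A i) ᵥ* toQ A ^ n = Pi.single i 1 ᵥ* toQ A ^ n :=
  (exists_cls A i).choose_spec

theorem sum_cls (w : Fin n → ℤ) :
    val A (∑ j, C (w j) • cls A j) ᵥ* toQ A ^ n = (fun j => (w j : ℚ)) ᵥ* toQ A ^ n := by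
  rw [val_comb, Matrix.sum_vecMul]
  have h1 : ∀ j, ((w j : ℚ) • val A (cls A j)) ᵥ* toQ A ^ n =
      ((w j : ℚ) • (Pi.single j 1 : Fin n → ℚ)) ᵥ* toQ A ^ n := by
    intro j
    rw [Matrix.smul_vecMul, Matrix.smul_vecMul, cls_spec]
  rw [Finset.sum_congr rfl fun j _ => h1 j, ← Matrix.sum_vecMul]
  congr 1
  ext1 k
  simp [Finset.sum_apply, Pi.single_apply]

/-- the integral matrix -/
def zM : Matrix (Fin n) (Fin n) ℤ := A.map (Nat.cast : ℕ → ℤ)

theorem zM_pow_vec (w : Fin n → ℤ) (k : ℕ) :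
    (fun j => ((w ᵥ* zM A ^ k) j : ℚ)) = (fun j => (w j : ℚ)) ᵥ* toQ A ^ k := by
  induction k generalizing w with
  | zero => simp
  | succ k ih =>
    rw [pow_succ', ← Matrix.vecMul_vecMul, ih, pow_succ', ← Matrix.vecMul_vecMul]
    congr 1
    ext1 j
    simp [Matrix.vecMul, dotProduct, zM, toQ]

/-- the dimension module is presented by `1 - X A` -/
theorem relOf_cls : RelOf (rdet (zM A)) (cls A) (relM (zM A)) := by
  apply relOf_lattice
  · intro i
    have h1 := eq_Xk A (z := cls A i) (y := ∑ j, C (zM A i j) • cls A j) (k := 1) (by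
      refine evRange_eq A ?_ (val_mem A _).1 n ?_
      · rw [pow_one]
        exact evRange_inv A (val_mem A _).1
      · rw [sum_cls, pow_one, Matrix.vecMul_vecMul, ← pow_succ', pow_succ, ← Matrix.vecMul_vecMul,
          cls_spec, Matrix.vecMul_vecMul, ← pow_succ, pow_succ', ← Matrix.vecMul_vecMul,
          Matrix.single_one_vecMul]
        congr 1)
    rwa [pow_one] at h1
  · intro z h
    exact X_inj A h
  · intro w hw
    refine ⟨n, ?_⟩
    have h1 := sum_cls A w
    rw [hw, map_zero, Matrix.zero_vecMul] at h1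
    ext1 j
    have h2 := congrFun (zM_pow_vec A w n) j
    rw [← h1] at h2
    have h3 : (((w ᵥ* zM A ^ n) j : ℤ) : ℚ) = 0 := h2
    have h4 := Int.cast_eq_zero.mp h3
    exact cast (by congr <;> first | rfl | exact Subsingleton.elim _ _) h4
  · intro z
    obtain ⟨hv, k, y, hy⟩ := val_mem A z
    refine ⟨k, y, eq_Xk A ?_⟩
    have hy' : val A z ᵥ* toQ A ^ k = fun j => (y j : ℚ) := funext hy
    refine evRange_eq A (evRange_pow A hv k) (val_mem A _).1 n ?_
    rw [sum_cls, hy']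

theorem relM_zM : relM (zM A) = IP (ofMat A) := by
  ext i j : 2
  have h1 : SSE.toZ (ofMat A i j) = X * C ((A i j : ℕ) : ℤ) := by
    unfold SSE.toZ ofMat
    rw [Polynomial.map_mul, Polynomial.map_C, Polynomial.map_X, mul_comm]
    simp
  simp only [relM, IP, Matrix.sub_apply, Matrix.one_apply, Matrix.smul_apply, Matrix.map_apply,
    smul_eq_mul, h1, zM]

theorem presOf_cls : PresOf (rdet (zM A)) (cls A) (ofMat A) := by
  refine ⟨isPres_ofMat A, ?_⟩
  have h := relOf_cls A
  rwa [relM_zM] at h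

end Dim

end Pool.Agent.FTO
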