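import Pool.Agent.FTO.A0b

/-!
# FTO, A0c: invariant subspaces of the dimension module
-/

set_option autoImplicit false

open scoped BigOperators
open Matrix Polynomial

namespace Pool.Agent.FTO

open Pool.Agent.SSE Pool.Agent.FT

attribute [local instance] Classical.propDecidable

variable {n : ℕ} (A : Matrix (Fin n) (Fin n) ℕ)

/-- the elements of the dimension module in an invariant subspace -/
noncomputable def subM (W : Submodule ℚ (Fin n → ℚ)) (hW : ∀ w ∈ W, w ᵥ* toQ A ∈ W)
    (hWe : W ≤ evRange A) : Submodule ℤ[X] (KM A) where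
  carrier := {z | val A z ∈ W}
  add_mem' := by
    intro z w hz hw
    show val A (z + w) ∈ W
    rw [map_add]
    exact W.add_mem hz hw
  zero_mem' := by
    show val A 0 ∈ W
    rw [map_zero]
    exact W.zero_mem
  smul_mem' := by
    intro p z hz
    have hX : ∀ z : KM A, val A z ∈ W → val A ((X : ℤ[X]) • z) ∈ W := by
      intro z hz
      obtain ⟨v, hv, h⟩ := sub_surj A hWe hW 1 hz
      rw [pow_one] at h
      rw [val_X_eq A (hWe hv) h]
      exact hv
    show val A (p • z) ∈ W
    have hXk : ∀ (k : ℕ), val A ((X ^ k : ℤ[X]) • z) ∈ W := by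
      intro k
      induction k with
      | zero => rwa [pow_zero, one_smul]
      | succ k ih => rw [pow_succ', mul_smul]; exact hX _ ih
    induction p using Polynomial.induction_on' with
    | add p q hp hq => rw [add_smul, map_add]; exact W.add_mem hp hq
    | monomial k c =>
      rw [← C_mul_X_pow_eq_monomial, mul_smul, val_C]
      exact W.smul_mem _ (hXk k)

variable {A} {W : Submodule ℚ (Fin n → ℚ)} {hW : ∀ w ∈ W, w ᵥ* toQ A ∈ W} {hWe : W ≤ evRange A}

theorem mem_subM {z : KM A} : z ∈ subM A W hW hWe ↔ val A z ∈ W := Iff.rfl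

/-- integral vectors in `W` -/
def lat (W : Submodule ℚ (Fin n → ℚ)) : Submodule ℤ (Fin n → ℤ) where
  carrier := {z | (fun j => (z j : ℚ)) ∈ W}
  add_mem' := by
    intro z w hz hw
    show (fun j => ((z j + w j : ℤ) : ℚ)) ∈ W
    have h : (fun j => ((z j + w j : ℤ) : ℚ)) = (fun j => (z j : ℚ)) + fun j => (w j : ℚ) := by
      funext j; push_cast; rfl
    rw [h]
    exact W.add_mem hz hw
  zero_mem' := by
    show (fun j => (((0 : Fin n → ℤ) j : ℤ) : ℚ)) ∈ W
    have h : (fun j => (((0 : Fin n → ℤ) j : ℤ) : ℚ)) = 0 := by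
      funext j; simp
    rw [h]
    exact W.zero_mem
  smul_mem' := by
    intro c z hz
    show (fun j => (((c • z) j : ℤ) : ℚ)) ∈ W
    have h : (fun j => (((c • z) j : ℤ) : ℚ)) = (c : ℚ) • fun j => (z j : ℚ) := by
      funext j; simp
    rw [h]
    exact W.smul_mem _ hz

theorem mem_lat {z : Fin n → ℤ} : z ∈ lat W ↔ (fun j => (z j : ℚ)) ∈ W := Iff.rfl

theorem lat_mul (hW : ∀ w ∈ W, w ᵥ* toQ A ∈ W) {z : Fin n → ℤ} (hz : z ∈ lat W) :
    z ᵥ* zM A ∈ lat W := by
  rw [mem_lat] at hz ⊢
  have h := zM_pow_vec A z 1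
  rw [pow_one, pow_one] at h
  rw [h]
  exact hW _ hz

/-- the element of the dimension module of an integral vector -/
noncomputable def ofLat (hWe : W ≤ evRange A) (z : Fin n → ℤ) (hz : z ∈ lat W) : KM A :=
  mk A (fun j => (z j : ℚ)) ⟨hWe hz, 0, z, fun j => by rw [pow_zero, Matrix.vecMul_one]⟩

@[simp] theorem val_ofLat (hWe : W ≤ evRange A) (z : Fin n → ℤ) (hz : z ∈ lat W) :
    val A (ofLat hWe z hz) = fun j => (z j : ℚ) := val_mk A _ _

/-- `KN` is presented by an integral matrix -/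
theorem exists_rel_sub (hW : ∀ w ∈ W, w ᵥ* toQ A ∈ W) (hWe : W ≤ evRange A) :
    ∃ (m : ℕ) (AN : Matrix (Fin m) (Fin m) ℤ) (g : Fin m → subM A W hW hWe)
      (bs : Fin m → Fin n → ℤ),
      (∀ i, val A (g i : KM A) = fun j => (bs i j : ℚ)) ∧ LinearIndependent ℤ bs ∧
      (∀ i, bs i ∈ lat W) ∧ (∀ z ∈ lat W, ∃ w : Fin m → ℤ, z = ∑ j, w j • bs j) ∧
      (∀ i, bs i ᵥ* zM A = ∑ j, AN i j • bs j) ∧
      RelOf (rdet AN) g (relM AN) := by
  classical
  obtain ⟨m, b⟩ := Submodule.basisOfPid (Pi.basisFun ℤ (Fin n)) (lat W)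
  let bs : Fin m → Fin n → ℤ := fun i => (b i : Fin n → ℤ)
  have hspan : ∀ z ∈ lat W, ∃ w : Fin m → ℤ, z = ∑ j, w j • bs j := by
    intro z hz
    refine ⟨fun j => b.repr ⟨z, hz⟩ j, ?_⟩
    have h := b.sum_repr ⟨z, hz⟩
    have h2 := congrArg (Submodule.subtype (lat W)) h
    rw [map_sum] at h2
    exact h2.symm
  have hli : LinearIndependent ℤ bs := by
    have := b.linearIndependent
    exact this.map' (Submodule.subtype (lat W)) (Submodule.ker_subtype _)
  have hbW : ∀ i, bs i ∈ lat W := fun i => (b i).2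
  choose AN hAN using fun i => hspan _ (lat_mul hW (hbW i))
  let g : Fin m → subM A W hW hWe := fun i => ⟨ofLat hWe (bs i) (hbW i), by
    rw [mem_subM, val_ofLat]
    exact hbW i⟩
  have hval : ∀ i, val A (g i : KM A) = fun j => (bs i j : ℚ) := fun i =>
    val_ofLat hWe (bs i) (hbW i)
  have hcomb : ∀ w : Fin m → ℤ, val A ((∑ j, C (w j) • g j : subM A W hW hWe) : KM A) =
      fun k => ((∑ j, w j • bs j : Fin n → ℤ) k : ℚ) := by
    intro w
    have h1 : ((∑ j, C (w j) • g j : subM A W hW hWe) : KM A) = ∑ j, C (w j) • (g j : KM A) := by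
      rw [Submodule.coe_sum]
      rfl
    rw [h1, val_comb]
    funext k
    rw [Finset.sum_apply, Finset.sum_apply]
    push_cast
    refine Finset.sum_congr rfl fun j _ => ?_
    rw [Pi.smul_apply, hval, Pi.smul_apply, smul_eq_mul, smul_eq_mul]
    push_cast
    rfl
  refine ⟨m, AN, g, bs, hval, hli, hbW, hspan, fun i => hAN i, ?_⟩
  apply relOf_lattice
  · intro i
    apply Subtype.ext
    have h1 : ((X : ℤ[X]) • ∑ j, C (AN i j) • g j : subM A W hW hWe) =
        ((⟨(X : ℤ[X]) • ((∑ j, C (AN i j) • g j : subM A W hW hWe) : KM A), Submodule.smul_mem _ _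
          (∑ j, C (AN i j) • g j : subM A W hW hWe).2⟩ : subM A W hW hWe)) := rfl
    rw [h1]
    show (g i : KM A) = (X : ℤ[X]) • ((∑ j, C (AN i j) • g j : subM A W hW hWe) : KM A)
    have h2 := eq_Xk A (z := (g i : KM A))
      (y := ((∑ j, C (AN i j) • g j : subM A W hW hWe) : KM A)) (k := 1) (by
        rw [hcomb, hval, pow_one]
        have h3 := zM_pow_vec A (bs i) 1
        rw [pow_one, pow_one] at h3
        rw [← h3, hAN i])
    rwa [pow_one] at h2
  · intro z hz
    apply Subtype.ext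
    exact X_inj A (congrArg Subtype.val hz)
  · intro w hw
    refine ⟨0, ?_⟩
    have h1 := hcomb w
    rw [hw] at h1
    have h2 : ∑ j, w j • bs j = 0 := by
      funext k
      have h3 := congrFun h1 k
      have h4 : val A ((0 : subM A W hW hWe) : KM A) = 0 := map_zero (val A)
      rw [h4] at h3
      have h5 : (((∑ j, w j • bs j : Fin n → ℤ) k : ℤ) : ℚ) = 0 := h3.symm
      exact_mod_cast h5
    have h3 : w = 0 := funext fun j => Fintype.linearIndependent_iff.mp hli w h2 j
    rw [h3, Matrix.zero_vecMul]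
  · intro z
    obtain ⟨hv, k, y, hy⟩ := val_mem A (z : KM A)
    have hy' : val A (z : KM A) ᵥ* toQ A ^ k = fun j => (y j : ℚ) := funext hy
    have hyW : y ∈ lat W := by
      rw [mem_lat, ← hy']
      have h1 : ∀ k, val A (z : KM A) ᵥ* toQ A ^ k ∈ W := by
        intro k
        induction k with
        | zero => rw [pow_zero, Matrix.vecMul_one]; exact z.2
        | succ k ih => rw [pow_succ, ← Matrix.vecMul_vecMul]; exact hW _ ih
      exact h1 k
    obtain ⟨w, hw⟩ := hspan y hyW
    refine ⟨k, w, ?_⟩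
    apply Subtype.ext
    show (z : KM A) = (X ^ k : ℤ[X]) • ((∑ j, C (w j) • g j : subM A W hW hWe) : KM A)
    apply eq_Xk A
    rw [hcomb, hy', ← hw]

end Pool.Agent.FTO
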