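import Pool.Agent.FTO.G4

/-!
# FTO: the adapted basis of a fibre structure

`bv i` is a basis of the row vectors with coordinates `co`; the indices of type `2` give a basis of
`NN`, those of type `1` (one for every vertex `j`, namely `jj j`) a transversal over `j`, those of
type `0` a complement of `MM`. A matrix is structured over `Q` iff it is block triangular in this
basis with middle block `Q`.
-/

set_option autoImplicit false
set_option linter.unusedSectionVars false

open scoped BigOperators
open Matrix Polynomial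

namespace Pool.Agent.FTO

attribute [local instance] Classical.propDecidable

variable {I J : Type} [Fintype I] [Fintype J]

namespace Str

variable (S : Str I J)

/-- types of the indices: `2` for `NN`, `1` for the vertices, `0` for the complement of `MM` -/
noncomputable def typ (i : I) : Fin 3 :=
  if i ≠ S.base (S.blk i) then 2
  else if S.blk i ≠ S.rep (S.cmp (S.blk i)) then 0
  else if S.cmp (S.blk i) ≠ S.c0 (S.pr i) then 2 else 1

/-- the index of type `1` over `j` -/
noncomputable def jj (j : J) : I := S.base (S.rep (S.c0 j))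

/-- the base transversal of a component -/
noncomputable def TT (a : S.Co) (i : I) : ℕ :=
  if i = S.base (S.blk i) ∧ S.cmp (S.blk i) = a then 1 else 0

section ring

variable {R : Type} [CommRing R]

/-- the adapted basis -/
noncomputable def bv (i : I) : I → R :=
  if i ≠ S.base (S.blk i) then Pi.single i 1 - Pi.single (S.base (S.blk i)) 1
  else if S.blk i ≠ S.rep (S.cmp (S.blk i)) then Pi.single i 1
  else if S.cmp (S.blk i) ≠ S.c0 (S.pr i) then
    (fun k => ((S.TT (S.cmp (S.blk i)) k : ℕ) : R)) - fun k => ((S.TT (S.c0 (S.pr i)) k : ℕ) : R)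
  else fun k => ((S.TT (S.cmp (S.blk i)) k : ℕ) : R)

/-- the coordinates with respect to the adapted basis -/
noncomputable def co (v : I → R) (i : I) : R :=
  if i ≠ S.base (S.blk i) then v i
  else if S.blk i ≠ S.rep (S.cmp (S.blk i)) then
    S.bs v (S.blk i) - S.bs v (S.rep (S.cmp (S.blk i)))
  else if S.cmp (S.blk i) ≠ S.c0 (S.pr i) then S.bs v (S.blk i)
  else S.deg v (S.pr i)

variable (R)

/-- the matrix of the adapted basis -/
noncomputable def CM : Matrix I I R := of fun i k => S.bv i k

/-- its inverse -/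
noncomputable def CI : Matrix I I R := of fun k i => S.co (Pi.single k 1 : I → R) i

variable {R}

theorem pr_base (b : S.Bl) : S.pr (S.base b) = S.fib (S.cmp b) := by
  rw [pr, blk_base]

theorem blk_jj (j : J) : S.blk (S.jj j) = S.rep (S.c0 j) := S.blk_base _

theorem cmp_jj (j : J) : S.cmp (S.blk (S.jj j)) = S.c0 j := by
  rw [blk_jj, cmp_rep]

theorem pr_jj (j : J) : S.pr (S.jj j) = j := by
  rw [pr, cmp_jj, fib_c0]

theorem typ_jj (j : J) : S.typ (S.jj j) = 1 := by
  unfold typ
  rw [if_neg, if_neg, if_neg]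
  · rw [cmp_jj, pr_jj]
    exact not_not.2 rfl
  · rw [cmp_jj, blk_jj]
    exact not_not.2 rfl
  · rw [blk_jj]
    exact not_not.2 rfl

theorem typ_cases (i : I) :
    (S.typ i = 2 ∧ i ≠ S.base (S.blk i)) ∨
    (S.typ i = 0 ∧ i = S.base (S.blk i) ∧ S.blk i ≠ S.rep (S.cmp (S.blk i))) ∨
    (S.typ i = 2 ∧ i = S.base (S.blk i) ∧ S.blk i = S.rep (S.cmp (S.blk i)) ∧
      S.cmp (S.blk i) ≠ S.c0 (S.pr i)) ∨
    (S.typ i = 1 ∧ i = S.base (S.blk i) ∧ S.blk i = S.rep (S.cmp (S.blk i)) ∧
      S.cmp (S.blk i) = S.c0 (S.pr i) ∧ i = S.jj (S.pr i)) := by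
  unfold typ
  by_cases h1 : i ≠ S.base (S.blk i)
  · left
    exact ⟨if_pos h1, h1⟩
  · rw [if_neg h1]
    have h1' := not_not.1 h1
    by_cases h2 : S.blk i ≠ S.rep (S.cmp (S.blk i))
    · right; left
      exact ⟨if_pos h2, h1', h2⟩
    · rw [if_neg h2]
      have h2' := not_not.1 h2
      by_cases h3 : S.cmp (S.blk i) ≠ S.c0 (S.pr i)
      · right; right; left
        exact ⟨if_pos h3, h1', h2', h3⟩
      · have h3' := not_not.1 h3
        right; right; right
        refine ⟨if_neg h3, h1', h2', h3', ?_⟩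
        rw [jj, ← h3', ← h2', ← h1']

theorem typ_eq_one {i : I} (h : S.typ i = 1) : i = S.jj (S.pr i) := by
  rcases S.typ_cases i with h' | h' | h' | h'
  · rw [h'.1] at h
    exact absurd h (by decide)
  · rw [h'.1] at h
    exact absurd h (by decide)
  · rw [h'.1] at h
    exact absurd h (by decide)
  · exact h'.2.2.2.2

/-! ### linearity -/

theorem bs_add (v w : I → R) (b : S.Bl) : S.bs (v + w) b = S.bs v b + S.bs w b := by
  unfold bs
  rw [← Finset.sum_add_distrib]
  refine Finset.sum_congr rfl fun i _ => ?_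
  split_ifs <;> simp

theorem bs_sub (v w : I → R) (b : S.Bl) : S.bs (v - w) b = S.bs v b - S.bs w b := by
  unfold bs
  rw [← Finset.sum_sub_distrib]
  refine Finset.sum_congr rfl fun i _ => ?_
  split_ifs <;> simp

theorem bs_smul (c : R) (v : I → R) (b : S.Bl) : S.bs (c • v) b = c * S.bs v b := by
  unfold bs
  rw [Finset.mul_sum]
  refine Finset.sum_congr rfl fun i _ => ?_
  split_ifs <;> simp

theorem bs_single (k : I) (c : R) (b : S.Bl) :
    S.bs (Pi.single k c : I → R) b = if S.blk k = b then c else 0 := by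
  unfold bs
  rw [Finset.sum_eq_single k]
  · rw [Pi.single_eq_same]
  · intro i _ hi
    rw [Pi.single_eq_of_ne hi, ite_self]
  · intro h
    exact absurd (Finset.mem_univ _) h

theorem bs_TT (a : S.Co) (b : S.Bl) :
    S.bs (fun k => ((S.TT a k : ℕ) : R)) b = if S.cmp b = a then 1 else 0 := by
  unfold bs
  rw [Finset.sum_eq_single (S.base b)]
  · rw [if_pos (S.blk_base b)]
    show ((S.TT a (S.base b) : ℕ) : R) = _
    rw [TT, S.blk_base]
    by_cases h : S.cmp b = a
    · rw [if_pos h, if_pos ⟨rfl, h⟩, Nat.cast_one]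
    · rw [if_neg h, if_neg (fun h' => h h'.2), Nat.cast_zero]
  · intro i _ hi
    by_cases h : S.blk i = b
    · rw [if_pos h]
      show ((S.TT a i : ℕ) : R) = _
      rw [TT, if_neg, Nat.cast_zero]
      rintro ⟨h1, -⟩
      rw [h] at h1
      exact hi h1
    · rw [if_neg h]
  · intro h
    exact absurd (Finset.mem_univ _) h

theorem deg_add (v w : I → R) (j : J) : S.deg (v + w) j = S.deg v j + S.deg w j := by
  unfold deg
  rw [← Finset.sum_add_distrib]
  refine Finset.sum_congr rfl fun i _ => ?_
  rw [bs_add]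
  split_ifs <;> simp

theorem deg_sub (v w : I → R) (j : J) : S.deg (v - w) j = S.deg v j - S.deg w j := by
  unfold deg
  rw [← Finset.sum_sub_distrib]
  refine Finset.sum_congr rfl fun i _ => ?_
  rw [bs_sub]
  split_ifs <;> simp

theorem deg_smul (c : R) (v : I → R) (j : J) : S.deg (c • v) j = c * S.deg v j := by
  unfold deg
  rw [Finset.mul_sum]
  refine Finset.sum_congr rfl fun i _ => ?_
  rw [bs_smul]
  split_ifs <;> simp

theorem deg_TT (a : S.Co) (j : J) :
    S.deg (fun k => ((S.TT a k : ℕ) : R)) j = if S.fib a = j then 1 else 0 := by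
  unfold deg
  rw [Finset.sum_eq_single a]
  · rw [bs_TT, S.cmp_rep, if_pos rfl]
  · intro a' _ ha
    rw [bs_TT, S.cmp_rep, if_neg ha, ite_self]
  · intro h
    exact absurd (Finset.mem_univ _) h

/-- `co` as a linear map -/
noncomputable def coL : (I → R) →ₗ[R] (I → R) where
  toFun := S.co
  map_add' := by
    intro v w
    funext i
    simp only [co, bs_add, deg_add, Pi.add_apply]
    split_ifs <;> ring
  map_smul' := by
    intro c v
    funext i
    simp only [co, bs_smul, deg_smul, Pi.smul_apply, smul_eq_mul, RingHom.id_apply]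
    split_ifs <;> ring

theorem vecMul_CI (v : I → R) : v ᵥ* S.CI R = S.co v := by
  have h := LinearMap.pi_apply_eq_sum_univ (S.coL (R := R)) v
  have h1 : S.coL v = S.co v := rfl
  rw [← h1, h]
  funext i
  rw [Matrix.vecMul, dotProduct, Finset.sum_apply]
  refine Finset.sum_congr rfl fun k _ => ?_
  rw [Pi.smul_apply, smul_eq_mul]
  congr 1
  show S.co (Pi.single k 1 : I → R) i = S.co (fun j => if k = j then 1 else 0) i
  congr 1
  funext k'
  rw [Pi.single_apply]
  simp only [eq_comm]

theorem co_bv (i i' : I) : S.co (S.bv (R := R) i) i' = if i = i' then 1 else 0 := by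
  rcases S.typ_cases i with ⟨-, h1⟩ | ⟨-, h1, h2⟩ | ⟨-, h1, h2, h3⟩ | ⟨-, h1, h2, h3, -⟩
  · -- difference of two elements of a block
    have hb : S.bv (R := R) i = Pi.single i 1 - Pi.single (S.base (S.blk i)) 1 := if_pos h1
    have hbs : ∀ b, S.bs (S.bv (R := R) i) b = 0 := by
      intro b
      rw [hb, bs_sub, bs_single, bs_single, S.blk_base, sub_self]
    have hdeg : ∀ j, S.deg (S.bv (R := R) i) j = 0 := by
      intro j
      unfold deg
      refine Finset.sum_eq_zero fun a _ => ?_
      rw [hbs, ite_self]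
    rcases S.typ_cases i' with ⟨-, k1⟩ | ⟨-, k1, k2⟩ | ⟨-, k1, k2, k3⟩ | ⟨-, k1, k2, k3, -⟩
    · rw [co, if_pos k1, hb, Pi.sub_apply]
      have h4 : i' ≠ S.base (S.blk i) := by
        intro h
        apply k1
        rw [h, S.blk_base]
      rw [Pi.single_eq_of_ne h4, sub_zero, Pi.single_apply]
      simp only [eq_comm]
    · rw [co, if_neg (not_not.2 k1), if_pos k2, hbs, hbs, sub_zero, if_neg]
      rintro rfl
      exact h1 k1
    · rw [co, if_neg (not_not.2 k1), if_neg (not_not.2 k2), if_pos k3, hbs, if_neg]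
      rintro rfl
      exact h1 k1
    · rw [co, if_neg (not_not.2 k1), if_neg (not_not.2 k2), if_neg (not_not.2 k3), hdeg, if_neg]
      rintro rfl
      exact h1 k1
  · -- base of a block which is not the chosen one
    have hb : S.bv (R := R) i = Pi.single i 1 := by
      rw [bv, if_neg (not_not.2 h1), if_pos h2]
    have hrep : ∀ a, S.blk i ≠ S.rep a := by
      intro a h
      apply h2
      rw [h, S.cmp_rep]
    have hdeg : ∀ j, S.deg (S.bv (R := R) i) j = 0 := by
      intro j
      unfold deg
      refine Finset.sum_eq_zero fun a _ => ?_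
      rw [hb, bs_single, if_neg (hrep a), ite_self]
    rcases S.typ_cases i' with ⟨-, k1⟩ | ⟨-, k1, k2⟩ | ⟨-, k1, k2, k3⟩ | ⟨-, k1, k2, k3, -⟩
    · rw [co, if_pos k1, hb, Pi.single_apply]
      simp only [eq_comm]
    · rw [co, if_neg (not_not.2 k1), if_pos k2, hb, bs_single, bs_single, if_neg (hrep _), sub_zero]
      by_cases h : i = i'
      · rw [if_pos h, if_pos (by rw [h])]
      · rw [if_neg h, if_neg]
        intro h'
        apply h
        rw [h1, h', ← k1]
    · rw [co, if_neg (not_not.2 k1), if_neg (not_not.2 k2), if_pos k3, hb, bs_single, if_neg,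
        if_neg]
      · rintro rfl
        exact h2 k2
      · intro h
        exact hrep _ (h.trans k2)
    · rw [co, if_neg (not_not.2 k1), if_neg (not_not.2 k2), if_neg (not_not.2 k3), hdeg, if_neg]
      rintro rfl
      exact h2 k2
  · -- difference of two transversals
    have hb : S.bv (R := R) i = (fun k => ((S.TT (S.cmp (S.blk i)) k : ℕ) : R)) -
        fun k => ((S.TT (S.c0 (S.pr i)) k : ℕ) : R) := by
      rw [bv, if_neg (not_not.2 h1), if_neg (not_not.2 h2), if_pos h3]
    have hbs : ∀ b, S.bs (S.bv (R := R) i) b = (if S.cmp b = S.cmp (S.blk i) then 1 else 0) -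
        if S.cmp b = S.c0 (S.pr i) then 1 else 0 := by
      intro b
      rw [hb, bs_sub, bs_TT, bs_TT]
    rcases S.typ_cases i' with ⟨-, k1⟩ | ⟨-, k1, k2⟩ | ⟨-, k1, k2, k3⟩ | ⟨-, k1, k2, k3, -⟩
    · rw [co, if_pos k1, hb, Pi.sub_apply, TT, TT, if_neg (fun h => k1 h.1),
        if_neg (fun h => k1 h.1), sub_self, if_neg]
      rintro rfl
      exact k1 h1
    · rw [co, if_neg (not_not.2 k1), if_pos k2, hbs, hbs, S.cmp_rep, sub_self, if_neg]
      rintro rfl
      exact k2 h2
    · rw [co, if_neg (not_not.2 k1), if_neg (not_not.2 k2), if_pos k3, hbs]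
      have h5 : S.cmp (S.blk i') ≠ S.c0 (S.pr i) := by
        intro h
        apply k3
        have h6 : S.pr i' = S.pr i := by rw [pr, h, fib_c0]
        rw [h6, h]
      rw [if_neg h5, sub_zero]
      by_cases h : i = i'
      · rw [if_pos h, if_pos (by rw [h])]
      · rw [if_neg h, if_neg]
        intro h'
        apply h
        rw [h1, h2, ← h', ← k2, ← k1]
    · rw [co, if_neg (not_not.2 k1), if_neg (not_not.2 k2), if_neg (not_not.2 k3), hb, deg_sub,
        deg_TT, deg_TT, fib_c0, if_neg (c := i = i')]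
      · exact sub_self _
      · rintro rfl
        exact h3 k3
  · have hb : S.bv (R := R) i = fun k => ((S.TT (S.cmp (S.blk i)) k : ℕ) : R) := by
      rw [bv, if_neg (not_not.2 h1), if_neg (not_not.2 h2), if_neg (not_not.2 h3)]
    rcases S.typ_cases i' with ⟨-, k1⟩ | ⟨-, k1, k2⟩ | ⟨-, k1, k2, k3⟩ | ⟨-, k1, k2, k3, -⟩
    · rw [co, if_pos k1, hb]
      show ((S.TT _ i' : ℕ) : R) = _
      rw [TT, if_neg (fun h => k1 h.1), if_neg, Nat.cast_zero]
      rintro rfl
      exact k1 h1
    · rw [co, if_neg (not_not.2 k1), if_pos k2, hb, bs_TT, bs_TT, S.cmp_rep, sub_self, if_neg]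
      rintro rfl
      exact k2 h2
    · rw [co, if_neg (not_not.2 k1), if_neg (not_not.2 k2), if_pos k3, hb, bs_TT, if_neg, if_neg]
      · rintro rfl
        exact k3 h3
      · intro h
        apply k3
        have h6 : S.pr i' = S.pr i := by rw [pr, h, pr]
        rw [h6, h, h3]
    · rw [co, if_neg (not_not.2 k1), if_neg (not_not.2 k2), if_neg (not_not.2 k3), hb, deg_TT]
      by_cases h : i = i'
      · rw [if_pos h, if_pos (by rw [h, pr])]
      · rw [if_neg h, if_neg]
        intro h'
        apply h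
        have h6 : S.pr i = S.pr i' := h'
        rw [h1, h2, h3, h6, ← k3, ← k2, ← k1]

theorem CM_mul_CI : S.CM R * S.CI R = 1 := by
  ext i i'
  have h := congrFun (S.vecMul_CI (S.bv (R := R) i)) i'
  rw [co_bv] at h
  rw [Matrix.mul_apply, Matrix.one_apply, ← h]
  rfl

theorem CI_mul_CM : S.CI R * S.CM R = 1 := mul_eq_one_comm.1 S.CM_mul_CI

/-- expansion in the adapted basis -/
theorem eq_sum_bv (v : I → R) : v = ∑ i, S.co v i • S.bv i := by
  have h : v ᵥ* S.CI R ᵥ* S.CM R = v := by
    rw [Matrix.vecMul_vecMul, CI_mul_CM, Matrix.vecMul_one]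
  rw [vecMul_CI] at h
  conv_lhs => rw [← h]
  funext k
  rw [Matrix.vecMul, dotProduct, Finset.sum_apply]
  rfl

theorem conj_apply (P : Matrix I I R) (i i' : I) :
    (S.CM R * P * S.CI R) i i' = S.co (S.bv i ᵥ* P) i' := by
  rw [← vecMul_CI]
  rfl

/-! ### `MM` in coordinates -/

theorem inM_iff (v : I → R) : S.InM v ↔ ∀ i, S.typ i = 0 → S.co v i = 0 := by
  constructor
  · intro h i hi
    rcases S.typ_cases i with h' | h' | h' | h'
    · rw [h'.1] at hi
      exact absurd hi (by decide)
    · rw [co, if_neg (not_not.2 h'.2.1), if_pos h'.2.2, sub_eq_zero]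
      exact h _ _ (by rw [S.cmp_rep])
    · rw [h'.1] at hi
      exact absurd hi (by decide)
    · rw [h'.1] at hi
      exact absurd hi (by decide)
  · intro h
    have key : ∀ b, S.bs v b = S.bs v (S.rep (S.cmp b)) := by
      intro b
      by_cases hb : b = S.rep (S.cmp b)
      · exact congrArg _ hb
      · have h1 : S.blk (S.base b) = b := S.blk_base b
        have h2 : S.base b = S.base (S.blk (S.base b)) := by rw [h1]
        have h3 : S.blk (S.base b) ≠ S.rep (S.cmp (S.blk (S.base b))) := by rwa [h1]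
        have h4 := h (S.base b) (by rw [typ, if_neg (not_not.2 h2), if_pos h3])
        rw [co, if_neg (not_not.2 h2), if_pos h3, h1, sub_eq_zero] at h4
        exact h4
    intro b b' hb
    rw [key b, key b', hb]

theorem co_jj (v : I → R) (j : J) : S.co v (S.jj j) = S.deg v j := by
  rw [co, if_neg, if_neg, if_neg, pr_jj]
  · rw [cmp_jj, pr_jj]
    exact not_not.2 rfl
  · rw [cmp_jj, blk_jj]
    exact not_not.2 rfl
  · rw [blk_jj]
    exact not_not.2 rfl

theorem tr_TT (a : S.Co) : S.Tr a (S.TT a) := by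
  constructor
  · intro b hb
    unfold bs
    rw [Finset.sum_eq_single (S.base b)]
    · rw [if_pos (S.blk_base b), TT, S.blk_base, if_pos ⟨rfl, hb⟩]
    · intro i _ hi
      by_cases h : S.blk i = b
      · rw [if_pos h, TT, if_neg]
        rintro ⟨h1, -⟩
        rw [h] at h1
        exact hi h1
      · rw [if_neg h]
    · intro h
      exact absurd (Finset.mem_univ _) h
  · intro i hi
    rw [TT, if_neg]
    rintro ⟨-, h⟩
    exact hi h

/-- the base transversal with one element exchanged -/
noncomputable def TX (i k : I) : ℕ :=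
  if k = i ∨ (k = S.base (S.blk k) ∧ S.cmp (S.blk k) = S.cmp (S.blk i) ∧ S.blk k ≠ S.blk i)
  then 1 else 0

theorem tr_TX (i : I) : S.Tr (S.cmp (S.blk i)) (S.TX i) := by
  constructor
  · intro b hb
    unfold bs
    by_cases hbi : b = S.blk i
    · rw [Finset.sum_eq_single i]
      · rw [if_pos hbi.symm, TX, if_pos (Or.inl rfl)]
      · intro k _ hk
        by_cases h : S.blk k = b
        · rw [if_pos h, TX, if_neg]
          rintro (h1 | ⟨-, -, h1⟩)
          · exact hk h1
          · exact h1 (h.trans hbi)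
        · rw [if_neg h]
      · intro h
        exact absurd (Finset.mem_univ _) h
    · rw [Finset.sum_eq_single (S.base b)]
      · rw [if_pos (S.blk_base b), TX, if_pos]
        right
        rw [S.blk_base]
        exact ⟨rfl, hb, hbi⟩
      · intro k _ hk
        by_cases h : S.blk k = b
        · rw [if_pos h, TX, if_neg]
          rintro (h1 | ⟨h1, -, -⟩)
          · rw [h1] at h
            exact hbi h.symm
          · rw [h] at h1
            exact hk h1
        · rw [if_neg h]
      · intro h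
        exact absurd (Finset.mem_univ _) h
  · intro k hk
    rw [TX, if_neg]
    rintro (h1 | ⟨-, h1, -⟩)
    · rw [h1] at hk
      exact hk rfl
    · exact hk h1

theorem TX_sub (i : I) : (fun k => ((S.TX i k : ℕ) : R)) -
    (fun k => ((S.TT (S.cmp (S.blk i)) k : ℕ) : R)) =
    Pi.single i 1 - Pi.single (S.base (S.blk i)) 1 := by
  funext k
  simp only [Pi.sub_apply, TX, TT, Pi.single_apply]
  by_cases h1 : k = i
  · subst h1
    rw [if_pos (Or.inl rfl), if_pos rfl, Nat.cast_one]
    by_cases h2 : k = S.base (S.blk k)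
    · rw [if_pos ⟨h2, rfl⟩, if_pos h2, Nat.cast_one]
    · rw [if_neg (fun h => h2 h.1), if_neg h2, Nat.cast_zero]
  · rw [if_neg h1]
    by_cases h2 : k = S.base (S.blk i)
    · have h3 : S.blk k = S.blk i := by rw [h2, S.blk_base]
      rw [if_pos h2, if_pos (c := k = S.base (S.blk k) ∧ _), if_neg, Nat.cast_zero, Nat.cast_one]
      · rintro (h | ⟨-, -, h⟩)
        · exact h1 h
        · exact h h3
      · rw [h3]
        exact ⟨h2, rfl⟩
    · rw [if_neg h2]
      by_cases h3 : k = S.base (S.blk k) ∧ S.cmp (S.blk k) = S.cmp (S.blk i)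
      · have h4 : S.blk k ≠ S.blk i := by
          intro h
          apply h2
          rw [← h]
          exact h3.1
        rw [if_pos (Or.inr ⟨h3.1, h3.2, h4⟩), if_pos h3, sub_self, sub_zero]
      · rw [if_neg h3, if_neg, sub_self, sub_zero]
        rintro (h | ⟨h, h', -⟩)
        · exact h1 h
        · exact h3 ⟨h, h'⟩

/-- vectors of type `2` are differences of transversals over the same vertex -/
theorem bv_two {i : I} (h : S.typ i = 2) : ∃ v w : I → ℕ, S.InL (S.pr i) v ∧ S.InL (S.pr i) w ∧
    S.bv (R := R) i = (fun k => ((v k : ℕ) : R)) - fun k => ((w k : ℕ) : R) := by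
  rcases S.typ_cases i with h' | h' | h' | h'
  · refine ⟨S.TX i, S.TT (S.cmp (S.blk i)), ⟨_, rfl, S.tr_TX i⟩, ⟨_, rfl, S.tr_TT _⟩, ?_⟩
    rw [TX_sub, bv, if_pos h'.2]
  · rw [h'.1] at h
    exact absurd h (by decide)
  · refine ⟨S.TT (S.cmp (S.blk i)), S.TT (S.c0 (S.pr i)), ⟨_, rfl, S.tr_TT _⟩,
      ⟨_, S.fib_c0 _, S.tr_TT _⟩, ?_⟩
    rw [bv, if_neg (not_not.2 h'.2.1), if_neg (not_not.2 h'.2.2.1), if_pos h'.2.2.2]
  · rw [h'.1] at h
    exact absurd h (by decide)

theorem bv_jj (j : J) : S.bv (R := R) (S.jj j) = fun k => ((S.TT (S.c0 j) k : ℕ) : R) := by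
  rw [bv, if_neg, if_neg, if_neg, cmp_jj]
  · rw [cmp_jj, pr_jj]
    exact not_not.2 rfl
  · rw [cmp_jj, blk_jj]
    exact not_not.2 rfl
  · rw [blk_jj]
    exact not_not.2 rfl

theorem inL_TT (j : J) : S.InL j (S.TT (S.c0 j)) := ⟨_, S.fib_c0 j, S.tr_TT _⟩

theorem bs_cast (v : I → ℕ) (b : S.Bl) :
    S.bs (fun k => ((v k : ℕ) : R)) b = ((S.bs v b : ℕ) : R) := by
  unfold bs
  rw [Nat.cast_sum]
  refine Finset.sum_congr rfl fun i _ => ?_
  split_ifs <;> simp

theorem inL_inM {j : J} {v : I → ℕ} (h : S.InL j v) : S.InM (fun k => ((v k : ℕ) : R)) := by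
  obtain ⟨a, ha, h1, h2⟩ := h
  have key : ∀ b, S.bs v b = if S.cmp b = a then 1 else 0 := by
    intro b
    by_cases hb : S.cmp b = a
    · rw [if_pos hb, h1 b hb]
    · rw [if_neg hb]
      unfold bs
      refine Finset.sum_eq_zero fun i _ => ?_
      by_cases hi : S.blk i = b
      · rw [if_pos hi]
        apply h2
        rwa [hi]
      · rw [if_neg hi]
  intro b b' hb
  rw [bs_cast, bs_cast, key, key, hb]

theorem inL_deg {j : J} {v : I → ℕ} (h : S.InL j v) (j' : J) :
    S.deg (fun k => ((v k : ℕ) : R)) j' = if j = j' then 1 else 0 := by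
  obtain ⟨a, ha, h1, h2⟩ := h
  unfold deg
  rw [Finset.sum_eq_single a]
  · rw [bs_cast, h1 _ (S.cmp_rep a), ha, Nat.cast_one]
  · intro a' _ haa
    have : S.bs v (S.rep a') = 0 := by
      unfold bs
      refine Finset.sum_eq_zero fun i _ => ?_
      by_cases hi : S.blk i = S.rep a'
      · rw [if_pos hi]
        apply h2
        rw [hi, S.cmp_rep]
        exact haa
      · rw [if_neg hi]
    rw [bs_cast, this, Nat.cast_zero, ite_self]
  · intro h
    exact absurd (Finset.mem_univ _) h

end ring

end Str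

section

variable {R : Type} [CommRing R] {S : Str I J} {P : Matrix I I R} {Q : Matrix J J R}

theorem inM_sub {v w : I → R} (hv : S.InM v) (hw : S.InM w) : S.InM (v - w) := by
  intro b b' hb
  rw [S.bs_sub, S.bs_sub, hv b b' hb, hw b b' hb]

/-- structured matrices in the adapted basis -/
theorem structured_iff :
    Structured S P Q ↔
      (∀ i i', S.typ i' < S.typ i → (S.CM R * P * S.CI R) i i' = 0) ∧
      ∀ j j', (S.CM R * P * S.CI R) (S.jj j) (S.jj j') = Q j j' := by
  constructor
  · intro h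
    have h2 : ∀ i i', S.typ i = 2 → S.typ i' < 2 → (S.CM R * P * S.CI R) i i' = 0 := by
      intro i i' hi hi'
      rw [S.conj_apply]
      obtain ⟨v, w, hv, hw, hb⟩ := S.bv_two (R := R) hi
      rw [hb, Matrix.sub_vecMul]
      obtain ⟨hv1, hv2⟩ := h _ v hv
      obtain ⟨hw1, hw2⟩ := h _ w hw
      rcases lt_or_eq_of_le (Fin.le_iff_val_le_val.2 (show (S.typ i').val ≤ 1 from by
        have := Fin.lt_def.1 hi'
        have h2 : ((2 : Fin 3) : ℕ) = 2 := rfl
        omega) : S.typ i' ≤ 1) with h0 | h0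
      · have h00 : S.typ i' = 0 := by
          apply Fin.ext
          have := Fin.lt_def.1 h0
          have h2 : ((1 : Fin 3) : ℕ) = 1 := rfl
          show (S.typ i').val = 0
          omega
        exact (S.inM_iff _).1 (inM_sub hv1 hw1) i' h00
      · rw [S.typ_eq_one h0, S.co_jj, S.deg_sub, hv2, hw2, sub_self]
    refine ⟨?_, ?_⟩
    · intro i i' hlt
      rcases S.typ_cases i with h' | h' | h' | h'
      · rw [h'.1] at hlt
        exact h2 i i' h'.1 hlt
      · rw [h'.1] at hlt
        exact absurd hlt (Fin.not_lt_zero _)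
      · rw [h'.1] at hlt
        exact h2 i i' h'.1 hlt
      · rw [h'.1] at hlt
        have h00 : S.typ i' = 0 := by
          apply Fin.ext
          have := Fin.lt_def.1 hlt
          have h2 : ((1 : Fin 3) : ℕ) = 1 := rfl
          show (S.typ i').val = 0
          omega
        rw [S.conj_apply, h'.2.2.2.2, S.bv_jj]
        exact (S.inM_iff _).1 (h _ _ (S.inL_TT _)).1 i' h00
    · intro j j'
      rw [S.conj_apply, S.bv_jj, S.co_jj]
      exact (h _ _ (S.inL_TT _)).2 j'
  · rintro ⟨h1, h2⟩ j v hv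
    have hco : ∀ i', S.co ((fun i => ((v i : ℕ) : R)) ᵥ* P) i' =
        ∑ i, S.co (fun i => ((v i : ℕ) : R)) i * (S.CM R * P * S.CI R) i i' := by
      intro i'
      have h3 : (fun i => ((v i : ℕ) : R)) ᵥ* P =
          S.co (fun i => ((v i : ℕ) : R)) ᵥ* (S.CM R * P) := by
        rw [← S.vecMul_CI, Matrix.vecMul_vecMul, ← Matrix.mul_assoc, S.CI_mul_CM,
          Matrix.one_mul]
      rw [h3, ← S.vecMul_CI, Matrix.vecMul_vecMul]
      rfl
    constructor
    · rw [S.inM_iff]
      intro i' hi'
      rw [hco]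
      refine Finset.sum_eq_zero fun i _ => ?_
      by_cases hi : S.typ i = 0
      · rw [(S.inM_iff _).1 (S.inL_inM hv) i hi, zero_mul]
      · rw [h1 i i' (by rw [hi']; exact Fin.pos_iff_ne_zero.2 hi), mul_zero]
    · intro j'
      rw [← S.co_jj, hco, Finset.sum_eq_single (S.jj j)]
      · rw [S.co_jj, S.inL_deg hv, if_pos rfl, one_mul, h2]
      · intro i _ hi
        rcases S.typ_cases i with h' | h' | h' | h'
        · rw [h1 i _ (by rw [h'.1, S.typ_jj]; decide), mul_zero]
        · rw [(S.inM_iff _).1 (S.inL_inM hv) i h'.1, zero_mul]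
        · rw [h1 i _ (by rw [h'.1, S.typ_jj]; decide), mul_zero]
        · rw [h'.2.2.2.2, S.co_jj, S.inL_deg hv, if_neg, zero_mul]
          rintro rfl
          exact hi h'.2.2.2.2
      · intro hn
        exact absurd (Finset.mem_univ _) hn

/-- a structured matrix preserves `MM` and acts on the degrees by `Q` -/
theorem Structured.apply (h : Structured S P Q) {w : I → R} (hw : S.InM w) :
    S.InM (w ᵥ* P) ∧ ∀ j', S.deg (w ᵥ* P) j' = ∑ j, S.deg w j * Q j j' := by
  obtain ⟨h1, h2⟩ := structured_iff.1 h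
  have hco : ∀ i', S.co (w ᵥ* P) i' = ∑ i, S.co w i * (S.CM R * P * S.CI R) i i' := by
    intro i'
    have h3 : w ᵥ* P = S.co w ᵥ* (S.CM R * P) := by
      rw [← S.vecMul_CI, Matrix.vecMul_vecMul, ← Matrix.mul_assoc, S.CI_mul_CM,
        Matrix.one_mul]
    rw [h3, ← S.vecMul_CI, Matrix.vecMul_vecMul]
    rfl
  constructor
  · rw [S.inM_iff]
    intro i' hi'
    rw [hco]
    refine Finset.sum_eq_zero fun i _ => ?_
    by_cases hi : S.typ i = 0
    · rw [(S.inM_iff _).1 hw i hi, zero_mul]
    · rw [h1 i i' (by rw [hi']; exact Fin.pos_iff_ne_zero.2 hi), mul_zero]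
  · intro j'
    have hinj : Function.Injective S.jj := by
      intro a b hab
      rw [← S.pr_jj a, ← S.pr_jj b, hab]
    rw [← S.co_jj, hco, ← Finset.sum_subset (Finset.subset_univ (Finset.univ.image S.jj))]
    · rw [Finset.sum_image fun a _ b _ hab => hinj hab]
      refine Finset.sum_congr rfl fun j _ => ?_
      rw [S.co_jj, h2]
    · intro i _ hi
      rcases S.typ_cases i with h' | h' | h' | h'
      · rw [h1 i _ (by rw [h'.1, S.typ_jj]; decide), mul_zero]
      · rw [(S.inM_iff _).1 hw i h'.1, zero_mul]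
      · rw [h1 i _ (by rw [h'.1, S.typ_jj]; decide), mul_zero]
      · exact absurd (Finset.mem_image.2 ⟨S.pr i, Finset.mem_univ _, h'.2.2.2.2.symm⟩) hi

end

/-- structured matrices and homomorphisms of the coefficients -/
theorem Structured.map {R R' : Type} [CommSemiring R] [CommSemiring R'] {S : Str I J}
    {P : Matrix I I R} {Q : Matrix J J R} (h : Structured S P Q) (f : R →+* R') :
    Structured S (P.map f) (Q.map f) := by
  intro j v hv
  obtain ⟨h1, h2⟩ := h j v hv
  have hvm : ∀ k, ((fun i => ((v i : ℕ) : R')) ᵥ* P.map f) k =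
      f (((fun i => ((v i : ℕ) : R)) ᵥ* P) k) := by
    intro k
    simp only [Matrix.vecMul, dotProduct, Matrix.map_apply, map_sum, map_mul, map_natCast]
  have hbs : ∀ b, S.bs ((fun i => ((v i : ℕ) : R')) ᵥ* P.map f) b =
      f (S.bs ((fun i => ((v i : ℕ) : R)) ᵥ* P) b) := by
    intro b
    unfold Str.bs
    rw [map_sum]
    refine Finset.sum_congr rfl fun i _ => ?_
    split_ifs
    · exact hvm i
    · exact (map_zero f).symm
  refine ⟨?_, ?_⟩
  · intro b b' hb
    rw [hbs, hbs, h1 b b' hb]
  · intro j'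
    rw [Matrix.map_apply, ← h2 j']
    unfold Str.deg
    rw [map_sum]
    refine Finset.sum_congr rfl fun a _ => ?_
    split_ifs
    · exact hbs _
    · exact (map_zero f).symm

theorem Structured.of_map {R R' : Type} [CommSemiring R] [CommSemiring R'] {S : Str I J}
    {P : Matrix I I R} {Q : Matrix J J R} (f : R →+* R') (hf : Function.Injective f)
    (h : Structured S (P.map f) (Q.map f)) : Structured S P Q := by
  intro j v hv
  obtain ⟨h1, h2⟩ := h j v hv
  have hvm : ∀ k, ((fun i => ((v i : ℕ) : R')) ᵥ* P.map f) k =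
      f (((fun i => ((v i : ℕ) : R)) ᵥ* P) k) := by
    intro k
    simp only [Matrix.vecMul, dotProduct, Matrix.map_apply, map_sum, map_mul, map_natCast]
  have hbs : ∀ b, S.bs ((fun i => ((v i : ℕ) : R')) ᵥ* P.map f) b =
      f (S.bs ((fun i => ((v i : ℕ) : R)) ᵥ* P) b) := by
    intro b
    unfold Str.bs
    rw [map_sum]
    refine Finset.sum_congr rfl fun i _ => ?_
    split_ifs
    · exact hvm i
    · exact (map_zero f).symm
  refine ⟨?_, ?_⟩
  · intro b b' hb
    apply hf
    rw [← hbs, ← hbs, h1 b b' hb]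
  · intro j'
    apply hf
    have h3 := h2 j'
    rw [Matrix.map_apply] at h3
    rw [← h3]
    unfold Str.deg
    rw [map_sum]
    refine Finset.sum_congr rfl fun a _ => ?_
    split_ifs
    · exact (hbs _).symm
    · exact map_zero f

end Pool.Agent.FTO
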