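import Pool.Agent.SSE.PresOf
import Pool.Agent.SSE.HDefs
import Pool.Agent.SSE.S1e
import Pool.Agent.FTO.G5

/-!
# FTO, step I: filtered modules, targets

`Fil`: two short exact sequences `0 → KN → K → L → 0`, `0 → KB → L → KH → 0` of `ℤ[X]`-modules.
`Tgt`: a structured target over `ℤ⟦X⟧` for a family of classes.
-/

set_option autoImplicit false

open scoped BigOperators
open Matrix Polynomial

namespace Pool.Agent.FTO

open Pool.Agent.SSE

attribute [local instance] Classical.propDecidable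

/-- the filtered module: `0 → KN → K → L → 0` and `0 → KB → L → KH → 0` -/
structure Fil (K KN KB KH L : Type) [AddCommGroup K] [Module ℤ[X] K] [AddCommGroup KN]
    [Module ℤ[X] KN] [AddCommGroup KB] [Module ℤ[X] KB] [AddCommGroup KH] [Module ℤ[X] KH]
    [AddCommGroup L] [Module ℤ[X] L] where
  i : KN →ₗ[ℤ[X]] K
  s : K →ₗ[ℤ[X]] L
  b : KB →ₗ[ℤ[X]] L
  p : L →ₗ[ℤ[X]] KH
  i_inj : Function.Injective i
  s_surj : Function.Surjective s
  exK : ∀ z, s z = 0 ↔ ∃ n, i n = z
  b_inj : Function.Injective b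
  p_surj : Function.Surjective p
  exL : ∀ l, p l = 0 ↔ ∃ y, b y = l

section

variable {K KN KB KH L : Type} [AddCommGroup K] [Module ℤ[X] K] [AddCommGroup KN]
  [Module ℤ[X] KN] [AddCommGroup KB] [Module ℤ[X] KB] [AddCommGroup KH] [Module ℤ[X] KH]
  [AddCommGroup L] [Module ℤ[X] L] {I J : Type} [Fintype I] [Fintype J]

/-- the classes of the adapted basis of the structure `S` -/
noncomputable def acl (S : Str I J) (c : I → K) (i : I) : K :=
  ∑ k, (S.CM ℤ[X] i k) • c k

/-- the hub of the target: an exact polynomial row, a fibre with one element; a large part `s1` of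
the loops -/
structure HubRow (S : Str I J) (r : ℝ) (c : I → K) (PS : Matrix I I (PowerSeries ℤ)) (x : I)
    (px : I → ℕ[X]) (s1 s2 : ℕ[X]) : Prop where
  triv : ∀ i, S.pr i = S.pr x → i = x
  row : ∀ j, PS x j = ps (toZ (px j))
  rel : c x = ∑ j, toZ (px j) • c j
  see : ∀ j, px j ≠ 0
  loop : px x = s1 + s2
  s2ne : s2 ≠ 0
  s1c : ∃ d, s1.coeff d ≠ 0 ∧ s1.coeff (d + 1) ≠ 0
  s1v : 1 < evp r s1

/-- weights, constant on the transversals over a vertex; every row sees the hub in degree `e` -/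
structure Wts (S : Str I J) (PS : Matrix I I (PowerSeries ℤ)) (x : I) (wt : I → ℕ) (κ : J → ℕ)
    (e : ℕ) : Prop where
  pos : ∀ i, 0 < wt i
  tr : ∀ j v, S.InL j v → ∑ i, v i * wt i = κ j
  see : ∀ i, i ≠ x → (wt i : ℤ) ≤ PowerSeries.coeff e (PS i x)

/-- THE TARGET for the filtered module `F` (Perron data `D`), the fibre structure `S`, the classes
`c` (of `I` in `K`) and `cB` (of `J` in `KB`): `PS` is structured over `QS`, nonnegative, of finite
norm at the radius `r`, its rows are `τ`-balanced, the determinants of the three levels are `δN`,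
`δB`, `δH`; the three levels of the classes have square relation matrices. -/
structure Tgt {δN δB δH : ℤ[X]} (F : Fil K KN KB KH L) (D : PFM K (δN * (δB * δH)))
    (S : Str I J) (c : I → K) (cB : J → KB) (r : ℝ) (PS : Matrix I I (PowerSeries ℤ))
    (QS : Matrix J J (PowerSeries ℤ)) (x : I) : Prop where
  r_gt : 1 < D.lam * r
  r_le : r ≤ D.rad
  cls : ∀ j v, S.InL j v → F.s (∑ i, (v i : ℤ[X]) • c i) = F.b (cB j)
  relN : ∃ (gN : {i // S.typ i = 2} → KN) (RN : Matrix _ _ ℤ[X]), RelOf δN gN RN ∧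
    ∀ i, F.i (gN i) = acl S c i
  relB : ∃ RB : Matrix J J ℤ[X], RelOf δB cB RB ∧
    ∀ j, ps (RB (S.pr x) j) = (1 - QS : Matrix J J (PowerSeries ℤ)) (S.pr x) j
  relH : ∃ RH : Matrix _ _ ℤ[X],
    RelOf δH (fun i : {i // S.typ i = 0} => F.p (F.s (acl S c i))) RH
  pos : ∀ i, 0 < D.tau (c i)
  str : Structured S PS QS
  ts : ∀ i j, TS r (PS i j)
  bal : ∀ i, D.tau (c i) = ∑ j, sv D.lam⁻¹ (PS i j) * D.tau (c j)
  detN : ((S.CM (PowerSeries ℤ) * (1 - PS) * S.CI (PowerSeries ℤ)).toSquareBlock S.typ 2).det =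
    ps δN
  detB : (1 - QS).det = ps δB
  detH : ((S.CM (PowerSeries ℤ) * (1 - PS) * S.CI (PowerSeries ℤ)).toSquareBlock S.typ 0).det =
    ps δH
  hub : ∃ (px : I → ℕ[X]) (s1 s2 : ℕ[X]), HubRow S r c PS x px s1 s2
  wts : ∃ (wt : I → ℕ) (κ : J → ℕ) (e : ℕ), Wts S PS x wt κ e

end

/-- the approximation theorem (helper77) in the form used here -/
def ApproxThm : Prop := ∀ {r : ℝ}, 0 < r → r < 1 → ∀ {J : Type} [Fintype J] [DecidableEq J]
  (U : Matrix J J (PowerSeries ℤ)), U.det = 1 → (∀ i j, FN r (U i j)) → ∀ (N : ℕ) {ε : ℝ}, 0 < ε →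
  ∃ V : Matrix J J ℤ[X], V.det = 1 ∧ (∀ i j, ∀ d < N, (V i j).coeff d = PowerSeries.coeff d (U i j)) ∧
    ∀ i j, sn r (ps (V i j) - U i j) ≤ ε

end Pool.Agent.FTO
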