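import Pool.Agent.FTO.A0c
import Pool.Agent.FTO.Fil
import Pool.Agent.FT.Cond

/-!
# FTO, A0d: the quotient of the dimension module by a pure submodule; the filtered module
-/

set_option autoImplicit false

open scoped BigOperators
open Matrix Polynomial

namespace Pool.Agent.FTO

open Pool.Agent.SSE Pool.Agent.FT

attribute [local instance] Classical.propDecidable

variable {n : ℕ} {A : Matrix (Fin n) (Fin n) ℕ} {W : Submodule ℚ (Fin n → ℚ)}

/-- an adapted basis of the lattice of the eventual range modulo a pure sublattice -/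
theorem exists_quot_basis (V W : Submodule ℚ (Fin n → ℚ)) :
    ∃ (m : ℕ) (bs : Fin m → Fin n → ℤ), (∀ i, bs i ∈ lat V) ∧
      (∀ z ∈ lat V, ∃ w : Fin m → ℤ, z - ∑ j, w j • bs j ∈ lat W) ∧
      (∀ w : Fin m → ℤ, ∑ j, w j • bs j ∈ lat W → w = 0) := by
  classical
  let N : Submodule ℤ (lat V) := (lat W).comap (lat V).subtype
  have hfin : Module.Finite ℤ (lat V) := inferInstance
  have hfinQ : Module.Finite ℤ (lat V ⧸ N) := inferInstance
  have htf : Module.IsTorsionFree ℤ (lat V ⧸ N) := by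
    rw [Module.isTorsionFree_iff_smul_eq_zero]
    intro c z hz
    obtain ⟨z, rfl⟩ := Submodule.mkQ_surjective N z
    by_cases hc : c = 0
    · exact Or.inl hc
    right
    rw [Submodule.mkQ_apply, ← Submodule.Quotient.mk_smul, Submodule.Quotient.mk_eq_zero] at hz
    rw [Submodule.mkQ_apply, Submodule.Quotient.mk_eq_zero]
    have h1 : (fun j => (((c • (z : Fin n → ℤ)) j : ℤ) : ℚ)) ∈ W := hz
    have h2 : (fun j => (((c • (z : Fin n → ℤ)) j : ℤ) : ℚ)) =
        (c : ℚ) • fun j => ((z : Fin n → ℤ) j : ℚ) := by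
      funext j; simp
    rw [h2] at h1
    have h3 := W.smul_mem (c : ℚ)⁻¹ h1
    rw [smul_smul, inv_mul_cancel₀ (by exact_mod_cast hc), one_smul] at h3
    exact h3
  let b := Module.finBasis ℤ (lat V ⧸ N)
  choose bs' hbs' using fun i => Submodule.mkQ_surjective N (b i)
  have hsum : ∀ w : Fin (Module.finrank ℤ (lat V ⧸ N)) → ℤ,
      N.mkQ (∑ j, w j • bs' j) = ∑ j, w j • b j := by
    intro w
    rw [map_sum]
    exact Finset.sum_congr rfl fun j _ => by rw [map_smul, hbs']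
  have hcoe : ∀ w : Fin (Module.finrank ℤ (lat V ⧸ N)) → ℤ,
      ((∑ j, w j • bs' j : lat V) : Fin n → ℤ) = ∑ j, w j • (bs' j : Fin n → ℤ) := by
    intro w
    rw [Submodule.coe_sum]
    rfl
  refine ⟨_, fun i => (bs' i : Fin n → ℤ), fun i => (bs' i).2, fun z hz => ?_, fun w hw => ?_⟩
  · refine ⟨fun j => b.repr (N.mkQ ⟨z, hz⟩) j, ?_⟩
    have h1 : N.mkQ (⟨z, hz⟩ - ∑ j, b.repr (N.mkQ ⟨z, hz⟩) j • bs' j) = 0 := by
      rw [map_sub, hsum, b.sum_repr, sub_self]
    rw [Submodule.mkQ_apply, Submodule.Quotient.mk_eq_zero] at h1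
    have h2 : ((⟨z, hz⟩ - ∑ j, b.repr (N.mkQ ⟨z, hz⟩) j • bs' j : lat V) : Fin n → ℤ) ∈ lat W := h1
    rw [Submodule.coe_sub, hcoe] at h2
    exact h2
  · have h1 : N.mkQ (∑ j, w j • bs' j) = 0 := by
      rw [Submodule.mkQ_apply, Submodule.Quotient.mk_eq_zero]
      show ((∑ j, w j • bs' j : lat V) : Fin n → ℤ) ∈ lat W
      rw [hcoe]
      exact hw
    rw [hsum] at h1
    exact funext fun j => Fintype.linearIndependent_iff.mp b.linearIndependent w h1 j

/-- the quotient is presented by an integral matrix -/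
theorem exists_rel_quot (hW : ∀ w ∈ W, w ᵥ* toQ A ∈ W) (hWe : W ≤ evRange A) :
    ∃ (m : ℕ) (AH : Matrix (Fin m) (Fin m) ℤ) (g : Fin m → KM A ⧸ subM A W hW hWe),
      RelOf (rdet AH) g (relM AH) := by
  classical
  obtain ⟨m, bs, hb, hspan, hli⟩ := exists_quot_basis (evRange A) W
  choose AH hAH using fun i => hspan _ (lat_mul (A := A) (W := evRange A)
    (fun v hv => evRange_inv A hv) (hb i))
  let S := subM A W hW hWe
  let g' : Fin m → KM A := fun i => ofLat (A := A) le_rfl (bs i) (hb i)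
  have hval : ∀ i, val A (g' i) = fun j => (bs i j : ℚ) := fun i => val_ofLat le_rfl (bs i) (hb i)
  have hcomb : ∀ w : Fin m → ℤ, val A (∑ j, C (w j) • g' j) =
      fun k => ((∑ j, w j • bs j : Fin n → ℤ) k : ℚ) := by
    intro w
    rw [val_comb]
    funext k
    rw [Finset.sum_apply, Finset.sum_apply]
    push_cast
    refine Finset.sum_congr rfl fun j _ => ?_
    rw [Pi.smul_apply, hval, Pi.smul_apply, smul_eq_mul, smul_eq_mul]
    push_cast
    rfl
  have hmk : ∀ w : Fin m → ℤ, ∑ j, C (w j) • S.mkQ (g' j) = S.mkQ (∑ j, C (w j) • g' j) := by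
    intro w
    rw [map_sum]
    exact Finset.sum_congr rfl fun j _ => by rw [map_smul]
  refine ⟨m, AH, fun i => S.mkQ (g' i), ?_⟩
  apply relOf_lattice
  · intro i
    rw [hmk, ← map_smul]
    have h0 := lat_mul (A := A) (W := evRange A) (fun v hv => evRange_inv A hv) (hb i)
    have h1 : g' i = (X : ℤ[X]) • ofLat (A := A) le_rfl (bs i ᵥ* zM A) h0 := by
      have h2 := eq_Xk A (z := g' i) (y := ofLat (A := A) le_rfl (bs i ᵥ* zM A) h0) (k := 1) (by
        rw [hval, val_ofLat, pow_one]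
        have h3 := zM_pow_vec A (bs i) 1
        rw [pow_one, pow_one] at h3
        rw [← h3])
      rwa [pow_one] at h2
    rw [← sub_eq_zero, ← map_sub, Submodule.mkQ_apply, Submodule.Quotient.mk_eq_zero, h1,
      ← smul_sub]
    refine S.smul_mem _ ?_
    show val A _ ∈ W
    rw [map_sub, hcomb, val_ofLat]
    have h4 := hAH i
    rw [mem_lat] at h4
    convert h4 using 1
    funext k
    simp only [Pi.sub_apply]
    push_cast
    rfl
  · intro z hz
    obtain ⟨z, rfl⟩ := Submodule.mkQ_surjective S z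
    rw [← map_smul, Submodule.mkQ_apply, Submodule.Quotient.mk_eq_zero] at hz
    rw [Submodule.mkQ_apply, Submodule.Quotient.mk_eq_zero]
    show val A z ∈ W
    rw [← val_X]
    exact hW _ hz
  · intro w hw
    refine ⟨0, ?_⟩
    rw [hmk, Submodule.mkQ_apply, Submodule.Quotient.mk_eq_zero] at hw
    have h1 : val A (∑ j, C (w j) • g' j) ∈ W := hw
    rw [hcomb] at h1
    rw [hli w h1, Matrix.zero_vecMul]
  · intro z
    obtain ⟨z, rfl⟩ := Submodule.mkQ_surjective S z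
    obtain ⟨hv, k, y, hy⟩ := val_mem A z
    have hy' : val A z ᵥ* toQ A ^ k = fun j => (y j : ℚ) := funext hy
    have hyV : y ∈ lat (evRange A) := by
      rw [mem_lat, ← hy']
      exact evRange_pow A hv k
    obtain ⟨w, hw⟩ := hspan y hyV
    refine ⟨k, w, ?_⟩
    rw [hmk, ← map_smul, ← sub_eq_zero, ← map_sub, Submodule.mkQ_apply,
      Submodule.Quotient.mk_eq_zero]
    have h1 : z = (X ^ k : ℤ[X]) • ofLat (A := A) le_rfl y hyV := by
      apply eq_Xk A
      rw [val_ofLat, hy']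
    rw [h1, ← smul_sub]
    refine S.smul_mem _ ?_
    show val A _ ∈ W
    rw [map_sub, hcomb, val_ofLat]
    rw [mem_lat] at hw
    convert hw using 1
    funext k
    simp only [Pi.sub_apply]
    push_cast
    rfl

section Maps

variable {b : ℕ} {B : Matrix (Fin b) (Fin b) ℕ} {U : Submodule ℚ (Fin n → ℚ)}

/-- the map `W ∩ G_A → G_B`, additive -/
noncomputable def phiA (hW : ∀ w ∈ W, w ᵥ* toQ A ∈ W) (hWe : W ≤ evRange A)
    (ψ : (Fin n → ℚ) →ₗ[ℚ] (Fin b → ℚ))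
    (hon : ∀ w ∈ W, w ∈ dimGroup A → ψ w ∈ dimGroup B) : subM A W hW hWe →+ KM B where
  toFun z := mk B (ψ (val A (z : KM A))) (hon _ (mem_subM.1 z.2) (val_mem A _))
  map_zero' := by
    apply val_inj B
    rw [val_mk, map_zero]
    have h : val A ((0 : subM A W hW hWe) : KM A) = 0 := map_zero (val A)
    rw [h, map_zero]
  map_add' := by
    intro z w
    apply val_inj B
    rw [map_add, val_mk, val_mk, val_mk]
    have h : val A ((z + w : subM A W hW hWe) : KM A) = val A (z : KM A) + val A (w : KM A) :=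
      map_add (val A) _ _
    rw [h, map_add]

theorem val_phiA (hW : ∀ w ∈ W, w ᵥ* toQ A ∈ W) (hWe : W ≤ evRange A)
    (ψ : (Fin n → ℚ) →ₗ[ℚ] (Fin b → ℚ))
    (hon : ∀ w ∈ W, w ∈ dimGroup A → ψ w ∈ dimGroup B) (z : subM A W hW hWe) :
    val B (phiA hW hWe ψ hon z) = ψ (val A (z : KM A)) := val_mk B _ _

/-- the map `W ∩ G_A → G_B` -/
noncomputable def phiM (hW : ∀ w ∈ W, w ᵥ* toQ A ∈ W) (hWe : W ≤ evRange A)
    (ψ : (Fin n → ℚ) →ₗ[ℚ] (Fin b → ℚ)) (hψ : ∀ w ∈ W, ψ (w ᵥ* toQ A) = ψ w ᵥ* toQ B)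
    (hon : ∀ w ∈ W, w ∈ dimGroup A → ψ w ∈ dimGroup B) : subM A W hW hWe →ₗ[ℤ[X]] KM B :=
  linOfX (phiA hW hWe ψ hon) (by
    intro z
    apply val_inj B
    symm
    apply val_X_eq
    · exact (val_mem B _).1
    · rw [val_phiA, val_phiA, ← hψ _ (mem_subM.1 (X • z : subM A W hW hWe).2)]
      congr 1
      exact val_X A (z : KM A))

theorem val_phiM (hW : ∀ w ∈ W, w ᵥ* toQ A ∈ W) (hWe : W ≤ evRange A)
    (ψ : (Fin n → ℚ) →ₗ[ℚ] (Fin b → ℚ)) (hψ : ∀ w ∈ W, ψ (w ᵥ* toQ A) = ψ w ᵥ* toQ B)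
    (hon : ∀ w ∈ W, w ∈ dimGroup A → ψ w ∈ dimGroup B) (z : subM A W hW hWe) :
    val B (phiM hW hWe ψ hψ hon z) = ψ (val A (z : KM A)) := val_mk B _ _

/-- the filtered module of two submodules and a map onto `KB` -/
theorem exists_Fil_abs {K KB : Type} [AddCommGroup K] [Module ℤ[X] K] [AddCommGroup KB]
    [Module ℤ[X] KB] (SU SW : Submodule ℤ[X] K) (hle2 : SU ≤ SW) (φ : SW →ₗ[ℤ[X]] KB)
    (hφs : Function.Surjective φ) (hφk : ∀ z : SW, φ z = 0 ↔ (z : K) ∈ SU) :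
    ∃ F : Fil K SU KB (K ⧸ SW) (K ⧸ SU),
      (∀ z : SU, F.i z = (z : K)) ∧
      ∀ z : SW, F.s (z : K) = F.b (φ z) := by
  have hle : LinearMap.ker φ ≤ SU.comap SW.subtype := by
    intro z hz
    rw [LinearMap.mem_ker, hφk] at hz
    exact hz
  let e : (SW ⧸ LinearMap.ker φ) ≃ₗ[ℤ[X]] KB := LinearMap.quotKerEquivOfSurjective φ hφs
  let bb : KB →ₗ[ℤ[X]] K ⧸ SU := (Submodule.mapQ (LinearMap.ker φ) SU SW.subtype hle).comp
    e.symm.toLinearMap
  have hbb : ∀ z : SW, bb (φ z) = SU.mkQ (z : K) := by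
    intro z
    have h1 : e.symm (φ z) = (LinearMap.ker φ).mkQ z := by
      rw [LinearEquiv.symm_apply_eq]
      rfl
    show (Submodule.mapQ (LinearMap.ker φ) SU SW.subtype hle) (e.symm (φ z)) = _
    rw [h1]
    rfl
  refine ⟨{
    i := SU.subtype
    s := SU.mkQ
    b := bb
    p := Submodule.factor hle2
    i_inj := Submodule.subtype_injective _
    s_surj := Submodule.mkQ_surjective _
    exK := ?_
    b_inj := ?_
    p_surj := ?_
    exL := ?_ }, fun z => rfl, fun z => (hbb z).symm⟩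
  · intro z
    rw [Submodule.mkQ_apply, Submodule.Quotient.mk_eq_zero]
    exact ⟨fun h => ⟨⟨z, h⟩, rfl⟩, fun ⟨y, hy⟩ => hy ▸ y.2⟩
  · rw [injective_iff_map_eq_zero]
    intro y hy
    obtain ⟨z, rfl⟩ := hφs y
    rw [hbb, Submodule.mkQ_apply, Submodule.Quotient.mk_eq_zero] at hy
    exact (hφk z).2 hy
  · exact Submodule.factor_surjective hle2
  · intro l
    obtain ⟨z, rfl⟩ := Submodule.mkQ_surjective SU l
    have h1 : Submodule.factor hle2 (SU.mkQ z) = SW.mkQ z := rfl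
    rw [h1, Submodule.mkQ_apply, Submodule.Quotient.mk_eq_zero]
    constructor
    · intro hz
      exact ⟨φ ⟨z, hz⟩, hbb ⟨z, hz⟩⟩
    · rintro ⟨y, hy⟩
      obtain ⟨z', rfl⟩ := hφs y
      rw [hbb, ← sub_eq_zero, ← map_sub, Submodule.mkQ_apply, Submodule.Quotient.mk_eq_zero] at hy
      have h2 := hle2 hy
      have h3 := SW.sub_mem z'.2 h2
      rwa [sub_sub_cancel] at h3

/-- the filtered module -/
theorem exists_Fil (hW : ∀ w ∈ W, w ᵥ* toQ A ∈ W) (hWe : W ≤ evRange A)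
    (hU : ∀ w ∈ U, w ᵥ* toQ A ∈ U) (hUW : U ≤ W)
    (ψ : (Fin n → ℚ) →ₗ[ℚ] (Fin b → ℚ)) (hψ : ∀ w ∈ W, ψ (w ᵥ* toQ A) = ψ w ᵥ* toQ B)
    (hon : ∀ w ∈ W, w ∈ dimGroup A → ψ w ∈ dimGroup B)
    (honto : ∀ y ∈ dimGroup B, ∃ w ∈ W, w ∈ dimGroup A ∧ ψ w = y)
    (hker : ∀ w ∈ W, ψ w = 0 ↔ w ∈ U) :
    ∃ F : Fil (KM A) (subM A U hU (hUW.trans hWe)) (KM B) (KM A ⧸ subM A W hW hWe)
      (KM A ⧸ subM A U hU (hUW.trans hWe)),
      (∀ z : subM A U hU (hUW.trans hWe), F.i z = (z : KM A)) ∧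
      ∀ z : subM A W hW hWe, F.s (z : KM A) = F.b (phiM hW hWe ψ hψ hon z) := by
  refine exists_Fil_abs (subM A U hU (hUW.trans hWe)) (subM A W hW hWe) (fun z hz => hUW hz)
    (phiM hW hWe ψ hψ hon) ?_ ?_
  · intro y
    obtain ⟨w, hw, hwd, hwy⟩ := honto _ (val_mem B y)
    refine ⟨⟨mk A w hwd, mem_subM.2 (by rw [val_mk]; exact hw)⟩, ?_⟩
    apply val_inj B
    rw [val_phiM, val_mk, hwy]
  · intro z
    rw [mem_subM, ← hker _ (mem_subM.1 z.2)]
    constructor
    · intro h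
      rw [← val_phiM hW hWe ψ hψ hon, h, map_zero]
    · intro h
      apply val_inj B
      rw [val_phiM, h, map_zero]

end Maps

end Pool.Agent.FTO
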