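import Pool.Agent.FTO.A0d
import Pool.Agent.FTO.A0e
import Pool.Agent.SSE.Lev0

/-!
# FTO, A0f: Perron functionals on the dimension module
-/

set_option autoImplicit false

open scoped BigOperators
open Matrix Polynomial

namespace Pool.Agent.FTO

open Pool.Agent.SSE Pool.Agent.FT

attribute [local instance] Classical.propDecidable

section Tau

variable {n : ℕ} (A : Matrix (Fin n) (Fin n) ℕ)

/-- the functional of a right eigenvector -/
noncomputable def tauM (v : Fin n → ℝ) : KM A →+ ℝ where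
  toFun z := ∑ i, ((val A z i : ℚ) : ℝ) * v i
  map_zero' := by
    rw [map_zero]
    simp
  map_add' := by
    intro z w
    rw [map_add, ← Finset.sum_add_distrib]
    refine Finset.sum_congr rfl fun i _ => ?_
    rw [Pi.add_apply]
    push_cast
    ring

theorem tauM_apply (v : Fin n → ℝ) (z : KM A) : tauM A v z = ∑ i, ((val A z i : ℚ) : ℝ) * v i := rfl

/-- multiplication by `A` and a right eigenvector -/
theorem sum_eig {lam : ℝ} {v : Fin n → ℝ} (hv : ∀ i, ∑ j, (A i j : ℝ) * v j = lam * v i)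
    (x : Fin n → ℚ) (k : ℕ) :
    ∑ j, (((x ᵥ* toQ A ^ k) j : ℚ) : ℝ) * v j = lam ^ k * ∑ i, ((x i : ℚ) : ℝ) * v i := by
  induction k generalizing x with
  | zero => simp
  | succ k ih =>
    rw [pow_succ', ← Matrix.vecMul_vecMul, ih, pow_succ, mul_assoc]
    congr 1
    have h1 : ∀ j, (((x ᵥ* toQ A) j : ℚ) : ℝ) * v j = ∑ i, ((x i : ℚ) : ℝ) * ((A i j : ℝ) * v j) := by
      intro j
      simp only [Matrix.vecMul, dotProduct, toQ, Matrix.map_apply]
      push_cast
      rw [Finset.sum_mul]
      exact Finset.sum_congr rfl fun i _ => by ring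
    rw [Finset.sum_congr rfl fun j _ => h1 j, Finset.sum_comm, Finset.mul_sum]
    refine Finset.sum_congr rfl fun i _ => ?_
    rw [← Finset.mul_sum, hv]
    ring

variable {lam : ℝ} {v : Fin n → ℝ}

theorem tauM_X (hl : lam ≠ 0) (hv : ∀ i, ∑ j, (A i j : ℝ) * v j = lam * v i) (z : KM A) :
    tauM A v ((X : ℤ[X]) • z) = lam⁻¹ * tauM A v z := by
  have h1 := sum_eig A hv (val A ((X : ℤ[X]) • z)) 1
  rw [pow_one, val_X, pow_one] at h1
  rw [tauM_apply, tauM_apply, h1, ← mul_assoc, inv_mul_cancel₀ hl, one_mul]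

theorem tauM_cls (hl : lam ≠ 0) (hv : ∀ i, ∑ j, (A i j : ℝ) * v j = lam * v i) (i : Fin n) :
    tauM A v (cls A i) = v i := by
  have h1 := sum_eig A hv (val A (cls A i)) n
  rw [cls_spec, sum_eig A hv (Pi.single i 1) n] at h1
  have h2 := mul_left_cancel₀ (pow_ne_zero n hl) h1
  rw [tauM_apply, ← h2, Finset.sum_eq_single i]
  · simp
  · intro j _ hj
    simp [Pi.single_eq_of_ne hj]
  · simp

end Tau

section Gen

variable {K : Type} [AddCommGroup K] [Module ℤ[X] K] {ι : Type} [Fintype ι]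

/-- the determinant annihilates the module -/
theorem RelOf.smul_eq_zero {δ : ℤ[X]} {g : ι → K} {M : Matrix ι ι ℤ[X]} (h : RelOf δ g M) (z : K) :
    δ • z = 0 := by
  have h1 : ∀ i, δ • g i = 0 := by
    intro i
    have h2 := rel_vecMul h.rel (fun k => M.adjugate i k)
    have h3 : ∀ j, ((fun k => M.adjugate i k) ᵥ* M) j = if i = j then δ else 0 := by
      intro j
      have h4 := congrFun (congrFun (Matrix.adjugate_mul M) i) j
      rw [h.det, Matrix.smul_apply, Matrix.one_apply, smul_eq_mul] at h4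
      rw [Matrix.mul_apply] at h4
      simp only [Matrix.vecMul, dotProduct]
      rw [h4]
      split_ifs <;> simp
    simp only [h3] at h2
    simpa using h2
  obtain ⟨v, rfl⟩ := h.top z
  rw [Finset.smul_sum]
  refine Finset.sum_eq_zero fun j _ => ?_
  rw [smul_comm, h1, smul_zero]

/-- a real eigenvector for the Perron value is a multiple of the Perron vector -/
theorem perron_multiple {V : Type} [Fintype V] [DecidableEq V] {M : Matrix V V ℝ} {k : ℕ}
    (hM : PF.Prim M k) {lam : ℝ} {v u : V → ℝ} (hd : PF.Data M lam v u) (t : V → ℝ)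
    (ht : M *ᵥ t = lam • t) : ∃ c : ℝ, ∀ i, t i = c * v i := by
  rcases isEmpty_or_nonempty V with hV | ⟨⟨i0⟩⟩
  · exact ⟨0, fun i => (IsEmpty.false i).elim⟩
  set R : ℝ := ∑ i, |t i| / v i + 1 with hR
  have h1 : ∀ i, 0 < t i + R * v i := by
    intro i
    have h2 : |t i| / v i ≤ ∑ i, |t i| / v i :=
      Finset.single_le_sum (f := fun i => |t i| / v i)
        (fun j _ => div_nonneg (abs_nonneg _) (hd.v_pos j).le) (Finset.mem_univ i)
    have h3 : |t i| / v i < R := by linarith
    rw [div_lt_iff₀ (hd.v_pos i)] at h3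
    have h4 := neg_abs_le (t i)
    linarith
  have h2 := hd.unique hM (mu := lam) (w := t + R • v) (fun i => (h1 i).le) ⟨i0, h1 i0⟩ (by
    rw [Matrix.mulVec_add, Matrix.mulVec_smul, ht, hd.eig, smul_add, smul_comm R lam])
  refine ⟨u ⬝ᵥ (t + R • v) - R, fun i => ?_⟩
  have h3 := congrFun h2.2 i
  simp only [Pi.add_apply, Pi.smul_apply, smul_eq_mul] at h3
  linarith

end Gen

end Pool.Agent.FTO
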