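import Pool.Agent.FTO.Fil

/-!
# FTO, A1c: approximation of a block triangular matrix over `ℤ⟦X⟧`

Diagonal blocks of types `2`, `0`: `ApproxThm`. Block of type `1`: the row `y` is the unit row, so
the block of the indices of type `1` different from `y` has determinant `1` (expand along the row
`y`); approximate it by `ApproxThm`, truncate the column `y`. All entries off the diagonal blocks are
truncated at a large degree (`N` and the tail of the norm).
-/

set_option autoImplicit false

open scoped BigOperators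
open Matrix Polynomial

namespace Pool.Agent.FTO

open Pool.Agent.SSE

attribute [local instance] Classical.propDecidable

variable {I : Type} [Fintype I]

namespace BlockApprox

/-- truncation of one series -/
theorem trunc_ex {r : ℝ} (f : PowerSeries ℤ) (hf : FN r f) (N : ℕ) {ε : ℝ} (hε : 0 < ε) :
    ∃ p : ℤ[X], (∀ d < N, p.coeff d = PowerSeries.coeff d f) ∧ sn r (ps p - f) ≤ ε ∧
      (f = 0 → p = 0) := by
  have ht := tendsto_sum_nat_add fun n => ‖PowerSeries.coeff n (HN.toRS f)‖ * r ^ n
  obtain ⟨M, hM⟩ := ((ht.eventually (gt_mem_nhds hε)).and (Filter.eventually_ge_atTop N)).exists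
  obtain ⟨hM1, hM2⟩ := hM
  refine ⟨PowerSeries.trunc M f, fun d hd => ?_, ?_, fun h => ?_⟩
  · rw [PowerSeries.coeff_trunc, if_pos (by omega)]
  · refine le_trans (le_of_eq ?_) hM1.le
    have hc : ∀ n, ‖PowerSeries.coeff n (HN.toRS (ps (PowerSeries.trunc M f) - f))‖ * r ^ n =
        if n < M then 0 else ‖PowerSeries.coeff n (HN.toRS f)‖ * r ^ n := by
      intro n
      rw [HN.coeff_toRS, HN.coeff_toRS, map_sub, Polynomial.coeff_coe, PowerSeries.coeff_trunc]
      split_ifs with h
      · simp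
      · simp
    have hs : Summable fun n => if n < M then (0 : ℝ) else
        ‖PowerSeries.coeff n (HN.toRS f)‖ * r ^ n := by
      refine (summable_nat_add_iff M).1 ?_
      have := (summable_nat_add_iff M).2 hf
      refine this.congr fun n => ?_
      rw [if_neg (by omega)]
    unfold sn PF.nS
    rw [tsum_congr hc, ← hs.sum_add_tsum_nat_add M,
      Finset.sum_eq_zero fun n hn => if_pos (Finset.mem_range.1 hn), zero_add]
    refine tsum_congr fun n => ?_
    rw [if_neg (by omega)]
  · rw [h]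
    ext n
    rw [PowerSeries.coeff_trunc]
    simp

omit [Fintype I] in
/-- the blocks of a matrix depend only on the index sets -/
theorem det_block_congr {R α β : Type*} [CommRing R] (M : Matrix I I R) (b1 : I → α) (b2 : I → β)
    (k1 : α) (k2 : β) (h : ∀ i, b1 i = k1 ↔ b2 i = k2) [Fintype {i // b1 i = k1}]
    [Fintype {i // b2 i = k2}] [DecidableEq {i // b1 i = k1}] [DecidableEq {i // b2 i = k2}] :
    (M.toSquareBlock b1 k1).det = (M.toSquareBlock b2 k2).det := by
  rw [← Matrix.det_submatrix_equiv_self (Equiv.subtypeEquivRight h) (M.toSquareBlock b2 k2)]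
  rfl

/-- approximation, all blocks with determinant `1` -/
theorem gen (hA : ApproxThm) {r : ℝ} (hr : 0 < r) (hr1 : r < 1) (b : I → ℕ)
    (U : Matrix I I (PowerSeries ℤ)) (hU : ∀ i j, FN r (U i j)) (hb : U.BlockTriangular b)
    (hd : ∀ k, (U.toSquareBlock b k).det = 1) (N : ℕ) {ε : ℝ} (hε : 0 < ε) :
    ∃ V : Matrix I I ℤ[X], V.BlockTriangular b ∧ (∀ k, (V.toSquareBlock b k).det = 1) ∧
      (∀ i j, b i ≠ b j → U i j = 0 → V i j = 0) ∧
      (∀ i j, ∀ d < N, (V i j).coeff d = PowerSeries.coeff d (U i j)) ∧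
      ∀ i j, sn r (ps (V i j) - U i j) ≤ ε := by
  have h1 : ∀ k, ∃ W : Matrix {i // b i = k} {i // b i = k} ℤ[X], W.det = 1 ∧
      (∀ i j, ∀ d < N, (W i j).coeff d = PowerSeries.coeff d (U i.1 j.1)) ∧
      ∀ i j, sn r (ps (W i j) - U i.1 j.1) ≤ ε := fun k =>
    hA hr hr1 (U.toSquareBlock b k) (hd k) (fun i j => hU i.1 j.1) N hε
  choose W hW1 hW2 hW3 using h1
  have h2 : ∀ i j, ∃ p : ℤ[X], (∀ d < N, p.coeff d = PowerSeries.coeff d (U i j)) ∧
      sn r (ps p - U i j) ≤ ε ∧ (U i j = 0 → p = 0) := fun i j => trunc_ex (U i j) (hU i j) N hε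
  choose T hT1 hT2 hT3 using h2
  refine ⟨fun i j => if h : b i = b j then W (b j) ⟨i, h⟩ ⟨j, rfl⟩ else T i j, ?_, ?_, ?_, ?_, ?_⟩
  · intro i j hij
    show (if h : b i = b j then W (b j) ⟨i, h⟩ ⟨j, rfl⟩ else T i j) = 0
    rw [dif_neg (ne_of_gt hij)]
    exact hT3 i j (hb hij)
  · intro k
    rw [← hW1 k]
    congr 1
    refine Matrix.ext fun i j => ?_
    obtain ⟨i, hi⟩ := i
    obtain ⟨j, hj⟩ := j
    subst hj
    show (if h : b i = b j then W (b j) ⟨i, h⟩ ⟨j, rfl⟩ else T i j) = W (b j) ⟨i, hi⟩ ⟨j, rfl⟩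
    rw [dif_pos hi]
  · intro i j hij h0
    show (if h : b i = b j then W (b j) ⟨i, h⟩ ⟨j, rfl⟩ else T i j) = 0
    rw [dif_neg hij]
    exact hT3 i j h0
  · intro i j d hd'
    show (if h : b i = b j then W (b j) ⟨i, h⟩ ⟨j, rfl⟩ else T i j).coeff d = _
    split_ifs with h
    · exact hW2 (b j) ⟨i, h⟩ ⟨j, rfl⟩ d hd'
    · exact hT1 i j d hd'
  · intro i j
    show sn r (ps (if h : b i = b j then W (b j) ⟨i, h⟩ ⟨j, rfl⟩ else T i j) - U i j) ≤ ε
    split_ifs with h
    · exact hW3 (b j) ⟨i, h⟩ ⟨j, rfl⟩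
    · exact hT2 i j

/-- the refined block structure: `y` is a block of its own -/
noncomputable def fb (typ : I → Fin 3) (y i : I) : ℕ :=
  if i = y then 2 else if typ i = 2 then 3 else if typ i = 1 then 1 else 0

omit [Fintype I] in
theorem fb_zero {typ : I → Fin 3} {y : I} (hy1 : typ y = 1) (i : I) : typ i = 0 ↔ fb typ y i = 0 := by
  unfold fb
  split_ifs with h1 h2 h3
  · subst h1; rw [hy1]; simp
  · rw [h2]; simp
  · rw [h3]; simp
  · have : ∀ a : Fin 3, a ≠ 2 → a ≠ 1 → a = 0 := by decide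
    simp [this _ h2 h3]

omit [Fintype I] in
theorem fb_two {typ : I → Fin 3} {y : I} (hy1 : typ y = 1) (i : I) : typ i = 2 ↔ fb typ y i = 3 := by
  unfold fb
  split_ifs with h1 h2 h3
  · subst h1; rw [hy1]; simp
  · rw [h2]; simp
  · rw [h3]; simp
  · simp [h2]

omit [Fintype I] in
theorem fb_one {typ : I → Fin 3} {y : I} (i : I) : (typ i = 1 ∧ i ≠ y) ↔ fb typ y i = 1 := by
  unfold fb
  split_ifs with h1 h2 h3
  · simp [h1]
  · simp [h2]
  · simp [h3, h1]
  · simp [h3]

/-- the determinant of the block of type `1` -/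
theorem det_one {R : Type*} [CommRing R] (M : Matrix I I R) {typ : I → Fin 3} {y : I}
    (hy1 : typ y = 1) (hy : ∀ j, M y j = if j = y then 1 else 0) :
    (M.toSquareBlock typ 1).det = (M.toSquareBlock (fb typ y) 1).det := by
  have h0 : ∀ i : {a // typ a = 1}, ¬ (i.1 ≠ y) → ∀ j : {a // typ a = 1}, j.1 ≠ y →
      M.toSquareBlock typ 1 i j = 0 := by
    intro i hi j hj
    show M i.1 j.1 = 0
    rw [not_not.1 hi, hy, if_neg hj]
  rw [Matrix.twoBlockTriangular_det (M.toSquareBlock typ 1) (fun i => i.1 ≠ y) h0]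
  have hs : Subsingleton {a : {a // typ a = 1} // ¬ (a.1 ≠ y)} := by
    refine ⟨fun a b => Subtype.ext (Subtype.ext ?_)⟩
    rw [not_not.1 a.2, not_not.1 b.2]
  rw [Matrix.det_eq_elem_of_subsingleton (toSquareBlockProp (M.toSquareBlock typ 1)
    fun i => ¬ (i.1 ≠ y)) ⟨⟨y, hy1⟩, not_not.2 rfl⟩]
  have h1 : toSquareBlockProp (M.toSquareBlock typ 1) (fun i => ¬ (i.1 ≠ y))
      ⟨⟨y, hy1⟩, not_not.2 rfl⟩ ⟨⟨y, hy1⟩, not_not.2 rfl⟩ = 1 := by
    show M y y = 1
    rw [hy, if_pos rfl]
  rw [h1, mul_one]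
  let e : {a : {a // typ a = 1} // a.1 ≠ y} ≃ {a // fb typ y a = 1} :=
    (Equiv.subtypeSubtypeEquivSubtypeInter (fun a => typ a = 1) (fun a => a ≠ y)).trans
      (Equiv.subtypeEquivRight fun i => fb_one i)
  rw [← Matrix.det_submatrix_equiv_self e (M.toSquareBlock (fb typ y) 1)]
  rfl

end BlockApprox

open BlockApprox

theorem block_approx (hA : ApproxThm) {r : ℝ} (hr : 0 < r) (hr1 : r < 1) (typ : I → Fin 3)
    (U : Matrix I I (PowerSeries ℤ)) (hU : ∀ i j, FN r (U i j)) (hb : U.BlockTriangular typ)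
    (hd : ∀ k, (U.toSquareBlock typ k).det = 1) (y : I) (hy1 : typ y = 1)
    (hy : ∀ j, U y j = if j = y then 1 else 0) (N : ℕ) {ε : ℝ} (hε : 0 < ε) :
    ∃ V : Matrix I I ℤ[X], V.BlockTriangular typ ∧ (∀ k, (V.toSquareBlock typ k).det = 1) ∧
      (∀ j, V y j = if j = y then 1 else 0) ∧
      (∀ i j, ∀ d < N, (V i j).coeff d = PowerSeries.coeff d (U i j)) ∧
      ∀ i j, sn r (ps (V i j) - U i j) ≤ ε := by
  have hfy : fb typ y y = 2 := by unfold fb; rw [if_pos rfl]
  have hfy' : ∀ i, fb typ y i = 2 ↔ i = y := by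
    intro i
    unfold fb
    split_ifs with h1 h2 h3
    · simp [h1]
    · simp [h1]
    · simp [h1]
    · simp [h1]
  have hyb : ∀ {R : Type} [CommRing R] (M : Matrix I I R), M y y = 1 →
      (M.toSquareBlock (fb typ y) 2).det = 1 := by
    intro R _ M hM
    have hs : Subsingleton {a : I // fb typ y a = 2} := by
      refine ⟨fun a b => Subtype.ext ?_⟩
      rw [(hfy' a.1).1 a.2, (hfy' b.1).1 b.2]
    rw [Matrix.det_eq_elem_of_subsingleton _ (⟨y, hfy⟩ : {a : I // fb typ y a = 2})]
    exact hM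
  -- the refined structure
  have hb' : U.BlockTriangular (fb typ y) := by
    intro i j hij
    by_cases hi : i = y
    · subst hi
      rw [hy, if_neg]
      rintro rfl
      exact lt_irrefl _ hij
    · refine hb ?_
      by_cases hj : j = y
      · subst hj
        rw [hfy] at hij
        rw [hy1]
        have h3 : typ i = 2 := by
          rw [fb_two hy1]
          unfold fb at hij ⊢
          split_ifs at hij ⊢ <;> omega
        rw [h3]
        decide
      · unfold fb at hij
        rw [if_neg hi, if_neg hj] at hij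
        have : ∀ a b : Fin 3, (if a = 2 then 3 else if a = 1 then 1 else 0 : ℕ) <
            (if b = 2 then 3 else if b = 1 then 1 else 0 : ℕ) → a < b := by decide
        refine this _ _ ?_
        convert hij
  have hd' : ∀ k, (U.toSquareBlock (fb typ y) k).det = 1 := by
    intro k
    by_cases h0 : k = 0
    · subst h0
      rw [← det_block_congr U typ (fb typ y) 0 0 (fb_zero hy1)]
      exact hd 0
    by_cases h1 : k = 1
    · subst h1
      rw [← det_one U hy1 hy]
      exact hd 1
    by_cases h2 : k = 2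
    · subst h2
      refine hyb U ?_
      rw [hy, if_pos rfl]
    by_cases h3 : k = 3
    · subst h3
      rw [← det_block_congr U typ (fb typ y) 2 3 (fb_two hy1)]
      exact hd 2
    · have he : IsEmpty {a : I // fb typ y a = k} := by
        refine ⟨fun a => ?_⟩
        have := a.2
        unfold fb at this
        split_ifs at this <;> omega
      exact Matrix.det_isEmpty
  obtain ⟨V, hV1, hV2, hV3, hV4, hV5⟩ := gen hA hr hr1 (fb typ y) U hU hb' hd' N hε
  have hVy : ∀ j, V y j = if j = y then 1 else 0 := by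
    intro j
    split_ifs with h
    · subst h
      have h2 := hV2 2
      have hs : Subsingleton {a : I // fb typ j a = 2} := by
        refine ⟨fun a b => Subtype.ext ?_⟩
        rw [(hfy' a.1).1 a.2, (hfy' b.1).1 b.2]
      rw [Matrix.det_eq_elem_of_subsingleton _ (⟨j, hfy⟩ : {a : I // fb typ j a = 2})] at h2
      exact h2
    · refine hV3 y j ?_ ?_
      · rw [hfy]
        intro h2
        exact h ((hfy' j).1 h2.symm)
      · rw [hy, if_neg h]
  refine ⟨V, ?_, ?_, hVy, hV4, hV5⟩
  · intro i j hij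
    by_cases hi : i = y
    · subst hi
      rw [hVy, if_neg]
      rintro rfl
      exact lt_irrefl _ hij
    · refine hV1 ?_
      by_cases hj : j = y
      · subst hj
        rw [hy1] at hij
        have h2 : typ i = 2 := by
          have : ∀ a : Fin 3, 1 < a → a = 2 := by decide
          exact this _ hij
        rw [hfy, (fb_two hy1 i).1 h2]
        decide
      · unfold fb
        rw [if_neg hi, if_neg hj]
        have : ∀ a b : Fin 3, a < b → (if a = 2 then 3 else if a = 1 then 1 else 0 : ℕ) <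
            (if b = 2 then 3 else if b = 1 then 1 else 0 : ℕ) := by decide
        convert this _ _ hij
  · intro k
    have : ∀ a : Fin 3, a = 0 ∨ a = 1 ∨ a = 2 := by decide
    rcases this k with rfl | rfl | rfl
    · rw [det_block_congr V typ (fb typ y) 0 0 (fb_zero hy1)]
      exact hV2 0
    · rw [det_one V hy1 hVy]
      exact hV2 1
    · rw [det_block_congr V typ (fb typ y) 2 3 (fb_two hy1)]
      exact hV2 3

end Pool.Agent.FTO
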