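import Pool.Agent.FTO.Fil
import Pool.Agent.SSE.Fin0

/-!
# FTO, A1d: positivity

`η = X^e (1 + s1 + ... + s1^(K-1))`. `Ren s1 r1 c n0` with `r1 < r` (`ren_of_value`): the
coefficients of `1/(1-s1)` are `≥ c r1^(-n)` for `n ≥ n0`; in degrees `< K` they are those of the
truncated sum (`s1` has no constant term). Column `j ≠ x`: `P^T_ij + wt_i η px_j`, error
`≤ ε r^(-d)` in degrees `d ≥ T1`, gain `≥ c r1^(-(d-e-a))` for `n0+e+a ≤ d < K`. Column `x`:
`P^T_ix + wt_i η (s1 - 1) + wt_i η s2`, `η (s1 - 1) = X^e (s1^K - 1)`, the coefficient `e` of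
`PS i x` pays for `- wt_i X^e`. Take `T1 > n0 + e + a`, `K > T1 +` all degrees of `PT`.
-/

set_option autoImplicit false

open scoped BigOperators
open Matrix Polynomial

namespace Pool.Agent.FTO

open Pool.Agent.SSE

attribute [local instance] Classical.propDecidable

variable {I : Type} [Fintype I]

theorem toZ_geom (s : ℕ[X]) (K : ℕ) :
    Pool.Agent.SSE.toZ (∑ k ∈ Finset.range K, s ^ k) =
      ∑ k ∈ Finset.range K, Pool.Agent.SSE.toZ s ^ k := by
  simp only [Pool.Agent.SSE.toZ, Polynomial.map_sum, Polynomial.map_pow]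

/-- the truncated geometric series -/
theorem coeff_geom {s : ℕ[X]} (h0 : s.coeff 0 = 0) {K n : ℕ} (hn : n < K) :
    ((∑ k ∈ Finset.range K, s ^ k : ℕ[X]).coeff n : ℤ) = PowerSeries.coeff n (geo s) := by
  have h1 : (1 - ps (Pool.Agent.SSE.toZ s)) * ps (Pool.Agent.SSE.toZ (∑ k ∈ Finset.range K, s ^ k)) = 1 - ps (Pool.Agent.SSE.toZ s) ^ K := by
    have h : (1 - Pool.Agent.SSE.toZ s) * Pool.Agent.SSE.toZ (∑ k ∈ Finset.range K, s ^ k) = 1 - Pool.Agent.SSE.toZ s ^ K := by
      rw [toZ_geom, mul_comm]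
      exact geom_sum_mul_neg (Pool.Agent.SSE.toZ s) K
    have h' := congrArg ps h
    simp only [ps, Polynomial.coe_mul, Polynomial.coe_sub, Polynomial.coe_one,
      Polynomial.coe_pow] at h'
    exact h'
  have h2 : ps (Pool.Agent.SSE.toZ (∑ k ∈ Finset.range K, s ^ k)) = geo s - geo s * ps (Pool.Agent.SSE.toZ s) ^ K := by
    have h3 := geo_mul h0
    calc ps (Pool.Agent.SSE.toZ (∑ k ∈ Finset.range K, s ^ k))
        = (geo s * (1 - ps (Pool.Agent.SSE.toZ s))) * ps (Pool.Agent.SSE.toZ (∑ k ∈ Finset.range K, s ^ k)) := by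
          rw [h3, one_mul]
      _ = geo s * (1 - ps (Pool.Agent.SSE.toZ s) ^ K) := by rw [mul_assoc, h1]
      _ = _ := by ring
  have h4 : PowerSeries.coeff n (geo s * ps (Pool.Agent.SSE.toZ s) ^ K) = 0 := by
    have h5 : (PowerSeries.X : PowerSeries ℤ) ∣ ps (Pool.Agent.SSE.toZ s) := by
      rw [PowerSeries.X_dvd_iff, ← PowerSeries.coeff_zero_eq_constantCoeff_apply, coeff_ps,
        coeff_toZ, h0]
      rfl
    have h6 : (PowerSeries.X : PowerSeries ℤ) ^ K ∣ geo s * ps (Pool.Agent.SSE.toZ s) ^ K :=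
      Dvd.dvd.mul_left (pow_dvd_pow_of_dvd h5 K) _
    exact PowerSeries.X_pow_dvd_iff.1 h6 n hn
  have h7 := congrArg (PowerSeries.coeff n) h2
  rw [map_sub, h4, sub_zero, coeff_ps, coeff_toZ] at h7
  exact h7

theorem positivity_step {r : ℝ} (hr : 0 < r) (hr1 : r ≤ 1) (PS : Matrix I I (PowerSeries ℤ))
    (hn : ∀ i j d, 0 ≤ PowerSeries.coeff d (PS i j)) (x : I) (px : I → ℕ[X])
    (hp : ∀ j, px j ≠ 0) (hp0 : ∀ j, (px j).coeff 0 = 0) (s1 s2 : ℕ[X]) (hx : px x = s1 + s2)
    (hs2 : s2 ≠ 0) (hs1 : ∃ d, s1.coeff d ≠ 0 ∧ s1.coeff (d + 1) ≠ 0) (hv : 1 < evp r s1)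
    (wt : I → ℕ) (hw : ∀ i, 0 < wt i) (e : ℕ)
    (he : ∀ i, i ≠ x → (wt i : ℤ) ≤ PowerSeries.coeff e (PS i x)) :
    ∃ ε : ℝ, 0 < ε ∧ ∃ T1 : ℕ, ∀ PT : Matrix I I ℤ[X],
      (∀ i j, FN r (ps (PT i j) - PS i j)) → (∀ i j, sn r (ps (PT i j) - PS i j) ≤ ε) →
      (∀ i j, ∀ d < T1, (PT i j).coeff d = PowerSeries.coeff d (PS i j)) →
      ∃ η : ℕ[X], ∀ i, i ≠ x → ∀ j,
        (∀ d, 0 ≤ (PT i j + Pool.Agent.SSE.toZ (C (wt i) * η) * (Pool.Agent.SSE.toZ (px j) - if j = x then 1 else 0)).coeff d) ∧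
        (PT i j + Pool.Agent.SSE.toZ (C (wt i) * η) * (Pool.Agent.SSE.toZ (px j) - if j = x then 1 else 0)) ≠ 0 := by
  have hs10 : s1.coeff 0 = 0 := by
    have := hp0 x
    rw [hx, coeff_add] at this
    omega
  obtain ⟨d1, hd1, hd2⟩ := hs1
  have hv' : 1 < wn r (toR (Pool.Agent.SSE.toZ s1)) := by
    rw [wn_toZ, ← evp_eq]
    exact hv
  obtain ⟨r1, c, n0, hr1r, hR⟩ := ren_of_value hs10 hr hr1 hv' hd1 hd2
  -- the polynomials which carry the gain
  let m : I → ℕ[X] := fun j => if j = x then s2 else px j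
  have hm : ∀ j, m j ≠ 0 := by
    intro j
    by_cases hj : j = x
    · simp only [m, if_pos hj]
      exact hs2
    · simp only [m, if_neg hj]
      exact hp j
  have ha : ∀ j, ∃ a, (m j).coeff a ≠ 0 := by
    intro j
    by_contra hcon
    push Not at hcon
    apply hm j
    ext a
    rw [hcon a, coeff_zero]
  choose a ha using ha
  set Am : ℕ := ∑ j, a j with hAm
  have haA : ∀ j, a j ≤ Am := fun j =>
    Finset.single_le_sum (f := a) (fun _ _ => Nat.zero_le _) (Finset.mem_univ j)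
  refine ⟨c * r1 ^ (Am + e), mul_pos hR.cpos (pow_pos hR.r0 _), n0 + e + Am + 1, ?_⟩
  intro PT hFN hsn hlow
  -- degrees
  set Dg : ℕ := ∑ i, ∑ j, (PT i j).natDegree with hDg
  have hdeg : ∀ i j, (PT i j).natDegree ≤ Dg := by
    intro i j
    refine (Finset.single_le_sum (f := fun j => (PT i j).natDegree) (fun _ _ => Nat.zero_le _)
      (Finset.mem_univ j)).trans ?_
    exact Finset.single_le_sum (f := fun i => ∑ j, (PT i j).natDegree) (fun _ _ => Nat.zero_le _)
      (Finset.mem_univ i)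
  set K : ℕ := Dg + n0 + 2 with hK
  set G : ℕ[X] := ∑ k ∈ Finset.range K, s1 ^ k with hG
  have hGlow : ∀ n, n0 ≤ n → n < K → c * (r1⁻¹) ^ n ≤ ((G.coeff n : ℕ) : ℝ) := by
    intro n hn0 hnK
    have h1 := hR.low n hn0
    rw [← coeff_geom hs10 hnK] at h1
    exact_mod_cast h1
  refine ⟨X ^ e * G, ?_⟩
  intro i hi j
  -- the entry
  have hent : PT i j + Pool.Agent.SSE.toZ (C (wt i) * (X ^ e * G)) * (Pool.Agent.SSE.toZ (px j) - if j = x then 1 else 0) =
      PT i j - (if j = x then Pool.Agent.SSE.toZ (C (wt i) * X ^ e) else 0) +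
      Pool.Agent.SSE.toZ ((if j = x then C (wt i) * X ^ e * s1 ^ K else 0) + C (wt i) * (X ^ e * G * m j)) := by
    by_cases hj : j = x
    · have hgs : Pool.Agent.SSE.toZ G * (Pool.Agent.SSE.toZ s1 - 1) =
          Pool.Agent.SSE.toZ s1 ^ K - 1 := by
        rw [hG, toZ_geom]
        exact geom_sum_mul (Pool.Agent.SSE.toZ s1) K
      simp only [m, if_pos hj]
      rw [hj, hx]
      simp only [Pool.Agent.SSE.toZ, Polynomial.map_mul, Polynomial.map_add, Polynomial.map_pow] at hgs ⊢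
      have : Pool.Agent.SSE.toZ (C (wt i)) * (Pool.Agent.SSE.toZ X ^ e * Pool.Agent.SSE.toZ G) * (Pool.Agent.SSE.toZ s1 + Pool.Agent.SSE.toZ s2 - 1) =
          Pool.Agent.SSE.toZ (C (wt i)) * Pool.Agent.SSE.toZ X ^ e * (Pool.Agent.SSE.toZ G * (Pool.Agent.SSE.toZ s1 - 1)) +
          Pool.Agent.SSE.toZ (C (wt i)) * Pool.Agent.SSE.toZ X ^ e * (Pool.Agent.SSE.toZ G * Pool.Agent.SSE.toZ s2) := by ring
      rw [this, hgs]
      ring
    · simp only [m, if_neg hj]
      simp only [Pool.Agent.SSE.toZ, Polynomial.map_mul, Polynomial.map_pow, sub_zero, zero_add]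
      ring
  rw [hent]
  -- lower bound of the gain
  have hgain : ∀ d, e + a j ≤ d → (G.coeff (d - e - a j)) ≤ (C (wt i) * (X ^ e * G * m j)).coeff d := by
    intro d hd
    rw [coeff_C_mul]
    have h1 : (X ^ e * G * m j).coeff d = (G * m j).coeff (d - e) := by
      rw [mul_assoc, mul_comm, coeff_mul_X_pow', if_pos (by omega)]
    rw [h1, coeff_mul]
    have h2 : (d - e - a j, a j) ∈ Finset.HasAntidiagonal.antidiagonal (d - e) := by
      rw [Finset.HasAntidiagonal.mem_antidiagonal]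
      omega
    have h3 := Finset.single_le_sum (f := fun p : ℕ × ℕ => G.coeff p.1 * (m j).coeff p.2)
      (fun _ _ => Nat.zero_le _) h2
    simp only at h3
    have h4 : 1 ≤ (m j).coeff (a j) := Nat.one_le_iff_ne_zero.2 (ha j)
    have h5 := hw i
    calc G.coeff (d - e - a j) ≤ G.coeff (d - e - a j) * (m j).coeff (a j) :=
          Nat.le_mul_of_pos_right _ h4
      _ ≤ _ := h3
      _ ≤ _ := Nat.le_mul_of_pos_left _ h5
  have hcoef : ∀ d, (PT i j - (if j = x then Pool.Agent.SSE.toZ (C (wt i) * X ^ e) else 0) +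
      Pool.Agent.SSE.toZ ((if j = x then C (wt i) * X ^ e * s1 ^ K else 0) +
        C (wt i) * (X ^ e * G * m j))).coeff d =
      (PT i j).coeff d - (if j = x ∧ d = e then (wt i : ℤ) else 0) +
      (((if j = x then C (wt i) * X ^ e * s1 ^ K else 0 : ℕ[X]).coeff d : ℕ) : ℤ) +
      (((C (wt i) * (X ^ e * G * m j)).coeff d : ℕ) : ℤ) := by
    intro d
    rw [coeff_add, coeff_sub, coeff_toZ, coeff_add, Nat.cast_add, ← add_assoc]
    congr 3
    by_cases hj : j = x
    · rw [if_pos hj, coeff_toZ, coeff_C_mul, coeff_X_pow]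
      by_cases hde : d = e
      · rw [if_pos hde, if_pos ⟨hj, hde⟩, mul_one]
      · rw [if_neg hde, if_neg (fun h => hde h.2), mul_zero, Nat.cast_zero]
    · rw [if_neg hj, coeff_zero, if_neg (fun h => hj h.1)]
  constructor
  · intro d
    rw [hcoef]
    have hA : (0 : ℤ) ≤ (((if j = x then C (wt i) * X ^ e * s1 ^ K else 0 : ℕ[X]).coeff d : ℕ) : ℤ) :=
      Int.natCast_nonneg _
    have hB : (0 : ℤ) ≤ (((C (wt i) * (X ^ e * G * m j)).coeff d : ℕ) : ℤ) := Int.natCast_nonneg _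
    rcases Nat.lt_or_ge d (n0 + e + Am + 1) with hd | hd
    · -- low degrees
      rw [hlow i j d hd]
      have h0 : 0 ≤ PowerSeries.coeff d (PS i j) - (if j = x ∧ d = e then (wt i : ℤ) else 0) := by
        by_cases hje : j = x ∧ d = e
        · rw [if_pos hje, hje.1, hje.2]
          have := he i hi
          omega
        · rw [if_neg hje, sub_zero]
          exact hn i j d
      omega
    · have hne : ¬(j = x ∧ d = e) := by
        rintro ⟨-, h⟩
        omega
      rw [if_neg hne, sub_zero]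
      rcases Nat.lt_or_ge Dg d with hd' | hd'
      · have : (PT i j).coeff d = 0 :=
          coeff_eq_zero_of_natDegree_lt (lt_of_le_of_lt (hdeg i j) hd')
        rw [this]
        omega
      · -- the window
        have h1 := PF.HasN.le hr.le (hFN i j) d
        have h2 := h1.trans (hsn i j)
        rw [HN.coeff_toRS, map_sub, coeff_ps] at h2
        have h3 : -(c * r1 ^ (Am + e)) ≤ (((PT i j).coeff d : ℤ) : ℝ) * r ^ d := by
          rw [Real.norm_eq_abs] at h2
          have hrd : 0 < r ^ d := pow_pos hr d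
          have h4 : -|(((PT i j).coeff d - PowerSeries.coeff d (PS i j) : ℤ) : ℝ)| ≤
              (((PT i j).coeff d - PowerSeries.coeff d (PS i j) : ℤ) : ℝ) := neg_abs_le _
          have h5 : (0 : ℝ) ≤ ((PowerSeries.coeff d (PS i j) : ℤ) : ℝ) := by
            exact_mod_cast hn i j d
          push_cast at h4 h2
          nlinarith
        have h4 : G.coeff (d - e - a j) ≤ (C (wt i) * (X ^ e * G * m j)).coeff d :=
          hgain d (by have := haA j; omega)
        have h5 := hGlow (d - e - a j) (by have := haA j; omega) (by omega)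
        have h6 : c * r1 ^ (Am + e) ≤ ((G.coeff (d - e - a j) : ℕ) : ℝ) * r ^ d := by
          have hr1pos := hR.r0
          have hinv : (r1⁻¹) ^ (d - e - a j) = (r1 ^ (d - e - a j))⁻¹ := inv_pow _ _
          have h7 : r1 ^ (Am + e) ≤ r1 ^ (e + a j) :=
            pow_le_pow_of_le_one hr1pos.le hR.r1.le (by have := haA j; omega)
          have h8 : r1 ^ d ≤ r ^ d := pow_le_pow_left₀ hr1pos.le hr1r.le d
          have h9 : r1 ^ d = r1 ^ (d - e - a j) * r1 ^ (e + a j) := by
            rw [← pow_add]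
            congr 1
            have := haA j
            omega
          have h10 : (r1⁻¹) ^ (d - e - a j) * r1 ^ d = r1 ^ (e + a j) := by
            rw [hinv, h9, ← mul_assoc, inv_mul_cancel₀ (pow_pos hr1pos _).ne', one_mul]
          calc c * r1 ^ (Am + e) ≤ c * r1 ^ (e + a j) :=
                mul_le_mul_of_nonneg_left h7 hR.cpos.le
            _ = c * (r1⁻¹) ^ (d - e - a j) * r1 ^ d := by rw [mul_assoc, h10]
            _ ≤ c * (r1⁻¹) ^ (d - e - a j) * r ^ d :=
                mul_le_mul_of_nonneg_left h8 (mul_nonneg hR.cpos.le (pow_nonneg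
                  (inv_nonneg.2 hr1pos.le) _))
            _ ≤ _ := mul_le_mul_of_nonneg_right h5 (pow_nonneg hr.le d)
        have h11 : (0 : ℝ) ≤ ((((PT i j).coeff d : ℤ) : ℝ) + ((G.coeff (d - e - a j) : ℕ) : ℝ)) := by
          have hrd : 0 < r ^ d := pow_pos hr d
          by_contra hcon
          push Not at hcon
          have := mul_neg_of_neg_of_pos hcon hrd
          nlinarith
        have h12 : (0 : ℤ) ≤ (PT i j).coeff d + ((G.coeff (d - e - a j) : ℕ) : ℤ) := by
          exact_mod_cast h11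
        have h13 : ((G.coeff (d - e - a j) : ℕ) : ℤ) ≤
            (((C (wt i) * (X ^ e * G * m j)).coeff d : ℕ) : ℤ) := by exact_mod_cast h4
        omega
  · intro h0
    have h1 := hcoef (e + a j + (Dg + n0 + 1))
    rw [h0, coeff_zero] at h1
    have h2 : (PT i j).coeff (e + a j + (Dg + n0 + 1)) = 0 :=
      coeff_eq_zero_of_natDegree_lt (lt_of_le_of_lt (hdeg i j) (by omega))
    have h3 : ¬(j = x ∧ e + a j + (Dg + n0 + 1) = e) := by
      rintro ⟨-, h⟩
      omega
    rw [h2, if_neg h3] at h1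
    have h4 := hgain (e + a j + (Dg + n0 + 1)) (by omega)
    have h5 : e + a j + (Dg + n0 + 1) - e - a j = Dg + n0 + 1 := by omega
    rw [h5] at h4
    have h6 := hGlow (Dg + n0 + 1) (by omega) (by omega)
    have h7 : (0 : ℝ) < ((G.coeff (Dg + n0 + 1) : ℕ) : ℝ) :=
      lt_of_lt_of_le (mul_pos hR.cpos (pow_pos (inv_pos.2 hR.r0) _)) h6
    have h8 : 0 < G.coeff (Dg + n0 + 1) := by exact_mod_cast h7
    omega

end Pool.Agent.FTO
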