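import Pool.Agent.FTO.E3
import Pool.Agent.FTO.B1
import Pool.Agent.FTO.P1

/-!
# FTO, A1e: from the target to the structured presentation

`R1` := `horse` for the adapted classes `acl S c`, with the row `y := S.jj (S.pr x)` prescribed:
`ρ := row (S.jj (S.pr x)) of CM (1 - px) CI` (the hub has a fibre with one element, so
`S.bv (S.jj (S.pr x)) = Pi.single x 1`). `C1 := CM (1 - PS) CI = U R1`: rows by `div_rel` (all rows
of `1 - PS` are `τ`-balanced, `acl` is the change of basis). `U` block triangular with block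
determinants `1`, unit row at `y`. `V` := `block_approx`. `PT := 1 - CI (V R1) CM`: integral,
structured over `QT` (`1 - QT` = the block of type `1`), `ps PT - PS = CI ((U - V) R1) CM`. `P` :=
`PT + wt η (px - 1_x)` (row `x`: `px`), `Q` := `QT + κ η (..)`. `PresOf`: `RelOf.of_det` /
multiplication by matrices of determinant `1`.
-/

set_option autoImplicit false

open scoped BigOperators
open Matrix Polynomial

namespace Pool.Agent.FTO

open Pool.Agent.SSE

attribute [local instance] Classical.propDecidable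

variable {K KN KB KH L : Type} [AddCommGroup K] [Module ℤ[X] K] [AddCommGroup KN]
  [Module ℤ[X] KN] [AddCommGroup KB] [Module ℤ[X] KB] [AddCommGroup KH] [Module ℤ[X] KH]
  [AddCommGroup L] [Module ℤ[X] L] {I J : Type} [Fintype I] [Fintype J]

/-- the structured matrix close to `PS` -/
theorem exists_PT (hA : ApproxThm) {δN δB δH : ℤ[X]} (F : Fil K KN KB KH L)
    (D : PFM K (δN * (δB * δH))) (h1 : δN.coeff 0 = 1) (h2 : δB.coeff 0 = 1)
    (h3 : δH.coeff 0 = 1) (S : Str I J) (c : I → K) (cB : J → KB) (r : ℝ)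
    (PS : Matrix I I (PowerSeries ℤ)) (QS : Matrix J J (PowerSeries ℤ)) (x : I)
    (h : Tgt F D S c cB r PS QS x) {px : I → ℕ[X]} {s1 s2 : ℕ[X]}
    (hub : HubRow S r c PS x px s1 s2) (N : ℕ) {ε : ℝ} (hε : 0 < ε) :
    ∃ (PT : Matrix I I ℤ[X]) (QT : Matrix J J ℤ[X]), Structured S PT QT ∧
      (∀ j, PT x j = toZ (px j)) ∧ (∀ i j, FN r (ps (PT i j) - PS i j)) ∧
      (∀ i j, sn r (ps (PT i j) - PS i j) ≤ ε) ∧
      (∀ i j, ∀ d < N, (PT i j).coeff d = PowerSeries.coeff d (PS i j)) ∧
      (1 - PT).det = δN * (δB * δH) ∧ (1 - QT).det = δB ∧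
      (∀ i, ∑ j, (1 - PT : Matrix I I ℤ[X]) i j • c j = 0) ∧
      ∀ z : K, ∃ v : I → ℤ[X], z = ∑ j, v j • c j := by
  have hr0 : 0 < r := D.x0_pos.trans (D.x0_lt h.r_gt)
  have hr1 : r < 1 := h.r_le.trans_lt D.rad_lt
  obtain ⟨R, U, hR, hRT, hR1, hRx, hCU, hUF, hUT, hUd, hUx⟩ :=
    exists_RU F D h1 h2 h3 S c cB r PS QS x h hub
  have hjx := S.jj_triv hub.triv
  have hx1 : S.typ x = 1 := by
    have := S.typ_jj (S.pr x)
    rwa [hjx] at this
  set CIp := S.CI (PowerSeries ℤ) with hCIp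
  set CMp := S.CM (PowerSeries ℤ) with hCMp
  have hCIZ : (S.CI ℤ[X]).map psR = CIp := S.map_CI psR
  have hCMZ : (S.CM ℤ[X]).map psR = CMp := S.map_CM psR
  have hFI : ∀ i j, FN r (CIp i j) := fun i j => by
    rw [← hCIZ]
    exact fn_ps r _
  have hFM : ∀ i j, FN r (CMp i j) := fun i j => by
    rw [← hCMZ]
    exact fn_ps r _
  set M1 := R.map psR * CMp with hM1
  have hFM1 : ∀ i j, FN r (M1 i j) := fn_matmul hr0.le (fun i j => fn_ps r _) hFM
  set a := ∑ i, ∑ j, sn r (CIp i j) with ha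
  set b := ∑ i, ∑ j, sn r (M1 i j) with hb
  have hle : ∀ (M : Matrix I I (PowerSeries ℤ)) (i j : I), sn r (M i j) ≤ ∑ i, ∑ j, sn r (M i j) := by
    intro M i j
    refine (Finset.single_le_sum (f := fun j => sn r (M i j)) (fun j _ => sn_nonneg' hr0.le _)
      (Finset.mem_univ j)).trans ?_
    exact Finset.single_le_sum (f := fun i => ∑ j, sn r (M i j))
      (fun i _ => Finset.sum_nonneg fun j _ => sn_nonneg' hr0.le _) (Finset.mem_univ i)
  have ha0 : 0 ≤ a := Finset.sum_nonneg fun i _ => Finset.sum_nonneg fun j _ =>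
    sn_nonneg' hr0.le _
  have hb0 : 0 ≤ b := Finset.sum_nonneg fun i _ => Finset.sum_nonneg fun j _ =>
    sn_nonneg' hr0.le _
  set n : ℝ := (Fintype.card I : ℝ) with hn
  have hn0 : 0 ≤ n := Nat.cast_nonneg _
  set G := n * (a * (n * b)) with hG
  have hG0 : 0 ≤ G := by positivity
  obtain ⟨V, hVT, hVd, hVx, hVN, hVε⟩ := block_approx hA hr0 hr1 S.typ U hUF hUT hUd x hx1 hUx N
    (ε := ε / (G + 1)) (by positivity)
  have hVd1 := hVd 1
  set PT : Matrix I I ℤ[X] := 1 - S.CI ℤ[X] * (V * R) * S.CM ℤ[X] with hPT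
  have hst := PT_structured S V R hVT hRT
  rw [← hPT] at hst
  -- the difference
  have hPS : PS = 1 - CIp * (U * R.map psR) * CMp := by
    have h4 : CIp * (CMp * (1 - PS) * CIp) * CMp = 1 - PS := by
      rw [Matrix.mul_assoc CMp, ← Matrix.mul_assoc CIp, S.CI_mul_CM, Matrix.one_mul,
        Matrix.mul_assoc, S.CI_mul_CM, Matrix.mul_one]
    have h5 : CMp * (1 - PS) * CIp = U * R.map psR := hCU
    rw [← h5, h4, sub_sub_cancel]
  have hPTp : PT.map psR = 1 - CIp * (V.map psR * R.map psR) * CMp := by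
    rw [hPT]
    have h6 : (1 - S.CI ℤ[X] * (V * R) * S.CM ℤ[X]).map psR =
        (1 : Matrix I I ℤ[X]).map psR - (S.CI ℤ[X] * (V * R) * S.CM ℤ[X]).map psR :=
      Matrix.ext fun i j => map_sub psR _ _
    rw [h6, Matrix.map_mul, Matrix.map_mul, Matrix.map_mul, hCIZ, hCMZ,
      Matrix.map_one _ (map_zero _) (map_one _)]
  set W := U - V.map psR with hW
  have hdiff : ∀ i j, ps (PT i j) - PS i j = (CIp * (W * M1)) i j := by
    intro i j
    have h7 : PT.map psR - PS = CIp * (W * M1) := by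
      rw [hPTp]
      conv_lhs => rw [hPS]
      rw [hM1, hW, Matrix.sub_mul, Matrix.mul_sub, sub_sub_sub_cancel_left, ← Matrix.mul_assoc,
        ← Matrix.mul_assoc, ← Matrix.mul_assoc, ← Matrix.mul_assoc, ← Matrix.mul_assoc,
        ← Matrix.mul_assoc]
    exact congrFun (congrFun h7 i) j
  have hWF : ∀ i j, FN r (W i j) := fun i j => FN.sub hr0.le (hUF i j) (fn_ps r _)
  have hWs : ∀ i j, sn r (W i j) ≤ ε / (G + 1) := by
    intro i j
    have h8 : sn r (W i j) = sn r (ps (V i j) - U i j) := by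
      have h9 : W i j = -(ps (V i j) - U i j) := by
        rw [hW, Matrix.sub_apply, Matrix.map_apply, psR_apply]
        ring
      rw [h9]
      unfold sn PF.nS
      congr 1
      funext d
      rw [map_neg, map_neg, norm_neg]
    rw [h8]
    exact hVε i j
  have hWM : ∀ i j, FN r ((W * M1) i j) := fn_matmul hr0.le hWF hFM1
  have hWMs : ∀ i j, sn r ((W * M1) i j) ≤ n * (ε / (G + 1) * b) :=
    sn_matmul_le hr0.le hWF hFM1 hWs (hle M1)
  have hWN : ∀ i j, (PowerSeries.X : PowerSeries ℤ) ^ N ∣ W i j := by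
    intro i j
    rw [PowerSeries.X_pow_dvd_iff]
    intro d hd
    rw [hW, Matrix.sub_apply, map_sub, Matrix.map_apply, psR_apply, coeff_ps, hVN i j d hd,
      sub_self]
  -- rows
  have hPTx : ∀ j, PT x j = toZ (px j) := by
    intro j
    have hco : S.CI ℤ[X] x = Pi.single x 1 := by
      funext i
      have h4 := S.co_bv (R := ℤ[X]) x i
      rw [S.bv_triv hub.triv] at h4
      change S.co (Pi.single x 1 : I → ℤ[X]) i = _
      rw [h4, Pi.single_apply]
      simp only [eq_comm]
    have hVrow : (V * R) x = R x := by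
      funext k
      rw [Matrix.mul_apply, Finset.sum_eq_single x]
      · rw [hVx x, if_pos rfl, one_mul]
      · intro l _ hl
        rw [hVx l, if_neg hl, zero_mul]
      · intro h
        exact absurd (Finset.mem_univ _) h
    have h4 : (S.CI ℤ[X] * (V * R) * S.CM ℤ[X]) x j =
        ((Pi.single x 1 - fun j => toZ (px j) : I → ℤ[X])) j := by
      have h5 : (S.CI ℤ[X] * (V * R)) x = R x := by
        funext k
        rw [Matrix.mul_apply, hco, Finset.sum_eq_single x]
        · rw [Pi.single_eq_same, one_mul]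
          exact congrFun hVrow k
        · intro l _ hl
          rw [Pi.single_eq_of_ne hl, zero_mul]
        · intro h
          exact absurd (Finset.mem_univ _) h
      rw [Matrix.mul_apply]
      have h6 : ∀ k, (S.CI ℤ[X] * (V * R)) x k = R x k := fun k => congrFun h5 k
      simp only [h6, hRx]
      have h7 := congrFun (S.eq_sum_bv (Pi.single x 1 - fun j => toZ (px j) : I → ℤ[X])) j
      rw [Finset.sum_apply] at h7
      rw [h7]
      rfl
    rw [hPT, Matrix.sub_apply, h4, Pi.sub_apply, Matrix.one_apply, Pi.single_apply]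
    by_cases hj : j = x
    · rw [if_pos hj, if_pos hj.symm]
      ring
    · rw [if_neg hj, if_neg fun h => hj h.symm]
      ring
  refine ⟨PT, _, hst, hPTx, ?_, ?_, ?_, ?_, ?_, ?_, ?_⟩
  · intro i j
    rw [hdiff]
    exact fn_matmul hr0.le hFI hWM i j
  · intro i j
    rw [hdiff]
    refine (sn_matmul_le hr0.le hFI hWM (hle CIp) hWMs i j).trans ?_
    have h9 : n * (a * (n * (ε / (G + 1) * b))) = ε * (G / (G + 1)) := by
      rw [hG]
      field_simp
    rw [h9]
    have h10 : G / (G + 1) ≤ 1 := by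
      rw [div_le_one (by positivity)]
      linarith
    calc ε * (G / (G + 1)) ≤ ε * 1 := mul_le_mul_of_nonneg_left h10 hε.le
      _ = ε := mul_one _
  · intro i j d hd
    have h9 : (PowerSeries.X : PowerSeries ℤ) ^ N ∣ ps (PT i j) - PS i j := by
      rw [hdiff]
      exact dvd_matmul' (fun i j => dvd_matmul hWN i j) i j
    have h10 := (PowerSeries.X_pow_dvd_iff.1 h9) d hd
    rw [map_sub, coeff_ps, sub_eq_zero] at h10
    exact h10
  · have h11 : 1 - PT = S.CI ℤ[X] * (V * R) * S.CM ℤ[X] := by rw [hPT, sub_sub_cancel]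
    have hVdet : V.det = 1 := by
      rw [hVT.det_fintype]
      exact Finset.prod_eq_one fun k _ => hVd k
    have hc : (S.CI ℤ[X]).det * (S.CM ℤ[X]).det = 1 := by
      rw [← Matrix.det_mul, S.CI_mul_CM, Matrix.det_one]
    rw [h11, Matrix.det_mul, Matrix.det_mul, Matrix.det_mul, hVdet, hR.det, one_mul, mul_right_comm,
      hc, one_mul]
  · exact QT_det S V R hVT hRT hVd1 hR1
  · intro i
    have h11 : 1 - PT = S.CI ℤ[X] * (V * R) * S.CM ℤ[X] := by rw [hPT, sub_sub_cancel]
    rw [h11]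
    have h12 : ∑ j, (S.CI ℤ[X] * (V * R) * S.CM ℤ[X]) i j • c j =
        ∑ k, (S.CI ℤ[X] * (V * R)) i k • acl S c k := by
      rw [sum_acl]
      rfl
    rw [h12, ← Matrix.mul_assoc]
    exact rel_vecMul hR.rel _
  · exact fun z => top_of_acl S c hR.top z

/-- **A1.** -/
theorem exists_structured (hA : ApproxThm) {δN δB δH : ℤ[X]} (F : Fil K KN KB KH L)
    (D : PFM K (δN * (δB * δH))) (h1 : δN.coeff 0 = 1) (h2 : δB.coeff 0 = 1)
    (h3 : δH.coeff 0 = 1) (S : Str I J) (c : I → K) (cB : J → KB) (r : ℝ)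
    (PS : Matrix I I (PowerSeries ℤ)) (QS : Matrix J J (PowerSeries ℤ)) (x : I)
    (h : Tgt F D S c cB r PS QS x) :
    ∃ (P : Matrix I I ℕ[X]) (Q : Matrix J J ℕ[X]), Structured S P Q ∧
      PresOf (δN * (δB * δH)) c P ∧ PresOf δB cB Q ∧ (∀ i j, P i j ≠ 0) ∧
      ∃ d, (P x x).coeff d ≠ 0 ∧ (P x x).coeff (d + 1) ≠ 0 := by
  obtain ⟨px, s1, s2, hub⟩ := h.hub
  obtain ⟨wt, κ, e, hw⟩ := h.wts
  have hr0 : 0 < r := D.x0_pos.trans (D.x0_lt h.r_gt)
  have hr1 : r < 1 := h.r_le.trans_lt D.rad_lt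
  have hp0 : ∀ j, (px j).coeff 0 = 0 := by
    intro j
    have h4 := (h.ts x j).c0
    rw [hub.row, coeff_ps, coeff_toZ] at h4
    exact_mod_cast h4
  obtain ⟨ε, hε, T1, hpos⟩ := positivity_step hr0 hr1.le PS (fun i j d => (h.ts i j).nn d) x px
    hub.see hp0 s1 s2 hub.loop hub.s2ne hub.s1c hub.s1v wt hw.pos e hw.see
  obtain ⟨PT, QT, hst, hPTx, hPTF, hPTs, hPTN, hPTd, hQTd, hPTrel, htop⟩ :=
    exists_PT hA F D h1 h2 h3 S c cB r PS QS x h hub (T1 + 1) hε
  obtain ⟨η, hη⟩ := hpos PT hPTF hPTs fun i j d hd => hPTN i j d (by omega)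
  have hPT0 : ∀ i j, (PT i j).coeff 0 = 0 := fun i j => by
    rw [hPTN i j 0 (by omega), (h.ts i j).c0]
  -- the correction
  set m : I → ℤ[X] := fun j => toZ (px j) - (if j = x then 1 else 0) with hm
  set u : I → ℤ[X] := fun i => if i = x then 0 else toZ (C (wt i) * η) with hu
  have hux : u x = 0 := if_pos rfl
  have hxL : S.InL (S.pr x) (Pi.single x 1 : I → ℕ) := S.inL_triv hub.triv
  have hcast : (fun i => (((Pi.single x 1 : I → ℕ) i : ℕ) : ℤ[X])) = Pi.single x 1 := by
    funext i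
    rw [Pi.single_apply, Pi.single_apply]
    split_ifs <;> simp
  have hsv : (fun i => (((Pi.single x 1 : I → ℕ) i : ℕ) : ℤ[X])) ᵥ* PT = fun j => toZ (px j) := by
    rw [hcast, Matrix.single_one_vecMul]
    funext j
    exact hPTx j
  have hxM := hst _ _ hxL
  rw [hsv] at hxM
  have h1x : S.InM (Pi.single x 1 : I → ℤ[X]) := by
    have := S.inL_inM (R := ℤ[X]) hxL
    rwa [hcast] at this
  have h1d : ∀ j', S.deg (Pi.single x 1 : I → ℤ[X]) j' = if S.pr x = j' then 1 else 0 := by
    intro j'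
    have := S.inL_deg (R := ℤ[X]) hxL j'
    rwa [hcast] at this
  have hmeq : m = (fun j => toZ (px j)) - Pi.single x 1 := by
    funext j
    rw [hm, Pi.sub_apply, Pi.single_apply]
  have hmM : S.InM m := by
    rw [hmeq]
    exact inM_sub hxM.1 h1x
  have hmd : ∀ j', S.deg m j' = QT (S.pr x) j' - if S.pr x = j' then 1 else 0 := by
    intro j'
    rw [hmeq, S.deg_sub, hxM.2, h1d]
  set κ' : J → ℤ[X] := fun j => if j = S.pr x then 0 else toZ (C (κ j) * η) with hκ
  have hcol := structured_col S u κ' (by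
    intro j v hv
    by_cases hj : j = S.pr x
    · rw [hκ]
      simp only [if_pos hj]
      refine Finset.sum_eq_zero fun i _ => ?_
      by_cases hi : v i = 0
      · rw [hi, Nat.cast_zero, zero_mul]
      · have h4 : i = x := hub.triv i ((S.inL_supp hv hi).trans hj)
        rw [h4, hux, mul_zero]
    · rw [hκ]
      simp only [if_neg hj]
      have hvx : v x = 0 := by
        by_contra hne
        exact hj (S.inL_supp hv hne).symm
      have h4 : ∀ i, ((v i : ℕ) : ℤ[X]) * u i = toZ (C (v i * wt i) * η) := by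
        intro i
        by_cases hi : i = x
        · rw [hi, hux, hvx]
          simp
        · rw [hu]
          simp only [if_neg hi]
          unfold Pool.Agent.SSE.toZ
          rw [Polynomial.map_mul, Polynomial.map_mul, Polynomial.map_C, Polynomial.map_C,
            ← mul_assoc]
          congr 1
          simp
      rw [Finset.sum_congr rfl fun i _ => h4 i, ← hw.tr j v hv]
      unfold Pool.Agent.SSE.toZ
      rw [← Polynomial.map_sum, ← Finset.sum_mul, ← map_sum]) m hmM
  set PZ : Matrix I I ℤ[X] := PT + of fun i k => u i * m k with hPZ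
  set QZ : Matrix J J ℤ[X] := QT + of fun j j' => κ' j * S.deg m j' with hQZ
  have hstZ : Structured S PZ QZ := hst.add' hcol
  have hPZx : ∀ j, PZ x j = toZ (px j) := by
    intro j
    rw [hPZ, Matrix.add_apply, of_apply, hux, zero_mul, add_zero, hPTx]
  have hPZi : ∀ i, i ≠ x → ∀ j, PZ i j =
      PT i j + toZ (C (wt i) * η) * (toZ (px j) - if j = x then 1 else 0) := by
    intro i hi j
    rw [hPZ, Matrix.add_apply, of_apply, hu]
    simp only [if_neg hi]
    rfl
  have hPZnn : ∀ i j d, 0 ≤ (PZ i j).coeff d := by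
    intro i j d
    by_cases hi : i = x
    · rw [hi, hPZx, coeff_toZ]
      positivity
    · rw [hPZi i hi]
      exact (hη i hi j).1 d
  have hPZne : ∀ i j, PZ i j ≠ 0 := by
    intro i j
    by_cases hi : i = x
    · rw [hi, hPZx]
      intro h0
      apply hub.see j
      apply Polynomial.map_injective (Nat.castRingHom ℤ) Nat.cast_injective
      change toZ (px j) = Polynomial.map (Nat.castRingHom ℤ) 0
      rw [h0, Polynomial.map_zero]
    · rw [hPZi i hi]
      exact (hη i hi j).2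
  have hPZ0 : ∀ i j, (PZ i j).coeff 0 = 0 := by
    intro i j
    by_cases hi : i = x
    · rw [hi, hPZx, coeff_toZ, hp0]
      rfl
    · -- the constant term of `η` vanishes
      have h4 := (hη i hi x).1 0
      rw [if_pos rfl, coeff_add, hPT0, zero_add, Polynomial.mul_coeff_zero, coeff_sub,
        coeff_toZ, coeff_toZ, hp0, Polynomial.coeff_one_zero, Polynomial.mul_coeff_zero,
        Polynomial.coeff_C_zero] at h4
      have h5 : (0 : ℤ) ≤ ((wt i * η.coeff 0 : ℕ) : ℤ) := by positivity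
      have h6 : ((wt i * η.coeff 0 : ℕ) : ℤ) = 0 := by
        have : ((0 : ℕ) : ℤ) - 1 = -1 := by norm_num
        rw [this] at h4
        linarith
      rw [hPZi i hi, coeff_add, hPT0, zero_add, Polynomial.mul_coeff_zero, coeff_toZ,
        Polynomial.mul_coeff_zero, Polynomial.coeff_C_zero, h6, zero_mul]
  obtain ⟨P, Q, hPQ, hP, hQ, hPp, hQp⟩ := lift_structured hstZ hPZnn hPZ0
  have hIP : IP P = 1 - PZ := by
    refine Matrix.ext fun i j => ?_
    rw [IP_apply, hP, Matrix.sub_apply, Matrix.one_apply]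
  have hIQ : IP Q = 1 - QZ := by
    refine Matrix.ext fun i j => ?_
    rw [IP_apply, hQ, Matrix.sub_apply, Matrix.one_apply]
  -- the rows of `1 - PZ`
  have hrowP : ∀ i j, (1 - PZ : Matrix I I ℤ[X]) i j =
      (1 - PT : Matrix I I ℤ[X]) i j + u i * (1 - PT : Matrix I I ℤ[X]) x j := by
    intro i j
    rw [hPZ, Matrix.sub_apply, Matrix.add_apply, of_apply, Matrix.sub_apply, Matrix.sub_apply,
      hPTx, hm, Matrix.one_apply, Matrix.one_apply]
    by_cases hj : j = x
    · simp only [hj, if_true]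
      ring
    · have hj' : ¬ x = j := fun h => hj h.symm
      simp only [hj, hj', if_false]
      ring
  have hrowQ : ∀ i j, (1 - QZ : Matrix J J ℤ[X]) i j =
      (1 - QT : Matrix J J ℤ[X]) i j + κ' i * (1 - QT : Matrix J J ℤ[X]) (S.pr x) j := by
    intro i j
    rw [hQZ, Matrix.sub_apply, Matrix.add_apply, of_apply, Matrix.sub_apply, Matrix.sub_apply,
      hmd, Matrix.one_apply, Matrix.one_apply]
    ring
  have hdetP : (1 - PZ).det = δN * (δB * δH) := by
    rw [← hPTd]
    exact Matrix.det_eq_of_forall_row_eq_smul_add_const u x hux hrowP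
  have hdetQ : (1 - QZ).det = δB := by
    rw [← hQTd]
    exact Matrix.det_eq_of_forall_row_eq_smul_add_const κ' (S.pr x) (if_pos rfl) hrowQ
  have hrelP : ∀ i, ∑ j, (1 - PZ : Matrix I I ℤ[X]) i j • c j = 0 := by
    intro i
    simp only [hrowP, add_smul, mul_smul, Finset.sum_add_distrib, ← Finset.smul_sum, hPTrel,
      smul_zero, add_zero]
  have hδ : (δN * (δB * δH)).coeff 0 = 1 := by
    rw [Polynomial.mul_coeff_zero, Polynomial.mul_coeff_zero, h1, h2, h3]
    norm_num
  have hne : ∀ {p : ℤ[X]}, p.coeff 0 = 1 → p ≠ 0 := by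
    intro p hp h0
    rw [h0, Polynomial.coeff_zero] at hp
    exact zero_ne_one hp
  obtain ⟨gN, RN, hN, hgN⟩ := h.relN
  obtain ⟨RB, hB, -⟩ := h.relB
  obtain ⟨R, U, hR, -⟩ := exists_RU F D h1 h2 h3 S c cB r PS QS x h hub
  refine ⟨P, Q, hPQ, ⟨hPp, ?_⟩, ⟨hQp, ?_⟩, ?_, ?_⟩
  · rw [hIP]
    exact RelOf.of_det (hne hδ) hR htop _ hrelP hdetP
  · rw [hIQ]
    refine RelOf.of_det (hne h2) hB hB.top _ ?_ hdetQ
    intro j
    apply F.b_inj
    rw [map_zero]
    -- a transversal over `j`
    have hL := S.inL_TT j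
    have h4 := hstZ j _ hL
    have h5 := fil_inM F S c cB h.cls gN hgN _ h4.1
    simp only [h4.2] at h5
    have h6 : ∑ i, ((fun i => ((S.TT (S.c0 j) i : ℕ) : ℤ[X])) ᵥ* PZ) i • c i =
        ∑ i, ((S.TT (S.c0 j) i : ℕ) : ℤ[X]) • c i := by
      have h7 : (fun i => ((S.TT (S.c0 j) i : ℕ) : ℤ[X])) ᵥ* PZ =
          (fun i => ((S.TT (S.c0 j) i : ℕ) : ℤ[X])) -
            (fun i => ((S.TT (S.c0 j) i : ℕ) : ℤ[X])) ᵥ* (1 - PZ) := by
        rw [Matrix.vecMul_sub, Matrix.vecMul_one, sub_sub_cancel]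
      rw [h7]
      simp only [Pi.sub_apply, sub_smul, Finset.sum_sub_distrib]
      rw [rel_vecMul hrelP, sub_zero]
    rw [h6, h.cls j _ hL] at h5
    simp only [Matrix.sub_apply, Matrix.one_apply, sub_smul, Finset.sum_sub_distrib, ite_smul,
      one_smul, zero_smul, Finset.sum_ite_eq, Finset.mem_univ, if_true, map_sub]
    rw [h5, sub_self]
  · intro i j h0
    apply hPZne i j
    rw [← hP, h0]
    exact Polynomial.map_zero _
  · obtain ⟨d, hd1, hd2⟩ := hub.s1c
    have hPx : P x x = s1 + s2 := by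
      rw [← hub.loop]
      apply Polynomial.map_injective (Nat.castRingHom ℤ) Nat.cast_injective
      change toZ (P x x) = toZ (px x)
      rw [hP, hPZx]
    refine ⟨d, ?_, ?_⟩
    · rw [hPx, coeff_add]
      omega
    · rw [hPx, coeff_add]
      omega

end Pool.Agent.FTO
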