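import Pool.Agent.FTO.Fil
import Pool.Agent.FTA.Approx

/-!
# FTO: the approximation theorem in the form of `Fil.lean`
-/

set_option autoImplicit false

open scoped BigOperators
open Matrix Polynomial

namespace Pool.Agent.FTO

open Pool.Agent.SSE

theorem approxThm : ApproxThm := by
  intro r hr hr1 J _ _ U hU hF N ε hε
  obtain ⟨F, hF', h1, h2⟩ := Pool.Agent.FTA.approx_nS hr hr1 U hU (fun i j => hF i j) N hε
  exact ⟨F, Pool.Agent.FTA.EM_det hF', h1, fun i j => h2 i j⟩

end Pool.Agent.FTO
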