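import Pool.Agent.FTO.G5

/-!
# FTO: the adapted basis with the index set `NI ⊕ (J ⊕ HI)`; determinants; covers
-/

set_option autoImplicit false
set_option linter.unusedSectionVars false

open scoped BigOperators
open Matrix Polynomial

namespace Pool.Agent.FTO

attribute [local instance] Classical.propDecidable

variable {I J : Type} [Fintype I] [Fintype J]

namespace Str

variable (S : Str I J)

/-- indices of the basis of `NN` -/
abbrev NI : Type := {i // S.typ i = 2}

/-- indices of the basis of the complement of `MM` -/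
abbrev HI : Type := {i // S.typ i = 0}

/-- the indices in three parts -/
noncomputable def eI : S.NI ⊕ (J ⊕ S.HI) ≃ I where
  toFun := Sum.elim (fun i => i.1) (Sum.elim S.jj fun i => i.1)
  invFun := fun i => if h : S.typ i = 2 then Sum.inl ⟨i, h⟩
    else if h0 : S.typ i = 0 then Sum.inr (Sum.inr ⟨i, h0⟩) else Sum.inr (Sum.inl (S.pr i))
  left_inv := by
    rintro (⟨i, hi⟩ | j | ⟨i, hi⟩)
    · simp only [Sum.elim_inl]
      rw [dif_pos hi]
    · simp only [Sum.elim_inl, Sum.elim_inr]
      rw [dif_neg, dif_neg, S.pr_jj]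
      · rw [S.typ_jj]
        decide
      · rw [S.typ_jj]
        decide
    · simp only [Sum.elim_inr]
      rw [dif_neg, dif_pos hi]
      rw [hi]
      decide
  right_inv := by
    intro i
    by_cases h : S.typ i = 2
    · simp only [dif_pos h, Sum.elim_inl]
    · by_cases h0 : S.typ i = 0
      · simp only [dif_neg h, dif_pos h0, Sum.elim_inr]
      · simp only [dif_neg h, dif_neg h0, Sum.elim_inr, Sum.elim_inl]
        have h1 : S.typ i = 1 := by
          rcases S.typ_cases i with h' | h' | h' | h'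
          · exact absurd h'.1 h
          · exact absurd h'.1 h0
          · exact absurd h'.1 h
          · exact h'.1
        exact (S.typ_eq_one h1).symm

@[simp] theorem eI_inl (a : S.NI) : S.eI (Sum.inl a) = a.1 := rfl

@[simp] theorem eI_inr_inl (j : J) : S.eI (Sum.inr (Sum.inl j)) = S.jj j := rfl

@[simp] theorem eI_inr_inr (a : S.HI) : S.eI (Sum.inr (Sum.inr a)) = a.1 := rfl

variable (R : Type) [CommRing R]

/-- the adapted basis as a matrix -/
noncomputable def TM : Matrix (S.NI ⊕ (J ⊕ S.HI)) I R := (S.CM R).submatrix S.eI id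

/-- the inverse matrix -/
noncomputable def TI : Matrix I (S.NI ⊕ (J ⊕ S.HI)) R := (S.CI R).submatrix id S.eI

theorem TM_mul_TI : S.TM R * S.TI R = 1 := by
  unfold TM TI
  rw [← Matrix.submatrix_mul (S.CM R) (S.CI R) S.eI id S.eI Function.bijective_id, CM_mul_CI,
    Matrix.submatrix_one_equiv]

theorem TI_mul_TM : S.TI R * S.TM R = 1 := by
  unfold TM TI
  rw [← Matrix.submatrix_mul (S.CI R) (S.CM R) id S.eI id S.eI.bijective, CI_mul_CM]
  exact Matrix.submatrix_id_id _

variable {R}

/-- `P` in the adapted basis -/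
noncomputable def ad (P : Matrix I I R) : Matrix (S.NI ⊕ (J ⊕ S.HI)) (S.NI ⊕ (J ⊕ S.HI)) R :=
  S.TM R * P * S.TI R

theorem ad_eq (P : Matrix I I R) :
    S.ad P = (S.CM R * P * S.CI R).submatrix S.eI S.eI := rfl

theorem ad_one : S.ad (1 : Matrix I I R) = 1 := by
  unfold ad
  rw [Matrix.mul_one, TM_mul_TI]

theorem ad_sub (P P' : Matrix I I R) : S.ad (P - P') = S.ad P - S.ad P' := by
  unfold ad
  rw [Matrix.mul_sub, Matrix.sub_mul]

theorem ad_add (P P' : Matrix I I R) : S.ad (P + P') = S.ad P + S.ad P' := by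
  unfold ad
  rw [Matrix.mul_add, Matrix.add_mul]

theorem ad_mul (P P' : Matrix I I R) : S.ad (P * P') = S.ad P * S.ad P' := by
  unfold ad
  calc S.TM R * (P * P') * S.TI R = S.TM R * P * (S.TI R * S.TM R) * P' * S.TI R := by
        rw [TI_mul_TM, Matrix.mul_one, Matrix.mul_assoc (S.TM R) P P']
    _ = _ := by
        simp only [Matrix.mul_assoc]

theorem det_ad (P : Matrix I I R) : (S.ad P).det = P.det := by
  rw [ad_eq, Matrix.det_submatrix_equiv_self, Matrix.det_mul, Matrix.det_mul, mul_right_comm,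
    ← Matrix.det_mul, CM_mul_CI, Matrix.det_one, one_mul]

/-- from the adapted basis back to the elements -/
noncomputable def da (M : Matrix (S.NI ⊕ (J ⊕ S.HI)) (S.NI ⊕ (J ⊕ S.HI)) R) : Matrix I I R :=
  S.TI R * M * S.TM R

theorem da_ad (P : Matrix I I R) : S.da (S.ad P) = P := by
  unfold da ad
  calc S.TI R * (S.TM R * P * S.TI R) * S.TM R = (S.TI R * S.TM R) * P * (S.TI R * S.TM R) := by
        simp only [Matrix.mul_assoc]
    _ = P := by rw [TI_mul_TM, Matrix.one_mul, Matrix.mul_one]

theorem ad_da (M : Matrix (S.NI ⊕ (J ⊕ S.HI)) (S.NI ⊕ (J ⊕ S.HI)) R) : S.ad (S.da M) = M := by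
  unfold da ad
  calc S.TM R * (S.TI R * M * S.TM R) * S.TI R = (S.TM R * S.TI R) * M * (S.TM R * S.TI R) := by
        simp only [Matrix.mul_assoc]
    _ = M := by rw [TM_mul_TI, Matrix.one_mul, Matrix.mul_one]

/-- the `NN`-block -/
noncomputable def Nb (P : Matrix I I R) : Matrix S.NI S.NI R := (S.ad P).toBlocks₁₁

/-- the block of the complement of `MM` -/
noncomputable def Hb (P : Matrix I I R) : Matrix S.HI S.HI R := (S.ad P).toBlocks₂₂.toBlocks₂₂

end Str

section

variable {R : Type} [CommRing R] {S : Str I J} {P : Matrix I I R} {Q : Matrix J J R}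

/-- structured matrices have three blocks -/
theorem structured_iff_blocks : Structured S P Q ↔
    ∃ (N : Matrix S.NI S.NI R) (X : Matrix (J ⊕ S.HI) S.NI R) (Y : Matrix S.HI J R)
      (H : Matrix S.HI S.HI R), S.ad P = fromBlocks N 0 X (fromBlocks Q 0 Y H) := by
  rw [structured_iff]
  constructor
  · rintro ⟨h1, h2⟩
    refine ⟨(S.ad P).toBlocks₁₁, (S.ad P).toBlocks₂₁, (S.ad P).toBlocks₂₂.toBlocks₂₁,
      (S.ad P).toBlocks₂₂.toBlocks₂₂, ?_⟩
    ext (a | j | a) (a' | j' | a')
    · rfl
    · exact h1 _ _ (by rw [S.eI_inl, S.eI_inr_inl, S.typ_jj, a.2]; decide)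
    · exact h1 _ _ (by rw [S.eI_inl, S.eI_inr_inr, a.2, a'.2]; decide)
    · rfl
    · exact h2 j j'
    · exact h1 _ _ (by rw [S.eI_inr_inl, S.eI_inr_inr, S.typ_jj, a'.2]; decide)
    · rfl
    · rfl
    · rfl
  · rintro ⟨N, X, Y, H, h⟩
    have h0 : ∀ x y, (S.CM R * P * S.CI R) (S.eI x) (S.eI y) =
        fromBlocks N 0 X (fromBlocks Q 0 Y H) x y := by
      intro x y
      rw [← h]
      rfl
    constructor
    · intro i i' hlt
      obtain ⟨x, rfl⟩ := S.eI.surjective i
      obtain ⟨y, rfl⟩ := S.eI.surjective i'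
      rw [h0]
      rcases x with a | j | a <;> rcases y with a' | j' | a'
      · rw [S.eI_inl, S.eI_inl, a.2, a'.2] at hlt
        exact absurd hlt (lt_irrefl _)
      · rfl
      · rfl
      · rw [S.eI_inl, S.eI_inr_inl, S.typ_jj, a'.2] at hlt
        exact absurd hlt (by decide)
      · rw [S.eI_inr_inl, S.eI_inr_inl, S.typ_jj, S.typ_jj] at hlt
        exact absurd hlt (lt_irrefl _)
      · rfl
      · rw [S.eI_inl, S.eI_inr_inr, a.2, a'.2] at hlt
        exact absurd hlt (by decide)
      · rw [S.eI_inr_inl, S.eI_inr_inr, S.typ_jj, a.2] at hlt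
        exact absurd hlt (by decide)
      · rw [S.eI_inr_inr, S.eI_inr_inr, a.2, a'.2] at hlt
        exact absurd hlt (lt_irrefl _)
    · intro j j'
      have := h0 (Sum.inr (Sum.inl j)) (Sum.inr (Sum.inl j'))
      exact this

theorem ad_of_structured (h : Structured S P Q) :
    S.ad P = fromBlocks (S.Nb P) 0 (S.ad P).toBlocks₂₁
      (fromBlocks Q 0 (S.ad P).toBlocks₂₂.toBlocks₂₁ (S.Hb P)) := by
  obtain ⟨N, X, Y, H, h1⟩ := structured_iff_blocks.1 h
  unfold Str.Nb Str.Hb
  rw [h1]
  simp

/-- the three determinants -/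
theorem det_one_sub (h : Structured S P Q) :
    (1 - P).det = (1 - S.Nb P).det * ((1 - Q).det * (1 - S.Hb P).det) := by
  rw [← S.det_ad, S.ad_sub, S.ad_one, ad_of_structured h]
  rw [show (1 : Matrix (S.NI ⊕ (J ⊕ S.HI)) (S.NI ⊕ (J ⊕ S.HI)) R) =
    fromBlocks 1 0 0 (fromBlocks 1 0 0 1) by simp [Matrix.fromBlocks_one]]
  have h2 : ∀ (N : Matrix S.NI S.NI R) (X : Matrix (J ⊕ S.HI) S.NI R) (Y : Matrix S.HI J R)
      (H : Matrix S.HI S.HI R), (fromBlocks 1 0 0 (fromBlocks 1 0 0 1) -
      fromBlocks N 0 X (fromBlocks Q 0 Y H) : Matrix (S.NI ⊕ (J ⊕ S.HI)) (S.NI ⊕ (J ⊕ S.HI)) R) =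
      fromBlocks (1 - N) 0 (0 - X) (fromBlocks (1 - Q) 0 (0 - Y) (1 - H)) := by
    intro N X Y H
    ext (a | j | a) (a' | j' | a') <;> simp [Matrix.fromBlocks]
  rw [h2, Matrix.det_fromBlocks_zero₁₂, Matrix.det_fromBlocks_zero₁₂]

end

/-! ### covers -/

/-- the fibre structure of a map: every element is a component -/
def coverStr (f : I → J) (hf : Function.Surjective f) : Str I J where
  Bl := I
  Co := I
  finB := inferInstance
  finC := inferInstance
  blk := id
  cmp := id
  fib := f
  sB := Function.surjective_id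
  sC := Function.surjective_id
  sF := hf

/-- a right resolving cover is structured -/
theorem structured_cover {R : Type} [CommSemiring R] {f : I → J} {hf : Function.Surjective f}
    {P : Matrix I I R} {Q : Matrix J J R}
    (h : ∀ i j', ∑ i', (if f i' = j' then P i i' else 0) = Q (f i) j') :
    Structured (coverStr f hf) P Q := by
  have hbs : ∀ (R : Type) [AddCommMonoid R] (v : I → R) (b : I),
      (coverStr f hf).bs v b = v b := by
    intro R _ v b
    unfold Str.bs
    show ∑ i, (if i = b then v i else 0) = v b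
    rw [Finset.sum_ite_eq' Finset.univ, if_pos (Finset.mem_univ _)]
  have hrep : ∀ a : I, (coverStr f hf).rep a = a := by
    intro a
    exact Function.surjInv_eq (coverStr f hf).sC a
  rintro j v ⟨a, ha, h1, h2⟩
  change I at a
  have ha' : f a = j := ha
  have hv : ∀ i, v i = if i = a then 1 else 0 := by
    intro i
    by_cases hi : i = a
    · rw [if_pos hi]
      have := h1 i hi
      rwa [hbs] at this
    · rw [if_neg hi]
      exact h2 i hi
  have hvP : ∀ i', ((fun i => ((v i : ℕ) : R)) ᵥ* P) i' = P a i' := by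
    intro i'
    simp only [Matrix.vecMul, dotProduct]
    rw [Finset.sum_eq_single a]
    · rw [hv, if_pos rfl, Nat.cast_one, one_mul]
    · intro i _ hi
      rw [hv, if_neg hi, Nat.cast_zero, zero_mul]
    · intro hn
      exact absurd (Finset.mem_univ _) hn
  constructor
  · intro b b' hb
    have hb' : b = b' := hb
    rw [hb']
  · intro j'
    rw [← ha', ← h a j']
    unfold Str.deg
    refine Finset.sum_congr rfl fun i _ => ?_
    show (if f i = j' then _ else 0) = _
    by_cases hi : f i = j'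
    · rw [if_pos hi, if_pos hi, hbs, hvP, hrep]
    · rw [if_neg hi, if_neg hi]

end Pool.Agent.FTO
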