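import Pool.Agent.FTO.SEF6
import Pool.Agent.FTO.G6

/-!
# FTO project, SEF7: the factor code of the two shift equivalences and of a structured pair

`fc_sef`: matrices which present the same module with positive classes have a factor code (in each
direction). `fc_main`: a structured pair of presentations, of the module of `A` and of the module
of `B`, gives a factor code of the edge shift of `A` onto the edge shift of `B`.
-/

set_option autoImplicit false

open scoped BigOperators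
open Matrix Polynomial

namespace Pool.Agent.FTO

open Pool.Agent.SSE

attribute [local instance] Classical.propDecidable

theorem fc_covOver {n m : ℕ} {A : Matrix (Fin n) (Fin n) ℕ} {B : Matrix (Fin m) (Fin m) ℕ}
    (h : CovOver A B) : FC (FT.edgeShift B) (FT.edgeShift A) := by
  obtain ⟨I, J, i1, i2, f, Q, P, hQ, hP, hC, e1, e2⟩ := h
  exact exists_code (S := coverStr f hC.surj) (P := Q) (Q := P)
    (structured_cover (fun i j => by convert hC.sum i j)) e1.symm e2.symm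

/-- matrices of the same module have a factor code `X_B → X_A` -/
theorem fc_sef {K : Type} [AddCommGroup K] [Module ℤ[X] K] {δ : ℤ[X]} (D : PFM K δ) {n m : ℕ}
    (hn : 0 < n) (hm : 0 < m) {A : Matrix (Fin n) (Fin n) ℕ} {B : Matrix (Fin m) (Fin m) ℕ}
    {p p' : ℕ} (hp : 0 < p) (hpA : ∀ i j, 2 ≤ (A ^ p) i j) (hp' : 0 < p')
    (hpB : ∀ i j, 2 ≤ (B ^ p') i j) {gA : Fin n → K} (hA : PresOf δ gA (ofMat A))
    (hgA : ∀ i, 0 < D.tau (gA i)) {gB : Fin m → K} (hB : PresOf δ gB (ofMat B))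
    (hgB : ∀ i, 0 < D.tau (gB i)) : FC (FT.edgeShift B) (FT.edgeShift A) :=
  fc_covOver (sef_pres D hn hm hp hpA hp' hpB hA hgA hB hgB)

/-- a primitive matrix of size at least 2 or with large entries has a power with entries `≥ 2` -/
theorem two_le_pow_of {n : ℕ} {A : Matrix (Fin n) (Fin n) ℕ} {p : ℕ} (hp : 0 < p)
    (h : ∀ i j, 0 < (A ^ p) i j) (hA : ∃ i j, 2 ≤ (A ^ p) i j) :
    ∃ q, 0 < q ∧ ∀ i j, 2 ≤ (A ^ q) i j := by
  obtain ⟨a, b, hab⟩ := hA
  refine ⟨p + p + p, by omega, fun i j => ?_⟩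
  rw [pow_add, pow_add, Matrix.mul_apply]
  refine le_trans ?_ (Finset.single_le_sum (f := fun w => (A ^ p * A ^ p) i w * (A ^ p) w j)
    (fun _ _ => Nat.zero_le _) (Finset.mem_univ b))
  have h1 : 2 ≤ (A ^ p * A ^ p) i b := by
    rw [Matrix.mul_apply]
    refine le_trans ?_ (Finset.single_le_sum (f := fun w => (A ^ p) i w * (A ^ p) w b)
      (fun _ _ => Nat.zero_le _) (Finset.mem_univ a))
    exact le_trans (by omega) (Nat.mul_le_mul (h i a) hab)
  exact le_trans (by omega) (Nat.mul_le_mul h1 (h b j))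

/-- THE FINAL COMPOSITION: `X_A → X_{P#} → X_{Q#} → X_B`. -/
theorem fc_main {KA KB : Type} [AddCommGroup KA] [Module ℤ[X] KA] [AddCommGroup KB]
    [Module ℤ[X] KB] {δA δB : ℤ[X]} (DA : PFM KA δA) (DB : PFM KB δB) {a b : ℕ} (ha : 0 < a)
    (hb : 0 < b) {A : Matrix (Fin a) (Fin a) ℕ} {B : Matrix (Fin b) (Fin b) ℕ} {p p' : ℕ}
    (hp : 0 < p) (hpA : ∀ i j, 2 ≤ (A ^ p) i j) (hp' : 0 < p') (hpB : ∀ i j, 2 ≤ (B ^ p') i j)
    {gA : Fin a → KA} (hA : PresOf δA gA (ofMat A)) (hgA : ∀ i, 0 < DA.tau (gA i))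
    {gB : Fin b → KB} (hB : PresOf δB gB (ofMat B)) (hgB : ∀ i, 0 < DB.tau (gB i))
    {I J : Type} [Fintype I] [Fintype J] {S : Str I J} {P : Matrix I I ℕ[X]} {Q : Matrix J J ℕ[X]}
    (hS : Structured S P Q)
    {cA : I → KA} (hP : PresOf δA cA P) (hcA : ∀ i, 0 < DA.tau (cA i)) (hneA : ∀ i j, P i j ≠ 0)
    (xA : I) (dA : ℕ) (hA1 : (P xA xA).coeff dA ≠ 0) (hA2 : (P xA xA).coeff (dA + 1) ≠ 0)
    {cB : J → KB} (hQ : PresOf δB cB Q) (hcB : ∀ i, 0 < DB.tau (cB i)) (hneB : ∀ i j, Q i j ≠ 0)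
    (xB : J) (dB : ℕ) (hB1 : (Q xB xB).coeff dB ≠ 0) (hB2 : (Q xB xB).coeff (dB + 1) ≠ 0) :
    FC (FT.edgeShift A) (FT.edgeShift B) := by
  obtain ⟨n, M, g, q, hn, hq, hqM, hM, hg, e1⟩ :=
    exists_prim_mat DA hP hcA hneA xA dA hA1 hA2
  obtain ⟨n', M', g', q', hn', hq', hqM', hM', hg', e2⟩ :=
    exists_prim_mat DB hQ hcB hneB xB dB hB1 hB2
  have h1 : FC (FT.edgeShift A) (FT.edgeShift M) := fc_sef DA hn ha hq hqM hp hpA hM hg hA hgA
  have h2 : FC (FT.edgeShift M) (FT.edgeShift M') := exists_code hS e1 e2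
  have h3 : FC (FT.edgeShift M') (FT.edgeShift B) :=
    fc_sef DB hb hn' hp' hpB hq' hqM' hB hgB hM' hg'
  exact (h1.trans h2).trans h3

end Pool.Agent.FTO
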