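import Pool.Agent.FTO.A1
import Pool.Agent.FTO.Ap
import Pool.Agent.FTO.SEF7

/-!
# FTO: from a structured target to a factor code

`exists_structured` (A1) followed by `fc_main` (SEF and the graph level).
-/

set_option autoImplicit false
set_option linter.unusedSectionVars false

open scoped BigOperators
open Matrix Polynomial

namespace Pool.Agent.FTO

open Pool.Agent.SSE

attribute [local instance] Classical.propDecidable

section deg

variable {I J : Type} [Fintype I] [Fintype J] (S : Str I J)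

theorem coeff_le_deg (w : I → ℕ[X]) (j : J) (d : ℕ) :
    (w (S.jj j)).coeff d ≤ (S.deg w j).coeff d := by
  unfold Str.deg
  rw [finsetSum_coeff]
  refine le_trans ?_ (Finset.single_le_sum
    (f := fun a => (if S.fib a = j then S.bs w (S.rep a) else 0 : ℕ[X]).coeff d)
    (fun _ _ => Nat.zero_le _) (Finset.mem_univ (S.c0 j)))
  simp only [S.fib_c0, if_true]
  unfold Str.bs
  rw [finsetSum_coeff]
  refine le_trans ?_ (Finset.single_le_sum
    (f := fun i => (if S.blk i = S.rep (S.c0 j) then w i else 0 : ℕ[X]).coeff d)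
    (fun _ _ => Nat.zero_le _) (Finset.mem_univ (S.jj j)))
  simp only [S.blk_jj, if_true]
  exact le_rfl

/-- the entries of `Q` dominate entries of `P` -/
theorem coeff_le_Q {P : Matrix I I ℕ[X]} {Q : Matrix J J ℕ[X]} (h : Structured S P Q) (j j' : J)
    (d : ℕ) : (P (S.jj j) (S.jj j')).coeff d ≤ (Q j j').coeff d := by
  rw [← (h j _ (S.inL_TT j)).2 j']
  refine le_trans ?_ (coeff_le_deg S _ j' d)
  rw [Matrix.vecMul, dotProduct, finsetSum_coeff]
  refine le_trans ?_ (Finset.single_le_sum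
    (f := fun i => (((S.TT (S.c0 j) i : ℕ) : ℕ[X]) * P i (S.jj j')).coeff d)
    (fun _ _ => Nat.zero_le _) (Finset.mem_univ (S.jj j)))
  have h1 : S.TT (S.c0 j) (S.jj j) = 1 := by
    rw [Str.TT, if_pos]
    rw [S.blk_jj]
    exact ⟨rfl, S.cmp_rep _⟩
  simp only [h1, Nat.cast_one, one_mul]
  exact le_rfl

theorem ne_zero_Q {P : Matrix I I ℕ[X]} {Q : Matrix J J ℕ[X]} (h : Structured S P Q)
    (hne : ∀ i j, P i j ≠ 0) (j j' : J) : Q j j' ≠ 0 := by
  intro h0
  apply hne (S.jj j) (S.jj j')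
  ext d
  have h1 := coeff_le_Q S h j j' d
  rw [h0, Polynomial.coeff_zero] at h1
  rw [Polynomial.coeff_zero]
  omega

end deg

variable {K KN KB KH L : Type} [AddCommGroup K] [Module ℤ[X] K] [AddCommGroup KN]
  [Module ℤ[X] KN] [AddCommGroup KB] [Module ℤ[X] KB] [AddCommGroup KH] [Module ℤ[X] KH]
  [AddCommGroup L] [Module ℤ[X] L] {I J : Type} [Fintype I] [Fintype J]

/-- **from a target to a factor code** -/
theorem fc_of_tgt {δN δB δH : ℤ[X]} (F : Fil K KN KB KH L)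
    (D : PFM K (δN * (δB * δH))) (DB : PFM KB δB) (h1 : δN.coeff 0 = 1) (h2 : δB.coeff 0 = 1)
    (h3 : δH.coeff 0 = 1) (hcomp : ∀ z y, F.s z = F.b y → D.tau z = DB.tau y)
    {a b : ℕ} (ha : 0 < a) (hb : 0 < b) {A : Matrix (Fin a) (Fin a) ℕ}
    {B : Matrix (Fin b) (Fin b) ℕ} {p p' : ℕ} (hp : 0 < p) (hpA : ∀ i j, 2 ≤ (A ^ p) i j)
    (hp' : 0 < p') (hpB : ∀ i j, 2 ≤ (B ^ p') i j)
    {gA : Fin a → K} (hA : PresOf (δN * (δB * δH)) gA (ofMat A)) (hgA : ∀ i, 0 < D.tau (gA i))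
    {gB : Fin b → KB} (hB : PresOf δB gB (ofMat B)) (hgB : ∀ i, 0 < DB.tau (gB i))
    (S : Str I J) (c : I → K) (cB : J → KB) (r : ℝ)
    (PS : Matrix I I (PowerSeries ℤ)) (QS : Matrix J J (PowerSeries ℤ)) (x : I)
    (h : Tgt F D S c cB r PS QS x) :
    FC (FT.edgeShift A) (FT.edgeShift B) := by
  obtain ⟨P, Q, hPQ, hP, hQ, hne, d, hd1, hd2⟩ :=
    exists_structured approxThm F D h1 h2 h3 S c cB r PS QS x h
  obtain ⟨px, s1, s2, hub⟩ := h.hub
  have hjx := S.jj_triv hub.triv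
  have hle := coeff_le_Q S hPQ (S.pr x) (S.pr x)
  rw [hjx] at hle
  refine fc_main D DB ha hb hp hpA hp' hpB hA hgA hB hgB hPQ hP h.pos hne x d hd1 hd2 hQ ?_
    (ne_zero_Q S hPQ hne) (S.pr x) d ?_ ?_
  · intro j
    have h4 := h.cls j _ (S.inL_TT j)
    rw [← hcomp _ _ h4, map_sum]
    have h5 : ∀ i, D.tau ((S.TT (S.c0 j) i : ℤ[X]) • c i) = (S.TT (S.c0 j) i : ℝ) * D.tau (c i) := by
      intro i
      rw [← nsmul_eq_mul, ← map_nsmul]
      congr 1
      exact Nat.cast_smul_eq_nsmul _ _ _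
    simp only [h5]
    refine Finset.sum_pos' (fun i _ => mul_nonneg (Nat.cast_nonneg _) (h.pos i).le)
      ⟨S.jj j, Finset.mem_univ _, ?_⟩
    have h6 : S.TT (S.c0 j) (S.jj j) = 1 := by
      rw [Str.TT, if_pos]
      rw [S.blk_jj]
      exact ⟨rfl, S.cmp_rep _⟩
    rw [h6, Nat.cast_one, one_mul]
    exact h.pos _
  · have := hle d
    omega
  · have := hle (d + 1)
    omega

end Pool.Agent.FTO
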