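import Pool.Agent.FTO.Fil
import Pool.Agent.SSE.HFin

/-!
# FTO, A1b: `τ`-balanced rows are combinations of the relations (over series of finite norm)

`u = v adj(R) / δ` (`δ` is a unit of `ℤ⟦X⟧`). `G_j := (v adj R)_j = det (R.updateRow j v)` has finite
norm, and value `0` at `x0 = 1/lam`: evaluate the matrix at `x0`; it kills the nonzero vector
`τ (c k)` (rows of `R`: relations, `D.tau_X`; row `v`: hypothesis), `exists_mulVec_eq_zero_iff`.
Then `G_j / (1 - lam X)` has finite norm at `r` (`PF.div_aux`), and `1 / f1` too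
(`PF.hasN_inv_poly`, `D.ne`, `r ≤ D.rad`), `D.fac`.
-/

set_option autoImplicit false

open scoped BigOperators
open Matrix Polynomial

namespace Pool.Agent.FTO

open Pool.Agent.SSE

attribute [local instance] Classical.propDecidable

/-- the ring of the series of finite norm -/
def fnSub {r : ℝ} (hr : 0 ≤ r) : Subring (PowerSeries ℤ) where
  carrier := {f | FN r f}
  mul_mem' := by
    intro a b ha hb
    change PF.HasN r (HN.toRS (a * b))
    rw [map_mul]
    exact PF.HasN.mul hr ha hb
  one_mem' := by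
    change PF.HasN r (HN.toRS 1)
    rw [map_one]
    exact PF.hasN_one r
  add_mem' := by
    intro a b ha hb
    change PF.HasN r (HN.toRS (a + b))
    rw [map_add]
    exact PF.HasN.add hr ha hb
  zero_mem' := by
    change PF.HasN r (HN.toRS 0)
    rw [map_zero]
    exact PF.hasN_zero r
  neg_mem' := by
    intro a ha
    change PF.HasN r (HN.toRS (-a))
    rw [map_neg]
    exact PF.HasN.neg ha

/-- the value at `x` -/
noncomputable def svHom {r : ℝ} (hr : 0 ≤ r) {x : ℝ} (hx : ‖x‖ ≤ r) : fnSub hr →+* ℝ where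
  toFun f := sv x f.1
  map_one' := by
    change PF.ev x (HN.toRS 1) = 1
    rw [map_one]
    exact PF.ev_one x
  map_mul' := by
    intro a b
    change PF.ev x (HN.toRS (a.1 * b.1)) = _
    rw [map_mul]
    exact PF.ev_mul a.2 b.2 hx
  map_zero' := by
    change PF.ev x (HN.toRS 0) = 0
    rw [map_zero]
    unfold PF.ev
    simp
  map_add' := by
    intro a b
    change PF.ev x (HN.toRS (a.1 + b.1)) = _
    rw [map_add]
    exact PF.ev_add a.2 b.2 hx

variable {K : Type} [AddCommGroup K] [Module ℤ[X] K] {δ : ℤ[X]} {κ : Type} [Fintype κ]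

/-- a matrix of series of finite norm whose values at `x` kill a nonzero vector: its determinant has
finite norm and value `0` -/
theorem det_sv_zero {r : ℝ} (hr : 0 ≤ r) {x : ℝ} (hx : ‖x‖ ≤ r)
    (M : Matrix κ κ (PowerSeries ℤ)) (hM : ∀ i j, FN r (M i j)) (t : κ → ℝ) (ht : t ≠ 0)
    (h0 : ∀ i, ∑ j, sv x (M i j) * t j = 0) : FN r M.det ∧ sv x M.det = 0 := by
  let M' : Matrix κ κ (fnSub hr) := fun i j => ⟨M i j, hM i j⟩
  have h1 : (fnSub hr).subtype M'.det = M.det := by
    rw [RingHom.map_det]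
    rfl
  have h2 : svHom hr hx M'.det = 0 := by
    rw [RingHom.map_det]
    refine Matrix.exists_mulVec_eq_zero_iff.1 ⟨t, ht, ?_⟩
    funext i
    exact h0 i
  have h3 : sv x M'.det.1 = 0 := h2
  have h4 : M'.det.1 = M.det := h1
  refine ⟨?_, ?_⟩
  · rw [← h4]
    exact M'.det.2
  · rw [← h4]
    exact h3

theorem fn_ps (r : ℝ) (p : ℤ[X]) : FN r (ps p) := by
  unfold FN
  rw [toRS_ps]
  exact PF.hasN_poly r _

theorem sv_ps (x : ℝ) (p : ℤ[X]) : sv x (ps p) = p.eval₂ (Int.castRingHom ℝ) x := by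
  unfold sv
  rw [toRS_ps, PF.ev_poly]
  unfold toR
  rw [Polynomial.coe_mapRingHom, Polynomial.eval_map]

theorem div_rel (D : PFM K δ) {c : κ → K} {R : Matrix κ κ ℤ[X]} (hR : RelOf δ c R)
    (hδ0 : δ.coeff 0 = 1) (hc : ∃ k, D.tau (c k) ≠ 0) {r : ℝ} (hr : 1 < D.lam * r)
    (hr' : r ≤ D.rad) (v : κ → PowerSeries ℤ) (hv : ∀ k, FN r (v k))
    (hτ : ∑ k, sv D.lam⁻¹ (v k) * D.tau (c k) = 0) :
    ∃ u : κ → PowerSeries ℤ, (∀ k, FN r (u k)) ∧ ∀ j, v j = ∑ k, u k * ps (R k j) := by
  have hlam : 0 < D.lam := D.lam_pos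
  have hx : ‖D.lam⁻¹‖ ≤ r := by
    rw [norm_inv, Real.norm_of_nonneg hlam.le, inv_le_iff_one_le_mul₀ hlam, mul_comm]
    exact hr.le
  have hr0 : 0 ≤ r := (norm_nonneg _).trans hx
  set A : Matrix κ κ (PowerSeries ℤ) := fun i j => ps (R i j) with hA
  have hdet : A.det = ps δ := by
    have h1 := RingHom.map_det (Polynomial.coeToPowerSeries.ringHom (R := ℤ)) R
    rw [hR.det] at h1
    exact h1.symm
  -- `δ` is a unit
  have hunit : IsUnit (ps δ) := by
    rw [PowerSeries.isUnit_iff_constantCoeff]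
    have h1 : PowerSeries.constantCoeff (ps δ) = 1 := by
      rw [← PowerSeries.coeff_zero_eq_constantCoeff_apply, coeff_ps, hδ0]
    rw [h1]
    exact isUnit_one
  obtain ⟨w, hw⟩ := hunit.exists_right_inv
  have hG : ∀ k, FN r (A.updateRow k v).det ∧ sv D.lam⁻¹ (A.updateRow k v).det = 0 := by
    intro k
    refine det_sv_zero hr0 hx _ ?_ (fun k => D.tau (c k)) ?_ ?_
    · intro i j
      by_cases hi : i = k
      · subst hi
        rw [Matrix.updateRow_self]
        exact hv j
      · rw [Matrix.updateRow_ne hi]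
        exact fn_ps r _
    · obtain ⟨k0, hk0⟩ := hc
      intro h
      exact hk0 (congrFun h k0)
    · intro i
      by_cases hi : i = k
      · subst hi
        simp only [Matrix.updateRow_self]
        exact hτ
      · simp only [Matrix.updateRow_ne hi]
        have h1 := congrArg D.tau (hR.rel i)
        rw [map_sum, map_zero] at h1
        rw [← h1]
        refine Finset.sum_congr rfl fun j _ => ?_
        rw [tau_smul D.tau_X, hA]
        rw [sv_ps]
  refine ⟨fun k => w * (A.updateRow k v).det, fun k => ?_, fun j => ?_⟩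
  · refine D.div hr hr' (HN.toRS (A.updateRow k v).det) _ (hG k).1 ?_ (hG k).2
    rw [← map_mul, ← mul_assoc, hw, one_mul]
  · have h1 : (fun k => (A.updateRow k v).det) = v ᵥ* A.adjugate := by
      have h2 : Matrix.cramer Aᵀ v = v ᵥ* A.adjugate := by
        rw [Matrix.cramer_eq_adjugate_mulVec, ← Matrix.adjugate_transpose, Matrix.mulVec_transpose]
      rw [← h2]
      funext k
      rw [Matrix.cramer_transpose_apply]
    have h3 : (v ᵥ* A.adjugate) ᵥ* A = A.det • v := by
      rw [Matrix.vecMul_vecMul, Matrix.adjugate_mul, Matrix.vecMul_smul, Matrix.vecMul_one]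
    have h4 := congrFun h3 j
    rw [← h1, hdet] at h4
    have h5 : w * ((fun k => (A.updateRow k v).det) ᵥ* A) j = v j := by
      rw [h4, Pi.smul_apply, smul_eq_mul, ← mul_assoc, mul_comm w, hw, one_mul]
    rw [← h5]
    simp only [Matrix.vecMul, dotProduct, Finset.mul_sum, mul_assoc]
    rfl

end Pool.Agent.FTO
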