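import Pool.Agent.SSE.B7
import Pool.Agent.FT.Defs

/-!
# FTO (MP_59dda0_an): fibre structures and structured matrices

`I` elements, `Bl` blocks, `Co` components, `J` vertices of the presentation of `Y`.
A transversal of a component has exactly one element in each block of the component.
-/

set_option autoImplicit false

open scoped BigOperators
open Matrix Polynomial

namespace Pool.Agent.FTO

attribute [local instance] Classical.propDecidable

/-- A fibre structure of `I` over `J`. -/
structure Str (I J : Type) where
  Bl : Type
  Co : Type
  finB : Fintype Bl
  finC : Fintype Co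
  blk : I → Bl
  cmp : Bl → Co
  fib : Co → J
  sB : Function.Surjective blk
  sC : Function.Surjective cmp
  sF : Function.Surjective fib

attribute [instance] Str.finB Str.finC

namespace Str

variable {I J : Type} [Fintype I] [Fintype J] (S : Str I J)

/-- the vertex under an element -/
def pr (i : I) : J := S.fib (S.cmp (S.blk i))

/-- sum over a block -/
noncomputable def bs {R : Type} [AddCommMonoid R] (v : I → R) (b : S.Bl) : R :=
  ∑ i, if S.blk i = b then v i else 0

/-- `v` is the indicator function of a transversal of the component `a` -/
def Tr (a : S.Co) (v : I → ℕ) : Prop :=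
  (∀ b, S.cmp b = a → S.bs v b = 1) ∧ ∀ i, S.cmp (S.blk i) ≠ a → v i = 0

/-- the family of transversals over `j` -/
def InL (j : J) (v : I → ℕ) : Prop := ∃ a, S.fib a = j ∧ S.Tr a v

/-- the lattice `MM` (coefficients in `R`): equal block sums on every component -/
def InM {R : Type} [AddCommMonoid R] (v : I → R) : Prop :=
  ∀ b b', S.cmp b = S.cmp b' → S.bs v b = S.bs v b'

/-- a chosen element of a block -/
noncomputable def base (b : S.Bl) : I := Function.surjInv S.sB b

/-- a chosen block of a component -/
noncomputable def rep (a : S.Co) : S.Bl := Function.surjInv S.sC a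

/-- a chosen component over a vertex -/
noncomputable def c0 (j : J) : S.Co := Function.surjInv S.sF j

/-- the degree over `j` -/
noncomputable def deg {R : Type} [AddCommMonoid R] (v : I → R) (j : J) : R :=
  ∑ a, if S.fib a = j then S.bs v (S.rep a) else 0

end Str

/-- `P` is structured over `Q`: transversals over `j` go to elements of `MM`, and the degrees are
the entries of `Q`. -/
def Structured {I J R : Type} [Fintype I] [Fintype J] [CommSemiring R] (S : Str I J)
    (P : Matrix I I R) (Q : Matrix J J R) : Prop :=
  ∀ j v, S.InL j v →
    S.InM ((fun i => ((v i : ℕ) : R)) ᵥ* P) ∧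
    ∀ j', S.deg ((fun i => ((v i : ℕ) : R)) ᵥ* P) j' = Q j j'

/-- existence of a factor code -/
def FC {α β : Type} [TopologicalSpace α] [TopologicalSpace β] (X : Set (ℤ → α))
    (Y : Set (ℤ → β)) : Prop := ∃ φ : X → Y, FT.IsFactorCode φ

/-- the shift of a graph with edge set `E`, sources `s`, targets `t` -/
def gshift {V E : Type} (s t : E → V) : Set (ℤ → E) := {x | ∀ i, t (x i) = s (x (i + 1))}

end Pool.Agent.FTO
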