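import Pool.Agent.FTO.Ser
import Pool.Agent.FTO.G6

/-!
# FTO, A1e: naturality of the adapted basis, classes of the adapted basis
-/

set_option autoImplicit false
set_option linter.unusedSectionVars false

open scoped BigOperators
open Matrix Polynomial

namespace Pool.Agent.FTO

open Pool.Agent.SSE

attribute [local instance] Classical.propDecidable

namespace Str

variable {I J : Type} [Fintype I] [Fintype J] (S : Str I J)

section semi

variable {R R' : Type} [CommSemiring R] [CommSemiring R'] (f : R →+* R')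

theorem map_bs (v : I → R) (b : S.Bl) : S.bs (fun i => f (v i)) b = f (S.bs v b) := by
  unfold bs
  rw [map_sum]
  refine Finset.sum_congr rfl fun i _ => ?_
  split_ifs
  · rfl
  · exact (map_zero f).symm

theorem map_deg (v : I → R) (j : J) : S.deg (fun i => f (v i)) j = f (S.deg v j) := by
  unfold deg
  rw [map_sum]
  refine Finset.sum_congr rfl fun a _ => ?_
  split_ifs
  · exact S.map_bs f _ _
  · exact (map_zero f).symm

theorem bs_zero' (b : S.Bl) : S.bs (0 : I → R) b = 0 := by
  unfold bs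
  simp

theorem deg_zero' (j : J) : S.deg (0 : I → R) j = 0 := by
  unfold deg
  simp [bs_zero']

theorem bs_add' (v w : I → R) (b : S.Bl) : S.bs (v + w) b = S.bs v b + S.bs w b := by
  unfold bs
  rw [← Finset.sum_add_distrib]
  refine Finset.sum_congr rfl fun i _ => ?_
  split_ifs <;> simp

theorem deg_add' (v w : I → R) (j : J) : S.deg (v + w) j = S.deg v j + S.deg w j := by
  unfold deg
  rw [← Finset.sum_add_distrib]
  refine Finset.sum_congr rfl fun a _ => ?_
  split_ifs
  · exact S.bs_add' _ _ _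
  · simp

theorem bs_smul' (c : R) (v : I → R) (b : S.Bl) : S.bs (c • v) b = c * S.bs v b := by
  unfold bs
  rw [Finset.mul_sum]
  refine Finset.sum_congr rfl fun i _ => ?_
  split_ifs <;> simp

theorem deg_smul' (c : R) (v : I → R) (j : J) : S.deg (c • v) j = c * S.deg v j := by
  unfold deg
  rw [Finset.mul_sum]
  refine Finset.sum_congr rfl fun a _ => ?_
  split_ifs
  · exact S.bs_smul' _ _ _
  · simp

theorem inM_add' {v w : I → R} (hv : S.InM v) (hw : S.InM w) : S.InM (v + w) := by
  intro b b' hb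
  rw [S.bs_add', S.bs_add', hv b b' hb, hw b b' hb]

theorem inM_smul' (c : R) {v : I → R} (hv : S.InM v) : S.InM (c • v) := by
  intro b b' hb
  rw [S.bs_smul', S.bs_smul', hv b b' hb]

end semi

section ring

variable {R R' : Type} [CommRing R] [CommRing R'] (f : R →+* R')

theorem map_bv (i k : I) : f (S.bv (R := R) i k) = S.bv (R := R') i k := by
  unfold bv
  have hs : ∀ a b : I, f ((Pi.single a (1 : R) : I → R) b) = (Pi.single a (1 : R') : I → R') b := by
    intro a b
    rw [Pi.single_apply, Pi.single_apply]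
    split_ifs
    · exact map_one f
    · exact map_zero f
  split_ifs
  · rw [Pi.sub_apply, Pi.sub_apply, map_sub, hs, hs]
  · exact hs _ _
  · rw [Pi.sub_apply, Pi.sub_apply, map_sub, map_natCast, map_natCast]
  · rw [map_natCast]

theorem map_co (v : I → R) (i : I) : S.co (fun k => f (v k)) i = f (S.co v i) := by
  unfold co
  split_ifs
  · rfl
  · rw [map_sub, ← S.map_bs, ← S.map_bs]
  · exact S.map_bs f v _
  · exact S.map_deg f v _

theorem map_CM : (S.CM R).map f = S.CM R' := by
  ext i k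
  exact S.map_bv f i k

theorem map_CI : (S.CI R).map f = S.CI R' := by
  ext k i
  rw [Matrix.map_apply]
  unfold CI
  rw [of_apply, of_apply, ← S.map_co f]
  congr 1
  funext l
  rw [Pi.single_apply, Pi.single_apply]
  split_ifs
  · exact map_one f
  · exact map_zero f

theorem jj_injective : Function.Injective S.jj := fun a b hab => by
  rw [← S.pr_jj a, ← S.pr_jj b, hab]

/-- the indices of type `1` -/
noncomputable def eJ : {i // S.typ i = 1} ≃ J where
  toFun i := S.pr i.1
  invFun j := ⟨S.jj j, S.typ_jj j⟩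
  left_inv i := Subtype.ext (S.typ_eq_one i.2).symm
  right_inv j := S.pr_jj j

theorem jj_triv {x : I} (hx : ∀ i, S.pr i = S.pr x → i = x) : S.jj (S.pr x) = x :=
  hx _ (S.pr_jj _)

theorem bv_triv {x : I} (hx : ∀ i, S.pr i = S.pr x → i = x) :
    S.bv (R := R) x = Pi.single x 1 := by
  have h1 := S.bv_jj (R := R) (S.pr x)
  rw [S.jj_triv hx] at h1
  rw [h1]
  funext k
  rw [Pi.single_apply]
  by_cases hk : k = x
  · have h3 : x = S.base (S.rep (S.c0 (S.pr x))) := (S.jj_triv hx).symm
    have h4 : S.blk x = S.rep (S.c0 (S.pr x)) := by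
      conv_lhs => rw [h3]
      exact S.blk_base _
    rw [if_pos hk, hk, TT, if_pos, Nat.cast_one]
    refine ⟨?_, ?_⟩
    · rw [h4]
      exact h3
    · rw [h4]
      exact S.cmp_rep _
  · rw [if_neg hk, TT, if_neg, Nat.cast_zero]
    rintro ⟨-, h⟩
    apply hk
    apply hx
    change S.fib (S.cmp (S.blk k)) = _
    rw [h]
    exact S.fib_c0 _

theorem inL_triv {x : I} (hx : ∀ i, S.pr i = S.pr x → i = x) :
    S.InL (S.pr x) (Pi.single x 1 : I → ℕ) := by
  have h1 := S.inL_TT (S.pr x)
  have h2 : S.TT (S.c0 (S.pr x)) = (Pi.single x 1 : I → ℕ) := by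
    have h3 := S.bv_jj (R := ℤ) (S.pr x)
    rw [S.jj_triv hx, S.bv_triv hx] at h3
    funext k
    have h4 := congrFun h3 k
    rw [Pi.single_apply] at h4 ⊢
    have h5 : ((S.TT (S.c0 (S.pr x)) k : ℕ) : ℤ) = ((if k = x then 1 else 0 : ℕ) : ℤ) := by
      rw [← h4]
      split_ifs <;> simp
    exact_mod_cast h5
  rwa [h2] at h1

end ring

end Str

section cls

variable {I J : Type} [Fintype I] [Fintype J] (S : Str I J)
variable {K : Type} [AddCommGroup K] [Module ℤ[X] K] (c : I → K)

theorem sum_acl (w : I → ℤ[X]) :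
    ∑ i, w i • acl S c i = ∑ k, (w ᵥ* S.CM ℤ[X]) k • c k := by
  simp only [acl, Finset.smul_sum, Matrix.vecMul, dotProduct, Finset.sum_smul, mul_smul]
  exact Finset.sum_comm

theorem sum_co_acl (v : I → ℤ[X]) :
    ∑ i, S.co v i • acl S c i = ∑ k, v k • c k := by
  rw [sum_acl]
  refine Finset.sum_congr rfl fun k _ => ?_
  congr 1
  rw [← S.vecMul_CI, Matrix.vecMul_vecMul, S.CI_mul_CM, Matrix.vecMul_one]

theorem acl_triv {x : I} (hx : ∀ i, S.pr i = S.pr x → i = x) : acl S c x = c x := by
  unfold acl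
  rw [Finset.sum_eq_single x]
  · change S.bv x x • c x = c x
    rw [S.bv_triv hx, Pi.single_eq_same, one_smul]
  · intro k _ hk
    change S.bv x k • c k = 0
    rw [S.bv_triv hx, Pi.single_eq_of_ne hk, zero_smul]
  · intro h
    exact absurd (Finset.mem_univ _) h

theorem acl_jj (j : J) : acl S c (S.jj j) = ∑ i, ((S.TT (S.c0 j) i : ℕ) : ℤ[X]) • c i := by
  unfold acl
  refine Finset.sum_congr rfl fun k _ => ?_
  change S.bv (S.jj j) k • c k = _
  rw [S.bv_jj]

theorem top_of_acl (h : ∀ z : K, ∃ v : I → ℤ[X], z = ∑ j, v j • acl S c j) (z : K) :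
    ∃ v : I → ℤ[X], z = ∑ j, v j • c j := by
  obtain ⟨v, hv⟩ := h z
  exact ⟨v ᵥ* S.CM ℤ[X], by rw [hv, sum_acl]⟩

end cls

section fil

variable {K KN KB KH L : Type} [AddCommGroup K] [Module ℤ[X] K] [AddCommGroup KN]
  [Module ℤ[X] KN] [AddCommGroup KB] [Module ℤ[X] KB] [AddCommGroup KH] [Module ℤ[X] KH]
  [AddCommGroup L] [Module ℤ[X] L] {I J : Type} [Fintype I] [Fintype J]

/-- the image in `L` of a combination in `MM` -/
theorem fil_inM (F : Fil K KN KB KH L) (S : Str I J) (c : I → K) (cB : J → KB)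
    (cls : ∀ j v, S.InL j v → F.s (∑ i, (v i : ℤ[X]) • c i) = F.b (cB j))
    (gN : {i // S.typ i = 2} → KN) (hgN : ∀ i, F.i (gN i) = acl S c i)
    (w : I → ℤ[X]) (hw : S.InM w) :
    F.s (∑ i, w i • c i) = F.b (∑ j, S.deg w j • cB j) := by
  rw [← sum_co_acl S c w, map_sum, map_sum]
  have h1 : ∀ i, F.s (S.co w i • acl S c i) =
      if S.typ i = 1 then F.b (S.deg w (S.pr i) • cB (S.pr i)) else 0 := by
    intro i
    split_ifs with h
    · have h2 : i = S.jj (S.pr i) := S.typ_eq_one h
      have h3 : S.co w i = S.deg w (S.pr i) := by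
        conv_lhs => rw [h2]
        exact S.co_jj w _
      have h4 : acl S c i = ∑ k, ((S.TT (S.c0 (S.pr i)) k : ℕ) : ℤ[X]) • c k := by
        conv_lhs => rw [h2]
        exact acl_jj S c _
      rw [map_smul, map_smul, h3, h4, cls _ _ (S.inL_TT _)]
    · rcases S.typ_cases i with h' | h' | h' | h'
      · rw [map_smul, ← hgN ⟨i, h'.1⟩, (F.exK _).2 ⟨_, rfl⟩, smul_zero]
      · rw [(S.inM_iff w).1 hw i h'.1, zero_smul, map_zero]
      · rw [map_smul, ← hgN ⟨i, h'.1⟩, (F.exK _).2 ⟨_, rfl⟩, smul_zero]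
      · exact absurd h'.1 h
  simp only [h1]
  rw [← Finset.sum_filter]
  symm
  refine Finset.sum_bij (fun j _ => S.jj j) ?_ ?_ ?_ ?_
  · intro j _
    rw [Finset.mem_filter]
    exact ⟨Finset.mem_univ _, S.typ_jj j⟩
  · intro a _ b _ hab
    exact S.jj_injective hab
  · intro i hi
    exact ⟨S.pr i, Finset.mem_univ _, (S.typ_eq_one (Finset.mem_filter.1 hi).2).symm⟩
  · intro j _
    rw [S.pr_jj]

end fil

end Pool.Agent.FTO
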