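import Pool.Agent.FTO.Fil

/-!
# FTO, A1a: the horseshoe lemma with a prescribed row

Rows of type `2`: `RN`. Rows of type `1`: for `j` the relation `RB j` of the classes in `KB` lifts:
`∑ RB j j' • c j'` has image `0` in `L` (`b` of the relation), so it is `i n`, and `n` is a
combination of the `gN` (`hN.top`), whose negative coefficients are the entries of type `2`. For
`j = y` take `ρ`. Rows of type `0`: first `∑ RH h h' • s (c h')` is in the kernel of `p`, so it is
`b z`, `z` a combination of the `gB`; then the same as before in `K`. `span`: for a relation `v`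
apply `p ∘ s` (only the coefficients of type `0` count): `v|0 = a RH`; subtract `a * (rows of type
0)`; the rest has image in `L` which is `b` of a combination of the `gB`, `b_inj`: `v|1 = a' RB`;
subtract; the rest is `i` of a combination of the `gN`. `top`: the same. Determinant:
`BlockTriangular.det_fintype`.
-/

set_option autoImplicit false

open scoped BigOperators
open Matrix Polynomial

namespace Pool.Agent.FTO

open Pool.Agent.SSE

attribute [local instance] Classical.propDecidable

section ext3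

variable {I : Type} [Fintype I]

/-- extension by zero -/
noncomputable def h1ext {A : Type} [Zero A] (typ : I → Fin 3) (t : Fin 3) (w : {i // typ i = t} → A) (i : I) : A :=
  if h : typ i = t then w ⟨i, h⟩ else 0

omit [Fintype I] in
theorem h1ext_same {A : Type} [Zero A] {typ : I → Fin 3} {t : Fin 3} (w : {i // typ i = t} → A)
    (i : {i // typ i = t}) : h1ext typ t w i = w i := by
  unfold h1ext
  rw [dif_pos i.2]

omit [Fintype I] in
theorem h1ext_ne {A : Type} [Zero A] {typ : I → Fin 3} {t : Fin 3} (w : {i // typ i = t} → A)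
    {i : I} (h : typ i ≠ t) : h1ext typ t w i = 0 := by
  unfold h1ext
  rw [dif_neg h]

theorem h1ext_sum {K : Type} [AddCommGroup K] [Module ℤ[X] K] {typ : I → Fin 3} {t : Fin 3}
    (w : {i // typ i = t} → ℤ[X]) (c : I → K) :
    ∑ k, h1ext typ t w k • c k = ∑ k : {i // typ i = t}, w k • c k := by
  rw [← Fintype.sum_subtype_add_sum_subtype (fun i => typ i = t)]
  have h1 : ∑ i : {x // ¬ typ x = t}, h1ext typ t w i • c i = 0 := by
    refine Finset.sum_eq_zero fun i _ => ?_
    rw [h1ext_ne w i.2, zero_smul]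
  rw [h1, add_zero]
  refine Finset.sum_congr rfl fun i _ => ?_
  rw [h1ext_same]

omit [Fintype I] in
theorem h1_decomp {A : Type} [AddZeroClass A] (typ : I → Fin 3) (v : I → A) (i : I) :
    v i = h1ext typ 0 (fun k => v k) i + h1ext typ 1 (fun k => v k) i
      + h1ext typ 2 (fun k => v k) i := by
  have h : typ i = 0 ∨ typ i = 1 ∨ typ i = 2 := by
    generalize typ i = a
    fin_cases a <;> simp
  rcases h with h | h | h <;> simp [h1ext, h]

theorem h1_sum {K : Type} [AddCommGroup K] [Module ℤ[X] K] (typ : I → Fin 3) (v : I → ℤ[X])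
    (c : I → K) : ∑ k, v k • c k = ∑ k : {i // typ i = 0}, v k • c k
      + ∑ k : {i // typ i = 1}, v k • c k + ∑ k : {i // typ i = 2}, v k • c k := by
  rw [← h1ext_sum (fun k : {i // typ i = 0} => v k), ← h1ext_sum (fun k : {i // typ i = 1} => v k),
    ← h1ext_sum (fun k : {i // typ i = 2} => v k), ← Finset.sum_add_distrib,
    ← Finset.sum_add_distrib]
  refine Finset.sum_congr rfl fun k _ => ?_
  rw [← add_smul, ← add_smul, ← h1_decomp typ v k]

end ext3

variable {K KN KB KH L : Type} [AddCommGroup K] [Module ℤ[X] K] [AddCommGroup KN]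
  [Module ℤ[X] KN] [AddCommGroup KB] [Module ℤ[X] KB] [AddCommGroup KH] [Module ℤ[X] KH]
  [AddCommGroup L] [Module ℤ[X] L] {I : Type} [Fintype I]

theorem Fil.si (F : Fil K KN KB KH L) (n : KN) : F.s (F.i n) = 0 := (F.exK _).2 ⟨n, rfl⟩
theorem Fil.pb (F : Fil K KN KB KH L) (y : KB) : F.p (F.b y) = 0 := (F.exL _).2 ⟨y, rfl⟩

theorem horse (F : Fil K KN KB KH L) (typ : I → Fin 3) (c : I → K) {δN δB δH : ℤ[X]}
    {gN : {i // typ i = 2} → KN} {RN : Matrix {i // typ i = 2} {i // typ i = 2} ℤ[X]}
    (hN : RelOf δN gN RN) (hgN : ∀ i, F.i (gN i) = c i)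
    {gB : {i // typ i = 1} → KB} {RB : Matrix {i // typ i = 1} {i // typ i = 1} ℤ[X]}
    (hB : RelOf δB gB RB) (hgB : ∀ i : {i // typ i = 1}, F.s (c i) = F.b (gB i))
    {RH : Matrix {i // typ i = 0} {i // typ i = 0} ℤ[X]}
    (hH : RelOf δH (fun i : {i // typ i = 0} => F.p (F.s (c i))) RH)
    (y : {i // typ i = 1}) (ρ : I → ℤ[X]) (hρ : ∑ k, ρ k • c k = 0)
    (hρB : ∀ j : {i // typ i = 1}, ρ j = RB y j) (hρH : ∀ h, typ h = 0 → ρ h = 0) :
    ∃ R : Matrix I I ℤ[X], RelOf (δN * (δB * δH)) c R ∧ R.BlockTriangular typ ∧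
      R.toSquareBlock typ 2 = RN ∧ R.toSquareBlock typ 1 = RB ∧ R.toSquareBlock typ 0 = RH ∧
      R y = ρ := by
  -- images of the classes
  have s2 : ∀ i : {i // typ i = 2}, F.s (c i) = 0 := fun i => by rw [← hgN i, F.si]
  have p1 : ∀ i : {i // typ i = 1}, F.p (F.s (c i)) = 0 := fun i => by rw [hgB i, F.pb]
  -- lifts
  have L1 : ∀ z : K, F.s z = 0 → ∃ w : {i // typ i = 2} → ℤ[X], z = ∑ k, w k • c k := by
    intro z hz
    obtain ⟨n, rfl⟩ := (F.exK z).1 hz
    obtain ⟨w, hw⟩ := hN.top n
    refine ⟨w, ?_⟩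
    rw [hw, map_sum]
    exact Finset.sum_congr rfl fun k _ => by rw [map_smul, hgN]
  have L2 : ∀ z : K, F.p (F.s z) = 0 → ∃ (w1 : {i // typ i = 1} → ℤ[X])
      (w2 : {i // typ i = 2} → ℤ[X]), z = ∑ k, w1 k • c k + ∑ k, w2 k • c k := by
    intro z hz
    obtain ⟨x, hx⟩ := (F.exL _).1 hz
    obtain ⟨w1, hw1⟩ := hB.top x
    have h1 : F.s (z - ∑ k, w1 k • c k) = 0 := by
      rw [map_sub, map_sum, ← hx, hw1, map_sum, sub_eq_zero]
      exact Finset.sum_congr rfl fun k _ => by rw [map_smul, map_smul, hgB]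
    obtain ⟨w2, hw2⟩ := L1 _ h1
    exact ⟨w1, w2, by rw [← hw2]; abel⟩
  -- sums of type 1 and 0
  have S1 : ∀ w : {i // typ i = 1} → ℤ[X], F.s (∑ k, w k • c k) = F.b (∑ k, w k • gB k) := by
    intro w
    rw [map_sum, map_sum]
    exact Finset.sum_congr rfl fun k _ => by rw [map_smul, map_smul, hgB]
  have S2 : ∀ w : {i // typ i = 2} → ℤ[X], F.s (∑ k, w k • c k) = 0 := by
    intro w
    rw [map_sum]
    exact Finset.sum_eq_zero fun k _ => by rw [map_smul, s2, smul_zero]
  have S2' : ∀ w : {i // typ i = 2} → ℤ[X], F.i (∑ k, w k • gN k) = ∑ k, w k • c k := by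
    intro w
    rw [map_sum]
    exact Finset.sum_congr rfl fun k _ => by rw [map_smul, hgN]
  have S0 : ∀ w : {i // typ i = 0} → ℤ[X], F.p (F.s (∑ k, w k • c k))
      = ∑ k, w k • F.p (F.s (c k)) := by
    intro w
    rw [map_sum, map_sum]
    exact Finset.sum_congr rfl fun k _ => by rw [map_smul, map_smul]
  have S1' : ∀ w : {i // typ i = 1} → ℤ[X], F.p (F.s (∑ k, w k • c k)) = 0 := by
    intro w
    rw [S1, F.pb]
  -- rows
  have rows : ∀ i : I, ∃ r : I → ℤ[X], ∑ k, r k • c k = 0 ∧ (∀ k, typ k < typ i → r k = 0) ∧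
      (∀ h : typ i = 2, ∀ k : {i // typ i = 2}, r k = RN ⟨i, h⟩ k) ∧
      (∀ h : typ i = 1, ∀ k : {i // typ i = 1}, r k = RB ⟨i, h⟩ k) ∧
      (∀ h : typ i = 0, ∀ k : {i // typ i = 0}, r k = RH ⟨i, h⟩ k) ∧ (i = y → r = ρ) := by
    intro i
    have h3 : typ i = 0 ∨ typ i = 1 ∨ typ i = 2 := by
      generalize typ i = a
      fin_cases a <;> simp
    rcases h3 with h3 | h3 | h3
    · -- type 0
      have h4 : F.p (F.s (∑ k, RH ⟨i, h3⟩ k • c k)) = 0 := by
        rw [S0]; exact hH.rel ⟨i, h3⟩
      obtain ⟨w1, w2, hw⟩ := L2 _ h4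
      refine ⟨fun k => h1ext typ 0 (RH ⟨i, h3⟩) k - h1ext typ 1 w1 k - h1ext typ 2 w2 k, ?_, ?_,
        ?_, ?_, ?_, ?_⟩
      · simp only [sub_smul, Finset.sum_sub_distrib]
        rw [h1ext_sum, h1ext_sum, h1ext_sum, hw]
        abel
      · intro k hk
        rw [h3] at hk
        exact absurd hk (by simp)
      · intro h; rw [h3] at h; exact absurd h (by decide)
      · intro h; rw [h3] at h; exact absurd h (by decide)
      · intro h k
        simp only
        rw [h1ext_same, h1ext_ne w1 (by rw [k.2]; decide), h1ext_ne w2 (by rw [k.2]; decide),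
          sub_zero, sub_zero]
      · intro h
        rw [h, y.2] at h3
        exact absurd h3 (by decide)
    · -- type 1
      by_cases hy : i = y
      · refine ⟨ρ, hρ, ?_, ?_, ?_, ?_, fun _ => rfl⟩
        · intro k hk
          rw [h3] at hk
          refine hρH k ?_
          revert hk
          generalize typ k = a
          fin_cases a <;> simp
        · intro h; rw [h3] at h; exact absurd h (by decide)
        · intro h k
          rw [hρB]
          congr 1
          exact Subtype.ext hy.symm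
        · intro h; rw [h3] at h; exact absurd h (by decide)
      · have h4 : F.s (∑ k, RB ⟨i, h3⟩ k • c k) = 0 := by
          rw [S1, hB.rel ⟨i, h3⟩, map_zero]
        obtain ⟨w2, hw⟩ := L1 _ h4
        refine ⟨fun k => h1ext typ 1 (RB ⟨i, h3⟩) k - h1ext typ 2 w2 k, ?_, ?_, ?_, ?_, ?_, ?_⟩
        · simp only [sub_smul, Finset.sum_sub_distrib]
          rw [h1ext_sum, h1ext_sum, hw]
          abel
        · intro k hk
          rw [h3] at hk
          have h5 : typ k = 0 := by
            revert hk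
            generalize typ k = a
            fin_cases a <;> simp
          simp only
          rw [h1ext_ne _ (by rw [h5]; decide), h1ext_ne _ (by rw [h5]; decide), sub_zero]
        · intro h; rw [h3] at h; exact absurd h (by decide)
        · intro h k
          simp only
          rw [h1ext_same, h1ext_ne w2 (by rw [k.2]; decide), sub_zero]
        · intro h; rw [h3] at h; exact absurd h (by decide)
        · intro h; exact absurd h hy
    · -- type 2
      refine ⟨fun k => h1ext typ 2 (RN ⟨i, h3⟩) k, ?_, ?_, ?_, ?_, ?_, ?_⟩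
      · rw [h1ext_sum]
        rw [← S2', hN.rel ⟨i, h3⟩, map_zero]
      · intro k hk
        rw [h3] at hk
        exact h1ext_ne _ hk.ne
      · intro h k
        simp only
        rw [h1ext_same]
      · intro h; rw [h3] at h; exact absurd h (by decide)
      · intro h; rw [h3] at h; exact absurd h (by decide)
      · intro h
        rw [h, y.2] at h3
        exact absurd h3 (by decide)
  choose R hR1 hR2 hR3 hR4 hR5 hR6 using rows
  have hBT : (of R : Matrix I I ℤ[X]).BlockTriangular typ := fun i j h => hR2 i j h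
  have hb2 : (of R : Matrix I I ℤ[X]).toSquareBlock typ 2 = RN :=
    Matrix.ext fun i k => hR3 i i.2 k
  have hb1 : (of R : Matrix I I ℤ[X]).toSquareBlock typ 1 = RB :=
    Matrix.ext fun i k => hR4 i i.2 k
  have hb0 : (of R : Matrix I I ℤ[X]).toSquareBlock typ 0 = RH :=
    Matrix.ext fun i k => hR5 i i.2 k
  -- the rows as combinations
  have hcomb : ∀ a : I → ℤ[X], ∑ k, (a ᵥ* (of R : Matrix I I ℤ[X])) k • c k = 0 := by
    intro a
    have e1 : ∀ k, (a ᵥ* (of R : Matrix I I ℤ[X])) k • c k = ∑ i, a i • (R i k • c k) := by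
      intro k
      simp only [Matrix.vecMul, dotProduct, Finset.sum_smul, mul_smul, of_apply]
    simp only [e1]
    rw [Finset.sum_comm]
    refine Finset.sum_eq_zero fun i _ => ?_
    rw [← Finset.smul_sum, hR1 i, smul_zero]
  -- entries of combinations of rows of one type
  have hent : ∀ (t : Fin 3) (a : {i // typ i = t} → ℤ[X]) (k : I),
      (h1ext typ t a ᵥ* (of R : Matrix I I ℤ[X])) k = ∑ i : {i // typ i = t}, a i * R i k := by
    intro t a k
    have e1 : (h1ext typ t a ᵥ* (of R : Matrix I I ℤ[X])) k = ∑ i, h1ext typ t a i • R i k := rfl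
    rw [e1, h1ext_sum]
    rfl
  refine ⟨of R, ⟨hR1, ?_, ?_, ?_⟩, hBT, hb2, hb1, hb0, hR6 y rfl⟩
  · -- span
    intro v hv
    have e0 : ∑ k : {i // typ i = 0}, v k • F.p (F.s (c k)) = 0 := by
      have h1 := congrArg (fun z => F.p (F.s z)) hv
      simp only [map_zero] at h1
      rw [h1_sum typ, map_add, map_add, map_add, map_add, S0, S1', S2, map_zero, add_zero,
        add_zero] at h1
      exact h1
    obtain ⟨a0, ha0⟩ := hH.span _ e0
    obtain ⟨v1, hv1⟩ : ∃ v1, v1 = v - h1ext typ 0 a0 ᵥ* (of R : Matrix I I ℤ[X]) := ⟨_, rfl⟩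
    have r1 : ∑ k, v1 k • c k = 0 := by
      rw [hv1]
      simp only [Pi.sub_apply, sub_smul, Finset.sum_sub_distrib]
      rw [hv, hcomb, sub_zero]
    have z1 : ∀ k, typ k = 0 → v1 k = 0 := by
      intro k hk
      rw [hv1, Pi.sub_apply, hent]
      have h2 := congrFun ha0 ⟨k, hk⟩
      simp only [Matrix.vecMul, dotProduct] at h2
      rw [h2, sub_eq_zero]
      exact Finset.sum_congr rfl fun i _ => by rw [hR5 i i.2 ⟨k, hk⟩]
    have e1 : ∑ k : {i // typ i = 1}, v1 k • gB k = 0 := by
      have h1 := congrArg F.s r1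
      rw [h1_sum typ, map_add, map_add, S1, S2, add_zero, map_zero] at h1
      have h3 : ∑ k : {i // typ i = 0}, v1 k • c k = 0 :=
        Finset.sum_eq_zero fun k _ => by rw [z1 k k.2, zero_smul]
      rw [h3, map_zero, zero_add] at h1
      exact F.b_inj (h1.trans (map_zero _).symm)
    obtain ⟨a1, ha1⟩ := hB.span _ e1
    obtain ⟨v2, hv2⟩ : ∃ v2, v2 = v1 - h1ext typ 1 a1 ᵥ* (of R : Matrix I I ℤ[X]) := ⟨_, rfl⟩
    have r2 : ∑ k, v2 k • c k = 0 := by
      rw [hv2]
      simp only [Pi.sub_apply, sub_smul, Finset.sum_sub_distrib]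
      rw [r1, hcomb, sub_zero]
    have z2 : ∀ k, typ k ≠ 2 → v2 k = 0 := by
      intro k hk
      have h3 : typ k = 0 ∨ typ k = 1 := by
        revert hk
        generalize typ k = a
        fin_cases a <;> simp
      rw [hv2, Pi.sub_apply, hent]
      rcases h3 with h3 | h3
      · rw [z1 k h3, zero_sub, neg_eq_zero]
        refine Finset.sum_eq_zero fun i _ => ?_
        rw [hR2 i k (by rw [h3, i.2]; decide), mul_zero]
      · have h2 := congrFun ha1 ⟨k, h3⟩
        simp only [Matrix.vecMul, dotProduct] at h2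
        rw [h2, sub_eq_zero]
        exact Finset.sum_congr rfl fun i _ => by rw [hR4 i i.2 ⟨k, h3⟩]
    have e2 : ∑ k : {i // typ i = 2}, v2 k • gN k = 0 := by
      rw [h1_sum typ] at r2
      have h3 : ∑ k : {i // typ i = 0}, v2 k • c k = 0 :=
        Finset.sum_eq_zero fun k _ => by rw [z2 k (by rw [k.2]; decide), zero_smul]
      have h4 : ∑ k : {i // typ i = 1}, v2 k • c k = 0 :=
        Finset.sum_eq_zero fun k _ => by rw [z2 k (by rw [k.2]; decide), zero_smul]
      rw [h3, h4, zero_add, zero_add, ← S2'] at r2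
      exact F.i_inj (r2.trans (map_zero _).symm)
    obtain ⟨a2, ha2⟩ := hN.span _ e2
    have h5 : v2 = h1ext typ 2 a2 ᵥ* (of R : Matrix I I ℤ[X]) := by
      funext k
      rw [hent]
      by_cases hk : typ k = 2
      · have h2 := congrFun ha2 ⟨k, hk⟩
        simp only [Matrix.vecMul, dotProduct] at h2
        rw [h2]
        exact Finset.sum_congr rfl fun i _ => by rw [hR3 i i.2 ⟨k, hk⟩]
      · rw [z2 k hk, Finset.sum_eq_zero]
        intro i _
        have h6 : typ k < typ i := by
          rw [i.2]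
          revert hk
          generalize typ k = a
          fin_cases a <;> simp
        rw [hR2 i k h6, mul_zero]
    refine ⟨h1ext typ 0 a0 + h1ext typ 1 a1 + h1ext typ 2 a2, ?_⟩
    rw [Matrix.add_vecMul, Matrix.add_vecMul, ← h5, hv2, hv1]
    abel
  · -- top
    intro z
    obtain ⟨w0, hw0⟩ := hH.top (F.p (F.s z))
    have h1 : F.p (F.s (z - ∑ k, w0 k • c k)) = 0 := by
      rw [map_sub, map_sub, S0, hw0, sub_self]
    obtain ⟨w1, w2, hw⟩ := L2 _ h1
    refine ⟨fun k => h1ext typ 0 w0 k + h1ext typ 1 w1 k + h1ext typ 2 w2 k, ?_⟩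
    simp only [add_smul, Finset.sum_add_distrib]
    rw [h1ext_sum, h1ext_sum, h1ext_sum, add_assoc, ← hw]
    abel
  · -- determinant
    have k2 : ∀ d : DecidableEq {i // typ i = 2}, @Matrix.det _ d _ ℤ[X] _ RN = δN :=
      fun d => cast (by congr) (hN.det)
    have k1 : ∀ d : DecidableEq {i // typ i = 1}, @Matrix.det _ d _ ℤ[X] _ RB = δB :=
      fun d => cast (by congr) (hB.det)
    have k0 : ∀ d : DecidableEq {i // typ i = 0}, @Matrix.det _ d _ ℤ[X] _ RH = δH :=
      fun d => cast (by congr) (hH.det)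
    rw [hBT.det_fintype, Fin.prod_univ_three, hb0, hb1, hb2, k2, k1, k0]
    ring

end Pool.Agent.FTO
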