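import Pool.Agent.FTO.E1
import Pool.Agent.FTO.H1
import Pool.Agent.FTO.D1

/-!
# FTO, A1e: the integral relation matrix and the factor `U`
-/

set_option autoImplicit false
set_option linter.unusedSectionVars false

open scoped BigOperators
open Matrix Polynomial

namespace Pool.Agent.FTO

open Pool.Agent.SSE

attribute [local instance] Classical.propDecidable

section conj

variable {I J : Type} [Fintype I] [Fintype J] {S : Str I J}
  {PS : Matrix I I (PowerSeries ℤ)} {QS : Matrix J J (PowerSeries ℤ)}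

theorem C1_eq (S : Str I J) (PS : Matrix I I (PowerSeries ℤ)) :
    S.CM (PowerSeries ℤ) * (1 - PS) * S.CI (PowerSeries ℤ) =
      1 - S.CM (PowerSeries ℤ) * PS * S.CI (PowerSeries ℤ) := by
  rw [Matrix.mul_sub, Matrix.sub_mul, Matrix.mul_one, S.CM_mul_CI]

theorem C1_zero (h : Structured S PS QS) {i i' : I} (hi : S.typ i' < S.typ i) :
    (S.CM (PowerSeries ℤ) * (1 - PS) * S.CI (PowerSeries ℤ)) i i' = 0 := by
  rw [C1_eq, Matrix.sub_apply, (structured_iff.1 h).1 i i' hi, sub_zero, Matrix.one_apply,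
    if_neg]
  rintro rfl
  exact lt_irrefl _ hi

theorem C1_jj (h : Structured S PS QS) (j j' : J) :
    (S.CM (PowerSeries ℤ) * (1 - PS) * S.CI (PowerSeries ℤ)) (S.jj j) (S.jj j') =
      (1 - QS : Matrix J J (PowerSeries ℤ)) j j' := by
  rw [C1_eq, Matrix.sub_apply, (structured_iff.1 h).2, Matrix.sub_apply, Matrix.one_apply,
    Matrix.one_apply]
  congr 1
  by_cases hj : j = j'
  · rw [if_pos hj, if_pos (by rw [hj])]
  · rw [if_neg hj, if_neg fun h => hj (S.jj_injective h)]

theorem C1_block (h : Structured S PS QS) :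
    ((S.CM (PowerSeries ℤ) * (1 - PS) * S.CI (PowerSeries ℤ)).toSquareBlock S.typ 1).det =
      (1 - QS).det := by
  rw [← Matrix.det_submatrix_equiv_self S.eJ (1 - QS)]
  congr 1
  ext i j : 1
  rw [Matrix.submatrix_apply, ← C1_jj h]
  change _ = (S.CM (PowerSeries ℤ) * (1 - PS) * S.CI (PowerSeries ℤ)) (S.jj (S.pr i.1))
    (S.jj (S.pr j.1))
  rw [← S.typ_eq_one i.2, ← S.typ_eq_one j.2]
  rfl

theorem C1_row {x : I} (hx : ∀ i, S.pr i = S.pr x → i = x) {px : I → ℕ[X]}
    (hrow : ∀ j, PS x j = ps (toZ (px j))) (k : I) :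
    (S.CM (PowerSeries ℤ) * (1 - PS) * S.CI (PowerSeries ℤ)) x k =
      ps (S.co (Pi.single x 1 - fun j => toZ (px j)) k) := by
  rw [S.conj_apply, S.bv_triv hx]
  have h1 : (Pi.single x 1 : I → PowerSeries ℤ) ᵥ* (1 - PS) =
      fun j => psR ((Pi.single x 1 - fun j => toZ (px j) : I → ℤ[X]) j) := by
    rw [Matrix.single_one_vecMul]
    funext j
    rw [Matrix.row_apply, Matrix.sub_apply, Pi.sub_apply, map_sub, hrow, psR_apply, psR_apply, Matrix.one_apply,
      Pi.single_apply]
    congr 1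
    by_cases hj : j = x
    · rw [if_pos hj, if_pos hj.symm]
      exact Polynomial.coe_one.symm
    · rw [if_neg hj, if_neg fun h => hj h.symm]
      exact Polynomial.coe_zero.symm
  rw [h1, S.map_co psR, psR_apply]

end conj

variable {K KN KB KH L : Type} [AddCommGroup K] [Module ℤ[X] K] [AddCommGroup KN]
  [Module ℤ[X] KN] [AddCommGroup KB] [Module ℤ[X] KB] [AddCommGroup KH] [Module ℤ[X] KH]
  [AddCommGroup L] [Module ℤ[X] L] {I J : Type} [Fintype I] [Fintype J]

/-- the integral matrix of relations of the adapted classes -/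
theorem exists_R {δN δB δH : ℤ[X]} (F : Fil K KN KB KH L)
    (D : PFM K (δN * (δB * δH))) (S : Str I J) (c : I → K) (cB : J → KB) (r : ℝ)
    (PS : Matrix I I (PowerSeries ℤ)) (QS : Matrix J J (PowerSeries ℤ)) (x : I)
    (h : Tgt F D S c cB r PS QS x) {px : I → ℕ[X]} {s1 s2 : ℕ[X]}
    (hub : HubRow S r c PS x px s1 s2) :
    ∃ R : Matrix I I ℤ[X], RelOf (δN * (δB * δH)) (acl S c) R ∧ R.BlockTriangular S.typ ∧
      (R.toSquareBlock S.typ 2).det = δN ∧ (R.toSquareBlock S.typ 1).det = δB ∧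
      (R.toSquareBlock S.typ 0).det = δH ∧
      R x = S.co (Pi.single x 1 - fun j => toZ (px j)) := by
  obtain ⟨gN, RN, hN, hgN⟩ := h.relN
  obtain ⟨RB, hB, hBx⟩ := h.relB
  obtain ⟨RH, hH⟩ := h.relH
  have hjx := S.jj_triv hub.triv
  have hx1 : S.typ x = 1 := by
    have := S.typ_jj (S.pr x)
    rwa [hjx] at this
  have hB' := relOf_reindex hB S.eJ
  obtain ⟨R, h1, h2, h3, h4, h5, h6⟩ := horse F S.typ (acl S c) hN hgN hB'
    (fun i => by
      have h2 : i.1 = S.jj (S.pr i.1) := S.typ_eq_one i.2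
      have h4 : acl S c i = ∑ k, ((S.TT (S.c0 (S.pr i)) k : ℕ) : ℤ[X]) • c k := by
        conv_lhs => rw [h2]
        exact acl_jj S c _
      rw [h4, h.cls _ _ (S.inL_TT _)]
      rfl) hH ⟨x, hx1⟩ (S.co (Pi.single x 1 - fun j => toZ (px j))) (by
      rw [sum_co_acl]
      simp only [Pi.sub_apply, sub_smul, Finset.sum_sub_distrib]
      rw [← hub.rel, sub_eq_zero]
      rw [Finset.sum_eq_single x]
      · rw [Pi.single_eq_same, one_smul]
      · intro b _ hb
        rw [Pi.single_eq_of_ne hb, zero_smul]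
      · intro h
        exact absurd (Finset.mem_univ _) h) (by
      intro j
      apply psR_inj
      rw [psR_apply, ← C1_row hub.triv hub.row]
      have h2 : j.1 = S.jj (S.pr j.1) := S.typ_eq_one j.2
      conv_lhs => rw [h2, ← hjx]
      rw [C1_jj h.str, ← hBx]
      rfl) (by
      intro k hk
      apply psR_inj
      rw [psR_apply, ← C1_row hub.triv hub.row, C1_zero h.str (by rw [hk, hx1]; decide), map_zero])
  refine ⟨R, h1, h2, ?_, ?_, ?_, h6⟩
  · rw [h3]
    exact cast (by congr) hN.det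
  · rw [h4]
    exact cast (by congr) hB'.det
  · rw [h5]
    exact cast (by congr) hH.det

/-- balance of the rows of the conjugated matrix -/
theorem C1_bal {δ : ℤ[X]} (D : PFM K δ) (S : Str I J) (c : I → K) {r : ℝ}
    (hr : 1 < D.lam * r) {PS : Matrix I I (PowerSeries ℤ)} (hF : ∀ i j, FN r (PS i j))
    (bal : ∀ i, D.tau (c i) = ∑ j, sv D.lam⁻¹ (PS i j) * D.tau (c j)) :
    (∀ i j, FN r ((S.CM (PowerSeries ℤ) * (1 - PS) * S.CI (PowerSeries ℤ)) i j)) ∧
    ∀ i, ∑ k, sv D.lam⁻¹ ((S.CM (PowerSeries ℤ) * (1 - PS) * S.CI (PowerSeries ℤ)) i k) *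
      D.tau (acl S c k) = 0 := by
  have hx0 := D.x0_pos
  have hx1 := D.x0_lt hr
  have hr0 : 0 ≤ r := hx0.le.trans hx1.le
  have hxr : ‖D.lam⁻¹‖ ≤ r := by
    rw [Real.norm_of_nonneg hx0.le]
    exact hx1.le
  set PS' : Matrix I I (FNS r hr0) := fun i j => ⟨PS i j, hF i j⟩ with hPS'
  set C1' : Matrix I I (FNS r hr0) := S.CM _ * (1 - PS') * S.CI _ with hC1'
  have hmap : C1'.map (FNS r hr0).subtype =
      S.CM (PowerSeries ℤ) * (1 - PS) * S.CI (PowerSeries ℤ) := by
    rw [hC1', Matrix.map_mul, Matrix.map_mul, S.map_CM, S.map_CI]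
    congr 2
    ext i j : 1
    simp only [Matrix.map_apply, Matrix.sub_apply, Matrix.one_apply, map_sub]
    congr 1
    split_ifs
    · exact map_one (FNS r hr0).subtype
    · exact map_zero (FNS r hr0).subtype
  have hval : ∀ i j, ((C1' i j : FNS r hr0) : PowerSeries ℤ) =
      (S.CM (PowerSeries ℤ) * (1 - PS) * S.CI (PowerSeries ℤ)) i j := by
    intro i j
    rw [← hmap]
    rfl
  refine ⟨fun i j => ?_, fun i => ?_⟩
  · rw [← hval]
    exact (C1' i j).2
  · set E := evS r hr0 D.lam⁻¹ hxr with hE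
    have h1 : ∀ k, sv D.lam⁻¹ ((S.CM (PowerSeries ℤ) * (1 - PS) * S.CI (PowerSeries ℤ)) i k) =
        C1'.map E i k := by
      intro k
      rw [← hval]
      rfl
    have h2 : C1'.map E = S.CM ℝ * (1 - PS'.map E) * S.CI ℝ := by
      rw [hC1', Matrix.map_mul, Matrix.map_mul, S.map_CM, S.map_CI]
      congr 2
      ext i j : 1
      simp only [Matrix.map_apply, Matrix.sub_apply, Matrix.one_apply, map_sub]
      congr 1
      split_ifs
      · exact map_one E
      · exact map_zero E
    have h3 : (fun k => D.tau (acl S c k)) = S.CM ℝ *ᵥ fun k => D.tau (c k) := by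
      funext k
      unfold acl
      rw [map_sum]
      rw [Matrix.mulVec, dotProduct]
      refine Finset.sum_congr rfl fun l _ => ?_
      rw [tau_smul D.tau_X]
      congr 1
      exact S.map_bv (Polynomial.eval₂RingHom (Int.castRingHom ℝ) D.lam⁻¹) k l
    have h4 : (1 - PS'.map E) *ᵥ (fun k => D.tau (c k)) = 0 := by
      rw [Matrix.sub_mulVec, Matrix.one_mulVec, sub_eq_zero]
      funext j
      exact bal j
    have h5 : ∑ k, C1'.map E i k * D.tau (acl S c k) =
        (C1'.map E *ᵥ fun k => D.tau (acl S c k)) i := rfl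
    simp only [h1]
    rw [h5, h2, h3, Matrix.mulVec_mulVec, Matrix.mul_assoc, S.CI_mul_CM, Matrix.mul_one,
      ← Matrix.mulVec_mulVec, h4, Matrix.mulVec_zero, Pi.zero_apply]

/-- **the factorization `CM (1 - PS) CI = U R`** -/
theorem exists_RU {δN δB δH : ℤ[X]} (F : Fil K KN KB KH L)
    (D : PFM K (δN * (δB * δH))) (hδ1 : δN.coeff 0 = 1) (hδ2 : δB.coeff 0 = 1)
    (hδ3 : δH.coeff 0 = 1) (S : Str I J) (c : I → K) (cB : J → KB) (r : ℝ)
    (PS : Matrix I I (PowerSeries ℤ)) (QS : Matrix J J (PowerSeries ℤ)) (x : I)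
    (h : Tgt F D S c cB r PS QS x) {px : I → ℕ[X]} {s1 s2 : ℕ[X]}
    (hub : HubRow S r c PS x px s1 s2) :
    ∃ (R : Matrix I I ℤ[X]) (U : Matrix I I (PowerSeries ℤ)),
      RelOf (δN * (δB * δH)) (acl S c) R ∧ R.BlockTriangular S.typ ∧
      (R.toSquareBlock S.typ 1).det = δB ∧
      R x = S.co (Pi.single x 1 - fun j => toZ (px j)) ∧
      S.CM (PowerSeries ℤ) * (1 - PS) * S.CI (PowerSeries ℤ) = U * R.map ps ∧
      (∀ i j, FN r (U i j)) ∧ U.BlockTriangular S.typ ∧
      (∀ k, (U.toSquareBlock S.typ k).det = 1) ∧ ∀ j, U x j = if j = x then 1 else 0 := by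
  obtain ⟨R, h1, h2, h3, h4, h5, h6⟩ := exists_R F D S c cB r PS QS x h hub
  set C1 := S.CM (PowerSeries ℤ) * (1 - PS) * S.CI (PowerSeries ℤ) with hC1
  obtain ⟨hFC, hbC⟩ := C1_bal D S c h.r_gt (fun i j => (h.ts i j).fn) h.bal
  have hδ : (δN * (δB * δH)).coeff 0 = 1 := by
    rw [Polynomial.mul_coeff_zero, Polynomial.mul_coeff_zero, hδ1, hδ2, hδ3]
    norm_num
  have hrow : ∀ i, ∃ u : I → PowerSeries ℤ, (∀ k, FN r (u k)) ∧
      ∀ j, C1 i j = ∑ k, u k * ps (R k j) := fun i =>
    div_rel D h1 hδ ⟨x, by rw [acl_triv S c hub.triv]; exact (h.pos x).ne'⟩ h.r_gt h.r_le (C1 i)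
      (hFC i) (hbC i)
  choose U hUF hU using hrow
  have hCU : C1 = of U * R.map ps := by
    ext i j : 1
    rw [hU i j, Matrix.mul_apply]
    rfl
  -- the matrix `R` over the series
  have hRp : R.map ps = R.map psR := rfl
  have hdet : (R.map psR).det = psR (δN * (δB * δH)) := by
    rw [← RingHom.mapMatrix_apply, ← RingHom.map_det, h1.det]
  have hunit : IsUnit (R.map psR).det := by
    rw [hdet, PowerSeries.isUnit_iff_constantCoeff, ← PowerSeries.coeff_zero_eq_constantCoeff_apply,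
      psR_apply, coeff_ps, hδ]
    exact isUnit_one
  let _ := Matrix.invertibleOfIsUnitDet _ hunit
  have hRT : (R.map psR).BlockTriangular S.typ := by
    intro i j hij
    rw [Matrix.map_apply, h2 hij, map_zero]
  have hCT : C1.BlockTriangular S.typ := fun i j hij => C1_zero h.str hij
  have hUeq : of U = C1 * (R.map psR)⁻¹ := by
    rw [hCU, hRp, Matrix.mul_assoc, Matrix.mul_nonsing_inv _ hunit, Matrix.mul_one]
  have hUT : (of U).BlockTriangular S.typ := by
    rw [hUeq]
    exact hCT.mul (Matrix.blockTriangular_inv_of_blockTriangular hRT)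
  refine ⟨R, of U, h1, h2, h4, h6, hCU, fun i j => hUF i j, hUT, ?_, ?_⟩
  · -- block determinants
    have key : ∀ (k : Fin 3) (d : ℤ[X]), d.coeff 0 = 1 → (R.toSquareBlock S.typ k).det = d →
        (C1.toSquareBlock S.typ k).det = ps d → ((of U).toSquareBlock S.typ k).det = 1 := by
      intro k d hd h7 h8
      have h9 : ((R.map psR).toSquareBlock S.typ k).det = psR d := by
        rw [← h7, RingHom.map_det]
        rfl
      have h10 : C1.toSquareBlock S.typ k =
          (of U).toSquareBlock S.typ k * (R.map psR).toSquareBlock S.typ k := by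
        rw [← toSquareBlock_mul hUT hRT, ← hRp, ← hCU]
      have h11 := congrArg Matrix.det h10
      rw [Matrix.det_mul, h9, h8, psR_apply] at h11
      have h12 : ps d ≠ 0 := by
        intro h0
        have : PowerSeries.coeff 0 (ps d) = 0 := by rw [h0, map_zero]
        rw [coeff_ps, hd] at this
        exact one_ne_zero this
      have h13 : (((of U).toSquareBlock S.typ k).det - 1) * ps d = 0 := by
        linear_combination -h11
      rcases mul_eq_zero.1 h13 with h14 | h14
      · linear_combination h14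
      · exact absurd h14 h12
    intro k
    fin_cases k
    · exact key 0 δH hδ3 h5 h.detH
    · exact key 1 δB hδ2 h4 ((C1_block h.str).trans h.detB)
    · exact key 2 δN hδ1 h3 h.detN
  · intro j
    have h7 : of U x j = (R.map psR * (R.map psR)⁻¹) x j := by
      rw [hUeq, Matrix.mul_apply, Matrix.mul_apply]
      refine Finset.sum_congr rfl fun k _ => ?_
      congr 1
      rw [Matrix.map_apply, psR_apply, h6]
      exact C1_row hub.triv hub.row k
    rw [h7, Matrix.mul_nonsing_inv _ hunit, Matrix.one_apply]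
    by_cases hj : j = x
    · rw [if_pos hj, if_pos hj.symm]
    · rw [if_neg hj, if_neg fun h => hj h.symm]

end Pool.Agent.FTO
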