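import Pool.Agent.FTO.E2

/-!
# FTO, A1e: from the approximation `V` to the structured presentation
-/

set_option autoImplicit false
set_option linter.unusedSectionVars false

open scoped BigOperators
open Matrix Polynomial

namespace Pool.Agent.FTO

open Pool.Agent.SSE

attribute [local instance] Classical.propDecidable

section gen

variable {I J : Type} [Fintype I] [Fintype J]

theorem Structured.add' {R : Type} [CommSemiring R] {S : Str I J} {P P' : Matrix I I R}
    {Q Q' : Matrix J J R} (h : Structured S P Q) (h' : Structured S P' Q') :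
    Structured S (P + P') (Q + Q') := by
  intro j v hv
  obtain ⟨h1, h2⟩ := h j v hv
  obtain ⟨h3, h4⟩ := h' j v hv
  rw [Matrix.vecMul_add]
  refine ⟨S.inM_add' h1 h3, fun j' => ?_⟩
  rw [S.deg_add', h2, h4, Matrix.add_apply]

theorem structured_col {R : Type} [CommSemiring R] (S : Str I J) (u : I → R) (κ : J → R)
    (hu : ∀ j v, S.InL j v → ∑ i, ((v i : ℕ) : R) * u i = κ j) (m : I → R) (hm : S.InM m) :
    Structured S (of fun i k => u i * m k) (of fun j j' => κ j * S.deg m j') := by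
  intro j v hv
  have h1 : (fun i => ((v i : ℕ) : R)) ᵥ* (of fun i k => u i * m k) = κ j • m := by
    funext k
    rw [Matrix.vecMul, dotProduct, Pi.smul_apply, smul_eq_mul, ← hu j v hv, Finset.sum_mul]
    refine Finset.sum_congr rfl fun i _ => ?_
    rw [of_apply, mul_assoc]
  rw [h1]
  refine ⟨S.inM_smul' _ hm, fun j' => ?_⟩
  rw [S.deg_smul', of_apply]

/-- an integral structured matrix with nonnegative coefficients is a structured matrix over `ℕ[X]` -/
theorem lift_structured {S : Str I J} {PZ : Matrix I I ℤ[X]} {QZ : Matrix J J ℤ[X]}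
    (h : Structured S PZ QZ) (hP : ∀ i j d, 0 ≤ (PZ i j).coeff d)
    (hP0 : ∀ i j, (PZ i j).coeff 0 = 0) :
    ∃ (P : Matrix I I ℕ[X]) (Q : Matrix J J ℕ[X]), Structured S P Q ∧
      (∀ i j, toZ (P i j) = PZ i j) ∧ (∀ j j', toZ (Q j j') = QZ j j') ∧ IsPres P ∧ IsPres Q := by
  have hlift : ∀ f : ℤ[X], (∀ n, 0 ≤ f.coeff n) → ∃ p : ℕ[X], toZ p = f := by
    intro f hf
    refine ⟨∑ n ∈ f.support, monomial n (f.coeff n).toNat, ?_⟩
    ext n
    rw [coeff_toZ, finsetSum_coeff]
    simp only [coeff_monomial]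
    rw [Finset.sum_ite_eq' f.support n]
    split_ifs with hn
    · exact Int.toNat_of_nonneg (hf n)
    · rw [notMem_support_iff.1 hn]
      rfl
  obtain ⟨P, hPZ⟩ : ∃ P : Matrix I I ℕ[X], ∀ i j, toZ (P i j) = PZ i j := by
    choose P hPZ using fun i j => hlift (PZ i j) (hP i j)
    exact ⟨P, hPZ⟩
  set fZ : ℕ[X] →+* ℤ[X] := Polynomial.mapRingHom (Nat.castRingHom ℤ) with hfZ
  have hfinj : Function.Injective fZ := Polynomial.map_injective _ Nat.cast_injective
  have hf : ∀ p, fZ p = toZ p := fun p => rfl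
  set Q : Matrix J J ℕ[X] := fun j j' =>
    S.deg ((fun i => ((S.TT (S.c0 j) i : ℕ) : ℕ[X])) ᵥ* P) j' with hQ
  have hQZ : ∀ j j', toZ (Q j j') = QZ j j' := by
    intro j j'
    rw [← (h j _ (S.inL_TT j)).2 j', ← hf, hQ]
    change fZ (S.deg ((fun i => ((S.TT (S.c0 j) i : ℕ) : ℕ[X])) ᵥ* P) j') = _
    rw [← S.map_deg fZ]
    congr 1
    funext k
    simp only [Matrix.vecMul, dotProduct, map_sum, map_mul, map_natCast]
    refine Finset.sum_congr rfl fun l _ => ?_
    rw [hf, hPZ]
  have hPm : P.map fZ = PZ := Matrix.ext fun i j => hPZ i j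
  have hQm : Q.map fZ = QZ := Matrix.ext fun i j => hQZ i j
  have hst : Structured S P Q := by
    apply Structured.of_map fZ hfinj
    rw [hPm, hQm]
    exact h
  refine ⟨P, Q, hst, hPZ, hQZ, ?_, ?_⟩
  · intro i j
    have := hP0 i j
    rw [← hPZ i j, coeff_toZ] at this
    exact_mod_cast this
  · intro j j'
    have h1 := hst.map (Polynomial.constantCoeff (R := ℕ))
    have h2 := (h1 j _ (S.inL_TT j)).2 j'
    have h3 : P.map (Polynomial.constantCoeff (R := ℕ)) = 0 := by
      refine Matrix.ext fun i k => ?_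
      have := hP0 i k
      rw [← hPZ i k, coeff_toZ] at this
      exact_mod_cast this
    rw [h3, Matrix.vecMul_zero, S.deg_zero', Matrix.map_apply] at h2
    exact h2.symm

end gen

section ass

variable {K KN KB KH L : Type} [AddCommGroup K] [Module ℤ[X] K] [AddCommGroup KN]
  [Module ℤ[X] KN] [AddCommGroup KB] [Module ℤ[X] KB] [AddCommGroup KH] [Module ℤ[X] KH]
  [AddCommGroup L] [Module ℤ[X] L] {I J : Type} [Fintype I] [Fintype J]

/-- the integral structured matrix of `V` -/
theorem PT_structured (S : Str I J) (V R : Matrix I I ℤ[X]) (hV : V.BlockTriangular S.typ)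
    (hR : R.BlockTriangular S.typ) :
    Structured S (1 - S.CI ℤ[X] * (V * R) * S.CM ℤ[X])
      (of fun j j' => (1 - V * R) (S.jj j) (S.jj j')) := by
  have h1 : S.CM ℤ[X] * (1 - S.CI ℤ[X] * (V * R) * S.CM ℤ[X]) * S.CI ℤ[X] = 1 - V * R := by
    rw [Matrix.mul_sub, Matrix.sub_mul, Matrix.mul_one, S.CM_mul_CI, Matrix.mul_assoc (S.CI ℤ[X]),
      ← Matrix.mul_assoc, S.CM_mul_CI, Matrix.one_mul, Matrix.mul_assoc, S.CM_mul_CI,
      Matrix.mul_one]
  rw [structured_iff, h1]
  refine ⟨fun i i' hi => ?_, fun j j' => rfl⟩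
  rw [Matrix.sub_apply, (hV.mul hR) hi, sub_zero, Matrix.one_apply, if_neg]
  rintro rfl
  exact lt_irrefl _ hi

/-- the determinant over `J` -/
theorem QT_det (S : Str I J) (V R : Matrix I I ℤ[X]) (hV : V.BlockTriangular S.typ)
    (hR : R.BlockTriangular S.typ) (hV1 : (V.toSquareBlock S.typ 1).det = 1) {δ : ℤ[X]}
    (hR1 : (R.toSquareBlock S.typ 1).det = δ) :
    (1 - of fun j j' => (1 - V * R) (S.jj j) (S.jj j') : Matrix J J ℤ[X]).det = δ := by
  have h1 := toSquareBlock_mul hV hR 1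
  have h2 := congrArg Matrix.det h1
  rw [Matrix.det_mul, hV1, hR1, one_mul] at h2
  rw [← h2, ← Matrix.det_submatrix_equiv_self S.eJ]
  congr 1
  refine Matrix.ext fun i j => ?_
  rw [Matrix.submatrix_apply, Matrix.sub_apply, of_apply, Matrix.sub_apply, Matrix.one_apply,
    Matrix.one_apply]
  have h3 : S.jj (S.eJ i) = i.1 := (S.typ_eq_one i.2).symm
  have h4 : S.jj (S.eJ j) = j.1 := (S.typ_eq_one j.2).symm
  have h5 : (S.eJ i = S.eJ j) ↔ (S.jj (S.eJ i) = S.jj (S.eJ j)) :=
    ⟨fun h => by rw [h], fun h => S.jj_injective h⟩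
  by_cases h6 : S.eJ i = S.eJ j
  · rw [if_pos h6, if_pos (h5.1 h6), h3, h4]
    change 1 - (1 - (V * R) i.1 j.1) = (V * R) i.1 j.1
    ring
  · rw [if_neg h6, if_neg fun h => h6 (h5.2 h), h3, h4]
    change 0 - (0 - (V * R) i.1 j.1) = (V * R) i.1 j.1
    ring

end ass

end Pool.Agent.FTO
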