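import Pool.Agent.FTO.Defs

/-!
# FTO: strong shift equivalent matrices have edge shifts which factor onto each other
-/

set_option autoImplicit false

open scoped BigOperators
open Matrix Polynomial

namespace Pool.Agent.FTO

attribute [local instance] Classical.propDecidable

open Pool.Agent.SSE Pool.Agent.helper52.SSE

section fc

variable {α β γ : Type} [TopologicalSpace α] [TopologicalSpace β] [TopologicalSpace γ]

theorem FC.refl (X : Set (ℤ → α)) : FC X X :=
  ⟨id, continuous_id, Function.surjective_id, fun _ _ h i => h i⟩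

theorem FC.trans {X : Set (ℤ → α)} {Y : Set (ℤ → β)} {Z : Set (ℤ → γ)} (h : FC X Y)
    (h' : FC Y Z) : FC X Z := by
  obtain ⟨φ, h1, h2, h3⟩ := h
  obtain ⟨ψ, k1, k2, k3⟩ := h'
  exact ⟨ψ ∘ φ, k1.comp h1, k2.comp h2, fun x x' hx i => k3 (φ x) (φ x') (h3 x x' hx) i⟩

end fc

/-- edges of a matrix over a finite type -/
abbrev MEdge {V : Type} (A : Matrix V V ℕ) : Type := Σ p : V × V, Fin (A p.1 p.2)

/-- the edge shift of a matrix over a finite type -/
def mshift {V : Type} (A : Matrix V V ℕ) : Set (ℤ → MEdge A) :=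
  gshift (fun e => e.1.1) (fun e => e.1.2)

theorem mshift_fin {n : ℕ} (A : Matrix (Fin n) (Fin n) ℕ) : mshift A = FT.edgeShift A := rfl

/-- the code of an elementary strong shift equivalence -/
theorem fc_elem {V W ER ES E F : Type} [TopologicalSpace E] [DiscreteTopology E]
    [TopologicalSpace F] [DiscreteTopology F] (sR : ER → V) (tR : ER → W) (sS : ES → W)
    (tS : ES → V) (sE tE : E → V) (sF tF : F → W) (e : E ≃ {p : ER × ES // tR p.1 = sS p.2})
    (he1 : ∀ x, sE x = sR (e x).1.1) (he2 : ∀ x, tE x = tS (e x).1.2)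
    (f : F ≃ {p : ES × ER // tS p.1 = sR p.2}) (hf1 : ∀ x, sF x = sS (f x).1.1)
    (hf2 : ∀ x, tF x = tR (f x).1.2) : FC (gshift sE tE) (gshift sF tF) := by
  -- the local rule
  have key : ∀ p : {p : E × E // tE p.1 = sE p.2}, tS (e p.1.1).1.2 = sR (e p.1.2).1.1 := by
    intro p
    rw [← he2, ← he1]
    exact p.2
  let g : {p : E × E // tE p.1 = sE p.2} → F := fun p =>
    f.symm ⟨((e p.1.1).1.2, (e p.1.2).1.1), key p⟩
  have hg : Continuous g := continuous_of_discreteTopology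
  let φ : gshift sE tE → gshift sF tF := fun x =>
    ⟨fun n => g ⟨(x.1 n, x.1 (n + 1)), x.2 n⟩, by
      intro n
      show tF (g _) = sF (g _)
      rw [hf2, hf1]
      simp only [g, Equiv.apply_symm_apply]
      exact (e (x.1 (n + 1))).2⟩
  refine ⟨φ, ?_, ?_, ?_⟩
  · refine Continuous.subtype_mk ?_ _
    refine continuous_pi fun n => hg.comp ?_
    exact Continuous.subtype_mk (((continuous_apply n).comp continuous_subtype_val).prodMk
      ((continuous_apply (n + 1)).comp continuous_subtype_val)) _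
  · intro y
    let r : ℤ → ER := fun n => (f (y.1 n)).1.2
    let s : ℤ → ES := fun n => (f (y.1 n)).1.1
    have h1 : ∀ n, tR (r (n - 1)) = sS (s n) := by
      intro n
      have := y.2 (n - 1)
      rw [sub_add_cancel, hf1, hf2] at this
      exact this
    have h2 : ∀ n, tS (s n) = sR (r n) := fun n => (f (y.1 n)).2
    let x : ℤ → E := fun n => e.symm ⟨(r (n - 1), s n), h1 n⟩
    have hx : ∀ n, (e (x n)).1 = (r (n - 1), s n) := by
      intro n
      simp only [x, Equiv.apply_symm_apply]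
    have hxm : x ∈ gshift sE tE := by
      intro n
      rw [he1, he2, hx, hx]
      show tS (s n) = sR (r (n + 1 - 1))
      rw [add_sub_cancel_right]
      exact h2 n
    refine ⟨⟨x, hxm⟩, ?_⟩
    apply Subtype.ext
    funext n
    show f.symm _ = y.1 n
    rw [Equiv.symm_apply_eq]
    apply Subtype.ext
    show ((e (x n)).1.2, (e (x (n + 1))).1.1) = (f (y.1 n)).1
    rw [hx, hx]
    show (s n, r (n + 1 - 1)) = _
    rw [add_sub_cancel_right]
  · intro x x' h i
    show g _ = g _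
    congr 1
    apply Subtype.ext
    show (x'.1 i, x'.1 (i + 1)) = (x.1 (i + 1), x.1 (i + 1 + 1))
    rw [h, h]

/-- the edges of a product -/
noncomputable def edgeMul {V W : Type} [Fintype W] (R : Matrix V W ℕ) (S : Matrix W V ℕ) :
    MEdge (R * S) ≃ {p : (Σ p : V × W, Fin (R p.1 p.2)) × (Σ p : W × V, Fin (S p.1 p.2)) //
      p.1.1.2 = p.2.1.1} := by
  have h : ∀ i j, Fin ((R * S) i j) ≃ Σ k, Fin (R i k) × Fin (S k j) := by
    intro i j
    apply Fintype.equivOfCardEq
    rw [Fintype.card_fin, Matrix.mul_apply, Fintype.card_sigma]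
    exact Finset.sum_congr rfl fun k _ => by rw [Fintype.card_prod, Fintype.card_fin, Fintype.card_fin]
  exact
  { toFun := fun x => ⟨(⟨(x.1.1, (h _ _ x.2).1), (h _ _ x.2).2.1⟩,
      ⟨((h _ _ x.2).1, x.1.2), (h _ _ x.2).2.2⟩), rfl⟩
    invFun := fun p => ⟨(p.1.1.1.1, p.1.2.1.2), (h _ _).symm
      ⟨p.1.1.1.2, p.1.1.2, Fin.cast (by rw [p.2]) p.1.2.2⟩⟩
    left_inv := by
      rintro ⟨⟨i, j⟩, x⟩
      simp
    right_inv := by
      rintro ⟨⟨⟨⟨i, k⟩, r⟩, ⟨⟨k', j⟩, s⟩⟩, hk⟩
      have hk' : k = k' := hk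
      subst hk'
      have hz : h i j ((h i j).symm ⟨k, (r, s)⟩) = ⟨k, (r, s)⟩ := (h i j).apply_symm_apply _
      apply Subtype.ext
      show ((⟨(i, (h i j ((h i j).symm ⟨k, (r, s)⟩)).1),
        (h i j ((h i j).symm ⟨k, (r, s)⟩)).2.1⟩ : Σ p : V × W, Fin (R p.1 p.2)),
        (⟨((h i j ((h i j).symm ⟨k, (r, s)⟩)).1, j),
        (h i j ((h i j).symm ⟨k, (r, s)⟩)).2.2⟩ : Σ p : W × V, Fin (S p.1 p.2))) = _
      rw [hz] }

theorem edgeMul_src {V W : Type} [Fintype W] (R : Matrix V W ℕ) (S : Matrix W V ℕ)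
    (x : MEdge (R * S)) : x.1.1 = (edgeMul R S x).1.1.1.1 := rfl

theorem edgeMul_tgt {V W : Type} [Fintype W] (R : Matrix V W ℕ) (S : Matrix W V ℕ)
    (x : MEdge (R * S)) : x.1.2 = (edgeMul R S x).1.2.1.2 := rfl

theorem fc_mul {V W : Type} [Fintype V] [Fintype W] (R : Matrix V W ℕ) (S : Matrix W V ℕ) :
    FC (mshift (R * S)) (mshift (S * R)) :=
  fc_elem (fun r : (Σ p : V × W, Fin (R p.1 p.2)) => r.1.1) (fun r => r.1.2)
    (fun s : (Σ p : W × V, Fin (S p.1 p.2)) => s.1.1) (fun s => s.1.2) _ _ _ _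
    (edgeMul R S) (edgeMul_src R S) (edgeMul_tgt R S)
    (edgeMul S R) (edgeMul_src S R) (edgeMul_tgt S R)

theorem fc_of_sse {X Y : NM} (h : SSE X Y) :
    FC (FT.edgeShift X.2) (FT.edgeShift Y.2) ∧ FC (FT.edgeShift Y.2) (FT.edgeShift X.2) := by
  induction h with
  | rel X Y h =>
    obtain ⟨R, S, h1, h2⟩ := h
    rw [h1, h2]
    exact ⟨fc_mul R S, fc_mul S R⟩
  | refl X => exact ⟨FC.refl _, FC.refl _⟩
  | symm X Y _ ih => exact ⟨ih.2, ih.1⟩
  | trans X Y Z _ _ ih1 ih2 => exact ⟨ih1.1.trans ih2.1, ih2.2.trans ih1.2⟩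

theorem fc_toNM {V : Type} [Fintype V] (A : Matrix V V ℕ) :
    FC (mshift A) (mshift (toNM A).2) ∧ FC (mshift (toNM A).2) (mshift A) := by
  have h1 : A.submatrix id (Fintype.equivFin V).symm *
      (1 : Matrix V V ℕ).submatrix (Fintype.equivFin V).symm id = A := by
    have := Matrix.submatrix_mul_equiv A (1 : Matrix V V ℕ) id (Fintype.equivFin V).symm id
    rw [Matrix.mul_one] at this
    exact this
  have h2 : (1 : Matrix V V ℕ).submatrix (Fintype.equivFin V).symm id *
      A.submatrix id (Fintype.equivFin V).symm =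
      A.submatrix (Fintype.equivFin V).symm (Fintype.equivFin V).symm := by
    have := Matrix.submatrix_mul_equiv (1 : Matrix V V ℕ) A (Fintype.equivFin V).symm
      (Equiv.refl _) (Fintype.equivFin V).symm
    rw [Matrix.one_mul] at this
    exact this
  have h3 := fc_mul (A.submatrix id (Fintype.equivFin V).symm)
    ((1 : Matrix V V ℕ).submatrix (Fintype.equivFin V).symm id)
  have h4 := fc_mul ((1 : Matrix V V ℕ).submatrix (Fintype.equivFin V).symm id)
    (A.submatrix id (Fintype.equivFin V).symm)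
  rw [h1, h2] at h3
  rw [h1, h2] at h4
  exact ⟨h3, h4⟩

/-- equivalent matrices: the edge shifts factor onto each other -/
theorem fc_of_eqv {V W : Type} [Fintype V] [Fintype W] {A : Matrix V V ℕ} {B : Matrix W W ℕ}
    (h : Eqv A B) : FC (mshift A) (mshift B) ∧ FC (mshift B) (mshift A) :=
  ⟨((fc_toNM A).1.trans (fc_of_sse h).1).trans (fc_toNM B).2,
    ((fc_toNM B).1.trans (fc_of_sse h).2).trans (fc_toNM A).2⟩

end Pool.Agent.FTO
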