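import Pool.Agent.FTO.G1

/-!
# FTO: a structured pair of graphs gives a factor code
-/

set_option autoImplicit false

open scoped BigOperators
open Matrix Polynomial

namespace Pool.Agent.FTO

attribute [local instance] Classical.propDecidable

variable {V W : Type} [Fintype V] [Fintype W]

/-- pushing vectors forward along a walk gives paths -/
theorem exists_path {Fe : Type} (s t : Fe → W) (Lf : Fe → Matrix V V ℕ)
    (LL : W → (V → ℕ) → Prop) (hne : ∀ w, ∃ l, LL w l)
    (hstep : ∀ e l, LL (s e) l → LL (t e) (l ᵥ* Lf e)) (y : ℤ → Fe) (hy : ∀ i, t (y i) = s (y (i + 1)))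
    (a : ℤ) (n : ℕ) :
    ∃ l, LL (s (y (a + n))) l ∧ ∀ u, l u ≠ 0 →
      ∃ v : ℕ → V, v n = u ∧ ∀ k, k < n → Lf (y (a + k)) (v k) (v (k + 1)) ≠ 0 := by
  induction n with
  | zero =>
    obtain ⟨l, hl⟩ := hne (s (y (a + (0 : ℕ))))
    exact ⟨l, hl, fun u _ => ⟨fun _ => u, rfl, fun k hk => absurd hk (Nat.not_lt_zero k)⟩⟩
  | succ n ih =>
    obtain ⟨l, hl, hp⟩ := ih
    refine ⟨l ᵥ* Lf (y (a + n)), ?_, ?_⟩
    · have h := hstep (y (a + n)) l hl
      rw [hy] at h
      rw [Nat.cast_succ, ← add_assoc]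
      exact h
    · intro u hu
      rw [Matrix.vecMul, dotProduct] at hu
      obtain ⟨u', _, hu'⟩ := Finset.exists_ne_zero_of_sum_ne_zero hu
      obtain ⟨v, hv, hvk⟩ := hp u' (left_ne_zero_of_mul hu')
      refine ⟨fun k => if k ≤ n then v k else u, ?_, ?_⟩
      · show (if n + 1 ≤ n then v (n + 1) else u) = u
        rw [if_neg (by omega)]
      · intro k hk
        show Lf (y (a + k)) (if k ≤ n then v k else u) (if k + 1 ≤ n then v (k + 1) else u) ≠ 0
        rcases Nat.lt_or_ge k n with h | h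
        · rw [if_pos h.le, if_pos (by omega : k + 1 ≤ n)]
          exact hvk k h
        · have hkn : k = n := by omega
          subst hkn
          rw [if_pos le_rfl, if_neg (by omega), hv]
          exact right_ne_zero_of_mul hu'

/-- The graph of `E` over the graph of `F`: the transitions over an edge of `F` are given by a
matrix, and families of nonzero vectors are pushed forward by these matrices. -/
theorem fc_of_families (E : Matrix V V ℕ) (F : Matrix W W ℕ) (pr : V → W)
    (L : MEdge F → Matrix V V ℕ)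
    (hsupp : ∀ e v v', L e v v' ≠ 0 → pr v = e.1.1 ∧ pr v' = e.1.2)
    (hsum : ∀ v v', E v v' = ∑ k : Fin (F (pr v) (pr v')), L ⟨(pr v, pr v'), k⟩ v v')
    (LL : W → (V → ℕ) → Prop) (hne : ∀ w, ∃ l, LL w l) (hnz : ∀ w l, LL w l → l ≠ 0)
    (hstep : ∀ e l, LL e.1.1 l → LL e.1.2 (l ᵥ* L e)) :
    FC (mshift E) (mshift F) := by
  -- labels of edges
  have hc : ∀ v v', Fin (E v v') ≃ Σ k : Fin (F (pr v) (pr v')), Fin (L ⟨(pr v, pr v'), k⟩ v v') := by
    intro v v'
    apply Fintype.equivOfCardEq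
    rw [Fintype.card_fin, hsum, Fintype.card_sigma]
    exact Finset.sum_congr rfl fun k _ => by rw [Fintype.card_fin]
  let lab : MEdge E → MEdge F := fun x => ⟨(pr x.1.1, pr x.1.2), (hc _ _ x.2).1⟩
  have hlab : ∀ (e : MEdge F) v v', L e v v' ≠ 0 → ∃ x : MEdge E, x.1 = (v, v') ∧ lab x = e := by
    rintro ⟨⟨w, w'⟩, k⟩ v v' h
    obtain ⟨h1, h2⟩ := hsupp _ _ _ h
    have h1' : pr v = w := h1
    have h2' : pr v' = w' := h2
    subst h1' h2'
    refine ⟨⟨(v, v'), (hc v v').symm ⟨k, ⟨0, Nat.pos_of_ne_zero h⟩⟩⟩, rfl, ?_⟩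
    simp only [lab, Equiv.apply_symm_apply]
  let φ : mshift E → mshift F := fun x => ⟨fun n => lab (x.1 n), by
    intro n
    have h := x.2 n
    show pr (x.1 n).1.2 = pr (x.1 (n + 1)).1.1
    exact congrArg pr h⟩
  refine ⟨φ, ?_, ?_, ?_⟩
  · refine Continuous.subtype_mk ?_ _
    exact continuous_pi fun n => (continuous_of_discreteTopology (f := lab)).comp
      ((continuous_apply n).comp continuous_subtype_val)
  · rintro ⟨y, hy⟩
    have hy' : ∀ i, (y i).1.2 = (y (i + 1)).1.1 := hy
    let D : ℕ → Set (ℤ → MEdge E) := fun N => {x | ∀ i : ℤ, -(N : ℤ) ≤ i → i < N →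
      lab (x i) = y i ∧ (i + 1 < N → (x i).1.2 = (x (i + 1)).1.1)}
    have hD1 : ∀ N, D (N + 1) ⊆ D N := by
      intro N x hx i h1 h2
      have := hx i (by push_cast; omega) (by push_cast; omega)
      exact ⟨this.1, fun h => this.2 (by push_cast; omega)⟩
    have hD2 : ∀ N, (D (N + 1)).Nonempty := by
      intro N
      obtain ⟨l, hl, hp⟩ := exists_path (fun e : MEdge F => e.1.1) (fun e => e.1.2) L LL hne
        hstep y hy' (-((N : ℤ) + 1)) (2 * (N + 1))
      obtain ⟨u, hu⟩ := Function.ne_iff.1 (hnz _ _ hl)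
      obtain ⟨v, -, hv⟩ := hp u hu
      have hex : ∀ k : ℕ, ∃ x : MEdge E, k < 2 * (N + 1) → x.1 = (v k, v (k + 1)) ∧
          lab x = y (-((N : ℤ) + 1) + k) := by
        intro k
        rcases Nat.lt_or_ge k (2 * (N + 1)) with h | h
        · obtain ⟨x, h1, h2⟩ := hlab _ _ _ (hv k h)
          exact ⟨x, fun _ => ⟨h1, h2⟩⟩
        · obtain ⟨x, h1, h2⟩ := hlab _ _ _ (hv 0 (by omega))
          exact ⟨x, fun h' => by omega⟩
      choose x hx using hex
      refine ⟨fun i => x (i + (N + 1)).toNat, ?_⟩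
      intro i h1 h2
      push_cast at h1 h2
      have h3 := hx (i + (N + 1)).toNat (by omega)
      have h4 : (((i + (N + 1)).toNat : ℕ) : ℤ) = i + (N + 1) := Int.toNat_of_nonneg (by omega)
      refine ⟨?_, ?_⟩
      · rw [h3.2, h4]
        congr 1
        ring
      · intro h5
        push_cast at h5
        have h6 : (i + 1 + (N + 1)).toNat = (i + (N + 1)).toNat + 1 := by omega
        have h7 := hx ((i + (N + 1)).toNat + 1) (by omega)
        show (x (i + (N + 1)).toNat).1.2 = (x (i + 1 + (N + 1)).toNat).1.1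
        rw [h6, h7.1, h3.1]
    have hcl : ∀ N, IsClosed (D N) := by
      intro N
      have : D N = ⋂ i : ℤ, {x : ℤ → MEdge E | -(N : ℤ) ≤ i → i < N →
          lab (x i) = y i ∧ (i + 1 < N → (x i).1.2 = (x (i + 1)).1.1)} := by
        ext x
        rw [Set.mem_iInter]
        rfl
      rw [this]
      refine isClosed_iInter fun i => ?_
      have hc1 : Continuous fun x : ℤ → MEdge E => (x i, x (i + 1)) :=
        (continuous_apply i).prodMk (continuous_apply (i + 1))
      have hc2 : IsClosed {p : MEdge E × MEdge E | -(N : ℤ) ≤ i → i < N →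
          lab p.1 = y i ∧ (i + 1 < N → p.1.1.2 = p.2.1.1)} := isClosed_discrete _
      exact hc2.preimage hc1
    have hcpt : IsCompact (D 1) := (hcl 1).isCompact
    obtain ⟨x, hx⟩ := IsCompact.nonempty_iInter_of_sequence_nonempty_isCompact_isClosed
      (fun N => D (N + 1)) (fun N => hD1 (N + 1)) hD2 hcpt (fun N => hcl (N + 1))
    rw [Set.mem_iInter] at hx
    have hx' : ∀ i : ℤ, lab (x i) = y i ∧ (x i).1.2 = (x (i + 1)).1.1 := by
      intro i
      have h := hx (i.natAbs + 1) i (by omega) (by omega)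
      exact ⟨h.1, h.2 (by omega)⟩
    refine ⟨⟨x, fun i => (hx' i).2⟩, ?_⟩
    apply Subtype.ext
    funext i
    exact (hx' i).1
  · intro x x' h i
    show lab (x'.1 i) = lab (x.1 (i + 1))
    rw [h]

end Pool.Agent.FTO
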