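import Pool.Agent.FTO.Defs

/-!
# FTO: the decomposition lemma

`M` is a nonnegative integral matrix from the fibre over `j` to the fibre over `j'` that maps each
transversal over `j` to an element of `MM` of degree `q`. Then `M` is a sum of `q` matrices which
map transversals over `j` to transversals over `j'`.
-/

set_option autoImplicit false
set_option linter.unusedSectionVars false

open scoped BigOperators
open Matrix

namespace Pool.Agent.FTO

attribute [local instance] Classical.propDecidable

variable {I J : Type} [Fintype I] [Fintype J]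

section aux

variable (S : Str I J)

theorem bs_vecMul' (v : I → ℕ) (L : Matrix I I ℕ) (b : S.Bl) :
    S.bs (v ᵥ* L) b = ∑ f, v f * S.bs (L f) b := by
  unfold Str.bs
  simp only [Matrix.vecMul, dotProduct, Finset.mul_sum]
  rw [Finset.sum_comm]
  refine Finset.sum_congr rfl fun i _ => ?_
  split_ifs
  · rfl
  · simp

/-- the base transversal with one element exchanged -/
theorem exists_TX (f : I) : ∃ r : I → ℕ, S.Tr (S.cmp (S.blk f)) (fun k => (if k = f then 1 else 0) + r k) ∧
    ∀ f', S.blk f' = S.blk f →
      S.Tr (S.cmp (S.blk f)) (fun k => (if k = f' then 1 else 0) + r k) := by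
  have key : ∀ f', S.blk f' = S.blk f → S.Tr (S.cmp (S.blk f)) (fun k => (if k = f' then 1 else 0) +
      if k = S.base (S.blk k) ∧ S.cmp (S.blk k) = S.cmp (S.blk f) ∧ S.blk k ≠ S.blk f
        then 1 else 0) := by
    intro f' hf'
    constructor
    · intro b hb
      unfold Str.bs
      by_cases hbf : b = S.blk f
      · rw [Finset.sum_eq_single f']
        · rw [if_pos (hf'.trans hbf.symm)]
          beta_reduce
          rw [if_pos rfl, if_neg]
          rintro ⟨-, -, h⟩
          exact h hf'
        · intro k _ hk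
          by_cases hkb : S.blk k = b
          · rw [if_pos hkb]
            beta_reduce
            have h0 : ¬(k = S.base (S.blk k) ∧ S.cmp (S.blk k) = S.cmp (S.blk f) ∧
                S.blk k ≠ S.blk f) := fun h => h.2.2 (hkb.trans hbf)
            rw [if_neg hk, if_neg h0, add_zero]
          · rw [if_neg hkb]
        · intro h
          exact absurd (Finset.mem_univ _) h
      · have hbb : S.blk (S.base b) = b := Function.surjInv_eq S.sB b
        rw [Finset.sum_eq_single (S.base b)]
        · rw [if_pos hbb]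
          beta_reduce
          rw [if_neg, if_pos]
          · rw [hbb]
            exact ⟨rfl, hb, hbf⟩
          · intro h
            rw [← hbb, h] at hbf
            exact hbf hf'
        · intro k _ hk
          by_cases hkb : S.blk k = b
          · rw [if_pos hkb]
            beta_reduce
            have h0 : ¬(k = S.base (S.blk k) ∧ S.cmp (S.blk k) = S.cmp (S.blk f) ∧
                S.blk k ≠ S.blk f) := by
              rintro ⟨h, -, -⟩
              rw [hkb] at h
              exact hk h
            have h1 : k ≠ f' := by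
              intro h
              rw [← hkb, h] at hbf
              exact hbf hf'
            rw [if_neg h1, if_neg h0, add_zero]
          · rw [if_neg hkb]
        · intro h
          exact absurd (Finset.mem_univ _) h
    · intro k hk
      beta_reduce
      rw [if_neg, if_neg]
      · rintro ⟨-, h, -⟩
        exact hk h
      · rintro rfl
        rw [hf'] at hk
        exact hk rfl
  exact ⟨_, key f rfl, key⟩

theorem exists_TX' (f : I) : ∃ v : I → ℕ, S.Tr (S.cmp (S.blk f)) v ∧ v f ≠ 0 := by
  obtain ⟨r, h, -⟩ := exists_TX S f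
  exact ⟨_, h, by simp⟩

theorem tr_unique {a : S.Co} {v : I → ℕ} (h : S.Tr a v) {b : S.Bl} (hb : S.cmp b = a) :
    ∃ f, S.blk f = b ∧ v f = 1 ∧ ∀ f', S.blk f' = b → f' ≠ f → v f' = 0 := by
  have h1 := h.1 b hb
  unfold Str.bs at h1
  have h2 : ∃ f ∈ Finset.univ, (if S.blk f = b then v f else 0) ≠ 0 := by
    apply Finset.exists_ne_zero_of_sum_ne_zero
    rw [h1]
    exact one_ne_zero
  obtain ⟨f, -, hf⟩ := h2
  have hfb : S.blk f = b := by
    by_contra hn
    exact hf (if_neg hn)
  rw [if_pos hfb] at hf
  have h3 := Finset.add_sum_erase Finset.univ (fun i => if S.blk i = b then v i else 0)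
    (Finset.mem_univ f)
  rw [h1] at h3
  have h4 : (if S.blk f = b then v f else 0) = v f := if_pos hfb
  simp only [h4] at h3
  refine ⟨f, hfb, by omega, ?_⟩
  intro f' hf' hne
  have h5 : ∑ x ∈ Finset.univ.erase f, (if S.blk x = b then v x else 0) = 0 := by omega
  have h6 := Finset.sum_eq_zero_iff.1 h5 f' (Finset.mem_erase.2 ⟨hne, Finset.mem_univ _⟩)
  rwa [if_pos hf'] at h6

theorem bs_pos {v : I → ℕ} {b : S.Bl} (h : 0 < S.bs v b) : ∃ i, S.blk i = b ∧ 0 < v i := by
  obtain ⟨i, -, hi⟩ := Finset.exists_ne_zero_of_sum_ne_zero h.ne'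
  have hib : S.blk i = b := by
    by_contra hn
    exact hi (if_neg hn)
  rw [if_pos hib] at hi
  exact ⟨i, hib, Nat.pos_of_ne_zero hi⟩

end aux

/-- one component -/
theorem exists_comp (S : Str I J) (j j' : J) (M : Matrix I I ℕ) (q : ℕ)
    (hM : ∀ v, S.InL j v → S.InM (v ᵥ* M) ∧ S.deg (v ᵥ* M) j' = q + 1) (a : S.Co)
    (ha : S.fib a = j) :
    ∃ L : Matrix I I ℕ, (∀ f i, L f i ≤ M f i) ∧ ∀ v, S.Tr a v → S.InL j' (v ᵥ* L) := by
  by_cases hcase : ∃ b, S.cmp b = a ∧ ∀ f, S.blk f = b → ∃ a', S.fib a' = j' ∧
      ∀ b', S.cmp b' = a' → 0 < S.bs (M f) b'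
  · -- case 1
    obtain ⟨b, hb, hf⟩ := hcase
    have hg : ∀ f, ∃ (a' : S.Co) (g : S.Bl → I), S.blk f = b → S.fib a' = j' ∧
        ∀ b', S.cmp b' = a' → S.blk (g b') = b' ∧ 0 < M f (g b') := by
      intro f
      by_cases hfb : S.blk f = b
      · obtain ⟨a', h1, h2⟩ := hf f hfb
        have h3 : ∀ b', ∃ i, S.cmp b' = a' → S.blk i = b' ∧ 0 < M f i := by
          intro b'
          by_cases hb' : S.cmp b' = a'
          · obtain ⟨i, hi1, hi2⟩ := bs_pos S (h2 b' hb')
            exact ⟨i, fun _ => ⟨hi1, hi2⟩⟩
          · exact ⟨f, fun h => absurd h hb'⟩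
        choose g hg using h3
        exact ⟨a', g, fun _ => ⟨h1, hg⟩⟩
      · exact ⟨a, fun _ => f, fun h => absurd h hfb⟩
    choose a' g hg using hg
    refine ⟨fun f i => if S.blk f = b ∧ S.cmp (S.blk i) = a' f ∧ i = g f (S.blk i) then 1 else 0,
      ?_, ?_⟩
    · intro f i
      show (if _ then 1 else 0) ≤ _
      split_ifs with h
      · obtain ⟨h1, h2, h3⟩ := h
        have := ((hg f h1).2 _ h2).2
        rw [← h3] at this
        exact this
      · exact Nat.zero_le _
    · intro v hv
      obtain ⟨f, hfb, hvf, hvf'⟩ := tr_unique S hv hb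
      have hsum : ∀ i, (v ᵥ* (fun f i => if S.blk f = b ∧ S.cmp (S.blk i) = a' f ∧
          i = g f (S.blk i) then 1 else 0 : Matrix I I ℕ)) i =
          if S.cmp (S.blk i) = a' f ∧ i = g f (S.blk i) then 1 else 0 := by
        intro i
        simp only [Matrix.vecMul, dotProduct]
        rw [Finset.sum_eq_single f]
        · rw [hvf, one_mul]
          simp only [hfb, true_and]
        · intro f' _ hne
          by_cases h : S.blk f' = b
          · rw [hvf' f' h hne, zero_mul]
          · rw [if_neg (fun h' => h h'.1), mul_zero]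
        · intro h
          exact absurd (Finset.mem_univ _) h
      refine ⟨a' f, (hg f hfb).1, ?_, ?_⟩
      · intro b' hb'
        unfold Str.bs
        rw [Finset.sum_eq_single (g f b')]
        · have h1 := ((hg f hfb).2 b' hb').1
          rw [if_pos h1, hsum, h1, if_pos ⟨hb', rfl⟩]
        · intro i _ hi
          by_cases h : S.blk i = b'
          · rw [if_pos h, hsum, if_neg]
            rintro ⟨-, h'⟩
            rw [h] at h'
            exact hi h'
          · rw [if_neg h]
        · intro h
          exact absurd (Finset.mem_univ _) h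
      · intro i hi
        rw [hsum, if_neg (fun h => hi h.1)]
  · -- case 2
    push Not at hcase
    have hlin : ∀ f, S.cmp (S.blk f) = a → ∃ r : I → ℕ, ∀ f', S.blk f' = S.blk f →
        S.InL j (fun k => (if k = f' then 1 else 0) + r k) := by
      intro f hf
      obtain ⟨r, -, h⟩ := exists_TX S f
      exact ⟨r, fun f' hf' => ⟨_, by rw [hf, ha], h f' hf'⟩⟩
    have hbs : ∀ (f' : I) (r : I → ℕ) (b' : S.Bl),
        S.bs ((fun k => (if k = f' then 1 else 0) + r k) ᵥ* M) b' =
          S.bs (M f') b' + S.bs (r ᵥ* M) b' := by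
      intro f' r b'
      rw [bs_vecMul', bs_vecMul']
      simp only [add_mul, Finset.sum_add_distrib, ite_mul, one_mul, zero_mul]
      rw [Finset.sum_ite_eq' Finset.univ, if_pos (Finset.mem_univ _)]
    have F1 : ∀ f f1, S.cmp (S.blk f) = a → S.blk f1 = S.blk f → ∀ b' b'',
        S.cmp b' = S.cmp b'' →
        S.bs (M f) b' + S.bs (M f1) b'' = S.bs (M f1) b' + S.bs (M f) b'' := by
      intro f f1 hf h1 b' b'' hb
      obtain ⟨r, hr⟩ := hlin f hf
      have h2 := (hM _ (hr f rfl)).1 b' b'' hb
      have h3 := (hM _ (hr f1 h1)).1 b' b'' hb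
      rw [hbs, hbs] at h2 h3
      omega
    have F2 : ∀ f f1, S.cmp (S.blk f) = a → S.blk f1 = S.blk f →
        ∑ a', (if S.fib a' = j' then S.bs (M f) (S.rep a') else 0) =
          ∑ a', (if S.fib a' = j' then S.bs (M f1) (S.rep a') else 0) := by
      intro f f1 hf h1
      obtain ⟨r, hr⟩ := hlin f hf
      have h2 := (hM _ (hr f rfl)).2
      have h3 := (hM _ (hr f1 h1)).2
      have h4 : ∀ f', S.deg ((fun k => (if k = f' then 1 else 0) + r k) ᵥ* M) j' =
          ∑ a', (if S.fib a' = j' then S.bs (M f') (S.rep a') else 0) + S.deg (r ᵥ* M) j' := by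
        intro f'
        unfold Str.deg
        rw [← Finset.sum_add_distrib]
        refine Finset.sum_congr rfl fun a' _ => ?_
        rw [hbs]
        split_ifs <;> simp
      rw [h4] at h2 h3
      omega
    have F5 : ∀ f f1, S.cmp (S.blk f) = a → S.blk f1 = S.blk f → ∀ b', S.fib (S.cmp b') = j' →
        S.bs (M f) b' = S.bs (M f1) b' := by
      intro f f1 hf h1
      obtain ⟨f0, hf0, hz⟩ := hcase (S.blk f) hf
      have key : ∀ f2, S.blk f2 = S.blk f → ∀ b', S.fib (S.cmp b') = j' →
          S.bs (M f2) b' = S.bs (M f0) b' := by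
        intro f2 hf2 b' hb'
        have hle : ∀ a', S.fib a' = j' → ∃ b'', S.cmp b'' = a' ∧ S.bs (M f0) b'' = 0 ∧
            ∀ b', S.cmp b' = a' → S.bs (M f2) b' = S.bs (M f0) b' + S.bs (M f2) b'' := by
          intro a' ha'
          obtain ⟨b'', hb1, hb2⟩ := hz a' ha'
          have hb3 : S.bs (M f0) b'' = 0 := by omega
          refine ⟨b'', hb1, hb3, ?_⟩
          intro b' hb'
          have := F1 f2 f0 (by rw [hf2, hf]) (by rw [hf0, hf2]) b' b'' (by rw [hb', hb1])
          omega
        have hsum := F2 f2 f0 (by rw [hf2, hf]) (by rw [hf0, hf2])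
        have hpt : ∀ a', (if S.fib a' = j' then S.bs (M f0) (S.rep a') else 0) =
            (if S.fib a' = j' then S.bs (M f2) (S.rep a') else 0) := by
          have h5 : ∀ a' ∈ Finset.univ, (if S.fib a' = j' then S.bs (M f0) (S.rep a') else 0) ≤
              (if S.fib a' = j' then S.bs (M f2) (S.rep a') else 0) := by
            intro a' _
            by_cases ha' : S.fib a' = j'
            · rw [if_pos ha', if_pos ha']
              obtain ⟨b'', -, -, h6⟩ := hle a' ha'
              rw [h6 (S.rep a') (Function.surjInv_eq S.sC a')]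
              exact Nat.le_add_right _ _
            · rw [if_neg ha', if_neg ha']
          intro a'
          exact (Finset.sum_eq_sum_iff_of_le h5).1 hsum.symm a' (Finset.mem_univ _)
        obtain ⟨b'', -, -, h6⟩ := hle (S.cmp b') hb'
        have h7 := hpt (S.cmp b')
        rw [if_pos hb', if_pos hb', h6 (S.rep (S.cmp b')) (Function.surjInv_eq S.sC _)] at h7
        have h8 := h6 b' rfl
        omega
      intro b' hb'
      rw [key f rfl b' hb', key f1 h1 b' hb']
    -- a component with positive degree
    obtain ⟨f0, hf0⟩ := S.sB (S.rep a)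
    obtain ⟨v0, hv0, -⟩ := exists_TX' S f0
    have hcf0 : S.cmp (S.blk f0) = a := by
      rw [hf0]
      exact Function.surjInv_eq S.sC a
    rw [hcf0] at hv0
    obtain ⟨hv1, hv2⟩ := hM v0 ⟨a, ha, hv0⟩
    have h9 : S.deg (v0 ᵥ* M) j' ≠ 0 := by omega
    obtain ⟨a', -, ha'⟩ := Finset.exists_ne_zero_of_sum_ne_zero h9
    have hfa' : S.fib a' = j' := by
      by_contra hn
      exact ha' (if_neg hn)
    rw [if_pos hfa'] at ha'
    have hbeta : ∀ b', ∃ b, S.cmp b' = a' → S.cmp b = a ∧ ∀ f, S.blk f = b →
        0 < S.bs (M f) b' := by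
      intro b'
      by_cases hb' : S.cmp b' = a'
      · have h10 : S.bs (v0 ᵥ* M) b' ≠ 0 := by
          rw [hv1 b' (S.rep a') (hb'.trans (Function.surjInv_eq S.sC a').symm)]
          exact ha'
        rw [bs_vecMul'] at h10
        obtain ⟨f, -, hf⟩ := Finset.exists_ne_zero_of_sum_ne_zero h10
        have hfa : S.cmp (S.blk f) = a := by
          by_contra hn
          exact left_ne_zero_of_mul hf (hv0.2 f hn)
        refine ⟨S.blk f, fun _ => ⟨hfa, ?_⟩⟩
        intro f1 hf1
        rw [← F5 f f1 hfa hf1 b' (by rw [hb', hfa'])]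
        exact Nat.pos_of_ne_zero (right_ne_zero_of_mul hf)
      · exact ⟨S.rep a, fun h => absurd h hb'⟩
    choose β hβ using hbeta
    have hg : ∀ b' f, ∃ i, S.cmp b' = a' → S.blk f = β b' → S.blk i = b' ∧ 0 < M f i := by
      intro b' f
      by_cases hb' : S.cmp b' = a'
      · by_cases hf : S.blk f = β b'
        · obtain ⟨i, hi1, hi2⟩ := bs_pos S ((hβ b' hb').2 f hf)
          exact ⟨i, fun _ _ => ⟨hi1, hi2⟩⟩
        · exact ⟨f, fun _ h => absurd h hf⟩
      · exact ⟨f, fun h => absurd h hb'⟩
    choose g hg using hg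
    refine ⟨fun f i => if S.cmp (S.blk i) = a' ∧ S.blk f = β (S.blk i) ∧ i = g (S.blk i) f
      then 1 else 0, ?_, ?_⟩
    · intro f i
      show (if _ then 1 else 0) ≤ _
      split_ifs with h
      · obtain ⟨h1, h2, h3⟩ := h
        have := (hg (S.blk i) f h1 h2).2
        rw [← h3] at this
        exact this
      · exact Nat.zero_le _
    · intro v hv
      refine ⟨a', hfa', ?_, ?_⟩
      · intro b' hb'
        refine Eq.trans ?_ (hv.1 (β b') (hβ b' hb').1)
        rw [bs_vecMul']
        unfold Str.bs
        refine Finset.sum_congr rfl fun f _ => ?_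
        by_cases hf : S.blk f = β b'
        · rw [if_pos hf, Finset.sum_eq_single (g b' f)]
          · have h1 := (hg b' f hb' hf).1
            rw [if_pos h1]
            beta_reduce
            rw [h1, if_pos ⟨hb', hf, rfl⟩, mul_one]
          · intro i _ hi
            by_cases h : S.blk i = b'
            · rw [if_pos h]
              beta_reduce
              rw [if_neg]
              rintro ⟨-, -, h'⟩
              rw [h] at h'
              exact hi h'
            · rw [if_neg h]
          · intro h
            exact absurd (Finset.mem_univ _) h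
        · rw [if_neg hf, Finset.sum_eq_zero, mul_zero]
          intro i _
          by_cases h : S.blk i = b'
          · rw [if_pos h]
            beta_reduce
            rw [if_neg]
            rintro ⟨-, h', -⟩
            rw [h] at h'
            exact hf h'
          · rw [if_neg h]
      · intro i hi
        simp only [Matrix.vecMul, dotProduct]
        refine Finset.sum_eq_zero fun f _ => ?_
        rw [if_neg (fun h => hi h.1), mul_zero]

/-- one compatible matrix below `M` -/
theorem exists_compat (S : Str I J) (j j' : J) (M : Matrix I I ℕ)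
    (q : ℕ)
    (hM : ∀ v, S.InL j v → S.InM (v ᵥ* M) ∧ S.deg (v ᵥ* M) j' = q + 1) :
    ∃ L : Matrix I I ℕ, (∀ i i', L i i' ≤ M i i') ∧ ∀ v, S.InL j v → S.InL j' (v ᵥ* L) := by
  have h : ∀ a, ∃ L : Matrix I I ℕ, S.fib a = j → (∀ f i, L f i ≤ M f i) ∧
      ∀ v, S.Tr a v → S.InL j' (v ᵥ* L) := by
    intro a
    by_cases ha : S.fib a = j
    · obtain ⟨L, hL⟩ := exists_comp S j j' M q hM a ha
      exact ⟨L, fun _ => hL⟩
    · exact ⟨0, fun h => absurd h ha⟩
  choose L hL using h
  refine ⟨fun f i => if S.fib (S.cmp (S.blk f)) = j then L (S.cmp (S.blk f)) f i else 0, ?_, ?_⟩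
  · intro f i
    show (if _ then _ else 0) ≤ _
    split_ifs with hf
    · exact (hL _ hf).1 f i
    · exact Nat.zero_le _
  · rintro v ⟨a, ha, hv⟩
    have h1 : v ᵥ* (fun f i => if S.fib (S.cmp (S.blk f)) = j then L (S.cmp (S.blk f)) f i
        else 0 : Matrix I I ℕ) = v ᵥ* L a := by
      funext i
      simp only [Matrix.vecMul, dotProduct]
      refine Finset.sum_congr rfl fun f _ => ?_
      by_cases hf : S.cmp (S.blk f) = a
      · rw [hf, if_pos ha]
      · rw [hv.2 f hf, zero_mul, zero_mul]
    rw [h1]
    exact (hL a ha).2 v hv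

theorem exists_decomp (S : Str I J) (j j' : J) (M : Matrix I I ℕ)
    (hsupp : ∀ i i', M i i' ≠ 0 → S.pr i = j ∧ S.pr i' = j') (q : ℕ)
    (hM : ∀ v, S.InL j v → S.InM (v ᵥ* M) ∧ S.deg (v ᵥ* M) j' = q) :
    ∃ L : Fin q → Matrix I I ℕ, M = ∑ k, L k ∧
      (∀ k i i', L k i i' ≠ 0 → S.pr i = j ∧ S.pr i' = j') ∧
      ∀ k v, S.InL j v → S.InL j' (v ᵥ* L k) := by
  induction q generalizing M with
  | zero =>
    refine ⟨fun _ => 0, ?_, fun k => k.elim0, fun k => k.elim0⟩
    rw [Finset.univ_eq_empty, Finset.sum_empty]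
    ext f i
    rw [Matrix.zero_apply]
    by_contra hne
    obtain ⟨hf, hi⟩ := hsupp f i hne
    obtain ⟨v, hv, hvf⟩ := exists_TX' S f
    obtain ⟨h1, h2⟩ := hM v ⟨_, hf, hv⟩
    have h3 := Finset.sum_eq_zero_iff.1 h2 (S.cmp (S.blk i)) (Finset.mem_univ _)
    rw [if_pos (show S.fib (S.cmp (S.blk i)) = j' from hi),
      h1 (S.rep (S.cmp (S.blk i))) (S.blk i) (Function.surjInv_eq S.sC _)] at h3
    have h4 := Finset.sum_eq_zero_iff.1 h3 i (Finset.mem_univ _)
    rw [if_pos rfl] at h4
    have h5 := Finset.sum_eq_zero_iff.1 h4 f (Finset.mem_univ _)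
    rcases mul_eq_zero.1 h5 with h | h
    · exact hvf h
    · exact hne h
  | succ q ih =>
    obtain ⟨L0, hL1, hL2⟩ := exists_compat S j j' M q hM
    have hadd : ∀ v : I → ℕ, v ᵥ* M = v ᵥ* (M - L0) + v ᵥ* L0 := by
      intro v
      rw [← Matrix.vecMul_add]
      congr 1
      ext f i
      rw [Matrix.add_apply]
      show M f i = (M f i - L0 f i) + L0 f i
      have := hL1 f i
      omega
    have hbs : ∀ (v w : I → ℕ) b, S.bs (v + w) b = S.bs v b + S.bs w b := by
      intro v w b
      unfold Str.bs
      rw [← Finset.sum_add_distrib]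
      refine Finset.sum_congr rfl fun i _ => ?_
      split_ifs <;> simp
    have hdeg : ∀ (v w : I → ℕ) j, S.deg (v + w) j = S.deg v j + S.deg w j := by
      intro v w b
      unfold Str.deg
      rw [← Finset.sum_add_distrib]
      refine Finset.sum_congr rfl fun i _ => ?_
      rw [hbs]
      split_ifs <;> simp
    have hTr : ∀ w, S.InL j' w → (∀ b b', S.cmp b = S.cmp b' → S.bs w b = S.bs w b') ∧
        S.deg w j' = 1 := by
      rintro w ⟨a, ha, hw⟩
      have key : ∀ b, S.bs w b = if S.cmp b = a then 1 else 0 := by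
        intro b
        by_cases hb : S.cmp b = a
        · rw [if_pos hb, hw.1 b hb]
        · rw [if_neg hb]
          unfold Str.bs
          refine Finset.sum_eq_zero fun i _ => ?_
          by_cases hi : S.blk i = b
          · rw [if_pos hi]
            apply hw.2
            rwa [hi]
          · rw [if_neg hi]
      refine ⟨fun b b' hb => by rw [key, key, hb], ?_⟩
      unfold Str.deg
      rw [Finset.sum_eq_single a]
      · have hca : S.cmp (S.rep a) = a := Function.surjInv_eq S.sC a
        rw [if_pos ha, key, if_pos hca]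
      · intro a' _ haa
        have hca : S.cmp (S.rep a') = a' := Function.surjInv_eq S.sC a'
        rw [key, hca, if_neg haa, ite_self]
      · intro h
        exact absurd (Finset.mem_univ _) h
    have hM' : ∀ v, S.InL j v → S.InM (v ᵥ* (M - L0)) ∧ S.deg (v ᵥ* (M - L0)) j' = q := by
      intro v hv
      obtain ⟨h1, h2⟩ := hM v hv
      obtain ⟨h3, h4⟩ := hTr _ (hL2 v hv)
      constructor
      · intro b b' hb
        have h5 := h1 b b' hb
        rw [hadd, hbs, hbs, h3 b b' hb] at h5
        omega
      · rw [hadd, hdeg, h4] at h2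
        omega
    have hsupp' : ∀ i i', (M - L0) i i' ≠ 0 → S.pr i = j ∧ S.pr i' = j' := by
      intro i i' h
      apply hsupp
      intro h0
      apply h
      show M i i' - L0 i i' = 0
      omega
    obtain ⟨L, h1, h2, h3⟩ := ih (M - L0) hsupp' hM'
    refine ⟨Fin.cons L0 L, ?_, ?_, ?_⟩
    · rw [Fin.sum_univ_succ]
      simp only [Fin.cons_zero, Fin.cons_succ]
      rw [← h1]
      ext f i
      rw [Matrix.add_apply]
      show M f i = L0 f i + (M f i - L0 f i)
      have := hL1 f i
      omega
    · intro k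
      refine Fin.cases ?_ (fun k => ?_) k
      · intro i i' h
        rw [Fin.cons_zero] at h
        apply hsupp
        have := hL1 i i'
        omega
      · rw [Fin.cons_succ]
        exact h2 k
    · intro k
      refine Fin.cases ?_ (fun k => ?_) k
      · rw [Fin.cons_zero]
        exact hL2
      · rw [Fin.cons_succ]
        exact h3 k

end Pool.Agent.FTO
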