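import Pool.Agent.FTO.G2
import Pool.Agent.FTO.G3

/-!
# FTO: a structured pair of presentations gives a factor code
-/

set_option autoImplicit false
set_option linter.unusedSectionVars false

open scoped BigOperators
open Matrix Polynomial

namespace Pool.Agent.FTO

attribute [local instance] Classical.propDecidable

open Pool.Agent.SSE Pool.Agent.helper52.SSE

variable {I J : Type} [Fintype I] [Fintype J]

theorem Str.blk_base (S : Str I J) (b : S.Bl) : S.blk (S.base b) = b :=
  Function.surjInv_eq S.sB b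

theorem Str.cmp_rep (S : Str I J) (a : S.Co) : S.cmp (S.rep a) = a :=
  Function.surjInv_eq S.sC a

theorem Str.fib_c0 (S : Str I J) (j : J) : S.fib (S.c0 j) = j :=
  Function.surjInv_eq S.sF j

theorem Str.exists_tr (S : Str I J) (a : S.Co) : ∃ v, S.Tr a v := by
  refine ⟨fun i => if i = S.base (S.blk i) ∧ S.cmp (S.blk i) = a then 1 else 0, ?_, ?_⟩
  · intro b hb
    unfold Str.bs
    rw [Finset.sum_eq_single (S.base b)]
    · rw [if_pos (S.blk_base b)]
      show (if _ then 1 else 0) = 1
      rw [if_pos]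
      rw [S.blk_base]
      exact ⟨rfl, hb⟩
    · intro i _ hi
      by_cases h : S.blk i = b
      · rw [if_pos h]
        show (if _ then 1 else 0) = 0
        rw [if_neg]
        rintro ⟨h1, -⟩
        rw [h] at h1
        exact hi h1
      · rw [if_neg h]
    · intro h
      exact absurd (Finset.mem_univ _) h
  · intro i hi
    show (if _ then 1 else 0) = 0
    rw [if_neg]
    rintro ⟨-, h⟩
    exact hi h

theorem Str.exists_inL (S : Str I J) (j : J) : ∃ v, S.InL j v := by
  obtain ⟨v, hv⟩ := S.exists_tr (S.c0 j)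
  exact ⟨v, S.c0 j, S.fib_c0 j, hv⟩

theorem Str.inL_ne_zero (S : Str I J) {j : J} {v : I → ℕ} (h : S.InL j v) : v ≠ 0 := by
  obtain ⟨a, -, h1, -⟩ := h
  rintro rfl
  have := h1 (S.rep a) (S.cmp_rep a)
  simp [Str.bs] at this

theorem Str.inL_supp (S : Str I J) {j : J} {v : I → ℕ} (h : S.InL j v) {i : I} (hi : v i ≠ 0) :
    S.pr i = j := by
  obtain ⟨a, ha, -, h2⟩ := h
  by_contra hne
  apply hi
  apply h2
  intro h3
  apply hne
  rw [Str.pr, h3, ha]

/-- the part of the coefficient of degree `n` between two vertices -/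
noncomputable def part (S : Str I J) (P : Matrix I I ℕ[X]) (n : ℕ) (j j' : J) : Matrix I I ℕ :=
  fun i i' => if S.pr i = j ∧ S.pr i' = j' then (P i i').coeff n else 0

theorem bs_part (S : Str I J) (P : Matrix I I ℕ[X]) (n : ℕ) (j j' : J) {v : I → ℕ}
    (hv : S.InL j v) (b : S.Bl) :
    S.bs (v ᵥ* part S P n j j') b =
      if S.fib (S.cmp b) = j' then (S.bs ((fun i => ((v i : ℕ) : ℕ[X])) ᵥ* P) b).coeff n
      else 0 := by
  have h1 : ∀ i', S.blk i' = b → (v ᵥ* part S P n j j') i' =
      if S.fib (S.cmp b) = j' then (((fun i => ((v i : ℕ) : ℕ[X])) ᵥ* P) i').coeff n else 0 := by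
    intro i' hi'
    simp only [Matrix.vecMul, dotProduct, part]
    have h2 : S.pr i' = S.fib (S.cmp b) := by rw [Str.pr, hi']
    rw [h2]
    by_cases hb : S.fib (S.cmp b) = j'
    · rw [if_pos hb, Polynomial.finsetSum_coeff]
      refine Finset.sum_congr rfl fun i _ => ?_
      by_cases hi : v i = 0
      · rw [hi]
        simp
      · rw [if_pos ⟨S.inL_supp hv hi, hb⟩, ← Polynomial.C_eq_natCast, Polynomial.coeff_C_mul]
        simp
    · rw [if_neg hb]
      refine Finset.sum_eq_zero fun i _ => ?_
      rw [if_neg (fun h => hb h.2), mul_zero]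
  unfold Str.bs
  by_cases hb : S.fib (S.cmp b) = j'
  · rw [if_pos hb, Polynomial.finsetSum_coeff]
    refine Finset.sum_congr rfl fun i' _ => ?_
    by_cases hi' : S.blk i' = b
    · rw [if_pos hi', if_pos hi', h1 i' hi', if_pos hb]
    · rw [if_neg hi', if_neg hi', Polynomial.coeff_zero]
  · rw [if_neg hb]
    refine Finset.sum_eq_zero fun i' _ => ?_
    by_cases hi' : S.blk i' = b
    · rw [if_pos hi', h1 i' hi', if_neg hb]
    · rw [if_neg hi']

theorem part_spec {S : Str I J} {P : Matrix I I ℕ[X]} {Q : Matrix J J ℕ[X]}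
    (h : Structured S P Q) (n : ℕ) (j j' : J) {v : I → ℕ} (hv : S.InL j v) :
    S.InM (v ᵥ* part S P n j j') ∧ S.deg (v ᵥ* part S P n j j') j' = (Q j j').coeff n := by
  obtain ⟨h1, h2⟩ := h j v hv
  constructor
  · intro b b' hb
    rw [bs_part S P n j j' hv, bs_part S P n j j' hv, hb, h1 b b' hb]
  · rw [← h2 j', Str.deg, Str.deg, Polynomial.finsetSum_coeff]
    refine Finset.sum_congr rfl fun a _ => ?_
    by_cases ha : S.fib a = j'
    · rw [if_pos ha, if_pos ha, bs_part S P n j j' hv, S.cmp_rep, if_pos ha]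
    · rw [if_neg ha, if_neg ha, Polynomial.coeff_zero]

theorem exists_parts {S : Str I J} {P : Matrix I I ℕ[X]} {Q : Matrix J J ℕ[X]}
    (h : Structured S P Q) (n : ℕ) (j j' : J) :
    ∃ L : Fin ((Q j j').coeff n) → Matrix I I ℕ, part S P n j j' = ∑ k, L k ∧
      (∀ k i i', L k i i' ≠ 0 → S.pr i = j ∧ S.pr i' = j') ∧
      ∀ k v, S.InL j v → S.InL j' (v ᵥ* L k) := by
  refine exists_decomp S j j' _ ?_ _ fun v hv => part_spec h n j j' hv
  intro i i' hi
  by_contra hne
  exact hi (if_neg hne)

/-- a structured pair of presentations gives a factor code of the companion graphs -/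
theorem fc_comp {S : Str I J} {P : Matrix I I ℕ[X]} {Q : Matrix J J ℕ[X]}
    (h : Structured S P Q) (d : ℕ) : FC (mshift (comp d P)) (mshift (comp d Q)) := by
  let pr : I × Fin d → J × Fin d := fun x => (S.pr x.1, x.2)
  let LL : J × Fin d → (I × Fin d → ℕ) → Prop := fun w l =>
    ∃ v, S.InL w.1 v ∧ l = fun x => if x.2 = w.2 then v x.1 else 0
  have key : ∀ w w' : J × Fin d, ∃ L : Fin (comp d Q w w') → Matrix (I × Fin d) (I × Fin d) ℕ,
      (∀ k v v', L k v v' ≠ 0 → pr v = w ∧ pr v' = w') ∧
      (∀ v v', pr v = w → pr v' = w' → comp d P v v' = ∑ k, L k v v') ∧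
      ∀ k l, LL w l → LL w' (l ᵥ* L k) := by
    rintro ⟨j, c⟩ ⟨j', b⟩
    by_cases hc : (c : ℕ) = 0
    · have hF : comp d Q (j, c) (j', b) = (Q j j').coeff (b + 1) := by
        simp only [Pool.Agent.SSE.comp]
        rw [if_pos hc]
      rw [hF]
      obtain ⟨L, hL1, hL2, hL3⟩ := exists_parts h (b + 1) j j'
      refine ⟨fun k x y => if x.2 = c ∧ y.2 = b then L k x.1 y.1 else 0, ?_, ?_, ?_⟩
      · rintro k ⟨i, c'⟩ ⟨i', b'⟩ hk
        have h1 : c' = c ∧ b' = b := by
          by_contra hne
          exact hk (if_neg hne)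
        have h2 : L k i i' ≠ 0 := by
          have h3 : (if c' = c ∧ b' = b then L k i i' else 0) ≠ 0 := hk
          rwa [if_pos h1] at h3
        obtain ⟨h3, h4⟩ := hL2 k i i' h2
        exact ⟨Prod.ext h3 h1.1, Prod.ext h4 h1.2⟩
      · rintro ⟨i, c'⟩ ⟨i', b'⟩ h1 h2
        obtain ⟨h3, h4⟩ := Prod.ext_iff.1 h1
        obtain ⟨h5, h6⟩ := Prod.ext_iff.1 h2
        have h3' : S.pr i = j := h3
        have h4' : c' = c := h4
        have h5' : S.pr i' = j' := h5
        have h6' : b' = b := h6
        subst h4' h6'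
        have h7 := congrFun (congrFun hL1 i) i'
        rw [Matrix.sum_apply] at h7
        simp only [Pool.Agent.SSE.comp]
        rw [if_pos hc]
        refine (Eq.trans ?_ h7).trans (Finset.sum_congr rfl fun k _ => (if_pos ⟨trivial, trivial⟩).symm)
        rw [part, if_pos ⟨h3', h5'⟩]
      · rintro k l ⟨v, hv, rfl⟩
        refine ⟨v ᵥ* L k, hL3 k v hv, ?_⟩
        funext x
        simp only [Matrix.vecMul, dotProduct]
        rw [Fintype.sum_prod_type]
        by_cases hx : x.2 = b
        · rw [if_pos hx]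
          refine Finset.sum_congr rfl fun i _ => ?_
          rw [Finset.sum_eq_single c]
          · simp [hx]
          · intro c' _ hc'
            simp [hc']
          · intro hn
            exact absurd (Finset.mem_univ _) hn
        · rw [if_neg hx]
          refine Finset.sum_eq_zero fun i _ => Finset.sum_eq_zero fun c' _ => ?_
          simp [hx]
    · by_cases hj : j = j' ∧ (c : ℕ) = b + 1
      · have hF : comp d Q (j, c) (j', b) = 1 := by
          simp only [Pool.Agent.SSE.comp]
          rw [if_neg hc, if_pos hj]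
        rw [hF]
        obtain ⟨rfl, hcb⟩ := hj
        refine ⟨fun _ x y => if (x.2 = c ∧ y.2 = b) ∧ x.1 = y.1 ∧ S.pr x.1 = j then 1 else 0,
          ?_, ?_, ?_⟩
        · rintro k ⟨i, c'⟩ ⟨i', b'⟩ hk
          have h1 : (c' = c ∧ b' = b) ∧ i = i' ∧ S.pr i = j := by
            by_contra hne
            exact hk (if_neg hne)
          obtain ⟨⟨rfl, rfl⟩, rfl, h2⟩ := h1
          exact ⟨Prod.ext h2 rfl, Prod.ext h2 rfl⟩
        · rintro ⟨i, c'⟩ ⟨i', b'⟩ h1 h2
          obtain ⟨h3, h4⟩ := Prod.ext_iff.1 h1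
          obtain ⟨h5, h6⟩ := Prod.ext_iff.1 h2
          have h3' : S.pr i = j := h3
          have h4' : c' = c := h4
          have h6' : b' = b := h6
          subst h4' h6'
          simp only [Pool.Agent.SSE.comp]
          rw [if_neg hc, Fin.sum_univ_one]
          by_cases hi : i = i'
          · rw [if_pos ⟨hi, hcb⟩, if_pos ⟨⟨trivial, trivial⟩, hi, h3'⟩]
          · rw [if_neg (fun hn => hi hn.1), if_neg (fun hn => hi hn.2.1)]
        · rintro k l ⟨v, hv, rfl⟩
          refine ⟨v, hv, ?_⟩
          funext x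
          simp only [Matrix.vecMul, dotProduct]
          rw [Fintype.sum_prod_type]
          by_cases hx : x.2 = b
          · rw [if_pos hx, Finset.sum_eq_single x.1]
            · rw [Finset.sum_eq_single c]
              · by_cases hv0 : v x.1 = 0
                · simp [hv0]
                · have := S.inL_supp hv hv0
                  simp [hx, this]
              · intro c' _ hc'
                simp [hc']
              · intro hn
                exact absurd (Finset.mem_univ _) hn
            · intro i _ hi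
              refine Finset.sum_eq_zero fun c' _ => ?_
              simp [hi]
            · intro hn
              exact absurd (Finset.mem_univ _) hn
          · rw [if_neg hx]
            refine Finset.sum_eq_zero fun i _ => Finset.sum_eq_zero fun c' _ => ?_
            simp [hx]
      · have hF : comp d Q (j, c) (j', b) = 0 := by
          simp only [Pool.Agent.SSE.comp]
          rw [if_neg hc, if_neg hj]
        rw [hF]
        refine ⟨fun _ => 0, fun k => k.elim0, ?_, fun k => k.elim0⟩
        rintro ⟨i, c'⟩ ⟨i', b'⟩ h1 h2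
        obtain ⟨h3, h4⟩ := Prod.ext_iff.1 h1
        obtain ⟨h5, h6⟩ := Prod.ext_iff.1 h2
        have h3' : S.pr i = j := h3
        have h4' : c' = c := h4
        have h5' : S.pr i' = j' := h5
        have h6' : b' = b := h6
        subst h4' h6'
        simp only [Pool.Agent.SSE.comp]
        rw [if_neg hc, if_neg, Finset.univ_eq_empty, Finset.sum_empty]
        rintro ⟨rfl, h7⟩
        exact hj ⟨h3'.symm.trans h5', h7⟩
  choose L hL1 hL2 hL3 using key
  refine fc_of_families (comp d P) (comp d Q) pr (fun e => L e.1.1 e.1.2 e.2)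
    (fun e v v' hv => hL1 _ _ _ v v' hv) (fun v v' => hL2 _ _ v v' rfl rfl) LL ?_ ?_
    (fun e l hl => hL3 _ _ _ l hl)
  · rintro ⟨j, c⟩
    obtain ⟨v, hv⟩ := S.exists_inL j
    exact ⟨_, v, hv, rfl⟩
  · rintro ⟨j, c⟩ l ⟨v, hv, rfl⟩ h0
    apply S.inL_ne_zero hv
    funext i
    have := congrFun h0 (i, c)
    simpa using this

/-- GRAPH LEVEL, final statement. -/
theorem exists_code {a b : ℕ} {A : Matrix (Fin a) (Fin a) ℕ} {B : Matrix (Fin b) (Fin b) ℕ}
    {S : Str I J} {P : Matrix I I ℕ[X]} {Q : Matrix J J ℕ[X]} (h : Structured S P Q)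
    (hA : PEqv P (ofMat A)) (hB : PEqv Q (ofMat B)) :
    ∃ φ : FT.edgeShift A → FT.edgeShift B, FT.IsFactorCode φ := by
  set d := max (bd P) (bd Q) with hd
  have h1 : DegLe' d P := fun i j => (degLe_bd P i j).trans (le_max_left _ _)
  have h2 : DegLe' d Q := fun i j => (degLe_bd Q i j).trans (le_max_right _ _)
  have h3 : Eqv A (Pool.Agent.SSE.comp d P) :=
    ((eqv_ofMat A).trans (PEqv.symm hA)).trans (comp_eqv (degLe_bd P) h1)
  have h4 : Eqv (Pool.Agent.SSE.comp d Q) B := ((comp_eqv h2 (degLe_bd Q)).trans hB).trans (eqv_ofMat B).symm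
  exact ((fc_of_eqv h3).1.trans (fc_comp h d)).trans (fc_of_eqv h4).1

end Pool.Agent.FTO
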