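import Mathlib.LinearAlgebra.Matrix.Block
import Mathlib.Logic.Equiv.Fin.Rotate

/-!
# FTO: the local lemma

Finite systems `I -> Bl -> Co` (elements, blocks, components) with a permutation, and prescribed
cycle lengths on the three levels.
-/

set_option autoImplicit false

open scoped BigOperators

namespace Pool.Agent.FTO

open Classical in
/-- the matrix of a permutation: row `i` is the basis vector `π i` -/
noncomputable def pm {I : Type} (R : Type) [Zero R] [One R] (π : Equiv.Perm I) :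
    Matrix I I R := Matrix.of fun i j => if π i = j then 1 else 0

open Classical in
/-- `det (1 - s π)` -/
noncomputable def pdet {I : Type} [Fintype I] {R : Type} [CommRing R]
    (π : Equiv.Perm I) (s : R) : R := (1 - s • pm R π).det

section pdet

variable {R : Type} [CommRing R]

theorem pdet_eq {I : Type} [Fintype I] [DecidableEq I] (π : Equiv.Perm I) (s : R) :
    pdet π s = (1 - s • pm R π).det := by
  rw [pdet]
  congr <;> exact Subsingleton.elim _ _

theorem pm_apply {I : Type} [DecidableEq I] (π : Equiv.Perm I) (i j : I) :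
    pm R π i j = if π i = j then 1 else 0 := by
  rw [pm, Matrix.of_apply]
  congr

theorem pdet_cycle (n : ℕ) (s : R) : pdet (finRotate (n + 1)) s = 1 - s ^ (n + 1) := by
  set A : Matrix (Fin (n + 1)) (Fin (n + 1)) R := 1 - s • pm R (finRotate (n + 1)) with hA
  have hAe : ∀ i j, A i j = (if i = j then 1 else 0) - s * (if i + 1 = j then 1 else 0) := by
    intro i j
    rw [hA, Matrix.sub_apply, Matrix.smul_apply, Matrix.one_apply, pm_apply,
      finRotate_apply, smul_eq_mul]
  let c : Fin (n + 1) → R := fun k => if (k : ℕ) = n then 1 else s ^ ((k : ℕ) + 1)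
  have h1 := Matrix.det_updateRow_sum A (Fin.last n) c
  have hc : c (Fin.last n) = 1 := if_pos rfl
  rw [hc, one_smul] at h1
  -- the new last row
  have hrow : ∀ j, (∑ k, c k • A k) j = if j = Fin.last n then 1 - s ^ (n + 1) else 0 := by
    intro j
    rw [Finset.sum_apply]
    have h2 : ∀ k, (c k • A k) j = c k * (if k = j then 1 else 0) -
        c k * s * (if k + 1 = j then 1 else 0) := by
      intro k
      rw [Pi.smul_apply, smul_eq_mul, hAe]
      ring
    rw [Finset.sum_congr rfl fun k _ => h2 k, Finset.sum_sub_distrib]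
    have h3 : ∑ k, c k * (if k = j then (1 : R) else 0) = c j := by
      rw [Finset.sum_eq_single j]
      · rw [if_pos rfl, mul_one]
      · intro b _ hb
        rw [if_neg hb, mul_zero]
      · intro h
        exact absurd (Finset.mem_univ j) h
    have h4 : ∑ k, c k * s * (if k + 1 = j then (1 : R) else 0) = c (j - 1) * s := by
      rw [Finset.sum_eq_single (j - 1)]
      · rw [if_pos (sub_add_cancel j 1), mul_one]
      · intro b _ hb
        rw [if_neg (fun h => hb (eq_sub_of_add_eq h)), mul_zero]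
      · intro h
        exact absurd (Finset.mem_univ _) h
    rw [h3, h4]
    have hv : ((j - 1 : Fin (n + 1)) : ℕ) = if (j : ℕ) = 0 then n else (j : ℕ) - 1 := by
      by_cases hj : j = 0
      · rw [hj, zero_sub, Fin.coe_neg_one, if_pos (Fin.val_zero (n + 1))]
      · have : (j : ℕ) ≠ 0 := fun h => hj (Fin.ext (h.trans (Fin.val_zero (n + 1)).symm))
        rw [if_neg this]
        rcases n with _ | n
        · exact absurd (Fin.ext (by omega)) hj
        · exact Fin.val_sub_one_of_ne_zero hj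
    have hlast : j = Fin.last n ↔ (j : ℕ) = n := by
      rw [Fin.ext_iff, Fin.val_last]
    show (if (j : ℕ) = n then (1 : R) else s ^ ((j : ℕ) + 1)) -
      (if ((j - 1 : Fin (n + 1)) : ℕ) = n then (1 : R) else
        s ^ (((j - 1 : Fin (n + 1)) : ℕ) + 1)) * s = _
    rw [hv]
    have hlt := j.isLt
    by_cases h0 : (j : ℕ) = 0
    · rw [if_pos h0, if_pos rfl, h0]
      by_cases hn : 0 = n
      · rw [if_pos hn, if_pos (hlast.2 (h0.trans hn)), ← hn]
        ring
      · rw [if_neg hn, if_neg (fun h => hn (h0.symm.trans (hlast.1 h)))]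
        ring
    · rw [if_neg h0]
      have h5 : ¬ ((j : ℕ) - 1 = n) := by omega
      rw [if_neg h5]
      have h6 : (j : ℕ) - 1 + 1 = (j : ℕ) := by omega
      rw [h6]
      by_cases hn : (j : ℕ) = n
      · rw [if_pos hn, if_pos (hlast.2 hn), hn]
        ring
      · rw [if_neg hn, if_neg (fun h => hn (hlast.1 h))]
        ring
  rw [pdet_eq, ← hA, ← h1]
  have hU : (A.updateRow (Fin.last n) (∑ k, c k • A k)).BlockTriangular id := by
    intro i j hij
    have hij' : (j : ℕ) < (i : ℕ) := hij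
    rw [Matrix.updateRow_apply]
    by_cases hi : i = Fin.last n
    · rw [if_pos hi, hrow, if_neg]
      intro h
      rw [hi, h] at hij'
      exact lt_irrefl _ hij'
    · rw [if_neg hi, hAe, if_neg (fun h => by rw [h] at hij'; exact lt_irrefl _ hij'),
        if_neg, mul_zero, sub_zero]
      intro h
      have hil : (i : ℕ) ≠ n := fun h' => hi (Fin.ext (h'.trans (Fin.val_last n).symm))
      have hlt := i.isLt
      have : ((i + 1 : Fin (n + 1)) : ℕ) = (i : ℕ) + 1 :=
        Fin.val_add_one_of_lt (Fin.lt_def.2 (by rw [Fin.val_last]; omega))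
      rw [h] at this
      omega
  rw [Matrix.det_of_upperTriangular hU, Fin.prod_univ_castSucc]
  have hd : ∀ i : Fin n, A.updateRow (Fin.last n) (∑ k, c k • A k) (Fin.castSucc i)
      (Fin.castSucc i) = 1 := by
    intro i
    rw [Matrix.updateRow_ne (Fin.castSucc_lt_last i).ne, hAe, if_pos rfl, if_neg, mul_zero,
      sub_zero]
    intro h
    have : ((Fin.castSucc i + 1 : Fin (n + 1)) : ℕ) = (Fin.castSucc i : ℕ) + 1 :=
      Fin.val_add_one_of_lt (Fin.castSucc_lt_last i)
    rw [h] at this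
    omega
  rw [Finset.prod_congr rfl fun i _ => hd i, Finset.prod_const_one, one_mul,
    Matrix.updateRow_self, hrow, if_pos rfl]

theorem pdet_sum {I J : Type} [Fintype I] [Fintype J]
    (π : Equiv.Perm I) (ρ : Equiv.Perm J) (s : R) :
    pdet (Equiv.sumCongr π ρ) s = pdet π s * pdet ρ s := by
  classical
  have h : (1 - s • pm R (Equiv.sumCongr π ρ)) =
      Matrix.fromBlocks (1 - s • pm R π) 0 0 (1 - s • pm R ρ) := by
    ext i j
    rcases i with i | i <;> rcases j with j | j <;>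
      simp [pm_apply, Matrix.one_apply, Matrix.fromBlocks]
  rw [pdet_eq, h, Matrix.det_fromBlocks_zero₂₁, ← pdet_eq, ← pdet_eq]

end pdet

/-- a finite system of elements, blocks and components with a permutation, and a fixed block -/
structure PSys where
  I : Type
  Bl : Type
  Co : Type
  finI : Fintype I
  finB : Fintype Bl
  finC : Fintype Co
  blk : I → Bl
  cmp : Bl → Co
  sB : Function.Surjective blk
  sC : Function.Surjective cmp
  pI : Equiv.Perm I
  pB : Equiv.Perm Bl
  pC : Equiv.Perm Co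
  hB : ∀ i, blk (pI i) = pB (blk i)
  hC : ∀ b, cmp (pB b) = pC (cmp b)
  b0 : Bl
  hb0 : pB b0 = b0

attribute [instance] PSys.finI PSys.finB PSys.finC

/-- the cycle lengths on the three levels -/
def PSys.HasDet (X : PSys) (EL BL CL : Multiset ℕ) : Prop :=
  ∀ (R : Type) [CommRing R] (s : R), pdet X.pI s = (EL.map fun m => 1 - s ^ m).prod ∧
    pdet X.pB s = (BL.map fun m => 1 - s ^ m).prod ∧ pdet X.pC s = (CL.map fun m => 1 - s ^ m).prod

/-- reduction modulo `m` -/
def red {m : ℕ} (hm : 0 < m) (p : ℕ) (i : Fin (m * p)) : Fin m := ⟨(i : ℕ) % m, Nat.mod_lt _ hm⟩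

theorem red_surjective {m p : ℕ} (hm : 0 < m) (hp : 0 < p) :
    Function.Surjective (red hm p) := by
  intro j
  refine ⟨⟨(j : ℕ), lt_of_lt_of_le j.isLt (Nat.le_mul_of_pos_right m hp)⟩, ?_⟩
  exact Fin.ext (Nat.mod_eq_of_lt j.isLt)

/-- cyclic reduction commutes with the rotation -/
theorem red_rotate {m p : ℕ} (hm : 0 < m) (i : Fin (m * p)) :
    red hm p (finRotate (m * p) i) = finRotate m (red hm p i) := by
  obtain ⟨k, hk⟩ : ∃ k, m * p = k + 1 :=
    Nat.exists_eq_succ_of_ne_zero fun h => by rw [h] at i; exact i.elim0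
  have key : ((finRotate (m * p) i : Fin (m * p)) : ℕ) % m = ((i : ℕ) + 1) % m := by
    have hd : m ∣ m * p := dvd_mul_right m p
    revert i
    rw [hk] at hd ⊢
    intro i
    rw [finRotate_apply, Fin.val_add, Fin.val_one', Nat.mod_mod_of_dvd _ hd, Nat.add_mod,
      Nat.mod_mod_of_dvd _ hd, ← Nat.add_mod]
  have key2 : ∀ j : Fin m, ((finRotate m j : Fin m) : ℕ) = ((j : ℕ) + 1) % m := by
    obtain ⟨l, hl⟩ := Nat.exists_eq_succ_of_ne_zero hm.ne'
    rw [hl]
    intro j
    rw [finRotate_apply, Fin.val_add, Fin.val_one', Nat.add_mod, Nat.mod_mod, ← Nat.add_mod]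
  apply Fin.ext
  rw [key2]
  show ((finRotate (m * p) i : Fin (m * p)) : ℕ) % m = ((i : ℕ) % m + 1) % m
  rw [key, Nat.mod_add_mod]

theorem pdet_cycle' {R : Type} [CommRing R] {n : ℕ} (hn : 0 < n) (s : R) :
    pdet (finRotate n) s = 1 - s ^ n := by
  obtain ⟨k, rfl⟩ := Nat.exists_eq_succ_of_ne_zero hn.ne'
  exact pdet_cycle k s

namespace PSys

/-- one component, one block, one cycle -/
def one (p : ℕ) (hp : 0 < p) : PSys where
  I := Fin p
  Bl := Fin 1
  Co := Fin 1
  finI := inferInstance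
  finB := inferInstance
  finC := inferInstance
  blk := fun _ => 0
  cmp := fun _ => 0
  sB := fun _ => ⟨⟨0, hp⟩, Subsingleton.elim _ _⟩
  sC := fun _ => ⟨0, Subsingleton.elim _ _⟩
  pI := finRotate p
  pB := finRotate 1
  pC := finRotate 1
  hB := fun _ => Subsingleton.elim _ _
  hC := fun _ => Subsingleton.elim _ _
  b0 := 0
  hb0 := Subsingleton.elim _ _

theorem one_hasDet (p : ℕ) (hp : 0 < p) : (one p hp).HasDet {p} {1} {1} := by
  intro R _ s
  rw [Multiset.map_singleton, Multiset.prod_singleton, Multiset.map_singleton,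
    Multiset.prod_singleton]
  exact ⟨pdet_cycle' hp s, pdet_cycle' one_pos s, pdet_cycle' one_pos s⟩

/-- add a cycle of elements in the base block -/
def addE (X : PSys) (m : ℕ) : PSys where
  I := X.I ⊕ Fin m
  Bl := X.Bl
  Co := X.Co
  finI := inferInstance
  finB := inferInstance
  finC := inferInstance
  blk := Sum.elim X.blk (fun _ => X.b0)
  cmp := X.cmp
  sB := fun b => by
    obtain ⟨i, hi⟩ := X.sB b
    exact ⟨Sum.inl i, hi⟩
  sC := X.sC
  pI := Equiv.sumCongr X.pI (finRotate m)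
  pB := X.pB
  pC := X.pC
  hB := by
    rintro (i | i)
    · exact X.hB i
    · exact X.hb0.symm
  hC := X.hC
  b0 := X.b0
  hb0 := X.hb0

theorem addE_hasDet {X : PSys} {EL BL CL : Multiset ℕ} (h : X.HasDet EL BL CL) {m : ℕ}
    (hm : 0 < m) : (X.addE m).HasDet (m ::ₘ EL) BL CL := by
  intro R _ s
  obtain ⟨h1, h2, h3⟩ := h R s
  refine ⟨?_, h2, h3⟩
  rw [Multiset.map_cons, Multiset.prod_cons, ← h1, ← pdet_cycle' hm s, mul_comm]
  exact pdet_sum X.pI (finRotate m) s

theorem hC0 (X : PSys) : X.cmp X.b0 = X.pC (X.cmp X.b0) := by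
  rw [← X.hC, X.hb0]

/-- add a cycle of blocks in the base component -/
def addB (X : PSys) (m p : ℕ) (hm : 0 < m) (hp : 0 < p) : PSys where
  I := X.I ⊕ Fin (m * p)
  Bl := X.Bl ⊕ Fin m
  Co := X.Co
  finI := inferInstance
  finB := inferInstance
  finC := inferInstance
  blk := Sum.map X.blk (red hm p)
  cmp := Sum.elim X.cmp (fun _ => X.cmp X.b0)
  sB := Sum.map_surjective.2 ⟨X.sB, red_surjective hm hp⟩
  sC := fun c => by
    obtain ⟨i, hi⟩ := X.sC c
    exact ⟨Sum.inl i, hi⟩
  pI := Equiv.sumCongr X.pI (finRotate (m * p))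
  pB := Equiv.sumCongr X.pB (finRotate m)
  pC := X.pC
  hB := by
    rintro (i | i)
    · exact congrArg Sum.inl (X.hB i)
    · exact congrArg Sum.inr (red_rotate hm i)
  hC := by
    rintro (b | b)
    · exact X.hC b
    · exact X.hC0
  b0 := Sum.inl X.b0
  hb0 := congrArg Sum.inl X.hb0

theorem addB_hasDet {X : PSys} {EL BL CL : Multiset ℕ} (h : X.HasDet EL BL CL) {m p : ℕ}
    (hm : 0 < m) (hp : 0 < p) :
    (X.addB m p hm hp).HasDet (m * p ::ₘ EL) (m ::ₘ BL) CL := by
  intro R _ s
  obtain ⟨h1, h2, h3⟩ := h R s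
  refine ⟨?_, ?_, h3⟩
  · rw [Multiset.map_cons, Multiset.prod_cons, ← h1, ← pdet_cycle' (Nat.mul_pos hm hp) s,
      mul_comm]
    exact pdet_sum X.pI (finRotate (m * p)) s
  · rw [Multiset.map_cons, Multiset.prod_cons, ← h2, ← pdet_cycle' hm s, mul_comm]
    exact pdet_sum X.pB (finRotate m) s

/-- add a cycle of components -/
def addC (X : PSys) (m p : ℕ) (hm : 0 < m) (hp : 0 < p) : PSys where
  I := X.I ⊕ Fin (m * p)
  Bl := X.Bl ⊕ Fin (m * p)
  Co := X.Co ⊕ Fin m
  finI := inferInstance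
  finB := inferInstance
  finC := inferInstance
  blk := Sum.map X.blk id
  cmp := Sum.map X.cmp (red hm p)
  sB := Sum.map_surjective.2 ⟨X.sB, Function.surjective_id⟩
  sC := Sum.map_surjective.2 ⟨X.sC, red_surjective hm hp⟩
  pI := Equiv.sumCongr X.pI (finRotate (m * p))
  pB := Equiv.sumCongr X.pB (finRotate (m * p))
  pC := Equiv.sumCongr X.pC (finRotate m)
  hB := by
    rintro (i | i)
    · exact congrArg Sum.inl (X.hB i)
    · rfl
  hC := by
    rintro (b | b)
    · exact congrArg Sum.inl (X.hC b)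
    · exact congrArg Sum.inr (red_rotate hm b)
  b0 := Sum.inl X.b0
  hb0 := congrArg Sum.inl X.hb0

theorem addC_hasDet {X : PSys} {EL BL CL : Multiset ℕ} (h : X.HasDet EL BL CL) {m p : ℕ}
    (hm : 0 < m) (hp : 0 < p) :
    (X.addC m p hm hp).HasDet (m * p ::ₘ EL) (m * p ::ₘ BL) (m ::ₘ CL) := by
  intro R _ s
  obtain ⟨h1, h2, h3⟩ := h R s
  refine ⟨?_, ?_, ?_⟩
  · rw [Multiset.map_cons, Multiset.prod_cons, ← h1, ← pdet_cycle' (Nat.mul_pos hm hp) s,
      mul_comm]
    exact pdet_sum X.pI (finRotate (m * p)) s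
  · rw [Multiset.map_cons, Multiset.prod_cons, ← h2, ← pdet_cycle' (Nat.mul_pos hm hp) s,
      mul_comm]
    exact pdet_sum X.pB (finRotate (m * p)) s
  · rw [Multiset.map_cons, Multiset.prod_cons, ← h3, ← pdet_cycle' hm s, mul_comm]
    exact pdet_sum X.pC (finRotate m) s

theorem addE_iter {X : PSys} {EL BL CL : Multiset ℕ} (h : X.HasDet EL BL CL) {m : ℕ}
    (hm : 0 < m) (k : ℕ) : ∃ Y : PSys, Y.HasDet (Multiset.replicate k m + EL) BL CL := by
  induction k with
  | zero => exact ⟨X, by rwa [Multiset.replicate_zero, zero_add]⟩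
  | succ k ih =>
    obtain ⟨Y, hY⟩ := ih
    exact ⟨Y.addE m, by
      rw [Multiset.replicate_succ, Multiset.cons_add]
      exact addE_hasDet hY hm⟩

theorem addB_iter {X : PSys} {EL BL CL : Multiset ℕ} (h : X.HasDet EL BL CL) {m p : ℕ}
    (hm : 0 < m) (hp : 0 < p) (k : ℕ) :
    ∃ Y : PSys, Y.HasDet (Multiset.replicate k (m * p) + EL) (Multiset.replicate k m + BL) CL := by
  induction k with
  | zero => exact ⟨X, by rwa [Multiset.replicate_zero, Multiset.replicate_zero, zero_add, zero_add]⟩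
  | succ k ih =>
    obtain ⟨Y, hY⟩ := ih
    exact ⟨Y.addB m p hm hp, by
      rw [Multiset.replicate_succ, Multiset.cons_add, Multiset.replicate_succ, Multiset.cons_add]
      exact addB_hasDet hY hm hp⟩

theorem addC_iter {X : PSys} {EL BL CL : Multiset ℕ} (h : X.HasDet EL BL CL) {m p : ℕ}
    (hm : 0 < m) (hp : 0 < p) (k : ℕ) :
    ∃ Y : PSys, Y.HasDet (Multiset.replicate k (m * p) + EL) (Multiset.replicate k (m * p) + BL)
      (Multiset.replicate k m + CL) := by
  induction k with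
  | zero =>
    exact ⟨X, by rwa [Multiset.replicate_zero, Multiset.replicate_zero, zero_add, zero_add,
      zero_add]⟩
  | succ k ih =>
    obtain ⟨Y, hY⟩ := ih
    exact ⟨Y.addC m p hm hp, by
      rw [Multiset.replicate_succ, Multiset.cons_add, Multiset.cons_add, Multiset.replicate_succ,
        Multiset.cons_add]
      exact addC_hasDet hY hm hp⟩

/-- one degree: `a` short element cycles, `b` block cycles, `c` component cycles of length `m` -/
theorem add_deg {X : PSys} {EL BL CL : Multiset ℕ} (h : X.HasDet EL BL CL) {m p : ℕ}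
    (hm : 0 < m) (hp : 0 < p) (a b c : ℕ) :
    ∃ Y : PSys, Y.HasDet
      (Multiset.replicate a m + (Multiset.replicate (b + c) (m * p) + EL))
      (Multiset.replicate b m + (Multiset.replicate c (m * p) + BL))
      (Multiset.replicate c m + CL) := by
  obtain ⟨Y1, h1⟩ := addC_iter h hm hp c
  obtain ⟨Y2, h2⟩ := addB_iter h1 hm hp b
  obtain ⟨Y3, h3⟩ := addE_iter h2 hm a
  refine ⟨Y3, ?_⟩
  rwa [Multiset.replicate_add, add_assoc]

/-- THE LOCAL LEMMA, first form: prescribed numbers of cycles in the degrees `1, .., L - 1` -/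
theorem exists_counts (p : ℕ) (hp : 0 < p) (a b c : ℕ → ℕ) (L : ℕ) :
    ∃ Y : PSys, ∀ (R : Type) [CommRing R] (s : R),
      pdet Y.pI s = (1 - s ^ p) * (∏ m ∈ Finset.Ico 1 L, (1 - s ^ m) ^ a m) *
        ∏ m ∈ Finset.Ico 1 L, (1 - s ^ (m * p)) ^ (b m + c m) ∧
      pdet Y.pB s = (1 - s) * (∏ m ∈ Finset.Ico 1 L, (1 - s ^ m) ^ b m) *
        ∏ m ∈ Finset.Ico 1 L, (1 - s ^ (m * p)) ^ c m ∧
      pdet Y.pC s = (1 - s) * ∏ m ∈ Finset.Ico 1 L, (1 - s ^ m) ^ c m := by
  suffices h : ∃ (Y : PSys) (EL BL CL : Multiset ℕ), Y.HasDet EL BL CL ∧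
      ∀ (R : Type) [CommRing R] (s : R),
      (EL.map fun m => 1 - s ^ m).prod = (1 - s ^ p) *
        (∏ m ∈ Finset.Ico 1 L, (1 - s ^ m) ^ a m) *
        ∏ m ∈ Finset.Ico 1 L, (1 - s ^ (m * p)) ^ (b m + c m) ∧
      (BL.map fun m => 1 - s ^ m).prod = (1 - s) *
        (∏ m ∈ Finset.Ico 1 L, (1 - s ^ m) ^ b m) *
        ∏ m ∈ Finset.Ico 1 L, (1 - s ^ (m * p)) ^ c m ∧
      (CL.map fun m => 1 - s ^ m).prod =
        (1 - s) * ∏ m ∈ Finset.Ico 1 L, (1 - s ^ m) ^ c m by
    obtain ⟨Y, EL, BL, CL, h1, h2⟩ := h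
    refine ⟨Y, fun R _ s => ?_⟩
    obtain ⟨k1, k2, k3⟩ := h1 R s
    obtain ⟨l1, l2, l3⟩ := h2 R s
    exact ⟨k1.trans l1, k2.trans l2, k3.trans l3⟩
  induction L with
  | zero =>
    refine ⟨one p hp, {p}, {1}, {1}, one_hasDet p hp, fun R _ s => ?_⟩
    simp
  | succ L ih =>
    rcases Nat.eq_zero_or_pos L with hL | hL
    · subst hL
      refine ⟨one p hp, {p}, {1}, {1}, one_hasDet p hp, fun R _ s => ?_⟩
      simp
    · obtain ⟨Y, EL, BL, CL, h1, h2⟩ := ih
      obtain ⟨Z, hZ⟩ := add_deg h1 hL hp (a L) (b L) (c L)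
      refine ⟨Z, _, _, _, hZ, fun R _ s => ?_⟩
      obtain ⟨l1, l2, l3⟩ := h2 R s
      simp only [Multiset.map_add, Multiset.map_replicate, Multiset.prod_add,
        Multiset.prod_replicate, l1, l2, l3, Finset.prod_Ico_succ_top hL]
      refine ⟨?_, ?_, ?_⟩ <;> ring

end PSys

end Pool.Agent.FTO
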