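import Pool.Agent.FTO.G6
import Pool.Agent.FTO.Local

/-!
# FTO: equivariant data on a fibre structure

`A` a matrix on the elements which is compatible with a matrix `AB` on the blocks and a matrix
`AC` on the components. Then `A` is structured (over the sums of `AC` over the fibres) and
`det (level 0 of A) * det AC = det AB`.
-/

set_option autoImplicit false
set_option linter.unusedSectionVars false

open scoped BigOperators
open Matrix

namespace Pool.Agent.FTO

attribute [local instance] Classical.propDecidable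

/-- block sums are transformed by `AB`, constant vectors on the components by `AC` -/
structure Compat {I J R : Type} [Fintype I] [Fintype J] [CommSemiring R] (S : Str I J)
    (A : Matrix I I R) (AB : Matrix S.Bl S.Bl R) (AC : Matrix S.Co S.Co R) : Prop where
  hB : ∀ i b', S.bs (A i) b' = AB (S.blk i) b'
  hC : ∀ a b', (∑ b, if S.cmp b = a then AB b b' else 0) = AC a (S.cmp b')

namespace Compat

section semi

variable {I J R : Type} [Fintype I] [Fintype J] [CommSemiring R]
variable {S : Str I J} {A : Matrix I I R} {AB : Matrix S.Bl S.Bl R} {AC : Matrix S.Co S.Co R}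

theorem bs_vecMul (h : Compat S A AB AC) (v : I → R) (b' : S.Bl) :
    S.bs (v ᵥ* A) b' = ∑ b, S.bs v b * AB b b' := by
  have h1 : S.bs (v ᵥ* A) b' = ∑ i, v i * S.bs (A i) b' := by
    unfold Str.bs
    simp only [Matrix.vecMul, dotProduct, Finset.mul_sum, mul_ite, mul_zero]
    rw [Finset.sum_comm]
    refine Finset.sum_congr rfl fun i _ => ?_
    split_ifs with hb
    · rfl
    · exact Finset.sum_const_zero.symm
  rw [h1]
  simp only [h.hB]
  unfold Str.bs
  simp only [Finset.sum_mul]
  rw [Finset.sum_comm]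
  refine Finset.sum_congr rfl fun i _ => ?_
  rw [Finset.sum_eq_single (S.blk i)]
  · rw [if_pos rfl]
  · intro b _ hb
    rw [if_neg (fun h' => hb h'.symm), zero_mul]
  · intro h'
    exact absurd (Finset.mem_univ _) h'

/-- block sums of the image of a transversal -/
theorem bs_tr (h : Compat S A AB AC) {a : S.Co} {v : I → ℕ} (hv : S.Tr a v) (b' : S.Bl) :
    S.bs ((fun i => ((v i : ℕ) : R)) ᵥ* A) b' = AC a (S.cmp b') := by
  rw [h.bs_vecMul, ← h.hC a b']
  refine Finset.sum_congr rfl fun b _ => ?_
  have hbs : S.bs (fun i => ((v i : ℕ) : R)) b = ((S.bs v b : ℕ) : R) := by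
    unfold Str.bs
    rw [Nat.cast_sum]
    refine Finset.sum_congr rfl fun i _ => ?_
    split_ifs <;> simp
  rw [hbs]
  by_cases hb : S.cmp b = a
  · rw [if_pos hb, hv.1 b hb, Nat.cast_one, one_mul]
  · rw [if_neg hb]
    have : S.bs v b = 0 := by
      unfold Str.bs
      refine Finset.sum_eq_zero fun i _ => ?_
      by_cases hi : S.blk i = b
      · rw [if_pos hi]
        apply hv.2
        rwa [hi]
      · rw [if_neg hi]
    rw [this, Nat.cast_zero, zero_mul]

theorem structured (h : Compat S A AB AC) {Q : Matrix J J R}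
    (hQ : ∀ a j', (∑ a', if S.fib a' = j' then AC a a' else 0) = Q (S.fib a) j') :
    Structured S A Q := by
  rintro j v ⟨a, ha, hv⟩
  refine ⟨?_, ?_⟩
  · intro b b' hb
    rw [h.bs_tr hv, h.bs_tr hv, hb]
  · intro j'
    rw [← ha, ← hQ a j']
    unfold Str.deg
    refine Finset.sum_congr rfl fun a' _ => ?_
    rw [h.bs_tr hv]
    rw [show S.cmp (S.rep a') = a' from Function.surjInv_eq S.sC a']

end semi

section ring

variable {I J R : Type} [Fintype I] [Fintype J] [CommRing R]
variable {S : Str I J} {A : Matrix I I R} {AB : Matrix S.Bl S.Bl R} {AC : Matrix S.Co S.Co R}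

theorem one : Compat S (1 : Matrix I I R) 1 1 := by
  constructor
  · intro i b'
    rw [Matrix.one_apply]
    have : (1 : Matrix I I R) i = Pi.single i 1 := by
      funext j
      rw [Matrix.one_apply, Pi.single_apply]
      simp only [eq_comm]
    rw [this, S.bs_single]
  · intro a b'
    rw [Finset.sum_eq_single b']
    · rw [Matrix.one_apply_eq, Matrix.one_apply]
      simp only [eq_comm]
    · intro b _ hb
      rw [Matrix.one_apply_ne hb, ite_self]
    · intro h
      exact absurd (Finset.mem_univ _) h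

theorem sub {A' : Matrix I I R} {AB' : Matrix S.Bl S.Bl R} {AC' : Matrix S.Co S.Co R}
    (h : Compat S A AB AC) (h' : Compat S A' AB' AC') :
    Compat S (A - A') (AB - AB') (AC - AC') := by
  constructor
  · intro i b'
    rw [Matrix.sub_apply, ← h.hB, ← h'.hB]
    exact S.bs_sub (A i) (A' i) b'
  · intro a b'
    rw [Matrix.sub_apply, ← h.hC, ← h'.hC, ← Finset.sum_sub_distrib]
    refine Finset.sum_congr rfl fun b _ => ?_
    rw [Matrix.sub_apply]
    split_ifs <;> ring

/-- the basis of the block vectors -/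
noncomputable def MB (S : Str I J) (R : Type) [CommRing R] : Matrix S.Bl S.Bl R :=
  of fun b b' => if b = S.rep (S.cmp b) then (if S.cmp b' = S.cmp b then 1 else 0)
    else (if b = b' then 1 else 0)

/-- the coordinates -/
noncomputable def NB (S : Str I J) (R : Type) [CommRing R] : Matrix S.Bl S.Bl R :=
  of fun b b' => if b' = S.rep (S.cmp b') then (if b = b' then 1 else 0)
    else (if b = b' then 1 else 0) - (if b = S.rep (S.cmp b') then 1 else 0)

theorem vec_NB (v : S.Bl → R) (b' : S.Bl) :
    (v ᵥ* NB S R) b' = if b' = S.rep (S.cmp b') then v b' else v b' - v (S.rep (S.cmp b')) := by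
  rw [Matrix.vecMul, dotProduct]
  have h1 : ∀ c : S.Bl, ∑ b, v b * (if b = c then (1 : R) else 0) = v c := by
    intro c
    rw [Finset.sum_eq_single c]
    · rw [if_pos rfl, mul_one]
    · intro b _ hb
      rw [if_neg hb, mul_zero]
    · intro h
      exact absurd (Finset.mem_univ _) h
  by_cases hb : b' = S.rep (S.cmp b')
  · rw [if_pos hb, ← h1 b']
    refine Finset.sum_congr rfl fun b _ => ?_
    rw [NB, of_apply, if_pos hb]
  · rw [if_neg hb, ← h1 b', ← h1 (S.rep (S.cmp b')), ← Finset.sum_sub_distrib]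
    refine Finset.sum_congr rfl fun b _ => ?_
    rw [NB, of_apply, if_neg hb, mul_sub]

theorem MB_mul_NB : MB S R * NB S R = 1 := by
  ext b b'
  have h := vec_NB (S := S) (MB S R b) b'
  have h' : (MB S R * NB S R) b b' = (MB S R b ᵥ* NB S R) b' := rfl
  rw [h', h, Matrix.one_apply]
  have hrr : S.rep (S.cmp (S.rep (S.cmp b'))) = S.rep (S.cmp b') := by rw [S.cmp_rep]
  by_cases hb : b = S.rep (S.cmp b)
  · have hM : ∀ c, MB S R b c = if S.cmp c = S.cmp b then 1 else 0 := by
      intro c
      rw [MB, of_apply, if_pos hb]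
    rw [hM, hM, S.cmp_rep]
    by_cases hb' : b' = S.rep (S.cmp b')
    · rw [if_pos hb']
      by_cases hc : S.cmp b' = S.cmp b
      · rw [if_pos hc, if_pos]
        rw [hb, hb', hc]
      · rw [if_neg hc, if_neg]
        rintro rfl
        exact hc rfl
    · rw [if_neg hb', sub_self, if_neg]
      rintro rfl
      exact hb' hb
  · have hM : ∀ c, MB S R b c = if b = c then 1 else 0 := by
      intro c
      rw [MB, of_apply, if_neg hb]
    have hbr : b ≠ S.rep (S.cmp b') := by
      intro h1
      apply hb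
      rw [h1, S.cmp_rep]
    rw [hM, hM, if_neg hbr, sub_zero, ite_self]

theorem det_conjB (X : Matrix S.Bl S.Bl R) : (MB S R * X * NB S R).det = X.det := by
  rw [Matrix.det_mul, Matrix.det_mul, mul_right_comm, ← Matrix.det_mul, MB_mul_NB,
    Matrix.det_one, one_mul]

theorem conjB_apply (X : Matrix S.Bl S.Bl R) (b b' : S.Bl) :
    (MB S R * X * NB S R) b b' = (MB S R b ᵥ* X ᵥ* NB S R) b' := rfl

theorem MB_vecMul (X : Matrix S.Bl S.Bl R) (b b' : S.Bl) :
    (MB S R b ᵥ* X) b' = if b = S.rep (S.cmp b) then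
      (∑ c, if S.cmp c = S.cmp b then X c b' else 0) else X b b' := by
  rw [Matrix.vecMul, dotProduct]
  by_cases hb : b = S.rep (S.cmp b)
  · rw [if_pos hb]
    refine Finset.sum_congr rfl fun c _ => ?_
    rw [MB, of_apply, if_pos hb]
    split_ifs <;> simp
  · rw [if_neg hb, Finset.sum_eq_single b]
    · rw [MB, of_apply, if_neg hb, if_pos rfl, one_mul]
    · intro c _ hc
      rw [MB, of_apply, if_neg hb, if_neg (fun h => hc h.symm), zero_mul]
    · intro h
      exact absurd (Finset.mem_univ _) h

/-- the chosen blocks are the components -/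
noncomputable def eRep (S : Str I J) : S.Co ≃ {b : S.Bl // b = S.rep (S.cmp b)} where
  toFun := fun a => ⟨S.rep a, by rw [S.cmp_rep]⟩
  invFun := fun b => S.cmp b.1
  left_inv := fun a => S.cmp_rep a
  right_inv := fun b => Subtype.ext b.2.symm

/-- the other blocks are the indices of type `0` -/
noncomputable def eHI (S : Str I J) : S.HI ≃ {b : S.Bl // ¬ b = S.rep (S.cmp b)} where
  toFun := fun i => ⟨S.blk i.1, by
    rcases S.typ_cases i.1 with h' | h' | h' | h'
    · exact absurd i.2 (by rw [h'.1]; decide)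
    · exact h'.2.2
    · exact absurd i.2 (by rw [h'.1]; decide)
    · exact absurd i.2 (by rw [h'.1]; decide)⟩
  invFun := fun b => ⟨S.base b.1, by
    have h1 : S.blk (S.base b.1) = b.1 := S.blk_base b.1
    have h2 : S.base b.1 = S.base (S.blk (S.base b.1)) := by rw [h1]
    have h3 : S.blk (S.base b.1) ≠ S.rep (S.cmp (S.blk (S.base b.1))) := by
      rw [h1]
      exact b.2
    rw [Str.typ, if_neg (not_not.2 h2), if_pos h3]⟩
  left_inv := fun i => by
    apply Subtype.ext
    rcases S.typ_cases i.1 with h' | h' | h' | h'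
    · exact absurd i.2 (by rw [h'.1]; decide)
    · exact h'.2.1.symm
    · exact absurd i.2 (by rw [h'.1]; decide)
    · exact absurd i.2 (by rw [h'.1]; decide)
  right_inv := fun b => Subtype.ext (S.blk_base b.1)

theorem Hb_apply (h : Compat S A AB AC) (i i' : S.HI) :
    S.Hb A i i' = AB (S.blk i.1) (S.blk i'.1) - AB (S.blk i.1) (S.rep (S.cmp (S.blk i'.1))) := by
  have h1 : S.Hb A i i' = (S.CM R * A * S.CI R) i.1 i'.1 := rfl
  rw [h1, S.conj_apply]
  have hi : S.bv (R := R) i.1 = Pi.single i.1 1 := by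
    rcases S.typ_cases i.1 with h' | h' | h' | h'
    · exact absurd i.2 (by rw [h'.1]; decide)
    · rw [Str.bv, if_neg (not_not.2 h'.2.1), if_pos h'.2.2]
    · exact absurd i.2 (by rw [h'.1]; decide)
    · exact absurd i.2 (by rw [h'.1]; decide)
  rw [hi, Matrix.single_one_vecMul]
  rcases S.typ_cases i'.1 with h' | h' | h' | h'
  · exact absurd i'.2 (by rw [h'.1]; decide)
  · rw [Str.co, if_neg (not_not.2 h'.2.1), if_pos h'.2.2]
    exact congrArg₂ _ (h.hB _ _) (h.hB _ _)
  · exact absurd i'.2 (by rw [h'.1]; decide)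
  · exact absurd i'.2 (by rw [h'.1]; decide)

/-- the level `0` determinant -/
theorem det_Hb (h : Compat S A AB AC) : (S.Hb A).det * AC.det = AB.det := by
  have hN : ∀ b b', (MB S R * AB * NB S R) b b' = if b' = S.rep (S.cmp b') then
      (MB S R b ᵥ* AB) b' else (MB S R b ᵥ* AB) b' - (MB S R b ᵥ* AB) (S.rep (S.cmp b')) := by
    intro b b'
    rw [conjB_apply, vec_NB]
  rw [← det_conjB AB, Matrix.twoBlockTriangular_det' _ (fun b => b = S.rep (S.cmp b)), mul_comm]
  · congr 1
    · rw [← Matrix.det_submatrix_equiv_self (eRep S)]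
      congr 1
      ext a a'
      show AC a a' = (MB S R * AB * NB S R) (S.rep a) (S.rep a')
      rw [hN, if_pos (by rw [S.cmp_rep]), MB_vecMul, if_pos (by rw [S.cmp_rep]), S.cmp_rep,
        h.hC, S.cmp_rep]
    · rw [← Matrix.det_submatrix_equiv_self (eHI S)]
      congr 1
      ext i i'
      rw [h.Hb_apply]
      show _ = (MB S R * AB * NB S R) (S.blk i.1) (S.blk i'.1)
      have h1 : ¬ S.blk i.1 = S.rep (S.cmp (S.blk i.1)) := (eHI S i).2
      have h2 : ¬ S.blk i'.1 = S.rep (S.cmp (S.blk i'.1)) := (eHI S i').2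
      rw [hN, if_neg h2, MB_vecMul, if_neg h1, MB_vecMul, if_neg h1]
  · intro b hb b' hb'
    rw [hN, if_neg hb', MB_vecMul, if_pos hb, MB_vecMul, if_pos hb, h.hC, h.hC, S.cmp_rep,
      sub_self]

/-- the level `0` determinant of `1 - A` -/
theorem det_one_sub_Hb (h : Compat S A AB AC) :
    (1 - S.Hb A).det * (1 - AC).det = (1 - AB).det := by
  have h1 : S.Hb (1 - A) = 1 - S.Hb A := by
    unfold Str.Hb
    rw [S.ad_sub, S.ad_one]
    ext i i'
    show (1 : Matrix (S.NI ⊕ (J ⊕ S.HI)) (S.NI ⊕ (J ⊕ S.HI)) R) (Sum.inr (Sum.inr i))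
      (Sum.inr (Sum.inr i')) - _ = (1 : Matrix S.HI S.HI R) i i' - _
    congr 1
    rw [Matrix.one_apply, Matrix.one_apply]
    simp only [Sum.inr.injEq]
  rw [← h1]
  exact (one.sub h).det_Hb

/-- all levels: `det (1 - A)`, `det (1 - Q)`, `det (1 - AB)`, `det (1 - AC)` determine them up to
zero divisors -/
theorem det_levels (h : Compat S A AB AC) {Q : Matrix J J R}
    (hQ : ∀ a j', (∑ a', if S.fib a' = j' then AC a a' else 0) = Q (S.fib a) j') :
    (1 - S.Hb A).det * (1 - AC).det = (1 - AB).det ∧
      (1 - A).det = (1 - S.Nb A).det * ((1 - Q).det * (1 - S.Hb A).det) :=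
  ⟨h.det_one_sub_Hb, det_one_sub (h.structured hQ)⟩

end ring

end Compat

section congr

variable {I J R : Type} [Fintype I] [Fintype J] [CommRing R] {S : Str I J} {P P' : Matrix I I R}

/-- the level `0` does not change if vectors of `MM` are added to the rows -/
theorem Hb_congr (h : ∀ i, S.InM (P i - P' i)) : S.Hb P = S.Hb P' := by
  rw [← sub_eq_zero]
  ext i i'
  have h0 : (S.Hb P - S.Hb P') i i' = (S.CM R * (P - P') * S.CI R) i.1 i'.1 := by
    rw [Matrix.mul_sub, Matrix.sub_mul]
    rfl
  rw [h0, S.conj_apply]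
  have hi : S.bv (R := R) i.1 = Pi.single i.1 1 := by
    rcases S.typ_cases i.1 with h' | h' | h' | h'
    · exact absurd i.2 (by rw [h'.1]; decide)
    · rw [Str.bv, if_neg (not_not.2 h'.2.1), if_pos h'.2.2]
    · exact absurd i.2 (by rw [h'.1]; decide)
    · exact absurd i.2 (by rw [h'.1]; decide)
  rw [hi, Matrix.single_one_vecMul]
  exact (S.inM_iff _).1 (h i.1) i'.1 i'.2

/-- the level `2` does not change if the difference kills the differences of transversals -/
theorem Nb_congr (h : ∀ j v w, S.InL j v → S.InL j w →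
    ((fun i => ((v i : ℕ) : R)) - fun i => ((w i : ℕ) : R)) ᵥ* (P - P') = 0) :
    S.Nb P = S.Nb P' := by
  rw [← sub_eq_zero]
  ext i i'
  have h0 : (S.Nb P - S.Nb P') i i' = (S.CM R * (P - P') * S.CI R) i.1 i'.1 := by
    rw [Matrix.mul_sub, Matrix.sub_mul]
    rfl
  rw [h0, S.conj_apply]
  obtain ⟨v, w, hv, hw, hb⟩ := S.bv_two (R := R) i.2
  rw [hb, h _ v w hv hw]
  exact congrFun (S.coL (R := R)).map_zero i'.1

end congr

/-! ### weighted permutations on the fibre `Unit` -/

namespace PSys

/-- the fibre structure of a system -/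
def str (X : PSys) : Str X.I Unit where
  Bl := X.Bl
  Co := X.Co
  finB := X.finB
  finC := X.finC
  blk := X.blk
  cmp := X.cmp
  fib := fun _ => ()
  sB := X.sB
  sC := X.sC
  sF := fun _ => ⟨X.cmp X.b0, rfl⟩

variable (X : PSys) {R : Type} [CommSemiring R]

/-- block sums of the rows -/
theorem pm_bs (s : R) (i : X.I) (b' : X.Bl) :
    (∑ i', if X.blk i' = b' then (s • pm R X.pI) i i' else 0) = (s • pm R X.pB) (X.blk i) b' := by
  have h1 : ∀ i', (if X.blk i' = b' then (s • pm R X.pI) i i' else 0) =
      if i' = X.pI i then (if X.blk (X.pI i) = b' then s else 0) else 0 := by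
    intro i'
    rw [Matrix.smul_apply, pm, Matrix.of_apply]
    by_cases h : i' = X.pI i
    · rw [if_pos h, h, if_pos rfl, smul_eq_mul, mul_one]
    · have h2 : (if X.pI i = i' then (1 : R) else 0) = 0 := if_neg fun h' => h h'.symm
      rw [if_neg h, h2, smul_zero, ite_self]
  rw [Finset.sum_congr rfl fun i' _ => h1 i', Finset.sum_ite_eq' Finset.univ,
    if_pos (Finset.mem_univ _), Matrix.smul_apply, pm, Matrix.of_apply, X.hB, smul_eq_mul]
  split_ifs <;> simp

/-- sums over the components -/
theorem pm_cs (s : R) (a : X.Co) (b' : X.Bl) :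
    (∑ b, if X.cmp b = a then (s • pm R X.pB) b b' else 0) = (s • pm R X.pC) a (X.cmp b') := by
  obtain ⟨b, rfl⟩ := X.pB.surjective b'
  have h1 : ∀ c, (if X.cmp c = a then (s • pm R X.pB) c (X.pB b) else 0) =
      if c = b then (if X.cmp b = a then s else 0) else 0 := by
    intro c
    rw [Matrix.smul_apply, pm, Matrix.of_apply]
    by_cases h : c = b
    · rw [if_pos h, h, if_pos rfl, smul_eq_mul, mul_one]
    · rw [if_neg h, if_neg (fun h' => h (X.pB.injective h')), smul_zero, ite_self]
  rw [Finset.sum_congr rfl fun c _ => h1 c, Finset.sum_ite_eq' Finset.univ,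
    if_pos (Finset.mem_univ _), Matrix.smul_apply, pm, Matrix.of_apply, X.hC, smul_eq_mul]
  by_cases h : X.cmp b = a
  · rw [if_pos h, if_pos (by rw [h]), mul_one]
  · rw [if_neg h, if_neg (fun h' => h (X.pC.injective h').symm), mul_zero]

/-- sums over all components -/
theorem pm_fs (s : R) (a : X.Co) : (∑ a', (s • pm R X.pC) a a') = s := by
  have h1 : ∀ a', (s • pm R X.pC) a a' = if a' = X.pC a then s else 0 := by
    intro a'
    rw [Matrix.smul_apply, pm, Matrix.of_apply]
    by_cases h : a' = X.pC a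
    · rw [if_pos h, if_pos h.symm, smul_eq_mul, mul_one]
    · rw [if_neg h, if_neg (fun h' => h h'.symm), smul_zero]
  rw [Finset.sum_congr rfl fun a' _ => h1 a', Finset.sum_ite_eq' Finset.univ,
    if_pos (Finset.mem_univ _)]

end PSys

end Pool.Agent.FTO
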