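import Pool.Agent.FTO.NoDiam

/-!
# Covers of graphs without diamonds: the minimal cut
-/

set_option autoImplicit false

namespace Pool.FTO

open Classical in
/-- the states at the cut of the word `a :: l₁ ++ l₂` -/
noncomputable def cut {V W : Type} [Fintype V] [DecidableEq V] [DecidableEq W]
    (E : Matrix V V ℕ) (π : V → W) (a : W) (l₁ l₂ : List W) : Finset V :=
  Finset.univ.filter fun x =>
    (∃ u, mat E π a l₁ u x ≠ 0) ∧ ∃ v, mat E π (l₁.getLastD a) l₂ x v ≠ 0

theorem getLastD_app {W : Type} (a : W) (l₁ l₂ : List W) :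
    (l₁ ++ l₂).getLastD a = l₂.getLastD (l₁.getLastD a) := by
  induction l₁ generalizing a with
  | nil => rfl
  | cons k l ih => rw [List.cons_append, List.getLastD_cons, List.getLastD_cons, ih]

variable {V W : Type} [Fintype V] [DecidableEq V] [Fintype W] [DecidableEq W]

/-- a graph map without diamonds onto `F` such that every path of `F` lifts -/
structure GCover (E : Matrix V V ℕ) (π : V → W) (F : Matrix W W ℕ) : Prop where
  F01 : ∀ j k, F j k ≤ 1
  hom : ∀ u v, E u v ≠ 0 → F (π u) (π v) ≠ 0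
  surj : ∀ j l, Legal F j l → mat E π j l ≠ 0
  diam : ∀ j l u v, mat E π j l u v ≤ 1
  conn : ∀ j k, ∃ l, Legal F j l ∧ l.getLastD j = k

variable {E : Matrix V V ℕ} {π : V → W} {F : Matrix W W ℕ}

omit [Fintype W] in
theorem mem_cut {a : W} {l₁ l₂ : List W} {x : V} : x ∈ cut E π a l₁ l₂ ↔
    (∃ u, mat E π a l₁ u x ≠ 0) ∧ ∃ v, mat E π (l₁.getLastD a) l₂ x v ≠ 0 := by
  simp [cut]

omit [Fintype W] in
theorem exists_of_append_ne {a : W} {l₁ l₂ : List W} {u v : V}
    (h : mat E π a (l₁ ++ l₂) u v ≠ 0) :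
    ∃ x, mat E π a l₁ u x ≠ 0 ∧ mat E π (l₁.getLastD a) l₂ x v ≠ 0 := by
  rw [mat_append, Matrix.mul_apply] at h
  obtain ⟨x, _, hx⟩ := Finset.exists_ne_zero_of_sum_ne_zero h
  exact ⟨x, left_ne_zero_of_mul hx, right_ne_zero_of_mul hx⟩

omit [Fintype W] in
theorem GCover.legal (h : GCover E π F) {j : W} {l : List W} {u v : V}
    (hm : mat E π j l u v ≠ 0) : Legal F j l := by
  induction l generalizing j u with
  | nil => trivial
  | cons k l ih =>
    have h1 := mat_ne_zero_left E π hm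
    rw [mat_cons_apply, if_pos h1] at hm
    obtain ⟨w, _, hw⟩ := Finset.exists_ne_zero_of_sum_ne_zero hm
    have h2 := left_ne_zero_of_mul hw
    have h3 := right_ne_zero_of_mul hw
    refine ⟨?_, ih h3⟩
    have h4 := h.hom u w h2
    rwa [h1, mat_ne_zero_left E π h3] at h4

omit [Fintype W] in
theorem GCover.exists_lift (h : GCover E π F) {j : W} {l : List W} (hl : Legal F j l) :
    ∃ u v, mat E π j l u v ≠ 0 := by
  by_contra hn
  push Not at hn
  exact h.surj j l hl (by ext u v; simpa using hn u v)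

omit [Fintype W] in
theorem GCover.cut_nonempty (h : GCover E π F) {a : W} {l₁ l₂ : List W}
    (hl : Legal F a (l₁ ++ l₂)) : (cut E π a l₁ l₂).Nonempty := by
  obtain ⟨u, v, huv⟩ := h.exists_lift hl
  obtain ⟨x, h1, h2⟩ := exists_of_append_ne huv
  exact ⟨x, mem_cut.mpr ⟨⟨u, h1⟩, ⟨v, h2⟩⟩⟩

variable (E π F) in
/-- a word with a cut which no extension can make smaller -/
structure Magic (a : W) (l₁ l₂ : List W) : Prop where
  legal : Legal F a (l₁ ++ l₂)
  ext : ∀ (b : W) (p s : List W), Legal F b (p ++ (l₁ ++ (l₂ ++ s))) → p.getLastD b = a →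
    cut E π b (p ++ l₁) (l₂ ++ s) = cut E π a l₁ l₂

omit [Fintype W] in
theorem cut_ext_subset {a b : W} {l₁ l₂ p s : List W} (hp : p.getLastD b = a) :
    cut E π b (p ++ l₁) (l₂ ++ s) ⊆ cut E π a l₁ l₂ := by
  intro x hx
  obtain ⟨⟨u, hu⟩, ⟨v, hv⟩⟩ := mem_cut.mp hx
  obtain ⟨y, _, hy⟩ := exists_of_append_ne hu
  obtain ⟨z, hz, _⟩ := exists_of_append_ne hv
  rw [hp] at hy
  rw [getLastD_app, hp] at hz
  exact mem_cut.mpr ⟨⟨y, hy⟩, ⟨z, hz⟩⟩

variable (E π F) in
theorem exists_magic [Nonempty W] : ∃ (a : W) (l₁ l₂ : List W), Magic E π F a l₁ l₂ := by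
  classical
  have hex : ∃ n, ∃ (a : W) (l₁ l₂ : List W), Legal F a (l₁ ++ l₂) ∧
      (cut E π a l₁ l₂).card = n :=
    ⟨_, Classical.arbitrary W, [], [], trivial, rfl⟩
  obtain ⟨a, l₁, l₂, hl, hc⟩ := Nat.find_spec hex
  refine ⟨a, l₁, l₂, hl, fun b p s hleg hp => ?_⟩
  refine Finset.eq_of_subset_of_card_le (cut_ext_subset hp) ?_
  rw [hc]
  exact Nat.find_min' hex ⟨b, p ++ l₁, l₂ ++ s, by rwa [List.append_assoc], rfl⟩

omit [Fintype W] in
theorem GCover.row_sum (h : GCover E π F) {a : W} {l₁ l₂ : List W} (m : Magic E π F a l₁ l₂)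
    {c : List W} (hc : Legal F (l₁.getLastD a) (l₂ ++ (c ++ l₁)))
    (hca : (l₂ ++ c).getLastD (l₁.getLastD a) = a) {x : V} (hx : x ∈ cut E π a l₁ l₂) :
    ∑ y ∈ cut E π a l₁ l₂, mat E π (l₁.getLastD a) (l₂ ++ (c ++ l₁)) x y = 1 := by
  classical
  set j₀ := l₁.getLastD a with hj₀
  set D := cut E π a l₁ l₂ with hD
  set z := l₂ ++ (c ++ l₁) with hz
  have hca' : c.getLastD (l₂.getLastD j₀) = a := by rwa [getLastD_app] at hca
  have hzend : z.getLastD j₀ = j₀ := by
    rw [hz, getLastD_app, getLastD_app, hca']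
  have hl1 := (legal_append F a l₁ l₂).mp m.legal
  have hc1 := (legal_append F j₀ l₂ (c ++ l₁)).mp hc
  have hc2 := (legal_append F _ c l₁).mp hc1.2
  -- rows
  have hrow : ∀ x ∈ D, ∃ y ∈ D, mat E π j₀ z x y ≠ 0 := by
    intro x hx
    have hleg : Legal F a ([] ++ (l₁ ++ (l₂ ++ (c ++ (l₁ ++ l₂))))) := by
      rw [List.nil_append, legal_append, legal_append, legal_append, hca']
      exact ⟨hl1.1, hl1.2, hc2.1, m.legal⟩
    have h1 := m.ext a [] (c ++ (l₁ ++ l₂)) hleg rfl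
    rw [← hD] at h1
    rw [← h1] at hx
    obtain ⟨_, ⟨v, hv⟩⟩ := mem_cut.mp hx
    have h2 : l₂ ++ (c ++ (l₁ ++ l₂)) = z ++ l₂ := by simp [hz]
    rw [h2, List.nil_append] at hv
    obtain ⟨y, hy1, hy2⟩ := exists_of_append_ne hv
    rw [← hj₀] at hy1 hy2
    rw [hzend] at hy2
    refine ⟨y, ?_, hy1⟩
    rw [hD]
    refine mem_cut.mpr ⟨?_, ⟨v, hy2⟩⟩
    have h3 : z = (l₂ ++ c) ++ l₁ := by simp [hz]
    rw [h3] at hy1
    obtain ⟨w, _, hw⟩ := exists_of_append_ne hy1
    rw [hca] at hw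
    exact ⟨w, hw⟩
  have hcol : ∀ y ∈ D, ∃ x ∈ D, mat E π j₀ z x y ≠ 0 := by
    intro y hy
    have hp : (l₁ ++ (l₂ ++ c)).getLastD a = a := by rw [getLastD_app]; exact hca
    have hleg : Legal F a ((l₁ ++ (l₂ ++ c)) ++ (l₁ ++ (l₂ ++ []))) := by
      rw [legal_append, hp, List.append_nil, legal_append, legal_append]
      exact ⟨⟨hl1.1, hl1.2, hc2.1⟩, m.legal⟩
    have h1 := m.ext a (l₁ ++ (l₂ ++ c)) [] hleg hp
    rw [← hD] at h1
    rw [← h1] at hy
    obtain ⟨⟨u, hu⟩, _⟩ := mem_cut.mp hy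
    have h2 : (l₁ ++ (l₂ ++ c)) ++ l₁ = l₁ ++ z := by simp [hz]
    rw [h2] at hu
    obtain ⟨x, hx1, hx2⟩ := exists_of_append_ne hu
    refine ⟨x, ?_, hx2⟩
    rw [hD]
    refine mem_cut.mpr ⟨⟨u, hx1⟩, ?_⟩
    rw [hz] at hx2
    obtain ⟨v, hv, _⟩ := exists_of_append_ne hx2
    exact ⟨v, hv⟩
  -- powers
  set P : Matrix V V ℕ := fun x y => if x ∈ D ∧ y ∈ D then mat E π j₀ z x y else 0 with hP
  let rep : ℕ → List W := fun k => Nat.rec [] (fun _ l => z ++ l) k
  have hrep0 : rep 0 = [] := rfl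
  have hrepS : ∀ k, rep (k + 1) = z ++ rep k := fun _ => rfl
  have hDj : ∀ x ∈ D, π x = j₀ := by
    intro x hx
    obtain ⟨⟨u, hu⟩, _⟩ := mem_cut.mp hx
    exact mat_ne_zero_right E π hu
  have hpow : ∀ k, ∀ x ∈ D, ∀ y, (P ^ k) x y ≤ mat E π j₀ (rep k) x y := by
    intro k
    induction k with
    | zero =>
      intro x hx y
      rw [pow_zero, hrep0, mat_nil, fibP, Matrix.diagonal_apply, Matrix.one_apply, hDj x hx]
      simp
    | succ k ih =>
      intro x hx y
      rw [pow_succ', hrepS, mat_append, hzend, Matrix.mul_apply, Matrix.mul_apply]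
      refine Finset.sum_le_sum fun w _ => ?_
      by_cases hw : w ∈ D
      · refine Nat.mul_le_mul ?_ (ih w hw y)
        simp [hP, hx, hw]
      · simp [hP, hw]
  have hle1 : ∀ k, ∀ x ∈ D, ∀ y, (P ^ k) x y ≤ 1 := fun k x hx y =>
    (hpow k x hx y).trans (h.diam _ _ _ _)
  -- column counts
  let t : ℕ → V → ℕ := fun k y => ∑ x ∈ D, (P ^ k) x y
  have ht0 : ∀ y ∈ D, t 0 y = 1 := by
    intro y hy
    simp only [t, pow_zero, Matrix.one_apply]
    rw [Finset.sum_eq_single y]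
    · simp
    · intro b _ hb
      simp [hb]
    · intro hn
      exact absurd hy hn
  have htS : ∀ k y, t (k + 1) y = ∑ w ∈ D, t k w * P w y := by
    intro k y
    simp only [t, pow_succ, Matrix.mul_apply]
    rw [Finset.sum_comm]
    have h1 : ∀ w, ∑ x ∈ D, (P ^ k) x w * P w y = (∑ x ∈ D, (P ^ k) x w) * P w y :=
      fun w => by rw [Finset.sum_mul]
    simp_rw [h1]
    refine (Finset.sum_subset (Finset.subset_univ D) fun w _ hw => ?_).symm
    simp [hP, hw]
  have ht1 : ∀ k, ∀ y ∈ D, 1 ≤ t k y := by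
    intro k
    induction k with
    | zero =>
      intro y hy
      exact (ht0 y hy).ge
    | succ k ih =>
      intro y hy
      obtain ⟨x, hx, hne⟩ := hcol y hy
      rw [htS]
      have h1 : 1 ≤ t k x * P x y := by
        have h2 : 1 ≤ P x y := by
          simp only [hP, hx, hy, and_self, if_true]
          exact Nat.one_le_iff_ne_zero.mpr hne
        calc 1 = 1 * 1 := rfl
          _ ≤ _ := Nat.mul_le_mul (ih x hx) h2
      exact h1.trans (Finset.single_le_sum (f := fun w => t k w * P w y)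
        (fun _ _ => Nat.zero_le _) hx)
  -- row sums
  have hrs : ∀ w ∈ D, ∑ y ∈ D, P w y = ∑ y ∈ D, mat E π j₀ z w y := by
    intro w hw
    refine Finset.sum_congr rfl fun y hy => ?_
    simp [hP, hw, hy]
  have hr1 : ∀ w ∈ D, 1 ≤ ∑ y ∈ D, P w y := by
    intro w hw
    obtain ⟨y, hy, hne⟩ := hrow w hw
    rw [hrs w hw]
    exact (Nat.one_le_iff_ne_zero.mpr hne).trans
      (Finset.single_le_sum (f := fun y => mat E π j₀ z w y) (fun _ _ => Nat.zero_le _) hy)
  by_contra hne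
  have hx2 : 2 ≤ ∑ y ∈ D, P x y := by
    have h1 := hr1 x hx
    rw [hrs x hx] at h1 ⊢
    omega
  have hS : ∀ k, k ≤ ∑ y ∈ D, t k y := by
    intro k
    induction k with
    | zero => exact Nat.zero_le _
    | succ k ih =>
      have h1 : ∑ y ∈ D, t (k + 1) y = ∑ w ∈ D, t k w * ∑ y ∈ D, P w y := by
        simp_rw [htS]
        rw [Finset.sum_comm]
        exact Finset.sum_congr rfl fun w _ => by rw [Finset.mul_sum]
      rw [h1]
      have h2 : ∑ w ∈ D, (t k w + if w = x then 1 else 0) ≤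
          ∑ w ∈ D, t k w * ∑ y ∈ D, P w y := by
        refine Finset.sum_le_sum fun w hw => ?_
        have h3 := ht1 k w hw
        by_cases hwx : w = x
        · subst hwx
          rw [if_pos rfl]
          calc t k w + 1 ≤ t k w * 2 := by omega
            _ ≤ _ := Nat.mul_le_mul_left _ hx2
        · rw [if_neg hwx, add_zero]
          calc t k w = t k w * 1 := (mul_one _).symm
            _ ≤ _ := Nat.mul_le_mul_left _ (hr1 w hw)
      rw [Finset.sum_add_distrib] at h2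
      have h4 : ∑ w ∈ D, (if w = x then 1 else 0) = 1 := by
        rw [Finset.sum_ite_eq' D x (fun _ => 1)]
        simp [hx]
      omega
  have hbd : ∀ k, ∑ y ∈ D, t k y ≤ D.card * D.card := by
    intro k
    calc ∑ y ∈ D, t k y ≤ ∑ _y ∈ D, D.card := by
          refine Finset.sum_le_sum fun y _ => ?_
          calc t k y ≤ ∑ _x ∈ D, 1 := Finset.sum_le_sum fun x hx => hle1 k x hx y
            _ = D.card := by simp
      _ = D.card * D.card := by simp
  have h5 := (hS (D.card * D.card + 1)).trans (hbd _)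
  omega

end Pool.FTO
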