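import Pool.Agent.FTO.Words

/-!
# Equal growth implies no diamonds
-/

set_option autoImplicit false

namespace Pool.FTO

variable {V W : Type} [Fintype V] [DecidableEq V] [Fintype W] [DecidableEq W]

/-- the word `j :: l` is a path of `F` -/
def Legal (F : Matrix W W ℕ) : W → List W → Prop
  | _, [] => True
  | j, k :: l => F j k ≠ 0 ∧ Legal F k l

instance legalDec (F : Matrix W W ℕ) : (j : W) → (l : List W) → Decidable (Legal F j l)
  | _, [] => isTrue trivial
  | j, k :: l =>
    have := legalDec F k l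
    inferInstanceAs (Decidable (F j k ≠ 0 ∧ Legal F k l))

omit [Fintype W] [DecidableEq W] in
theorem legal_append (F : Matrix W W ℕ) (j : W) (l₁ l₂ : List W) :
    Legal F j (l₁ ++ l₂) ↔ Legal F j l₁ ∧ Legal F (l₁.getLastD j) l₂ := by
  induction l₁ generalizing j with
  | nil => simp [Legal]
  | cons k l ih => simp only [List.cons_append, Legal, ih, List.getLastD_cons, and_assoc]

theorem sumw_legal (F : Matrix W W ℕ) (hF : ∀ j k, F j k ≤ 1) (n : ℕ) (j : W) :
    sumw n (fun l => if Legal F j l then (1 : ℝ) else 0) = ∑ k, ((F ^ n) j k : ℝ) := by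
  induction n generalizing j with
  | zero =>
    simp only [sumw, Legal, pow_zero, Matrix.one_apply]
    simp
  | succ n ih =>
    simp only [sumw]
    have h1 : ∀ k : W, sumw n (fun l => if Legal F j (k :: l) then (1 : ℝ) else 0) =
        (F j k : ℝ) * ∑ m, ((F ^ n) k m : ℝ) := by
      intro k
      rw [← ih k, ← sumw_mul_left]
      refine sumw_congr n fun l _ => ?_
      simp only [Legal]
      rcases Nat.eq_zero_or_pos (F j k) with h | h
      · simp [h]
      · have h2 : F j k = 1 := le_antisymm (hF j k) h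
        simp [h2]
    simp_rw [h1]
    rw [pow_succ']
    simp only [Matrix.mul_apply]
    push_cast
    rw [Finset.sum_comm]
    exact Finset.sum_congr rfl fun k _ => by rw [Finset.mul_sum]

theorem sqrt_sum_le' {ι : Type} (s : Finset ι) (f : ι → ℝ) (hf : ∀ i, 0 ≤ f i) :
    √(∑ i ∈ s, f i) ≤ ∑ i ∈ s, √(f i) := by
  have h1 : ∑ i ∈ s, f i = ∑ i ∈ s, (√(f i)) ^ 2 :=
    Finset.sum_congr rfl fun i _ => (Real.sq_sqrt (hf i)).symm
  rw [h1]
  refine (Real.sqrt_le_sqrt (Finset.sum_sq_le_sq_sum_of_nonneg fun i _ => Real.sqrt_nonneg _)).trans ?_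
  rw [Real.sqrt_sq (Finset.sum_nonneg fun i _ => Real.sqrt_nonneg _)]

theorem sqrt_nat_le (m : ℕ) : √(m : ℝ) ≤ m := by
  rcases Nat.eq_zero_or_pos m with h | h
  · simp [h]
  · rw [Real.sqrt_le_left (by positivity)]
    have h1 : (1 : ℝ) ≤ m := by exact_mod_cast h
    nlinarith

theorem sqrt_nat_le_sub {m : ℕ} (hm : 2 ≤ m) : √(m : ℝ) ≤ m - 1 / 2 := by
  have h1 : (2 : ℝ) ≤ m := by exact_mod_cast hm
  rw [Real.sqrt_le_left (by linarith)]
  nlinarith

variable (E : Matrix V V ℕ) (π : V → W)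

/-- number of lifts starting at `v` -/
noncomputable def lifts (v : V) (l : List W) : ℝ := ∑ v', (mat E π (π v) l v v' : ℝ)

/-- the concave weight -/
noncomputable def yw (n : ℕ) (v : V) : ℝ := sumw n (fun l => √(lifts E π v l))

/-- the concave transfer matrix -/
noncomputable def Zw (m : ℕ) (v v' : V) : ℝ := sumw m (fun l => √(mat E π (π v) l v v' : ℝ))

omit [Fintype W] in
theorem lifts_nonneg (v : V) (l : List W) : 0 ≤ lifts E π v l :=
  Finset.sum_nonneg fun _ _ => Nat.cast_nonneg _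

theorem Zw_nonneg (m : ℕ) (v v' : V) : 0 ≤ Zw E π m v v' :=
  sumw_nonneg _ fun _ => Real.sqrt_nonneg _

theorem yw_nonneg (n : ℕ) (v : V) : 0 ≤ yw E π n v :=
  sumw_nonneg _ fun _ => Real.sqrt_nonneg _

theorem Zw_le (m : ℕ) (v v' : V) : Zw E π m v v' ≤ ((E ^ m) v v' : ℕ) := by
  rw [← sumw_mat E π m v v']
  exact sumw_mono _ fun l => sqrt_nat_le _

theorem Zw_le_sub {m : ℕ} {v v' : V} {l : List W} (hl : l.length = m)
    (h : 2 ≤ mat E π (π v) l v v') : Zw E π m v v' ≤ ((E ^ m) v v' : ℕ) - 1 / 2 := by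
  have h1 := le_sumw (n := m)
    (Q := fun l => (mat E π (π v) l v v' : ℝ) - √(mat E π (π v) l v v' : ℝ))
    (fun l => sub_nonneg.mpr (sqrt_nat_le _)) hl
  have h2 : sumw m (fun l => (mat E π (π v) l v v' : ℝ) - √(mat E π (π v) l v v' : ℝ)) =
      ((E ^ m) v v' : ℕ) - Zw E π m v v' := by
    rw [← sumw_mat E π m v v', Zw]
    have h3 := sumw_sum (Finset.univ : Finset Bool) m (fun b l =>
      if b then (mat E π (π v) l v v' : ℝ) else (-1) * √(mat E π (π v) l v v' : ℝ))
    simp only [Fintype.sum_bool, if_true, Bool.false_eq_true, if_false, sumw_mul_left] at h3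
    rw [sub_eq_add_neg, ← neg_one_mul (sumw m _), ← h3]
    refine sumw_congr _ fun l _ => by ring
  rw [h2] at h1
  have h4 := sqrt_nat_le_sub h
  have h5 : (mat E π (π v) l v v' : ℝ) - √(mat E π (π v) l v v' : ℝ) ≤
      ((E ^ m) v v' : ℕ) - Zw E π m v v' := h1
  linarith

theorem yw_zero (v : V) : yw E π 0 v = 1 := by
  simp only [yw, sumw, lifts, mat_nil, fibP, Matrix.diagonal_apply]
  rw [Finset.sum_eq_single v]
  · simp
  · intro b _ hb
    simp [Ne.symm hb]
  · intro h
    exact absurd (Finset.mem_univ _) h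

omit [Fintype W] in
theorem lifts_append (v : V) (l₁ l₂ : List W) :
    lifts E π v (l₁ ++ l₂) = ∑ v', (mat E π (π v) l₁ v v' : ℝ) * lifts E π v' l₂ := by
  simp only [lifts, mat_append, Matrix.mul_apply]
  push_cast
  rw [Finset.sum_comm]
  refine Finset.sum_congr rfl fun v' _ => ?_
  rw [← Finset.mul_sum]
  by_cases h : mat E π (π v) l₁ v v' = 0
  · simp [h]
  · rw [mat_ne_zero_right E π h]

theorem yw_add (m n : ℕ) (v : V) :
    yw E π (m + n) v ≤ ∑ v', Zw E π m v v' * yw E π n v' := by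
  rw [yw, sumw_add]
  have h1 : ∀ l₁ : List W, sumw n (fun l₂ => √(lifts E π v (l₁ ++ l₂))) ≤
      ∑ v', √(mat E π (π v) l₁ v v' : ℝ) * yw E π n v' := by
    intro l₁
    have h2 : ∀ l₂ : List W, √(lifts E π v (l₁ ++ l₂)) ≤
        ∑ v', √(mat E π (π v) l₁ v v' : ℝ) * √(lifts E π v' l₂) := by
      intro l₂
      rw [lifts_append]
      refine (sqrt_sum_le' _ _ fun i => mul_nonneg (Nat.cast_nonneg _)
        (lifts_nonneg E π _ _)).trans (le_of_eq ?_)
      exact Finset.sum_congr rfl fun v' _ => Real.sqrt_mul (Nat.cast_nonneg _) _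
    refine (sumw_mono n h2).trans (le_of_eq ?_)
    rw [sumw_sum]
    exact Finset.sum_congr rfl fun v' _ => sumw_mul_left _ _ _
  refine (sumw_mono m h1).trans (le_of_eq ?_)
  rw [sumw_sum]
  exact Finset.sum_congr rfl fun v' _ => sumw_mul_right _ _ _

/-- equal growth: there are no diamonds -/
theorem no_diamond [Nonempty V] (F : Matrix W W ℕ) (hF : ∀ j k, F j k ≤ 1)
    (surj : ∀ j l, Legal F j l → mat E π j l ≠ 0)
    (r : V → ℝ) (hr : ∀ v, 0 < r v) (lam : ℝ) (hlam : 0 < lam)
    (hEr : ∀ u, ∑ v, (E u v : ℝ) * r v = lam * r u)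
    (hprim : ∃ q, ∀ x y, 0 < (E ^ q) x y)
    (c : ℝ) (hc : 0 < c) (hcnt : ∀ n, c * lam ^ n ≤ ∑ j, ∑ k, ((F ^ n) j k : ℝ)) :
    ∀ j l u v, mat E π j l u v ≤ 1 := by
  by_contra hcon
  push Not at hcon
  obtain ⟨j₀, l₀, u₀, v₀, h₀⟩ := hcon
  obtain ⟨q, hq⟩ := hprim
  -- from every `x` there is a word of length `T` with two lifts to `v₀`
  have hword : ∀ x : V, ∃ l : List W, l.length = q + l₀.length ∧ 2 ≤ mat E π (π x) l x v₀ := by
    intro x
    have h1 : ∃ l : List W, l.length = q ∧ mat E π (π x) l x u₀ ≠ 0 := by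
      by_contra hn
      push Not at hn
      have h2 : sumw q (fun l => (mat E π (π x) l x u₀ : ℝ)) = 0 := by
        have h3 : sumw q (fun l => (mat E π (π x) l x u₀ : ℝ)) = sumw q (fun _ => (0 : ℝ)) :=
          sumw_congr q fun l hl => by rw [hn l hl]; norm_num
        rw [h3]
        have h4 := sumw_mul_left q (0 : ℝ) (fun _ : List W => (0 : ℝ))
        simpa using h4
      rw [sumw_mat] at h2
      have h5 := hq x u₀
      have h6 : ((E ^ q) x u₀ : ℕ) = 0 := by exact_mod_cast h2
      omega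
    obtain ⟨l, hl, hne⟩ := h1
    refine ⟨l ++ l₀, by rw [List.length_append, hl], ?_⟩
    have h7 : l.getLastD (π x) = j₀ := by
      rw [← mat_ne_zero_right E π hne]
      exact mat_ne_zero_left E π (by omega : mat E π j₀ l₀ u₀ v₀ ≠ 0)
    rw [mat_append, h7, Matrix.mul_apply]
    calc 2 ≤ 1 * mat E π j₀ l₀ u₀ v₀ := by omega
      _ ≤ mat E π (π x) l x u₀ * mat E π j₀ l₀ u₀ v₀ :=
          Nat.mul_le_mul_right _ (Nat.one_le_iff_ne_zero.mpr hne)
      _ ≤ _ := Finset.single_le_sum (f := fun k => mat E π (π x) l x k * mat E π j₀ l₀ k v₀)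
          (fun _ _ => Nat.zero_le _) (Finset.mem_univ u₀)
  set T := q + l₀.length with hT
  have hErn : ∀ n u, ∑ v, ((E ^ n) u v : ℝ) * r v = lam ^ n * r u := by
    intro n
    induction n with
    | zero =>
      intro u
      simp [Matrix.one_apply]
    | succ n ih =>
      intro u
      rw [pow_succ' E n]
      simp only [Matrix.mul_apply]
      push_cast
      simp_rw [Finset.sum_mul]
      rw [Finset.sum_comm]
      have h2 : ∀ w, ∑ v, (E u w : ℝ) * ((E ^ n) w v : ℝ) * r v =
          lam ^ n * ((E u w : ℝ) * r w) := by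
        intro w
        simp_rw [mul_assoc]
        rw [← Finset.mul_sum, ih w]
        ring
      simp_rw [h2]
      rw [← Finset.mul_sum, hEr u]
      ring
  obtain ⟨R, hR0, hR⟩ : ∃ R : ℝ, 0 < R ∧ ∀ v, r v ≤ R := by
    refine ⟨∑ v, r v, ?_, fun v => ?_⟩
    · exact Finset.sum_pos (fun v _ => hr v) Finset.univ_nonempty
    · exact Finset.single_le_sum (fun v _ => (hr v).le) (Finset.mem_univ v)
  obtain ⟨mn, hmn0, hmn⟩ : ∃ m : ℝ, 0 < m ∧ ∀ v, m ≤ r v := by
    obtain ⟨v, hv⟩ := Finite.exists_min r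
    exact ⟨r v, hr v, hv⟩
  set δ : ℝ := min (1 / 2) (1 / 2 * r v₀ / (lam ^ T * R)) with hδ
  have hlT : 0 < lam ^ T := pow_pos hlam T
  have hδ0 : 0 < δ := lt_min (by norm_num) (div_pos (mul_pos (by norm_num) (hr v₀))
    (mul_pos hlT hR0))
  have hδ1 : δ ≤ 1 / 2 := min_le_left _ _
  set ρ : ℝ := (1 - δ) * lam ^ T with hρ
  have hρ0 : 0 < ρ := mul_pos (by linarith) hlT
  have hZ : ∀ v, ∑ v', Zw E π T v v' * r v' ≤ ρ * r v := by
    intro v
    obtain ⟨l, hl, h2⟩ := hword v
    have h3 : ∀ v', Zw E π T v v' * r v' ≤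
        ((E ^ T) v v' : ℝ) * r v' - (if v' = v₀ then 1 / 2 * r v₀ else 0) := by
      intro v'
      by_cases h : v' = v₀
      · subst h
        have h4 := Zw_le_sub E π hl h2
        have h5 := mul_le_mul_of_nonneg_right h4 (hr v').le
        rw [if_pos rfl]
        linarith
      · rw [if_neg h, sub_zero]
        exact mul_le_mul_of_nonneg_right (by exact_mod_cast Zw_le E π T v v') (hr v').le
    have h6 : ∑ v', Zw E π T v v' * r v' ≤ lam ^ T * r v - 1 / 2 * r v₀ := by
      refine (Finset.sum_le_sum fun v' _ => h3 v').trans (le_of_eq ?_)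
      rw [Finset.sum_sub_distrib, hErn]
      simp
    have h7 : δ * (lam ^ T * r v) ≤ 1 / 2 * r v₀ := by
      calc δ * (lam ^ T * r v) ≤ (1 / 2 * r v₀ / (lam ^ T * R)) * (lam ^ T * R) := by
            apply mul_le_mul (min_le_right _ _) _ (mul_nonneg hlT.le (hr v).le)
              (div_nonneg (mul_nonneg (by norm_num) (hr v₀).le) (mul_pos hlT hR0).le)
            exact mul_le_mul_of_nonneg_left (hR v) hlT.le
        _ = 1 / 2 * r v₀ := div_mul_cancel₀ _ (mul_pos hlT hR0).ne'
    calc _ ≤ lam ^ T * r v - 1 / 2 * r v₀ := h6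
      _ ≤ lam ^ T * r v - δ * (lam ^ T * r v) := by linarith
      _ = ρ * r v := by rw [hρ]; ring
  have hy : ∀ k v, yw E π (T * k) v ≤ mn⁻¹ * ρ ^ k * r v := by
    intro k
    induction k with
    | zero =>
      intro v
      rw [Nat.mul_zero, yw_zero, pow_zero, mul_one]
      rw [inv_mul_eq_div, le_div_iff₀ hmn0, one_mul]
      exact hmn v
    | succ k ih =>
      intro v
      have h8 : T * (k + 1) = T + T * k := by ring
      rw [h8]
      refine (yw_add E π T (T * k) v).trans ?_
      calc ∑ v', Zw E π T v v' * yw E π (T * k) v'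
          ≤ ∑ v', Zw E π T v v' * (mn⁻¹ * ρ ^ k * r v') :=
            Finset.sum_le_sum fun v' _ => mul_le_mul_of_nonneg_left (ih v') (Zw_nonneg E π _ _ _)
        _ = mn⁻¹ * ρ ^ k * ∑ v', Zw E π T v v' * r v' := by
            rw [Finset.mul_sum]
            exact Finset.sum_congr rfl fun v' _ => by ring
        _ ≤ mn⁻¹ * ρ ^ k * (ρ * r v) := mul_le_mul_of_nonneg_left (hZ v)
            (mul_nonneg (inv_nonneg.mpr hmn0.le) (pow_nonneg hρ0.le k))
        _ = mn⁻¹ * ρ ^ (k + 1) * r v := by ring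
  -- legal words have lifts
  have hlow : ∀ n, ∑ j, ∑ k, ((F ^ n) j k : ℝ) ≤ ∑ v, yw E π n v := by
    intro n
    have h9 : ∀ j : W, ∑ k, ((F ^ n) j k : ℝ) ≤ ∑ v, if π v = j then yw E π n v else 0 := by
      intro j
      rw [← sumw_legal F hF n j]
      have h10 : ∀ l : List W, (if Legal F j l then (1 : ℝ) else 0) ≤
          ∑ v, if π v = j then √(lifts E π v l) else 0 := by
        intro l
        by_cases hL : Legal F j l
        · rw [if_pos hL]
          have h11 := surj j l hL
          obtain ⟨u, v, huv⟩ : ∃ u v, mat E π j l u v ≠ 0 := by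
            by_contra hn
            push Not at hn
            exact h11 (by ext u v; simpa using hn u v)
          have h12 := mat_ne_zero_left E π huv
          have h13 : (1 : ℝ) ≤ lifts E π u l := by
            rw [lifts, h12]
            calc (1 : ℝ) ≤ (mat E π j l u v : ℝ) := by
                  exact_mod_cast Nat.one_le_iff_ne_zero.mpr huv
              _ ≤ _ := Finset.single_le_sum (f := fun v' => (mat E π j l u v' : ℝ))
                  (fun _ _ => Nat.cast_nonneg _) (Finset.mem_univ v)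
          calc (1 : ℝ) ≤ √(lifts E π u l) := Real.one_le_sqrt.mpr h13
            _ = if π u = j then √(lifts E π u l) else 0 := by rw [if_pos h12]
            _ ≤ _ := Finset.single_le_sum
                (f := fun v => if π v = j then √(lifts E π v l) else 0)
                (fun v _ => by split_ifs; exacts [Real.sqrt_nonneg _, le_rfl])
                (Finset.mem_univ u)
        · rw [if_neg hL]
          exact Finset.sum_nonneg fun v _ => by split_ifs; exacts [Real.sqrt_nonneg _, le_rfl]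
      refine (sumw_mono n h10).trans (le_of_eq ?_)
      rw [sumw_sum]
      refine Finset.sum_congr rfl fun v _ => ?_
      by_cases h : π v = j
      · simp only [h, if_true]
        rfl
      · simp only [h, if_false]
        have h4 := sumw_mul_left n (0 : ℝ) (fun _ : List W => (0 : ℝ))
        simpa using h4
    refine (Finset.sum_le_sum fun j _ => h9 j).trans (le_of_eq ?_)
    rw [Finset.sum_comm]
    exact Finset.sum_congr rfl fun v _ => by simp
  -- contradiction
  have hfin : ∀ k : ℕ, c ≤ (mn⁻¹ * ∑ v, r v) * (1 - δ) ^ k := by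
    intro k
    have h14 : c * lam ^ (T * k) ≤ mn⁻¹ * ρ ^ k * ∑ v, r v := by
      refine (hcnt (T * k)).trans ((hlow (T * k)).trans ?_)
      rw [Finset.mul_sum]
      exact Finset.sum_le_sum fun v _ => hy k v
    have h15 : ρ ^ k = (1 - δ) ^ k * lam ^ (T * k) := by
      rw [hρ, mul_pow, ← pow_mul]
    rw [h15] at h14
    have h16 : c * lam ^ (T * k) ≤ (mn⁻¹ * ∑ v, r v) * (1 - δ) ^ k * lam ^ (T * k) := by
      linarith
    exact le_of_mul_le_mul_right h16 (pow_pos hlam _)
  have hlim : Filter.Tendsto (fun k : ℕ => (mn⁻¹ * ∑ v, r v) * (1 - δ) ^ k) Filter.atTop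
      (nhds ((mn⁻¹ * ∑ v, r v) * 0)) :=
    (tendsto_pow_atTop_nhds_zero_of_lt_one (by linarith) (by linarith)).const_mul _
  have := ge_of_tendsto' hlim hfin
  rw [mul_zero] at this
  linarith

end Pool.FTO
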