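import Pool.Agent.SSE.HNum

/-!
# FTO, numbers: the hub series and the loops (helper23)

`exists_num`: `(1 - H) ∏ (1 - c) = (1 - HQ) (1 - |hN|) (1 - |hH|) ∏ (1 - l) ∏_(p < L) (1 - X^p)^(m p)`
for all large `L`; `m` does not depend on `L`.
-/

set_option autoImplicit false

open scoped BigOperators
open PowerSeries

namespace Pool.Agent.FTO

open Pool.Agent.SSE Pool.Agent.SSE.HN Pool.Agent.SSE.PF

/-- `|h|` coefficientwise -/
noncomputable def absS (h : ℤ⟦X⟧) : ℤ⟦X⟧ := PowerSeries.mk fun n => |coeff n h|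

/-- positive part, coefficientwise -/
noncomputable def posS (h : ℤ⟦X⟧) : ℤ⟦X⟧ := PowerSeries.mk fun n => max (coeff n h) 0

/-- negative part, coefficientwise -/
noncomputable def negS (h : ℤ⟦X⟧) : ℤ⟦X⟧ := PowerSeries.mk fun n => max (-coeff n h) 0

@[simp] lemma coeff_absS (h : ℤ⟦X⟧) (n : ℕ) : coeff n (absS h) = |coeff n h| := coeff_mk _ _
@[simp] lemma coeff_posS (h : ℤ⟦X⟧) (n : ℕ) : coeff n (posS h) = max (coeff n h) 0 := coeff_mk _ _
@[simp] lemma coeff_negS (h : ℤ⟦X⟧) (n : ℕ) : coeff n (negS h) = max (-coeff n h) 0 := coeff_mk _ _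

lemma posS_sub_negS (h : ℤ⟦X⟧) : posS h - negS h = h := by
  ext n
  rw [map_sub, coeff_posS, coeff_negS]
  rcases le_total 0 (coeff n h) with h1 | h1
  · rw [max_eq_left h1, max_eq_right (by omega)]; ring
  · rw [max_eq_right h1, max_eq_left (by omega)]; ring

lemma posS_add_negS (h : ℤ⟦X⟧) : posS h + negS h = absS h := by
  ext n
  rw [map_add, coeff_posS, coeff_negS, coeff_absS]
  rcases le_total 0 (coeff n h) with h1 | h1
  · rw [max_eq_left h1, max_eq_right (by omega), abs_of_nonneg h1]; ring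
  · rw [max_eq_right h1, max_eq_left (by omega), abs_of_nonpos h1]; ring

lemma nn_posS (h : ℤ⟦X⟧) : Nn (posS h) := fun d => by rw [coeff_posS]; exact le_max_right _ _
lemma nn_negS (h : ℤ⟦X⟧) : Nn (negS h) := fun d => by rw [coeff_negS]; exact le_max_right _ _
lemma nn_absS (h : ℤ⟦X⟧) : Nn (absS h) := fun d => by rw [coeff_absS]; exact abs_nonneg _

/-- loop series for the radii `r < ρ`: order `≥ L`, value `≤ 1` at `ρ` and `< 1` at `r` -/
structure LoopS (L : ℕ) (r ρ : ℝ) (l : ℤ⟦X⟧) : Prop where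
  nn : Nn l
  low : ∀ d < L, coeff d l = 0
  fin : HasN ρ (toRS l)
  le : val ρ l ≤ 1
  lt : val r l < 1

/-- order `≥ L` and coefficients bounded by `μ ^ d` -/
def SmallS (L : ℕ) (μ : ℝ) (h : ℤ⟦X⟧) : Prop :=
  (∀ d < L, coeff d h = 0) ∧ ∀ d, |((coeff d h : ℤ) : ℝ)| ≤ μ ^ d

/-- renewal bound -/
theorem geo_bound {ρ : ℝ} (hρ : 0 < ρ) {l : ℤ⟦X⟧} (hl : Nn l) (h0 : coeff 0 l = 0)
    (hN : HasN ρ (toRS l)) (h1 : val ρ l ≤ 1) (n : ℕ) : ((coeff n (geo l) : ℤ) : ℝ) ≤ (ρ ^ n)⁻¹ := by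
  induction n using Nat.strong_induction_on with
  | _ n ih =>
    rcases Nat.eq_zero_or_pos n with hn | hn
    · subst hn
      rw [coeff_zero_geo h0]
      simp
    · have e1 : coeff n (geo l) = coeff n (l * geo l) := by
        conv_lhs => rw [geo_eq h0]
        rw [map_add, coeff_one, if_neg (by omega), zero_add]
      rw [e1, coeff_mul_succ h0, Int.cast_sum]
      have hS : ∑ k ∈ Finset.range n, ((coeff (k + 1) l : ℤ) : ℝ) * ρ ^ (k + 1) ≤ 1 := by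
        have h2 := sum_le_nS hρ.le hl hN (Finset.range (n + 1))
        rw [Finset.sum_range_succ', h0, Int.cast_zero, zero_mul, add_zero, nS_eq_val hρ.le hl] at h2
        exact h2.trans h1
      calc ∑ k ∈ Finset.range n, ((coeff (k + 1) l * coeff (n - 1 - k) (geo l) : ℤ) : ℝ)
          ≤ ∑ k ∈ Finset.range n, (ρ ^ n)⁻¹ * (((coeff (k + 1) l : ℤ) : ℝ) * ρ ^ (k + 1)) := by
            refine Finset.sum_le_sum fun k hk => ?_
            rw [Finset.mem_range] at hk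
            have h3 := ih (n - 1 - k) (by omega)
            have h4 : (0 : ℝ) ≤ ((coeff (k + 1) l : ℤ) : ℝ) := by exact_mod_cast hl (k + 1)
            have h5 : (ρ ^ n)⁻¹ * ρ ^ (k + 1) = (ρ ^ (n - 1 - k))⁻¹ := by
              have h6 : ρ ^ n = ρ ^ (n - 1 - k) * ρ ^ (k + 1) := by
                rw [← pow_add]; congr 1; omega
              rw [h6]
              field_simp
            rw [Int.cast_mul]
            calc ((coeff (k + 1) l : ℤ) : ℝ) * ((coeff (n - 1 - k) (geo l) : ℤ) : ℝ)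
                ≤ ((coeff (k + 1) l : ℤ) : ℝ) * (ρ ^ (n - 1 - k))⁻¹ :=
                  mul_le_mul_of_nonneg_left h3 h4
              _ = _ := by rw [← h5]; ring
        _ = (ρ ^ n)⁻¹ * ∑ k ∈ Finset.range n, ((coeff (k + 1) l : ℤ) : ℝ) * ρ ^ (k + 1) := by
            rw [Finset.mul_sum]
        _ ≤ (ρ ^ n)⁻¹ * 1 := mul_le_mul_of_nonneg_left hS (inv_nonneg.2 (pow_nonneg hρ.le n))
        _ = _ := mul_one _

lemma loop_lt {r ρ : ℝ} (hr : 0 ≤ r) (hrρ : r < ρ) {l : ℤ⟦X⟧} (hl : Nn l) (h0 : coeff 0 l = 0)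
    (hN : HasN ρ (toRS l)) (h1 : val ρ l ≤ 1) : val r l < 1 := by
  by_cases h : l = 0
  · subst h
    have : val r (0 : ℤ⟦X⟧) = 0 := by
      unfold val ev
      simp
    rw [this]; exact one_pos
  · obtain ⟨k, hk⟩ : ∃ k, coeff k l ≠ 0 := by
      by_contra hcon
      push Not at hcon
      exact h (PowerSeries.ext fun n => by rw [hcon n, map_zero])
    have hk1 : 1 ≤ k := by
      rcases Nat.eq_zero_or_pos k with h2 | h2
      · subst h2; exact absurd h0 hk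
      · exact h2
    have hk2 : 1 ≤ coeff k l := by
      have := hl k
      omega
    exact lt_of_lt_of_le (val_lt_val hr hrρ le_rfl hl hN hk1 hk2) h1

/-- the hub series during the divisions -/
structure HubS (x r : ℝ) (h : ℤ⟦X⟧) : Prop where
  nn : Nn h
  c0 : coeff 0 h = 0
  fin : HasN r (toRS h)
  gt : 1 < val r h
  one : val x h = 1

lemma val_dv' {r : ℝ} (hr : 0 ≤ r) {h s : ℤ⟦X⟧} (hs : Nn s) (s0 : coeff 0 s = 0)
    (hsN : HasN r (toRS s)) (hs1 : val r s < 1) (hN : HasN r (toRS h)) :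
    HasN r (toRS (dv h s)) ∧ (1 - val r (dv h s)) * (1 - val r s) = 1 - val r h := by
  have h1 : HasN r (toRS (dv h s)) := hasN_dv hr s0 hsN (by rw [nS_eq_val hr hs]; exact hs1) hN
  refine ⟨h1, ?_⟩
  have h2 := congrArg (val r) (one_sub_dv_mul (h := h) s0)
  rw [val_mul hr (fin_one.sub hr h1) (fin_one.sub hr hsN), val_sub hr fin_one h1,
    val_sub hr fin_one hsN, val_sub hr fin_one hN, val_one] at h2
  exact h2

lemma HubS.div {x r : ℝ} (hx : 0 < x) (hxr : x < r) {h s : ℤ⟦X⟧} (H : HubS x r h) (hs : Nn s)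
    (s0 : coeff 0 s = 0) (hsN : HasN r (toRS s)) (hs1 : val r s < 1) (hle : Nn (h - s)) :
    HubS x r (dv h s) := by
  have hr : 0 < r := hx.trans hxr
  obtain ⟨h1, h2⟩ := val_dv' hr.le hs s0 hsN hs1 H.fin
  have hs1x : val x s < 1 := by
    refine lt_of_le_of_lt ?_ hs1
    have e1 := nS_eq_val hx.le hs
    have e2 := nS_eq_val hr.le hs
    rw [← e1, ← e2]
    exact nS_mono hx.le hxr.le hsN
  obtain ⟨h3, h4⟩ := val_dv' hx.le hs s0 (hsN.mono hx.le hxr.le) hs1x (H.fin.mono hx.le hxr.le)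
  refine ⟨nn_dv s0 hs hle, coeff_zero_dv s0 H.c0, h1, ?_, ?_⟩
  · have h5 := H.gt
    have h6 : 0 < 1 - val r s := by linarith
    by_contra hcon
    push Not at hcon
    have : 0 ≤ (1 - val r (dv h s)) * (1 - val r s) := mul_nonneg (by linarith) h6.le
    linarith
  · have h5 := H.one
    have h6 : 0 < 1 - val x s := by linarith
    rw [h5, sub_self] at h4
    rcases mul_eq_zero.1 h4 with h7 | h7
    · linarith
    · linarith

lemma HubS.low {x r : ℝ} (hx : 0 < x) (hxr : x < r) (hr1 : r < 1) {h : ℤ⟦X⟧} (H : HubS x r h)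
    (P : ℕ) : HubS x r (lowS h P) := by
  have hr : 0 < r := hx.trans hxr
  have hx1 : x < 1 := hxr.trans hr1
  have hf := low_facts H.nn H.c0 P
  have h1 := val_sqf hr.le hr1 H.fin (lm h) (Nat.zero_le P)
  have h2 := val_sqf hx.le hx1 (H.fin.mono hx.le hxr.le) (lm h) (Nat.zero_le P)
  rw [← lowS_eq] at h1 h2
  have p1 := pv_pos hr.le hr1 (lm h) 0 P
  have p2 := pv_pos hx.le hx1 (lm h) 0 P
  refine ⟨hf.1, hf.2.1 0 (Nat.zero_le _), ?_, ?_, ?_⟩
  · rw [lowS_eq]; exact fin_sqf hr.le hr1 H.fin (lm h) (Nat.zero_le P)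
  · have h5 := H.gt
    by_contra hcon
    push Not at hcon
    have : 0 ≤ (1 - val r (lowS h P)) * pv r (lm h) 0 P := mul_nonneg (by linarith) p1.le
    linarith
  · rw [H.one, sub_self] at h2
    rcases mul_eq_zero.1 h2 with h7 | h7
    · linarith
    · linarith

lemma low_loop {r ρ : ℝ} (hr : 0 ≤ r) (hrρ : r < ρ) (hρ1 : ρ < 1) {c : ℤ⟦X⟧} (hc : Nn c)
    (h0 : coeff 0 c = 0) (hcN : HasN ρ (toRS c)) (h1 : val ρ c ≤ 1) {L : ℕ} (hL : 1 ≤ L) :
    LoopS L r ρ (lowS c (L - 1)) := by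
  have hρ : 0 ≤ ρ := hr.trans hrρ.le
  have hf := low_facts hc h0 (L - 1)
  have h2 : HasN ρ (toRS (lowS c (L - 1))) := by
    rw [lowS_eq]; exact fin_sqf hρ hρ1 hcN (lm c) (Nat.zero_le _)
  have h3 := val_sqf hρ hρ1 hcN (lm c) (Nat.zero_le (L - 1))
  rw [← lowS_eq] at h3
  have h4 := pv_pos hρ hρ1 (lm c) 0 (L - 1)
  have h5 : val ρ (lowS c (L - 1)) ≤ 1 := by
    by_contra hcon
    push Not at hcon
    have : (1 - val ρ (lowS c (L - 1))) * pv ρ (lm c) 0 (L - 1) < 0 :=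
      mul_neg_of_neg_of_pos (by linarith) h4
    linarith
  exact ⟨hf.1, fun d hd => hf.2.1 d (by omega), h2, h5, loop_lt hr hrρ hf.1 (hf.2.1 0 (by omega)) h2 h5⟩

lemma prod_lows (cs : List ℤ⟦X⟧) (P : ℕ) :
    (cs.map fun c => 1 - lowS c P).prod * Pr (nums cs) 0 P = (cs.map fun c => 1 - c).prod := by
  induction cs with
  | nil => simp [nums, Pr]
  | cons c cs ih =>
    have e : Pr (nums (c :: cs)) 0 P = Pr (lm c) 0 P * Pr (nums cs) 0 P := by
      have : nums (c :: cs) = fun q => lm c q + nums cs q := by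
        funext q; simp [nums]
      rw [this, Pr_add]
    rw [e, List.map_cons, List.prod_cons, List.map_cons, List.prod_cons, ← ih, ← low_prod c P]
    ring

lemma Pr_Ico (m : ℕ → ℕ) {L : ℕ} (hL : 1 ≤ L) :
    Pr m 0 (L - 1) = ∏ p ∈ Finset.Ico 1 L, (1 - X ^ p : ℤ⟦X⟧) ^ m p := by
  unfold Pr
  have h := Finset.prod_Ico_add' (fun p => (1 - X ^ p : ℤ⟦X⟧) ^ m p) 0 (L - 1) 1
  rw [Nat.sub_add_cancel hL, zero_add] at h
  exact h

/-- one division by a series which is not larger than the hub series -/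
lemma div_step {L : ℕ} (hL : 1 ≤ L) {h s : ℤ⟦X⟧} (hh : ∀ d < L, coeff d h = 0) (hs : Nn s)
    (hsl : ∀ d < L, coeff d s = 0) (hle : ∀ d, L ≤ d → coeff d s ≤ coeff d h) :
    Nn (h - s) ∧ (∀ d < L, coeff d (dv h s) = 0) ∧
      ∀ d, coeff d h - coeff d s ≤ coeff d (dv h s) := by
  have h1 : Nn (h - s) := by
    intro d
    rw [map_sub]
    rcases Nat.lt_or_ge d L with hd | hd
    · rw [hh d hd, hsl d hd, sub_zero]
    · have := hle d hd
      omega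
  have s0 : coeff 0 s = 0 := hsl 0 (by omega)
  refine ⟨h1, fun d hd => ?_, fun d => ?_⟩
  · rw [(coeff_dv_of_lt (hh 0 (by omega)) hL hsl).1 d hd, hh d hd]
  · have := dv_ge s0 hs h1 d
    rw [map_sub, map_sub] at this
    linarith

lemma abs_loop {μ ρ r : ℝ} (hμ : 0 < μ) (hr : 0 ≤ r) (hrρ : r < ρ) {q : ℝ} (hq : 0 < q)
    (hq1 : q < 1) (hqq : q * q = μ * ρ) {L : ℕ} (hL : 1 ≤ L) (hqL : q ^ L ≤ 1 - q) {h : ℤ⟦X⟧}
    (hh : SmallS L μ h) : LoopS L r ρ (absS h) := by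
  have hρ : 0 < ρ := lt_of_le_of_lt hr hrρ
  have hlow : ∀ d < L, coeff d (absS h) = 0 := fun d hd => by rw [coeff_absS, hh.1 d hd, abs_zero]
  have hb : ∀ d, ‖coeff d (toRS (absS h))‖ * ρ ^ d ≤ q ^ L * q ^ d := by
    intro d
    rw [norm_coeff (nn_absS h), coeff_absS, Int.cast_abs]
    rcases Nat.lt_or_ge d L with hd | hd
    · rw [hh.1 d hd]
      simp only [Int.cast_zero, abs_zero, zero_mul]
      positivity
    · calc |((coeff d h : ℤ) : ℝ)| * ρ ^ d ≤ μ ^ d * ρ ^ d :=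
            mul_le_mul_of_nonneg_right (hh.2 d) (pow_nonneg hρ.le d)
        _ = q ^ d * q ^ d := by rw [← mul_pow, ← hqq, mul_pow]
        _ ≤ q ^ L * q ^ d :=
            mul_le_mul_of_nonneg_right (pow_le_pow_of_le_one hq.le hq1.le hd) (pow_nonneg hq.le d)
  have hsum : Summable fun d => q ^ L * q ^ d :=
    (summable_geometric_of_lt_one hq.le hq1).mul_left _
  have hN : HasN ρ (toRS (absS h)) :=
    Summable.of_nonneg_of_le (fun d => mul_nonneg (norm_nonneg _) (pow_nonneg hρ.le d)) hb hsum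
  have hv : val ρ (absS h) ≤ 1 := by
    rw [← nS_eq_val hρ.le (nn_absS h)]
    unfold nS
    calc ∑' n, ‖coeff n (toRS (absS h))‖ * ρ ^ n ≤ ∑' n, q ^ L * q ^ n := hN.tsum_le_tsum hb hsum
      _ = q ^ L * (1 - q)⁻¹ := by rw [tsum_mul_left, tsum_geometric_of_lt_one hq.le hq1]
      _ ≤ (1 - q) * (1 - q)⁻¹ :=
          mul_le_mul_of_nonneg_right hqL (inv_nonneg.2 (by linarith))
      _ = 1 := mul_inv_cancel₀ (by linarith)
  exact ⟨nn_absS h, hlow, hN, hv, loop_lt hr hrρ (nn_absS h) (hlow 0 (by omega)) hN hv⟩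

/-- isolation of a polynomial part of the hub series -/
lemma exists_iso {x0 ρ0 : ℝ} {b : ℕ} (hx0 : 0 < x0) (hxρ : x0 < ρ0)
    {H : ℤ⟦X⟧} (hH : Nn H) (hH0 : coeff 0 H = 0) (hHN : HasN ρ0 (toRS H)) (hH1 : val x0 H = 1)
    (hHb : ∀ d, b ≤ d → 1 ≤ coeff d H) {ρ' : ℝ} (h1 : x0 < ρ') (h2 : ρ' < ρ0) :
    ∃ (D : ℕ) (ρ : ℝ), b + 2 ≤ D ∧ x0 < ρ ∧ ρ < ρ' ∧ val ρ (tr (D + 1) H) = 1 := by
  have hρ0 : 0 < ρ0 := hx0.trans hxρ
  have h0 : 0 < ρ' := hx0.trans h1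
  have hHb' : 1 ≤ coeff (b + 1) H := hHb _ (by omega)
  set ε := val ρ' H - 1 with hε
  have hεpos : 0 < ε := by
    have := val_lt_val hx0.le h1 h2.le hH hHN (k := b + 1) (by omega) hHb'
    rw [hε]; linarith
  have hV : 0 < val ρ0 H := by
    have := val_lt_val hx0.le hxρ le_rfl hH hHN (k := b + 1) (by omega) hHb'
    linarith
  have hq1 : ρ' / ρ0 < 1 := (div_lt_one hρ0).2 h2
  have hq0 : 0 ≤ ρ' / ρ0 := div_nonneg h0.le hρ0.le
  obtain ⟨D1, hD1⟩ := exists_pow_lt_of_lt_one (by positivity : 0 < ε / val ρ0 H) hq1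
  set D := D1 + b + 2 with hD
  have hDε : (ρ' / ρ0) ^ (D + 1) * val ρ0 H < ε := by
    have h3 : (ρ' / ρ0) ^ (D + 1) ≤ (ρ' / ρ0) ^ D1 := pow_le_pow_of_le_one hq0 hq1.le (by omega)
    have h4 : (ρ' / ρ0) ^ (D + 1) < ε / val ρ0 H := h3.trans_lt hD1
    rwa [lt_div_iff₀ hV] at h4
  have htn : Nn (tr (D + 1) H) := nn_tr hH _
  have htF : ∀ x, Fin' x (tr (D + 1) H) := fun x => hasN_tr x _ _
  have hfin : ∀ d, D < d → coeff d (tr (D + 1) H) = 0 := by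
    intro d hd
    rw [coeff_tr, if_neg (by omega)]
  obtain ⟨ρs, r1, r2, r3⟩ := exists_root h1 hfin (by
    have h3 : Nn (H - tr (D + 1) H) := by
      intro d
      rw [map_sub, coeff_tr]
      split_ifs
      · rw [sub_self]
      · rw [sub_zero]; exact hH d
    have hN0 : Fin' x0 H := hHN.mono hx0.le hxρ.le
    have h4 : Fin' x0 (H - tr (D + 1) H) := hN0.sub hx0.le (htF x0)
    have h5 := coeff_mul_pow_le hx0.le h3 h4 (D + 1)
    have h6 : (1 : ℝ) ≤ ((coeff (D + 1) (H - tr (D + 1) H) : ℤ) : ℝ) := by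
      have : (1 : ℤ) ≤ coeff (D + 1) (H - tr (D + 1) H) := by
        rw [map_sub, coeff_tr, if_neg (by omega), sub_zero]
        exact hHb _ (by omega)
      exact_mod_cast this
    have h7 : 0 < x0 ^ (D + 1) := pow_pos hx0 _
    have h8 : x0 ^ (D + 1) ≤ val x0 (H - tr (D + 1) H) := by
      refine le_trans ?_ h5
      nlinarith
    rw [val_sub hx0.le hN0 (htF x0), hH1] at h8
    linarith) (by
    have h3 := val_tail h0 h2.le hH hHN D
    linarith)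
  exact ⟨D, ρs, by omega, r1, r2, r3⟩

/-- **numbers** -/
theorem exists_num {x0 ρ0 θ : ℝ} {b : ℕ} (hx0 : 0 < x0) (hxρ : x0 < ρ0) (hρ : ρ0 < 1) (hθ : θ < 1)
    {H : ℤ⟦X⟧} (hH : Nn H) (hH0 : coeff 0 H = 0) (hHN : HasN ρ0 (toRS H)) (hH1 : val x0 H = 1)
    (hHb : ∀ d, b ≤ d → 1 ≤ coeff d H) {cs : List ℤ⟦X⟧} (hcs : ∀ c ∈ cs, OwnC ρ0 θ c)
    {μ : ℝ} (hμ0 : 0 < μ) (hμ : μ * x0 < 1) :
    ∃ (m : ℕ → ℕ) (r ρ c : ℝ) (n1 : ℕ), x0 < r ∧ r < ρ ∧ ρ < ρ0 ∧ μ * ρ < 1 ∧ 0 < c ∧ 3 ≤ n1 ∧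
      ∀ L, n1 ≤ L → ∀ hN hH : ℤ⟦X⟧, SmallS L μ hN → SmallS L μ hH →
      ∃ (ls : List ℤ⟦X⟧) (HQ : ℤ⟦X⟧), (∀ l ∈ ls, LoopS L r ρ l) ∧ X ^ L + X ^ (L + 1) ∈ ls ∧
        LoopS L r ρ (absS hN) ∧ LoopS L r ρ (absS hH) ∧ Nn HQ ∧ (∀ d < L, coeff d HQ = 0) ∧
        HasN r (toRS HQ) ∧ 1 < val r HQ ∧ val x0 HQ = 1 ∧
        (∀ d, L ≤ d → c * (ρ ^ d)⁻¹ ≤ ((coeff d HQ : ℤ) : ℝ)) ∧
        (1 - HQ) * ((1 - absS hN) * (1 - absS hH)) * (ls.map fun l => 1 - l).prod *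
          ∏ p ∈ Finset.Ico 1 L, (1 - X ^ p) ^ m p = (1 - H) * (cs.map fun c => 1 - c).prod := by
  have hρ0 : 0 < ρ0 := hx0.trans hxρ
  -- the radius ρ'
  have hxμ : x0 < μ⁻¹ := by rw [lt_inv_comm₀ hx0 hμ0, ← one_div, lt_div_iff₀ hx0]; exact hμ
  obtain ⟨ρ', h1, h2⟩ : ∃ ρ', x0 < ρ' ∧ ρ' < min ρ0 μ⁻¹ := exists_between (lt_min hxρ hxμ)
  have h2a : ρ' < ρ0 := h2.trans_le (min_le_left _ _)
  have h2b : ρ' < μ⁻¹ := h2.trans_le (min_le_right _ _)
  obtain ⟨D, ρ, hD, hρ1, hρ2, hρv⟩ := exists_iso hx0 hxρ hH hH0 hHN hH1 hHb h1 h2a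
  have hρpos : 0 < ρ := hx0.trans hρ1
  have hρρ0 : ρ < ρ0 := hρ2.trans h2a
  have hρlt1 : ρ < 1 := hρρ0.trans hρ
  have hμρ : μ * ρ < 1 := by
    have : ρ < μ⁻¹ := hρ2.trans h2b
    calc μ * ρ < μ * μ⁻¹ := mul_lt_mul_of_pos_left this hμ0
      _ = 1 := mul_inv_cancel₀ hμ0.ne'
  obtain ⟨r, hr1, hr2⟩ := exists_between hρ1
  have hrpos : 0 < r := hx0.trans hr1
  have hrlt1 : r < 1 := hr2.trans hρlt1
  -- the isolated part
  set s := tr (D + 1) H with hs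
  have hsn : Nn s := nn_tr hH _
  have hsF : ∀ x, HasN x (toRS s) := fun x => hasN_tr x _ _
  have hs0 : coeff 0 s = 0 := by rw [hs, coeff_tr, if_pos (by omega), hH0]
  have hsb : 1 ≤ coeff (b + 1) s := by rw [hs, coeff_tr, if_pos (by omega)]; exact hHb _ (by omega)
  have hsb' : 1 ≤ coeff (b + 1 + 1) s := by
    rw [hs, coeff_tr, if_pos (by omega)]; exact hHb _ (by omega)
  have hsfin : ∀ d, D < d → coeff d s = 0 := fun d hd => by rw [hs, coeff_tr, if_neg (by omega)]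
  obtain ⟨κ, hκ, hgrow⟩ := growth hs0 hsn (b := b + 1) (N := D) (by omega) hsb hsb' hsfin hρpos (by
    rw [val_of_finite hsfin, Finset.sum_range_succ', hs0] at hρv
    simpa using hρv.symm.le)
  have hHs : Nn (H - s) := by
    intro d
    rw [map_sub, hs, coeff_tr]
    split_ifs
    · rw [sub_self]
    · rw [sub_zero]; exact hH d
  have hsr : val r s < 1 := by
    have := val_lt_val hrpos.le hr2 le_rfl hsn (hsF ρ) (k := b + 1) (by omega) hsb
    linarith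
  set H1 := dv H s with hH1def
  have hHub0 : HubS x0 r H := by
    refine ⟨hH, hH0, hHN.mono hrpos.le (hr2.trans hρρ0).le, ?_, hH1⟩
    have := val_lt_val hx0.le hr1 (hr2.trans hρρ0).le hH hHN (k := b + 1) (by omega)
      (hHb _ (by omega))
    linarith
  have hHub1 : HubS x0 r H1 := hHub0.div hx0 hr1 hsn hs0 (hsF r) hsr hHs
  -- growth of H1
  set N1 := D + 1 + (b + 1) * (b + 1) with hN1
  set κ1 := κ * ρ ^ (D + 1) with hκ1
  have hκ1pos : 0 < κ1 := mul_pos hκ (pow_pos hρpos _)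
  have hgr1 : ∀ d, N1 ≤ d → κ1 * (ρ ^ d)⁻¹ ≤ ((coeff d H1 : ℤ) : ℝ) := by
    intro d hd
    have e1 : coeff (D + 1) (H - s) * coeff (d - (D + 1)) (geo s) ≤ coeff d H1 := by
      rw [hH1def]
      unfold dv
      rw [coeff_mul]
      have hmem : (D + 1, d - (D + 1)) ∈ Finset.HasAntidiagonal.antidiagonal d := by
        rw [Finset.HasAntidiagonal.mem_antidiagonal]; omega
      exact Finset.single_le_sum
        (f := fun p : ℕ × ℕ => coeff p.1 (H - s) * coeff p.2 (geo s))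
        (fun p _ => mul_nonneg (hHs _) (nn_geo hs0 hsn _)) hmem
    have e2 : 1 ≤ coeff (D + 1) (H - s) := by
      rw [map_sub, hs, coeff_tr, if_neg (by omega), sub_zero]; exact hHb _ (by omega)
    have e3 : coeff (d - (D + 1)) (geo s) ≤ coeff d H1 := by
      refine le_trans ?_ e1
      have := nn_geo hs0 hsn (d - (D + 1))
      nlinarith
    have e4 := hgrow (d - (D + 1)) (by omega)
    have e5 : ρ ^ d = ρ ^ (d - (D + 1)) * ρ ^ (D + 1) := by rw [← pow_add]; congr 1; omega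
    have e6 : ((coeff (d - (D + 1)) (geo s) : ℤ) : ℝ) ≤ ((coeff d H1 : ℤ) : ℝ) := by exact_mod_cast e3
    refine le_trans ?_ e6
    rw [hκ1, e5]
    have p1 : 0 < ρ ^ (d - (D + 1)) := pow_pos hρpos _
    have p2 : 0 < ρ ^ (D + 1) := pow_pos hρpos _
    rw [mul_inv, show κ * ρ ^ (D + 1) * ((ρ ^ (d - (D + 1)))⁻¹ * (ρ ^ (D + 1))⁻¹) =
      κ / ρ ^ (d - (D + 1)) by field_simp, div_le_iff₀ p1]
    exact e4
  -- sizes
  set q := Real.sqrt (μ * ρ) with hq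
  have hμρ0 : 0 < μ * ρ := mul_pos hμ0 hρpos
  have hqpos : 0 < q := Real.sqrt_pos.2 hμρ0
  have hqq : q * q = μ * ρ := Real.mul_self_sqrt hμρ0.le
  have hq1 : q < 1 := by
    by_contra hcon
    push Not at hcon
    nlinarith
  obtain ⟨n2, hn2⟩ := exists_pow_lt_of_lt_one (by linarith : 0 < 1 - q) hq1
  obtain ⟨n3, hn3⟩ := exists_pow_lt_of_lt_one (by positivity : 0 < min (κ1 / 4) (1 / 2)) hρlt1
  obtain ⟨n4, hn4⟩ := exists_pow_lt_of_lt_one (by positivity : 0 < κ1 / 4) hμρ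
  refine ⟨fun p => lm H1 p + (lm s p + nums cs p), r, ρ, κ1 / 4, N1 + n2 + n3 + n4 + 3, hr1, hr2,
    hρρ0, hμρ, by positivity, by omega, ?_⟩
  intro L hL hN hHs' hNs hHss
  have hL1 : 1 ≤ L := by omega
  have hqL : q ^ L ≤ 1 - q := by
    refine le_trans (pow_le_pow_of_le_one hqpos.le hq1.le (by omega : n2 ≤ L)) hn2.le
  have hρL : ∀ d, L ≤ d → ρ ^ d ≤ κ1 / 4 ∧ ρ ^ d ≤ 1 / 2 := by
    intro d hd
    have : ρ ^ d ≤ ρ ^ n3 := pow_le_pow_of_le_one hρpos.le hρlt1.le (by omega)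
    exact ⟨this.trans (hn3.le.trans (min_le_left _ _)), this.trans (hn3.le.trans (min_le_right _ _))⟩
  have hμL : ∀ d, L ≤ d → (μ * ρ) ^ d ≤ κ1 / 4 := by
    intro d hd
    exact le_trans (pow_le_pow_of_le_one hμρ0.le hμρ.le (by omega : n4 ≤ d)) hn4.le
  -- the loops
  have hlN := abs_loop hμ0 hrpos.le hr2 hqpos hq1 hqq hL1 hqL hNs
  have hlH := abs_loop hμ0 hrpos.le hr2 hqpos hq1 hqq hL1 hqL hHss
  set l1 : ℤ⟦X⟧ := X ^ L + X ^ (L + 1) with hl1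
  have hl1n : Nn l1 := (nn_X_pow L).add (nn_X_pow (L + 1))
  have hl1low : ∀ d < L, coeff d l1 = 0 := by
    intro d hd
    rw [hl1, map_add, coeff_X_pow, coeff_X_pow, if_neg (by omega), if_neg (by omega), add_zero]
  have hl1le : ∀ d, coeff d l1 ≤ 1 := by
    intro d
    rw [hl1, map_add, coeff_X_pow, coeff_X_pow]
    split_ifs <;> omega
  have hl1N : ∀ x, HasN x (toRS l1) := by
    intro x
    rw [hl1, map_add]
    have a1 := fin_X_pow (ρ := x) L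
    have a2 := fin_X_pow (ρ := x) (L + 1)
    unfold Fin' at a1 a2
    unfold HasN at *
    refine Summable.of_norm_bounded (a1.norm.add a2.norm) fun n => ?_
    rw [map_add, norm_mul, norm_norm]
    calc ‖coeff n (toRS (X ^ L)) + coeff n (toRS (X ^ (L + 1)))‖ * ‖x ^ n‖
        ≤ (‖coeff n (toRS (X ^ L))‖ + ‖coeff n (toRS (X ^ (L + 1)))‖) * ‖x ^ n‖ :=
          mul_le_mul_of_nonneg_right (norm_add_le _ _) (norm_nonneg _)
      _ = _ := by rw [add_mul, norm_mul, norm_mul, norm_norm, norm_norm]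
  have hl1v : val ρ l1 ≤ 1 := by
    rw [hl1, val_add hρpos.le (fin_X_pow L) (fin_X_pow (L + 1)), val_X_pow, val_X_pow]
    have a1 := (hρL L le_rfl).2
    have a2 := (hρL (L + 1) (by omega)).2
    linarith
  have hl1S : LoopS L r ρ l1 := ⟨hl1n, hl1low, hl1N ρ, hl1v,
    loop_lt hrpos.le hr2 hl1n (hl1low 0 (by omega)) (hl1N ρ) hl1v⟩
  have hBS : LoopS L r ρ (lowS s (L - 1)) := low_loop hrpos.le hr2 hρlt1 hsn hs0 (hsF ρ) hρv.le hL1
  have hcS : ∀ c ∈ cs, LoopS L r ρ (lowS c (L - 1)) := by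
    intro c hc
    have hO := hcs c hc
    refine low_loop hrpos.le hr2 hρlt1 hO.nn hO.c0 (hO.N.mono hρpos.le hρρ0.le) ?_ hL1
    rw [← nS_eq_val hρpos.le hO.nn]
    exact (nS_mono hρpos.le hρρ0.le hO.N).trans (hO.le.trans hθ.le)
  -- the hub series
  set A := lowS H1 (L - 1) with hA
  have hfA := low_facts hHub1.nn hHub1.c0 (L - 1)
  have hHubA : HubS x0 r A := hHub1.low hx0 hr1 hrlt1 (L - 1)
  have hAlow : ∀ d < L, coeff d A = 0 := fun d hd => hfA.2.1 d (by omega)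
  have hAgr : ∀ d, L ≤ d → κ1 * (ρ ^ d)⁻¹ ≤ ((coeff d A : ℤ) : ℝ) := by
    intro d hd
    refine (hgr1 d (by omega)).trans ?_
    have := hfA.2.2.2.high d (by omega)
    rw [← lowS_eq] at this
    exact_mod_cast this
  -- real inequalities
  have hin : ∀ d, L ≤ d → 1 ≤ κ1 / 4 * (ρ ^ d)⁻¹ ∧ μ ^ d ≤ κ1 / 4 * (ρ ^ d)⁻¹ := by
    intro d hd
    have p1 : 0 < ρ ^ d := pow_pos hρpos d
    have a1 := (hρL d hd).1
    have a2 := hμL d hd
    rw [mul_pow] at a2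
    rw [← div_eq_mul_inv, le_div_iff₀ p1, le_div_iff₀ p1]
    exact ⟨by linarith, a2⟩
  have hA1 : ∀ d, L ≤ d → coeff d l1 ≤ coeff d A := by
    intro d hd
    have a1 := hAgr d hd
    have a2 := (hin d hd).1
    have a3 : (0 : ℝ) ≤ κ1 / 4 * (ρ ^ d)⁻¹ := by positivity
    have a4 : (1 : ℝ) ≤ ((coeff d A : ℤ) : ℝ) := by
      have : κ1 * (ρ ^ d)⁻¹ = 4 * (κ1 / 4 * (ρ ^ d)⁻¹) := by ring
      linarith
    have a5 : (1 : ℤ) ≤ coeff d A := by exact_mod_cast a4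
    exact (hl1le d).trans a5
  obtain ⟨s1, s2, s3⟩ := div_step hL1 hAlow hl1n hl1low hA1
  set A1 := dv A l1 with hA1def
  have hHubA1 : HubS x0 r A1 :=
    hHubA.div hx0 hr1 hl1n (hl1low 0 (by omega)) (hl1N r) hl1S.lt s1
  have hA1gr : ∀ d, L ≤ d → κ1 * (ρ ^ d)⁻¹ - 1 ≤ ((coeff d A1 : ℤ) : ℝ) := by
    intro d hd
    have a1 := hAgr d hd
    have a2 : ((coeff d A : ℤ) : ℝ) - ((coeff d l1 : ℤ) : ℝ) ≤ ((coeff d A1 : ℤ) : ℝ) := by
      exact_mod_cast s3 d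
    have a3 : ((coeff d l1 : ℤ) : ℝ) ≤ 1 := by exact_mod_cast hl1le d
    linarith
  have habs : ∀ {h : ℤ⟦X⟧}, SmallS L μ h → ∀ d, ((coeff d (absS h) : ℤ) : ℝ) ≤ μ ^ d := by
    intro h hh d
    rw [coeff_absS, Int.cast_abs]
    exact hh.2 d
  obtain ⟨t1, t2, t3⟩ := div_step hL1 s2 hlN.nn hlN.low (fun d hd => by
    have a1 := hA1gr d hd
    have a2 := habs hNs d
    have a3 := hin d hd
    have a4 : ((coeff d (absS hN) : ℤ) : ℝ) ≤ ((coeff d A1 : ℤ) : ℝ) := by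
      have : κ1 * (ρ ^ d)⁻¹ = 4 * (κ1 / 4 * (ρ ^ d)⁻¹) := by ring
      linarith
    exact_mod_cast a4)
  set A2 := dv A1 (absS hN) with hA2def
  have hHubA2 : HubS x0 r A2 := hHubA1.div hx0 hr1 hlN.nn (hlN.low 0 (by omega))
    (hlN.fin.mono hrpos.le hr2.le) hlN.lt t1
  have hA2gr : ∀ d, L ≤ d → κ1 * (ρ ^ d)⁻¹ - 1 - μ ^ d ≤ ((coeff d A2 : ℤ) : ℝ) := by
    intro d hd
    have a1 := hA1gr d hd
    have a2 : ((coeff d A1 : ℤ) : ℝ) - ((coeff d (absS hN) : ℤ) : ℝ) ≤ ((coeff d A2 : ℤ) : ℝ) := by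
      exact_mod_cast t3 d
    have a3 := habs hNs d
    linarith
  obtain ⟨u1, u2, u3⟩ := div_step hL1 t2 hlH.nn hlH.low (fun d hd => by
    have a1 := hA2gr d hd
    have a2 := habs hHss d
    have a3 := hin d hd
    have a4 : ((coeff d (absS hHs') : ℤ) : ℝ) ≤ ((coeff d A2 : ℤ) : ℝ) := by
      have : κ1 * (ρ ^ d)⁻¹ = 4 * (κ1 / 4 * (ρ ^ d)⁻¹) := by ring
      linarith
    exact_mod_cast a4)
  set A3 := dv A2 (absS hHs') with hA3def
  have hHubA3 : HubS x0 r A3 := hHubA2.div hx0 hr1 hlH.nn (hlH.low 0 (by omega))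
    (hlH.fin.mono hrpos.le hr2.le) hlH.lt u1
  refine ⟨l1 :: lowS s (L - 1) :: cs.map (fun c => lowS c (L - 1)), A3, ?_, by simp, hlN, hlH,
    hHubA3.nn, u2, hHubA3.fin, hHubA3.gt, hHubA3.one, ?_, ?_⟩
  · intro l hl
    rw [List.mem_cons, List.mem_cons, List.mem_map] at hl
    rcases hl with rfl | rfl | ⟨c, hc, rfl⟩
    · exact hl1S
    · exact hBS
    · exact hcS c hc
  · intro d hd
    have a1 := hA2gr d hd
    have a2 : ((coeff d A2 : ℤ) : ℝ) - ((coeff d (absS hHs') : ℤ) : ℝ) ≤ ((coeff d A3 : ℤ) : ℝ) := by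
      exact_mod_cast u3 d
    have a3 := habs hHss d
    have a4 := hin d hd
    have : κ1 * (ρ ^ d)⁻¹ = 4 * (κ1 / 4 * (ρ ^ d)⁻¹) := by ring
    linarith
  · have e1 : (1 - A3) * (1 - absS hHs') = 1 - A2 := one_sub_dv_mul (hlH.low 0 (by omega))
    have e2 : (1 - A2) * (1 - absS hN) = 1 - A1 := one_sub_dv_mul (hlN.low 0 (by omega))
    have e3 : (1 - A1) * (1 - l1) = 1 - A := one_sub_dv_mul (hl1low 0 (by omega))
    have e4 : (1 - A) * Pr (lm H1) 0 (L - 1) = 1 - H1 := low_prod H1 (L - 1)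
    have e5 : (1 - H1) * (1 - s) = 1 - H := one_sub_dv_mul hs0
    have e6 : (1 - lowS s (L - 1)) * Pr (lm s) 0 (L - 1) = 1 - s := low_prod s (L - 1)
    have e7 := prod_lows cs (L - 1)
    rw [← Pr_Ico _ hL1, Pr_add, Pr_add, List.map_cons, List.prod_cons, List.map_cons,
      List.prod_cons, List.map_map]
    have e8 : (List.map ((fun l => 1 - l) ∘ fun c => lowS c (L - 1)) cs).prod =
        (cs.map fun c => 1 - lowS c (L - 1)).prod := rfl
    rw [e8, ← e7, ← e5, ← e6, ← e4, ← e3, ← e2, ← e1]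
    ring

end Pool.Agent.FTO
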