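import Pool.Agent.FTO.Num1

/-!
# FTO, numbers: exponents of a series `f ∈ 1 + X ℤ⟦X⟧` (helper23)

`Tw f n` = coefficient of `- X f' / f` (power sums, for `det (1 - X M)` the traces of `M ^ n`);
`ex f n` : `f = ∏ (1 - X ^ n) ^ (ex f n)`.
-/

set_option autoImplicit false

open scoped BigOperators
open PowerSeries

namespace Pool.Agent.FTO

open Pool.Agent.SSE Pool.Agent.SSE.HN Pool.Agent.SSE.PF

/-- `- X f' / f` -/
noncomputable def TS' (f : ℤ⟦X⟧) : ℤ⟦X⟧ := -(X * d⁄dX ℤ f) * invOfUnit f 1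

/-- the power sums -/
noncomputable def Tw (f : ℤ⟦X⟧) (n : ℕ) : ℤ := coeff n (TS' f)

lemma inv_mul' {f : ℤ⟦X⟧} (hf : coeff 0 f = 1) : f * invOfUnit f 1 = 1 := by
  refine mul_invOfUnit _ _ ?_
  rw [← coeff_zero_eq_constantCoeff_apply, hf]
  rfl

lemma TS'_mul {f : ℤ⟦X⟧} (hf : coeff 0 f = 1) : TS' f * f = -(X * d⁄dX ℤ f) := by
  unfold TS'
  rw [mul_assoc, mul_comm (invOfUnit f 1) f, inv_mul' hf, mul_one]

lemma coeff_zero_mul' {f g : ℤ⟦X⟧} (hf : coeff 0 f = 1) (hg : coeff 0 g = 1) :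
    coeff 0 (f * g) = 1 := by
  rw [coeff_zero_eq_constantCoeff_apply, map_mul, ← coeff_zero_eq_constantCoeff_apply,
    ← coeff_zero_eq_constantCoeff_apply, hf, hg, one_mul]

lemma TS'_unique {f g : ℤ⟦X⟧} (hf : coeff 0 f = 1) (h : g * f = -(X * d⁄dX ℤ f)) : TS' f = g := by
  have h1 : TS' f * f = g * f := by rw [TS'_mul hf, h]
  calc TS' f = TS' f * (f * invOfUnit f 1) := by rw [inv_mul' hf, mul_one]
    _ = (TS' f * f) * invOfUnit f 1 := by ring
    _ = (g * f) * invOfUnit f 1 := by rw [h1]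
    _ = g * (f * invOfUnit f 1) := by ring
    _ = g := by rw [inv_mul' hf, mul_one]

lemma TS'_mul_eq {f g : ℤ⟦X⟧} (hf : coeff 0 f = 1) (hg : coeff 0 g = 1) :
    TS' (f * g) = TS' f + TS' g := by
  refine TS'_unique (coeff_zero_mul' hf hg) ?_
  rw [Derivation.leibniz, smul_eq_mul, smul_eq_mul]
  have h1 := TS'_mul hf
  have h2 := TS'_mul hg
  linear_combination g * h1 + f * h2

lemma Tw_mul {f g : ℤ⟦X⟧} (hf : coeff 0 f = 1) (hg : coeff 0 g = 1) (n : ℕ) :
    Tw (f * g) n = Tw f n + Tw g n := by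
  unfold Tw
  rw [TS'_mul_eq hf hg, map_add]

lemma Tw_one (n : ℕ) : Tw 1 n = 0 := by
  have h1 : TS' (1 : ℤ⟦X⟧) = 0 := by
    refine TS'_unique (by simp) ?_
    simp
  unfold Tw
  rw [h1, map_zero]

lemma coeff_zero_pow' {f : ℤ⟦X⟧} (hf : coeff 0 f = 1) (k : ℕ) : coeff 0 (f ^ k) = 1 := by
  induction k with
  | zero => simp
  | succ k ih => rw [pow_succ]; exact coeff_zero_mul' ih hf

lemma Tw_pow {f : ℤ⟦X⟧} (hf : coeff 0 f = 1) (k n : ℕ) : Tw (f ^ k) n = k * Tw f n := by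
  induction k with
  | zero => simp [Tw_one]
  | succ k ih =>
    rw [pow_succ, Tw_mul (coeff_zero_pow' hf k) hf, ih]
    push_cast
    ring

lemma coeff_zero_prod' {α : Type*} (s : Finset α) (F : α → ℤ⟦X⟧) (h : ∀ a ∈ s, coeff 0 (F a) = 1) :
    coeff 0 (∏ a ∈ s, F a) = 1 := by
  classical
  induction s using Finset.induction_on with
  | empty => simp
  | insert a s ha ih =>
    rw [Finset.prod_insert ha]
    exact coeff_zero_mul' (h a (Finset.mem_insert_self a s))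
      (ih fun b hb => h b (Finset.mem_insert_of_mem hb))

lemma Tw_prod {α : Type*} (s : Finset α) (F : α → ℤ⟦X⟧) (h : ∀ a ∈ s, coeff 0 (F a) = 1) (n : ℕ) :
    Tw (∏ a ∈ s, F a) n = ∑ a ∈ s, Tw (F a) n := by
  classical
  induction s using Finset.induction_on with
  | empty => simp [Tw_one]
  | insert a s ha ih =>
    rw [Finset.prod_insert ha, Finset.sum_insert ha,
      Tw_mul (h a (Finset.mem_insert_self a s))
        (coeff_zero_prod' s F fun b hb => h b (Finset.mem_insert_of_mem hb)),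
      ih fun b hb => h b (Finset.mem_insert_of_mem hb)]

/-- the power sums up to `n` only depend on the coefficients up to `n` -/
lemma Tw_congr {f g : ℤ⟦X⟧} (hf : coeff 0 f = 1) (hg : coeff 0 g = 1) {P : ℕ} (h : Cg P f g) :
    ∀ n ≤ P, Tw f n = Tw g n := by
  intro n
  induction n using Nat.strong_induction_on with
  | _ n ih =>
    intro hn
    have key : ∀ {f : ℤ⟦X⟧}, coeff 0 f = 1 →
        Tw f n = coeff n (-(X * d⁄dX ℤ f)) - ∑ k ∈ Finset.range n, Tw f k * coeff (n - k) f := by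
      intro f hf
      have h1 := congrArg (coeff n) (TS'_mul hf)
      rw [coeff_mul, Finset.Nat.sum_antidiagonal_eq_sum_range_succ
        (fun i j => coeff i (TS' f) * coeff j f), Finset.sum_range_succ, Nat.sub_self, hf,
        mul_one] at h1
      unfold Tw
      linarith
    rw [key hf, key hg]
    have e1 : coeff n (-(X * d⁄dX ℤ f)) = coeff n (-(X * d⁄dX ℤ g)) := by
      rcases Nat.eq_zero_or_pos n with h0 | h0
      · subst h0; simp
      · obtain ⟨k, rfl⟩ := Nat.exists_eq_succ_of_ne_zero h0.ne'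
        rw [map_neg, map_neg, Nat.succ_eq_add_one, coeff_succ_X_mul, coeff_succ_X_mul,
          coeff_derivative, coeff_derivative, h _ hn]
    rw [e1]
    congr 1
    refine Finset.sum_congr rfl fun k hk => ?_
    rw [Finset.mem_range] at hk
    rw [ih k hk (by omega), h (n - k) (by omega)]

lemma coeff_zero_one_sub_X_pow {k : ℕ} (hk : 1 ≤ k) : coeff 0 (1 - X ^ k : ℤ⟦X⟧) = 1 := by
  rw [map_sub, coeff_X_pow, if_neg (by omega)]; simp

lemma Tw_one_sub_X_pow {k : ℕ} (hk : 1 ≤ k) {n : ℕ} (hn : 0 < n) :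
    Tw (1 - X ^ k) n = if k ∣ n then (k : ℤ) else 0 := by
  have h1 : TS' (1 - X ^ k : ℤ⟦X⟧) =
      PowerSeries.mk fun n => if k ∣ n ∧ n ≠ 0 then (k : ℤ) else 0 := by
    refine TS'_unique (coeff_zero_one_sub_X_pow hk) ?_
    ext d
    rw [mul_sub, mul_one, map_sub, coeff_mul_X_pow', coeff_mk, map_neg]
    have e1 : coeff d (X * d⁄dX ℤ (1 - X ^ k : ℤ⟦X⟧)) = if d = k then -(k : ℤ) else 0 := by
      rcases Nat.eq_zero_or_pos d with h0 | h0
      · subst h0
        rw [if_neg (by omega)]; simp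
      · obtain ⟨j, rfl⟩ := Nat.exists_eq_succ_of_ne_zero h0.ne'
        rw [Nat.succ_eq_add_one, coeff_succ_X_mul, coeff_derivative, map_sub, coeff_one,
          if_neg (by omega), coeff_X_pow, zero_sub]
        split_ifs with h2
        · rw [← h2]; push_cast; ring
        · simp
    rw [e1]
    by_cases hd : k ≤ d
    · rw [if_pos hd, coeff_mk]
      by_cases hdk : d = k
      · subst hdk
        rw [if_pos ⟨dvd_rfl, by omega⟩, if_neg (by simp), if_pos rfl]
        ring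
      · have h3 : (k ∣ d ∧ d ≠ 0) ↔ (k ∣ d - k ∧ d - k ≠ 0) := by
          constructor
          · rintro ⟨h4, _⟩
            exact ⟨Nat.dvd_sub h4 dvd_rfl, by omega⟩
          · rintro ⟨h4, _⟩
            refine ⟨?_, by omega⟩
            have := Nat.dvd_add h4 (dvd_refl k)
            rwa [Nat.sub_add_cancel hd] at this
        rw [if_neg hdk]
        by_cases h5 : k ∣ d ∧ d ≠ 0
        · rw [if_pos h5, if_pos (h3.1 h5)]; ring
        · rw [if_neg h5, if_neg (fun h6 => h5 (h3.2 h6))]; ring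
    · rw [if_neg hd, if_neg (by omega : ¬ d = k)]
      have h3 : ¬ (k ∣ d ∧ d ≠ 0) := by
        rintro ⟨h4, h5⟩
        exact hd (Nat.le_of_dvd (Nat.pos_of_ne_zero h5) h4)
      rw [if_neg h3]
      ring
  unfold Tw
  rw [h1, coeff_mk]
  by_cases h : k ∣ n
  · rw [if_pos ⟨h, hn.ne'⟩, if_pos h]
  · rw [if_neg (fun h2 => h h2.1), if_neg h]

/-- the product of the `(1 - X ^ k) ^ (a k)`, `1 ≤ k < L` -/
noncomputable def PrN (a : ℕ → ℕ) (L : ℕ) : ℤ⟦X⟧ := ∏ k ∈ Finset.Ico 1 L, (1 - X ^ k) ^ a k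

lemma coeff_zero_PrN (a : ℕ → ℕ) (L : ℕ) : coeff 0 (PrN a L) = 1 :=
  coeff_zero_prod' _ _ fun k hk => by
    rw [Finset.mem_Ico] at hk
    exact coeff_zero_pow' (coeff_zero_one_sub_X_pow hk.1) _

lemma PrN_add (a b : ℕ → ℕ) (L : ℕ) : PrN (fun k => a k + b k) L = PrN a L * PrN b L := by
  unfold PrN
  rw [← Finset.prod_mul_distrib]
  exact Finset.prod_congr rfl fun k _ => pow_add _ _ _

lemma PrN_congr {a b : ℕ → ℕ} {L : ℕ} (h : ∀ k, 1 ≤ k → k < L → a k = b k) : PrN a L = PrN b L := by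
  unfold PrN
  refine Finset.prod_congr rfl fun k hk => ?_
  rw [Finset.mem_Ico] at hk
  rw [h k hk.1 hk.2]

lemma PrN_succ (a : ℕ → ℕ) {L : ℕ} (hL : 1 ≤ L) : PrN a (L + 1) = PrN a L * (1 - X ^ L) ^ a L := by
  unfold PrN
  rw [Finset.prod_Ico_succ_top hL]

lemma Tw_PrN (a : ℕ → ℕ) {L n : ℕ} (hn : 0 < n) (hL : n < L) :
    Tw (PrN a L) n = ∑ k ∈ n.divisors, (k : ℤ) * a k := by
  unfold PrN
  rw [Tw_prod _ _ fun k hk => by
    rw [Finset.mem_Ico] at hk
    exact coeff_zero_pow' (coeff_zero_one_sub_X_pow hk.1) _]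
  have h1 : ∀ k ∈ Finset.Ico 1 L, Tw ((1 - X ^ k) ^ a k) n = if k ∣ n then (k : ℤ) * a k else 0 := by
    intro k hk
    rw [Finset.mem_Ico] at hk
    rw [Tw_pow (coeff_zero_one_sub_X_pow hk.1), Tw_one_sub_X_pow hk.1 hn]
    split_ifs
    · ring
    · ring
  rw [Finset.sum_congr rfl h1, ← Finset.sum_filter]
  refine Finset.sum_congr ?_ fun _ _ => rfl
  ext k
  rw [Finset.mem_filter, Finset.mem_Ico, Nat.mem_divisors]
  constructor
  · rintro ⟨_, h2⟩
    exact ⟨h2, hn.ne'⟩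
  · rintro ⟨h2, _⟩
    have h3 := Nat.le_of_dvd hn h2
    have h4 := Nat.pos_of_dvd_of_pos h2 hn
    exact ⟨⟨h4, by omega⟩, h2⟩

/-- the rests -/
noncomputable def exR (f : ℤ⟦X⟧) : ℕ → ℤ⟦X⟧
  | 0 => f
  | n + 1 => exR f n * (geo (X ^ (n + 1)) ^ (-coeff (n + 1) (exR f n)).toNat *
      (1 - X ^ (n + 1)) ^ (coeff (n + 1) (exR f n)).toNat)

/-- the exponents -/
noncomputable def ex (f : ℤ⟦X⟧) : ℕ → ℤ
  | 0 => 0
  | n + 1 => -coeff (n + 1) (exR f n)

/-- positive and negative part of the exponents -/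
noncomputable def exP (f : ℤ⟦X⟧) (n : ℕ) : ℕ := (ex f n).toNat
/-- positive and negative part of the exponents -/
noncomputable def exM (f : ℤ⟦X⟧) (n : ℕ) : ℕ := (-ex f n).toNat

lemma exP_sub_exM (f : ℤ⟦X⟧) (n : ℕ) : ((exP f n : ℕ) : ℤ) - ((exM f n : ℕ) : ℤ) = ex f n := by
  unfold exP exM
  omega

lemma exR_succ (f : ℤ⟦X⟧) (n : ℕ) : exR f (n + 1) =
    exR f n * (geo (X ^ (n + 1)) ^ exP f (n + 1) * (1 - X ^ (n + 1)) ^ exM f (n + 1)) := by
  unfold exP exM
  simp only [exR, ex, neg_neg]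

lemma exR_prod (f : ℤ⟦X⟧) (n : ℕ) :
    exR f n * PrN (exP f) (n + 1) = f * PrN (exM f) (n + 1) := by
  induction n with
  | zero => simp [exR, PrN]
  | succ n ih =>
    rw [PrN_succ (exP f) (L := n + 1) (by omega), PrN_succ (exM f) (L := n + 1) (by omega), exR_succ]
    have h1 : geo (X ^ (n + 1)) ^ exP f (n + 1) * (1 - X ^ (n + 1)) ^ exP f (n + 1) = 1 := by
      rw [← mul_pow, geo_mul_one_sub (coeff_zero_X_pow (by omega)), one_pow]
    calc exR f n * (geo (X ^ (n + 1)) ^ exP f (n + 1) * (1 - X ^ (n + 1)) ^ exM f (n + 1)) *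
          (PrN (exP f) (n + 1) * (1 - X ^ (n + 1)) ^ exP f (n + 1))
        = (exR f n * PrN (exP f) (n + 1)) * (1 - X ^ (n + 1)) ^ exM f (n + 1) *
          (geo (X ^ (n + 1)) ^ exP f (n + 1) * (1 - X ^ (n + 1)) ^ exP f (n + 1)) := by ring
      _ = _ := by rw [h1, ih]; ring

/-- `g ≡ 1 - z X ^ p` modulo `X ^ (p + 1)` -/
def Lin (p : ℕ) (z : ℤ) (g : ℤ⟦X⟧) : Prop := Cg p g (1 - C z * X ^ p)

lemma Lin.mul {p : ℕ} (hp : 1 ≤ p) {z w : ℤ} {g h : ℤ⟦X⟧} (hg : Lin p z g) (hh : Lin p w h) :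
    Lin p (z + w) (g * h) := by
  refine (Cg.mul hg hh).trans fun d hd => ?_
  have e1 : (1 - C z * X ^ p) * (1 - C w * X ^ p) =
      (1 - C (z + w) * X ^ p : ℤ⟦X⟧) + C (z * w) * X ^ (p + p) := by
    rw [map_add, map_mul, pow_add]; ring
  rw [e1, map_add, coeff_C_mul_X_pow, if_neg (by omega), add_zero]

lemma Lin.pow {p : ℕ} (hp : 1 ≤ p) {z : ℤ} {g : ℤ⟦X⟧} (hg : Lin p z g) (k : ℕ) :
    Lin p (k * z) (g ^ k) := by
  induction k with
  | zero =>
    intro d _
    simp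
  | succ k ih =>
    rw [pow_succ]
    have := ih.mul hp hg
    have e : ((k + 1 : ℕ) : ℤ) * z = k * z + z := by push_cast; ring
    rw [e]; exact this

lemma lin_one_sub {p : ℕ} : Lin p 1 (1 - X ^ p) := by
  intro d _
  simp

lemma lin_geo {p : ℕ} (hp : 1 ≤ p) : Lin p (-1) (geo (X ^ p)) := by
  intro d hd
  have h1 := geo_eq (coeff_zero_X_pow hp)
  have h2 : geo (X ^ p) = 1 + X ^ p + X ^ p * (X ^ p * geo (X ^ p)) := by
    linear_combination h1 + X ^ p * h1
  rw [h2, map_add, ← mul_assoc, ← pow_add, coeff_X_pow_mul', if_neg (by omega), add_zero]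
  simp

lemma exR_cg {f : ℤ⟦X⟧} (hf : coeff 0 f = 1) (n : ℕ) : Cg n (exR f n) 1 := by
  induction n with
  | zero =>
    intro d hd
    rw [Nat.le_zero.1 hd]
    simpa [exR] using hf
  | succ n ih =>
    have h1 : Lin (n + 1) (ex f (n + 1)) (exR f n) := by
      intro d hd
      rw [map_sub, coeff_C_mul_X_pow]
      rcases Nat.lt_or_ge d (n + 1) with h2 | h2
      · rw [if_neg (by omega), sub_zero]; exact ih d (by omega)
      · have : d = n + 1 := by omega
        subst this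
        rw [if_pos rfl, coeff_one, if_neg (by omega)]
        simp [ex]
    have hp : 1 ≤ n + 1 := by omega
    have h2 := h1.mul hp (((lin_geo hp).pow hp (exP f (n + 1))).mul hp
      ((lin_one_sub (p := n + 1)).pow hp (exM f (n + 1))))
    rw [← exR_succ] at h2
    have h3 : ex f (n + 1) + (((exP f (n + 1) : ℕ) : ℤ) * (-1) + ((exM f (n + 1) : ℕ) : ℤ) * 1) = 0 := by
      have := exP_sub_exM f (n + 1)
      omega
    rw [h3] at h2
    intro d hd
    rw [h2 d hd]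
    simp

/-- the product expansion modulo `X ^ L` -/
theorem ex_spec {f : ℤ⟦X⟧} (hf : coeff 0 f = 1) (L : ℕ) :
    ∀ d < L, coeff d (f * PrN (exM f) L) = coeff d (PrN (exP f) L) := by
  intro d hd
  obtain ⟨n, rfl⟩ := Nat.exists_eq_succ_of_ne_zero (by omega : L ≠ 0)
  have h1 := exR_prod f n
  have h2 : Cg n (exR f n * PrN (exP f) (n + 1)) (1 * PrN (exP f) (n + 1)) :=
    (exR_cg hf n).mul (Cg.refl _)
  rw [Nat.succ_eq_add_one, ← h1, h2 d (by omega), one_mul]

/-- the power sums in terms of the exponents -/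
theorem Tw_eq {f : ℤ⟦X⟧} (hf : coeff 0 f = 1) {n : ℕ} (hn : 0 < n) :
    Tw f n = ∑ k ∈ n.divisors, (k : ℤ) * ex f k := by
  have h1 : Tw (f * PrN (exM f) (n + 1)) n = Tw (PrN (exP f) (n + 1)) n :=
    Tw_congr (coeff_zero_mul' hf (coeff_zero_PrN _ _)) (coeff_zero_PrN _ _) (P := n)
      (fun d hd => ex_spec hf (n + 1) d (by omega)) n le_rfl
  rw [Tw_mul hf (coeff_zero_PrN _ _), Tw_PrN _ hn (by omega), Tw_PrN _ hn (by omega)] at h1
  have h2 : Tw f n = ∑ k ∈ n.divisors, (k : ℤ) * exP f k - ∑ k ∈ n.divisors, (k : ℤ) * exM f k := by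
    linarith
  rw [h2, ← Finset.sum_sub_distrib]
  refine Finset.sum_congr rfl fun k _ => ?_
  rw [← mul_sub, exP_sub_exM]

/-- uniqueness -/
theorem ex_unique {f : ℤ⟦X⟧} (hf : coeff 0 f = 1) {a b : ℕ → ℕ} {L : ℕ}
    (h : ∀ d < L, coeff d (f * PrN b L) = coeff d (PrN a L)) :
    ∀ n, 1 ≤ n → n < L → ex f n = (a n : ℤ) - b n := by
  intro n
  induction n using Nat.strong_induction_on with
  | _ n ih =>
    intro hn hL
    have h1 : Tw (f * PrN b L) n = Tw (PrN a L) n :=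
      Tw_congr (coeff_zero_mul' hf (coeff_zero_PrN _ _)) (coeff_zero_PrN _ _) (P := L - 1)
        (fun d hd => h d (by omega)) n (by omega)
    rw [Tw_mul hf (coeff_zero_PrN _ _), Tw_PrN _ hn hL, Tw_PrN _ hn hL, Tw_eq hf hn] at h1
    have h2 : ∑ k ∈ n.divisors, ((k : ℤ) * ex f k - (k : ℤ) * ((a k : ℤ) - b k)) = 0 := by
      rw [Finset.sum_sub_distrib]
      have : ∑ k ∈ n.divisors, (k : ℤ) * ((a k : ℤ) - b k) =
          ∑ k ∈ n.divisors, (k : ℤ) * a k - ∑ k ∈ n.divisors, (k : ℤ) * b k := by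
        rw [← Finset.sum_sub_distrib]
        exact Finset.sum_congr rfl fun k _ => by ring
      rw [this]
      linarith
    rw [Finset.sum_eq_single n] at h2
    · have h3 : (n : ℤ) * (ex f n - ((a n : ℤ) - b n)) = 0 := by linarith
      rcases mul_eq_zero.1 h3 with h4 | h4
      · omega
      · linarith
    · intro k hk hkn
      have h5 := Nat.le_of_dvd (by omega) (Nat.dvd_of_mem_divisors hk)
      have h6 := Nat.pos_of_mem_divisors hk
      rw [ih k (by omega) h6 (by omega)]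
      ring
    · intro hcon
      exact absurd (Nat.mem_divisors_self n (by omega)) hcon

theorem ex_mul {f g : ℤ⟦X⟧} (hf : coeff 0 f = 1) (hg : coeff 0 g = 1) {n : ℕ} (hn : 1 ≤ n) :
    ex (f * g) n = ex f n + ex g n := by
  have h := ex_unique (coeff_zero_mul' hf hg) (a := fun k => exP f k + exP g k)
    (b := fun k => exM f k + exM g k) (L := n + 1) ?_ n hn (by omega)
  · rw [h]
    have h1 := exP_sub_exM f n
    have h2 := exP_sub_exM g n
    push_cast
    linarith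
  · rw [PrN_add, PrN_add]
    have h1 : Cg n (f * PrN (exM f) (n + 1)) (PrN (exP f) (n + 1)) := fun d hd =>
      ex_spec hf _ d (by omega)
    have h2 : Cg n (g * PrN (exM g) (n + 1)) (PrN (exP g) (n + 1)) := fun d hd =>
      ex_spec hg _ d (by omega)
    intro d hd
    have h3 := (h1.mul h2) d (by omega)
    rw [← h3]
    congr 1
    ring

/-- Möbius inversion -/
theorem mul_ex {f : ℤ⟦X⟧} (hf : coeff 0 f = 1) {n : ℕ} (hn : 0 < n) :
    (n : ℤ) * ex f n = ∑ x ∈ n.divisorsAntidiagonal, (ArithmeticFunction.moebius x.1 : ℤ) * Tw f x.2 := by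
  have h := (ArithmeticFunction.sum_eq_iff_sum_mul_moebius_eq (R := ℤ)
    (f := fun n => (n : ℤ) * ex f n) (g := fun n => Tw f n)).1 (fun n hn => (Tw_eq hf hn).symm) n hn
  simpa using h.symm

/-- vanishing power sums give vanishing exponents -/
theorem ex_eq_zero {f : ℤ⟦X⟧} (hf : coeff 0 f = 1) {n : ℕ} (hn : 0 < n)
    (h : ∀ d, d ∣ n → Tw f d = 0) : ex f n = 0 := by
  have h1 := mul_ex hf hn
  rw [Finset.sum_eq_zero] at h1
  · rcases mul_eq_zero.1 h1 with h2 | h2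
    · omega
    · exact h2
  · intro x hx
    rw [Nat.mem_divisorsAntidiagonal] at hx
    rw [h x.2 ⟨x.1, by rw [mul_comm]; exact hx.1.symm⟩, mul_zero]

/-- with nonnegative exponents the vanishing of a power sum gives the vanishing of the exponents -/
theorem ex_eq_zero_of_nonneg {f : ℤ⟦X⟧} (hf : coeff 0 f = 1) (h0 : ∀ n, 0 ≤ ex f n) {n : ℕ}
    (hn : 0 < n) (h : Tw f n = 0) {d : ℕ} (hd : d ∣ n) : ex f d = 0 := by
  rw [Tw_eq hf hn] at h
  have h1 := (Finset.sum_eq_zero_iff_of_nonneg (fun k _ =>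
    mul_nonneg (Int.natCast_nonneg k) (h0 k))).1 h d (Nat.mem_divisors.2 ⟨hd, hn.ne'⟩)
  rcases mul_eq_zero.1 h1 with h2 | h2
  · have := Nat.pos_of_dvd_of_pos hd hn
    omega
  · exact h2

theorem Tw_eq_zero_of_dvd {f : ℤ⟦X⟧} (hf : coeff 0 f = 1) (h0 : ∀ n, 0 ≤ ex f n) {n : ℕ}
    (hn : 0 < n) (h : Tw f n = 0) {d : ℕ} (hd : d ∣ n) : Tw f d = 0 := by
  have hd0 := Nat.pos_of_dvd_of_pos hd hn
  rw [Tw_eq hf hd0]
  refine Finset.sum_eq_zero fun k hk => ?_
  rw [ex_eq_zero_of_nonneg hf h0 hn h ((Nat.dvd_of_mem_divisors hk).trans hd), mul_zero]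

/-- the exponents of a product of low loops and of series of high order -/
theorem ex_eq_of_prod {f U : ℤ⟦X⟧} {m : ℕ → ℕ} {L : ℕ} (hf : f = U * PrN m L)
    (hU : ∀ d < L, coeff d U = if d = 0 then 1 else 0) (hL : 1 ≤ L) :
    ∀ n, 1 ≤ n → n < L → ex f n = m n := by
  intro n hn hnL
  have hU0 : coeff 0 U = 1 := by rw [hU 0 (by omega), if_pos rfl]
  have hf0 : coeff 0 f = 1 := by rw [hf]; exact coeff_zero_mul' hU0 (coeff_zero_PrN _ _)
  have h := ex_unique hf0 (a := m) (b := fun _ => 0) (L := L) ?_ n hn hnL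
  · rw [h]; simp
  · have h1 : Cg (L - 1) U 1 := fun d hd => by rw [hU d (by omega), coeff_one]
    have h2 := h1.mul (Cg.refl (PrN m L))
    intro d hd
    have e1 : PrN (fun _ => 0) L = 1 := by
      unfold PrN
      simp
    rw [e1, mul_one, hf, h2 d (by omega), one_mul]

end Pool.Agent.FTO
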