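import Pool.Agent.FTO.Num2
import Pool.Agent.SSE.PF5

/-!
# FTO, numbers: bounds for the exponents and the rest of the expansion (helper23)
-/

set_option autoImplicit false

open scoped BigOperators
open PowerSeries

namespace Pool.Agent.FTO

open Pool.Agent.SSE Pool.Agent.SSE.HN Pool.Agent.SSE.PF

/-- `d/dX` and finite norms -/
lemma toRS_derivative (f : ℤ⟦X⟧) : toRS (d⁄dX ℤ f) = d⁄dX ℝ (toRS f) := by
  ext n
  rw [coeff_toRS, coeff_derivative, coeff_derivative, coeff_toRS]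
  push_cast
  ring

/-- the power sums of a polynomial without zeros in `|z| ≤ s` -/
theorem Tw_bound {f : Polynomial ℤ} (h0 : f.coeff 0 = 1) {s : ℝ} (hs : 0 < s)
    (hz : ∀ z : ℂ, ‖z‖ ≤ s → Polynomial.aeval z f ≠ 0) :
    ∃ B : ℝ, 0 ≤ B ∧ ∀ n, |((Tw (f : ℤ⟦X⟧) n : ℤ) : ℝ)| * s ^ n ≤ B := by
  have h0' : coeff 0 (f : ℤ⟦X⟧) = 1 := by rw [Polynomial.coeff_coe, h0]
  obtain ⟨q, hq, hqN⟩ := hasN_inv_poly hs.le (f.map (Int.castRingHom ℝ)) (fun z hz' => by
    have h1 : Polynomial.aeval z (f.map (Int.castRingHom ℝ)) = Polynomial.aeval z f := by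
      rw [Polynomial.aeval_def, Polynomial.aeval_def, Polynomial.eval₂_map]
      congr 1
    rw [h1]
    exact hz z hz')
  have hfr : toRS (f : ℤ⟦X⟧) = ((f.map (Int.castRingHom ℝ) : Polynomial ℝ) : ℝ⟦X⟧) := by
    ext n
    rw [coeff_toRS, Polynomial.coeff_coe, Polynomial.coeff_coe, Polynomial.coeff_map]
    rfl
  have h1 : toRS (TS' (f : ℤ⟦X⟧)) = -(X * d⁄dX ℝ (toRS (f : ℤ⟦X⟧))) * q := by
    have h2 := congrArg toRS (TS'_mul h0')
    rw [map_mul, map_neg, map_mul, toRS_derivative] at h2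
    have hX : toRS (X : ℤ⟦X⟧) = X := by
      ext n
      rw [coeff_toRS, coeff_X, coeff_X]
      split_ifs <;> simp
    rw [hX] at h2
    rw [← h2, mul_assoc, hfr, hq, mul_one]
  have h3 : HasN s (toRS (TS' (f : ℤ⟦X⟧))) := by
    rw [h1]
    refine HasN.mul hs.le ?_ hqN
    have e : -(X * d⁄dX ℝ (toRS (f : ℤ⟦X⟧))) =
        ((-(Polynomial.X * Polynomial.derivative (f.map (Int.castRingHom ℝ))) : Polynomial ℝ) : ℝ⟦X⟧) := by
      rw [hfr, derivative_coe, Polynomial.coe_neg, Polynomial.coe_mul, Polynomial.coe_X]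
    rw [e]
    exact hasN_poly s _
  refine ⟨nS s (toRS (TS' (f : ℤ⟦X⟧))), nS_nonneg hs.le _, fun n => ?_⟩
  have h4 := h3.le hs.le n
  rw [coeff_toRS, Real.norm_eq_abs] at h4
  exact h4

/-- the exponents of a polynomial without zeros in `|z| ≤ s` -/
theorem ex_bound {f : Polynomial ℤ} (h0 : f.coeff 0 = 1) {s : ℝ} (hs : 0 < s) (hs1 : s < 1)
    (hz : ∀ z : ℂ, ‖z‖ ≤ s → Polynomial.aeval z f ≠ 0) :
    ∃ B : ℝ, 0 ≤ B ∧ ∀ n, |((ex (f : ℤ⟦X⟧) n : ℤ) : ℝ)| * s ^ n ≤ B := by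
  have h0' : coeff 0 (f : ℤ⟦X⟧) = 1 := by rw [Polynomial.coeff_coe, h0]
  obtain ⟨B, hB, hT⟩ := Tw_bound h0 hs hz
  refine ⟨B, hB, fun n => ?_⟩
  rcases Nat.eq_zero_or_pos n with hn | hn
  · subst hn
    simpa [ex] using hB
  · have h1 := mul_ex h0' hn
    have h2 : (n : ℝ) * |((ex (f : ℤ⟦X⟧) n : ℤ) : ℝ)| ≤
        ∑ x ∈ n.divisorsAntidiagonal, |((Tw (f : ℤ⟦X⟧) x.2 : ℤ) : ℝ)| := by
      have h3 : (n : ℝ) * |((ex (f : ℤ⟦X⟧) n : ℤ) : ℝ)| =
          |(((n : ℤ) * ex (f : ℤ⟦X⟧) n : ℤ) : ℝ)| := by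
        rw [Int.cast_mul, abs_mul, Int.cast_natCast, Nat.abs_cast]
      rw [h3, h1, Int.cast_sum]
      refine (Finset.abs_sum_le_sum_abs _ _).trans (Finset.sum_le_sum fun x _ => ?_)
      rw [Int.cast_mul, abs_mul]
      have h4 : |((ArithmeticFunction.moebius x.1 : ℤ) : ℝ)| ≤ 1 := by
        have := ArithmeticFunction.abs_moebius_le_one (n := x.1)
        exact_mod_cast this
      calc |((ArithmeticFunction.moebius x.1 : ℤ) : ℝ)| * |((Tw (f : ℤ⟦X⟧) x.2 : ℤ) : ℝ)|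
          ≤ 1 * |((Tw (f : ℤ⟦X⟧) x.2 : ℤ) : ℝ)| :=
            mul_le_mul_of_nonneg_right h4 (abs_nonneg _)
        _ = _ := one_mul _
    have h5 : (∑ x ∈ n.divisorsAntidiagonal, |((Tw (f : ℤ⟦X⟧) x.2 : ℤ) : ℝ)|) * s ^ n ≤ n * B := by
      rw [Finset.sum_mul]
      calc ∑ x ∈ n.divisorsAntidiagonal, |((Tw (f : ℤ⟦X⟧) x.2 : ℤ) : ℝ)| * s ^ n
          ≤ ∑ x ∈ n.divisorsAntidiagonal, B := by
            refine Finset.sum_le_sum fun x hx => ?_
            rw [Nat.mem_divisorsAntidiagonal] at hx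
            have h6 : x.2 ≤ n := Nat.le_of_dvd hn ⟨x.1, by rw [mul_comm]; exact hx.1.symm⟩
            exact (mul_le_mul_of_nonneg_left (pow_le_pow_of_le_one hs.le hs1.le h6)
              (abs_nonneg _)).trans (hT x.2)
        _ = (n.divisorsAntidiagonal.card : ℝ) * B := by rw [Finset.sum_const, nsmul_eq_mul]
        _ ≤ n * B := by
            refine mul_le_mul_of_nonneg_right ?_ hB
            have h7 : n.divisorsAntidiagonal.card = n.divisors.card := by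
              rw [← Nat.map_div_right_divisors, Finset.card_map]
            have h8 : n.divisors.card ≤ n := Nat.card_divisors_le_self n
            rw [h7]
            exact_mod_cast h8
    have h9 : (n : ℝ) * (|((ex (f : ℤ⟦X⟧) n : ℤ) : ℝ)| * s ^ n) ≤ n * B := by
      rw [← mul_assoc]
      exact (mul_le_mul_of_nonneg_right h2 (pow_nonneg hs.le n)).trans h5
    exact le_of_mul_le_mul_left h9 (by exact_mod_cast hn)

section norms
variable {r : ℝ}

lemma toRS_one : toRS (1 : ℤ⟦X⟧) = 1 := map_one _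

lemma nS_X_pow (hr : 0 ≤ r) (k : ℕ) : nS r (toRS (X ^ k)) = r ^ k := by
  rw [nS_eq_val hr (nn_X_pow k), val_X_pow]

lemma geo_norm (hr : 0 ≤ r) (hr1 : r < 1) {k : ℕ} (hk : 1 ≤ k) :
    HasN r (toRS (geo (X ^ k))) ∧ nS r (toRS (geo (X ^ k))) = (1 - r ^ k)⁻¹ := by
  have h1 := fin_geo_X_pow hr hr1 hk
  refine ⟨h1, ?_⟩
  have hn : Nn (geo (X ^ k : ℤ⟦X⟧)) := nn_geo (coeff_zero_X_pow hk) (nn_X_pow k)
  rw [nS_eq_val hr hn]
  have h2 := congrArg (val r) (one_sub_mul_geo (coeff_zero_X_pow hk))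
  rw [val_mul hr (fin_one.sub hr (fin_X_pow k)) h1, val_sub hr fin_one (fin_X_pow k), val_X_pow,
    val_one] at h2
  exact eq_inv_of_mul_eq_one_right h2

lemma one_sub_norm (hr : 0 ≤ r) (hr1 : r < 1) {k : ℕ} (hk : 1 ≤ k) :
    HasN r (toRS (1 - X ^ k)) ∧ nS r (toRS (1 - X ^ k)) ≤ (1 - r ^ k)⁻¹ := by
  have h1 : HasN r (toRS (1 - X ^ k)) := fin_one.sub hr (fin_X_pow k)
  refine ⟨h1, ?_⟩
  have hx : r ^ k < 1 := pow_lt_one₀ hr hr1 (by omega)
  have hx0 : 0 ≤ r ^ k := pow_nonneg hr k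
  have h2 : nS r (toRS (1 - X ^ k)) ≤ 1 + r ^ k := by
    rw [map_sub]
    have h3 := nS_sub_le hr (f := toRS (1 : ℤ⟦X⟧)) (g := toRS (X ^ k : ℤ⟦X⟧)) fin_one (fin_X_pow k)
    rw [nS_X_pow hr, toRS_one, nS_one] at h3
    rw [toRS_one]
    exact h3
  refine h2.trans ?_
  rw [le_inv_comm₀ (by linarith) (by linarith), inv_eq_one_div, le_div_iff₀ (by linarith)]
  nlinarith

lemma exp_bound {x y : ℝ} (hx0 : 0 ≤ x) (hxy : x ≤ y) (hy : y < 1) (k : ℕ) :
    ((1 - x)⁻¹) ^ k ≤ Real.exp (k * (x / (1 - y))) := by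
  have h1 : (1 - x)⁻¹ ≤ Real.exp (x / (1 - y)) := by
    have h2 : (1 - x)⁻¹ = 1 + x / (1 - x) := by
      have : (1 - x) ≠ 0 := by linarith
      field_simp
      ring
    rw [h2]
    have h3 : x / (1 - x) ≤ x / (1 - y) := by
      apply div_le_div_of_nonneg_left hx0 (by linarith) (by linarith)
    have h4 := Real.add_one_le_exp (x / (1 - y))
    linarith
  calc ((1 - x)⁻¹) ^ k ≤ (Real.exp (x / (1 - y))) ^ k :=
        pow_le_pow_left₀ (inv_nonneg.2 (by linarith)) h1 k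
    _ = _ := by rw [← Real.exp_nat_mul]

/-- norms of the rests at a radius `r < s` are bounded -/
lemma exR_norm {f : Polynomial ℤ} {s : ℝ} (hr : 0 < r) (hrs : r < s) (hs1 : s < 1) {B : ℝ}
    (hB0 : 0 ≤ B) (hB : ∀ n, |((ex (f : ℤ⟦X⟧) n : ℤ) : ℝ)| * s ^ n ≤ B) :
    ∃ M : ℝ, 0 ≤ M ∧ ∀ n, HasN r (toRS (exR (f : ℤ⟦X⟧) n)) ∧
      nS r (toRS (exR (f : ℤ⟦X⟧) n)) ≤ M := by
  have hs : 0 < s := hr.trans hrs
  have hr1 : r < 1 := hrs.trans hs1
  set q := r / s with hq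
  have hq0 : 0 ≤ q := div_nonneg hr.le hs.le
  have hq1 : q < 1 := (div_lt_one hs).2 hrs
  have hfN : HasN r (toRS (f : ℤ⟦X⟧)) := by
    have e : toRS (f : ℤ⟦X⟧) = ((f.map (Int.castRingHom ℝ) : Polynomial ℝ) : ℝ⟦X⟧) := by
      ext n
      rw [coeff_toRS, Polynomial.coeff_coe, Polynomial.coeff_coe, Polynomial.coeff_map]
      rfl
    rw [e]
    exact hasN_poly r _
  have key : ∀ n, HasN r (toRS (exR (f : ℤ⟦X⟧) n)) ∧ nS r (toRS (exR (f : ℤ⟦X⟧) n)) ≤
      nS r (toRS (f : ℤ⟦X⟧)) * Real.exp (∑ k ∈ Finset.range n, B / (1 - r) * q ^ (k + 1)) := by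
    intro n
    induction n with
    | zero => exact ⟨hfN, by simp [exR]⟩
    | succ n ih =>
      obtain ⟨i1, i2⟩ := ih
      rw [exR_succ, map_mul, map_mul, map_pow, map_pow]
      have hk : 1 ≤ n + 1 := by omega
      obtain ⟨g1, g2⟩ := geo_norm hr.le hr1 hk
      obtain ⟨o1, o2⟩ := one_sub_norm hr.le hr1 hk
      have a1 := g1.pow hr.le (exP (f : ℤ⟦X⟧) (n + 1))
      have a2 := o1.pow hr.le (exM (f : ℤ⟦X⟧) (n + 1))
      have hx : r ^ (n + 1) < 1 := pow_lt_one₀ hr.le hr1 (by omega)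
      have hx0 : 0 ≤ r ^ (n + 1) := pow_nonneg hr.le _
      have hxr : r ^ (n + 1) ≤ r := by
        calc r ^ (n + 1) ≤ r ^ 1 := pow_le_pow_of_le_one hr.le hr1.le (by omega)
          _ = r := pow_one r
      have b1 : nS r (toRS (geo (X ^ (n + 1))) ^ exP (f : ℤ⟦X⟧) (n + 1) *
          toRS (1 - X ^ (n + 1)) ^ exM (f : ℤ⟦X⟧) (n + 1)) ≤
          Real.exp (B / (1 - r) * q ^ (n + 1)) := by
        calc _ ≤ nS r (toRS (geo (X ^ (n + 1))) ^ exP (f : ℤ⟦X⟧) (n + 1)) *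
              nS r (toRS (1 - X ^ (n + 1)) ^ exM (f : ℤ⟦X⟧) (n + 1)) := nS_mul_le hr.le a1 a2
          _ ≤ ((1 - r ^ (n + 1))⁻¹) ^ exP (f : ℤ⟦X⟧) (n + 1) *
              ((1 - r ^ (n + 1))⁻¹) ^ exM (f : ℤ⟦X⟧) (n + 1) := by
              refine mul_le_mul ?_ ?_ (nS_nonneg hr.le _)
                (pow_nonneg (inv_nonneg.2 (by linarith)) _)
              · refine (nS_pow_le hr.le g1 _).trans ?_
                rw [g2]
              · refine (nS_pow_le hr.le o1 _).trans ?_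
                exact pow_le_pow_left₀ (nS_nonneg hr.le _) o2 _
          _ = ((1 - r ^ (n + 1))⁻¹) ^ (exP (f : ℤ⟦X⟧) (n + 1) + exM (f : ℤ⟦X⟧) (n + 1)) :=
              (pow_add _ _ _).symm
          _ ≤ Real.exp (((exP (f : ℤ⟦X⟧) (n + 1) + exM (f : ℤ⟦X⟧) (n + 1) : ℕ) : ℝ) *
              (r ^ (n + 1) / (1 - r))) := exp_bound hx0 hxr hr1 _
          _ ≤ _ := by
              apply Real.exp_le_exp.2
              have c1 : ((exP (f : ℤ⟦X⟧) (n + 1) + exM (f : ℤ⟦X⟧) (n + 1) : ℕ) : ℝ) =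
                  |((ex (f : ℤ⟦X⟧) (n + 1) : ℤ) : ℝ)| := by
                have c2 : ((exP (f : ℤ⟦X⟧) (n + 1) + exM (f : ℤ⟦X⟧) (n + 1) : ℕ) : ℤ) =
                    |ex (f : ℤ⟦X⟧) (n + 1)| := by
                  unfold exP exM
                  rcases le_total 0 (ex (f : ℤ⟦X⟧) (n + 1)) with h | h
                  · rw [abs_of_nonneg h]; omega
                  · rw [abs_of_nonpos h]; omega
                rw [← Int.cast_abs, ← c2]
                norm_cast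
              rw [c1]
              have c3 := hB (n + 1)
              have c4 : |((ex (f : ℤ⟦X⟧) (n + 1) : ℤ) : ℝ)| * r ^ (n + 1) ≤ B * q ^ (n + 1) := by
                have c5 : r ^ (n + 1) = s ^ (n + 1) * q ^ (n + 1) := by
                  rw [← mul_pow]
                  congr 1
                  rw [hq]
                  field_simp
                rw [c5, ← mul_assoc]
                exact mul_le_mul_of_nonneg_right c3 (pow_nonneg hq0 _)
              have c6 : 0 < 1 - r := by linarith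
              calc |((ex (f : ℤ⟦X⟧) (n + 1) : ℤ) : ℝ)| * (r ^ (n + 1) / (1 - r))
                  = (|((ex (f : ℤ⟦X⟧) (n + 1) : ℤ) : ℝ)| * r ^ (n + 1)) / (1 - r) := by ring
                _ ≤ (B * q ^ (n + 1)) / (1 - r) := div_le_div_of_nonneg_right c4 c6.le
                _ = _ := by ring
      refine ⟨i1.mul hr.le (a1.mul hr.le a2), ?_⟩
      calc _ ≤ nS r (toRS (exR (f : ℤ⟦X⟧) n)) * nS r (toRS (geo (X ^ (n + 1))) ^ exP (f : ℤ⟦X⟧) (n + 1) *
              toRS (1 - X ^ (n + 1)) ^ exM (f : ℤ⟦X⟧) (n + 1)) := nS_mul_le hr.le i1 (a1.mul hr.le a2)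
        _ ≤ (nS r (toRS (f : ℤ⟦X⟧)) * Real.exp (∑ k ∈ Finset.range n, B / (1 - r) * q ^ (k + 1))) *
              Real.exp (B / (1 - r) * q ^ (n + 1)) :=
            mul_le_mul i2 b1 (nS_nonneg hr.le _)
              (mul_nonneg (nS_nonneg hr.le _) (Real.exp_pos _).le)
        _ = _ := by rw [Finset.sum_range_succ, Real.exp_add]; ring
  refine ⟨nS r (toRS (f : ℤ⟦X⟧)) * Real.exp (B / (1 - r) * (1 - q)⁻¹),
    mul_nonneg (nS_nonneg hr.le _) (Real.exp_pos _).le, fun n => ⟨(key n).1, (key n).2.trans ?_⟩⟩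
  refine mul_le_mul_of_nonneg_left (Real.exp_le_exp.2 ?_) (nS_nonneg hr.le _)
  rw [← Finset.mul_sum]
  refine mul_le_mul_of_nonneg_left ?_ (div_nonneg hB0 (by linarith))
  calc ∑ k ∈ Finset.range n, q ^ (k + 1) ≤ ∑ k ∈ Finset.range n, q ^ k :=
        Finset.sum_le_sum fun k _ => pow_le_pow_of_le_one hq0 hq1.le (by omega)
    _ ≤ ∑' k, q ^ k := Summable.sum_le_tsum _ (fun k _ => pow_nonneg hq0 k)
        (summable_geometric_of_lt_one hq0 hq1)
    _ = (1 - q)⁻¹ := tsum_geometric_of_lt_one hq0 hq1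

/-- a series of order `≥ L` at a smaller radius -/
lemma nS_order {ρ : ℝ} (hr : 0 < r) (hrρ : r ≤ ρ) {g : ℤ⟦X⟧} {L : ℕ}
    (hg : ∀ d < L, coeff d g = 0) (hN : HasN ρ (toRS g)) :
    nS r (toRS g) ≤ (r / ρ) ^ L * nS ρ (toRS g) := by
  have hρ : 0 < ρ := hr.trans_le hrρ
  unfold nS
  rw [← tsum_mul_left]
  refine (hN.mono hr.le hrρ).tsum_le_tsum (fun d => ?_) (hN.mul_left _)
  rcases Nat.lt_or_ge d L with hd | hd
  · rw [coeff_toRS, hg d hd]
    simp
  · have h1 : r ^ d ≤ (r / ρ) ^ L * ρ ^ d := by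
      rw [div_pow, div_mul_eq_mul_div, le_div_iff₀ (pow_pos hρ L)]
      have h2 : d = (d - L) + L := by omega
      have h3 : r ^ (d - L) ≤ ρ ^ (d - L) := pow_le_pow_left₀ hr.le hrρ _
      calc r ^ d * ρ ^ L = r ^ (d - L) * (r ^ L * ρ ^ L) := by
            conv_lhs => rw [h2, pow_add]
            ring
        _ ≤ ρ ^ (d - L) * (r ^ L * ρ ^ L) :=
            mul_le_mul_of_nonneg_right h3 (mul_nonneg (pow_nonneg hr.le _) (pow_nonneg hρ.le _))
        _ = r ^ L * ρ ^ d := by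
            conv_rhs => rw [h2, pow_add]
            ring
    calc ‖coeff d (toRS g)‖ * r ^ d ≤ ‖coeff d (toRS g)‖ * ((r / ρ) ^ L * ρ ^ d) :=
          mul_le_mul_of_nonneg_left h1 (norm_nonneg _)
      _ = _ := by ring

/-- the product of long cycles -/
lemma long_norm (hr : 0 ≤ r) (hr1 : r < 1) {p : ℕ} (hp : 1 ≤ p) (E : Multiset ℕ)
    (hE : ∀ l ∈ E, p ≤ l) :
    Nn (E.map fun l => geo (X ^ l)).prod ∧ HasN r (toRS (E.map fun l => geo (X ^ l)).prod) ∧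
      val r (E.map fun l => geo (X ^ l)).prod ≤ ((1 - r ^ p)⁻¹) ^ E.card ∧
      coeff 0 (E.map fun l => geo (X ^ l : ℤ⟦X⟧)).prod = 1 := by
  induction E using Multiset.induction_on with
  | empty =>
    simp only [Multiset.map_zero, Multiset.prod_zero, Multiset.card_zero, pow_zero]
    exact ⟨nn_one, fin_one, val_one.le, by simp⟩
  | cons l E ih =>
    obtain ⟨i1, i2, i3, i4⟩ := ih fun l hl => hE l (Multiset.mem_cons_of_mem hl)
    have hl := hE l (Multiset.mem_cons_self l E)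
    have hl1 : 1 ≤ l := hp.trans hl
    obtain ⟨g1, g2⟩ := geo_norm hr hr1 hl1
    have gn : Nn (geo (X ^ l : ℤ⟦X⟧)) := nn_geo (coeff_zero_X_pow hl1) (nn_X_pow l)
    rw [nS_eq_val hr gn] at g2
    rw [Multiset.map_cons, Multiset.prod_cons, Multiset.card_cons, pow_succ']
    refine ⟨gn.mul i1, ?_, ?_, ?_⟩
    · rw [map_mul]; exact g1.mul hr i2
    · rw [val_mul hr g1 i2, g2]
      refine mul_le_mul ?_ i3 (val_nonneg hr i1) (inv_nonneg.2 ?_)
      · have h1 : r ^ l ≤ r ^ p := pow_le_pow_of_le_one hr hr1.le hl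
        have h2 : r ^ p < 1 := pow_lt_one₀ hr hr1 (by omega)
        exact inv_anti₀ (by linarith) (by linarith)
      · have h2 : r ^ p < 1 := pow_lt_one₀ hr hr1 (by omega)
        linarith
    · exact coeff_zero_mul' (coeff_zero_geo (coeff_zero_X_pow hl1)) i4

lemma long_cg {L : ℕ} (E : Multiset ℕ) (hE : ∀ l ∈ E, L ≤ l) (hL : 1 ≤ L) :
    Cg (L - 1) (E.map fun l => geo (X ^ l : ℤ⟦X⟧)).prod 1 := by
  induction E using Multiset.induction_on with
  | empty => simpa using Cg.refl _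
  | cons l E ih =>
    have h1 := ih fun l hl => hE l (Multiset.mem_cons_of_mem hl)
    have hl := hE l (Multiset.mem_cons_self l E)
    rw [Multiset.map_cons, Multiset.prod_cons]
    have h2 : Cg (L - 1) (geo (X ^ l : ℤ⟦X⟧)) 1 := by
      intro d hd
      rw [geo_eq (coeff_zero_X_pow (by omega)), map_add, coeff_X_pow_mul', if_neg (by omega),
        add_zero]
    simpa using h2.mul h1

end norms

/-- **the rest of the expansion is small.** -/
theorem small_of_ex {f : Polynomial ℤ} (h0 : f.coeff 0 = 1) {s μ : ℝ} (hs1 : s < 1) (hμ : 0 < μ)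
    (hμs : 1 < μ * s) (hz : ∀ z : ℂ, ‖z‖ ≤ s → Polynomial.aeval z f ≠ 0) :
    ∃ n1 : ℕ, ∀ L, n1 ≤ L → ∀ K : ℕ, ∃ p0 : ℕ, ∀ E : Multiset ℕ, (∀ l ∈ E, p0 ≤ l) → E.card ≤ K →
      ∀ (a b : ℕ → ℕ) (g : ℤ⟦X⟧), (∀ n, 1 ≤ n → n < L → (a n : ℤ) - b n = ex (f : ℤ⟦X⟧) n) →
        g * PrN b L = PrN a L * (E.map fun l => 1 - X ^ l).prod →
        ∃ h : ℤ⟦X⟧, SmallS L μ h ∧ (1 - h) * g = (f : ℤ⟦X⟧) := by
  have h0' : coeff 0 (f : ℤ⟦X⟧) = 1 := by rw [Polynomial.coeff_coe, h0]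
  have hs : 0 < s := by
    by_contra hcon
    push Not at hcon
    nlinarith
  set r := μ⁻¹ with hrdef
  have hr : 0 < r := inv_pos.2 hμ
  have hrs : r < s := by rw [hrdef, inv_lt_iff_one_lt_mul₀ hμ]; linarith
  obtain ⟨ρ, hρ1, hρ2⟩ := exists_between hrs
  have hρ : 0 < ρ := hr.trans hρ1
  have hr1 : r < 1 := hrs.trans hs1
  have hρlt1 : ρ < 1 := hρ2.trans hs1
  obtain ⟨B, hB0, hB⟩ := ex_bound h0 hs hs1 hz
  obtain ⟨M, hM0, hM⟩ := exR_norm hρ hρ2 hs1 hB0 hB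
  have hq1 : r / ρ < 1 := (div_lt_one hρ).2 hρ1
  have hq0 : 0 ≤ r / ρ := div_nonneg hr.le hρ.le
  obtain ⟨n2, hn2⟩ := exists_pow_lt_of_lt_one (by positivity : 0 < 1 / (2 * (1 + M))) hq1
  refine ⟨n2 + 1, fun L hL K => ?_⟩
  have hL1 : 1 ≤ L := by omega
  obtain ⟨p1, hp1⟩ := exists_pow_lt_of_lt_one (by positivity : 0 < 1 / (4 * ((K : ℝ) + 1))) hr1
  refine ⟨p1 + L, fun E hE hEK a b g hab hg => ?_⟩
  set G := (E.map fun l => geo (X ^ l : ℤ⟦X⟧)).prod with hG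
  obtain ⟨G1, G2, G3, G4⟩ := long_norm hr.le hr1 (p := p1 + L) (by omega) E hE
  have Gcg := long_cg E (fun l hl => (Nat.le_add_left L p1).trans (hE l hl)) hL1
  rw [← hG] at G1 G2 G3 G4 Gcg
  set F := exR (f : ℤ⟦X⟧) (L - 1) with hF
  have hFcg : Cg (L - 1) F 1 := exR_cg h0' (L - 1)
  obtain ⟨F1, F2⟩ := hM (L - 1)
  rw [← hF] at F1 F2
  have hFr : HasN r (toRS F) := F1.mono hr.le hρ1.le
  -- the bound for `G`
  have hx : r ^ (p1 + L) ≤ 1 / (4 * ((K : ℝ) + 1)) :=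
    (pow_le_pow_of_le_one hr.le hr1.le (by omega)).trans hp1.le
  have hx0 : 0 ≤ r ^ (p1 + L) := pow_nonneg hr.le _
  have hG43 : val r G ≤ 4 / 3 := by
    refine G3.trans ?_
    have hKpos : (0 : ℝ) < (K : ℝ) + 1 := by positivity
    have hx4 : r ^ (p1 + L) ≤ 1 / 4 := by
      refine hx.trans ?_
      rw [div_le_div_iff₀ (by positivity) (by norm_num)]
      have : (0 : ℝ) ≤ K := by positivity
      linarith
    have h1 : ((1 - r ^ (p1 + L))⁻¹) ^ E.card ≤ ((1 - r ^ (p1 + L))⁻¹) ^ (K + 1) := by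
      refine pow_le_pow_right₀ ?_ (by omega)
      rw [one_le_inv₀ (by linarith)]
      linarith
    refine h1.trans ?_
    rw [inv_pow, inv_le_comm₀ (pow_pos (by linarith) _) (by norm_num)]
    have h2 := one_add_mul_le_pow (a := -r ^ (p1 + L)) (by linarith) (K + 1)
    have h3 : (((K + 1 : ℕ) : ℝ)) * r ^ (p1 + L) ≤ 1 / 4 := by
      have h4 : ((K : ℝ) + 1) * r ^ (p1 + L) ≤ ((K : ℝ) + 1) * (1 / (4 * ((K : ℝ) + 1))) :=
        mul_le_mul_of_nonneg_left hx hKpos.le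
      have h5 : ((K : ℝ) + 1) * (1 / (4 * ((K : ℝ) + 1))) = 1 / 4 := by field_simp
      push_cast
      linarith
    have h6 : (1 + -r ^ (p1 + L)) = 1 - r ^ (p1 + L) := by ring
    rw [h6] at h2
    calc (4 / 3 : ℝ)⁻¹ = 3 / 4 := by norm_num
      _ ≤ 1 + ((K + 1 : ℕ) : ℝ) * -r ^ (p1 + L) := by linarith
      _ ≤ _ := h2
  -- `G - 1`
  have hGm : nS r (toRS (G - 1)) ≤ 1 / 3 := by
    have hn : Nn (G - 1) := by
      intro d
      rw [map_sub, coeff_one]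
      split_ifs with h
      · rw [h, G4, sub_self]
      · rw [sub_zero]; exact G1 d
    rw [nS_eq_val hr.le hn, val_sub hr.le G2 fin_one, val_one]
    linarith
  -- `F - 1`
  have hFm : nS r (toRS (F - 1)) ≤ 1 / 2 := by
    have h1 : ∀ d < L, coeff d (F - 1) = 0 := fun d hd => by
      rw [map_sub, hFcg d (by omega), sub_self]
    have hFN : HasN ρ (toRS (F - 1)) := Fin'.sub hρ.le F1 fin_one
    refine (nS_order hr hρ1.le h1 hFN).trans ?_
    have h2 : nS ρ (toRS (F - 1)) ≤ 1 + M := by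
      rw [map_sub]
      refine (nS_sub_le hρ.le F1 fin_one).trans ?_
      rw [toRS_one, nS_one]
      linarith
    have h3 : (r / ρ) ^ L ≤ 1 / (2 * (1 + M)) :=
      (pow_le_pow_of_le_one hq0 hq1.le (by omega)).trans hn2.le
    calc (r / ρ) ^ L * nS ρ (toRS (F - 1)) ≤ (1 / (2 * (1 + M))) * (1 + M) :=
          mul_le_mul h3 h2 (nS_nonneg hρ.le _) (by positivity)
      _ = 1 / 2 := by field_simp
  -- the series `h`
  refine ⟨1 - F * G, ⟨fun d hd => ?_, fun d => ?_⟩, ?_⟩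
  · have h1 := (hFcg.mul Gcg) d (by omega)
    rw [map_sub, h1, mul_one, sub_self]
  · have h1 : HasN r (toRS (1 - F * G)) := Fin'.sub hr.le fin_one (Fin'.mul hr.le hFr G2)
    have h2 : nS r (toRS (1 - F * G)) ≤ 1 := by
      have e : toRS (1 - F * G) = -(toRS (F - 1) * toRS G) - toRS (G - 1) := by
        rw [← map_mul, ← map_neg, ← map_sub]
        congr 1
        ring
      have hF1 : HasN r (toRS (F - 1)) := Fin'.sub hr.le hFr fin_one
      have hG1 : HasN r (toRS (G - 1)) := Fin'.sub hr.le G2 fin_one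
      rw [e]
      refine (nS_sub_le hr.le (hF1.mul hr.le G2).neg hG1).trans ?_
      rw [nS_neg]
      have h3 := nS_mul_le hr.le hF1 G2
      have h4 : nS r (toRS (F - 1)) * nS r (toRS G) ≤ 1 / 2 * (4 / 3) :=
        mul_le_mul hFm (by rw [nS_eq_val hr.le G1]; exact hG43) (nS_nonneg hr.le _) (by norm_num)
      linarith
    have h3 := h1.le hr.le d
    rw [coeff_toRS, Real.norm_eq_abs] at h3
    have h4 : r ^ d = (μ ^ d)⁻¹ := by rw [hrdef, inv_pow]
    rw [h4] at h3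
    have h5 : 0 < μ ^ d := pow_pos hμ d
    have h6 := h3.trans h2
    rw [← div_eq_mul_inv, div_le_one h5] at h6
    exact h6
  · -- the product
    have h1 := exR_prod (f : ℤ⟦X⟧) (L - 1)
    rw [← hF, Nat.sub_add_cancel hL1] at h1
    have h2 : (E.map fun l => (1 - X ^ l : ℤ⟦X⟧)).prod * G = 1 := by
      rw [hG, ← Multiset.prod_map_mul]
      refine Multiset.prod_eq_one fun x hx => ?_
      obtain ⟨l, hl, rfl⟩ := Multiset.mem_map.1 hx
      have := hE l hl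
      exact one_sub_mul_geo (coeff_zero_X_pow (by omega))
    have h3 : PrN a L * PrN (exM (f : ℤ⟦X⟧)) L = PrN b L * PrN (exP (f : ℤ⟦X⟧)) L := by
      rw [← PrN_add, ← PrN_add]
      refine PrN_congr fun k hk1 hk2 => ?_
      have h4 := hab k hk1 hk2
      have h5 := exP_sub_exM (f : ℤ⟦X⟧) k
      omega
    have hu1 : coeff 0 (PrN b L) = 1 := coeff_zero_PrN _ _
    have hu2 : coeff 0 (PrN (exM (f : ℤ⟦X⟧)) L) = 1 := coeff_zero_PrN _ _
    -- cancel the units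
    have hcancel : ∀ {u x y : ℤ⟦X⟧}, coeff 0 u = 1 → x * u = y * u → x = y := by
      intro u x y hu hxy
      calc x = x * (u * invOfUnit u 1) := by rw [inv_mul' hu, mul_one]
        _ = (x * u) * invOfUnit u 1 := by ring
        _ = (y * u) * invOfUnit u 1 := by rw [hxy]
        _ = y * (u * invOfUnit u 1) := by ring
        _ = y := by rw [inv_mul' hu, mul_one]
    refine hcancel hu1 (hcancel hu2 ?_)
    calc (1 - (1 - F * G)) * g * PrN b L * PrN (exM (f : ℤ⟦X⟧)) L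
        = F * G * (g * PrN b L) * PrN (exM (f : ℤ⟦X⟧)) L := by ring
      _ = F * ((E.map fun l => (1 - X ^ l : ℤ⟦X⟧)).prod * G) * (PrN a L * PrN (exM (f : ℤ⟦X⟧)) L) := by
          rw [hg]; ring
      _ = (F * PrN (exP (f : ℤ⟦X⟧)) L) * PrN b L := by rw [h2, h3]; ring
      _ = _ := by rw [h1]; ring

end Pool.Agent.FTO
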