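import Pool.Agent.FTO.Num3

/-!
# FTO, numbers: the power sums of `det (1 - X M)` are the traces (helper23)
-/

set_option autoImplicit false

open scoped BigOperators
open PowerSeries

namespace Pool.Agent.FTO

open Pool.Agent.SSE Pool.Agent.SSE.HN Pool.Agent.SSE.PF

section
variable {n : Type} [Fintype n] [DecidableEq n]

/-- derivative of a determinant -/
theorem derivative_det (A : Matrix n n (Polynomial ℤ)) :
    Polynomial.derivative A.det =
      (A.adjugate * A.map (fun p => Polynomial.derivative p)).trace := by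
  rw [Matrix.det_apply, Polynomial.derivative_sum]
  have h1 : ∀ σ : Equiv.Perm n, Polynomial.derivative
      (Equiv.Perm.sign σ • ∏ i, A (σ i) i) =
      ∑ i, Equiv.Perm.sign σ • ∏ j, (A.updateCol i fun k => Polynomial.derivative (A k i)) (σ j) j := by
    intro σ
    have h2 : Polynomial.derivative (Equiv.Perm.sign σ • ∏ i, A (σ i) i) =
        Equiv.Perm.sign σ • Polynomial.derivative (∏ i, A (σ i) i) := by
      rcases Int.units_eq_one_or (Equiv.Perm.sign σ) with h | h <;> rw [h] <;> simp
    rw [h2, Polynomial.derivative_prod_finset, Finset.smul_sum]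
    refine Finset.sum_congr rfl fun i _ => ?_
    congr 1
    rw [← Finset.mul_prod_erase Finset.univ _ (Finset.mem_univ i), Matrix.updateCol_self, mul_comm]
    congr 1
    refine Finset.prod_congr rfl fun j hj => ?_
    rw [Matrix.updateCol_ne (Finset.ne_of_mem_erase hj)]
  rw [Finset.sum_congr rfl fun σ _ => h1 σ, Finset.sum_comm]
  unfold Matrix.trace
  refine Finset.sum_congr rfl fun i _ => ?_
  rw [← Matrix.det_apply, ← Matrix.cramer_apply, Matrix.cramer_eq_adjugate_mulVec]
  rfl

/-- `det (1 - X M)` -/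
noncomputable def cdet (M : Matrix n n ℤ) : Polynomial ℤ :=
  (1 - (Polynomial.X : Polynomial ℤ) • M.map Polynomial.C).det

/-- the geometric series of a matrix -/
noncomputable def geoM (M : Matrix n n ℤ) : Matrix n n ℤ⟦X⟧ :=
  fun i j => PowerSeries.mk fun k => (M ^ k) i j

theorem cdet_coeff_zero (M : Matrix n n ℤ) : (cdet M).coeff 0 = 1 := by
  rw [Polynomial.coeff_zero_eq_eval_zero]
  unfold cdet
  have h := (Polynomial.evalRingHom (0 : ℤ)).map_det (1 - (Polynomial.X : Polynomial ℤ) • M.map Polynomial.C)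
  have h2 : (Polynomial.evalRingHom (0 : ℤ)).mapMatrix
      (1 - (Polynomial.X : Polynomial ℤ) • M.map Polynomial.C) = 1 := by
    ext i j
    simp [Matrix.one_apply]
    split_ifs <;> simp
  rw [h2, Matrix.det_one] at h
  exact h

/-- **power sums = traces** -/
theorem Tw_cdet (M : Matrix n n ℤ) {k : ℕ} (hk : 0 < k) :
    Tw (cdet M : ℤ⟦X⟧) k = (M ^ k).trace := by
  set A : Matrix n n (Polynomial ℤ) := 1 - (Polynomial.X : Polynomial ℤ) • M.map Polynomial.C with hA
  let φ : Polynomial ℤ →+* ℤ⟦X⟧ := Polynomial.coeToPowerSeries.ringHom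
  have hφ : ∀ p : Polynomial ℤ, φ p = (p : ℤ⟦X⟧) := fun p => rfl
  -- `(1 - X M) G = 1`
  have hG : (A.map φ) * geoM M = 1 := by
    ext i j d
    have e1 : (A.map φ) * geoM M = geoM M - (X : ℤ⟦X⟧) • ((M.map (C : ℤ →+* ℤ⟦X⟧)) * geoM M) := by
      have e2 : A.map φ = 1 - (X : ℤ⟦X⟧) • M.map (C : ℤ →+* ℤ⟦X⟧) := by
        ext a b
        rw [hA, Matrix.map_apply, Matrix.sub_apply, Matrix.sub_apply, map_sub, Matrix.smul_apply,
          Matrix.smul_apply, Matrix.map_apply, Matrix.map_apply, smul_eq_mul, smul_eq_mul, map_mul,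
          hφ, hφ, hφ, Polynomial.coe_X, Polynomial.coe_C, Matrix.one_apply, Matrix.one_apply]
        split_ifs
        · rw [Polynomial.coe_one]
        · rw [Polynomial.coe_zero]
      rw [e2, Matrix.sub_mul, Matrix.one_mul, Matrix.smul_mul]
    rw [e1, Matrix.sub_apply, map_sub, Matrix.smul_apply, smul_eq_mul]
    rcases Nat.eq_zero_or_pos d with h0 | h0
    · subst h0
      rw [coeff_zero_X_mul, sub_zero]
      unfold geoM
      rw [coeff_mk, pow_zero, Matrix.one_apply, Matrix.one_apply]
      split_ifs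
      · simp
      · simp
    · obtain ⟨m, rfl⟩ := Nat.exists_eq_succ_of_ne_zero h0.ne'
      rw [Nat.succ_eq_add_one, coeff_succ_X_mul, Matrix.mul_apply, map_sum]
      have e3 : ∀ l, coeff m ((M.map (C : ℤ →+* ℤ⟦X⟧)) i l * geoM M l j) = M i l * (M ^ m) l j := by
        intro l
        rw [Matrix.map_apply, coeff_C_mul]
        unfold geoM
        rw [coeff_mk]
      rw [Finset.sum_congr rfl fun l _ => e3 l, ← Matrix.mul_apply, ← pow_succ']
      unfold geoM
      rw [coeff_mk, sub_self, Matrix.one_apply]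
      split_ifs
      · rw [coeff_one, if_neg (by omega)]
      · rw [map_zero]
  have hadj : (A.map φ).adjugate = ((A.map φ).det) • geoM M := by
    calc (A.map φ).adjugate = (A.map φ).adjugate * ((A.map φ) * geoM M) := by
          rw [hG, Matrix.mul_one]
      _ = ((A.map φ).adjugate * (A.map φ)) * geoM M := by rw [Matrix.mul_assoc]
      _ = _ := by rw [Matrix.adjugate_mul, Matrix.smul_mul, Matrix.one_mul]
  have hdet : (A.map φ).det = (cdet M : ℤ⟦X⟧) := by
    have := φ.map_det A
    rw [RingHom.mapMatrix_apply] at this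
    rw [← this]
    rfl
  have hder : A.map (fun p => Polynomial.derivative p) = -(M.map Polynomial.C) := by
    ext1 i j
    rw [Matrix.map_apply, hA, Matrix.sub_apply, Matrix.smul_apply, Matrix.map_apply, smul_eq_mul,
      Polynomial.derivative_sub, Polynomial.derivative_mul, Polynomial.derivative_X,
      Polynomial.derivative_C, Matrix.neg_apply, Matrix.map_apply, Matrix.one_apply]
    split_ifs
    · simp
    · simp
  have h1 : d⁄dX ℤ (cdet M : ℤ⟦X⟧) =
      -((cdet M : ℤ⟦X⟧) * ((M.map (C : ℤ →+* ℤ⟦X⟧)) * geoM M).trace) := by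
    rw [derivative_coe]
    have h2 := derivative_det A
    rw [hder, Matrix.mul_neg, Matrix.trace_neg] at h2
    have h3 := congrArg φ h2
    have h4 : φ ((A.adjugate * M.map Polynomial.C).trace) =
        ((A.map φ).adjugate * M.map (C : ℤ →+* ℤ⟦X⟧)).trace := by
      unfold Matrix.trace
      rw [map_sum]
      refine Finset.sum_congr rfl fun i _ => ?_
      rw [Matrix.diag_apply, Matrix.diag_apply, Matrix.mul_apply, Matrix.mul_apply, map_sum]
      refine Finset.sum_congr rfl fun j _ => ?_
      rw [map_mul]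
      congr 1
      · have := φ.map_adjugate A
        rw [RingHom.mapMatrix_apply, RingHom.mapMatrix_apply] at this
        rw [← this]
        rfl
      · rw [Matrix.map_apply, Matrix.map_apply, hφ, Polynomial.coe_C]
    rw [map_neg, h4, hadj, Matrix.smul_mul, Matrix.trace_smul, smul_eq_mul, hdet,
      Matrix.trace_mul_comm] at h3
    exact h3
  have h0 : coeff 0 (cdet M : ℤ⟦X⟧) = 1 := by rw [Polynomial.coeff_coe, cdet_coeff_zero]
  have h5 : TS' (cdet M : ℤ⟦X⟧) = X * ((M.map (C : ℤ →+* ℤ⟦X⟧)) * geoM M).trace := by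
    refine TS'_unique h0 ?_
    rw [h1]; ring
  unfold Tw
  obtain ⟨m, rfl⟩ := Nat.exists_eq_succ_of_ne_zero hk.ne'
  rw [h5, Nat.succ_eq_add_one, coeff_succ_X_mul]
  unfold Matrix.trace
  rw [map_sum]
  refine Finset.sum_congr rfl fun i _ => ?_
  rw [Matrix.diag_apply, Matrix.diag_apply, Matrix.mul_apply, map_sum, pow_succ', Matrix.mul_apply]
  refine Finset.sum_congr rfl fun l _ => ?_
  rw [Matrix.map_apply, coeff_C_mul]
  unfold geoM
  rw [coeff_mk]

end

end Pool.Agent.FTO
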