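import Pool.Agent.SSE.Asm

/-!
# FTO project, SEF1: the base of the cover

A hub `x` with the row `s e_x + σ X e_x + X w` is replaced by `x = s e_x + X e_u + σ e_φ`, `u = w`,
`φ = a e_x + b e_u + c e_φ` (the row `X e_x`, expanded by a multiple of the relation of `x`).
-/

set_option autoImplicit false

open scoped BigOperators
open Matrix Polynomial

namespace Pool.Agent.SSE

attribute [local instance] Classical.propDecidable

/-- `Q` is a right resolving cover of `P` along `f` -/
structure Cover {I J : Type} [Fintype I] (f : I → J) (Q : Matrix I I ℕ[X])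
    (P : Matrix J J ℕ[X]) : Prop where
  surj : Function.Surjective f
  sum : ∀ i j, ∑ i', (if f i' = j then Q i i' else 0) = P (f i) j

variable {ι F : Type} [Fintype ι] [Fintype F]

/-- the base of the cover -/
noncomputable def bas (P : Matrix ι ι ℕ[X]) (x : ι) (q : ι → ℕ[X]) (σ : ℕ[X]) (w : ι → ℕ[X])
    (a b c : ℕ[X]) : Matrix ((ι ⊕ Unit) ⊕ Unit) ((ι ⊕ Unit) ⊕ Unit) ℕ[X] :=
  fromBlocks
    (fromBlocks (setRow P x q) (of fun l _ => if l = x then X else 0) (of fun _ j => w j) 0)
    (of fun l _ => if l = Sum.inl x then σ else 0)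
    (of fun _ j => Sum.elim (fun l => if l = x then a else 0) (fun _ => b) j)
    (of fun _ _ => c)

section

variable (P : Matrix ι ι ℕ[X]) (x : ι) (q : ι → ℕ[X]) (σ : ℕ[X]) (w : ι → ℕ[X]) (a b c : ℕ[X])

omit [Fintype ι] in
@[simp] lemma bas_ll (l j : ι) : bas P x q σ w a b c (Sum.inl (Sum.inl l)) (Sum.inl (Sum.inl j)) =
    if l = x then q j else P l j := rfl
omit [Fintype ι] in
@[simp] lemma bas_lu (l : ι) (u : Unit) : bas P x q σ w a b c (Sum.inl (Sum.inl l))
    (Sum.inl (Sum.inr u)) = if l = x then X else 0 := rfl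
omit [Fintype ι] in
@[simp] lemma bas_lf (l : ι) (i : Unit) : bas P x q σ w a b c (Sum.inl (Sum.inl l)) (Sum.inr i) =
    if l = x then σ else 0 := by
  simp [bas]
omit [Fintype ι] in
@[simp] lemma bas_ul (u : Unit) (j : ι) : bas P x q σ w a b c (Sum.inl (Sum.inr u))
    (Sum.inl (Sum.inl j)) = w j := rfl
omit [Fintype ι] in
@[simp] lemma bas_uu (u u' : Unit) : bas P x q σ w a b c (Sum.inl (Sum.inr u))
    (Sum.inl (Sum.inr u')) = 0 := rfl
omit [Fintype ι] in
@[simp] lemma bas_uf (u : Unit) (i : Unit) : bas P x q σ w a b c (Sum.inl (Sum.inr u))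
    (Sum.inr i) = 0 := by
  simp [bas]
omit [Fintype ι] in
@[simp] lemma bas_fl (i : Unit) (j : ι) : bas P x q σ w a b c (Sum.inr i) (Sum.inl (Sum.inl j)) =
    if j = x then a else 0 := rfl
omit [Fintype ι] in
@[simp] lemma bas_fu (i : Unit) (u : Unit) : bas P x q σ w a b c (Sum.inr i) (Sum.inl (Sum.inr u)) =
    b := rfl
omit [Fintype ι] in
@[simp] lemma bas_ff (i i' : Unit) : bas P x q σ w a b c (Sum.inr i) (Sum.inr i') = c := rfl

end

omit [Fintype ι] in
theorem bas_isPres {P : Matrix ι ι ℕ[X]} {x : ι} {q : ι → ℕ[X]} {σ : ℕ[X]} {w : ι → ℕ[X]}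
    {a b c : ℕ[X]} (hP : IsPres P) (hq : ∀ j, (q j).coeff 0 = 0) (hσ : σ.coeff 0 = 0)
    (hw : ∀ j, (w j).coeff 0 = 0) (ha : a.coeff 0 = 0) (hb : b.coeff 0 = 0) (hc : c.coeff 0 = 0) :
    IsPres (bas P x q σ w a b c) := by
  rintro ((l | u) | i) ((j | u') | i')
  · rw [bas_ll]
    split_ifs
    · exact hq j
    · exact hP l j
  · rw [bas_lu]
    split_ifs <;> simp
  · rw [bas_lf]
    split_ifs
    · exact hσ
    · simp
  · rw [bas_ul]
    exact hw j
  · simp
  · simp
  · rw [bas_fl]
    split_ifs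
    · exact ha
    · simp
  · rw [bas_fu]
    exact hb
  · rw [bas_ff]
    exact hc

lemma sum_bas {M : Type} [AddCommMonoid M] (f : (ι ⊕ Unit) ⊕ Unit → M) :
    ∑ l, f l = (∑ l : ι, f (Sum.inl (Sum.inl l))) + f (Sum.inl (Sum.inr ())) +
      f (Sum.inr ()) := by
  rw [Fintype.sum_sum_type, Fintype.sum_sum_type]
  simp

/-- the base with the row `φ = X e_x` is equivalent to the presentation -/
theorem bas0_peqv {P : Matrix ι ι ℕ[X]} {x : ι} {q : ι → ℕ[X]} {σ : ℕ[X]} {w : ι → ℕ[X]}
    (hP : IsPres P) (hq : ∀ j, (q j).coeff 0 = 0) (hσ : σ.coeff 0 = 0)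
    (hw : ∀ j, (w j).coeff 0 = 0)
    (hrow : ∀ j, P x j = q j + (if j = x then σ * X else 0) + X * w j) :
    PEqv (bas P x q σ w X 0 0) P := by
  set G0 : Matrix ((ι ⊕ Unit) ⊕ Unit) ((ι ⊕ Unit) ⊕ Unit) ℕ[X] :=
    fromBlocks (fromBlocks P 0 (of fun _ j => w j) 0) 0
      (of fun _ j => if j = Sum.inl x then X else 0) 0 with hG0
  have h1 : PEqv G0 P := (sources _ _).trans (sources _ _)
  refine PEqv.trans (PEqv.symm ?_) h1
  have hB : IsPres (bas P x q σ w X 0 0) :=
    bas_isPres hP hq hσ hw (by simp) (by simp) (by simp)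
  have hp0 : IsPres G0 := by
    rintro ((l | u) | i) ((j | u') | i')
    · exact hP l j
    · simp [hG0]
    · simp [hG0]
    · exact hw j
    · simp [hG0]
    · simp [hG0]
    · simp only [hG0, fromBlocks_apply₂₁, of_apply]
      split_ifs <;> simp
    · simp [hG0]
    · simp [hG0]
  have hrows : ∀ l, l ≠ Sum.inl (Sum.inl x) → G0 l = bas P x q σ w X 0 0 l := by
    rintro ((l | u) | i) hl
    · have hl' : l ≠ x := fun h => hl (by rw [h])
      funext j
      rcases j with (j | j) | j
      · simp [hG0, hl']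
      · simp [hG0, hl']
      · simp [hG0, hl']
    · funext j
      rcases j with (j | j) | j
      · simp [hG0]
      · simp [hG0]
      · simp [hG0]
    · funext j
      rcases j with (j | j) | j
      · simp [hG0]
      · simp [hG0]
      · simp [hG0]
  have hIP : ∀ l, l ≠ Sum.inl (Sum.inl x) → ∀ j, IP G0 l j = IP (bas P x q σ w X 0 0) l j := by
    intro l hl j
    rw [IP_apply, IP_apply, hrows l hl]
  refine one_row hp0 hB (Sum.inl (Sum.inl x)) hrows
    (Sum.elim (Sum.elim 0 (fun _ => - X)) (fun _ => - toZ σ)) rfl fun j => ?_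
  rw [sum_bas]
  simp only [Sum.elim_inl, Sum.elim_inr, Pi.zero_apply, zero_mul, Finset.sum_const_zero, zero_add]
  rcases j with (j | j) | j
  · simp only [IP_apply, hG0, fromBlocks_apply₁₁, fromBlocks_apply₂₁, fromBlocks_apply₁₂,
      fromBlocks_apply₂₂, of_apply, bas_ll, Sum.inl.injEq, reduceCtorEq, if_false, if_true,
      hrow j, toZ_add, toZ_mul, toZ_X]
    by_cases hj : j = x
    · subst hj
      simp only [if_true, toZ_mul, toZ_X]
      ring
    · simp only [if_neg hj, if_neg (Ne.symm hj), toZ_zero]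
      ring
  · simp [IP_apply, hG0, toZ_X, toZ_zero]
  · simp [IP_apply, hG0, toZ_X, toZ_zero]

/-- the base is equivalent to the presentation -/
theorem bas_peqv {P : Matrix ι ι ℕ[X]} {x : ι} {s σ : ℕ[X]} {w : ι → ℕ[X]} {a b c : ℕ[X]}
    (hP : IsPres P) (hs : s.coeff 0 = 0) (hσ : σ.coeff 0 = 0) (hw : ∀ j, (w j).coeff 0 = 0)
    (hrow : ∀ j, P x j = hubq x s j + (if j = x then σ * X else 0) + X * w j) (c' : ℤ[X])
    (ha : toZ a = X - c' * (1 - toZ s)) (hb : toZ b = c' * X) (hc : toZ c = c' * toZ σ)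
    (ha0 : a.coeff 0 = 0) (hb0 : b.coeff 0 = 0) (hc0 : c.coeff 0 = 0) :
    PEqv (bas P x (hubq x s) σ w a b c) P := by
  have hq : ∀ j, (hubq x s j).coeff 0 = 0 := by
    intro j
    unfold hubq
    split_ifs
    · exact hs
    · simp
  refine PEqv.trans (PEqv.symm ?_) (bas0_peqv hP hq hσ hw hrow)
  refine one_row (bas_isPres hP hq hσ hw (by simp) (by simp) (by simp))
    (bas_isPres hP hq hσ hw ha0 hb0 hc0) (Sum.inr ()) ?_
    (fun l => if l = Sum.inl (Sum.inl x) then c' else 0) (if_neg (by simp)) fun j => ?_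
  · rintro ((l | u) | i) hl
    · funext j
      rcases j with (j | j) | j <;> simp
    · funext j
      rcases j with (j | j) | j <;> simp
    · exact absurd rfl hl
  · rw [Finset.sum_eq_single (Sum.inl (Sum.inl x))]
    · rw [if_pos rfl]
      rcases j with (j | j) | j
      · by_cases hj : j = x
        · subst hj
          simp only [IP_apply, bas_fl, bas_ll, if_true, reduceCtorEq, if_false, hubq_self, ha,
            toZ_X]
          ring
        · simp only [IP_apply, bas_fl, bas_ll, if_true, reduceCtorEq, if_false, hubq_ne hj,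
            if_neg hj, toZ_zero, Sum.inl.injEq, if_neg (Ne.symm hj)]
          ring
      · simp only [IP_apply, bas_fu, bas_lu, if_true, reduceCtorEq, if_false, hb,
            toZ_X, toZ_zero, Sum.inl.injEq]
        ring
      · simp only [IP_apply, bas_ff, bas_lf, if_true, reduceCtorEq, if_false, hc, toZ_zero]
        ring
    · intro l _ hl
      rw [if_neg hl, zero_mul]
    · intro h
      exact absurd (Finset.mem_univ _) h

end Pool.Agent.SSE
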