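import Pool.Agent.FTO.SEF1

/-!
# FTO project, SEF2: the twisted gadget as a right resolving cover of the base
-/

set_option autoImplicit false

open scoped BigOperators
open Matrix Polynomial

namespace Pool.Agent.SSE

attribute [local instance] Classical.propDecidable

lemma sef_exists_nat (f : ℤ[X]) (h : ∀ n, 0 ≤ f.coeff n) : ∃ p : ℕ[X], toZ p = f := by
  refine ⟨∑ n ∈ f.support, monomial n (f.coeff n).toNat, ?_⟩
  ext n
  rw [coeff_toZ, finsetSum_coeff]
  simp only [coeff_monomial]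
  rw [Finset.sum_ite_eq' f.support n]
  split_ifs with hn
  · exact Int.toNat_of_nonneg (h n)
  · rw [notMem_support_iff.1 hn]
    rfl

lemma sef_toZ_inj {p q : ℕ[X]} (h : toZ p = toZ q) : p = q := by
  ext n
  have h1 := congrArg (fun f => f.coeff n) h
  simp only [coeff_toZ] at h1
  exact_mod_cast h1

/-- the tail of the truncated renewal series is nonnegative -/
lemma sef_tail_nonneg {s : ℕ[X]} (h0 : s.coeff 0 = 0) {T : ℕ} (hT : 0 < T) (n : ℕ) :
    0 ≤ (1 - tr T (geo s) * (1 - toZ s)).coeff n := by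
  have hc : (tr T (geo s) * (1 - toZ s)).coeff n = (tr T (geo s)).coeff n -
      ∑ a ∈ Finset.HasAntidiagonal.antidiagonal n, (tr T (geo s)).coeff a.1 * (s.coeff a.2 : ℤ) := by
    rw [mul_sub, mul_one, coeff_sub, coeff_mul]
    simp only [coeff_toZ]
  rw [coeff_sub, hc, coeff_tr, coeff_one]
  by_cases hn : n < T
  · rw [if_pos hn, coeff_geo h0]
    have e1 : ∑ a ∈ Finset.HasAntidiagonal.antidiagonal n, (tr T (geo s)).coeff a.1 * (s.coeff a.2 : ℤ) =
        ∑ a ∈ Finset.HasAntidiagonal.antidiagonal n,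
          PowerSeries.coeff a.1 (geo s) * (s.coeff a.2 : ℤ) := by
      refine Finset.sum_congr rfl fun a ha => ?_
      have := Finset.HasAntidiagonal.mem_antidiagonal.1 ha
      rw [coeff_tr, if_pos (by omega)]
    rw [e1]
    split_ifs <;> linarith
  · rw [if_neg hn, if_neg (by omega)]
    have : 0 ≤ ∑ a ∈ Finset.HasAntidiagonal.antidiagonal n,
        (tr T (geo s)).coeff a.1 * (s.coeff a.2 : ℤ) := by
      refine Finset.sum_nonneg fun a _ => mul_nonneg ?_ (by positivity)
      rw [coeff_tr]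
      split_ifs
      · exact geo_nonneg h0 _
      · exact le_rfl
    linarith

section

variable {ι F : Type} [Fintype ι] [Fintype F]

/-- the cover -/
noncomputable def cov (P : Matrix ι ι ℕ[X]) (x : ι) (q : ι → ℕ[X]) (k : F → ℕ) (w : ι → ℕ[X])
    (a b : ℕ[X]) (m : Matrix F F ℕ[X]) : Matrix ((ι ⊕ Unit) ⊕ F) ((ι ⊕ Unit) ⊕ F) ℕ[X] :=
  fromBlocks
    (fromBlocks (setRow P x q) (of fun l _ => if l = x then X else 0) (of fun _ j => w j) 0)
    (of fun l i => if l = Sum.inl x then X ^ (k i) else 0)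
    (of fun _ j => Sum.elim (fun l => if l = x then a else 0) (fun _ => b) j) m

variable (P : Matrix ι ι ℕ[X]) (x : ι) (q : ι → ℕ[X]) (k : F → ℕ) (w : ι → ℕ[X]) (a b : ℕ[X])
  (m : Matrix F F ℕ[X])

omit [Fintype ι] [Fintype F] in
lemma cov_inl (l : ι ⊕ Unit) : cov P x q k w a b m (Sum.inl l) = gad P x q k w (Sum.inl l) := by
  funext j
  rcases l with l | l <;> rcases j with (j | j) | j <;> rfl
omit [Fintype ι] [Fintype F] in
@[simp] lemma cov_fl (i : F) (j : ι) : cov P x q k w a b m (Sum.inr i) (Sum.inl (Sum.inl j)) =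
    if j = x then a else 0 := rfl
omit [Fintype ι] [Fintype F] in
@[simp] lemma cov_fu (i : F) (u : Unit) : cov P x q k w a b m (Sum.inr i) (Sum.inl (Sum.inr u)) =
    b := rfl
omit [Fintype ι] [Fintype F] in
@[simp] lemma cov_ff (i i' : F) : cov P x q k w a b m (Sum.inr i) (Sum.inr i') = m i i' := rfl

theorem cov_cover [Nonempty F] {σ c : ℕ[X]} (hσ : ∑ i, X ^ (k i) = σ) (hm : ∀ i, ∑ j, m i j = c) :
    Cover (Sum.map id (fun _ => ()) : (ι ⊕ Unit) ⊕ F → (ι ⊕ Unit) ⊕ Unit)
      (cov P x q k w a b m) (bas P x q σ w a b c) := by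
  refine ⟨?_, ?_⟩
  · rintro (j | u)
    · exact ⟨Sum.inl j, rfl⟩
    · obtain ⟨i⟩ := (inferInstance : Nonempty F)
      exact ⟨Sum.inr i, rfl⟩
  · have h1 : ∀ (i : (ι ⊕ Unit) ⊕ F) (j : ι ⊕ Unit) (D : ∀ i', Decidable ((Sum.map id
        (fun _ => ()) : (ι ⊕ Unit) ⊕ F → (ι ⊕ Unit) ⊕ Unit) i' = Sum.inl j)),
        ∑ i', (@ite _ ((Sum.map id (fun _ => ()) :
        (ι ⊕ Unit) ⊕ F → (ι ⊕ Unit) ⊕ Unit) i' = Sum.inl j) (D i')
        (cov P x q k w a b m i i') 0) = cov P x q k w a b m i (Sum.inl j) := by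
      intro i j D
      rw [Finset.sum_eq_single (Sum.inl j)]
      · exact if_pos rfl
      · rintro (l | l) _ hl
        · refine if_neg ?_
          simp only [Sum.map_inl, id, Sum.inl.injEq]
          exact fun h => hl (by rw [h])
        · exact if_neg (by simp)
      · intro h
        exact absurd (Finset.mem_univ _) h
    have h2 : ∀ (i : (ι ⊕ Unit) ⊕ F) (D : ∀ i', Decidable ((Sum.map id
        (fun _ => ()) : (ι ⊕ Unit) ⊕ F → (ι ⊕ Unit) ⊕ Unit) i' = Sum.inr ())),
        ∑ i', (@ite _ ((Sum.map id (fun _ => ()) :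
        (ι ⊕ Unit) ⊕ F → (ι ⊕ Unit) ⊕ Unit) i' = Sum.inr ()) (D i')
        (cov P x q k w a b m i i') 0) = ∑ φ, cov P x q k w a b m i (Sum.inr φ) := by
      intro i D
      rw [Fintype.sum_sum_type]
      have e1 : ∀ l : ι ⊕ Unit, (@ite _ ((Sum.map id (fun _ => ()) :
          (ι ⊕ Unit) ⊕ F → (ι ⊕ Unit) ⊕ Unit) (Sum.inl l) = Sum.inr ()) (D (Sum.inl l))
          (cov P x q k w a b m i (Sum.inl l)) 0) = 0 := fun l => if_neg (by simp)
      have e2 : ∀ l : F, (@ite _ ((Sum.map id (fun _ => ()) :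
          (ι ⊕ Unit) ⊕ F → (ι ⊕ Unit) ⊕ Unit) (Sum.inr l) = Sum.inr ()) (D (Sum.inr l))
          (cov P x q k w a b m i (Sum.inr l)) 0) = cov P x q k w a b m i (Sum.inr l) :=
        fun l => if_pos (by simp)
      rw [Finset.sum_congr rfl fun l _ => e1 l, Finset.sum_congr rfl fun l _ => e2 l,
        Finset.sum_const_zero, zero_add]
    rintro ((l | u) | i) (j | j)
    · refine (h1 _ _ _).trans ?_
      rw [cov_inl]
      rcases j with j | j
      · rfl
      · rfl
    · refine (h2 _ _).trans ?_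
      simp only [cov_inl, gad_lf, Sum.map_inl, id, bas_lf]
      split_ifs
      · exact hσ
      · simp
    · refine (h1 _ _ _).trans ?_
      rw [cov_inl]
      rcases j with j | j
      · rfl
      · rfl
    · refine (h2 _ _).trans ?_
      simp only [cov_inl, gad_uf, Sum.map_inl, id, bas_uf]
      simp
    · refine (h1 _ _ _).trans ?_
      rcases j with j | j
      · rfl
      · rfl
    · refine (h2 _ _).trans ?_
      exact hm i

end

/-- THE TWISTED GADGET IS A COVER -/
theorem cov_exists (F : Type) [Fintype F] [DecidableEq F] [Nonempty F] (k : F → ℕ) {s : ℕ[X]}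
    {r c : ℝ} {n0 : ℕ} (R : Ren s r c n0) :
    ∃ N : ℕ, ∃ ε : ℝ, 0 < ε ∧ ∀ (ι : Type) [Fintype ι] (P : Matrix ι ι ℕ[X]) (x : ι)
      (w : ι → ℕ[X]), Tail P x (hubq x s) k w → ∀ g : Matrix F F ℤ[X], (∀ φ, ∑ ψ, g φ ψ = 1) →
      (∀ φ ψ, X ^ N ∣ g φ ψ - (1 : Matrix F F ℤ[X]) φ ψ) →
      (∀ φ ψ, wn r (toR (g φ ψ - (1 : Matrix F F ℤ[X]) φ ψ)) ≤ ε) →
      ∃ (Q : Matrix ((ι ⊕ Unit) ⊕ F) ((ι ⊕ Unit) ⊕ F) ℕ[X]) (B : Matrix ((ι ⊕ Unit) ⊕ Unit)
        ((ι ⊕ Unit) ⊕ Unit) ℕ[X]),
        Fr (gad P x (hubq x s) k w) {Sum.inl x} g Q ∧ IsPres B ∧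
        Cover (Sum.map id (fun _ => ()) : (ι ⊕ Unit) ⊕ F → (ι ⊕ Unit) ⊕ Unit) Q B ∧
        PEqv B P := by
  obtain ⟨A, hA⟩ : ∃ A, ∀ i, k i ≤ A :=
    ⟨Finset.univ.sup k, fun i => Finset.le_sup (f := k) (Finset.mem_univ i)⟩
  have hr := R.r0
  have hr1 := R.r1
  have hc := R.cpos
  refine ⟨n0 + 1 + A + 1, c * r ^ (1 + A), by positivity, ?_⟩
  intro ι _ P x w h g hg1 hgN hgε
  -- the truncation degree
  obtain ⟨T, hT0, hT⟩ : ∃ T, 0 < T ∧ ∀ φ ψ n, T ≤ n →
      (g φ ψ - (1 : Matrix F F ℤ[X]) φ ψ).coeff n = 0 := by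
    refine ⟨(Finset.univ.sup fun φ => Finset.univ.sup fun ψ =>
      (g φ ψ - (1 : Matrix F F ℤ[X]) φ ψ).natDegree) + 1, Nat.succ_pos _, fun φ ψ n hn => ?_⟩
    refine Polynomial.coeff_eq_zero_of_natDegree_lt ?_
    have h1 : (g φ ψ - (1 : Matrix F F ℤ[X]) φ ψ).natDegree ≤ Finset.univ.sup fun ψ =>
        (g φ ψ - (1 : Matrix F F ℤ[X]) φ ψ).natDegree :=
      Finset.le_sup (f := fun ψ => (g φ ψ - (1 : Matrix F F ℤ[X]) φ ψ).natDegree)
        (Finset.mem_univ ψ)
    have h2 : (Finset.univ.sup fun ψ => (g φ ψ - (1 : Matrix F F ℤ[X]) φ ψ).natDegree) ≤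
        Finset.univ.sup fun φ => Finset.univ.sup fun ψ =>
          (g φ ψ - (1 : Matrix F F ℤ[X]) φ ψ).natDegree :=
      Finset.le_sup (f := fun φ => Finset.univ.sup fun ψ =>
        (g φ ψ - (1 : Matrix F F ℤ[X]) φ ψ).natDegree) (Finset.mem_univ φ)
    omega
  set G : ℤ[X] := tr T (geo s) with hG
  obtain ⟨v, hv⟩ := sef_exists_nat (1 - G * (1 - toZ s)) (sef_tail_nonneg R.s0 hT0)
  obtain ⟨Gn, hGn⟩ := sef_exists_nat G fun n => by
    rw [hG, coeff_tr]
    split_ifs
    · exact geo_nonneg R.s0 _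
    · exact le_rfl
  -- the entries
  have hent : ∀ φ ψ, ∃ p : ℕ[X], toZ p = X * G * X ^ (k ψ) -
      (g φ ψ - (1 : Matrix F F ℤ[X]) φ ψ) := by
    intro φ ψ
    refine sef_exists_nat _ fun n => ?_
    have e1 : (X * G * X ^ (k ψ)).coeff n = if n < 1 + k ψ then 0 else G.coeff (n - (1 + k ψ)) := by
      have : X * G * X ^ (k ψ) = G * X ^ (1 + k ψ) := by rw [pow_add, pow_one]; ring
      rw [this, coeff_mul_X_pow']
      by_cases hn : 1 + k ψ ≤ n
      · rw [if_pos hn, if_neg (by omega)]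
      · rw [if_neg hn, if_pos (by omega)]
    rw [coeff_sub, e1]
    have hkA := hA ψ
    by_cases hn : n < n0 + 1 + A + 1
    · have h1 : (g φ ψ - (1 : Matrix F F ℤ[X]) φ ψ).coeff n = 0 :=
        (X_pow_dvd_iff.1 (hgN φ ψ)) n hn
      rw [h1, sub_zero]
      split_ifs
      · exact le_rfl
      · rw [hG, coeff_tr]
        split_ifs
        · exact geo_nonneg R.s0 _
        · exact le_rfl
    · by_cases hnT : T ≤ n
      · rw [hT φ ψ n hnT, sub_zero]
        split_ifs
        · exact le_rfl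
        · rw [hG, coeff_tr]
          split_ifs
          · exact geo_nonneg R.s0 _
          · exact le_rfl
      · rw [if_neg (by omega), hG, coeff_tr, if_pos (by omega)]
        have h1 := R.low (n - (1 + k ψ)) (by omega)
        have h2 := (coeff_le_wn hr.le (toR (g φ ψ - (1 : Matrix F F ℤ[X]) φ ψ)) n).trans
          (hgε φ ψ)
        have h3 : (toR (g φ ψ - (1 : Matrix F F ℤ[X]) φ ψ)).coeff n =
            (((g φ ψ - (1 : Matrix F F ℤ[X]) φ ψ).coeff n : ℤ) : ℝ) := by
          simp [toR]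
        rw [h3] at h2
        have h4 : (((g φ ψ - (1 : Matrix F F ℤ[X]) φ ψ).coeff n : ℤ) : ℝ) ≤
            ((PowerSeries.coeff (n - (1 + k ψ)) (geo s) : ℤ) : ℝ) := by
          refine (le_abs_self _).trans ?_
          have h5 : 0 < r ^ n := by positivity
          refine le_trans ?_ h1
          rw [← mul_le_mul_iff_of_pos_right h5]
          refine h2.trans ?_
          have h6 : c * r⁻¹ ^ (n - (1 + k ψ)) * r ^ n = c * r ^ (1 + k ψ) := by
            have h7 : r ^ n = r ^ (n - (1 + k ψ)) * r ^ (1 + k ψ) := by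
              rw [← pow_add]
              congr 1
              omega
            rw [h7, inv_pow]
            field_simp
          rw [h6]
          exact mul_le_mul_of_nonneg_left (pow_le_pow_of_le_one hr.le hr1.le (by omega)) hc.le
        have h5 : (g φ ψ - (1 : Matrix F F ℤ[X]) φ ψ).coeff n ≤
            PowerSeries.coeff (n - (1 + k ψ)) (geo s) := by exact_mod_cast h4
        linarith
  choose m hm using hent
  set σ : ℕ[X] := ∑ i, X ^ (k i) with hσ
  have hσ0 : σ.coeff 0 = 0 := by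
    rw [hσ, finsetSum_coeff]
    refine Finset.sum_eq_zero fun i _ => ?_
    have := h.kpos i
    rw [coeff_X_pow, if_neg (by omega)]
  have hsum : ∀ i, ∑ j, m i j = X * Gn * σ := by
    intro i
    refine sef_toZ_inj ?_
    rw [toZ_sum, Finset.sum_congr rfl fun j _ => hm i j, Finset.sum_sub_distrib,
      Finset.sum_sub_distrib, hg1, toZ_mul, toZ_mul, hGn, toZ_X, hσ, toZ_sum, Finset.mul_sum]
    have e1 : ∑ j, (1 : Matrix F F ℤ[X]) i j = 1 := by
      rw [Finset.sum_eq_single i]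
      · rw [Matrix.one_apply_eq]
      · intro j _ hj
        rw [Matrix.one_apply_ne hj.symm]
      · intro h
        exact absurd (Finset.mem_univ _) h
    rw [e1, sub_self, sub_zero]
    refine Finset.sum_congr rfl fun j _ => ?_
    rw [toZ_pow, toZ_X]
  have hm0 : ∀ i j, (m i j).coeff 0 = 0 := by
    intro i j
    have h1 := congrArg (fun f => f.coeff 0) (hm i j)
    simp only [coeff_toZ] at h1
    have h2 : (g i j - (1 : Matrix F F ℤ[X]) i j).coeff 0 = 0 :=
      (X_pow_dvd_iff.1 (hgN i j)) 0 (by omega)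
    rw [coeff_sub, h2, mul_assoc, coeff_X_mul_zero, sub_zero] at h1
    exact_mod_cast h1
  have ha0 : (X * v).coeff 0 = 0 := coeff_X_mul_zero _
  have hb0 : (X * Gn * X).coeff 0 = 0 := by rw [mul_assoc]; exact coeff_X_mul_zero _
  have hc0 : (X * Gn * σ).coeff 0 = 0 := by rw [mul_assoc]; exact coeff_X_mul_zero _
  have hq : ∀ j, (hubq x s j).coeff 0 = 0 := h.q0
  refine ⟨cov P x (hubq x s) k w (X * v) (X * Gn * X) (of fun i j => m i j),
    bas P x (hubq x s) σ w (X * v) (X * Gn * X) (X * Gn * σ), ⟨?_, ?_, ?_⟩,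
    bas_isPres h.pres hq hσ0 h.w0 ha0 hb0 hc0, ?_, ?_⟩
  · intro i j
    rcases i with i | i
    · rw [cov_inl]
      exact h.isPres _ _
    · rcases j with (j | j) | j
      · rw [cov_fl]
        split_ifs
        · exact ha0
        · simp
      · rw [cov_fu]
        exact hb0
      · exact hm0 i j
  · intro l
    exact cov_inl _ _ _ _ _ _ _ _ l
  · intro φ
    refine ⟨fun l => if l = Sum.inl x then X * G else 0, fun l hl => if_neg (by simpa using hl),
      fun j => ?_⟩
    rw [Finset.sum_eq_single (Sum.inl x)]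
    · beta_reduce
      rw [if_pos rfl]
      rcases j with (j | j) | j
      · simp only [IP_apply, cov_fl, gad_fl, gad_ll, if_true, reduceCtorEq, if_false,
          Sum.inl.injEq, zero_sub]
        rw [← Finset.sum_mul, hg1]
        by_cases hj : j = x
        · subst hj
          simp only [if_true, hubq_self, toZ_mul, toZ_X, hv]
          ring
        · simp only [if_neg hj, if_neg (Ne.symm hj), hubq_ne hj, toZ_zero]
          ring
      · simp only [IP_apply, cov_fu, gad_fu, gad_lu, if_true, reduceCtorEq, if_false,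
          Sum.inl.injEq, toZ_zero, sub_self, mul_zero, Finset.sum_const_zero, toZ_mul, toZ_X, hGn]
        ring
      · simp only [IP_apply, cov_ff, gad_ff, gad_lf, if_true, reduceCtorEq, if_false,
          Sum.inr.injEq, toZ_zero, sub_zero, of_apply, hm, toZ_pow, toZ_X]
        rw [Finset.sum_eq_single j]
        · rw [if_pos rfl, Matrix.one_apply]
          by_cases hj : φ = j
          · subst hj
            simp only [if_true]
            ring
          · simp only [if_neg hj]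
            ring
        · intro b _ hb
          rw [if_neg hb, mul_zero]
        · intro h
          exact absurd (Finset.mem_univ _) h
    · intro l _ hl
      beta_reduce
      rw [if_neg hl, zero_mul]
    · intro h
      exact absurd (Finset.mem_univ _) h
  · exact cov_cover P x _ k w _ _ _ rfl hsum
  · refine bas_peqv h.pres R.s0 hσ0 h.w0 (fun j => ?_) (X * G) ?_ ?_ ?_ ha0 hb0 hc0
    · rw [h.row j]
      congr 2
      by_cases hj : j = x
      · rw [if_pos hj, if_pos hj, hσ, Finset.sum_mul]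
        exact Finset.sum_congr rfl fun i _ => pow_succ _ _
      · rw [if_neg hj, if_neg hj]
    · rw [toZ_mul, toZ_X, hv]
      ring
    · rw [toZ_mul, toZ_mul, toZ_X, hGn]
    · rw [toZ_mul, toZ_mul, toZ_X, hGn]

end Pool.Agent.SSE
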