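import Pool.Agent.FTO.SEF2

/-!
# FTO project, SEF3: a small twist of the gadget is equivalent to a right resolving cover of the
presentation
-/

set_option autoImplicit false

open scoped BigOperators
open Matrix Polynomial

namespace Pool.Agent.SSE

attribute [local instance] Classical.propDecidable

section rowsum

variable {J : Type} [Fintype J] [DecidableEq J]

lemma sef_xx_mulVec {i j : J} (h : i ≠ j) (c : ℤ[X]) (v : J → ℤ[X]) (l : J) :
    (((xx h c : SpecialLinearGroup J ℤ[X]) : Matrix J J ℤ[X]).mulVec v) l =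
      v l + if l = i then c * v j else 0 := by
  have e : ((xx h c : SpecialLinearGroup J ℤ[X]) : Matrix J J ℤ[X]) = 1 + Matrix.single i j c := rfl
  rw [e, Matrix.add_mulVec, Matrix.one_mulVec, Pi.add_apply]
  congr 1
  simp only [Matrix.mulVec, dotProduct]
  by_cases hl : l = i
  · subst hl
    rw [if_pos rfl, Finset.sum_eq_single j]
    · rw [Matrix.single_apply_same]
    · intro b _ hb
      rw [Matrix.single_apply, if_neg (fun hh => hb hh.2.symm), zero_mul]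
    · intro hh
      exact absurd (Finset.mem_univ _) hh
  · rw [if_neg hl]
    refine Finset.sum_eq_zero fun b _ => ?_
    rw [Matrix.single_apply, if_neg (fun hh => hl hh.1.symm), zero_mul]

lemma sef_wn_le_nz {r : ℝ} (hr : 0 ≤ r) (g : SpecialLinearGroup J ℤ[X]) (i j : J) :
    wn r (toR ((g : Matrix J J ℤ[X]) i j - (1 : Matrix J J ℤ[X]) i j)) ≤ nz r g := by
  rw [nz_eq_sum]
  refine le_trans ?_ (Finset.single_le_sum (f := fun a => ∑ b, wn r (toR
    ((g : Matrix J J ℤ[X]) a b - (1 : Matrix J J ℤ[X]) a b))) (fun a _ =>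
      Finset.sum_nonneg fun b _ => wn_nonneg hr _) (Finset.mem_univ i))
  exact Finset.single_le_sum (f := fun b => wn r (toR
    ((g : Matrix J J ℤ[X]) i b - (1 : Matrix J J ℤ[X]) i b))) (fun b _ => wn_nonneg hr _)
      (Finset.mem_univ j)

end rowsum

/-- the defect of the row sums of `W` -/
noncomputable def sdf (W : SpecialLinearGroup (Fin 3) ℤ[X]) (a : Fin 3) : ℤ[X] :=
  1 - ∑ b, (W : Matrix (Fin 3) (Fin 3) ℤ[X]) a b

/-- the correction of the row sums -/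
noncomputable def scr (W : SpecialLinearGroup (Fin 3) ℤ[X]) : SpecialLinearGroup (Fin 5) ℤ[X] :=
  xx (show (0 : Fin 5) ≠ 3 by decide) (sdf W 0) * xx (show (1 : Fin 5) ≠ 3 by decide) (sdf W 1) *
    xx (show (2 : Fin 5) ≠ 3 by decide) (sdf W 2)

lemma e35_0 : e35 0 = 0 := rfl
lemma e35_1 : e35 1 = 1 := rfl
lemma e35_2 : e35 2 = 2 := rfl

lemma emb35_rowsum (W : SpecialLinearGroup (Fin 3) ℤ[X]) (a : Fin 3) :
    ∑ b, ((emb e35 W : SpecialLinearGroup (Fin 5) ℤ[X]) : Matrix (Fin 5) (Fin 5) ℤ[X]) (e35 a) b =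
      1 - sdf W a := by
  have h3 : (3 : Fin 5) ∉ Set.range e35 := by
    rintro ⟨i, hi⟩
    revert hi
    fin_cases i <;> decide
  have h4 : (4 : Fin 5) ∉ Set.range e35 := by
    rintro ⟨i, hi⟩
    revert hi
    fin_cases i <;> decide
  have hne3 : e35 a ≠ 3 := fun h => h3 ⟨a, h⟩
  have hne4 : e35 a ≠ 4 := fun h => h4 ⟨a, h⟩
  rw [Fin.sum_univ_five, emb_apply_right e35 W h3, emb_apply_right e35 W h4,
    Matrix.one_apply_ne hne3, Matrix.one_apply_ne hne4]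
  have k0 := emb_apply e35 W a 0
  have k1 := emb_apply e35 W a 1
  have k2 := emb_apply e35 W a 2
  rw [e35_0] at k0
  rw [e35_1] at k1
  rw [e35_2] at k2
  rw [k0, k1, k2, sdf, Fin.sum_univ_three]
  ring

lemma emb35_rowsum' (W : SpecialLinearGroup (Fin 3) ℤ[X]) {a : Fin 5} (ha : a ∉ Set.range e35) :
    ∑ b, ((emb e35 W : SpecialLinearGroup (Fin 5) ℤ[X]) : Matrix (Fin 5) (Fin 5) ℤ[X]) a b = 1 := by
  have h : ∀ b, ((emb e35 W : SpecialLinearGroup (Fin 5) ℤ[X]) : Matrix (Fin 5) (Fin 5) ℤ[X]) a b =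
      (1 : Matrix (Fin 5) (Fin 5) ℤ[X]) a b := fun b => emb_apply_left e35 W ha b
  rw [Finset.sum_congr rfl fun b _ => h b, Finset.sum_eq_single a]
  · rw [Matrix.one_apply_eq]
  · intro b _ hb
    rw [Matrix.one_apply_ne hb.symm]
  · intro hh
    exact absurd (Finset.mem_univ _) hh

/-- the corrected twist has row sums `1` -/
lemma scr_rowsum (W : SpecialLinearGroup (Fin 3) ℤ[X]) (a : Fin 5) :
    ∑ b, ((scr W * emb e35 W : SpecialLinearGroup (Fin 5) ℤ[X]) : Matrix (Fin 5) (Fin 5) ℤ[X]) a b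
      = 1 := by
  set g : Matrix (Fin 5) (Fin 5) ℤ[X] :=
    ((emb e35 W : SpecialLinearGroup (Fin 5) ℤ[X]) : Matrix (Fin 5) (Fin 5) ℤ[X]) with hg
  have h0 : ∀ (M : Matrix (Fin 5) (Fin 5) ℤ[X]) i, ∑ b, M i b = M.mulVec (fun _ => 1) i := by
    intro M i
    simp [Matrix.mulVec, dotProduct]
  have h3 : (3 : Fin 5) ∉ Set.range e35 := by
    rintro ⟨i, hi⟩
    revert hi
    fin_cases i <;> decide
  have h4 : (4 : Fin 5) ∉ Set.range e35 := by
    rintro ⟨i, hi⟩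
    revert hi
    fin_cases i <;> decide
  have g0 : g.mulVec (fun _ => 1) 0 = 1 - sdf W 0 := by
    rw [← h0]
    exact emb35_rowsum W 0
  have g1 : g.mulVec (fun _ => 1) 1 = 1 - sdf W 1 := by
    rw [← h0]
    exact emb35_rowsum W 1
  have g2 : g.mulVec (fun _ => 1) 2 = 1 - sdf W 2 := by
    rw [← h0]
    exact emb35_rowsum W 2
  have g3 : g.mulVec (fun _ => 1) 3 = 1 := by
    rw [← h0]
    exact emb35_rowsum' W h3
  have g4 : g.mulVec (fun _ => 1) 4 = 1 := by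
    rw [← h0]
    exact emb35_rowsum' W h4
  have e1 : ((scr W * emb e35 W : SpecialLinearGroup (Fin 5) ℤ[X]) : Matrix (Fin 5) (Fin 5) ℤ[X]) =
      ((xx (show (0 : Fin 5) ≠ 3 by decide) (sdf W 0) : SpecialLinearGroup (Fin 5) ℤ[X]) :
        Matrix (Fin 5) (Fin 5) ℤ[X]) *
      ((xx (show (1 : Fin 5) ≠ 3 by decide) (sdf W 1) : SpecialLinearGroup (Fin 5) ℤ[X]) :
        Matrix (Fin 5) (Fin 5) ℤ[X]) *
      ((xx (show (2 : Fin 5) ≠ 3 by decide) (sdf W 2) : SpecialLinearGroup (Fin 5) ℤ[X]) :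
        Matrix (Fin 5) (Fin 5) ℤ[X]) * g := rfl
  rw [h0, e1, ← Matrix.mulVec_mulVec, ← Matrix.mulVec_mulVec, ← Matrix.mulVec_mulVec]
  simp only [sef_xx_mulVec]
  fin_cases a
  · simp [g0, g3]
  · simp [g1, g3]
  · simp [g2, g3]
  · simp [g3]
  · simp [g4]

lemma sdf_dvd {W : SpecialLinearGroup (Fin 3) ℤ[X]} {N : ℕ} (h : Cg N W) (a : Fin 3) :
    X ^ N ∣ sdf W a := by
  have e : sdf W a = - ∑ b, ((W : Matrix (Fin 3) (Fin 3) ℤ[X]) a b -
      (1 : Matrix (Fin 3) (Fin 3) ℤ[X]) a b) := by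
    have e1 : ∑ b, (1 : Matrix (Fin 3) (Fin 3) ℤ[X]) a b = 1 := by
      rw [Finset.sum_eq_single a]
      · rw [Matrix.one_apply_eq]
      · intro b _ hb
        rw [Matrix.one_apply_ne hb.symm]
      · intro hh
        exact absurd (Finset.mem_univ _) hh
    rw [Finset.sum_sub_distrib, e1, sdf]
    ring
  rw [e, dvd_neg]
  exact Finset.dvd_sum fun b _ => h a b

lemma sdf_wn {W : SpecialLinearGroup (Fin 3) ℤ[X]} {r : ℝ} (hr : 0 ≤ r) (a : Fin 3) :
    wn r (toR (sdf W a)) ≤ 3 * nz r W := by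
  have e : sdf W a = - ∑ b, ((W : Matrix (Fin 3) (Fin 3) ℤ[X]) a b -
      (1 : Matrix (Fin 3) (Fin 3) ℤ[X]) a b) := by
    have e1 : ∑ b, (1 : Matrix (Fin 3) (Fin 3) ℤ[X]) a b = 1 := by
      rw [Finset.sum_eq_single a]
      · rw [Matrix.one_apply_eq]
      · intro b _ hb
        rw [Matrix.one_apply_ne hb.symm]
      · intro hh
        exact absurd (Finset.mem_univ _) hh
    rw [Finset.sum_sub_distrib, e1, sdf]
    ring
  rw [e, Fin.sum_univ_three, map_neg, map_add, map_add, wn_neg]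
  have h0 := sef_wn_le_nz hr W a 0
  have h1 := sef_wn_le_nz hr W a 1
  have h2 := sef_wn_le_nz hr W a 2
  refine (wn_add_le hr _ _).trans ?_
  have := wn_add_le hr (toR ((W : Matrix (Fin 3) (Fin 3) ℤ[X]) a 0 -
    (1 : Matrix (Fin 3) (Fin 3) ℤ[X]) a 0)) (toR ((W : Matrix (Fin 3) (Fin 3) ℤ[X]) a 1 -
    (1 : Matrix (Fin 3) (Fin 3) ℤ[X]) a 1))
  linarith

/-- THE MAIN STEP: a small twist of the gadget is equivalent to a cover -/
theorem sef_cover (k : Fin 5 → ℕ) {s : ℕ[X]} {r c : ℝ} {n0 : ℕ} (R : Ren s r c n0) :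
    ∃ N : ℕ, ∃ ε : ℝ, 0 < ε ∧ ∀ (ι : Type) [Fintype ι] (P : Matrix ι ι ℕ[X]) (x : ι)
      (w : ι → ℕ[X]), Tail P x (hubq x s) k w → ∀ W : SpecialLinearGroup (Fin 3) ℤ[X],
      Cg (2 * N) W → nz r W ≤ ε →
      ∀ (S : Set (ι ⊕ Unit)) (Q1 : Matrix ((ι ⊕ Unit) ⊕ Fin 5) ((ι ⊕ Unit) ⊕ Fin 5) ℕ[X]),
      Fr (gad P x (hubq x s) k w) S (emb e35 W : Matrix (Fin 5) (Fin 5) ℤ[X]) Q1 →
      ∃ (Q : Matrix ((ι ⊕ Unit) ⊕ Fin 5) ((ι ⊕ Unit) ⊕ Fin 5) ℕ[X])
        (B : Matrix ((ι ⊕ Unit) ⊕ Unit) ((ι ⊕ Unit) ⊕ Unit) ℕ[X]), IsPres Q ∧ IsPres B ∧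
        Cover (Sum.map id (fun _ => ()) : (ι ⊕ Unit) ⊕ Fin 5 → (ι ⊕ Unit) ⊕ Unit) Q B ∧
        PEqv Q1 Q ∧ PEqv B P := by
  obtain ⟨A, hA⟩ : ∃ A, ∀ i, k i ≤ A :=
    ⟨Finset.univ.sup k, fun i => Finset.le_sup (f := k) (Finset.mem_univ i)⟩
  have hr := R.r0
  have hr1 := R.r1
  have hc := R.cpos
  obtain ⟨N1, ε1, hε1, hcov⟩ := cov_exists (Fin 5) k R
  obtain ⟨N2, ε2, hε2, hfr⟩ := frame_thm hr hr1 (Fin 5) (a := c * r ^ (1 + A)) (C := 1 * (1 + 1))
    (by positivity) (by norm_num) (n0 + 1 + A + 1)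
  set ε : ℝ := min (min (ε1 / 100) (ε2 / 100)) (1 / 100) with hε
  have hε0 : 0 < ε := lt_min (lt_min (by positivity) (by positivity)) (by norm_num)
  refine ⟨max (max N1 N2) (n0 + 1 + A + 1), ε, hε0, ?_⟩
  intro ι _ P x w h W hW hnz S Q1 hQ1
  set N : ℕ := max (max N1 N2) (n0 + 1 + A + 1) with hN
  have hNN1 : N1 ≤ N := le_trans (le_max_left _ _) (le_max_left _ _)
  have hNN2 : N2 ≤ N := le_trans (le_max_right _ _) (le_max_left _ _)
  have hNN3 : n0 + 1 + A + 1 ≤ N := le_max_right _ _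
  have hb1 : ε ≤ ε1 / 100 := le_trans (min_le_left _ _) (min_le_left _ _)
  have hb2 : ε ≤ ε2 / 100 := le_trans (min_le_left _ _) (min_le_right _ _)
  have hb3 : ε ≤ 1 / 100 := min_le_right _ _
  have hd : ∀ a, X ^ (2 * N) ∣ sdf W a := fun a => sdf_dvd hW a
  -- the correction
  have hmem : scr W ∈ FLow (4 : Fin 5) (2 * N) := by
    have h1 : ∀ (i : Fin 5) (hi : i ≠ 3) (hi4 : i ≠ 4) (c : ℤ[X]), X ^ (2 * N) ∣ c →
        xx hi c ∈ FLow (4 : Fin 5) (2 * N) := by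
      intro i hi hi4 c hc
      have h3 : i ∈ {j : Fin 5 | j ≠ 4} := hi4
      have h4 : (3 : Fin 5) ∈ {j : Fin 5 | j ≠ 4} := by
        show (3 : Fin 5) ≠ 4
        decide
      exact FG_le_FLow (S := {j : Fin 5 | j ≠ 4}) (by simp) (2 * N) (xx_mem_FG hi h3 h4 hc)
    exact mul_mem (mul_mem (h1 0 _ (by decide) _ (hd 0)) (h1 1 _ (by decide) _ (hd 1)))
      (h1 2 _ (by decide) _ (hd 2))
  have hxx : ∀ (i j : Fin 5) (hij : i ≠ j) (c : ℤ[X]), nz r (xx hij c) = wn r (toR c) :=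
    fun i j hij c => nz_transvection hij c
  have hscr : nz r (scr W) ≤ 20 * ε := by
    have h0 := (sdf_wn hr.le (W := W) 0).trans (mul_le_mul_of_nonneg_left hnz (by norm_num))
    have h1 := (sdf_wn hr.le (W := W) 1).trans (mul_le_mul_of_nonneg_left hnz (by norm_num))
    have h2 := (sdf_wn hr.le (W := W) 2).trans (mul_le_mul_of_nonneg_left hnz (by norm_num))
    have n0' := wn_nonneg hr.le (toR (sdf W 0))
    have n1' := wn_nonneg hr.le (toR (sdf W 1))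
    have n2' := wn_nonneg hr.le (toR (sdf W 2))
    have m1 := nz_mul_le hr.le (xx (show (0 : Fin 5) ≠ 3 by decide) (sdf W 0))
      (xx (show (1 : Fin 5) ≠ 3 by decide) (sdf W 1))
    have m2 := nz_mul_le hr.le (xx (show (0 : Fin 5) ≠ 3 by decide) (sdf W 0) *
      xx (show (1 : Fin 5) ≠ 3 by decide) (sdf W 1)) (xx (show (2 : Fin 5) ≠ 3 by decide) (sdf W 2))
    rw [hxx, hxx] at m1
    rw [hxx] at m2
    unfold scr
    have hp1 : wn r (toR (sdf W 0)) * wn r (toR (sdf W 1)) ≤ ε := by nlinarith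
    have hq := nz_nonneg hr.le (xx (show (0 : Fin 5) ≠ 3 by decide) (sdf W 0) *
      xx (show (1 : Fin 5) ≠ 3 by decide) (sdf W 1))
    have hq2 : nz r (xx (show (0 : Fin 5) ≠ 3 by decide) (sdf W 0) *
      xx (show (1 : Fin 5) ≠ 3 by decide) (sdf W 1)) ≤ 7 * ε := by linarith
    nlinarith
  have hemb : nz r (emb e35 W) = nz r W := nz_emb _ _
  set g' : SpecialLinearGroup (Fin 5) ℤ[X] := scr W * emb e35 W with hg'
  have hg'n : nz r g' ≤ 30 * ε := by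
    have h1 := nz_mul_le hr.le (scr W) (emb e35 W)
    rw [hemb] at h1
    have h2 := nz_nonneg hr.le (scr W)
    have h3 := nz_nonneg hr.le W
    nlinarith
  have hg'C : Cg (2 * N) g' := by
    have h1 : Cg (2 * N) (scr W) := by
      have hx : ∀ (i : Fin 5) (hi : i ≠ 3) (c : ℤ[X]), X ^ (2 * N) ∣ c → Cg (2 * N) (xx hi c) := by
        intro i hi c hc a b
        rw [xx_coe_apply, add_sub_cancel_left]
        split_ifs
        · exact hc
        · exact dvd_zero _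
      exact Cg_mul (Cg_mul (hx 0 _ _ (hd 0)) (hx 1 _ _ (hd 1))) (hx 2 _ _ (hd 2))
    exact Cg_mul h1 ((Cg_emb _ _ _).2 hW)
  obtain ⟨Q, B, hQ, hB, hC, hBP⟩ := hcov ι P x w h (g' : Matrix (Fin 5) (Fin 5) ℤ[X])
    (scr_rowsum W) (fun i j => (pow_dvd_pow X (by omega)).trans (hg'C i j))
    (fun i j => (sef_wn_le_nz hr.le g' i j).trans (by linarith))
  refine ⟨Q, B, hQ.1, hB, hC, ?_, hBP⟩
  refine hfr N hNN2 (ι ⊕ Unit) _ _ _ _ (gad_frame R h (hubq_self _ _) hA) (emb e35 W) g' 4 ?_ ?_ ?_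
    ((Cg_emb _ _ _).2 (Cg_mono (by omega) hW)) S {Sum.inl x} Q1 Q hQ1 hQ
  · rw [hg', mul_inv_cancel_right]
    exact hmem
  · rw [hemb]
    linarith
  · linarith

end Pool.Agent.SSE
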