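import Pool.Agent.FTO.SEF3

/-!
# FTO project, SEF4: the assembly of `S06105`, cut before level A
-/

set_option autoImplicit false

open scoped BigOperators
open Matrix Polynomial

namespace Pool.Agent.SSE

open Pool.Agent.helper52.SSE

attribute [local instance] Classical.propDecidable

section

variable {K : Type} [AddCommGroup K] [Module ℤ[X] K] {δ : ℤ[X]}

/-- **THE CUT ASSEMBLY**: `B` is equivalent to a right resolving cover of a presentation which is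
equivalent to `A`. -/
theorem asm_sef (L : LvA K δ) (n : ℕ) (B : Matrix (Fin n) (Fin n) ℕ) (hPF : PFOut L B) :
    ∃ (I J : Type) (_ : Fintype I) (_ : Fintype J) (f : I → J) (Q : Matrix I I ℕ[X])
      (P' : Matrix J J ℕ[X]), IsPres Q ∧ IsPres P' ∧ Cover f Q P' ∧ PEqv (ofMat B) Q ∧
        PEqv P' L.P := by
  obtain ⟨rf, cf, nf, Rf⟩ := L.hr
  obtain ⟨w0, hT0⟩ := exists_tail (s := L.s) (l := L.k) L.h.pres L.hk L.hs L.hx
  have hrf := Rf.r0
  have hcf := Rf.cpos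
  obtain ⟨N₁, ε₁, hε₁, hLA⟩ := sef_cover L.k Rf
  obtain ⟨sB, l, P1, h1, hq1, hx1, hl, hP1, hs1, ⟨rB, cB, nB, RB⟩, ⟨rm, cm, nm, Rm⟩,
    ι, _, _, x, g, U0, hU0, hout⟩ := hPF
  obtain ⟨m₀, hm₀⟩ := pair_final x U0 hU0
  obtain ⟨k, s, r, c, n0, Rr, Bd, A, b, hk, Rs, hrR, hT⟩ := hout (m₀ + 2)
  -- the radius
  set ρ : ℝ := max (max rf rB) (max rm r) with hρ
  have ρf : rf ≤ ρ := le_trans (le_max_left _ _) (le_max_left _ _)
  have ρB : rB ≤ ρ := le_trans (le_max_right _ _) (le_max_left _ _)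
  have ρm : rm ≤ ρ := le_trans (le_max_left _ _) (le_max_right _ _)
  have ρr : r ≤ ρ := le_trans (le_max_right _ _) (le_max_right _ _)
  have ρ0 : 0 < ρ := lt_of_lt_of_le hrf ρf
  have ρ1 : ρ < 1 := max_lt (max_lt Rf.r1 RB.r1) (max_lt Rm.r1 Rs.r1)
  obtain ⟨N₂, ε₂, hε₂, hex⟩ := exchange (Fin 3) (Fin 5) (Fin 4) Rf RB Rm L.k l ρf ρB ρm
  obtain ⟨N₃, ε₃, hε₃, hexB⟩ := gad_exists (Fin 4) l RB
  obtain ⟨N₄, ε₄, hε₄, hexS⟩ := gad_exists (Fin 4 ⊕ Fin (m₀ + 2)) (Sum.elim l k) Rs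
  obtain ⟨N₅, ε₅, hε₅, hexF⟩ := gad_exists (Fin 5) L.k Rf
  set NN : ℕ := max (max N₁ N₂) (max N₃ (max N₄ N₅)) with hNN
  have hN1 : N₁ ≤ NN := le_trans (le_max_left _ _) (le_max_left _ _)
  have hN2 : N₂ ≤ NN := le_trans (le_max_right _ _) (le_max_left _ _)
  have hN3 : N₃ ≤ NN := le_trans (le_max_left _ _) (le_max_right _ _)
  have hN4 : N₄ ≤ NN := le_trans (le_trans (le_max_left _ _) (le_max_right _ _)) (le_max_right _ _)
  have hN5 : N₅ ≤ NN := le_trans (le_trans (le_max_right _ _) (le_max_right _ _)) (le_max_right _ _)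
  set dl : ℝ := min (min ε₁ ε₂) (min ε₃ (min ε₄ ε₅)) with hdl
  have hdl0 : 0 < dl := lt_min (lt_min hε₁ hε₂) (lt_min hε₃ (lt_min hε₄ hε₅))
  have hd1 : dl ≤ ε₁ := le_trans (min_le_left _ _) (min_le_left _ _)
  have hd2 : dl ≤ ε₂ := le_trans (min_le_left _ _) (min_le_right _ _)
  have hd3 : dl ≤ ε₃ := le_trans (min_le_right _ _) (min_le_left _ _)
  have hd4 : dl ≤ ε₄ := le_trans (min_le_right _ _) (le_trans (min_le_right _ _) (min_le_left _ _))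
  have hd5 : dl ≤ ε₅ := le_trans (min_le_right _ _) (le_trans (min_le_right _ _) (min_le_right _ _))
  -- the pair theorem
  obtain ⟨kM, hkM⟩ : ∃ A, ∀ i, (Sum.elim l k : Fin 4 ⊕ Fin (m₀ + 2) → ℕ) i ≤ A :=
    ⟨Finset.univ.sup (Sum.elim l k : Fin 4 ⊕ Fin (m₀ + 2) → ℕ), fun i =>
      Finset.le_sup (f := (Sum.elim l k : Fin 4 ⊕ Fin (m₀ + 2) → ℕ)) (Finset.mem_univ i)⟩
  have hinl : ∀ {a b : Fin 4}, a ≠ b → (Sum.inl a : Fin 4 ⊕ Fin (m₀ + 2)) ≠ Sum.inl b :=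
    fun h h' => h (Sum.inl.inj h')
  obtain ⟨T₁, ε, hε, hpair⟩ := hm₀ (Fin 4 ⊕ Fin (m₀ + 2)) (Sum.elim l k)
    (by simp only [Fintype.card_sum, Fintype.card_fin]; omega)
    (Sum.inl 0) (Sum.inl 1) (Sum.inl 2) (Sum.inl 3) (Sum.inr 0)
    (hinl (by decide)) (hinl (by decide)) (hinl (by decide))
    (by
      rintro (h | h | h)
      · exact absurd (Sum.inl.inj h) (by decide)
      · exact absurd (Sum.inl.inj h) (by decide)
      · exact absurd (Sum.inl.inj h) (by decide))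
    (by
      rintro (h | h | h | h)
      · cases h
      · cases h
      · cases h
      · cases h)
    s r c n0 Rs (max (max A kM) 1) (max b 1) Bd (le_max_right _ _) (le_max_right _ _)
    (fun f => (hkM f).trans (le_trans (le_max_right _ _) (le_max_left _ _)))
    (4 * NN) ρ dl ρ0 ρ1 hdl0
  have hδ0 : δ.coeff 0 = 1 := delta_coeff_zero L.h
  obtain ⟨r₂, hr₂a, hr₂b, hroot⟩ := exists_radius δ hrR
  have hr₂0 : 0 < r₂ := Rs.r0.trans hr₂a
  obtain ⟨T₀, hsr⟩ := small_ratio (J := ι) hr₂0 hr₂b hδ0 hroot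
    (∑ _i : ι, ∑ _j : ι, (1 + Bd)) hε
  obtain ⟨PA, PB, q, V, W, hA, hqA, hxA, hrel, hPB, hxB, hPBB, hV, hW, hU, hqx, hq0, hqle, hlA, hlB,
    hqv, ⟨b0, hb0, hb0'⟩, hPAx, hRA, hRB, hagr⟩ := hT (max T₁ T₀)
  have hkl : ∀ i, 0 < (Sum.elim l k : Fin 4 ⊕ Fin (m₀ + 2) → ℕ) i := by
    rintro (i | i)
    · exact hl i
    · exact hk i
  obtain ⟨wA, hTA⟩ := exists_tail_gen (q := q) (l := (Sum.elim l k : Fin 4 ⊕ Fin (m₀ + 2) → ℕ))
    hA.pres hkl hq0 (fun j hj n => (hqle j hj n).1) (by rw [hqx]; exact hlA) hxA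
  obtain ⟨wB, hTB⟩ := exists_tail_gen (q := q) (l := (Sum.elim l k : Fin 4 ⊕ Fin (m₀ + 2) → ℕ))
    hPB hkl hq0 (fun j hj n => (hqle j hj n).2) (by rw [hqx]; exact hlB) hxB
  -- the matrix `U` is small
  have hmn : ∀ P : Matrix ι ι ℕ[X], (∀ i j, wn Rr (toR (toZ (P i j))) ≤ Bd) →
      mn Rr (toR.mapMatrix (IP P)) ≤ ∑ _i : ι, ∑ _j : ι, (1 + Bd) := by
    intro P hP
    have hRr : 0 ≤ Rr := (Rs.r0.trans hrR).le
    unfold mn
    refine Finset.sum_le_sum fun i _ => Finset.sum_le_sum fun j _ => ?_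
    rw [RingHom.mapMatrix_apply, Matrix.map_apply, IP_apply, map_sub]
    refine (wn_sub_le hRr _ _).trans (add_le_add ?_ (hP i j))
    split_ifs
    · rw [map_one, wn_one]
    · rw [map_zero, wn_zero]
      exact zero_le_one
  obtain ⟨hnz, hCg⟩ := hsr (max T₁ T₀) (le_max_right _ _) (V * U0 * W⁻¹) (IP PA) (IP PB)
    (cast (by congr) hA.relOf.det) hU.symm (hmn PA hRA) (hmn PB hRB) (by
      intro i j
      rw [X_pow_dvd_iff]
      intro d hd
      rw [IP_apply, IP_apply, coeff_sub, coeff_sub, coeff_sub, coeff_toZ, coeff_toZ,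
        hagr i j d hd]
      ring)
  have hCg' : Cg (max T₁ T₀) (V * U0 * W⁻¹) := hCg
  have hwx : 1 ≤ (wA x).coeff b0 := by
    have h2 := hTA.row x
    rw [if_pos rfl, hqx] at h2
    rw [h2] at hb0'
    have h3 : (s + ∑ i, X ^ ((Sum.elim l k : Fin 4 ⊕ Fin (m₀ + 2) → ℕ) i + 1) + X * wA x).coeff
        (b0 + 1) = (lps s (Sum.elim l k : Fin 4 ⊕ Fin (m₀ + 2) → ℕ)).coeff (b0 + 1) +
        (wA x).coeff b0 := by
      rw [coeff_add, coeff_X_mul]
      rfl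
    rw [h3] at hb0'
    omega
  obtain ⟨Wt, hWt1, hWt2, hWt3, hWt4⟩ := hpair V W hV hW PA PB q wA wB hTA hTB hU hqx
    (fun v hv => by
      obtain ⟨a, ha, h2⟩ := hqv v hv
      exact ⟨a, le_trans ha (le_trans (le_max_left _ _) (le_max_left _ _)), h2⟩)
    ⟨b0, le_trans hb0 (le_max_left _ _), hwx⟩
    (fun v hv => by
      obtain ⟨b', hb', h2⟩ := hPAx v hv
      exact ⟨b', le_trans hb' (le_max_left _ _), h2⟩)
    (fun i j => (wn_mono' Rs.r0.le hrR.le _).trans (hRA i j))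
    (Cg_mono (le_max_left _ _) hCg') ((nz_mono Rs.r0.le hr₂a.le _).trans hnz)
  -- the element of `SL_3`
  have himg : (e34.trans Function.Embedding.inl : Fin 3 ↪ Fin 4 ⊕ Fin (m₀ + 2)) ''
      (Set.univ : Set (Fin 3)) = ({Sum.inl 0, Sum.inl 1, Sum.inl 2} : Set _) := image_fin3 _
  have hWt5 := hWt1
  rw [← himg, ← map_EG] at hWt5
  obtain ⟨W3, hW31, hW32⟩ := hWt5
  have cW3 : Cg (4 * NN) W3 := by
    rw [← Cg_emb (e34.trans Function.Embedding.inl : Fin 3 ↪ Fin 4 ⊕ Fin (m₀ + 2)), hW32]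
    exact hWt2
  have nW3 : nz ρ W3 ≤ dl := by
    rw [← nz_emb (e34.trans Function.Embedding.inl : Fin 3 ↪ Fin 4 ⊕ Fin (m₀ + 2)), hW32]
    exact hWt3
  -- the chain of presentations
  obtain ⟨Q5, hQ5⟩ := hexS ι PA x q wA hTA hqx Wt (Cg_mono (by omega) hWt2)
    ((nz_mono Rs.r0.le ρr _).trans (hWt3.trans hd4))
  obtain ⟨w4, hT4⟩ := exists_tail (s := sB) (l := l) hA.pres hl hqA hxA
  obtain ⟨w3, hT3⟩ := exists_tail (s := sB) (l := l) h1.pres hl hq1 hx1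
  have hnB : nz rB (emb e34 W3) ≤ ε₃ := by
    rw [nz_emb]
    exact (nz_mono RB.r0.le ρB _).trans (nW3.trans hd3)
  have hcB : Cg N₃ (emb e34 W3) := (Cg_emb _ _ _).2 (Cg_mono (by omega) cW3)
  obtain ⟨Q4, hQ4⟩ := hexB ι PA x (hubq x sB) w4 hT4 (hubq_self _ _) (emb e34 W3) hcB hnB
  obtain ⟨Q3, hQ3⟩ := hexB L.I P1 L.x (hubq L.x sB) w3 hT3 (hubq_self _ _) (emb e34 W3) hcB hnB
  obtain ⟨Q1, hQ1⟩ := hexF L.I L.P L.x (hubq L.x L.s) w0 hT0 (hubq_self _ _) (emb e35 W3)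
    ((Cg_emb _ _ _).2 (Cg_mono (by omega) cW3))
    (by rw [nz_emb]; exact (nz_mono Rf.r0.le ρf _).trans (nW3.trans hd5))
  have s1 : PEqv Q5 PB := hWt4 _ _ hQ5
  have s2 : PEqv Q4 Q5 := by
    refine gad_change_left hT4 hTA hQ4 (S' := {Sum.inl x}) ?_
    rw [← emb_inl_eq, hW32]
    exact hQ5
  have s3 : PEqv Q3 Q4 := by
    refine PX.transfer (s := sB) (l := l) hl rfl (emb e34 W3) ?_ hrel hT3 hT4 hQ3 hQ4
    intro I _ P x w hT
    exact hexB I P x (hubq x sB) w hT (hubq_self _ _) (emb e34 W3) hcB hnB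
  have s4 : PEqv Q1 Q3 := by
    have hTf : ∃ w1, Tail P1 L.x (hubq L.x L.s) L.k w1 := by
      refine exists_tail h1.pres L.hk (fun n => ?_) hx1
      have := hs1 n
      rw [coeff_add] at this
      change (lps L.s L.k).coeff n ≤ _
      omega
    obtain ⟨w1, hT1⟩ := hTf
    have hTm : ∃ wm, Tail P1 L.x (hubq L.x (L.s + sB))
        (Sum.elim L.k l : Fin 5 ⊕ Fin 4 → ℕ) wm := by
      refine exists_tail h1.pres ?_ (fun n => ?_) hx1
      · rintro (i | i)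
        · exact L.hk i
        · exact hl i
      · have := hs1 n
        rw [Fintype.sum_sum_type]
        simp only [Sum.elim_inl, Sum.elim_inr]
        have e : L.s + sB + (∑ i, X ^ (L.k i + 1) + ∑ i, X ^ (l i + 1)) =
            lps L.s L.k + lps sB l := by
          unfold lps
          ring
        rw [e]
        exact this
    obtain ⟨wm, hTm⟩ := hTm
    refine hex NN hN2 L.I L.P P1 L.x (hubq L.x L.s) w0 w1 (hubq L.x sB) w3 (hubq L.x (L.s + sB)) wm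
      (hubq_self _ _) (hubq_self _ _) (hubq_self _ _) hT0 hT1 hT3 hTm hP1
      (PresOf.row_span L.h h1 L.x hP1) e35 e34 3 3 ?_ ?_ W3 cW3 (nW3.trans hd2) _ _ Q1 Q3 hQ1 hQ3
    · intro a
      fin_cases a <;> decide
    · intro a
      fin_cases a <;> decide
  obtain ⟨Q6, B6, hQ6, hB6, hC6, e6, e7⟩ := hLA L.I L.P L.x w0 hT0 W3 (Cg_mono (by omega) cW3)
    ((nz_mono Rf.r0.le ρf _).trans (nW3.trans hd1)) _ Q1 hQ1
  exact ⟨_, _, inferInstance, inferInstance, _, Q6, B6, hQ6, hB6, hC6,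
    hPBB.symm.trans (s1.symm.trans (s2.symm.trans (s3.symm.trans (s4.symm.trans e6)))), e7⟩

end

end Pool.Agent.SSE
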