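import Pool.Agent.FTO.SEF4
import Pool.Agent.SSE.Fin
import Pool.Agent.SSE.HMain

/-!
# FTO project, SEF5: two primitive matrices which present the same module

`sef_pres`: if `A` and `B` present the same module with positive classes, then `B` is strong shift
equivalent to a right resolving cover of a presentation which is strong shift equivalent to `A`.
-/

set_option autoImplicit false

open scoped BigOperators
open Matrix Polynomial

namespace Pool.Agent.SSE

open Pool.Agent.helper52.SSE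

attribute [local instance] Classical.propDecidable

/-- `B` is equivalent to a right resolving cover of a presentation of `A` -/
def CovOver {n m : ℕ} (A : Matrix (Fin n) (Fin n) ℕ) (B : Matrix (Fin m) (Fin m) ℕ) : Prop :=
  ∃ (I J : Type) (_ : Fintype I) (_ : Fintype J) (f : I → J) (Q : Matrix I I ℕ[X])
    (P : Matrix J J ℕ[X]), IsPres Q ∧ IsPres P ∧ Cover f Q P ∧ PEqv (ofMat B) Q ∧
      PEqv (ofMat A) P

theorem sef_pres {K : Type} [AddCommGroup K] [Module ℤ[X] K] {δ : ℤ[X]} (D : PFM K δ) {n m : ℕ}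
    (hn : 0 < n) (hm : 0 < m) {A : Matrix (Fin n) (Fin n) ℕ} {B : Matrix (Fin m) (Fin m) ℕ}
    {p p' : ℕ} (hp : 0 < p) (hpA : ∀ i j, 2 ≤ (A ^ p) i j) (hp' : 0 < p')
    (hpB : ∀ i j, 2 ≤ (B ^ p') i j) {gA : Fin n → K} (hA : PresOf δ gA (ofMat A))
    (hgA : ∀ i, 0 < D.tau (gA i)) {gB : Fin m → K} (hB : PresOf δ gB (ofMat B))
    (hgB : ∀ i, 0 < D.tau (gB i)) : CovOver A B := by
  have hlam : 0 < D.lam := lt_trans one_pos D.one_lt
  set ξ : K := gA ⟨0, hn⟩ with hξ
  have hξ0 : 0 < D.tau ξ := hgA _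
  obtain ⟨gA', hA', hgA'⟩ := exists_large D hA hgA (D.lam ^ (n + 2) * D.tau ξ)
  obtain ⟨gB', hB', hgB'⟩ := exists_large D hB hgB (D.lam ^ (m + 2) * D.tau ξ)
  have key : ∀ (k : ℕ) (y : ℝ), D.lam ^ k * D.tau ξ < y → D.tau ξ < D.lam⁻¹ ^ k * y := by
    intro k y hy
    have h1 : 0 < D.lam⁻¹ ^ k := by positivity
    have h2 := mul_lt_mul_of_pos_left hy h1
    rw [← mul_assoc, ← mul_pow, inv_mul_cancel₀ hlam.ne', one_pow, one_mul] at h2
    exact h2
  obtain ⟨SA, hSA⟩ := exists_S1D D hn hp (A := A) (fun i j => by convert hpA i j) hA'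
    (fun i => (hgA' i).1) hξ0 (fun i => key _ _ (hgA' i).2)
  obtain ⟨SB, hSB⟩ := exists_S1D D hm hp' (A := B) (fun i j => by convert hpB i j) hB'
    (fun i => (hgB' i).1) hξ0 (fun i => key _ _ (hgB' i).2)
  have primA : Prim A := ⟨p, hp, fun i j => by
    have := hpA i j
    omega⟩
  have primB : Prim B := ⟨p', hp', fun i j => by
    have := hpB i j
    omega⟩
  obtain ⟨P, hP, hH'⟩ := thmH D SA SB B hSB (SA.lb + 7)
  obtain ⟨E1, hE1⟩ := hH' (lps (s2 (P + 1)) (k2 (P + 1) 4)) (fun d => (coeff_lps_s2 _ _ d).1)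
    (fun d hd => (coeff_lps_s2 _ _ d).2 (Or.inl (by omega)))
    (by rw [eval_lps_s2])
  have hlb := SA.b0_le_lb
  have hPF : PFOut SA.lvA B := by
    refine SA.pfOut (b := P + 1) (E := E1 + P + 10) (by omega) (by omega)
      (pairOut_of_hub primA primB ?_ (hE1 (E1 + P + 10) (by omega) (by omega)
        (fun n => SA.lps_le (by omega) (by omega) n)))
    exact (SA.PE_pres (E := E1 + P + 10) (by omega)).1.symm.trans hSA
  obtain ⟨I, J, i1, i2, f, Q, P', hQ, hP', hC, e1, e2⟩ := asm_sef SA.lvA m B hPF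
  refine ⟨I, J, i1, i2, f, Q, P', hQ, hP', hC, e1, ?_⟩
  have h3 : PEqv SA.P SA.lvA.P := (SA.PE_pres (by have := SA.three_le_lb; omega)).1
  exact hSA.symm.trans (h3.trans e2.symm)

end Pool.Agent.SSE
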