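import Pool.Agent.FTO.SEF5

/-!
# FTO project, SEF6: the reduced companion matrix of a polynomial presentation
-/

set_option autoImplicit false

open scoped BigOperators
open Matrix Polynomial

namespace Pool.Agent.SSE

open Pool.Agent.helper52.SSE

attribute [local instance] Classical.propDecidable

variable {J : Type} [Fintype J]

/-- the companion matrix with the degree `e j` in the column `j` -/
noncomputable def compE (e : J → ℕ) (P : Matrix J J ℕ[X]) :
    Matrix (Σ j, Fin (e j)) (Σ j, Fin (e j)) ℕ :=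
  fun x y => if (x.2 : ℕ) = 0 then (P x.1 y.1).coeff (y.2 + 1)
    else if x.1 = y.1 ∧ (x.2 : ℕ) = y.2 + 1 then 1 else 0

/-- the degree bound of the column -/
def ColLe (e : J → ℕ) (P : Matrix J J ℕ[X]) : Prop := ∀ i j, (P i j).natDegree ≤ e j

lemma compE_const (d : ℕ) (P : Matrix J J ℕ[X]) :
    Eqv (comp d P) (compE (fun _ => d) P) := by
  refine (Eqv.reindex (comp d P) (Equiv.sigmaEquivProd J (Fin d))).trans (Eqv.of_eq ?_)
  ext ⟨i, a⟩ ⟨j, b⟩
  simp [comp, compE]

lemma compE_step {e e' : J → ℕ} {P : Matrix J J ℕ[X]} (he : ColLe e P) (j0 : J)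
    (h0 : e' j0 = e j0 + 1) (h1 : ∀ j, j ≠ j0 → e' j = e j) :
    Eqv (compE e' P) (compE e P) := by
  have hle : ∀ j, e j ≤ e' j := by
    intro j
    by_cases hj : j = j0
    · rw [hj, h0]
      omega
    · rw [h1 j hj]
  set f : (Σ j, Fin (e j)) → Σ j, Fin (e' j) := fun x => ⟨x.1, Fin.castLE (hle x.1) x.2⟩ with hf
  have hinj : Function.Injective f := by
    rintro ⟨i, a⟩ ⟨j, b⟩ h
    simp only [hf, Sigma.mk.injEq] at h
    obtain ⟨rfl, h2⟩ := h
    rw [heq_iff_eq] at h2
    rw [Fin.castLE_injective _ h2]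
  refine (restrict (compE e' P) f hinj ?_).trans (Eqv.of_eq ?_)
  · rintro ⟨i, a⟩ ⟨j, b⟩ hb
    have hb' : e j ≤ (b : ℕ) := by
      by_contra hlt
      push Not at hlt
      exact hb ⟨⟨j, ⟨b, hlt⟩⟩, by simp [hf]⟩
    simp only [compE]
    split_ifs with h2 h3
    · exact coeff_eq_zero_of_natDegree_lt (by have := he i j; omega)
    · exfalso
      obtain ⟨h3, h4⟩ := h3
      subst h3
      have ha := a.2
      by_cases hj : i = j0
      · subst hj
        have := h0
        omega
      · have := h1 i hj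
        omega
    · rfl
  · ext ⟨i, a⟩ ⟨j, b⟩
    simp [compE, hf]

/-- the reduced companion matrix is equivalent to the companion matrix -/
theorem compE_eqv {e : J → ℕ} {P : Matrix J J ℕ[X]} (he : ColLe e P) (d : ℕ) (hd : ∀ j, e j ≤ d) :
    Eqv (comp d P) (compE e P) := by
  have key : ∀ (s : ℕ) (e : J → ℕ), ColLe e P → (∀ j, e j ≤ d) → ∑ j, (d - e j) = s →
      Eqv (comp d P) (compE e P) := by
    intro s
    induction s with
    | zero =>
      intro e _ hd hs
      have h1 : e = fun _ => d := by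
        funext j
        have := (Finset.sum_eq_zero_iff.1 hs) j (Finset.mem_univ j)
        have := hd j
        omega
      rw [h1]
      exact compE_const d P
    | succ s ih =>
      intro e he hd hs
      obtain ⟨j0, hj0⟩ : ∃ j0, e j0 < d := by
        by_contra hcon
        push Not at hcon
        have : ∑ j, (d - e j) = 0 := Finset.sum_eq_zero fun j _ => by have := hcon j; omega
        omega
      set e' : J → ℕ := fun j => if j = j0 then e j + 1 else e j with he'
      have h1 : ColLe e' P := by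
        intro i j
        refine (he i j).trans ?_
        simp only [he']
        split_ifs <;> omega
      have h2 : ∀ j, e' j ≤ d := by
        intro j
        simp only [he']
        split_ifs with h
        · rw [h]
          omega
        · exact hd j
      have h3 : ∑ j, (d - e' j) = s := by
        have h4 : ∑ j, (d - e j) = ∑ j, (d - e' j) + 1 := by
          rw [← Finset.add_sum_erase Finset.univ _ (Finset.mem_univ j0),
            ← Finset.add_sum_erase Finset.univ (fun j => d - e' j) (Finset.mem_univ j0)]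
          have h5 : ∑ j ∈ Finset.univ.erase j0, (d - e j) =
              ∑ j ∈ Finset.univ.erase j0, (d - e' j) := by
            refine Finset.sum_congr rfl fun j hj => ?_
            have := Finset.ne_of_mem_erase hj
            simp [he', this]
          rw [h5]
          have h6 : d - e' j0 = d - e j0 - 1 := by simp [he']; omega
          rw [h6]
          omega
        omega
      refine (ih e' h1 h2 h3).trans (compE_step he j0 ?_ ?_)
      · simp [he']
      · intro j hj
        simp [he', hj]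
  exact key _ e he hd rfl

/-- the presentation is equivalent to its reduced companion matrix -/
theorem peqv_compE {e : J → ℕ} {P : Matrix J J ℕ[X]} (he : ColLe e P) :
    PEqv P (ofMat (compE e P)) := by
  obtain ⟨d, hd⟩ : ∃ d, ∀ j, e j ≤ d :=
    ⟨Finset.univ.sup e, fun j => Finset.le_sup (f := e) (Finset.mem_univ j)⟩
  have h1 : DegLe' d P := fun i j => (he i j).trans (hd j)
  exact PEqv.of_comp h1 (degLe_bd _) ((compE_eqv he d hd).trans (eqv_ofMat _))

section det

variable {e : J → ℕ} {P : Matrix J J ℕ[X]}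

/-- the unipotent matrix -/
noncomputable def compV (e : J → ℕ) : Matrix (Σ j, Fin (e j)) (Σ j, Fin (e j)) ℤ[X] :=
  fun x y => if x.1 = y.1 ∧ (y.2 : ℕ) ≤ x.2 then X ^ ((x.2 : ℕ) - y.2) else 0

/-- its inverse -/
noncomputable def compV' (e : J → ℕ) : Matrix (Σ j, Fin (e j)) (Σ j, Fin (e j)) ℤ[X] :=
  fun x y => (if x = y then 1 else 0) - if x.1 = y.1 ∧ (x.2 : ℕ) = y.2 + 1 then X else 0

/-- the predecessor sum -/
lemma sum_pred {M : Type} [AddCommMonoid M] (x : Σ j, Fin (e j)) (hx : (x.2 : ℕ) ≠ 0)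
    (f : (Σ j, Fin (e j)) → M) :
    ∑ z, (if x.1 = z.1 ∧ (x.2 : ℕ) = z.2 + 1 then f z else 0) =
      f ⟨x.1, ⟨(x.2 : ℕ) - 1, by have := x.2.2; omega⟩⟩ := by
  rw [Finset.sum_eq_single (⟨x.1, ⟨(x.2 : ℕ) - 1, by have := x.2.2; omega⟩⟩ : Σ j, Fin (e j))]
  · rw [if_pos]
    refine ⟨rfl, ?_⟩
    show (x.2 : ℕ) = (x.2 : ℕ) - 1 + 1
    omega
  · rintro ⟨j, b⟩ _ hz
    rw [if_neg]
    rintro ⟨h1, h2⟩
    apply hz
    obtain ⟨i, a⟩ := x
    simp only at h1 h2 hx ⊢
    subst h1
    congr 1
    apply Fin.ext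
    show (b : ℕ) = (a : ℕ) - 1
    omega
  · intro h
    exact absurd (Finset.mem_univ _) h

lemma sum_pred_zero {M : Type} [AddCommMonoid M] (x : Σ j, Fin (e j)) (hx : (x.2 : ℕ) = 0)
    (f : (Σ j, Fin (e j)) → M) :
    ∑ z, (if x.1 = z.1 ∧ (x.2 : ℕ) = z.2 + 1 then f z else 0) = 0 := by
  refine Finset.sum_eq_zero fun z _ => if_neg ?_
  rintro ⟨-, h⟩
  omega

lemma compV_mul : compV' e * compV e = 1 := by
  refine Matrix.ext fun x y => ?_
  rw [Matrix.mul_apply]
  have h1 : ∀ z, compV' e x z * compV e z y = (if x = z then compV e z y else 0) -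
      if x.1 = z.1 ∧ (x.2 : ℕ) = z.2 + 1 then X * compV e z y else 0 := by
    intro z
    unfold compV'
    rw [sub_mul]
    congr 1
    · split_ifs <;> simp
    · split_ifs <;> simp
  simp only [h1, Finset.sum_sub_distrib]
  rw [Finset.sum_ite_eq Finset.univ x, if_pos (Finset.mem_univ _)]
  by_cases hx : (x.2 : ℕ) = 0
  · rw [sum_pred_zero x hx, sub_zero]
    unfold compV
    rw [Matrix.one_apply]
    by_cases hxy : x = y
    · rw [if_pos hxy, if_pos]
      · rw [hxy]
        simp
      · rw [hxy]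
        exact ⟨rfl, le_rfl⟩
    · rw [if_neg hxy, if_neg]
      rintro ⟨h2, h3⟩
      apply hxy
      obtain ⟨i, a⟩ := x
      obtain ⟨j, b⟩ := y
      simp only at h2 h3 hx
      subst h2
      congr 1
      apply Fin.ext
      omega
  · rw [sum_pred x hx]
    unfold compV
    rw [Matrix.one_apply]
    obtain ⟨i, a⟩ := x
    obtain ⟨j, b⟩ := y
    simp only at hx ⊢
    by_cases hij : i = j
    · subst hij
      by_cases hab : (b : ℕ) ≤ (a : ℕ) - 1
      · rw [if_pos ⟨rfl, by omega⟩, if_pos ⟨rfl, hab⟩, if_neg]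
        · rw [← pow_succ']
          have : (a : ℕ) - 1 - b + 1 = (a : ℕ) - b := by omega
          rw [this, sub_self]
        · intro h
          have h' : a = b := by simpa using h
          rw [h'] at hab hx
          omega
      · have hab1 : ¬ (i = i ∧ (b : ℕ) ≤ (a : ℕ) - 1) := fun h => hab h.2
        rw [if_neg hab1, mul_zero, sub_zero]
        by_cases hab2 : a = b
        · subst hab2
          simp
        · have hab3 : ¬ (i = i ∧ (b : ℕ) ≤ a) := by
            intro h
            apply hab2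
            apply Fin.ext
            have := h.2
            omega
          rw [if_neg hab3, if_neg]
          intro h
          exact hab2 (by simpa using h)
    · rw [if_neg (fun h => hij h.1), if_neg (fun h => hij h.1), if_neg]
      · simp
      · intro h
        exact hij (congrArg Sigma.fst h)

lemma compV_det : (compV e).det = 1 := by
  have h1 : (compV' e).det * (compV e).det = 1 := by
    rw [← Matrix.det_mul, compV_mul, Matrix.det_one]
  have h2 : IsUnit (compV e).det := IsUnit.of_mul_eq_one_right _ h1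
  obtain ⟨u, hu, hu'⟩ := Polynomial.isUnit_iff.1 h2
  have h3 : (compV e).det.eval 0 = 1 := by
    rw [← coe_evalRingHom, RingHom.map_det]
    have : (evalRingHom (0 : ℤ)).mapMatrix (compV e) = 1 := by
      ext x y
      rw [RingHom.mapMatrix_apply, Matrix.map_apply, Matrix.one_apply]
      unfold compV
      by_cases hxy : x = y
      · rw [if_pos hxy, if_pos (by rw [hxy]; exact ⟨rfl, le_rfl⟩), hxy]
        simp
      · rw [if_neg hxy]
        split_ifs with h
        · have : (x.2 : ℕ) - y.2 ≠ 0 := by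
            intro h0
            apply hxy
            obtain ⟨i, a⟩ := x
            obtain ⟨j, b⟩ := y
            obtain ⟨h2, h4⟩ := h
            simp only at h2 h4 h0
            subst h2
            congr 1
            apply Fin.ext
            omega
          rw [coe_evalRingHom, eval_pow, eval_X, zero_pow this]
        · simp
    rw [this, det_one]
  rw [← hu', eval_C] at h3
  rw [← hu', h3, map_one]

/-- the expansion of a polynomial without constant term -/
lemma sum_coeff_X {p : ℕ[X]} (h0 : p.coeff 0 = 0) {n : ℕ} (hn : p.natDegree ≤ n) :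
    ∑ b : Fin n, (C (p.coeff (b + 1)) : ℕ[X]) * X ^ ((b : ℕ) + 1) = p := by
  rw [Fin.sum_univ_eq_sum_range (fun b => (C (p.coeff (b + 1)) : ℕ[X]) * X ^ (b + 1)) n]
  have h1 := p.as_sum_range_C_mul_X_pow' (n := n + 1) (by omega)
  rw [Finset.sum_range_succ'] at h1
  rw [h0, map_zero, zero_mul, add_zero] at h1
  exact h1.symm

lemma IP_compE (x z : Σ j, Fin (e j)) : IP (ofMat (compE e P)) x z =
    (if x = z then 1 else 0) - (if (x.2 : ℕ) = 0 then
      toZ (C ((P x.1 z.1).coeff (z.2 + 1))) * X else 0) -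
      (if x.1 = z.1 ∧ (x.2 : ℕ) = z.2 + 1 then X else 0) := by
  rw [IP_apply]
  have h1 : ofMat (compE e P) x z = C (compE e P x z) * X := rfl
  rw [h1, toZ_mul, toZ_X]
  unfold compE
  by_cases hx : (x.2 : ℕ) = 0
  · have hn : ¬ (x.1 = z.1 ∧ (x.2 : ℕ) = z.2 + 1) := by rintro ⟨-, h⟩; omega
    rw [if_pos hx, if_pos hx, if_neg hn, sub_zero]
  · rw [if_neg hx, if_neg hx, sub_zero]
    congr 1
    split_ifs with h2
    · simp [toZ]
    · simp [toZ]

lemma toZ_C_mul_pow (a n : ℕ) : toZ (C a * X ^ n) = toZ (C a) * X ^ n := by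
  rw [toZ_mul, toZ_pow, toZ_X]

/-- row `(j, b)`, `b ≠ 0`, of the product -/
lemma compE_mulV (x y : Σ j, Fin (e j)) :
    (IP (ofMat (compE e P)) * compV e) x y =
      if (x.2 : ℕ) = 0 then compV e x y - ∑ i, ∑ b : Fin (e i),
        toZ (C ((P x.1 i).coeff (b + 1))) * X * compV e ⟨i, b⟩ y
      else if x = y then 1 else 0 := by
  rw [Matrix.mul_apply]
  have h1 : ∀ z, IP (ofMat (compE e P)) x z * compV e z y = (if x = z then compV e z y else 0) -
      (if (x.2 : ℕ) = 0 then toZ (C ((P x.1 z.1).coeff (z.2 + 1))) * X * compV e z y else 0) -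
      if x.1 = z.1 ∧ (x.2 : ℕ) = z.2 + 1 then X * compV e z y else 0 := by
    intro z
    rw [IP_compE, sub_mul, sub_mul]
    congr 1
    · congr 1
      · split_ifs <;> simp
      · split_ifs <;> simp
    · split_ifs <;> simp
  simp only [h1, Finset.sum_sub_distrib]
  rw [Finset.sum_ite_eq Finset.univ x, if_pos (Finset.mem_univ _)]
  by_cases hx : (x.2 : ℕ) = 0
  · rw [sum_pred_zero x hx, sub_zero, if_pos hx]
    congr 1
    simp only [if_pos hx]
    rw [Fintype.sum_sigma]
  · simp only [if_neg hx, Finset.sum_const_zero, sub_zero]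
    have h2 := congrFun (congrFun (compV_mul (e := e)) x) y
    rw [Matrix.mul_apply] at h2
    have h3 : ∀ z, compV' e x z * compV e z y = (if x = z then compV e z y else 0) -
        if x.1 = z.1 ∧ (x.2 : ℕ) = z.2 + 1 then X * compV e z y else 0 := by
      intro z
      unfold compV'
      rw [sub_mul]
      congr 1
      · split_ifs <;> simp
      · split_ifs <;> simp
    simp only [h3, Finset.sum_sub_distrib] at h2
    rw [Finset.sum_ite_eq Finset.univ x, if_pos (Finset.mem_univ _)] at h2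
    rw [h2, Matrix.one_apply]

theorem det_compE (hP : IsPres P) (he : ColLe e P) (hpos : ∀ j, 0 < e j) :
    (IP (ofMat (compE e P))).det = (IP P).det := by
  have h1 : (IP (ofMat (compE e P))).det = (IP (ofMat (compE e P)) * compV e).det := by
    rw [Matrix.det_mul, compV_det, mul_one]
  rw [h1, Matrix.twoBlockTriangular_det (IP (ofMat (compE e P)) * compV e)
    (fun x : Σ j, Fin (e j) => (x.2 : ℕ) = 0)]
  · have h2 : (toSquareBlockProp (IP (ofMat (compE e P)) * compV e)
        fun x : Σ j, Fin (e j) => ¬ (x.2 : ℕ) = 0) = 1 := by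
      refine Matrix.ext fun x y => ?_
      rw [toSquareBlockProp_def, of_apply, compE_mulV, if_neg x.2, Matrix.one_apply]
      simp only [Subtype.ext_iff]
    rw [h2, det_one, mul_one]
    set g : {x : Σ j, Fin (e j) // (x.2 : ℕ) = 0} ≃ J :=
      { toFun := fun x => x.1.1
        invFun := fun j => ⟨⟨j, ⟨0, hpos j⟩⟩, rfl⟩
        left_inv := by
          rintro ⟨⟨j, b⟩, hb⟩
          simp only at hb
          apply Subtype.ext
          show (⟨j, ⟨0, hpos j⟩⟩ : Σ j, Fin (e j)) = ⟨j, b⟩
          congr 1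
          apply Fin.ext
          exact hb.symm
        right_inv := fun j => rfl } with hg
    have h3 : (toSquareBlockProp (IP (ofMat (compE e P)) * compV e)
        fun x : Σ j, Fin (e j) => (x.2 : ℕ) = 0) = (IP P).submatrix g g := by
      refine Matrix.ext fun x y => ?_
      rw [toSquareBlockProp_def, of_apply, compE_mulV, if_pos x.2, submatrix_apply, IP_apply]
      obtain ⟨x, hx⟩ := x
      obtain ⟨y, hy⟩ := y
      show _ = (if x.1 = y.1 then 1 else 0) - toZ (P x.1 y.1)
      have hV : ∀ i (b : Fin (e i)), compV e ⟨i, b⟩ y = if i = y.1 then X ^ (b : ℕ) else 0 := by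
        intro i b
        unfold compV
        by_cases hi : i = y.1
        · rw [if_pos ⟨hi, by omega⟩, if_pos hi, hy, Nat.sub_zero]
        · rw [if_neg (fun h => hi h.1), if_neg hi]
      congr 1
      · obtain ⟨x1, x2⟩ := x
        rw [hV x1 x2]
        simp only at hx ⊢
        rw [hx, pow_zero]
      · simp only [hV]
        rw [Finset.sum_eq_single y.1]
        · simp only [if_true]
          have h4 := congrArg toZ (sum_coeff_X (hP x.1 y.1) (he x.1 y.1))
          rw [toZ_sum] at h4
          rw [← h4]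
          refine Finset.sum_congr rfl fun b _ => ?_
          rw [toZ_C_mul_pow, pow_succ']
          ring
        · intro i _ hi
          simp only [if_neg hi, mul_zero, Finset.sum_const_zero]
        · intro h
          exact absurd (Finset.mem_univ _) h
    rw [h3, det_submatrix_equiv_self]
  · intro x hx y hy
    rw [compE_mulV, if_neg hx, if_neg]
    rintro rfl
    exact hx hy

end det

section classes

variable {e : J → ℕ} {P : Matrix J J ℕ[X]} {K : Type} [AddCommGroup K] [Module ℤ[X] K]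

/-- the classes of the companion vertices -/
noncomputable def clE (e : J → ℕ) (c : J → K) (x : Σ j, Fin (e j)) : K :=
  (X : ℤ[X]) ^ (x.2 : ℕ) • c x.1

theorem presOf_compE {δ : ℤ[X]} {c : J → K} (h : PresOf δ c P) (he : ColLe e P)
    (hpos : ∀ j, 0 < e j) : PresOf δ (clE e c) (ofMat (compE e P)) := by
  refine h.of_det (isPres_ofMat _) ?_ ?_ ?_
  · intro z
    obtain ⟨v, hv⟩ := h.relOf.top z
    refine ⟨fun x => if (x.2 : ℕ) = 0 then v x.1 else 0, ?_⟩
    rw [hv, Fintype.sum_sigma]
    refine Finset.sum_congr rfl fun j _ => ?_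
    rw [Finset.sum_eq_single (⟨0, hpos j⟩ : Fin (e j))]
    · simp [clE]
    · intro b _ hb
      have hb' : ¬ (b : ℕ) = 0 := fun h0 => hb (Fin.ext h0)
      simp [hb']
    · intro h
      exact absurd (Finset.mem_univ _) h
  · intro x
    have h1 : ∀ z, IP (ofMat (compE e P)) x z • clE e c z =
        (if x = z then clE e c z else 0) -
        (if (x.2 : ℕ) = 0 then (toZ (C ((P x.1 z.1).coeff (z.2 + 1))) * X) • clE e c z else 0) -
        if x.1 = z.1 ∧ (x.2 : ℕ) = z.2 + 1 then (X : ℤ[X]) • clE e c z else 0 := by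
      intro z
      rw [IP_compE, sub_smul, sub_smul]
      congr 1
      · congr 1
        · split_ifs <;> simp
        · split_ifs <;> simp
      · split_ifs <;> simp
    simp only [h1, Finset.sum_sub_distrib]
    rw [Finset.sum_ite_eq Finset.univ x, if_pos (Finset.mem_univ _)]
    by_cases hx : (x.2 : ℕ) = 0
    · rw [sum_pred_zero x hx, sub_zero]
      simp only [if_pos hx]
      rw [Fintype.sum_sigma]
      have h2 : ∀ j, ∑ b : Fin (e j), (toZ (C ((P x.1 j).coeff (b + 1))) * X) • clE e c ⟨j, b⟩ =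
          toZ (P x.1 j) • c j := by
        intro j
        have h4 := congrArg toZ (sum_coeff_X (h.pres x.1 j) (he x.1 j))
        rw [toZ_sum] at h4
        rw [← h4, Finset.sum_smul]
        refine Finset.sum_congr rfl fun b _ => ?_
        rw [toZ_C_mul_pow]
        unfold clE
        rw [smul_smul]
        congr 1
        ring
      simp only [h2]
      have h3 := h.relOf.rel x.1
      have h5 : ∀ j, IP P x.1 j • c j = (if x.1 = j then c j else 0) - toZ (P x.1 j) • c j := by
        intro j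
        rw [IP_apply, sub_smul]
        congr 1
        split_ifs <;> simp
      simp only [h5, Finset.sum_sub_distrib] at h3
      rw [Finset.sum_ite_eq Finset.univ x.1, if_pos (Finset.mem_univ _)] at h3
      rw [← h3]
      congr 1
      unfold clE
      rw [hx, pow_zero, one_smul]
    · simp only [if_neg hx, Finset.sum_const_zero, sub_zero]
      rw [sum_pred x hx]
      unfold clE
      rw [smul_smul, ← pow_succ']
      have h2 : (x.2 : ℕ) - 1 + 1 = x.2 := by omega
      show (X : ℤ[X]) ^ (x.2 : ℕ) • c x.1 - (X : ℤ[X]) ^ ((x.2 : ℕ) - 1 + 1) • c x.1 = 0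
      rw [h2, sub_self]
  · have h1 := det_compE h.pres he hpos
    rw [h.det_IP] at h1
    exact cast (by congr) h1

end classes

section prim

/-- a matrix with two loops of consecutive lengths at a vertex joined to all vertices -/
theorem pow_pos_of_loops {V : Type} [Fintype V] [DecidableEq V] (A : Matrix V V ℕ) (x0 : V)
    (d : ℕ) (h1 : 0 < (A ^ d) x0 x0) (h2 : 0 < (A ^ (d + 1)) x0 x0)
    (hto : ∀ y, ∃ k, 0 < (A ^ k) y x0) (hfrom : ∀ y, ∃ k, 0 < (A ^ k) x0 y) :
    ∃ p, 0 < p ∧ ∀ i j, 0 < (A ^ p) i j := by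
  have hadd : ∀ (k l : ℕ) (x y z : V), 0 < (A ^ k) x y → 0 < (A ^ l) y z →
      0 < (A ^ (k + l)) x z := by
    intro k l x y z hk hl
    rw [pow_add, Matrix.mul_apply]
    exact lt_of_lt_of_le (Nat.mul_pos hk hl)
      (Finset.single_le_sum (f := fun w => (A ^ k) x w * (A ^ l) w z) (fun _ _ => Nat.zero_le _)
        (Finset.mem_univ y))
  have hmul : ∀ (k : ℕ), 0 < (A ^ k) x0 x0 → ∀ m, 0 < (A ^ (k * m)) x0 x0 := by
    intro k hk m
    induction m with
    | zero => simp
    | succ m ih =>
      rw [Nat.mul_succ]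
      exact hadd _ _ _ _ _ ih hk
  have hall : ∀ n, d * d ≤ n → 0 < (A ^ n) x0 x0 := by
    intro n hn
    rcases Nat.eq_zero_or_pos d with hd | hd
    · subst hd
      have := hmul 1 (by simpa using h2) n
      rwa [one_mul] at this
    · have h3 : n % d < d := Nat.mod_lt _ hd
      have h4 : d ≤ n / d := (Nat.le_div_iff_mul_le hd).2 hn
      have h5 : n = d * (n / d - n % d) + (d + 1) * (n % d) := by
        have h6 := Nat.div_add_mod n d
        obtain ⟨t, ht⟩ : ∃ t, n / d = n % d + t := ⟨n / d - n % d, by omega⟩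
        rw [ht] at h6 ⊢
        rw [Nat.add_sub_cancel_left]
        nlinarith
      rw [h5]
      exact hadd _ _ _ _ _ (hmul d h1 _) (hmul (d + 1) h2 _)
  choose k hk using hto
  choose l hl using hfrom
  refine ⟨(∑ y, k y) + (∑ y, l y) + d * d + 1, by omega, fun i j => ?_⟩
  have h3 : k i ≤ ∑ y, k y := Finset.single_le_sum (f := k) (fun _ _ => Nat.zero_le _)
    (Finset.mem_univ i)
  have h4 : l j ≤ ∑ y, l y := Finset.single_le_sum (f := l) (fun _ _ => Nat.zero_le _)
    (Finset.mem_univ j)
  have h5 : (∑ y, k y) + (∑ y, l y) + d * d + 1 =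
      k i + ((∑ y, k y) + (∑ y, l y) + d * d + 1 - k i - l j + l j) := by omega
  rw [h5]
  exact hadd _ _ _ _ _ (hk i) (hadd _ _ _ _ _ (hall _ (by omega)) (hl j))

theorem two_le_pow {V : Type} [Fintype V] [DecidableEq V] {A : Matrix V V ℕ} {p : ℕ}
    (h : ∀ i j, 0 < (A ^ p) i j) {a b : V} (hab : a ≠ b) (i j : V) : 2 ≤ (A ^ (p + p)) i j := by
  rw [pow_add, Matrix.mul_apply]
  have h1 : (A ^ p) i a * (A ^ p) a j + (A ^ p) i b * (A ^ p) b j ≤
      ∑ w, (A ^ p) i w * (A ^ p) w j := by
    rw [← Finset.sum_pair hab (f := fun w => (A ^ p) i w * (A ^ p) w j)]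
    exact Finset.sum_le_sum_of_subset (Finset.subset_univ _)
  have h2 := Nat.mul_pos (h i a) (h a j)
  have h3 := Nat.mul_pos (h i b) (h b j)
  omega

variable {e : J → ℕ} {P : Matrix J J ℕ[X]}

/-- the height of a column -/
noncomputable def hgt (P : Matrix J J ℕ[X]) (j : J) : ℕ := Finset.univ.sup fun i => (P i j).natDegree

lemma colLe_hgt (P : Matrix J J ℕ[X]) : ColLe (hgt P) P := fun i j =>
  Finset.le_sup (f := fun i => (P i j).natDegree) (Finset.mem_univ i)

lemma exists_hgt [Nonempty J] (P : Matrix J J ℕ[X]) (j : J) : ∃ i, (P i j).natDegree = hgt P j := by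
  obtain ⟨i, -, hi⟩ := Finset.exists_mem_eq_sup (Finset.univ : Finset J) Finset.univ_nonempty
    (fun i => (P i j).natDegree)
  exact ⟨i, hi.symm⟩

lemma compE_down (j : J) (a b : ℕ) (ha : a < e j) (hb : b < e j) (hab : a ≤ b) :
    0 < (compE e P ^ (b - a)) ⟨j, ⟨b, hb⟩⟩ ⟨j, ⟨a, ha⟩⟩ := by
  obtain ⟨t, rfl⟩ := Nat.exists_eq_add_of_le hab
  rw [Nat.add_sub_cancel_left]
  clear hab
  induction t with
  | zero =>
    rw [pow_zero]
    exact lt_of_lt_of_eq one_pos (Matrix.one_apply_eq (⟨j, ⟨a, ha⟩⟩ : Σ j, Fin (e j))).symm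
  | succ t ih =>
    rw [pow_succ', Matrix.mul_apply]
    have h1 : 0 < compE e P ⟨j, ⟨a + (t + 1), hb⟩⟩ ⟨j, ⟨a + t, by omega⟩⟩ := by
      unfold compE
      rw [if_neg (by show ¬ (a + (t + 1) = 0); omega), if_pos ⟨rfl, rfl⟩]
      exact one_pos
    exact lt_of_lt_of_le (Nat.mul_pos h1 (ih (by omega)))
      (Finset.single_le_sum (f := fun w => compE e P ⟨j, ⟨a + (t + 1), hb⟩⟩ w *
        (compE e P ^ t) w ⟨j, ⟨a, ha⟩⟩) (fun _ _ => Nat.zero_le _) (Finset.mem_univ _))

/-- a nonzero coefficient gives a path between the main vertices -/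
lemma compE_jump (i j : J) (hi : 0 < e i) (m b : ℕ) (hm : m < e j)
    (h : (P i j).coeff (m + 1) ≠ 0) (hb : b ≤ m) :
    0 < (compE e P ^ (m - b + 1)) ⟨i, ⟨0, hi⟩⟩ ⟨j, ⟨b, by omega⟩⟩ := by
  rw [pow_succ', Matrix.mul_apply]
  have h1 : 0 < compE e P ⟨i, ⟨0, hi⟩⟩ ⟨j, ⟨m, hm⟩⟩ := by
    unfold compE
    rw [if_pos rfl]
    exact Nat.pos_of_ne_zero h
  exact lt_of_lt_of_le (Nat.mul_pos h1 (compE_down j b m (by omega) hm hb))
    (Finset.single_le_sum (f := fun w => compE e P ⟨i, ⟨0, hi⟩⟩ w *
      (compE e P ^ (m - b)) w ⟨j, ⟨b, by omega⟩⟩) (fun _ _ => Nat.zero_le _) (Finset.mem_univ _))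

theorem compE_prim (hP : IsPres P) (hne : ∀ i j, P i j ≠ 0) (x0 : J) (d : ℕ)
    (h1 : (P x0 x0).coeff d ≠ 0) (h2 : (P x0 x0).coeff (d + 1) ≠ 0) :
    ∃ p, 0 < p ∧ ∀ x y, 2 ≤ (compE (hgt P) P ^ p) x y := by
  have : Nonempty J := ⟨x0⟩
  have hdeg : ∀ i j, 0 < (P i j).natDegree := by
    intro i j
    by_contra h0
    have h3 : (P i j).natDegree = 0 := by omega
    apply hne i j
    rw [eq_C_of_natDegree_eq_zero h3, hP i j, map_zero]
  have hpos : ∀ j, 0 < hgt P j := fun j => lt_of_lt_of_le (hdeg x0 j) (colLe_hgt P x0 j)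
  have hlead : ∀ i j, (P i j).coeff ((P i j).natDegree - 1 + 1) ≠ 0 := by
    intro i j
    have h3 : (P i j).natDegree - 1 + 1 = (P i j).natDegree := by
      have := hdeg i j
      omega
    rw [h3]
    exact leadingCoeff_ne_zero.2 (hne i j)
  have hd0 : d ≠ 0 := by
    rintro rfl
    exact h1 (hP _ _)
  have hd1 : d + 1 ≤ hgt P x0 := (le_natDegree_of_ne_zero h2).trans (colLe_hgt P x0 x0)
  set z0 : Σ j, Fin (hgt P j) := ⟨x0, ⟨0, hpos x0⟩⟩ with hz0
  have hadd : ∀ (k l : ℕ) (x y z : Σ j, Fin (hgt P j)), 0 < (compE (hgt P) P ^ k) x y →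
      0 < (compE (hgt P) P ^ l) y z → 0 < (compE (hgt P) P ^ (k + l)) x z := by
    intro k l x y z hk hl
    rw [pow_add, Matrix.mul_apply]
    exact lt_of_lt_of_le (Nat.mul_pos hk hl)
      (Finset.single_le_sum (f := fun w => (compE (hgt P) P ^ k) x w * (compE (hgt P) P ^ l) w z)
        (fun _ _ => Nat.zero_le _) (Finset.mem_univ y))
  have hmain : ∀ i j, ∃ k, 0 < (compE (hgt P) P ^ k) ⟨i, ⟨0, hpos i⟩⟩ ⟨j, ⟨0, hpos j⟩⟩ := by
    intro i j
    exact ⟨_, compE_jump i j (hpos i) ((P i j).natDegree - 1) 0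
      (by have := colLe_hgt P i j; have := hdeg i j; omega) (hlead i j) (Nat.zero_le _)⟩
  obtain ⟨p, hp, hpp⟩ := pow_pos_of_loops (compE (hgt P) P) z0 d (by
      have h3 := compE_jump (P := P) x0 x0 (hpos x0) (d - 1) 0 (by omega)
        (by rw [Nat.sub_add_cancel (by omega)]; exact h1) (Nat.zero_le _)
      have h4 : d - 1 - 0 + 1 = d := by omega
      rw [h4] at h3
      exact h3)
    (by
      have h3 := compE_jump (P := P) x0 x0 (hpos x0) d 0 (by omega) h2 (Nat.zero_le _)
      exact h3)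
    (by
      rintro ⟨j, b⟩
      obtain ⟨k, hk⟩ := hmain j x0
      have h3 := compE_down (P := P) j 0 b (hpos j) b.2 (Nat.zero_le _)
      exact ⟨_, hadd _ _ _ _ _ h3 hk⟩)
    (by
      rintro ⟨j, b⟩
      obtain ⟨i, hi⟩ := exists_hgt P j
      obtain ⟨k, hk⟩ := hmain x0 i
      have hbj := b.2
      have h3 := compE_jump (P := P) i j (hpos i) ((P i j).natDegree - 1) b
        (by have := colLe_hgt P i j; have := hdeg i j; omega) (hlead i j) (by omega)
      exact ⟨_, hadd _ _ _ _ _ hk h3⟩)
  refine ⟨p + p, by omega, fun x y => ?_⟩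
  refine two_le_pow hpp (a := z0) (b := ⟨x0, ⟨1, by omega⟩⟩) ?_ x y
  rw [hz0]
  intro h3
  simp only [Sigma.mk.injEq, heq_eq_eq, true_and, Fin.mk.injEq] at h3
  omega

/-- FINAL: a presentation with nonzero entries and consecutive loops is equivalent to a primitive
matrix with positive classes -/
theorem exists_prim_mat {K : Type} [AddCommGroup K] [Module ℤ[X] K] {δ : ℤ[X]} (D : PFM K δ)
    {c : J → K} (h : PresOf δ c P) (hc : ∀ j, 0 < D.tau (c j)) (hne : ∀ i j, P i j ≠ 0) (x0 : J)
    (d : ℕ) (h1 : (P x0 x0).coeff d ≠ 0) (h2 : (P x0 x0).coeff (d + 1) ≠ 0) :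
    ∃ (n : ℕ) (A : Matrix (Fin n) (Fin n) ℕ) (g : Fin n → K) (p : ℕ), 0 < n ∧ 0 < p ∧
      (∀ i j, 2 ≤ (A ^ p) i j) ∧ PresOf δ g (ofMat A) ∧ (∀ i, 0 < D.tau (g i)) ∧
      PEqv P (ofMat A) := by
  obtain ⟨p, hp, hpp⟩ := compE_prim h.pres hne x0 d h1 h2
  have hdeg : ∀ i j, 0 < (P i j).natDegree := by
    intro i j
    by_contra h0
    have h3 : (P i j).natDegree = 0 := by omega
    apply hne i j
    rw [eq_C_of_natDegree_eq_zero h3, h.pres i j, map_zero]
  have hpos : ∀ j, 0 < hgt P j := fun j => lt_of_lt_of_le (hdeg x0 j) (colLe_hgt P x0 j)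
  have h3 := presOf_compE h (colLe_hgt P) hpos
  set g := (Fintype.equivFin (Σ j, Fin (hgt P j))).symm with hg
  obtain ⟨h4, h5⟩ := h3.reindex g
  have hpow : ∀ k, ((compE (hgt P) P).submatrix g g) ^ k = (compE (hgt P) P ^ k).submatrix g g := by
    intro k
    induction k with
    | zero => rw [pow_zero, pow_zero, submatrix_one_equiv]
    | succ k ih => rw [pow_succ, pow_succ, ih, submatrix_mul_equiv]
  refine ⟨_, (compE (hgt P) P).submatrix g g, clE (hgt P) c ∘ g, p,
    Fintype.card_pos_iff.2 ⟨⟨x0, ⟨0, hpos x0⟩⟩⟩, hp, ?_, h5, ?_, (peqv_compE (colLe_hgt P)).trans h4⟩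
  · intro i j
    have := congrFun (congrFun (hpow p) i) j
    have h6 := hpp (g i) (g j)
    rw [submatrix_apply] at this
    rw [← this] at h6
    exact cast (by congr) h6
  · intro i
    show 0 < D.tau (clE (hgt P) c (g i))
    unfold clE
    have h6 : ∀ (k : ℕ) (z : K), 0 < D.tau z → 0 < D.tau ((X : ℤ[X]) ^ k • z) := by
      intro k
      induction k with
      | zero => intro z hz; rwa [pow_zero, one_smul]
      | succ k ih =>
        intro z hz
        rw [pow_succ, mul_smul]
        refine ih _ ?_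
        rw [D.tau_X]
        exact mul_pos (inv_pos.2 (lt_trans one_pos D.one_lt)) hz
    exact h6 _ _ (hc _)

end prim

end Pool.Agent.SSE
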