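import Pool.Agent.FTO.Fil
import Pool.Agent.SSE.HGood
import Pool.Agent.SSE.HTau

/-!
# FTO: series of finite norm, matrices of such series, block triangular matrices
-/

set_option autoImplicit false

open scoped BigOperators
open Matrix Polynomial

namespace Pool.Agent.FTO

open Pool.Agent.SSE

attribute [local instance] Classical.propDecidable

/-- `ps` as a ring homomorphism -/
noncomputable def psR : ℤ[X] →+* PowerSeries ℤ := Polynomial.coeToPowerSeries.ringHom

theorem psR_apply (p : ℤ[X]) : psR p = ps p := rfl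

theorem psR_inj : Function.Injective psR := Polynomial.coe_injective ℤ

theorem fn_ps (r : ℝ) (p : ℤ[X]) : FN r (ps p) := by
  have h1 : HN.toRS (ps p) = ((toR p : ℝ[X]) : PowerSeries ℝ) := by
    ext n
    rw [HN.coeff_toRS, coeff_ps, Polynomial.coeff_coe]
    simp [toR]
  unfold FN
  rw [h1]
  exact PF.hasN_poly r _

/-- the series of finite norm -/
noncomputable def FNS (r : ℝ) (hr : 0 ≤ r) : Subring (PowerSeries ℤ) where
  carrier := {f | FN r f}
  mul_mem' := fun hf hg => FN.mul hr hf hg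
  one_mem' := by
    have := fn_ps r 1
    have h1 : ps (1 : ℤ[X]) = 1 := Polynomial.coe_one
    rwa [h1] at this
  add_mem' := fun hf hg => FN.add hr hf hg
  zero_mem' := by
    have := fn_ps r 0
    have h1 : ps (0 : ℤ[X]) = 0 := Polynomial.coe_zero
    rwa [h1] at this
  neg_mem' := fun {f} hf => by
    have h0 : FN r (0 : PowerSeries ℤ) := by
      have := fn_ps r 0
      have h1 : ps (0 : ℤ[X]) = 0 := Polynomial.coe_zero
      rwa [h1] at this
    have := FN.sub hr h0 hf
    rwa [zero_sub] at this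

/-- evaluation on the series of finite norm -/
noncomputable def evS (r : ℝ) (hr : 0 ≤ r) (x : ℝ) (hx : ‖x‖ ≤ r) : FNS r hr →+* ℝ where
  toFun f := sv x f.1
  map_one' := by
    change PF.ev x (HN.toRS 1) = 1
    rw [map_one, PF.ev_one]
  map_mul' f g := by
    change PF.ev x (HN.toRS (f.1 * g.1)) = _
    rw [map_mul, PF.ev_mul f.2 g.2 hx]
  map_zero' := by
    have h := PF.ev_poly x (0 : Polynomial ℝ)
    change PF.ev x (HN.toRS 0) = 0
    rw [map_zero]
    rw [Polynomial.coe_zero] at h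
    rw [h, Polynomial.eval_zero]
  map_add' f g := by
    change PF.ev x (HN.toRS (f.1 + g.1)) = _
    rw [map_add, PF.ev_add f.2 g.2 hx]

theorem evS_apply (r : ℝ) (hr : 0 ≤ r) (x : ℝ) (hx : ‖x‖ ≤ r) (f : FNS r hr) :
    evS r hr x hx f = sv x f.1 := rfl

theorem sn_nonneg' {r : ℝ} (hr : 0 ≤ r) (f : PowerSeries ℤ) : 0 ≤ sn r f := PF.nS_nonneg hr _

theorem sn_mul_le' {r : ℝ} (hr : 0 ≤ r) {f g : PowerSeries ℤ} (hf : FN r f) (hg : FN r g) :
    sn r (f * g) ≤ sn r f * sn r g := by
  unfold sn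
  rw [map_mul]
  exact PF.nS_mul_le hr hf hg

theorem sn_add_le' {r : ℝ} (hr : 0 ≤ r) {f g : PowerSeries ℤ} (hf : FN r f) (hg : FN r g) :
    sn r (f + g) ≤ sn r f + sn r g := by
  unfold sn
  rw [map_add]
  exact PF.nS_add_le hr hf hg

theorem sn_zero' (r : ℝ) : sn r (0 : PowerSeries ℤ) = 0 := by
  unfold sn PF.nS
  simp

theorem sn_sum_le' {r : ℝ} (hr : 0 ≤ r) {α : Type*} (t : Finset α) (f : α → PowerSeries ℤ)
    (hf : ∀ a ∈ t, FN r (f a)) : sn r (∑ a ∈ t, f a) ≤ ∑ a ∈ t, sn r (f a) := by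
  induction t using Finset.induction_on with
  | empty => simp [sn_zero']
  | insert a t ha ih =>
    rw [Finset.sum_insert ha, Finset.sum_insert ha]
    refine (sn_add_le' hr (hf a (Finset.mem_insert_self _ _)) (FN.sum hr t f fun b hb =>
      hf b (Finset.mem_insert_of_mem hb))).trans ?_
    exact add_le_add_right (ih fun b hb => hf b (Finset.mem_insert_of_mem hb)) _

section mat

variable {I : Type} [Fintype I]

theorem fn_matmul {r : ℝ} (hr : 0 ≤ r) {A B : Matrix I I (PowerSeries ℤ)}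
    (hA : ∀ i j, FN r (A i j)) (hB : ∀ i j, FN r (B i j)) (i j : I) : FN r ((A * B) i j) := by
  rw [Matrix.mul_apply]
  exact FN.sum hr _ _ fun k _ => FN.mul hr (hA i k) (hB k j)

/-- a bound for the norm of the entries of a product -/
theorem sn_matmul_le {r : ℝ} (hr : 0 ≤ r) {A B : Matrix I I (PowerSeries ℤ)}
    (hA : ∀ i j, FN r (A i j)) (hB : ∀ i j, FN r (B i j)) {a b : ℝ} (ha : ∀ i j, sn r (A i j) ≤ a)
    (hb : ∀ i j, sn r (B i j) ≤ b) (i j : I) :
    sn r ((A * B) i j) ≤ Fintype.card I * (a * b) := by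
  rw [Matrix.mul_apply]
  refine (sn_sum_le' hr _ _ fun k _ => FN.mul hr (hA i k) (hB k j)).trans ?_
  have ha0 : 0 ≤ a := (sn_nonneg' hr _).trans (ha i i)
  calc ∑ k, sn r (A i k * B k j) ≤ ∑ _k : I, a * b := Finset.sum_le_sum fun k _ =>
        (sn_mul_le' hr (hA i k) (hB k j)).trans
          (mul_le_mul (ha i k) (hb k j) (sn_nonneg' hr _) ha0)
    _ = Fintype.card I * (a * b) := by
        rw [Finset.sum_const, Finset.card_univ, nsmul_eq_mul]

theorem dvd_matmul {A B : Matrix I I (PowerSeries ℤ)} {N : ℕ}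
    (h : ∀ i j, (PowerSeries.X : PowerSeries ℤ) ^ N ∣ A i j) (i j : I) :
    (PowerSeries.X : PowerSeries ℤ) ^ N ∣ (A * B) i j := by
  rw [Matrix.mul_apply]
  exact Finset.dvd_sum fun k _ => Dvd.dvd.mul_right (h i k) _

theorem dvd_matmul' {A B : Matrix I I (PowerSeries ℤ)} {N : ℕ}
    (h : ∀ i j, (PowerSeries.X : PowerSeries ℤ) ^ N ∣ B i j) (i j : I) :
    (PowerSeries.X : PowerSeries ℤ) ^ N ∣ (A * B) i j := by
  rw [Matrix.mul_apply]
  exact Finset.dvd_sum fun k _ => Dvd.dvd.mul_left (h k j) _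

/-- the diagonal blocks of a product of block triangular matrices -/
theorem toSquareBlock_mul {R : Type} [CommRing R] {typ : I → Fin 3} {A B : Matrix I I R}
    (hA : A.BlockTriangular typ) (hB : B.BlockTriangular typ) (k : Fin 3) :
    (A * B).toSquareBlock typ k = A.toSquareBlock typ k * B.toSquareBlock typ k := by
  ext i j
  have hi := i.2
  have hj := j.2
  have h1 : (A * B).toSquareBlock typ k i j = ∑ m, A i m * B m j := Matrix.mul_apply
  have h2 : (A.toSquareBlock typ k * B.toSquareBlock typ k) i j =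
      ∑ m : {a // typ a = k}, A i m * B m j := Matrix.mul_apply
  have h3 : (∑ m : {a // typ a = k}, A i m * B m j) =
      ∑ m ∈ Finset.univ.filter fun m => typ m = k, A i m * B m j := by
    symm
    exact Finset.sum_subtype _ (by simp) _
  rw [h1, h2, h3, Finset.sum_filter_of_ne]
  intro m _ hm
  by_contra hne
  rcases lt_or_gt_of_ne hne with h | h
  · exact hm (by rw [hA (show typ m < typ i by rw [hi]; exact h), zero_mul])
  · exact hm (by rw [hB (show typ j < typ m by rw [hj]; exact h), mul_zero])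

end mat

section rel

variable {K : Type} [AddCommGroup K] [Module ℤ[X] K] {ι κ : Type} [Fintype ι] [Fintype κ]

theorem relOf_reindex {δ : ℤ[X]} {g : ι → K} {M : Matrix ι ι ℤ[X]} (h : RelOf δ g M)
    (e : κ ≃ ι) : RelOf δ (g ∘ e) (M.submatrix e e) := by
  refine ⟨fun i => ?_, fun v hv => ?_, fun z => ?_, ?_⟩
  · rw [← h.rel (e i)]
    exact Equiv.sum_comp e (fun j => M (e i) j • g j)
  · obtain ⟨c, hc⟩ := h.span (v ∘ e.symm) (by
      rw [← hv, ← Equiv.sum_comp e]
      simp)
    refine ⟨c ∘ e, ?_⟩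
    funext j
    have := congrFun hc (e j)
    simp only [Function.comp_apply, Equiv.symm_apply_apply] at this
    rw [this]
    simp only [Matrix.vecMul, dotProduct, Function.comp_apply, Matrix.submatrix_apply]
    exact (Equiv.sum_comp e (fun k => c k * M k (e j))).symm
  · obtain ⟨v, hv⟩ := h.top z
    refine ⟨v ∘ e, ?_⟩
    rw [hv]
    exact (Equiv.sum_comp e (fun j => v j • g j)).symm
  · rw [Matrix.det_submatrix_equiv_self, h.det]

end rel

end Pool.Agent.FTO
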