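import Pool.Agent.SSE.HDefs
import Pool.Agent.FTO.Hosts

/-!
# FTO: the long cycles are small

`∏ (1 - X^(n p))^(e n)` tends to `1` in every norm of radius `r < 1` as `p → ∞`.
-/

set_option autoImplicit false

open scoped BigOperators
open PowerSeries Filter Topology

namespace Pool.Agent.FTO

open Pool.Agent.SSE

/-- families of series which tend to `1` -/
structure Sm (r : ℝ) (F : ℕ → PowerSeries ℤ) : Prop where
  fn : ∀ p, 0 < p → FN r (F p)
  lim : Tendsto (fun p => sn r (F p - 1)) atTop (𝓝 0)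
  low : ∀ p d, d < p → coeff d (F p) = coeff d (1 : PowerSeries ℤ)

namespace Sm

variable {r : ℝ} {F G : ℕ → PowerSeries ℤ}

theorem one : Sm r fun _ => 1 := by
  refine ⟨fun p _ => ?_, ?_, fun p d _ => rfl⟩
  · show PF.HasN r (HN.toRS 1)
    rw [map_one]
    exact PF.hasN_one r
  · have : (fun p : ℕ => sn r ((1 : PowerSeries ℤ) - 1)) = fun _ => 0 := by
      funext p
      show PF.nS r (HN.toRS (1 - 1)) = 0
      rw [sub_self, map_zero]
      unfold PF.nS
      simp
    rw [this]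
    exact tendsto_const_nhds

theorem mul (hr : 0 ≤ r) (hF : Sm r F) (hG : Sm r G) : Sm r fun p => F p * G p := by
  refine ⟨fun p hp => ?_, ?_, fun p d hd => ?_⟩
  · show PF.HasN r (HN.toRS (F p * G p))
    rw [map_mul]
    exact (hF.fn p hp).mul hr (hG.fn p hp)
  · have h1 : Tendsto (fun p => sn r (F p - 1) * sn r (G p - 1) + (sn r (F p - 1) +
        sn r (G p - 1))) atTop (𝓝 (0 * 0 + (0 + 0))) :=
      (hF.lim.mul hG.lim).add (hF.lim.add hG.lim)
    rw [mul_zero, add_zero, add_zero] at h1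
    refine tendsto_of_tendsto_of_tendsto_of_le_of_le' tendsto_const_nhds h1 ?_ ?_
    · exact Eventually.of_forall fun p => PF.nS_nonneg hr _
    · refine (eventually_gt_atTop 0).mono fun p hp => ?_
      have hF1 : PF.HasN r (HN.toRS (F p - 1)) := by
        rw [map_sub, map_one]
        exact (hF.fn p hp).sub hr (PF.hasN_one r)
      have hG1 : PF.HasN r (HN.toRS (G p - 1)) := by
        rw [map_sub, map_one]
        exact (hG.fn p hp).sub hr (PF.hasN_one r)
      have e : HN.toRS (F p * G p - 1) = HN.toRS (F p - 1) * HN.toRS (G p - 1) +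
          (HN.toRS (F p - 1) + HN.toRS (G p - 1)) := by
        rw [← map_mul, ← map_add, ← map_add]
        congr 1
        ring
      show PF.nS r (HN.toRS (F p * G p - 1)) ≤ _
      rw [e]
      refine (PF.nS_add_le hr (hF1.mul hr hG1) (hF1.add hr hG1)).trans ?_
      exact add_le_add (PF.nS_mul_le hr hF1 hG1) (PF.nS_add_le hr hF1 hG1)
  · rw [coeff_mul]
    have h1 : ∀ q ∈ Finset.HasAntidiagonal.antidiagonal d, coeff q.1 (F p) * coeff q.2 (G p) =
        coeff q.1 (1 : PowerSeries ℤ) * coeff q.2 (1 : PowerSeries ℤ) := by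
      intro q hq
      have hq' := Finset.HasAntidiagonal.mem_antidiagonal.1 hq
      rw [hF.low p q.1 (by omega), hG.low p q.2 (by omega)]
    rw [Finset.sum_congr rfl h1, ← coeff_mul, one_mul]

theorem pow (hr : 0 ≤ r) (hF : Sm r F) (k : ℕ) : Sm r fun p => F p ^ k := by
  induction k with
  | zero =>
    simp only [pow_zero]
    exact one
  | succ k ih =>
    simp only [pow_succ]
    exact ih.mul hr hF

theorem prod (hr : 0 ≤ r) {α : Type} (s : Finset α) (F : α → ℕ → PowerSeries ℤ)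
    (hF : ∀ a ∈ s, Sm r (F a)) : Sm r fun p => ∏ a ∈ s, F a p := by
  classical
  induction s using Finset.induction_on with
  | empty =>
    simp only [Finset.prod_empty]
    exact one
  | insert a s ha ih =>
    simp only [Finset.prod_insert ha]
    exact (hF a (Finset.mem_insert_self a s)).mul hr
      (ih fun b hb => hF b (Finset.mem_insert_of_mem hb))

theorem nS_X_pow (N : ℕ) : PF.HasN r (HN.toRS (X ^ N)) ∧ PF.nS r (HN.toRS (X ^ N)) = r ^ N := by
  have h : ∀ d, ‖coeff d (HN.toRS (X ^ N))‖ * r ^ d = if d = N then r ^ N else 0 := by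
    intro d
    rw [HN.coeff_toRS, coeff_X_pow]
    split_ifs with hd
    · rw [hd, Int.cast_one, norm_one, one_mul]
    · rw [Int.cast_zero, norm_zero, zero_mul]
  constructor
  · refine (summable_congr h).2 ?_
    exact summable_of_ne_finset_zero (s := {N}) fun d hd =>
      if_neg fun h' => hd (Finset.mem_singleton.2 h')
  · unfold PF.nS
    rw [tsum_congr h, tsum_ite_eq]

theorem mul_atTop {n : ℕ} (hn : 0 < n) : Tendsto (fun p : ℕ => n * p) atTop atTop :=
  tendsto_atTop_mono (fun p => Nat.le_mul_of_pos_left p hn) tendsto_id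

/-- `1 - X^(n p)` -/
theorem basic (hr : 0 ≤ r) (hr1 : r < 1) {n : ℕ} (hn : 0 < n) :
    Sm r fun p => (1 : PowerSeries ℤ) - X ^ (n * p) := by
  refine ⟨fun p _ => ?_, ?_, fun p d hd => ?_⟩
  · show PF.HasN r (HN.toRS (1 - X ^ (n * p)))
    rw [map_sub, map_one]
    exact (PF.hasN_one r).sub hr (nS_X_pow _).1
  · have h1 : (fun p => sn r ((1 : PowerSeries ℤ) - X ^ (n * p) - 1)) = fun p => r ^ (n * p) := by
      funext p
      show PF.nS r (HN.toRS (1 - X ^ (n * p) - 1)) = _
      rw [show (1 : PowerSeries ℤ) - X ^ (n * p) - 1 = -(X ^ (n * p)) by ring, map_neg,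
        PF.nS_neg, (nS_X_pow _).2]
    rw [h1]
    exact (tendsto_pow_atTop_nhds_zero_of_lt_one hr hr1).comp (mul_atTop hn)
  · rw [map_sub, coeff_X_pow, if_neg, sub_zero]
    have := Nat.le_mul_of_pos_left p hn
    omega

theorem basic_inv (hr : 0 ≤ r) (hr1 : r < 1) {n : ℕ} (hn : 0 < n) :
    Sm r fun p => HN.geo (X ^ (n * p)) := by
  have hc0 : ∀ p, 0 < p → coeff 0 ((X : PowerSeries ℤ) ^ (n * p)) = 0 := by
    intro p hp
    rw [coeff_X_pow, if_neg]
    have := Nat.mul_pos hn hp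
    omega
  have hlt : ∀ p, 0 < p → r ^ (n * p) ≤ r := by
    intro p hp
    exact pow_le_of_le_one hr hr1.le (Nat.mul_pos hn hp).ne'
  have hN : ∀ p, 0 < p → PF.HasN r (HN.toRS (HN.geo (X ^ (n * p)))) := by
    intro p hp
    refine HN.hasN_geo hr (hc0 p hp) (nS_X_pow _).1 ?_
    rw [(nS_X_pow _).2]
    exact (hlt p hp).trans_lt hr1
  have hle : ∀ p, 0 < p → PF.nS r (HN.toRS (HN.geo (X ^ (n * p)) - 1)) ≤
      r ^ (n * p) * PF.nS r (HN.toRS (HN.geo (X ^ (n * p)))) := by
    intro p hp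
    have e : HN.geo ((X : PowerSeries ℤ) ^ (n * p)) - 1 = X ^ (n * p) * HN.geo (X ^ (n * p)) := by
      rw [sub_eq_iff_eq_add, add_comm]
      exact HN.geo_eq (hc0 p hp)
    rw [e, map_mul]
    refine (PF.nS_mul_le hr (nS_X_pow _).1 (hN p hp)).trans ?_
    rw [(nS_X_pow _).2]
  have hbd : ∀ p, 0 < p → PF.nS r (HN.toRS (HN.geo (X ^ (n * p)))) ≤ 1 / (1 - r) := by
    intro p hp
    have h1 : PF.nS r (HN.toRS (HN.geo (X ^ (n * p)))) ≤
        1 + PF.nS r (HN.toRS (HN.geo (X ^ (n * p)) - 1)) := by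
      have e : HN.toRS (HN.geo (X ^ (n * p))) = 1 + HN.toRS (HN.geo (X ^ (n * p)) - 1) := by
        rw [map_sub, map_one]
        ring
      have h2 : PF.HasN r (HN.toRS (HN.geo (X ^ (n * p)) - 1)) := by
        rw [map_sub, map_one]
        exact (hN p hp).sub hr (PF.hasN_one r)
      calc PF.nS r (HN.toRS (HN.geo (X ^ (n * p)))) =
          PF.nS r (1 + HN.toRS (HN.geo (X ^ (n * p)) - 1)) := by rw [← e]
        _ ≤ PF.nS r 1 + PF.nS r (HN.toRS (HN.geo (X ^ (n * p)) - 1)) :=
            PF.nS_add_le hr (PF.hasN_one r) h2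
        _ = _ := by rw [PF.nS_one]
    have h0 := PF.nS_nonneg hr (HN.toRS (HN.geo (X ^ (n * p))))
    have h2 := (hle p hp).trans (mul_le_mul_of_nonneg_right (hlt p hp) h0)
    rw [le_div_iff₀ (by linarith)]
    nlinarith
  refine ⟨hN, ?_, fun p d hd => ?_⟩
  · have h1 : Tendsto (fun p : ℕ => r ^ (n * p) * (1 / (1 - r))) atTop (𝓝 (0 * (1 / (1 - r)))) :=
      ((tendsto_pow_atTop_nhds_zero_of_lt_one hr hr1).comp (mul_atTop hn)).mul_const _
    rw [zero_mul] at h1
    refine tendsto_of_tendsto_of_tendsto_of_le_of_le' tendsto_const_nhds h1 ?_ ?_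
    · exact Eventually.of_forall fun p => PF.nS_nonneg hr _
    · refine (eventually_gt_atTop 0).mono fun p hp => ?_
      exact (hle p hp).trans (mul_le_mul_of_nonneg_left (hbd p hp) (pow_nonneg hr _))
  · have hp : 0 < p := by omega
    have h2 : d < n * p := lt_of_lt_of_le hd (Nat.le_mul_of_pos_left p hn)
    rw [HN.geo_eq (hc0 p hp), map_add, coeff_X_pow_mul', if_neg (by omega), add_zero]

/-- `∏ (1 - X^(n p))^(e n)` -/
theorem long (hr : 0 ≤ r) (hr1 : r < 1) (L : ℕ) (u : ℕ → (PowerSeries ℤ)ˣ)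
    (hu : ∀ n, 0 < n → (u n : PowerSeries ℤ) = 1 - X ^ n) (e : ℕ → ℤ) :
    Sm r fun p => if 0 < p then
      ((∏ n ∈ Finset.Ico 1 L, u (n * p) ^ e n : (PowerSeries ℤ)ˣ) : PowerSeries ℤ) else 1 := by
  have key : ∀ n, 0 < n → Sm r fun p => if 0 < p then
      ((u (n * p) ^ e n : (PowerSeries ℤ)ˣ) : PowerSeries ℤ) else 1 := by
    intro n hn
    have h1 : Sm r fun p => if 0 < p then
        ((1 : PowerSeries ℤ) - X ^ (n * p)) else 1 := by
      obtain ⟨a1, a2, a3⟩ := basic (r := r) hr hr1 hn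
      refine ⟨fun p hp => ?_, ?_, fun p d hd => ?_⟩
      · rw [if_pos hp]
        exact a1 p hp
      · refine a2.congr' ?_
        refine (eventually_gt_atTop 0).mono fun p hp => ?_
        show _ = sn r ((if 0 < p then _ else _) - 1)
        rw [if_pos hp]
      · rw [if_pos (by omega)]
        exact a3 p d hd
    have h2 : Sm r fun p => if 0 < p then HN.geo (X ^ (n * p)) else 1 := by
      obtain ⟨a1, a2, a3⟩ := basic_inv (r := r) hr hr1 hn
      refine ⟨fun p hp => ?_, ?_, fun p d hd => ?_⟩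
      · rw [if_pos hp]
        exact a1 p hp
      · refine a2.congr' ?_
        refine (eventually_gt_atTop 0).mono fun p hp => ?_
        show _ = sn r ((if 0 < p then _ else _) - 1)
        rw [if_pos hp]
      · rw [if_pos (by omega)]
        exact a3 p d hd
    rcases Int.eq_nat_or_neg (e n) with ⟨k, hk | hk⟩
    · have h3 := h1.pow hr k
      have h4 : (fun p => if 0 < p then
          ((u (n * p) ^ e n : (PowerSeries ℤ)ˣ) : PowerSeries ℤ) else 1) =
          fun p => (if 0 < p then ((1 : PowerSeries ℤ) - X ^ (n * p)) else 1) ^ k := by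
        funext p
        split_ifs with hp
        · rw [hk, zpow_natCast, Units.val_pow_eq_pow_val, hu _ (Nat.mul_pos hn hp)]
        · rw [one_pow]
      rw [h4]
      exact h3
    · have h3 := h2.pow hr k
      have h4 : (fun p => if 0 < p then
          ((u (n * p) ^ e n : (PowerSeries ℤ)ˣ) : PowerSeries ℤ) else 1) =
          fun p => (if 0 < p then HN.geo (X ^ (n * p)) else 1) ^ k := by
        funext p
        split_ifs with hp
        · have h5 : (((u (n * p))⁻¹ : (PowerSeries ℤ)ˣ) : PowerSeries ℤ) =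
              HN.geo (X ^ (n * p)) := by
            have h0 : coeff 0 ((X : PowerSeries ℤ) ^ (n * p)) = 0 := by
              rw [coeff_X_pow, if_neg]
              have := Nat.mul_pos hn hp
              omega
            have h6 : ((u (n * p) : (PowerSeries ℤ)ˣ) : PowerSeries ℤ) *
                HN.geo (X ^ (n * p)) = 1 := by
              rw [hu _ (Nat.mul_pos hn hp)]
              exact HN.one_sub_mul_geo h0
            exact (Units.inv_eq_of_mul_eq_one_right h6)
          rw [hk, zpow_neg, zpow_natCast, ← inv_pow, Units.val_pow_eq_pow_val, h5]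
        · rw [one_pow]
      rw [h4]
      exact h3
  have h5 := prod (r := r) hr (Finset.Ico 1 L) (fun n p => if 0 < p then
      ((u (n * p) ^ e n : (PowerSeries ℤ)ˣ) : PowerSeries ℤ) else 1)
      fun n hn => key n (Finset.mem_Ico.1 hn).1
  have h6 : (fun p => if 0 < p then
      ((∏ n ∈ Finset.Ico 1 L, u (n * p) ^ e n : (PowerSeries ℤ)ˣ) : PowerSeries ℤ) else 1) =
      fun p => ∏ n ∈ Finset.Ico 1 L, (if 0 < p then
      ((u (n * p) ^ e n : (PowerSeries ℤ)ˣ) : PowerSeries ℤ) else 1) := by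
    funext p
    split_ifs with hp
    · rw [Units.coe_prod]
    · rw [Finset.prod_const_one]
  rw [h6]
  exact h5

end Sm

/-- the units `1 - X^n` -/
noncomputable def uX (n : ℕ) : (PowerSeries ℤ)ˣ :=
  if h : 0 < n then ⟨1 - X ^ n, HN.geo (X ^ n),
    HN.one_sub_mul_geo (by rw [coeff_X_pow, if_neg h.ne]),
    HN.geo_mul_one_sub (by rw [coeff_X_pow, if_neg h.ne])⟩ else 1

theorem uX_val (n : ℕ) (h : 0 < n) : (uX n : PowerSeries ℤ) = 1 - X ^ n := by
  unfold uX
  rw [dif_pos h]

/-- **The long cycles are small.** -/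
theorem exists_long_small {r : ℝ} (hr : 0 ≤ r) (hr1 : r < 1) (L : ℕ) (u : ℕ → (PowerSeries ℤ)ˣ)
    (hu : ∀ n, 0 < n → (u n : PowerSeries ℤ) = 1 - X ^ n) (e : ℕ → ℤ) {ε : ℝ} (hε : 0 < ε) :
    ∃ p0, ∀ p, p0 ≤ p → 0 < p →
      FN r ((∏ n ∈ Finset.Ico 1 L, u (n * p) ^ e n : (PowerSeries ℤ)ˣ) : PowerSeries ℤ) ∧
      sn r (((∏ n ∈ Finset.Ico 1 L, u (n * p) ^ e n : (PowerSeries ℤ)ˣ) : PowerSeries ℤ) - 1) ≤ ε ∧
      ∀ d < p, coeff d ((∏ n ∈ Finset.Ico 1 L, u (n * p) ^ e n : (PowerSeries ℤ)ˣ) :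
        PowerSeries ℤ) = coeff d (1 : PowerSeries ℤ) := by
  have h := Sm.long hr hr1 L u hu e
  have h1 := (h.lim.eventually (gt_mem_nhds hε)).and (eventually_ge_atTop 0)
  obtain ⟨p0, hp0⟩ := Filter.eventually_atTop.1 h1
  refine ⟨p0, fun p hp hpos => ?_⟩
  have h2 := h.fn p hpos
  have h3 := (hp0 p hp).1
  have h4 := h.low p
  rw [if_pos hpos] at h2
  refine ⟨h2, ?_, ?_⟩
  · have h5 : sn r ((if 0 < p then ((∏ n ∈ Finset.Ico 1 L, u (n * p) ^ e n :
        (PowerSeries ℤ)ˣ) : PowerSeries ℤ) else 1) - 1) < ε := h3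
    rw [if_pos hpos] at h5
    exact h5.le
  · intro d hd
    have h5 := h4 d hd
    rw [if_pos hpos] at h5
    exact h5

end Pool.Agent.FTO
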