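import Pool.Agent.SSE.HDefs

/-!
# FTO, T-HUB: the determinant of a hub matrix, renewal bounds, the series `q_w`
-/

set_option autoImplicit false

open scoped BigOperators
open Matrix Polynomial

namespace Pool.Agent.FTO

open Pool.Agent.SSE

/-! ### (1) determinants -/

section det
variable {W J0 R : Type} [Fintype W] [DecidableEq W] [Fintype J0] [DecidableEq J0] [CommRing R]

/-- a star: the centre `none` (loop `s`), the vertices `v` with loops `l v`, entries `k v` from the
centre to `v` and `q v` from `v` to the centre -/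
def starM (l q k : W → R) (s : R) : Matrix (Option W) (Option W) R := fun i j =>
  match i, j with
  | none, none => s
  | none, some v => k v
  | some v, none => q v
  | some v, some v' => if v = v' then l v else 0

theorem det_star (l q k u : W → R) (s : R) (hu : ∀ v, (1 - l v) * u v = 1) :
    (1 - starM l q k s).det = (∏ v, (1 - l v)) * (1 - s - ∑ v, k v * q v * u v) := by
  set e : Option W ≃ W ⊕ Unit := Equiv.optionEquivSumPUnit W with he
  have h1 : (1 - starM l q k s).det = ((1 - starM l q k s).submatrix e.symm e.symm).det :=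
    (det_submatrix_equiv_self e.symm _).symm
  have h2 : (1 - starM l q k s).submatrix e.symm e.symm =
      fromBlocks (diagonal fun v => 1 - l v) (fun v _ => - q v) (fun _ v => - k v) (fun _ _ => 1 - s) := by
    ext i j
    rcases i with i | i <;> rcases j with j | j
    · rw [submatrix_apply, fromBlocks_apply₁₁]
      simp only [he, Equiv.optionEquivSumPUnit_symm_inl, Matrix.sub_apply, starM, Matrix.diagonal_apply,
        Matrix.one_apply, Option.some.injEq]
      split_ifs <;> simp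
    · rw [submatrix_apply, fromBlocks_apply₁₂]
      simp [he, Matrix.sub_apply, starM]
    · rw [submatrix_apply, fromBlocks_apply₂₁]
      simp [he, Matrix.sub_apply, starM]
    · rw [submatrix_apply, fromBlocks_apply₂₂]
      simp [he, Matrix.sub_apply, starM]
  let _ : Invertible (diagonal fun v => 1 - l v : Matrix W W R) :=
    { invOf := diagonal u
      invOf_mul_self := by
        rw [diagonal_mul_diagonal, ← diagonal_one]
        congr 1; funext v; rw [mul_comm]; exact hu v
      mul_invOf_self := by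
        rw [diagonal_mul_diagonal, ← diagonal_one]
        congr 1; funext v; exact hu v }
  have hinv : ⅟(diagonal fun v => 1 - l v : Matrix W W R) = diagonal u := rfl
  rw [h1, h2, det_fromBlocks₁₁, det_diagonal, hinv, det_unique]
  congr 1
  rw [Matrix.sub_apply, Matrix.mul_apply]
  congr 1
  refine Finset.sum_congr rfl fun v _ => ?_
  rw [Matrix.mul_diagonal]
  ring

/-- the hub matrix: `none` = the hub `x`, `some none` = the vertex `w`, `some (some j)` = the other
vertices -/
def hubM (l q k : J0 → R) (s g qw : R) : Matrix (Option (Option J0)) (Option (Option J0)) R :=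
  fun i j =>
  match i, j with
  | none, none => s
  | none, some none => g
  | none, some (some j) => k j
  | some none, none => qw
  | some none, some _ => 0
  | some (some j), none => q j
  | some (some _), some none => 0
  | some (some j), some (some j') => if j = j' then l j else 0

theorem hubM_eq (l q k : J0 → R) (s g qw : R) : hubM l q k s g qw =
    starM (fun v : Option J0 => v.elim 0 l) (fun v => v.elim qw q) (fun v => v.elim g k) s := by
  ext i j
  rcases i with _ | _ | i <;> rcases j with _ | _ | j <;> simp [hubM, starM]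

theorem det_hub (l q k u : J0 → R) (s g qw : R) (hu : ∀ j, (1 - l j) * u j = 1) :
    (1 - hubM l q k s g qw).det =
      (∏ j, (1 - l j)) * (1 - s - g * qw - ∑ j, k j * q j * u j) := by
  rw [hubM_eq, det_star _ _ _ (fun v : Option J0 => v.elim 1 u)]
  · rw [Fintype.prod_option, Fintype.sum_option]
    simp only [Option.elim_none, Option.elim_some, sub_zero, one_mul, mul_one]
    ring
  · intro v
    rcases v with _ | v
    · simp
    · simpa using hu v

/-- the determinant is `f` when `g * qw` is the prescribed difference -/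
theorem det_hub_eq (l q k u : J0 → R) (s g qw HQ f : R) (hu : ∀ j, (1 - l j) * u j = 1)
    (hf : (∏ j, (1 - l j)) * (1 - HQ) = f) (hg : g * qw = HQ - s - ∑ j, k j * q j * u j) :
    (1 - hubM l q k s g qw).det = f := by
  rw [det_hub l q k u s g qw hu, ← hf, hg]
  ring

end det

/-! ### (2) renewal bounds -/

section renewal
variable {ρ : ℝ}

/-- the renewal series of loops with value at most one at `ρ` -/
theorem renewal_le (hρ : 0 < ρ) {l u : PowerSeries ℤ} (hl : HN.Nn l)
    (hl0 : PowerSeries.coeff 0 l = 0)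
    (hs : ∀ n, ∑ d ∈ Finset.range n, ((PowerSeries.coeff d l : ℤ) : ℝ) * ρ ^ d ≤ 1)
    (hu : (1 - l) * u = 1) (d : ℕ) :
    0 ≤ PowerSeries.coeff d u ∧ ((PowerSeries.coeff d u : ℤ) : ℝ) * ρ ^ d ≤ 1 := by
  have hrec : u = 1 + l * u := by linear_combination hu
  induction d using Nat.strong_induction_on with
  | _ d ih =>
    have h1 : PowerSeries.coeff d u = (if d = 0 then 1 else 0) +
        ∑ p ∈ Finset.HasAntidiagonal.antidiagonal d, PowerSeries.coeff p.1 l * PowerSeries.coeff p.2 u := by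
      conv_lhs => rw [hrec]
      rw [map_add, PowerSeries.coeff_one, PowerSeries.coeff_mul]
    rcases Nat.eq_zero_or_pos d with rfl | hd
    · rw [if_pos rfl] at h1
      simp only [Finset.HasAntidiagonal.antidiagonal_zero, Finset.sum_singleton, hl0, zero_mul,
        add_zero] at h1
      rw [h1]
      norm_num
    · rw [if_neg hd.ne', zero_add] at h1
      have hterm : ∀ p ∈ Finset.HasAntidiagonal.antidiagonal d,
          0 ≤ PowerSeries.coeff p.1 l * PowerSeries.coeff p.2 u ∧
          ((PowerSeries.coeff p.1 l * PowerSeries.coeff p.2 u : ℤ) : ℝ) * ρ ^ d ≤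
            ((PowerSeries.coeff p.1 l : ℤ) : ℝ) * ρ ^ p.1 := by
        intro p hp
        rw [Finset.HasAntidiagonal.mem_antidiagonal] at hp
        rcases Nat.eq_zero_or_pos p.1 with h0 | h0
        · rw [h0, hl0]; simp
        · obtain ⟨h2, h3⟩ := ih p.2 (by omega)
          refine ⟨mul_nonneg (hl _) h2, ?_⟩
          have h4 : ρ ^ d = ρ ^ p.1 * ρ ^ p.2 := by rw [← pow_add, hp]
          have h5 : (0 : ℝ) ≤ ((PowerSeries.coeff p.1 l : ℤ) : ℝ) := by exact_mod_cast hl p.1
          rw [h4]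
          push_cast
          calc ((PowerSeries.coeff p.1 l : ℤ) : ℝ) * ((PowerSeries.coeff p.2 u : ℤ) : ℝ) * (ρ ^ p.1 * ρ ^ p.2)
              = ((PowerSeries.coeff p.1 l : ℤ) : ℝ) * ρ ^ p.1 * (((PowerSeries.coeff p.2 u : ℤ) : ℝ) * ρ ^ p.2) := by ring
            _ ≤ ((PowerSeries.coeff p.1 l : ℤ) : ℝ) * ρ ^ p.1 * 1 :=
                mul_le_mul_of_nonneg_left h3 (by positivity)
            _ = _ := mul_one _
      refine ⟨?_, ?_⟩
      · rw [h1]; exact Finset.sum_nonneg fun p hp => (hterm p hp).1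
      · rw [h1]
        push_cast
        rw [Finset.sum_mul]
        calc _ ≤ ∑ p ∈ Finset.HasAntidiagonal.antidiagonal d,
              ((PowerSeries.coeff p.1 l : ℤ) : ℝ) * ρ ^ p.1 := by
              refine Finset.sum_le_sum fun p hp => ?_
              have := (hterm p hp).2
              push_cast at this
              exact this
          _ = ∑ i ∈ Finset.range (d + 1), ((PowerSeries.coeff i l : ℤ) : ℝ) * ρ ^ i := by
              rw [Finset.Nat.sum_antidiagonal_eq_sum_range_succ_mk]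
          _ ≤ 1 := hs _

/-- the partial sums are bounded by the norm -/
theorem sum_le_sn (hρ : 0 ≤ ρ) {l : PowerSeries ℤ} (hl : HN.Nn l) (hF : FN ρ l) (n : ℕ) :
    ∑ d ∈ Finset.range n, ((PowerSeries.coeff d l : ℤ) : ℝ) * ρ ^ d ≤ sn ρ l := by
  have h1 : ∀ d, ‖PowerSeries.coeff d (HN.toRS l)‖ * ρ ^ d =
      ((PowerSeries.coeff d l : ℤ) : ℝ) * ρ ^ d := fun d => by rw [HN.norm_coeff hl]
  have h2 := hF.sum_le_tsum (Finset.range n)
    (fun d _ => mul_nonneg (norm_nonneg _) (pow_nonneg hρ d))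
  rw [← Finset.sum_congr rfl fun d _ => h1 d]
  exact h2

/-- first passage to the hub: bounded digits times a renewal series -/
theorem renewal_mul_le (hρ : 0 < ρ) (hρ1 : ρ < 1) {l u q : PowerSeries ℤ} (hl : HN.Nn l)
    (hl0 : PowerSeries.coeff 0 l = 0)
    (hs : ∀ n, ∑ d ∈ Finset.range n, ((PowerSeries.coeff d l : ℤ) : ℝ) * ρ ^ d ≤ 1)
    (hu : (1 - l) * u = 1) {C : ℝ} (hq : HN.Nn q)
    (hqC : ∀ d, ((PowerSeries.coeff d q : ℤ) : ℝ) ≤ C) (d : ℕ) :
    0 ≤ PowerSeries.coeff d (q * u) ∧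
      ((PowerSeries.coeff d (q * u) : ℤ) : ℝ) * ρ ^ d ≤ C / (1 - ρ) := by
  have hR := renewal_le hρ hl hl0 hs hu
  have hC : 0 ≤ C := le_trans (by exact_mod_cast hq 0) (hqC 0)
  rw [PowerSeries.coeff_mul]
  refine ⟨Finset.sum_nonneg fun p _ => mul_nonneg (hq _) (hR _).1, ?_⟩
  push_cast
  rw [Finset.sum_mul]
  calc _ ≤ ∑ p ∈ Finset.HasAntidiagonal.antidiagonal d, C * ρ ^ p.1 := by
        refine Finset.sum_le_sum fun p hp => ?_
        rw [Finset.HasAntidiagonal.mem_antidiagonal] at hp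
        have h4 : ρ ^ d = ρ ^ p.1 * ρ ^ p.2 := by rw [← pow_add, hp]
        have h6 : (0 : ℝ) ≤ ((PowerSeries.coeff p.2 u : ℤ) : ℝ) := by exact_mod_cast (hR p.2).1
        rw [h4]
        calc ((PowerSeries.coeff p.1 q : ℤ) : ℝ) * ((PowerSeries.coeff p.2 u : ℤ) : ℝ) * (ρ ^ p.1 * ρ ^ p.2)
            = (((PowerSeries.coeff p.1 q : ℤ) : ℝ) * ρ ^ p.1) * (((PowerSeries.coeff p.2 u : ℤ) : ℝ) * ρ ^ p.2) := by ring
          _ ≤ (C * ρ ^ p.1) * 1 := by
              refine mul_le_mul (mul_le_mul_of_nonneg_right (hqC _) (by positivity)) (hR p.2).2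
                (by positivity) (by positivity)
          _ = _ := mul_one _
    _ = ∑ i ∈ Finset.range (d + 1), C * ρ ^ i := by
        rw [Finset.Nat.sum_antidiagonal_eq_sum_range_succ_mk]
    _ ≤ C / (1 - ρ) := by
        rw [← Finset.mul_sum, div_eq_mul_inv]
        refine mul_le_mul_of_nonneg_left ?_ hC
        have h7 := (summable_geometric_of_lt_one hρ.le hρ1).sum_le_tsum (Finset.range (d + 1))
          (fun i _ => by positivity)
        rwa [tsum_geometric_of_lt_one hρ.le hρ1] at h7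

end renewal

/-! ### (3) the series `q_w` -/

section qw
variable {ρ : ℝ}

theorem FN_of_X_mul {r : ℝ} (hr : 0 < r) {f : PowerSeries ℤ} (h : FN r (PowerSeries.X * f)) :
    FN r f := by
  have h1 := (summable_nat_add_iff 1).2 h
  have h2 : ∀ n, ‖PowerSeries.coeff (n + 1) (HN.toRS (PowerSeries.X * f))‖ * r ^ (n + 1)
      = r * (‖PowerSeries.coeff n (HN.toRS f)‖ * r ^ n) := by
    intro n
    rw [HN.coeff_toRS, HN.coeff_toRS, PowerSeries.coeff_succ_X_mul, pow_succ]
    ring
  simp only [h2] at h1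
  exact (summable_mul_left_iff hr.ne').1 h1

/-- the series `q_w` (the weight `W` at the degree `e`; `e` does not depend on the first passage
series `Φ`) -/
theorem exists_qw (hρ : 0 < ρ) (hρ1 : ρ < 1) {c : ℝ} (hc : 0 < c) {HQ : PowerSeries ℤ}
    (hH0 : PowerSeries.coeff 0 HQ = 0) {D0 : ℕ}
    (hHc : ∀ d ≥ D0, c ≤ ((PowerSeries.coeff d HQ : ℤ) : ℝ) * ρ ^ d)
    {s : ℤ[X]} (hs0 : ∀ d, 0 ≤ s.coeff d) (hs : ∀ d, s.coeff d ≤ PowerSeries.coeff d HQ) {D1 : ℕ}
    (hs1 : ∀ d ≥ D1, s.coeff d = 0) (W : ℕ) :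
    ∃ e0 : ℕ, ∀ e ≥ e0, ∀ {J0 : Type} [Fintype J0] (k : J0 → ℕ) (Φ : J0 → PowerSeries ℤ) (C : ℝ),
      (∀ j d, 0 ≤ PowerSeries.coeff d (Φ j) ∧ ((PowerSeries.coeff d (Φ j) : ℤ) : ℝ) * ρ ^ d ≤ C) →
      ∃ a0 : ℕ, ∀ a ≥ a0, ∃ qw : PowerSeries ℤ,
        PowerSeries.X * qw = HQ - (s : PowerSeries ℤ) - PowerSeries.X ^ a *
          ∑ j, ((k j : ℕ) : PowerSeries ℤ) * Φ j ∧
        HN.Nn qw ∧ (W : ℤ) ≤ PowerSeries.coeff e qw ∧
        (PowerSeries.coeff 1 HQ = 0 → PowerSeries.coeff 0 qw = 0) ∧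
        ∀ r : ℝ, 0 < r → FN r HQ → (∀ j, FN r (Φ j)) → FN r qw := by
  -- `e0`: `c ρ^(-(e+1)) ≥ W`
  obtain ⟨e1, he1⟩ := exists_pow_lt_of_lt_one (show (0 : ℝ) < c / (W + 1) by positivity) hρ1
  refine ⟨max (max e1 D0) D1, ?_⟩
  intro e he J0 _ k Φ C hΦ
  have hee1 : e1 ≤ e := le_trans (le_trans (le_max_left _ _) (le_max_left _ _)) he
  have heD0 : D0 ≤ e := le_trans (le_trans (le_max_right _ _) (le_max_left _ _)) he
  have heD1 : D1 ≤ e := le_trans (le_max_right _ _) he
  set kk : ℝ := ∑ j, (k j : ℝ) with hkk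
  have hkk0 : 0 ≤ kk := Finset.sum_nonneg fun j _ => Nat.cast_nonneg _
  obtain ⟨a1, ha1⟩ := exists_pow_lt_of_lt_one (show (0 : ℝ) < c / (kk * |C| + 1) by positivity) hρ1
  refine ⟨max a1 (e + 2), ?_⟩
  intro a ha
  have haa1 : a1 ≤ a := le_trans (le_max_left _ _) ha
  have hae : e + 2 ≤ a := le_trans (le_max_right _ _) ha
  set Sg : PowerSeries ℤ := ∑ j, ((k j : ℕ) : PowerSeries ℤ) * Φ j with hSg
  set F : PowerSeries ℤ := HQ - (s : PowerSeries ℤ) - PowerSeries.X ^ a * Sg with hF
  have hk : ∀ j d, PowerSeries.coeff d (((k j : ℕ) : PowerSeries ℤ) * Φ j)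
      = (k j : ℤ) * PowerSeries.coeff d (Φ j) := by
    intro j d
    rw [← nsmul_eq_mul, map_nsmul, nsmul_eq_mul]
  have hSn : ∀ d, PowerSeries.coeff d Sg = ∑ j, (k j : ℤ) * PowerSeries.coeff d (Φ j) := by
    intro d
    rw [hSg, map_sum]
    exact Finset.sum_congr rfl fun j _ => hk j d
  have hSle : ∀ d, ((PowerSeries.coeff d Sg : ℤ) : ℝ) * ρ ^ d ≤ kk * |C| := by
    intro d
    rw [hSn]
    push_cast
    rw [Finset.sum_mul, hkk, Finset.sum_mul]
    refine Finset.sum_le_sum fun j _ => ?_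
    rw [mul_assoc]
    exact mul_le_mul_of_nonneg_left ((hΦ j d).2.trans (le_abs_self C)) (Nat.cast_nonneg _)
  have hlt : ∀ d < a, PowerSeries.coeff d F = PowerSeries.coeff d HQ - s.coeff d := by
    intro d hd
    rw [hF, map_sub, map_sub, Polynomial.coeff_coe, PowerSeries.coeff_X_pow_mul', if_neg (by omega), sub_zero]
  have hge : ∀ d ≥ a, PowerSeries.coeff d F = PowerSeries.coeff d HQ - PowerSeries.coeff (d - a) Sg := by
    intro d hd
    rw [hF, map_sub, map_sub, Polynomial.coeff_coe, PowerSeries.coeff_X_pow_mul', if_pos hd,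
      hs1 d (by omega), sub_zero]
  have hFn : ∀ d, 0 ≤ PowerSeries.coeff d F := by
    intro d
    by_cases hd : d < a
    · rw [hlt d hd]; linarith [hs d]
    · rw [hge d (by omega)]
      have h1 := hHc d (by omega)
      have h2 := hSle (d - a)
      have h3 : ρ ^ d = ρ ^ a * ρ ^ (d - a) := by rw [← pow_add]; congr 1; omega
      have h4 : ρ ^ a * (kk * |C|) ≤ c := by
        have h5 : ρ ^ a ≤ ρ ^ a1 := pow_le_pow_of_le_one hρ.le hρ1.le haa1
        have h6 : ρ ^ a < c / (kk * |C| + 1) := lt_of_le_of_lt h5 ha1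
        rw [lt_div_iff₀ (by positivity)] at h6
        have h7 : 0 < ρ ^ a := pow_pos hρ a
        nlinarith
      have h8 : ((PowerSeries.coeff (d - a) Sg : ℤ) : ℝ) * ρ ^ d ≤ ((PowerSeries.coeff d HQ : ℤ) : ℝ) * ρ ^ d := by
        calc ((PowerSeries.coeff (d - a) Sg : ℤ) : ℝ) * ρ ^ d
            = ρ ^ a * (((PowerSeries.coeff (d - a) Sg : ℤ) : ℝ) * ρ ^ (d - a)) := by rw [h3]; ring
          _ ≤ ρ ^ a * (kk * |C|) := mul_le_mul_of_nonneg_left h2 (pow_pos hρ a).le
          _ ≤ _ := h4.trans h1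
      have h9 : ((PowerSeries.coeff (d - a) Sg : ℤ) : ℝ) ≤ ((PowerSeries.coeff d HQ : ℤ) : ℝ) :=
        le_of_mul_le_mul_right h8 (pow_pos hρ d)
      have h10 : PowerSeries.coeff (d - a) Sg ≤ PowerSeries.coeff d HQ := by exact_mod_cast h9
      linarith
  have hF0 : PowerSeries.coeff 0 F = 0 := by
    have h1 := hFn 0
    rw [hlt 0 (by omega), hH0] at h1 ⊢
    linarith [hs0 0]
  obtain ⟨qw, hqw⟩ : (PowerSeries.X : PowerSeries ℤ) ∣ F := by
    rw [PowerSeries.X_dvd_iff, ← PowerSeries.coeff_zero_eq_constantCoeff_apply]; exact hF0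
  have hcoef : ∀ d, PowerSeries.coeff d qw = PowerSeries.coeff (d + 1) F := by
    intro d
    rw [hqw, PowerSeries.coeff_succ_X_mul]
  refine ⟨qw, hqw.symm, fun d => by rw [hcoef]; exact hFn _, ?_, ?_, ?_⟩
  · rw [hcoef, hlt (e + 1) (by omega), hs1 (e + 1) (by omega), sub_zero]
    have h1 := hHc (e + 1) (by omega)
    have h2 : ρ ^ (e + 1) ≤ ρ ^ e1 := pow_le_pow_of_le_one hρ.le hρ1.le (by omega)
    have h3 : ρ ^ (e + 1) < c / (W + 1) := lt_of_le_of_lt h2 he1
    rw [lt_div_iff₀ (by positivity)] at h3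
    have h4 : 0 < ρ ^ (e + 1) := pow_pos hρ _
    have h5 : (W : ℝ) * ρ ^ (e + 1) ≤ ((PowerSeries.coeff (e + 1) HQ : ℤ) : ℝ) * ρ ^ (e + 1) := by
      nlinarith
    have h6 := le_of_mul_le_mul_right h5 h4
    exact_mod_cast h6
  · intro h1
    rw [hcoef, hlt 1 (by omega), h1]
    have h2 := hs 1
    have h3 := hs0 1
    rw [h1] at h2
    linarith
  · intro r hr hHF hΦF
    apply FN_of_X_mul hr
    rw [← hqw, hF]
    change PF.HasN r (HN.toRS (HQ - (s : PowerSeries ℤ) - PowerSeries.X ^ a * Sg))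
    rw [map_sub, map_sub, map_mul, map_pow]
    have hX : HN.toRS (PowerSeries.X : PowerSeries ℤ) = ((X : ℝ[X]) : PowerSeries ℝ) := by
      ext d
      rw [HN.coeff_toRS, Polynomial.coeff_coe, PowerSeries.coeff_X, Polynomial.coeff_X]
      by_cases h : d = 1
      · subst h; simp
      · rw [if_neg h, if_neg (fun h' => h h'.symm)]; simp
    have hsN : HN.toRS (s : PowerSeries ℤ) = ((toR s : ℝ[X]) : PowerSeries ℝ) := by
      ext d
      rw [HN.coeff_toRS, Polynomial.coeff_coe, Polynomial.coeff_coe]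
      simp [toR]
    have hSN : PF.HasN r (HN.toRS Sg) := by
      rw [hSg, map_sum]
      refine PF.hasN_sum hr.le _ _ fun j _ => ?_
      rw [map_mul, map_natCast]
      refine PF.HasN.mul hr.le ?_ (hΦF j)
      have : ((k j : ℕ) : PowerSeries ℝ) = (((k j : ℕ) : ℝ[X]) : PowerSeries ℝ) := by
        exact (map_natCast (Polynomial.coeToPowerSeries.ringHom : ℝ[X] →+* PowerSeries ℝ) (k j)).symm
      rw [this]
      exact PF.hasN_poly r _
    rw [hsN, hX]
    refine PF.HasN.sub hr.le (PF.HasN.sub hr.le hHF (PF.hasN_poly r _)) (PF.HasN.mul hr.le ?_ hSN)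
    exact PF.HasN.pow hr.le (PF.hasN_poly r _) a

end qw

end Pool.Agent.FTO
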