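import Pool.Agent.FTO.TDefs
import Pool.Agent.FTO.Lvl
import Pool.Agent.FTO.THub

/-!
# FTO, T-ASM, part 1: sums over the global index sets, compatibility, structure, determinants
-/

set_option autoImplicit false
set_option linter.unusedSectionVars false

open scoped BigOperators
open Matrix Polynomial

namespace Pool.Agent.FTO

open Pool.Agent.SSE

attribute [local instance] Classical.propDecidable

section gsum

variable {V : Type} [Fintype V] {A B : V → Type} [∀ v, Fintype (A v)] {R : Type}
  [AddCommMonoid R]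

theorem gsum (g : Option (Σ v, A v) → R) : ∑ x, g x = g none + ∑ v, ∑ i, g (some ⟨v, i⟩) := by
  rw [Fintype.sum_option, Fintype.sum_sigma]

theorem gsum_map_none (f : ∀ v, A v → B v) (g : Option (Σ v, A v) → R)
    (inst : ∀ x, Decidable (gmap f x = none)) :
    (∑ x, @ite R (gmap f x = none) (inst x) (g x) 0) = g none := by
  rw [gsum]
  have h0 : gmap f (none : Option (Σ v, A v)) = none := rfl
  rw [if_pos h0]
  have h1 : ∀ v i, gmap f (some ⟨v, i⟩) ≠ none := fun v i h => by cases h
  simp only [h1, if_false, Finset.sum_const_zero, add_zero]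

theorem gsum_map_some (f : ∀ v, A v → B v) (g : Option (Σ v, A v) → R) (v : V) (b : B v)
    (inst : ∀ x, Decidable (gmap f x = some ⟨v, b⟩)) :
    (∑ x, @ite R (gmap f x = some ⟨v, b⟩) (inst x) (g x) 0) =
      ∑ i, if f v i = b then g (some ⟨v, i⟩) else 0 := by
  rw [gsum]
  have h0 : ¬ gmap f (none : Option (Σ v, A v)) = some ⟨v, b⟩ := fun h => by cases h
  rw [if_neg h0, zero_add, Finset.sum_eq_single v]
  · refine Finset.sum_congr rfl fun i _ => ?_
    have h1 : gmap f (some ⟨v, i⟩) = some ⟨v, b⟩ ↔ f v i = b := by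
      constructor
      · intro h
        have h2 : (⟨v, f v i⟩ : Σ v, B v) = ⟨v, b⟩ := Option.some.inj h
        exact eq_of_heq (Sigma.mk.inj h2).2
      · intro h
        show some (⟨v, f v i⟩ : Σ v, B v) = _
        rw [h]
    by_cases h : f v i = b
    · rw [if_pos h, if_pos (h1.2 h)]
    · rw [if_neg h, if_neg (fun h' => h (h1.1 h'))]
  · intro w _ hw
    refine Finset.sum_eq_zero fun i _ => ?_
    rw [if_neg]
    intro h
    have h2 : (⟨w, f w i⟩ : Σ v, B v) = ⟨v, b⟩ := Option.some.inj h
    exact hw (Sigma.mk.inj h2).1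
  · intro h
    exact absurd (Finset.mem_univ _) h

theorem gsum_fst_none (g : Option (Σ v, A v) → R)
    (inst : ∀ x : Option (Σ v, A v), Decidable (gfst x = (none : Option V))) :
    (∑ x, @ite R (gfst x = (none : Option V)) (inst x) (g x) 0) = g none := by
  rw [gsum]
  have h0 : gfst (none : Option (Σ v, A v)) = none := rfl
  rw [if_pos h0]
  have h1 : ∀ v i, gfst (some (⟨v, i⟩ : Σ v, A v)) ≠ none := fun v i h => by cases h
  simp only [h1, if_false, Finset.sum_const_zero, add_zero]

theorem gsum_fst_some (g : Option (Σ v, A v) → R) (v : V)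
    (inst : ∀ x : Option (Σ v, A v), Decidable (gfst x = some v)) :
    (∑ x, @ite R (gfst x = some v) (inst x) (g x) 0) = ∑ i, g (some ⟨v, i⟩) := by
  rw [gsum]
  have h0 : ¬ gfst (none : Option (Σ v, A v)) = some v := fun h => by cases h
  rw [if_neg h0, zero_add, Finset.sum_eq_single v]
  · refine Finset.sum_congr rfl fun i _ => ?_
    rw [if_pos]
    rfl
  · intro w _ hw
    refine Finset.sum_eq_zero fun i _ => ?_
    rw [if_neg]
    intro h
    exact hw (Option.some.inj h)
  · intro h
    exact absurd (Finset.mem_univ _) h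

end gsum

/-- polynomials over `ℕ` as series over `ℤ` -/
noncomputable def pz : ℕ[X] →+* PowerSeries ℤ :=
  (Polynomial.coeToPowerSeries.ringHom (R := ℤ)).comp (mapRingHom (Nat.castRingHom ℤ))

theorem pz_eq (p : ℕ[X]) : ps (Pool.Agent.SSE.toZ p) = pz p := rfl

section compat

variable {K KN KB KH L : Type} [AddCommGroup K] [Module ℤ[X] K] [AddCommGroup KN]
  [Module ℤ[X] KN] [AddCommGroup KB] [Module ℤ[X] KB] [AddCommGroup KH] [Module ℤ[X] KH]
  [AddCommGroup L] [Module ℤ[X] L] {F : Fil K KN KB KH L} {δ : ℤ[X]} {D : PFM K δ}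
  {r ξ : ℝ} {e : ℕ} {V : Type} [Fintype V] (Y : V → Fib F D r ξ e)

theorem hubMat_diag {A : V → Type} {R : Type} [Zero R] (p : Option (Σ v, A v) → R)
    (q : ∀ v, A v → R) (M : ∀ v, Matrix (A v) (A v) R) (v : V) (i i' : A v) :
    hubMat p q M (some ⟨v, i⟩) (some ⟨v, i'⟩) = M v i i' := by
  show blockDiagonal' M ⟨v, i⟩ ⟨v, i'⟩ = _
  exact blockDiagonal'_apply_eq M v i i'

theorem hubMat_off {A : V → Type} {R : Type} [Zero R] (p : Option (Σ v, A v) → R)
    (q : ∀ v, A v → R) (M : ∀ v, Matrix (A v) (A v) R) {v v' : V} (h : v ≠ v') (i : A v)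
    (i' : A v') : hubMat p q M (some ⟨v, i⟩) (some ⟨v', i'⟩) = 0 := by
  show blockDiagonal' M ⟨v, i⟩ ⟨v', i'⟩ = _
  exact blockDiagonal'_apply_ne M i i' h

theorem compat_hub {R : Type} [CommSemiring R] (p : Option (Σ v, (Y v).I) → R)
    (pB : Option (Σ v, (Y v).Bl) → R) (pC : Option (Σ v, (Y v).Co) → R)
    (q : ∀ v, (Y v).Bl → R) (kq : V → R) (M : ∀ v, Matrix (Y v).I (Y v).I R)
    (MB : ∀ v, Matrix (Y v).Bl (Y v).Bl R) (MC : ∀ v, Matrix (Y v).Co (Y v).Co R)
    (hp0 : p none = pB none)
    (hpB : ∀ v b, (∑ i, if (Y v).blk i = b then p (some ⟨v, i⟩) else 0) = pB (some ⟨v, b⟩))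
    (hC0 : pB none = pC none) (hpC : ∀ v b, pB (some ⟨v, b⟩) = pC (some ⟨v, (Y v).cmp b⟩))
    (h1 : ∀ v i b', (∑ i', if (Y v).blk i' = b' then M v i i' else 0) = MB v ((Y v).blk i) b')
    (h2 : ∀ v a b', (∑ b, if (Y v).cmp b = a then MB v b b' else 0) = MC v a ((Y v).cmp b'))
    (hq : ∀ v a, (∑ b, if (Y v).cmp b = a then q v b else 0) = kq v) :
    Compat (gStr Y) (hubMat p (fun v i => q v ((Y v).blk i)) M) (hubMat pB q MB)
      (hubMat pC (fun v _ => kq v) MC) := by
  constructor
  · intro i b'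
    rcases b' with _ | ⟨v', b'⟩
    · have h := gsum_map_none (fun v => (Y v).blk)
        (hubMat p (fun v i => q v ((Y v).blk i)) M i) fun _ => Classical.propDecidable _
      refine h.trans ?_
      rcases i with _ | ⟨v, i⟩
      · exact hp0
      · rfl
    · have h := gsum_map_some (fun v => (Y v).blk)
        (hubMat p (fun v i => q v ((Y v).blk i)) M i) v' b' fun _ => Classical.propDecidable _
      refine h.trans ?_
      rcases i with _ | ⟨v, i⟩
      · exact hpB v' b'
      · by_cases hv : v = v'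
        · subst hv
          show _ = hubMat pB q MB (some ⟨v, (Y v).blk i⟩) (some ⟨v, b'⟩)
          rw [hubMat_diag, ← h1]
          refine Finset.sum_congr rfl fun i' _ => ?_
          rw [hubMat_diag]
        · show _ = hubMat pB q MB (some ⟨v, (Y v).blk i⟩) (some ⟨v', b'⟩)
          rw [hubMat_off _ _ _ hv]
          refine Finset.sum_eq_zero fun i' _ => ?_
          rw [hubMat_off _ _ _ hv, ite_self]
  · intro a b'
    rcases a with _ | ⟨v, a⟩
    · have h := gsum_map_none (fun v => (Y v).cmp) (fun b => hubMat pB q MB b b')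
        fun _ => Classical.propDecidable _
      refine h.trans ?_
      rcases b' with _ | ⟨v', b'⟩
      · exact hC0
      · exact hpC v' b'
    · have h := gsum_map_some (fun v => (Y v).cmp) (fun b => hubMat pB q MB b b') v a
        fun _ => Classical.propDecidable _
      refine h.trans ?_
      rcases b' with _ | ⟨v', b'⟩
      · exact hq v a
      · show _ = hubMat pC (fun v _ => kq v) MC (some ⟨v, a⟩) (some ⟨v', (Y v').cmp b'⟩)
        by_cases hv : v = v'
        · subst hv
          rw [hubMat_diag, ← h2]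
          refine Finset.sum_congr rfl fun i' _ => ?_
          rw [hubMat_diag]
        · rw [hubMat_off _ _ _ hv]
          refine Finset.sum_eq_zero fun i' _ => ?_
          rw [hubMat_off _ _ _ hv, ite_self]

/-- block sums of the vector `mm` -/
theorem Fib.mm_bs (Z : Fib F D r ξ e) (b : Z.Bl) :
    (∑ i, if Z.blk i = b then Z.mm i else 0) = Z.MM := by
  have h1 : ∀ i, (if Z.blk i = b then Z.mm i else 0) =
      if Z.blk i = b then Z.MM / Fintype.card {i' // Z.blk i' = b} else 0 := by
    intro i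
    by_cases h : Z.blk i = b
    · rw [if_pos h, if_pos h]
      unfold Fib.mm
      rw [h]
    · rw [if_neg h, if_neg h]
  rw [Finset.sum_congr rfl fun i _ => h1 i, ← Finset.sum_filter, Finset.sum_const, smul_eq_mul]
  have h2 : (Finset.univ.filter fun i => Z.blk i = b).card =
      Fintype.card {i' // Z.blk i' = b} := (Fintype.card_subtype _).symm
  rw [h2]
  exact Nat.mul_div_cancel' (Finset.dvd_prod_of_mem _ (Finset.mem_univ b))

theorem Fib.card_pos (Z : Fib F D r ξ e) (b : Z.Bl) : 0 < Fintype.card {i' // Z.blk i' = b} := by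
  obtain ⟨i, hi⟩ := Z.sB b
  exact Fintype.card_pos_iff.2 ⟨⟨i, hi⟩⟩

theorem Fib.MM_pos (Z : Fib F D r ξ e) : 0 < Z.MM :=
  Finset.prod_pos fun b _ => Z.card_pos b

theorem Fib.mm_pos (Z : Fib F D r ξ e) (i : Z.I) : 0 < Z.mm i := by
  refine Nat.div_pos (Nat.le_of_dvd Z.MM_pos ?_) (Z.card_pos _)
  exact Finset.dvd_prod_of_mem (fun b => Fintype.card {i // Z.blk i = b}) (Finset.mem_univ _)

/-- the row of the hub on the blocks -/
noncomputable def gpB (s : ℕ[X]) (β : V → ℕ[X]) : Option (Σ v, (Y v).Bl) → PowerSeries ℤ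
  | none => ps (Pool.Agent.SSE.toZ s)
  | some ⟨v, _⟩ => ps (Pool.Agent.SSE.toZ (β v * C (Y v).MM))

/-- the row of the hub on the components -/
noncomputable def gpC (s : ℕ[X]) (β : V → ℕ[X]) : Option (Σ v, (Y v).Co) → PowerSeries ℤ
  | none => ps (Pool.Agent.SSE.toZ s)
  | some ⟨v, _⟩ => ps (Pool.Agent.SSE.toZ (β v * C (Y v).MM))

theorem compat_gPS (s : ℕ[X]) (β : V → ℕ[X]) :
    Compat (gStr Y) (gPS Y s β) (hubMat (gpB Y s β) (fun v => (Y v).q) fun v => (Y v).DB)
      (hubMat (gpC Y s β) (fun v _ => (Y v).kq) fun v => (Y v).DC) := by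
  refine compat_hub Y _ _ _ _ _ _ _ _ rfl ?_ rfl (fun v b => rfl) (fun v => (Y v).h1)
    (fun v => (Y v).h2) (fun v => (Y v).hq)
  intro v b
  show _ = ps (Pool.Agent.SSE.toZ (β v * C (Y v).MM))
  rw [← (Y v).mm_bs b]
  have h1 : ∀ i, (if (Y v).blk i = b then
      ps (Pool.Agent.SSE.toZ (gpx Y s β (some ⟨v, i⟩))) else 0) =
      ps (Pool.Agent.SSE.toZ (β v * C (if (Y v).blk i = b then (Y v).mm i else 0))) := by
    intro i
    by_cases h : (Y v).blk i = b
    · rw [if_pos h, if_pos h]
      rfl
    · rw [if_neg h, if_neg h]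
      simp [Pool.Agent.SSE.toZ]
  rw [Finset.sum_congr rfl fun i _ => h1 i, map_sum, Finset.mul_sum]
  exact (map_sum pz _ _).symm

/-- the target is structured -/
theorem structured_gPS (s : ℕ[X]) (β : V → ℕ[X]) :
    Structured (gStr Y) (gPS Y s β) (gQS Y s β) := by
  refine (compat_gPS Y s β).structured ?_
  intro a j'
  rcases j' with _ | v'
  · have h := gsum_fst_none (hubMat (gpC Y s β) (fun v _ => (Y v).kq) (fun v => (Y v).DC) a)
      fun _ => Classical.propDecidable _
    refine h.trans ?_
    rcases a with _ | ⟨v, a⟩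
    · rfl
    · rfl
  · have h := gsum_fst_some (hubMat (gpC Y s β) (fun v _ => (Y v).kq) (fun v => (Y v).DC) a) v'
      fun _ => Classical.propDecidable _
    refine h.trans ?_
    rcases a with _ | ⟨v, a⟩
    · show (∑ _i : (Y v').Co, ps (Pool.Agent.SSE.toZ (β v' * C (Y v').MM))) =
        ps (Pool.Agent.SSE.toZ (β v' * C (Fintype.card (Y v').Co * (Y v').MM)))
      rw [Finset.sum_const, Finset.card_univ]
      show _ • pz _ = pz _
      rw [← map_nsmul]
      congr 1
      rw [nsmul_eq_mul, ← map_natCast C, mul_left_comm, ← C_mul, Nat.cast_id]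
    · show _ = (if v = v' then (Y v).l else 0)
      by_cases hv : v = v'
      · subst hv
        rw [if_pos rfl, ← (Y v).h3 a]
        refine Finset.sum_congr rfl fun i' _ => ?_
        rw [hubMat_diag]
      · rw [if_neg hv]
        refine Finset.sum_eq_zero fun i' _ => ?_
        rw [hubMat_off _ _ _ hv]

/-! ### determinants -/

theorem exists_linearOrder (A : Type) : Nonempty (LinearOrder A) :=
  ⟨linearOrderOfSTO (WellOrderingRel (α := A))⟩

/-- without hub the determinant is a product -/
theorem det_hub0 {A : V → Type} [∀ v, Fintype (A v)] [inst : DecidableEq (Option (Σ v, A v))]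
    {R : Type} [CommRing R] (M : ∀ v, Matrix (A v) (A v) R) :
    (1 - hubMat (fun _ => 0) (fun _ _ => 0) M : Matrix (Option (Σ v, A v)) _ R).det =
      ∏ v, (1 - M v).det := by
  obtain ⟨lo⟩ := exists_linearOrder (Option V)
  have hbt : BlockTriangular (1 - hubMat (fun _ => 0) (fun _ _ => 0) M :
      Matrix (Option (Σ v, A v)) _ R) gfst := by
    rintro (_ | ⟨v, i⟩) (_ | ⟨v', i'⟩) hlt
    · exact absurd hlt (lt_irrefl _)
    · rw [Matrix.sub_apply, Matrix.one_apply_ne (by rintro ⟨⟩)]
      exact sub_self _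
    · rw [Matrix.sub_apply, Matrix.one_apply_ne (by rintro ⟨⟩)]
      exact sub_self _
    · have hv : v ≠ v' := by
        rintro rfl
        exact lt_irrefl _ hlt
      rw [Matrix.sub_apply, Matrix.one_apply_ne, hubMat_off _ _ _ hv, sub_self]
      intro h
      exact hv (Sigma.mk.inj (Option.some.inj h)).1
  rw [hbt.det_fintype, Fintype.prod_option]
  have h0 : (toSquareBlock (1 - hubMat (fun _ => 0) (fun _ _ => 0) M :
      Matrix (Option (Σ v, A v)) _ R) gfst none).det = 1 := by
    have hu : ∀ x : {x : Option (Σ v, A v) // gfst x = (none : Option V)}, x = ⟨none, rfl⟩ := by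
      rintro ⟨_ | ⟨v, i⟩, hx⟩
      · rfl
      · cases hx
    have : toSquareBlock (1 - hubMat (fun _ => 0) (fun _ _ => 0) M :
        Matrix (Option (Σ v, A v)) _ R) gfst none = 1 := by
      ext x y
      rw [hu x, hu y, Matrix.one_apply_eq]
      show (1 - hubMat (fun _ => 0) (fun _ _ => 0) M : Matrix (Option (Σ v, A v)) _ R) none none = 1
      rw [Matrix.sub_apply, Matrix.one_apply_eq]
      exact sub_zero _
    rw [this, Matrix.det_one]
  rw [h0, one_mul]
  refine Finset.prod_congr rfl fun v _ => ?_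
  let ev : A v ≃ {x : Option (Σ v, A v) // gfst x = some v} :=
    { toFun := fun i => ⟨some ⟨v, i⟩, rfl⟩
      invFun := fun x => match x with
        | ⟨some ⟨w, i⟩, hx⟩ => (Option.some.inj hx) ▸ i
        | ⟨none, hx⟩ => absurd hx (by rintro ⟨⟩)
      left_inv := fun i => rfl
      right_inv := by
        rintro ⟨_ | ⟨w, i⟩, hx⟩
        · cases hx
        · obtain rfl : w = v := Option.some.inj hx
          rfl }
  rw [← Matrix.det_submatrix_equiv_self ev]
  congr 1
  ext i i'
  show (1 - hubMat (fun _ => 0) (fun _ _ => 0) M : Matrix (Option (Σ v, A v)) _ R) (some ⟨v, i⟩)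
    (some ⟨v, i'⟩) = (1 - M v) i i'
  rw [Matrix.sub_apply, Matrix.sub_apply, hubMat_diag]
  congr 1
  by_cases h : i = i'
  · rw [h, Matrix.one_apply_eq, Matrix.one_apply_eq]
  · rw [Matrix.one_apply_ne h, Matrix.one_apply_ne]
    intro h'
    exact h (eq_of_heq (Sigma.mk.inj (Option.some.inj h')).2)

/-- the target without hub -/
noncomputable def gP0 : Matrix (Option (Σ v, (Y v).I)) (Option (Σ v, (Y v).I)) (PowerSeries ℤ) :=
  hubMat (fun _ => 0) (fun _ _ => 0) fun v => (Y v).DI

theorem compat_gP0 : Compat (gStr Y) (gP0 Y)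
    (hubMat (fun _ => 0) (fun _ _ => 0) fun v => (Y v).DB)
    (hubMat (fun _ => 0) (fun _ _ => 0) fun v => (Y v).DC) := by
  refine compat_hub Y _ _ _ (fun _ _ => 0) (fun _ => 0) _ _ _ rfl ?_ rfl (fun v b => rfl)
    (fun v => (Y v).h1) (fun v => (Y v).h2) ?_
  · intro v b
    simp
  · intro v a
    simp

/-- `l` on the diagonal -/
noncomputable def gQ0 : Matrix (Option V) (Option V) (PowerSeries ℤ) := fun i j => match i, j with
  | none, _ => 0
  | some _, none => 0
  | some v, some v' => if v = v' then (Y v).l else 0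

theorem structured_gP0 : Structured (gStr Y) (gP0 Y) (gQ0 Y) := by
  refine (compat_gP0 Y).structured ?_
  intro a j'
  rcases j' with _ | v'
  · have h := gsum_fst_none (hubMat (fun _ => 0) (fun _ _ => 0) (fun v => (Y v).DC) a)
      fun _ => Classical.propDecidable _
    refine h.trans ?_
    rcases a with _ | ⟨v, a⟩
    · rfl
    · rfl
  · have h := gsum_fst_some (hubMat (fun _ => 0) (fun _ _ => 0) (fun v => (Y v).DC) a) v'
      fun _ => Classical.propDecidable _
    refine h.trans ?_
    rcases a with _ | ⟨v, a⟩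
    · exact Finset.sum_const_zero
    · show _ = (if v = v' then (Y v).l else 0)
      by_cases hv : v = v'
      · subst hv
        rw [if_pos rfl, ← (Y v).h3 a]
        refine Finset.sum_congr rfl fun i' _ => ?_
        rw [hubMat_diag]
      · rw [if_neg hv]
        refine Finset.sum_eq_zero fun i' _ => ?_
        rw [hubMat_off _ _ _ hv]

theorem det_gQ0 [inst : DecidableEq (Option V)] : (1 - gQ0 Y).det = ∏ v, (1 - (Y v).l) := by
  have h1 : (1 - gQ0 Y) = Matrix.diagonal (fun i : Option V => match i with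
      | none => 1
      | some v => 1 - (Y v).l) := by
    refine Matrix.ext fun i j => ?_
    rcases i with _ | v <;> rcases j with _ | v'
    · rw [Matrix.sub_apply, Matrix.one_apply_eq, Matrix.diagonal_apply_eq]
      exact sub_zero _
    · rw [Matrix.sub_apply, Matrix.one_apply_ne (by rintro ⟨⟩), Matrix.diagonal_apply_ne _ (by rintro ⟨⟩)]
      exact sub_self _
    · rw [Matrix.sub_apply, Matrix.one_apply_ne (by rintro ⟨⟩), Matrix.diagonal_apply_ne _ (by rintro ⟨⟩)]
      exact sub_self _
    · by_cases h : v = v'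
      · subst h
        rw [Matrix.sub_apply, Matrix.one_apply_eq, Matrix.diagonal_apply_eq]
        show 1 - (if v = v then (Y v).l else 0) = _
        rw [if_pos rfl]
      · have h' : (some v : Option V) ≠ some v' := fun h'' => h (Option.some.inj h'')
        rw [Matrix.sub_apply, Matrix.one_apply_ne h', Matrix.diagonal_apply_ne _ h']
        show 0 - (if v = v' then (Y v).l else 0) = _
        rw [if_neg h, sub_self]
  rw [h1, Matrix.det_diagonal, Fintype.prod_option, one_mul]

/-- determinant of the target over `J` -/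
theorem det_gQS [inst : DecidableEq (Option V)] (s : ℕ[X]) (β : V → ℕ[X]) (inv : V → PowerSeries ℤ)
    (hinv : ∀ v, (1 - (Y v).l) * inv v = 1) :
    (1 - gQS Y s β).det = (∏ v, (1 - (Y v).l)) * (1 - ps (Pool.Agent.SSE.toZ s) -
      ∑ v, ps (Pool.Agent.SSE.toZ (gqx Y s β (some v))) * (Y v).kq * inv v) := by
  have h1 : gQS Y s β = starM (fun v => (Y v).l) (fun v => (Y v).kq)
      (fun v => ps (Pool.Agent.SSE.toZ (gqx Y s β (some v)))) (ps (Pool.Agent.SSE.toZ s)) := by
    ext1 i j
    rcases i with _ | v <;> rcases j with _ | v' <;> rfl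
  rw [h1]
  have h2 : inst = Option.instDecidableEq := Subsingleton.elim _ _
  subst h2
  exact det_star _ _ _ inv _ hinv

end compat

end Pool.Agent.FTO
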