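import Pool.Agent.FTO.TA1

/-!
# FTO, T-ASM, part 2: the determinants of the levels
-/

set_option autoImplicit false
set_option linter.unusedSectionVars false

open scoped BigOperators
open Matrix Polynomial

namespace Pool.Agent.FTO

open Pool.Agent.SSE

attribute [local instance] Classical.propDecidable

section gen

variable {I J R : Type} [Fintype I] [Fintype J] [CommRing R] (S : Str I J)

theorem toSq_two (P : Matrix I I R) :
    (S.CM R * (1 - P) * S.CI R).toSquareBlock S.typ 2 = 1 - S.Nb P := by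
  have h : S.CM R * (1 - P) * S.CI R = 1 - S.CM R * P * S.CI R := by
    rw [Matrix.mul_sub, Matrix.sub_mul, Matrix.mul_one, S.CM_mul_CI]
  rw [h]
  ext i i'
  show (1 - S.CM R * P * S.CI R) i.1 i'.1 = (1 - S.Nb P) i i'
  rw [Matrix.sub_apply, Matrix.sub_apply]
  congr 1
  rw [Matrix.one_apply, Matrix.one_apply]
  simp only [Subtype.ext_iff]

theorem toSq_zero (P : Matrix I I R) :
    (S.CM R * (1 - P) * S.CI R).toSquareBlock S.typ 0 = 1 - S.Hb P := by
  have h : S.CM R * (1 - P) * S.CI R = 1 - S.CM R * P * S.CI R := by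
    rw [Matrix.mul_sub, Matrix.sub_mul, Matrix.mul_one, S.CM_mul_CI]
  rw [h]
  ext i i'
  show (1 - S.CM R * P * S.CI R) i.1 i'.1 = (1 - S.Hb P) i i'
  rw [Matrix.sub_apply, Matrix.sub_apply]
  congr 1
  rw [Matrix.one_apply, Matrix.one_apply]
  simp only [Subtype.ext_iff]

/-- the image of a transversal, when the rows depend on the blocks only -/
theorem tr_vecMul {a : S.Co} {v : I → ℕ} (hv : S.Tr a v) (D : Matrix I I R) (g : S.Bl → I → R)
    (hD : ∀ i k, D i k = g (S.blk i) k) (k : I) :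
    ((fun i => ((v i : ℕ) : R)) ᵥ* D) k = ∑ b, if S.cmp b = a then g b k else 0 := by
  have h1 : ((fun i => ((v i : ℕ) : R)) ᵥ* D) k =
      ∑ b, ((S.bs v b : ℕ) : R) * g b k := by
    rw [Matrix.vecMul, dotProduct]
    unfold Str.bs
    simp only [Nat.cast_sum, Finset.sum_mul]
    rw [Finset.sum_comm]
    refine Finset.sum_congr rfl fun i _ => ?_
    rw [Finset.sum_eq_single (S.blk i)]
    · rw [if_pos rfl, hD]
    · intro b _ hb
      rw [if_neg (fun h' => hb h'.symm), Nat.cast_zero, zero_mul]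
    · intro h'
      exact absurd (Finset.mem_univ _) h'
  rw [h1]
  refine Finset.sum_congr rfl fun b _ => ?_
  by_cases hb : S.cmp b = a
  · rw [if_pos hb, hv.1 b hb, Nat.cast_one, one_mul]
  · rw [if_neg hb]
    have : S.bs v b = 0 := by
      unfold Str.bs
      refine Finset.sum_eq_zero fun i _ => ?_
      by_cases hi : S.blk i = b
      · rw [if_pos hi]
        apply hv.2
        rwa [hi]
      · rw [if_neg hi]
    rw [this, Nat.cast_zero, zero_mul]

/-- the determinants of the levels `2` and `0` of `1 - P` -/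
def DetLv (P : Matrix I I R) (dN dH : R) : Prop :=
    ((S.CM R * (1 - P) * S.CI R).toSquareBlock S.typ 2).det = dN ∧
      ((S.CM R * (1 - P) * S.CI R).toSquareBlock S.typ 0).det = dH

/-- the determinants of the levels -/
theorem levels_gen [IsDomain R] {S : Str I J} {P P0 : Matrix I I R} {AB : Matrix S.Bl S.Bl R}
    {AC : Matrix S.Co S.Co R} {Q0 : Matrix J J R} (hc : Compat S P0 AB AC)
    (hs : Structured S P0 Q0) (hN : S.Nb P = S.Nb P0) (hH : S.Hb P = S.Hb P0) {dN dH c l : R}
    (hc0 : c ≠ 0) (hC : (1 - AC).det = c) (hB : (1 - AB).det = dH * c)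
    (hI : (1 - P0).det = dN * (l * dH)) (hQ : (1 - Q0).det = l) (hl : l * dH ≠ 0) : DetLv S P dN dH := by
  unfold DetLv
  rw [toSq_two, toSq_zero, hN, hH]
  have h1 := hc.det_one_sub_Hb
  rw [hC, hB] at h1
  have h3 := mul_right_cancel₀ hc0 h1
  refine ⟨?_, h3⟩
  have h4 := det_one_sub hs
  rw [hI, hQ, h3] at h4
  exact (mul_right_cancel₀ hl h4).symm

end gen

/-- constant coefficient of `det (1 - M)` -/
theorem cc_det_one_sub {A : Type} [Fintype A] (M : Matrix A A (PowerSeries ℤ))
    (h : ∀ i j, PowerSeries.coeff 0 (M i j) = 0) :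
    PowerSeries.constantCoeff (1 - M).det = 1 := by
  rw [RingHom.map_det]
  have : (PowerSeries.constantCoeff (R := ℤ)).mapMatrix (1 - M) = 1 := by
    refine Matrix.ext fun i j => ?_
    rw [RingHom.mapMatrix_apply, Matrix.map_apply, Matrix.sub_apply, map_sub]
    have h1 : PowerSeries.constantCoeff (M i j) = 0 := by
      rw [← PowerSeries.coeff_zero_eq_constantCoeff_apply]
      exact h i j
    rw [h1, sub_zero, Matrix.one_apply, Matrix.one_apply]
    split_ifs <;> simp
  rw [this, Matrix.det_one]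

theorem ne_zero_of_cc {f : PowerSeries ℤ} (h : PowerSeries.constantCoeff f = 1) : f ≠ 0 := by
  rintro rfl
  rw [map_zero] at h
  exact zero_ne_one h

section

variable {K KN KB KH L : Type} [AddCommGroup K] [Module ℤ[X] K] [AddCommGroup KN]
  [Module ℤ[X] KN] [AddCommGroup KB] [Module ℤ[X] KB] [AddCommGroup KH] [Module ℤ[X] KH]
  [AddCommGroup L] [Module ℤ[X] L] {F : Fil K KN KB KH L} {δ : ℤ[X]} {D : PFM K δ}
  {r ξ : ℝ} {e : ℕ}

namespace Fib

variable (Z : Fib F D r ξ e)

theorem cDI (i i' : Z.I) : PowerSeries.coeff 0 (Z.DI i i') = 0 := (Z.tsD i i').c0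

theorem cDB (b b' : Z.Bl) : PowerSeries.coeff 0 (Z.DB b b') = 0 := by
  obtain ⟨i, rfl⟩ := Z.sB b
  rw [← Z.h1, map_sum]
  refine Finset.sum_eq_zero fun i' _ => ?_
  split_ifs
  · exact Z.cDI _ _
  · exact map_zero _

theorem cDC (a a' : Z.Co) : PowerSeries.coeff 0 (Z.DC a a') = 0 := by
  obtain ⟨b', rfl⟩ := Z.sC a'
  rw [← Z.h2, map_sum]
  refine Finset.sum_eq_zero fun i' _ => ?_
  split_ifs
  · exact Z.cDB _ _
  · exact map_zero _

theorem cl : PowerSeries.coeff 0 Z.l = 0 := by
  obtain ⟨a⟩ := Z.ne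
  rw [← Z.h3 a, map_sum]
  exact Finset.sum_eq_zero fun i' _ => Z.cDC _ _

theorem ckq : PowerSeries.coeff 0 Z.kq = 0 := by
  obtain ⟨a⟩ := Z.ne
  rw [← Z.hq a, map_sum]
  refine Finset.sum_eq_zero fun b _ => ?_
  split_ifs
  · exact (Z.tsq b).c0
  · exact map_zero _

theorem ccDC : PowerSeries.constantCoeff (1 - Z.DC).det = 1 := cc_det_one_sub _ Z.cDC

theorem ccl : PowerSeries.constantCoeff (1 - Z.l) = 1 := by
  rw [map_sub, map_one]
  have := Z.cl
  rw [PowerSeries.coeff_zero_eq_constantCoeff_apply] at this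
  rw [this, sub_zero]

theorem ccdH : PowerSeries.constantCoeff Z.dH = 1 := by
  have h := congrArg (PowerSeries.constantCoeff (R := ℤ)) Z.hdH
  rw [map_mul, Z.ccDC, mul_one, cc_det_one_sub _ Z.cDB] at h
  exact h

end Fib

variable {V : Type} [Fintype V] (Y : V → Fib F D r ξ e)

/-- the rows of `PS - P0`, by blocks -/
noncomputable def gD (s : ℕ[X]) (β : V → ℕ[X]) (b : Option (Σ v, (Y v).Bl))
    (k : Option (Σ v, (Y v).I)) : PowerSeries ℤ := match b with
  | none => ps (Pool.Agent.SSE.toZ (gpx Y s β k))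
  | some ⟨v, b⟩ => if k = none then (Y v).q b else 0

theorem gPS_sub (s : ℕ[X]) (β : V → ℕ[X]) (i k : Option (Σ v, (Y v).I)) :
    (gPS Y s β - gP0 Y) i k = gD Y s β ((gStr Y).blk i) k := by
  rw [Matrix.sub_apply]
  rcases i with _ | ⟨v, i⟩
  · exact sub_zero _
  · show _ = (if k = none then (Y v).q ((Y v).blk i) else 0)
    rcases k with _ | ⟨v', k⟩
    · rw [if_pos rfl]
      exact sub_zero _
    · rw [if_neg (by rintro ⟨⟩)]
      exact sub_self _

theorem Nb_gPS (s : ℕ[X]) (β : V → ℕ[X]) : (gStr Y).Nb (gPS Y s β) = (gStr Y).Nb (gP0 Y) := by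
  have key : ∀ j v, (gStr Y).InL j v → ((fun i => ((v i : ℕ) : PowerSeries ℤ)) ᵥ*
      (gPS Y s β - gP0 Y)) = fun k => match j with
        | none => ps (Pool.Agent.SSE.toZ (gpx Y s β k))
        | some v0 => if k = none then (Y v0).kq else 0 := by
    rintro j v ⟨a, ha, hv⟩
    funext k
    rw [tr_vecMul (gStr Y) hv _ (gD Y s β) (gPS_sub Y s β) k]
    rcases a with _ | ⟨v0, a⟩
    · obtain rfl : none = j := ha
      exact gsum_map_none (fun v => (Y v).cmp) (fun b => gD Y s β b k)
        fun _ => Classical.propDecidable _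
    · obtain rfl : some v0 = j := ha
      refine (gsum_map_some (fun v => (Y v).cmp) (fun b => gD Y s β b k) v0 a
        fun _ => Classical.propDecidable _).trans ?_
      show (∑ b, if (Y v0).cmp b = a then (if k = none then (Y v0).q b else 0) else 0) =
        if k = none then (Y v0).kq else 0
      by_cases hk : k = none
      · rw [if_pos hk, ← (Y v0).hq a]
        simp only [if_pos hk]
      · rw [if_neg hk]
        simp only [if_neg hk, ite_self, Finset.sum_const_zero]
  refine Nb_congr fun j v w hv hw => ?_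
  rw [Matrix.sub_vecMul, key j v hv, key j w hw, sub_self]

theorem Hb_gPS (s : ℕ[X]) (β : V → ℕ[X]) : (gStr Y).Hb (gPS Y s β) = (gStr Y).Hb (gP0 Y) := by
  refine Hb_congr fun i => ?_
  have h1 : ∀ b, (gStr Y).bs (gPS Y s β i - gP0 Y i) b =
      hubMat (gpB Y s β) (fun v => (Y v).q) (fun v => (Y v).DB) ((gStr Y).blk i) b -
      hubMat (fun _ => 0) (fun _ _ => 0) (fun v => (Y v).DB) ((gStr Y).blk i) b := by
    intro b
    rw [(gStr Y).bs_sub, (compat_gPS Y s β).hB, (compat_gP0 Y).hB]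
  intro b b' hb
  rw [h1, h1]
  rcases i with _ | ⟨v, i⟩
  · show gpB Y s β b - 0 = gpB Y s β b' - 0
    rw [sub_zero, sub_zero]
    rcases b with _ | ⟨v, b⟩ <;> rcases b' with _ | ⟨v', b'⟩
    · rfl
    · cases hb
    · cases hb
    · have : v = v' := (Sigma.mk.inj (Option.some.inj hb)).1
      subst this
      rfl
  · rcases b with _ | ⟨v, b⟩ <;> rcases b' with _ | ⟨v', b'⟩
    · rfl
    · cases hb
    · cases hb
    · exact (sub_self _).trans (sub_self _).symm

theorem det_levels_gPS (s : ℕ[X]) (β : V → ℕ[X]) :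
    DetLv (gStr Y) (gPS Y s β) (∏ v, (Y v).dN) (∏ v, (Y v).dH) := by
  have hC := det_hub0 (inst := fun a b => Classical.propDecidable _) (fun v => (Y v).DC)
  have hB := det_hub0 (inst := fun a b => Classical.propDecidable _) (fun v => (Y v).DB)
  have hI := det_hub0 (inst := fun a b => Classical.propDecidable _) (fun v => (Y v).DI)
  have hQ := det_gQ0 (inst := fun a b => Classical.propDecidable _) Y
  have h2 : ∏ v, (1 - (Y v).DB).det = (∏ v, (Y v).dH) * ∏ v, (1 - (Y v).DC).det := by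
    rw [← Finset.prod_mul_distrib]
    exact Finset.prod_congr rfl fun v _ => (Y v).hdH.symm
  have h6 : ∏ v, (1 - (Y v).DI).det =
      (∏ v, (Y v).dN) * ((∏ v, (1 - (Y v).l)) * ∏ v, (Y v).dH) := by
    rw [← Finset.prod_mul_distrib, ← Finset.prod_mul_distrib]
    exact Finset.prod_congr rfl fun v _ => (Y v).hdN.symm
  have hne : (∏ v, (1 - (Y v).l)) * ∏ v, (Y v).dH ≠ 0 :=
    mul_ne_zero (Finset.prod_ne_zero_iff.2 fun v _ => ne_zero_of_cc (Y v).ccl)
      (Finset.prod_ne_zero_iff.2 fun v _ => ne_zero_of_cc (Y v).ccdH)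
  have hC0 : (∏ v, (1 - (Y v).DC).det) ≠ 0 :=
    Finset.prod_ne_zero_iff.2 fun v _ => ne_zero_of_cc (Y v).ccDC
  exact levels_gen (compat_gP0 Y) (structured_gP0 Y) (Nb_gPS Y s β) (Hb_gPS Y s β)
    hC0 hC (hB.trans h2) (hI.trans h6) hQ hne

end

end Pool.Agent.FTO
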