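import Pool.Agent.FTO.TA2
import Pool.Agent.FTO.Rel
import Pool.Agent.SSE.HTau
import Pool.Agent.SSE.S1H

/-!
# FTO, T-ASM: the global target of a family of local vertices
-/

set_option autoImplicit false
set_option linter.unusedSectionVars false

open scoped BigOperators
open Matrix Polynomial

namespace Pool.Agent.FTO

open Pool.Agent.SSE

attribute [local instance] Classical.propDecidable

section gen

variable {I J K : Type} [Fintype I] [Fintype J] [AddCommGroup K] [Module ℤ[X] K] (S : Str I J)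
  (c : I → K)

theorem sum_single_smul (i : I) : ∑ k, (Pi.single i (1 : ℤ[X]) : I → ℤ[X]) k • c k = c i := by
  rw [Finset.sum_eq_single i]
  · rw [Pi.single_eq_same, one_smul]
  · intro k _ hk
    rw [Pi.single_eq_of_ne hk, zero_smul]
  · intro h
    exact absurd (Finset.mem_univ _) h

theorem acl_two {i : I} (h : i ≠ S.base (S.blk i)) :
    acl S c i = c i - c (S.base (S.blk i)) := by
  unfold acl
  have h1 : ∀ k, S.CM ℤ[X] i k = (Pi.single i (1 : ℤ[X]) : I → ℤ[X]) k -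
      (Pi.single (S.base (S.blk i)) (1 : ℤ[X]) : I → ℤ[X]) k := by
    intro k
    show S.bv i k = _
    rw [Str.bv, if_pos h, Pi.sub_apply]
  simp only [h1, sub_smul, Finset.sum_sub_distrib, sum_single_smul]

theorem acl_zero {i : I} (h : i = S.base (S.blk i)) (h' : S.blk i ≠ S.rep (S.cmp (S.blk i))) :
    acl S c i = c i := by
  unfold acl
  have h1 : ∀ k, S.CM ℤ[X] i k = (Pi.single i (1 : ℤ[X]) : I → ℤ[X]) k := by
    intro k
    show S.bv i k = _
    rw [Str.bv, if_neg (not_not.2 h), if_pos h']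
  simp only [h1, sum_single_smul]

/-- a block with two elements -/
theorem two_lem {i0 i1 : I} (hne : i0 ≠ i1) (hb : S.blk i0 = S.blk i1)
    (hall : ∀ i, S.blk i = S.blk i0 → i = i0 ∨ i = i1) : ∃ i, S.typ i = 2 ∧ S.blk i = S.blk i0 ∧
      (acl S c i = c i1 - c i0 ∨ acl S c i = - (c i1 - c i0)) := by
  rcases hall (S.base (S.blk i0)) (S.blk_base _) with h | h
  · have h1 : i1 ≠ S.base (S.blk i1) := by
      rw [← hb, h]
      exact hne.symm
    refine ⟨i1, ?_, hb.symm, Or.inl ?_⟩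
    · rw [Str.typ, if_pos h1]
    · rw [acl_two S c h1, ← hb, h]
  · have h1 : i0 ≠ S.base (S.blk i0) := by
      rw [h]
      exact hne
    refine ⟨i0, ?_, rfl, Or.inr ?_⟩
    · rw [Str.typ, if_pos h1]
    · rw [acl_two S c h1, h, neg_sub]

/-- a component with two blocks of one element -/
theorem zero_lem {i0 i1 : I} (hne : S.blk i0 ≠ S.blk i1) (hc : S.cmp (S.blk i0) = S.cmp (S.blk i1))
    (h0 : ∀ i, S.blk i = S.blk i0 → i = i0) (h1 : ∀ i, S.blk i = S.blk i1 → i = i1)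
    (hall : ∀ b, S.cmp b = S.cmp (S.blk i0) → b = S.blk i0 ∨ b = S.blk i1) :
    ∃ i, S.typ i = 0 ∧ ((S.blk i = S.blk i0 ∧ acl S c i = c i0) ∨
      (S.blk i = S.blk i1 ∧ acl S c i = c i1)) := by
  rcases hall (S.rep (S.cmp (S.blk i0))) (S.cmp_rep _) with h | h
  · have h2 : i1 = S.base (S.blk i1) := (h1 _ (S.blk_base _)).symm
    have h3 : S.blk i1 ≠ S.rep (S.cmp (S.blk i1)) := by
      rw [← hc, h]
      exact hne.symm
    refine ⟨i1, ?_, Or.inr ⟨rfl, acl_zero S c h2 h3⟩⟩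
    rw [Str.typ, if_neg (not_not.2 h2), if_pos h3]
  · have h2 : i0 = S.base (S.blk i0) := (h0 _ (S.blk_base _)).symm
    have h3 : S.blk i0 ≠ S.rep (S.cmp (S.blk i0)) := by
      rw [h]
      exact hne
    refine ⟨i0, ?_, Or.inl ⟨rfl, acl_zero S c h2 h3⟩⟩
    rw [Str.typ, if_neg (not_not.2 h2), if_pos h3]

/-- sums over a transversal of a function of the block -/
theorem tr_sum {a : S.Co} {v : I → ℕ} (hv : S.Tr a v) (f : S.Bl → ℕ) :
    ∑ i, v i * f (S.blk i) = ∑ b, if S.cmp b = a then f b else 0 := by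
  have h1 : ∑ i, v i * f (S.blk i) = ∑ b, S.bs v b * f b := by
    unfold Str.bs
    simp only [Finset.sum_mul]
    rw [Finset.sum_comm]
    refine Finset.sum_congr rfl fun i _ => ?_
    rw [Finset.sum_eq_single (S.blk i)]
    · rw [if_pos rfl]
    · intro b _ hb
      rw [if_neg (fun h' => hb h'.symm), zero_mul]
    · intro h'
      exact absurd (Finset.mem_univ _) h'
  rw [h1]
  refine Finset.sum_congr rfl fun b _ => ?_
  by_cases hb : S.cmp b = a
  · rw [if_pos hb, hv.1 b hb, one_mul]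
  · rw [if_neg hb]
    have : S.bs v b = 0 := by
      unfold Str.bs
      refine Finset.sum_eq_zero fun i _ => ?_
      by_cases hi : S.blk i = b
      · rw [if_pos hi]
        apply hv.2
        rwa [hi]
      · rw [if_neg hi]
    rw [this, zero_mul]

/-- a row of `1 - Q` -/
theorem row_one_sub (Q : Matrix J J (PowerSeries ℤ)) (p : J → ℤ[X]) (x : J) (R : Matrix J J ℤ[X])
    (hQ : ∀ j, Q x j = ps (p j)) (hR : R x x = 1 - p x) (hR' : ∀ j, j ≠ x → R x j = - p j)
    (j : J) : ps (R x j) = (1 - Q : Matrix J J (PowerSeries ℤ)) x j := by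
  rw [Matrix.sub_apply, hQ]
  by_cases hj : j = x
  · subst hj
    rw [hR, Matrix.one_apply_eq, ps, Polynomial.coe_sub, Polynomial.coe_one]
  · rw [hR' j hj, Matrix.one_apply_ne (fun h => hj h.symm), ps, Polynomial.coe_neg, zero_sub]

end gen

variable {K KN KB KH L : Type} [AddCommGroup K] [Module ℤ[X] K] [AddCommGroup KN]
  [Module ℤ[X] KN] [AddCommGroup KB] [Module ℤ[X] KB] [AddCommGroup KH] [Module ℤ[X] KH]
  [AddCommGroup L] [Module ℤ[X] L]

section

variable {F : Fil K KN KB KH L} {δ : ℤ[X]} {D : PFM K δ} {r ξ : ℝ} {e : ℕ} {V : Type} [Fintype V]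
  (Y : V → Fib F D r ξ e)

/-- transversals of the global structure -/
theorem gTr_none {v : Option (Σ v, (Y v).I) → ℕ} (h : (gStr Y).Tr none v) :
    v none = 1 ∧ ∀ w i, v (some ⟨w, i⟩) = 0 := by
  refine ⟨?_, fun w i => h.2 _ (by rintro ⟨⟩)⟩
  have h1 := h.1 none rfl
  exact (gsum_map_none (fun v => (Y v).blk) v fun _ => Classical.propDecidable _).symm.trans h1

theorem gTr_some {v : Option (Σ v, (Y v).I) → ℕ} {w : V} {a : (Y w).Co}
    (h : (gStr Y).Tr (some ⟨w, a⟩) v) : v none = 0 ∧ (∀ w' i, w' ≠ w → v (some ⟨w', i⟩) = 0) ∧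
      (∀ b, (Y w).cmp b = a → ∑ i, (if (Y w).blk i = b then v (some ⟨w, i⟩) else 0) = 1) ∧
      ∀ i, (Y w).cmp ((Y w).blk i) ≠ a → v (some ⟨w, i⟩) = 0 := by
  refine ⟨h.2 _ (by rintro ⟨⟩), fun w' i hw => h.2 _ ?_, fun b hb => ?_, fun i hi => h.2 _ ?_⟩
  · intro h'
    exact hw (Sigma.mk.inj (Option.some.inj h')).1
  · have h1 := h.1 (some ⟨w, b⟩) (congrArg (fun x => some (⟨w, x⟩ : Σ v, (Y v).Co)) hb)
    exact (gsum_map_some (fun v => (Y v).blk) v w b
      fun _ => Classical.propDecidable _).symm.trans h1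
  · intro h'
    exact hi (eq_of_heq (Sigma.mk.inj (Option.some.inj h')).2)

theorem gcls (cx : K) (cbx : KB) (hcx : F.s cx = F.b cbx) (j : Option V)
    (v : Option (Σ v, (Y v).I) → ℕ) (hv : (gStr Y).InL j v) :
    F.s (∑ i, (v i : ℤ[X]) • gc Y cx i) = F.b (gcB Y cbx j) := by
  obtain ⟨a, ha, hv⟩ := hv
  rcases a with _ | ⟨w, a⟩
  · obtain rfl : none = j := ha
    obtain ⟨h1, h2⟩ := gTr_none Y hv
    rw [gsum, h1]
    simp only [h2, Nat.cast_zero, zero_smul, Finset.sum_const_zero, add_zero, Nat.cast_one, one_smul]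
    exact hcx
  · obtain rfl : some w = j := ha
    obtain ⟨h1, h2, h3, h4⟩ := gTr_some Y hv
    rw [gsum, h1, Nat.cast_zero, zero_smul, zero_add, Finset.sum_eq_single w]
    · exact (Y w).hc a (fun i => v (some ⟨w, i⟩)) h3 h4
    · intro w' _ hw
      refine Finset.sum_eq_zero fun i _ => ?_
      rw [h2 w' i hw, Nat.cast_zero, zero_smul]
    · intro h
      exact absurd (Finset.mem_univ _) h

theorem gacl_two (cx : K) (cbx : KB) (hcx : F.s cx = F.b cbx) (i : Option (Σ v, (Y v).I))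
    (hi : (gStr Y).typ i = 2) : ∃ n, F.i n = acl (gStr Y) (gc Y cx) i := by
  rw [← F.exK]
  obtain ⟨v, w, hv, hw, hb⟩ := (gStr Y).bv_two (R := ℤ[X]) hi
  have h1 : acl (gStr Y) (gc Y cx) i = ∑ k, (v k : ℤ[X]) • gc Y cx k - ∑ k, (w k : ℤ[X]) • gc Y cx k := by
    unfold acl
    rw [← Finset.sum_sub_distrib]
    refine Finset.sum_congr rfl fun k _ => ?_
    rw [← sub_smul]
    congr 1
    exact congrFun hb k
  rw [h1, map_sub, gcls Y cx cbx hcx _ v hv, gcls Y cx cbx hcx _ w hw, sub_self]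

theorem gN_elt (cx : K) {v : V} {n : KN} (h : (Y v).IsN n) : ∃ i : Option (Σ v, (Y v).I),
    (gStr Y).typ i = 2 ∧ (gStr Y).pr i = some v ∧
      (acl (gStr Y) (gc Y cx) i = F.i n ∨ acl (gStr Y) (gc Y cx) i = - F.i n) := by
  obtain ⟨i0, i1, hne, hall, hb, hn⟩ := h
  have h1 := two_lem (gStr Y) (gc Y cx) (i0 := some ⟨v, i0⟩) (i1 := some ⟨v, i1⟩)
    (fun h' => hne (eq_of_heq (Sigma.mk.inj (Option.some.inj h')).2))
    (congrArg (fun x => some (⟨v, x⟩ : Σ v, (Y v).Bl)) hb) (by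
      rintro (_ | ⟨w, i⟩) h'
      · cases h'
      · obtain rfl : w = v := (Sigma.mk.inj (Option.some.inj h')).1
        rcases hall i with rfl | rfl
        · left; rfl
        · right; rfl)
  obtain ⟨i, hi, hbi, ha⟩ := h1
  refine ⟨i, hi, ?_, ?_⟩
  · show (gStr Y).fib ((gStr Y).cmp ((gStr Y).blk i)) = _
    rw [hbi]
    rfl
  · rw [← hn]
    exact ha

theorem gH_elt (cx : K) {v : V} {h : KH} (hh : (Y v).IsH h) : ∃ i : Option (Σ v, (Y v).I),
    (gStr Y).typ i = 0 ∧ (gStr Y).pr i = some v ∧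
      (F.p (F.s (acl (gStr Y) (gc Y cx) i)) = h ∨ F.p (F.s (acl (gStr Y) (gc Y cx) i)) = - h) := by
  obtain ⟨i0, i1, hall, hne, hc, hn0, hn1⟩ := hh
  have hblk : ∀ b, b = (Y v).blk i0 ∨ b = (Y v).blk i1 := by
    intro b
    obtain ⟨i, rfl⟩ := (Y v).sB b
    rcases hall i with rfl | rfl
    · left; rfl
    · right; rfl
  have h1 := zero_lem (gStr Y) (gc Y cx) (i0 := some ⟨v, i0⟩) (i1 := some ⟨v, i1⟩)
    (fun h' => hne (eq_of_heq (Sigma.mk.inj (Option.some.inj h')).2))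
    (congrArg (fun x => some (⟨v, x⟩ : Σ v, (Y v).Co)) hc) (by
      rintro (_ | ⟨w, i⟩) h'
      · cases h'
      · obtain rfl : w = v := (Sigma.mk.inj (Option.some.inj h')).1
        have h2 : (Y w).blk i = (Y w).blk i0 := eq_of_heq (Sigma.mk.inj (Option.some.inj h')).2
        rcases hall i with rfl | rfl
        · rfl
        · exact absurd h2.symm hne) (by
      rintro (_ | ⟨w, i⟩) h'
      · cases h'
      · obtain rfl : w = v := (Sigma.mk.inj (Option.some.inj h')).1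
        have h2 : (Y w).blk i = (Y w).blk i1 := eq_of_heq (Sigma.mk.inj (Option.some.inj h')).2
        rcases hall i with rfl | rfl
        · exact absurd h2 hne
        · rfl) (by
      rintro (_ | ⟨w, b⟩) h'
      · cases h'
      · obtain rfl : w = v := (Sigma.mk.inj (Option.some.inj h')).1
        rcases hblk b with rfl | rfl
        · left; rfl
        · right; rfl)
  obtain ⟨i, hi, ha⟩ := h1
  refine ⟨i, hi, ?_, ?_⟩
  · show (gStr Y).fib ((gStr Y).cmp ((gStr Y).blk i)) = _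
    rcases ha with ha | ha
    · rw [ha.1]
      rfl
    · rw [ha.1]
      rfl
  · rcases ha with ha | ha
    · left
      rw [ha.2]
      exact hn0
    · right
      rw [ha.2]
      exact hn1

theorem gRelN {δN : ℤ[X]} (cx : K) (cbx : KB) (hcx : F.s cx = F.b cbx)
    {ιN : Type} [Fintype ιN] (fN : ιN → V) (hfN : Function.Injective fN) (gN : ιN → KN)
    (hgN : ∀ k, (Y (fN k)).IsN (gN k)) (RN : Matrix ιN ιN ℤ[X]) (hRN : RelOf δN gN RN) :
    ∃ (gN : {i // (gStr Y).typ i = 2} → KN) (RN : Matrix _ _ ℤ[X]), RelOf δN gN RN ∧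
      ∀ i, F.i (gN i) = acl (gStr Y) (gc Y cx) i := by
  choose g hg using fun i : {i // (gStr Y).typ i = 2} => gacl_two Y cx cbx hcx i.1 i.2
  choose f hf2 hfp hfa using fun k => gN_elt Y cx (hgN k)
  have hinj : Function.Injective fun k => (⟨f k, hf2 k⟩ : {i // (gStr Y).typ i = 2}) := by
    intro k k' hkk
    have h1 : f k = f k' := congrArg Subtype.val hkk
    apply hfN
    have h2 := hfp k
    rw [h1, hfp k'] at h2
    exact (Option.some.inj h2).symm
  obtain ⟨R, hR⟩ := relOf_of_pm (g := g) hinj hRN fun k => by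
    rcases hfa k with h | h
    · left
      apply F.i_inj
      rw [hg, h]
    · right
      apply F.i_inj
      rw [hg, map_neg, h]
  exact ⟨g, R, hR, hg⟩

theorem gRelH {δH : ℤ[X]} (cx : K)
    {ιH : Type} [Fintype ιH] (fH : ιH → V) (hfH : Function.Injective fH) (gH : ιH → KH)
    (hgH : ∀ k, (Y (fH k)).IsH (gH k)) (RH : Matrix ιH ιH ℤ[X]) (hRH : RelOf δH gH RH) :
    ∃ RH : Matrix _ _ ℤ[X], RelOf δH (fun i : {i // (gStr Y).typ i = 0} =>
      F.p (F.s (acl (gStr Y) (gc Y cx) i))) RH := by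
  choose f hf2 hfp hfa using fun k => gH_elt Y cx (hgH k)
  have hinj : Function.Injective fun k => (⟨f k, hf2 k⟩ : {i // (gStr Y).typ i = 0}) := by
    intro k k' hkk
    have h1 : f k = f k' := congrArg Subtype.val hkk
    apply hfH
    have h2 := hfp k
    rw [h1, hfp k'] at h2
    exact (Option.some.inj h2).symm
  exact relOf_of_pm (g := fun i : {i // (gStr Y).typ i = 0} =>
      F.p (F.s (acl (gStr Y) (gc Y cx) i))) hinj hRH hfa

theorem gTS (s : ℕ[X]) (β : V → ℕ[X]) (hs0 : s.coeff 0 = 0) (hβ0 : ∀ v, (β v).coeff 0 = 0)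
    (i j : Option (Σ v, (Y v).I)) : TS r (gPS Y s β i j) := by
  rcases i with _ | ⟨v, i⟩
  · refine TS_toZ r ?_
    rcases j with _ | ⟨v', j⟩
    · exact hs0
    · show (β v' * C ((Y v').mm j)).coeff 0 = 0
      rw [coeff_mul_C, hβ0, zero_mul]
  · rcases j with _ | ⟨v', j⟩
    · exact (Y v).tsq _
    · by_cases hv : v = v'
      · subst hv
        unfold gPS
        rw [hubMat_diag]
        exact (Y v).tsD i j
      · unfold gPS
        rw [hubMat_off _ _ _ hv]
        exact TS.zero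

theorem gbal (cx : K) (s : ℕ[X]) (β : V → ℕ[X]) (htx : D.tau cx = ξ)
    (hrel : cx = ∑ j, Pool.Agent.SSE.toZ (gpx Y s β j) • gc Y cx j)
    (i : Option (Σ v, (Y v).I)) :
    D.tau (gc Y cx i) = ∑ j, sv D.lam⁻¹ (gPS Y s β i j) * D.tau (gc Y cx j) := by
  rcases i with _ | ⟨v, i⟩
  · show D.tau cx = _
    conv_lhs => rw [hrel]
    rw [map_sum]
    refine Finset.sum_congr rfl fun j _ => ?_
    rw [tau_toZ D.tau_X]
    congr 1
    exact (sv_poly _ _).symm
  · rw [gsum, Finset.sum_eq_single v]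
    · show D.tau ((Y v).c i) = sv D.lam⁻¹ ((Y v).q ((Y v).blk i)) * D.tau cx + _
      rw [(Y v).bal i, htx, add_comm]
      congr 1
      refine Finset.sum_congr rfl fun i' _ => ?_
      unfold gPS
      rw [hubMat_diag]
      rfl
    · intro w _ hw
      refine Finset.sum_eq_zero fun i' _ => ?_
      unfold gPS
      rw [hubMat_off _ _ _ (Ne.symm hw)]
      have : sv D.lam⁻¹ (0 : PowerSeries ℤ) = 0 := by
        unfold sv
        rw [HN.toRS, map_zero]
        simp [PF.ev]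
      rw [this, zero_mul]
    · intro h
      exact absurd (Finset.mem_univ _) h

/-- the weights -/
def gwt : Option (Σ v, (Y v).I) → ℕ
  | none => 1
  | some ⟨v, i⟩ => (Y v).wt ((Y v).blk i)

/-- the weights of the blocks -/
def gwB : Option (Σ v, (Y v).Bl) → ℕ
  | none => 1
  | some ⟨v, b⟩ => (Y v).wt b

/-- the weights of the vertices -/
def gkap : Option V → ℕ
  | none => 1
  | some v => (Y v).kap

theorem gwts (s : ℕ[X]) (β : V → ℕ[X]) : Wts (gStr Y) (gPS Y s β) none (gwt Y) (gkap Y) e := by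
  constructor
  · rintro (_ | ⟨v, i⟩)
    · exact one_pos
    · exact (Y v).wt_pos _
  · rintro j v ⟨a, ha, hv⟩
    have h1 : ∀ i, v i * gwt Y i = v i * gwB Y ((gStr Y).blk i) := by
      rintro (_ | ⟨v, i⟩) <;> rfl
    rw [Finset.sum_congr rfl fun i _ => h1 i, tr_sum (gStr Y) hv]
    rcases a with _ | ⟨w, a⟩
    · obtain rfl : none = j := ha
      exact gsum_map_none (fun v => (Y v).cmp) (gwB Y) fun _ => Classical.propDecidable _
    · obtain rfl : some w = j := ha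
      exact (gsum_map_some (fun v => (Y v).cmp) (gwB Y) w a
        fun _ => Classical.propDecidable _).trans ((Y w).hwt a)
  · rintro (_ | ⟨v, i⟩) hi
    · exact absurd rfl hi
    · exact (Y v).see _

theorem ghub (cx : K) (s1 s2 : ℕ[X]) (β : V → ℕ[X]) (hs2 : s2 ≠ 0)
    (hs1 : ∃ d, s1.coeff d ≠ 0 ∧ s1.coeff (d + 1) ≠ 0) (hv : 1 < evp r s1) (hβ : ∀ v, β v ≠ 0)
    (hrel : cx = ∑ j, Pool.Agent.SSE.toZ (gpx Y (s1 + s2) β j) • gc Y cx j) :
    HubRow (gStr Y) r (gc Y cx) (gPS Y (s1 + s2) β) none (gpx Y (s1 + s2) β) s1 s2 where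
  triv := by
    rintro (_ | ⟨v, i⟩) h
    · rfl
    · cases h
  row := fun j => rfl
  rel := hrel
  see := by
    rintro (_ | ⟨v, i⟩) h
    · apply hs2
      ext n
      have h1 := congrArg (fun p => p.coeff n) (show s1 + s2 = 0 from h)
      simp only [coeff_add, coeff_zero] at h1
      rw [coeff_zero]
      omega
    · have h1 : β v * C ((Y v).mm i) = 0 := h
      rcases mul_eq_zero.1 h1 with h2 | h2
      · exact hβ v h2
      · rw [C_eq_zero] at h2
        exact absurd h2 ((Y v).mm_pos i).ne'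
  loop := rfl
  s2ne := hs2
  s1c := hs1
  s1v := hv

end

/-- **T-ASM.** -/
theorem tgt_of_fibs {δN δB δH : ℤ[X]} (F : Fil K KN KB KH L) (D : PFM K (δN * (δB * δH)))
    {r ξ : ℝ} {e : ℕ} {V : Type} [Fintype V] (Y : V → Fib F D r ξ e)
    (hr1 : 1 < D.lam * r) (hr2 : r ≤ D.rad) (hξ : 0 < ξ)
    (cx : K) (cbx : KB) (hcx : F.s cx = F.b cbx) (htx : D.tau cx = ξ)
    (s1 s2 : ℕ[X]) (β : V → ℕ[X]) (hs0 : (s1 + s2).coeff 0 = 0) (hs2 : s2 ≠ 0)
    (hs1 : ∃ d, s1.coeff d ≠ 0 ∧ s1.coeff (d + 1) ≠ 0) (hv : 1 < evp r s1)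
    (hβ0 : ∀ v, (β v).coeff 0 = 0) (hβ : ∀ v, β v ≠ 0)
    (hrel : cx = ∑ j, Pool.Agent.SSE.toZ (gpx Y (s1 + s2) β j) • gc Y cx j)
    (hB : ∃ RB : Matrix (Option V) (Option V) ℤ[X], RelOf δB (gcB Y cbx) RB ∧
      ∀ j, RB none j = (if j = none then 1 else 0) - Pool.Agent.SSE.toZ (gqx Y (s1 + s2) β j))
    {ιN : Type} [Fintype ιN] (fN : ιN → V) (hfN : Function.Injective fN) (gN : ιN → KN)
    (hgN : ∀ k, (Y (fN k)).IsN (gN k)) (RN : Matrix ιN ιN ℤ[X]) (hRN : RelOf δN gN RN)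
    {ιH : Type} [Fintype ιH] (fH : ιH → V) (hfH : Function.Injective fH) (gH : ιH → KH)
    (hgH : ∀ k, (Y (fH k)).IsH (gH k)) (RH : Matrix ιH ιH ℤ[X]) (hRH : RelOf δH gH RH)
    (hdN : ∏ v, (Y v).dN = ps δN) (hdH : ∏ v, (Y v).dH = ps δH)
    (hdB : (1 - gQS Y (s1 + s2) β).det = ps δB) :
    Tgt F D (gStr Y) (gc Y cx) (gcB Y cbx) r (gPS Y (s1 + s2) β) (gQS Y (s1 + s2) β) none := by
  have hlv := det_levels_gPS Y (s1 + s2) β
  constructor
  · exact hr1
  · exact hr2
  · exact gcls Y cx cbx hcx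
  · exact gRelN Y cx cbx hcx fN hfN gN hgN RN hRN
  · obtain ⟨RB, h1, h2⟩ := hB
    refine ⟨RB, h1, row_one_sub _ (fun j => Pool.Agent.SSE.toZ (gqx Y (s1 + s2) β j)) none RB
      (fun j => rfl) ?_ fun j hj => ?_⟩
    · rw [h2, if_pos rfl]
    · rw [h2, if_neg hj, zero_sub]
  · exact gRelH Y cx fH hfH gH hgH RH hRH
  · rintro (_ | ⟨v, i⟩)
    · show 0 < D.tau cx
      rw [htx]
      exact hξ
    · exact (Y v).c_pos i
  · exact structured_gPS Y _ _
  · exact gTS Y _ _ hs0 hβ0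
  · exact gbal Y cx _ _ htx hrel
  · rw [← hdN]
    exact hlv.1
  · rw [← hdB]
    congr <;> exact Subsingleton.elim _ _
  · rw [← hdH]
    exact hlv.2
  · exact ⟨_, s1, s2, ghub Y cx s1 s2 β hs2 hs1 hv hβ hrel⟩
  · exact ⟨_, _, e, gwts Y _ _⟩

end Pool.Agent.FTO
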