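import Pool.Agent.FTO.TAsm
import Pool.Agent.FTO.THub
import Pool.Agent.FTO.Kinds
import Pool.Agent.FTO.Num1

/-!
# FTO, A2: values of series, the classes of the local vertices

Values of sums and products, the class of the vector `mm` of a local vertex, the balance over `J`.
-/

set_option autoImplicit false
set_option linter.unusedSectionVars false

open scoped BigOperators
open Matrix Polynomial

namespace Pool.Agent.FTO

open Pool.Agent.SSE

attribute [local instance] Classical.propDecidable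

variable {K KN KB KH L : Type} [AddCommGroup K] [Module ℤ[X] K] [AddCommGroup KN]
  [Module ℤ[X] KN] [AddCommGroup KB] [Module ℤ[X] KB] [AddCommGroup KH] [Module ℤ[X] KH]
  [AddCommGroup L] [Module ℤ[X] L]

/-- loops of the target: at most `1` at the radius `ρ` -/
structure LoopT (ρ : ℝ) (l : PowerSeries ℤ) : Prop where
  nn : HN.Nn l
  c0 : PowerSeries.coeff 0 l = 0
  fn : FN ρ l
  le : sv ρ l ≤ 1

/-- the first return series of the hub of the target -/
structure HubT (x0 r ρ : ℝ) (HQ : PowerSeries ℤ) : Prop where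
  nn : HN.Nn HQ
  c0 : PowerSeries.coeff 0 HQ = 0
  fn : FN r HQ
  gt : 1 < sv r HQ
  one : sv x0 HQ = 1
  growth : ∃ (c : ℝ) (D0 : ℕ), 0 < c ∧ ∀ d ≥ D0, c ≤ ((PowerSeries.coeff d HQ : ℤ) : ℝ) * ρ ^ d

section values

theorem sv_add {r x : ℝ} (hr : 0 ≤ r) (hx : ‖x‖ ≤ r) {f g : PowerSeries ℤ} (hf : FN r f)
    (hg : FN r g) : FN r (f + g) ∧ sv x (f + g) = sv x f + sv x g := by
  have e : HN.toRS (f + g) = HN.toRS f + HN.toRS g := map_add HN.toRS f g
  have h1 : PF.HasN r (HN.toRS f + HN.toRS g) := PF.HasN.add hr hf hg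
  have h2 : PF.ev x (HN.toRS f + HN.toRS g) = PF.ev x (HN.toRS f) + PF.ev x (HN.toRS g) :=
    PF.ev_add hf hg hx
  unfold FN sv
  rw [e]
  exact ⟨h1, h2⟩

theorem sv_mul {r x : ℝ} (hr : 0 ≤ r) (hx : ‖x‖ ≤ r) {f g : PowerSeries ℤ} (hf : FN r f)
    (hg : FN r g) : FN r (f * g) ∧ sv x (f * g) = sv x f * sv x g := by
  have e : HN.toRS (f * g) = HN.toRS f * HN.toRS g := map_mul HN.toRS f g
  have h1 : PF.HasN r (HN.toRS f * HN.toRS g) := PF.HasN.mul hr hf hg
  have h2 : PF.ev x (HN.toRS f * HN.toRS g) = PF.ev x (HN.toRS f) * PF.ev x (HN.toRS g) :=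
    PF.ev_mul hf hg hx
  unfold FN sv
  rw [e]
  exact ⟨h1, h2⟩

theorem sv_sub {r x : ℝ} (hr : 0 ≤ r) (hx : ‖x‖ ≤ r) {f g : PowerSeries ℤ} (hf : FN r f)
    (hg : FN r g) : FN r (f - g) ∧ sv x (f - g) = sv x f - sv x g := by
  have e : HN.toRS (f - g) = HN.toRS f - HN.toRS g := map_sub HN.toRS f g
  have h1 : PF.HasN r (HN.toRS f - HN.toRS g) := PF.HasN.sub hr hf hg
  have h2 : PF.ev x (HN.toRS f - HN.toRS g) = PF.ev x (HN.toRS f) - PF.ev x (HN.toRS g) :=
    PF.ev_sub hf hg hx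
  unfold FN sv
  rw [e]
  exact ⟨h1, h2⟩

theorem FN_zero (r : ℝ) : FN r 0 := by
  have e : HN.toRS (0 : PowerSeries ℤ) = 0 := map_zero HN.toRS
  unfold FN
  rw [e]
  exact PF.hasN_zero r

theorem sv_zero (x : ℝ) : sv x 0 = 0 := by
  have e : HN.toRS (0 : PowerSeries ℤ) = 0 := map_zero HN.toRS
  unfold sv
  rw [e]
  unfold PF.ev
  simp

theorem sv_sum {r x : ℝ} (hr : 0 ≤ r) (hx : ‖x‖ ≤ r) {α : Type} (s : Finset α)
    (f : α → PowerSeries ℤ) (h : ∀ a ∈ s, FN r (f a)) :
    FN r (∑ a ∈ s, f a) ∧ sv x (∑ a ∈ s, f a) = ∑ a ∈ s, sv x (f a) := by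
  induction s using Finset.cons_induction with
  | empty =>
    rw [Finset.sum_empty, Finset.sum_empty]
    exact ⟨FN_zero r, sv_zero x⟩
  | cons a s ha ih =>
    have h1 := h a (Finset.mem_cons_self a s)
    obtain ⟨h2, h3⟩ := ih fun b hb => h b (Finset.mem_cons_of_mem hb)
    rw [Finset.sum_cons, Finset.sum_cons, ← h3]
    exact sv_add hr hx h1 h2

end values

section classes

variable {F : Fil K KN KB KH L} {δ : ℤ[X]} {D : PFM K δ} {r ξ : ℝ} {e : ℕ}

theorem Fib.s_sec (Y : Fib F D r ξ e) (a : Y.Co) (g : Y.Bl → Y.I) (hg : ∀ b, Y.blk (g b) = b) :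
    ∑ b, (if Y.cmp b = a then F.s (Y.c (g b)) else 0) = F.b Y.cb := by
  rw [← Y.hc a (fun i => if Y.cmp (Y.blk i) = a ∧ g (Y.blk i) = i then 1 else 0) ?_ ?_]
  · rw [map_sum]
    have h1 : ∀ i, F.s ((((if Y.cmp (Y.blk i) = a ∧ g (Y.blk i) = i then 1 else 0 : ℕ) : ℕ) : ℤ[X]) •
        Y.c i) = ∑ b, if Y.blk i = b then (if Y.cmp b = a ∧ g b = i then F.s (Y.c i) else 0)
          else 0 := by
      intro i
      rw [Finset.sum_ite_eq, if_pos (Finset.mem_univ _)]
      split_ifs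
      · rw [Nat.cast_one, one_smul]
      · rw [Nat.cast_zero, zero_smul, map_zero]
    simp only [h1]
    rw [Finset.sum_comm]
    refine Finset.sum_congr rfl fun b _ => ?_
    rw [Finset.sum_eq_single (g b)]
    · rw [if_pos (hg b)]
      by_cases h : Y.cmp b = a
      · rw [if_pos h, if_pos ⟨h, rfl⟩]
      · rw [if_neg h, if_neg fun h' => h h'.1]
    · intro i _ hi
      have h2 : ¬ (Y.cmp b = a ∧ g b = i) := fun h' => hi h'.2.symm
      rw [if_neg h2, ite_self]
    · intro h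
      exact absurd (Finset.mem_univ _) h
  · intro b hb
    rw [Finset.sum_eq_single (g b)]
    · rw [if_pos (hg b), hg, if_pos ⟨hb, rfl⟩]
    · intro i _ hi
      by_cases h : Y.blk i = b
      · rw [if_pos h, if_neg]
        rintro ⟨-, h2⟩
        rw [h] at h2
        exact hi h2.symm
      · rw [if_neg h]
    · intro h
      exact absurd (Finset.mem_univ _) h
  · intro i hi
    rw [if_neg fun h => hi h.1]

theorem Fib.s_blk (Y : Fib F D r ξ e) {i i' : Y.I} (h : Y.blk i = Y.blk i') :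
    F.s (Y.c i) = F.s (Y.c i') := by
  have h0 := Y.s_sec (Y.cmp (Y.blk i)) (Function.update (Function.surjInv Y.sB) (Y.blk i) i) (by
    intro b
    by_cases hb : b = Y.blk i
    · rw [hb, Function.update_self]
    · rw [Function.update_of_ne hb, Function.surjInv_eq Y.sB])
  have h1 := Y.s_sec (Y.cmp (Y.blk i)) (Function.update (Function.surjInv Y.sB) (Y.blk i) i') (by
    intro b
    by_cases hb : b = Y.blk i
    · rw [hb, Function.update_self, h]
    · rw [Function.update_of_ne hb, Function.surjInv_eq Y.sB])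
  rw [← h1, ← Finset.add_sum_erase _ _ (Finset.mem_univ (Y.blk i)),
    ← Finset.add_sum_erase _ (fun b => if Y.cmp b = Y.cmp (Y.blk i) then
      F.s (Y.c (Function.update (Function.surjInv Y.sB) (Y.blk i) i' b)) else 0)
      (Finset.mem_univ (Y.blk i))] at h0
  rw [if_pos rfl, if_pos rfl, Function.update_self, Function.update_self] at h0
  have h2 : ∑ x ∈ Finset.univ.erase (Y.blk i), (if Y.cmp x = Y.cmp (Y.blk i) then
      F.s (Y.c (Function.update (Function.surjInv Y.sB) (Y.blk i) i x)) else 0) =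
      ∑ x ∈ Finset.univ.erase (Y.blk i), (if Y.cmp x = Y.cmp (Y.blk i) then
      F.s (Y.c (Function.update (Function.surjInv Y.sB) (Y.blk i) i' x)) else 0) := by
    refine Finset.sum_congr rfl fun b hb => ?_
    rw [Function.update_of_ne (Finset.ne_of_mem_erase hb),
      Function.update_of_ne (Finset.ne_of_mem_erase hb)]
  rw [h2] at h0
  exact add_right_cancel h0

/-- the class of a block in `L` -/
noncomputable def Fib.th (Y : Fib F D r ξ e) (b : Y.Bl) : L := F.s (Y.c (Function.surjInv Y.sB b))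

theorem Fib.th_blk (Y : Fib F D r ξ e) (i : Y.I) : F.s (Y.c i) = Y.th (Y.blk i) :=
  Y.s_blk (Function.surjInv_eq Y.sB _).symm

theorem Fib.th_sum (Y : Fib F D r ξ e) (a : Y.Co) :
    ∑ b, (if Y.cmp b = a then Y.th b else 0) = F.b Y.cb :=
  Y.s_sec a _ fun b => Function.surjInv_eq Y.sB b

theorem Fib.card_blk_pos (Y : Fib F D r ξ e) (b : Y.Bl) : 0 < Fintype.card {i // Y.blk i = b} := by
  obtain ⟨i, hi⟩ := Y.sB b
  exact Fintype.card_pos_iff.2 ⟨⟨i, hi⟩⟩

theorem Fib.mm_mul (Y : Fib F D r ξ e) (b : Y.Bl) :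
    Fintype.card {i // Y.blk i = b} * (Y.MM / Fintype.card {i // Y.blk i = b}) = Y.MM :=
  Nat.mul_div_cancel' (Finset.dvd_prod_of_mem (fun b => Fintype.card {i // Y.blk i = b})
    (Finset.mem_univ b))

/-- sums over the elements with the weights `mm` -/
theorem Fib.sum_mm (Y : Fib F D r ξ e) {M : Type} [AddCommMonoid M] (f : Y.Bl → M) :
    ∑ i, Y.mm i • f (Y.blk i) = Y.MM • ∑ b, f b := by
  have h1 : ∀ i, Y.mm i • f (Y.blk i) = ∑ b, if Y.blk i = b then Y.mm i • f b else 0 := by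
    intro i
    rw [Finset.sum_ite_eq, if_pos (Finset.mem_univ _)]
  simp only [h1]
  rw [Finset.sum_comm, Finset.smul_sum]
  refine Finset.sum_congr rfl fun b _ => ?_
  have h2 : ∀ i, (if Y.blk i = b then Y.mm i • f b else 0) =
      if Y.blk i = b then (Y.MM / Fintype.card {i // Y.blk i = b}) • f b else 0 := by
    intro i
    split_ifs with h
    · rw [Fib.mm, h]
    · rfl
  simp only [h2]
  rw [← Finset.sum_filter, Finset.sum_const, smul_smul, ← Fintype.card_subtype, Y.mm_mul]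

theorem Fib.sum_cmp (Y : Fib F D r ξ e) {M : Type} [AddCommMonoid M] (f : Y.Bl → M) (m : M)
    (h : ∀ a, ∑ b, (if Y.cmp b = a then f b else 0) = m) :
    ∑ b, f b = Fintype.card Y.Co • m := by
  have h1 : ∑ b, f b = ∑ a, ∑ b, (if Y.cmp b = a then f b else 0) := by
    rw [Finset.sum_comm]
    refine Finset.sum_congr rfl fun b _ => ?_
    rw [Finset.sum_ite_eq, if_pos (Finset.mem_univ _)]
  rw [h1]
  simp only [h]
  rw [Finset.sum_const, Finset.card_univ]

/-- the class of the vector `mm` -/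
theorem Fib.s_mm (Y : Fib F D r ξ e) : F.s (∑ i, (Y.mm i : ℤ[X]) • Y.c i) =
    F.b (((Fintype.card Y.Co * Y.MM : ℕ) : ℤ[X]) • Y.cb) := by
  have h1 : ∀ i, F.s ((Y.mm i : ℤ[X]) • Y.c i) = Y.mm i • Y.th (Y.blk i) := by
    intro i
    rw [map_smul, Nat.cast_smul_eq_nsmul, Y.th_blk]
  rw [map_sum]
  simp only [h1]
  rw [Y.sum_mm, Y.sum_cmp _ _ Y.th_sum, Nat.cast_smul_eq_nsmul, map_nsmul, smul_smul, mul_comm]

variable {δB : ℤ[X]} {DB : PFM KB δB}

theorem Fib.tau_mm (Y : Fib F D r ξ e) (hcomp : ∀ z y, F.s z = F.b y → D.tau z = DB.tau y) :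
    ∑ i, (Y.mm i : ℝ) * D.tau (Y.c i) = ((Fintype.card Y.Co * Y.MM : ℕ) : ℝ) * DB.tau Y.cb := by
  have h1 := hcomp _ _ Y.s_mm
  rw [map_sum, Nat.cast_smul_eq_nsmul, map_nsmul, nsmul_eq_mul] at h1
  rw [← h1]
  refine Finset.sum_congr rfl fun i _ => ?_
  rw [Nat.cast_smul_eq_nsmul, map_nsmul, nsmul_eq_mul]

theorem Fib.tau_blk (Y : Fib F D r ξ e) (hcomp : ∀ z y, F.s z = F.b y → D.tau z = DB.tau y)
    {i i' : Y.I} (h : Y.blk i = Y.blk i') : D.tau (Y.c i) = D.tau (Y.c i') := by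
  have h1 := hcomp (Y.c i - Y.c i') 0 (by rw [map_sub, Y.s_blk h, sub_self, map_zero])
  rw [map_sub, map_zero] at h1
  linarith

theorem Fib.tau_sum (Y : Fib F D r ξ e) (hcomp : ∀ z y, F.s z = F.b y → D.tau z = DB.tau y)
    (a : Y.Co) : ∑ b, (if Y.cmp b = a then D.tau (Y.c (Function.surjInv Y.sB b)) else 0) =
      DB.tau Y.cb := by
  have h1 := hcomp (∑ b, if Y.cmp b = a then Y.c (Function.surjInv Y.sB b) else 0) Y.cb (by
    rw [map_sum, ← Y.th_sum a]
    refine Finset.sum_congr rfl fun b _ => ?_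
    split_ifs
    · rfl
    · exact map_zero _)
  rw [← h1, map_sum]
  refine Finset.sum_congr rfl fun b _ => ?_
  split_ifs
  · rfl
  · exact (map_zero _).symm

/-- the balance of the class over `J` -/
theorem Fib.tau_cb (Y : Fib F D r ξ e) (hcomp : ∀ z y, F.s z = F.b y → D.tau z = DB.tau y)
    (hr : 1 < D.lam * r) :
    DB.tau Y.cb = sv D.lam⁻¹ Y.l * DB.tau Y.cb + sv D.lam⁻¹ Y.kq * ξ := by
  have hlam : 0 < D.lam := lt_trans one_pos D.one_lt
  have hx0 : 0 < D.lam⁻¹ := inv_pos.2 hlam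
  have hxr : D.lam⁻¹ < r := by
    rw [inv_lt_iff_one_lt_mul₀ hlam, mul_comm]
    linarith
  have hr0 : 0 ≤ r := (hx0.trans hxr).le
  have hx : ‖D.lam⁻¹‖ ≤ r := by
    rw [Real.norm_of_nonneg hx0.le]
    exact hxr.le
  set x := D.lam⁻¹ with hxd
  set g := Function.surjInv Y.sB with hg
  have hblk : ∀ b, Y.blk (g b) = b := fun b => Function.surjInv_eq Y.sB b
  set t : Y.Bl → ℝ := fun b => D.tau (Y.c (g b)) with ht
  have htb : ∀ i, D.tau (Y.c i) = t (Y.blk i) := fun i => Y.tau_blk hcomp (hblk _).symm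
  obtain ⟨a⟩ := Y.ne
  -- values of the matrices
  have hDB : ∀ b b', FN r (Y.DB b b') ∧
      sv x (Y.DB b b') = ∑ i', if Y.blk i' = b' then sv x (Y.DI (g b) i') else 0 := by
    intro b b'
    have h1 := Y.h1 (g b) b'
    rw [hblk] at h1
    rw [← h1]
    obtain ⟨h2, h3⟩ := sv_sum hr0 hx Finset.univ
      (fun i' => if Y.blk i' = b' then Y.DI (g b) i' else 0) (by
        intro i' _
        split_ifs
        · exact (Y.tsD _ _).fn
        · exact FN_zero r)
    refine ⟨h2, ?_⟩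
    rw [h3]
    refine Finset.sum_congr rfl fun i' _ => ?_
    split_ifs
    · rfl
    · exact sv_zero x
  have hDC : ∀ a a', FN r (Y.DC a a') ∧ ∀ b', Y.cmp b' = a' →
      sv x (Y.DC a a') = ∑ b, if Y.cmp b = a then sv x (Y.DB b b') else 0 := by
    intro a a'
    have h0 : ∀ b', Y.cmp b' = a' → FN r (Y.DC a a') ∧
        sv x (Y.DC a a') = ∑ b, if Y.cmp b = a then sv x (Y.DB b b') else 0 := by
      intro b' hb'
      rw [← hb', ← Y.h2 a b']
      obtain ⟨h2, h3⟩ := sv_sum hr0 hx Finset.univ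
        (fun b => if Y.cmp b = a then Y.DB b b' else 0) (by
          intro b _
          split_ifs
          · exact (hDB _ _).1
          · exact FN_zero r)
      refine ⟨h2, ?_⟩
      rw [h3]
      refine Finset.sum_congr rfl fun b _ => ?_
      split_ifs
      · rfl
      · exact sv_zero x
    obtain ⟨b', hb'⟩ := Y.sC a'
    exact ⟨(h0 b' hb').1, fun b' hb' => (h0 b' hb').2⟩
  have hl : sv x Y.l = ∑ a', sv x (Y.DC a a') := by
    rw [← Y.h3 a]
    exact (sv_sum hr0 hx Finset.univ _ fun a' _ => (hDC a a').1).2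
  have hkq : sv x Y.kq = ∑ b, if Y.cmp b = a then sv x (Y.q b) else 0 := by
    rw [← Y.hq a]
    obtain ⟨-, h3⟩ := sv_sum hr0 hx Finset.univ
      (fun b => if Y.cmp b = a then Y.q b else 0) (by
        intro b _
        split_ifs
        · exact (Y.tsq _).fn
        · exact FN_zero r)
    rw [h3]
    refine Finset.sum_congr rfl fun b _ => ?_
    split_ifs
    · rfl
    · exact sv_zero x
  -- balance of the blocks
  have hbal : ∀ b, t b = ∑ b', sv x (Y.DB b b') * t b' + sv x (Y.q b) * ξ := by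
    intro b
    have h1 := Y.bal (g b)
    rw [hblk] at h1
    show D.tau (Y.c (g b)) = _
    rw [h1]
    congr 1
    have h2 : ∀ i', sv x (Y.DI (g b) i') * D.tau (Y.c i') =
        ∑ b', if Y.blk i' = b' then sv x (Y.DI (g b) i') * t b' else 0 := by
      intro i'
      rw [Finset.sum_ite_eq, if_pos (Finset.mem_univ _), htb]
    rw [Finset.sum_congr rfl fun i' _ => h2 i', Finset.sum_comm]
    refine Finset.sum_congr rfl fun b' _ => ?_
    rw [(hDB b b').2, Finset.sum_mul]
    refine Finset.sum_congr rfl fun i' _ => ?_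
    split_ifs
    · rfl
    · rw [zero_mul]
  have hs : ∀ a, ∑ b, (if Y.cmp b = a then t b else 0) = DB.tau Y.cb := fun a =>
    Y.tau_sum hcomp a
  have h4 : DB.tau Y.cb = ∑ b, (if Y.cmp b = a then
      ∑ b', sv x (Y.DB b b') * t b' + sv x (Y.q b) * ξ else 0) := by
    rw [← hs a]
    refine Finset.sum_congr rfl fun b _ => ?_
    split_ifs
    · exact hbal b
    · rfl
  have h5 : ∑ b, (if Y.cmp b = a then ∑ b', sv x (Y.DB b b') * t b' + sv x (Y.q b) * ξ else 0) =
      (∑ b, if Y.cmp b = a then ∑ b', sv x (Y.DB b b') * t b' else 0) + sv x Y.kq * ξ := by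
    rw [hkq, Finset.sum_mul, ← Finset.sum_add_distrib]
    refine Finset.sum_congr rfl fun b _ => ?_
    split_ifs
    · rfl
    · rw [zero_mul, add_zero]
  have h6 : (∑ b, if Y.cmp b = a then ∑ b', sv x (Y.DB b b') * t b' else 0) =
      ∑ b', sv x (Y.DC a (Y.cmp b')) * t b' := by
    have h7 : ∀ b, (if Y.cmp b = a then ∑ b', sv x (Y.DB b b') * t b' else 0) =
        ∑ b', (if Y.cmp b = a then sv x (Y.DB b b') else 0) * t b' := by
      intro b
      split_ifs
      · rfl
      · simp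
    rw [Finset.sum_congr rfl fun b _ => h7 b, Finset.sum_comm]
    refine Finset.sum_congr rfl fun b' _ => ?_
    rw [(hDC a (Y.cmp b')).2 b' rfl, Finset.sum_mul]
  have h8 : ∑ b', sv x (Y.DC a (Y.cmp b')) * t b' = sv x Y.l * DB.tau Y.cb := by
    have h9 : ∀ b', sv x (Y.DC a (Y.cmp b')) * t b' =
        ∑ a', if Y.cmp b' = a' then sv x (Y.DC a a') * t b' else 0 := by
      intro b'
      rw [Finset.sum_ite_eq, if_pos (Finset.mem_univ _)]
    rw [Finset.sum_congr rfl fun b' _ => h9 b', Finset.sum_comm, hl, Finset.sum_mul]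
    refine Finset.sum_congr rfl fun a' _ => ?_
    rw [← hs a', Finset.mul_sum]
    refine Finset.sum_congr rfl fun b' _ => ?_
    split_ifs
    · rfl
    · rw [mul_zero]
  rw [h5, h6, h8] at h4
  exact h4

end classes

end Pool.Agent.FTO
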