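import Pool.Agent.FTO.Fil
import Pool.Agent.FTO.G6

/-!
# FTO, A2: local vertices and the global target (definitions)

`Fib`: the data over one vertex `v` of the target which is different from the hub (`w` is one of
them). The target has the hub `none`, with a fibre of one element, and the vertices `some v`. Row of
the hub: `s1 + s2` at the hub and `β v * m i` at the element `i` over `v`, `m i` = (product of the
sizes of all blocks over `v`) / (size of the block of `i`). Row of an element `i` over `v`: `DI i` on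
the elements over `v`, `q (blk i)` at the hub.
-/

set_option autoImplicit false

open scoped BigOperators
open Matrix Polynomial

namespace Pool.Agent.FTO

open Pool.Agent.SSE

attribute [local instance] Classical.propDecidable

variable {K KN KB KH L : Type} [AddCommGroup K] [Module ℤ[X] K] [AddCommGroup KN]
  [Module ℤ[X] KN] [AddCommGroup KB] [Module ℤ[X] KB] [AddCommGroup KH] [Module ℤ[X] KH]
  [AddCommGroup L] [Module ℤ[X] L]

/-- A local vertex: chain `I → Bl → Co`, loops `DI` (on the elements), `DB` (blocks), `DC`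
(components), `l` (vertex); series `q` to the hub; classes; weights. -/
structure Fib (F : Fil K KN KB KH L) {δ : ℤ[X]} (D : PFM K δ) (r ξ : ℝ) (e : ℕ) where
  I : Type
  Bl : Type
  Co : Type
  fI : Fintype I
  fB : Fintype Bl
  fC : Fintype Co
  blk : I → Bl
  cmp : Bl → Co
  sB : Function.Surjective blk
  sC : Function.Surjective cmp
  ne : Nonempty Co
  DI : Matrix I I (PowerSeries ℤ)
  DB : Matrix Bl Bl (PowerSeries ℤ)
  DC : Matrix Co Co (PowerSeries ℤ)
  l : PowerSeries ℤ
  h1 : ∀ i b', ∑ i', (if blk i' = b' then DI i i' else 0) = DB (blk i) b'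
  h2 : ∀ a b', ∑ b, (if cmp b = a then DB b b' else 0) = DC a (cmp b')
  h3 : ∀ a, ∑ a', DC a a' = l
  dN : PowerSeries ℤ
  dH : PowerSeries ℤ
  hdH : dH * (1 - DC).det = (1 - DB).det
  hdN : dN * ((1 - l) * dH) = (1 - DI).det
  q : Bl → PowerSeries ℤ
  kq : PowerSeries ℤ
  hq : ∀ a, ∑ b, (if cmp b = a then q b else 0) = kq
  c : I → K
  cb : KB
  hc : ∀ a (t : I → ℕ), (∀ b, cmp b = a → ∑ i, (if blk i = b then t i else 0) = 1) →
    (∀ i, cmp (blk i) ≠ a → t i = 0) → F.s (∑ i, (t i : ℤ[X]) • c i) = F.b cb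
  wt : Bl → ℕ
  kap : ℕ
  wt_pos : ∀ b, 0 < wt b
  hwt : ∀ a, ∑ b, (if cmp b = a then wt b else 0) = kap
  see : ∀ b, (wt b : ℤ) ≤ PowerSeries.coeff e (q b)
  tsD : ∀ i i', TS r (DI i i')
  tsq : ∀ b, TS r (q b)
  c_pos : ∀ i, 0 < D.tau (c i)
  bal : ∀ i, D.tau (c i) = ∑ i', sv D.lam⁻¹ (DI i i') * D.tau (c i') + sv D.lam⁻¹ (q (blk i)) * ξ

attribute [instance] Fib.fI Fib.fB Fib.fC

namespace Fib

variable {F : Fil K KN KB KH L} {δ : ℤ[X]} {D : PFM K δ} {r ξ : ℝ} {e : ℕ}

/-- product of the sizes of all blocks -/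
noncomputable def MM (Y : Fib F D r ξ e) : ℕ := ∏ b : Y.Bl, Fintype.card {i // Y.blk i = b}

/-- the positive vector of `MM` -/
noncomputable def mm (Y : Fib F D r ξ e) (i : Y.I) : ℕ :=
  Y.MM / Fintype.card {i' // Y.blk i' = Y.blk i}

/-- vertices for the `N`-level: one block with two elements, the difference of the classes is
`F.i n` -/
def IsN (Y : Fib F D r ξ e) (n : KN) : Prop :=
  ∃ i0 i1 : Y.I, i0 ≠ i1 ∧ (∀ i, i = i0 ∨ i = i1) ∧ Y.blk i0 = Y.blk i1 ∧ Y.c i1 - Y.c i0 = F.i n

/-- vertices for the `H`-level: one component with two blocks of one element, with the classes `h`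
and `-h` in `KH` -/
def IsH (Y : Fib F D r ξ e) (h : KH) : Prop :=
  ∃ i0 i1 : Y.I, (∀ i, i = i0 ∨ i = i1) ∧ Y.blk i0 ≠ Y.blk i1 ∧
    Y.cmp (Y.blk i0) = Y.cmp (Y.blk i1) ∧ F.p (F.s (Y.c i0)) = h ∧ F.p (F.s (Y.c i1)) = -h

end Fib

section glob

variable {F : Fil K KN KB KH L} {δ : ℤ[X]} {D : PFM K δ} {r ξ : ℝ} {e : ℕ} {V : Type} [Fintype V]
  (Y : V → Fib F D r ξ e)

/-- a map of the global index sets -/
def gmap {A B : V → Type} (f : ∀ v, A v → B v) : Option (Σ v, A v) → Option (Σ v, B v)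
  | none => none
  | some ⟨v, i⟩ => some ⟨v, f v i⟩

/-- the vertex -/
def gfst {A : V → Type} : Option (Σ v, A v) → Option V
  | none => none
  | some ⟨v, _⟩ => some v

/-- the global fibre structure -/
def gStr : Str (Option (Σ v, (Y v).I)) (Option V) where
  Bl := Option (Σ v, (Y v).Bl)
  Co := Option (Σ v, (Y v).Co)
  finB := inferInstance
  finC := inferInstance
  blk := gmap fun v => (Y v).blk
  cmp := gmap fun v => (Y v).cmp
  fib := gfst
  sB := by
    rintro (_ | ⟨v, b⟩)
    · exact ⟨none, rfl⟩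
    · obtain ⟨i, rfl⟩ := (Y v).sB b
      exact ⟨some ⟨v, i⟩, rfl⟩
  sC := by
    rintro (_ | ⟨v, b⟩)
    · exact ⟨none, rfl⟩
    · obtain ⟨i, rfl⟩ := (Y v).sC b
      exact ⟨some ⟨v, i⟩, rfl⟩
  sF := by
    rintro (_ | v)
    · exact ⟨none, rfl⟩
    · obtain ⟨a⟩ := (Y v).ne
      exact ⟨some ⟨v, a⟩, rfl⟩

/-- the row of the hub -/
noncomputable def gpx (s : ℕ[X]) (β : V → ℕ[X]) : Option (Σ v, (Y v).I) → ℕ[X]
  | none => s
  | some ⟨v, i⟩ => β v * C ((Y v).mm i)

/-- a matrix with a hub: row of the hub `p`, column of the hub `q`, blocks `M v` -/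
noncomputable def hubMat {A : V → Type} {R : Type} [Zero R] (p : Option (Σ v, A v) → R)
    (q : ∀ v, A v → R) (M : ∀ v, Matrix (A v) (A v) R) :
    Matrix (Option (Σ v, A v)) (Option (Σ v, A v)) R := fun i j => match i, j with
  | none, j => p j
  | some ⟨v, i⟩, none => q v i
  | some a, some a' => blockDiagonal' M a a'

/-- the target -/
noncomputable def gPS (s : ℕ[X]) (β : V → ℕ[X]) :
    Matrix (Option (Σ v, (Y v).I)) (Option (Σ v, (Y v).I)) (PowerSeries ℤ) :=
  hubMat (fun j => ps (Pool.Agent.SSE.toZ (gpx Y s β j))) (fun v i => (Y v).q ((Y v).blk i))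
    fun v => (Y v).DI

/-- the row of the hub of the target over `J` -/
noncomputable def gqx (s : ℕ[X]) (β : V → ℕ[X]) : Option V → ℕ[X]
  | none => s
  | some v => β v * C (Fintype.card (Y v).Co * (Y v).MM)

/-- the target over `J` -/
noncomputable def gQS (s : ℕ[X]) (β : V → ℕ[X]) :
    Matrix (Option V) (Option V) (PowerSeries ℤ) := fun i j => match i, j with
  | none, j => ps (Pool.Agent.SSE.toZ (gqx Y s β j))
  | some v, none => (Y v).kq
  | some v, some v' => if v = v' then (Y v).l else 0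

/-- the classes -/
def gc (cx : K) : Option (Σ v, (Y v).I) → K
  | none => cx
  | some ⟨v, i⟩ => (Y v).c i

/-- the classes over `J` -/
def gcB (cbx : KB) : Option V → KB
  | none => cbx
  | some v => (Y v).cb

end glob

end Pool.Agent.FTO
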