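import Pool.Agent.FTO.TCls
import Pool.Agent.SSE.HTau

/-!
# FTO, A2: the final choices

From a family of local vertices without the vertex `w` (`PreFib`), and the first return series `HQ`
of the hub, to the target.
-/

set_option autoImplicit false
set_option linter.unusedSectionVars false

open scoped BigOperators
open Matrix Polynomial

namespace Pool.Agent.FTO

open Pool.Agent.SSE

attribute [local instance] Classical.propDecidable

variable {K KN KB KH L : Type} [AddCommGroup K] [Module ℤ[X] K] [AddCommGroup KN]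
  [Module ℤ[X] KN] [AddCommGroup KB] [Module ℤ[X] KB] [AddCommGroup KH] [Module ℤ[X] KH]
  [AddCommGroup L] [Module ℤ[X] L]

/-! ### the vertex `w` -/

/-- the vertex `w`: trivial, without loop, with a prescribed series `q` to the hub -/
noncomputable def fibW (F : Fil K KN KB KH L) {δ : ℤ[X]} (D : PFM K δ) {r ξ : ℝ} {e : ℕ}
    (q : PowerSeries ℤ) (hq : TS r q) (he : 1 ≤ PowerSeries.coeff e q) (z : K) (y : KB)
    (hzy : F.s z = F.b y) (hz : 0 < D.tau z) (hb : D.tau z = sv D.lam⁻¹ q * ξ) :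
    Fib F D r ξ e where
  I := Unit
  Bl := Unit
  Co := Unit
  fI := inferInstance
  fB := inferInstance
  fC := inferInstance
  blk := id
  cmp := id
  sB := Function.surjective_id
  sC := Function.surjective_id
  ne := ⟨()⟩
  DI := 0
  DB := 0
  DC := 0
  l := 0
  h1 := by intro i b'; simp
  h2 := by intro a b'; simp
  h3 := by intro a; simp
  dN := 1
  dH := 1
  hdH := by simp
  hdN := by simp
  q := fun _ => q
  kq := q
  hq := by intro a; simp
  c := fun _ => z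
  cb := y
  hc := by
    intro a t h1 _
    have h3 := h1 () (Subsingleton.elim _ _)
    simp only [Finset.univ_unique, Finset.sum_singleton] at h3 ⊢
    have h4 : t default = 1 := by
      simpa using h3
    rw [h4, Nat.cast_one, one_smul, hzy]
  wt := fun _ => 1
  kap := 1
  wt_pos := fun _ => one_pos
  hwt := by intro a; simp
  see := fun _ => by exact_mod_cast he
  tsD := fun _ _ => ⟨by simp, fun d => by simp, FN_zero r⟩
  tsq := fun _ => hq
  c_pos := fun _ => hz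
  bal := by
    intro i
    simp only [Matrix.zero_apply, sv_zero, zero_mul, Finset.sum_const_zero, zero_add]
    exact hb

theorem fibW_MM {F : Fil K KN KB KH L} {δ : ℤ[X]} (D : PFM K δ) {r ξ : ℝ} {e : ℕ}
    (q : PowerSeries ℤ) (hq : TS r q) (he : 1 ≤ PowerSeries.coeff e q) (z : K) (y : KB)
    (hzy : F.s z = F.b y) (hz : 0 < D.tau z) (hb : D.tau z = sv D.lam⁻¹ q * ξ) :
    (fibW F D q hq he z y hzy hz hb).MM = 1 := by
  unfold Fib.MM
  refine Finset.prod_eq_one fun b _ => ?_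
  exact Fintype.card_eq_one_iff.2 ⟨⟨(), Subsingleton.elim (α := Unit) _ _⟩,
    fun y => Subtype.ext (Subsingleton.elim (α := Unit) _ _)⟩

theorem fibW_mm {F : Fil K KN KB KH L} {δ : ℤ[X]} (D : PFM K δ) {r ξ : ℝ} {e : ℕ}
    (q : PowerSeries ℤ) (hq : TS r q) (he : 1 ≤ PowerSeries.coeff e q) (z : K) (y : KB)
    (hzy : F.s z = F.b y) (hz : 0 < D.tau z) (hb : D.tau z = sv D.lam⁻¹ q * ξ) (i) :
    (fibW F D q hq he z y hzy hz hb).mm i = 1 := by
  unfold Fib.mm
  rw [fibW_MM]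
  have h1 : Fintype.card {i' // (fibW F D q hq he z y hzy hz hb).blk i' =
      (fibW F D q hq he z y hzy hz hb).blk i} = 1 :=
    Fintype.card_eq_one_iff.2 ⟨⟨(), Subsingleton.elim (α := Unit) _ _⟩,
      fun y => Subtype.ext (Subsingleton.elim (α := Unit) _ _)⟩
  rw [h1]

/-! ### truncations of the hub series -/

/-- the part of degree `< M` of a series with nonnegative coefficients -/
noncomputable def sP (f : PowerSeries ℤ) (M : ℕ) : ℕ[X] :=
  ∑ d ∈ Finset.range M, C (PowerSeries.coeff d f).toNat * X ^ d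

theorem coeff_sP (f : PowerSeries ℤ) (M d : ℕ) :
    (sP f M).coeff d = if d < M then (PowerSeries.coeff d f).toNat else 0 := by
  unfold sP
  rw [finsetSum_coeff]
  simp only [coeff_C_mul, coeff_X_pow, mul_ite, mul_one, mul_zero]
  by_cases h : d < M
  · rw [if_pos h, Finset.sum_eq_single d]
    · rw [if_pos rfl]
    · intro b _ hb
      rw [if_neg (Ne.symm hb)]
    · intro h'
      exact absurd (Finset.mem_range.2 h) h'
  · rw [if_neg h]
    refine Finset.sum_eq_zero fun b hb => ?_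
    rw [if_neg]
    rintro rfl
    exact h (Finset.mem_range.1 hb)

theorem evp_sP (x : ℝ) {f : PowerSeries ℤ} (hf : HN.Nn f) (M : ℕ) :
    evp x (sP f M) = ∑ d ∈ Finset.range M, ((PowerSeries.coeff d f : ℤ) : ℝ) * x ^ d := by
  unfold sP evp
  rw [eval₂_finsetSum]
  refine Finset.sum_congr rfl fun d _ => ?_
  rw [eval₂_mul, eval₂_C, eval₂_X_pow]
  congr 1
  have h1 : (((PowerSeries.coeff d f).toNat : ℤ) : ℝ) = ((PowerSeries.coeff d f : ℤ) : ℝ) := by
    rw [Int.toNat_of_nonneg (hf d)]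
  rw [← h1, Int.cast_natCast]
  rfl

theorem sP_succ (f : PowerSeries ℤ) (M : ℕ) :
    sP f (M + 1) = sP f M + C (PowerSeries.coeff M f).toNat * X ^ M := by
  unfold sP
  rw [Finset.sum_range_succ]

/-- a long truncation has a value greater than `1` -/
theorem exists_trunc {x r ρ : ℝ} {HQ : PowerSeries ℤ} (hρ : 0 < ρ)
    (h : HubT x r ρ HQ) :
    ∃ M : ℕ, 1 < evp r (sP HQ M) ∧ PowerSeries.coeff M HQ ≠ 0 ∧
      ∃ d, (sP HQ M).coeff d ≠ 0 ∧ (sP HQ M).coeff (d + 1) ≠ 0 := by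
  obtain ⟨c, D0, hc, hD⟩ := h.growth
  have hpos : ∀ d ≥ D0, 0 < PowerSeries.coeff d HQ := by
    intro d hd
    have h1 := hD d hd
    have h2 : 0 < ((PowerSeries.coeff d HQ : ℤ) : ℝ) := by
      by_contra h3
      have h4 : ((PowerSeries.coeff d HQ : ℤ) : ℝ) * ρ ^ d ≤ 0 :=
        mul_nonpos_of_nonpos_of_nonneg (not_lt.1 h3) (pow_pos hρ d).le
      linarith
    exact_mod_cast h2
  have hsum : Summable fun d => ((PowerSeries.coeff d HQ : ℤ) : ℝ) * r ^ d := by
    have h1 := h.fn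
    refine Summable.congr h1 fun d => ?_
    rw [HN.norm_coeff h.nn]
  have ht := hsum.hasSum.tendsto_sum_nat
  have hgt : (1 : ℝ) < ∑' d, ((PowerSeries.coeff d HQ : ℤ) : ℝ) * r ^ d := by
    have h1 := h.gt
    unfold sv PF.ev at h1
    simpa only [HN.coeff_toRS] using h1
  obtain ⟨M0, hM0⟩ := Filter.eventually_atTop.1 (ht.eventually (lt_mem_nhds hgt))
  refine ⟨max M0 (D0 + 2), ?_, (hpos _ (by omega)).ne', D0, ?_, ?_⟩
  · rw [evp_sP r h.nn]
    exact hM0 _ (le_max_left _ _)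
  · rw [coeff_sP, if_pos (by omega)]
    have := hpos D0 le_rfl
    omega
  · rw [coeff_sP, if_pos (by omega)]
    have := hpos (D0 + 1) (by omega)
    omega


theorem toZ_natC (n : ℕ) : Pool.Agent.SSE.toZ (C n) = ((n : ℕ) : ℤ[X]) := by
  rw [Pool.Agent.SSE.toZ, Polynomial.map_C]
  simp

theorem ps_natCast (n : ℕ) : ps (Pool.Agent.SSE.toZ (C n)) = ((n : ℕ) : PowerSeries ℤ) := by
  rw [toZ_natC]
  exact map_natCast (Polynomial.coeToPowerSeries.ringHom (R := ℤ)) n

theorem FN_bdd {r : ℝ} (hr0 : 0 ≤ r) (hr1 : r < 1) {f : PowerSeries ℤ} (hf : HN.Nn f) {C : ℕ}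
    (h : ∀ d, PowerSeries.coeff d f ≤ (C : ℤ)) : FN r f := by
  refine PF.hasN_of_le (K := (C : ℝ)) (s := 1) hr0 zero_le_one (by simpa using hr1) fun d => ?_
  rw [HN.norm_coeff hf, one_pow, mul_one]
  exact_mod_cast h d

theorem LoopT.sum_le {ρ : ℝ} (hρ : 0 ≤ ρ) {l : PowerSeries ℤ} (h : LoopT ρ l) (n : ℕ) :
    ∑ d ∈ Finset.range n, ((PowerSeries.coeff d l : ℤ) : ℝ) * ρ ^ d ≤ 1 := by
  refine (sum_le_sn hρ h.nn h.fn n).trans ?_
  have h1 : sn ρ l = sv ρ l := HN.nS_eq_val hρ h.nn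
  rw [h1]
  exact h.le

theorem LoopT.fn_geo {ρ r : ℝ} (hr0 : 0 < r) (hrρ : r < ρ) {l u : PowerSeries ℤ} (h : LoopT ρ l)
    (hu : (1 - l) * u = 1) : FN r u := by
  have hρ : 0 < ρ := hr0.trans hrρ
  have h1 := renewal_le hρ h.nn h.c0 (h.sum_le hρ.le) hu
  refine PF.hasN_of_le (K := 1) (s := ρ⁻¹) hr0.le (inv_nonneg.2 hρ.le) ?_ fun d => ?_
  · rw [← div_eq_mul_inv, div_lt_one hρ]
    exact hrρ
  · rw [HN.norm_coeff (fun d => (h1 d).1), one_mul, inv_pow, ← one_div,
      le_div_iff₀ (pow_pos hρ d)]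
    exact (h1 d).2

/-- **the target from the local vertices** -/
theorem tgt_of_pre {δN δB δH : ℤ[X]} (F : Fil K KN KB KH L) (D : PFM K (δN * (δB * δH)))
    (DB : PFM KB δB) (hlam : DB.lam = D.lam)
    (hcomp : ∀ z y, F.s z = F.b y → D.tau z = DB.tau y)
    {r ρ : ℝ} (hr1 : 1 < D.lam * r) (hr2 : r ≤ D.rad) (hrρ : r < ρ) (hρ1 : ρ < 1)
    {V : Type} [Fintype V] (P : V → PreFib F D r) (hl : ∀ v, LoopT ρ (P v).l)
    {HQ : PowerSeries ℤ} (hQ : HubT D.lam⁻¹ r ρ HQ)
    (hB : (∏ v, (1 - (P v).l)) * (1 - HQ) = ps δB)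
    (hN : ∏ v, (P v).dN = ps δN) (hH : ∏ v, (P v).dH = ps δH)
    {R : Matrix V V ℤ[X]} (hR : RelOf δB (fun v => (P v).cb) R)
    (U : K) (b0 : KB) (hU : F.s U = F.b b0) (htU : 0 < D.tau U)
    {ιN : Type} [Fintype ιN] (fN : ιN → V) (hfN : Function.Injective fN) (gN : ιN → KN)
    (hgN : ∀ k, (P (fN k)).IsN (gN k)) (RN : Matrix ιN ιN ℤ[X]) (hRN : RelOf δN gN RN)
    {ιH : Type} [Fintype ιH] (fH : ιH → V) (hfH : Function.Injective fH) (gH : ιH → KH)
    (hgH : ∀ k, (P (fH k)).IsH (gH k)) (RH : Matrix ιH ιH ℤ[X]) (hRH : RelOf δH gH RH) :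
    ∃ (I J : Type) (_ : Fintype I) (_ : Fintype J) (S : Str I J) (c : I → K) (cB : J → KB)
      (PS : Matrix I I (PowerSeries ℤ)) (QS : Matrix J J (PowerSeries ℤ)) (x : I),
      Tgt F D S c cB r PS QS x := by
  have hlam0 : 0 < D.lam := lt_trans one_pos D.one_lt
  have hx0 : 0 < D.lam⁻¹ := inv_pos.2 hlam0
  have hxr : D.lam⁻¹ < r := by
    rw [inv_lt_iff_one_lt_mul₀ hlam0, mul_comm]
    linarith
  have hr0 : 0 < r := hx0.trans hxr
  have hρ0 : 0 < ρ := hr0.trans hrρ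
  have hr1' : r < 1 := hrρ.trans hρ1
  have hx : ‖D.lam⁻¹‖ ≤ r := by
    rw [Real.norm_of_nonneg hx0.le]
    exact hxr.le
  have hx1 : D.lam⁻¹ < 1 := hxr.trans hr1'
  set x := D.lam⁻¹ with hxd
  -- truncation
  obtain ⟨M, hM1, hM2, d0, hd0, hd1⟩ := exists_trunc hρ0 hQ
  have hM3 : 1 ≤ M := by
    by_contra h
    have h1 : M = 0 := by omega
    rw [coeff_sP, if_neg (by omega)] at hd0
    exact hd0 rfl
  obtain ⟨c, D0, hc, hgr⟩ := hQ.growth
  set SP : ℕ[X] := sP HQ M + C (PowerSeries.coeff M HQ).toNat * X ^ M with hSP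
  have hSPc : ∀ d, (SP.coeff d : ℤ) = if d < M + 1 then PowerSeries.coeff d HQ else 0 := by
    intro d
    rw [hSP, ← sP_succ, coeff_sP]
    split_ifs
    · exact Int.toNat_of_nonneg (hQ.nn d)
    · rfl
  set Sz : ℤ[X] := Pool.Agent.SSE.toZ SP with hSz
  have hSzc : ∀ d, Sz.coeff d = if d < M + 1 then PowerSeries.coeff d HQ else 0 := by
    intro d
    rw [hSz, coeff_toZ, hSPc]
  obtain ⟨e0, he0⟩ := exists_qw hρ0 hρ1 hc hQ.c0 (D0 := D0) hgr (s := Sz)
    (by
      intro d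
      rw [hSzc]
      split_ifs
      · exact hQ.nn d
      · exact le_rfl)
    (by
      intro d
      rw [hSzc]
      split_ifs
      · exact le_rfl
      · exact hQ.nn d) (D1 := M + 1)
    (by
      intro d hd
      rw [hSzc, if_neg (by omega)]) 1
  set e := max e0 1 with hed
  have he : 0 < e := lt_of_lt_of_le one_pos (le_max_right _ _)
  -- the local vertices
  choose ξ0 hξ0 hfib using fun v => (P v).exists_fib hr1 hr1' e he
  have htX : ∀ (n : ℕ) (z : K), D.tau ((X ^ n : ℤ[X]) • z) = x ^ n * D.tau z := by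
    intro n z
    rw [tau_smul D.tau_X, eval₂_X_pow]
  obtain ⟨N, hN1⟩ : ∃ N : ℕ, ∀ v, x ^ (N + 1) * D.tau U ≤ ξ0 v := by
    have h1 : Filter.Tendsto (fun n : ℕ => x ^ (n + 1) * D.tau U) Filter.atTop (nhds (0 * D.tau U)) :=
      ((tendsto_pow_atTop_nhds_zero_of_lt_one hx0.le hx1).comp
        (Filter.tendsto_add_atTop_nat 1)).mul_const _
    rw [zero_mul] at h1
    have h2 : ∀ᶠ n : ℕ in Filter.atTop, ∀ v, x ^ (n + 1) * D.tau U ≤ ξ0 v :=
      Filter.eventually_all.2 fun v => (h1.eventually (gt_mem_nhds (hξ0 v))).mono fun _ h => h.le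
    exact h2.exists
  obtain ⟨ξ, hξ⟩ : ∃ ξ : ℝ, ξ = x ^ (N + 1) * D.tau U := ⟨_, rfl⟩
  have hξpos : 0 < ξ := by
    rw [hξ]
    exact mul_pos (pow_pos hx0 _) htU
  choose Y hYl hYdN hYdH hYcb hYC hYn hYN hYH using fun v => hfib v ξ hξpos (hξ ▸ hN1 v)
  set u : V → PowerSeries ℤ := fun v => HN.geo (P v).l with hu
  have hu1 : ∀ v, (1 - (P v).l) * u v = 1 := fun v => HN.one_sub_mul_geo (hl v).c0
  set k : V → ℕ := fun v => Fintype.card (Y v).Co * (Y v).MM with hk
  set Φ : V → PowerSeries ℤ := fun v => (Y v).kq * u v with hΦ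
  choose Cv hCv using hYC
  have hfu : ∀ v, FN r (u v) := fun v => (hl v).fn_geo hr0 hrρ (hu1 v)
  have hfq : ∀ v, FN r (Y v).kq := fun v => FN_bdd hr0.le hr1' (hYn v) (hCv v)
  have hbd : ∀ v d, 0 ≤ PowerSeries.coeff d (Φ v) ∧
      ((PowerSeries.coeff d (Φ v) : ℤ) : ℝ) * ρ ^ d ≤ ∑ v, (Cv v : ℝ) / (1 - ρ) := by
    intro v d
    obtain ⟨h1, h2⟩ := renewal_mul_le hρ0 hρ1 (hl v).nn (hl v).c0 ((hl v).sum_le hρ0.le) (hu1 v)
      (hYn v) (C := (Cv v : ℝ)) (fun d => by exact_mod_cast hCv v d) d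
    refine ⟨h1, h2.trans ?_⟩
    exact Finset.single_le_sum (f := fun v => (Cv v : ℝ) / (1 - ρ))
      (fun v _ => div_nonneg (Nat.cast_nonneg _) (by linarith)) (Finset.mem_univ v)
  obtain ⟨a0, ha0⟩ := he0 e (le_max_left _ _) k Φ _ hbd
  set a := max a0 2 with had
  have ha2 : 2 ≤ a := le_max_right _ _
  obtain ⟨qw, hqw1, hqw2, hqw3, -, hqw5⟩ := ha0 a (le_max_left _ _)
  have hqwf : FN r qw := hqw5 r hr0 hQ.fn fun v => (sv_mul hr0.le hx (hfq v) (hfu v)).1
  have hqw0 : PowerSeries.coeff 0 qw = 0 := by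
    have h1 := congrArg (PowerSeries.coeff 1) hqw1
    rw [show (1 : ℕ) = 0 + 1 from rfl, PowerSeries.coeff_succ_X_mul, map_sub, map_sub,
      Polynomial.coeff_coe, PowerSeries.coeff_X_pow_mul', if_neg (by omega), hSzc,
      if_pos (by omega), sub_self, sub_zero] at h1
    exact h1
  have hqwt : TS r qw := ⟨hqw0, hqw2, hqwf⟩
  -- values
  have hSv : sv x (ps Sz) = evp x SP := by
    rw [hSz]
    exact sv_poly x SP
  have hSf : FN r (ps Sz) := by
    rw [hSz]
    exact fn_poly r SP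
  have hΦf : ∀ v, FN r (Φ v) := fun v => (sv_mul hr0.le hx (hfq v) (hfu v)).1
  have hkf : ∀ v, FN r (((k v : ℕ) : PowerSeries ℤ)) ∧ sv x (((k v : ℕ) : PowerSeries ℤ)) = k v := by
    intro v
    rw [← ps_natCast]
    refine ⟨fn_poly r _, ?_⟩
    rw [sv_poly, evp, eval₂_C]
    rfl
  have hXf : ∀ n : ℕ, FN r ((PowerSeries.X : PowerSeries ℤ) ^ n) ∧
      sv x ((PowerSeries.X : PowerSeries ℤ) ^ n) = x ^ n := fun n =>
    ⟨HN.fin_X_pow n, HN.val_X_pow n⟩
  have hval : x * sv x qw = 1 - evp x SP - x ^ a * ∑ v, (k v : ℝ) * sv x (Φ v) := by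
    have h1 : sv x (PowerSeries.X * qw) = x * sv x qw := by
      rw [(sv_mul hr0.le hx (by simpa using (hXf 1).1) hqwf).2]
      congr 1
      have := (hXf 1).2
      rwa [pow_one, pow_one] at this
    have h2 : ∀ v, FN r (((k v : ℕ) : PowerSeries ℤ) * Φ v) ∧
        sv x (((k v : ℕ) : PowerSeries ℤ) * Φ v) = k v * sv x (Φ v) := by
      intro v
      obtain ⟨h3, h4⟩ := sv_mul hr0.le hx (hkf v).1 (hΦf v)
      exact ⟨h3, by rw [h4, (hkf v).2]⟩
    obtain ⟨h5, h6⟩ := sv_sum hr0.le hx Finset.univ _ fun v _ => (h2 v).1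
    obtain ⟨h7, h8⟩ := sv_mul hr0.le hx (hXf a).1 h5
    obtain ⟨h9, h10⟩ := sv_sub hr0.le hx hQ.fn hSf
    obtain ⟨-, h11⟩ := sv_sub hr0.le hx h9 h7
    rw [← h1, hqw1, h11, h10, h8, h6, (hXf a).2, hSv, hQ.one]
    congr 2
    exact Finset.sum_congr rfl fun v _ => (h2 v).2
  -- the classes
  have hcb : ∀ v, DB.tau (Y v).cb = sv x (Φ v) * ξ := by
    intro v
    have h1 := (Y v).tau_cb hcomp hr1
    rw [hYl] at h1
    have hlf : FN r (P v).l := PF.HasN.mono hr0.le hrρ.le (hl v).fn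
    have h2 : sv x ((1 - (P v).l) * u v) = (1 - sv x (P v).l) * sv x (u v) := by
      obtain ⟨h3, h4⟩ := sv_sub (f := 1) hr0.le hx HN.fin_one hlf
      rw [(sv_mul hr0.le hx h3 (hfu v)).2, h4]
      congr 2
      exact HN.val_one
    rw [hu1] at h2
    have h3 : sv x (1 : PowerSeries ℤ) = 1 := HN.val_one
    rw [h3] at h2
    have h4 : sv x (Φ v) = sv x (Y v).kq * sv x (u v) := (sv_mul hr0.le hx (hfq v) (hfu v)).2
    rw [h4]
    have h5 : (1 - sv x (P v).l) * DB.tau (Y v).cb = sv x (Y v).kq * ξ := by linarith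
    calc DB.tau (Y v).cb = (1 - sv x (P v).l) * DB.tau (Y v).cb * sv x (u v) := by
          rw [mul_comm (1 - sv x (P v).l), mul_assoc, ← h2, mul_one]
      _ = _ := by rw [h5]; ring
  set cw : K := (1 - Sz) • ((X ^ N : ℤ[X]) • U) -
    ∑ v, (X ^ (a - 1) : ℤ[X]) • ∑ i, ((Y v).mm i : ℤ[X]) • (Y v).c i with hcw
  set cbw : KB := (1 - Sz) • ((X ^ N : ℤ[X]) • b0) -
    ∑ v, ((X ^ (a - 1) : ℤ[X]) * (k v : ℤ[X])) • (Y v).cb with hcbw
  have hcws : F.s cw = F.b cbw := by
    rw [hcw, hcbw, map_sub, map_sub, map_smul, map_smul, map_smul, map_smul, hU, map_sum, map_sum]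
    congr 1
    refine Finset.sum_congr rfl fun v _ => ?_
    rw [map_smul, (Y v).s_mm, ← map_smul, smul_smul]
  have hcwt : D.tau cw = sv x qw * ξ := by
    have h1 : D.tau cw = (1 - evp x SP) * (x ^ N * D.tau U) -
        ∑ v, x ^ (a - 1) * ((k v : ℝ) * DB.tau (Y v).cb) := by
      rw [hcw, map_sub, map_sum, sub_smul, one_smul, map_sub, hSz, tau_toZ D.tau_X, htX]
      congr 1
      · ring
      · refine Finset.sum_congr rfl fun v _ => ?_
        rw [htX, ← (Y v).tau_mm hcomp, map_sum]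
        congr 1
        refine Finset.sum_congr rfl fun i _ => ?_
        rw [Nat.cast_smul_eq_nsmul, map_nsmul, nsmul_eq_mul]
    have h3 : x * (x ^ N * D.tau U) = ξ := by
      rw [hξ]; ring
    have h4 : x ^ a = x * x ^ (a - 1) := by
      rw [← pow_succ', Nat.sub_add_cancel (by omega)]
    have h5 : x * ∑ v, x ^ (a - 1) * ((k v : ℝ) * DB.tau (Y v).cb) =
        (x ^ a * ∑ v, (k v : ℝ) * sv x (Φ v)) * ξ := by
      rw [h4, Finset.mul_sum, Finset.mul_sum, Finset.sum_mul]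
      refine Finset.sum_congr rfl fun v _ => ?_
      rw [hcb]
      ring
    have h2 : x * D.tau cw = x * (sv x qw * ξ) := by
      rw [h1]
      linear_combination (1 - evp x SP) * h3 - h5 - ξ * hval
    exact mul_left_cancel₀ hx0.ne' h2
  have hqwpos : 0 < sv x qw := by
    have h1 : HN.Nn qw := hqw2
    have h2 : ((PowerSeries.coeff e qw : ℤ) : ℝ) * x ^ e ≤ sv x qw :=
      HN.coeff_mul_pow_le hx0.le h1 (PF.HasN.mono hx0.le hxr.le hqwf) e
    have h3 : (1 : ℝ) ≤ ((PowerSeries.coeff e qw : ℤ) : ℝ) := by exact_mod_cast hqw3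
    have h4 : 0 < x ^ e := pow_pos hx0 e
    nlinarith
  have hcwpos : 0 < D.tau cw := by
    rw [hcwt]
    exact mul_pos hqwpos hξpos
  set W : Fib F D r ξ e := fibW F D qw hqwt (by exact_mod_cast hqw3) cw cbw hcws hcwpos hcwt with hW
  set Y' : Option V → Fib F D r ξ e := fun v => v.elim W Y with hY'
  set β : Option V → ℕ[X] := fun v => v.elim X fun _ => X ^ a with hβ
  have hMMW : W.MM = 1 := fibW_MM _ _ _ _ _ _ _ _ _
  have hmmW : ∀ i, W.mm i = 1 := fibW_mm _ _ _ _ _ _ _ _ _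
  have hcardW : Fintype.card W.Co = 1 := Fintype.card_unit
  have hpow : (X : ℤ[X]) * X ^ (a - 1) = X ^ a := by
    rw [← pow_succ', Nat.sub_add_cancel (by omega)]
  refine ⟨Option (Σ v, (Y' v).I), Option (Option V), inferInstance, inferInstance, gStr Y',
    gc Y' ((X : ℤ[X]) • ((X ^ N : ℤ[X]) • U)), gcB Y' ((X : ℤ[X]) • ((X ^ N : ℤ[X]) • b0)),
    gPS Y' SP β, gQS Y' SP β, none, ?_⟩
  refine tgt_of_fibs F D Y' hr1 hr2 hξpos _ _ ?_ ?_ (sP HQ M) (C (PowerSeries.coeff M HQ).toNat * X ^ M)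
    β ?_ ?_ ⟨d0, hd0, hd1⟩ hM1 ?_ ?_ ?_ ?_ (fun i => some (fN i)) ?_ gN ?_ RN hRN
    (fun i => some (fH i)) ?_ gH ?_ RH hRH ?_ ?_ ?_
  · -- the class of the hub
    rw [map_smul, map_smul, map_smul, map_smul, hU]
  · rw [D.tau_X, htX, hξ]
    ring
  · have h1 := hSPc 0
    rw [if_pos (by omega), hQ.c0] at h1
    exact_mod_cast h1
  · intro h
    have h1 := congrArg (fun p : ℕ[X] => p.coeff M) h
    simp only [coeff_C_mul, coeff_X_pow, if_true, mul_one, coeff_zero] at h1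
    have h2 := hQ.nn M
    omega
  · rintro (_ | v)
    · exact coeff_X_zero
    · show (X ^ a : ℕ[X]).coeff 0 = 0
      rw [coeff_X_pow, if_neg (by omega)]
  · rintro (_ | v)
    · exact X_ne_zero
    · exact pow_ne_zero _ X_ne_zero
  · -- the relation of the hub
    rw [← hSP, Fintype.sum_option, Fintype.sum_sigma, Fintype.sum_option]
    have e1 : ∀ (v : V) (i : (Y v).I), Pool.Agent.SSE.toZ (gpx Y' SP β (some ⟨some v, i⟩)) •
        gc Y' ((X : ℤ[X]) • ((X ^ N : ℤ[X]) • U)) (some ⟨some v, i⟩) =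
        (X ^ a : ℤ[X]) • ((Y v).mm i : ℤ[X]) • (Y v).c i := by
      intro v i
      show Pool.Agent.SSE.toZ (X ^ a * C ((Y v).mm i)) • (Y v).c i = _
      rw [← toZ_natC, smul_smul]
      congr 1
      unfold Pool.Agent.SSE.toZ
      rw [Polynomial.map_mul, Polynomial.map_pow, Polynomial.map_X]
    have e2 : ∀ i : (Y' none).I, Pool.Agent.SSE.toZ (gpx Y' SP β (some ⟨none, i⟩)) •
        gc Y' ((X : ℤ[X]) • ((X ^ N : ℤ[X]) • U)) (some ⟨none, i⟩) = (X : ℤ[X]) • cw := by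
      intro i
      show Pool.Agent.SSE.toZ (X * C (W.mm i)) • cw = _
      rw [hmmW]
      congr 1
      unfold Pool.Agent.SSE.toZ
      rw [Polynomial.map_mul, Polynomial.map_X, map_one, Polynomial.map_one, mul_one]
    have e3 : Pool.Agent.SSE.toZ (gpx Y' SP β none) •
        gc Y' ((X : ℤ[X]) • ((X ^ N : ℤ[X]) • U)) none =
        Sz • ((X : ℤ[X]) • ((X ^ N : ℤ[X]) • U)) := rfl
    have e6 : (∑ v : V, ∑ i : (Y' (some v)).I, Pool.Agent.SSE.toZ (gpx Y' SP β (some ⟨some v, i⟩)) •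
        gc Y' ((X : ℤ[X]) • ((X ^ N : ℤ[X]) • U)) (some ⟨some v, i⟩)) =
        ∑ v, ∑ i : (Y v).I, (X ^ a : ℤ[X]) • ((Y v).mm i : ℤ[X]) • (Y v).c i :=
      Finset.sum_congr rfl fun v _ => Finset.sum_congr rfl fun i _ => e1 v i
    rw [e3, e6]
    have e4 : (∑ i : (Y' none).I, Pool.Agent.SSE.toZ (gpx Y' SP β (some ⟨none, i⟩)) •
        gc Y' ((X : ℤ[X]) • ((X ^ N : ℤ[X]) • U)) (some ⟨none, i⟩)) = (X : ℤ[X]) • cw := by
      have h1 : Fintype.card (Y' none).I = 1 := Fintype.card_unit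
      refine (Finset.sum_congr rfl fun i _ => e2 i).trans ?_
      rw [Finset.sum_const, Finset.card_univ, h1, one_smul]
    rw [e4, hcw, smul_sub, Finset.smul_sum]
    have e5 : ∀ v, (X : ℤ[X]) • (X ^ (a - 1) : ℤ[X]) • ∑ i, ((Y v).mm i : ℤ[X]) • (Y v).c i =
        ∑ i, (X ^ a : ℤ[X]) • ((Y v).mm i : ℤ[X]) • (Y v).c i := by
      intro v
      rw [smul_smul, hpow, Finset.smul_sum]
    rw [Finset.sum_congr rfl fun v _ => e5 v, sub_add_cancel, smul_smul (X : ℤ[X]) (1 - Sz),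
      smul_smul Sz, ← add_smul]
    congr 1
    ring
  · -- the relation matrix over `J`
    have hR' : RelOf δB (fun v => (Y v).cb) R := by
      have h1 : (fun v => (Y v).cb) = fun v => (P v).cb := funext hYcb
      rw [h1]
      exact hR
    obtain ⟨RB, h1, h2, h3, h4⟩ := relOf_hub' hR' Sz (by rw [hSzc, if_pos (by omega), hQ.c0])
      (fun v => (X ^ (a - 1) : ℤ[X]) * (k v : ℤ[X])) ((X ^ N : ℤ[X]) • b0)
      (gcB Y' ((X : ℤ[X]) • ((X ^ N : ℤ[X]) • b0))) none (some none) (fun v => some (some v))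
      (by simp) (fun v v' h => Option.some.inj (Option.some.inj h)) (by simp) (by simp)
      (by
        rintro (_ | _ | v)
        · exact Or.inl rfl
        · exact Or.inr (Or.inl rfl)
        · exact Or.inr (Or.inr ⟨v, rfl⟩)) (fun v => rfl) rfl hcbw
    refine ⟨RB, h1, ?_⟩
    rintro (_ | _ | v)
    · rw [h2, if_pos rfl]
      rfl
    · rw [h3, if_neg (by simp), zero_sub]
      show -X = -Pool.Agent.SSE.toZ (X * C (Fintype.card W.Co * W.MM))
      rw [hcardW, hMMW]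
      unfold Pool.Agent.SSE.toZ
      rw [mul_one, map_one, mul_one, Polynomial.map_X]
    · rw [h4, if_neg (by simp), zero_sub, ← mul_assoc, hpow]
      show -(X ^ a * ((k v : ℕ) : ℤ[X])) = -Pool.Agent.SSE.toZ (X ^ a * C (k v))
      rw [← toZ_natC]
      unfold Pool.Agent.SSE.toZ
      rw [Polynomial.map_mul, Polynomial.map_pow, Polynomial.map_X]
  · intro i i' h
    exact hfN (Option.some.inj h)
  · intro i
    exact hYN (fN i) _ (hgN i)
  · intro i i' h
    exact hfH (Option.some.inj h)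
  · intro i
    exact hYH (fH i) _ (hgH i)
  · rw [Fintype.prod_option, ← hN]
    have h1 : (Y' none).dN = 1 := rfl
    rw [h1, one_mul]
    exact Finset.prod_congr rfl fun v _ => hYdN v
  · rw [Fintype.prod_option, ← hH]
    have h1 : (Y' none).dH = 1 := rfl
    rw [h1, one_mul]
    exact Finset.prod_congr rfl fun v _ => hYdH v
  · -- the determinant over `J`
    have hinv : ∀ v : Option V, (1 - (Y' v).l) * (v.elim 1 u) = 1 := by
      rintro (_ | v)
      · show (1 - (0 : PowerSeries ℤ)) * 1 = 1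
        ring
      · show (1 - (Y v).l) * u v = 1
        rw [hYl]
        exact hu1 v
    refine (det_gQS (inst := fun a b => @Option.instDecidableEq (Option V)
      (fun a b => Classical.propDecidable (a = b)) a b) Y' SP β (fun v => v.elim 1 u)
      hinv).trans ?_
    rw [Fintype.prod_option, Fintype.sum_option]
    have e1 : ps (Pool.Agent.SSE.toZ (gqx Y' SP β (some none))) * (Y' none).kq *
        (Option.elim none 1 u : PowerSeries ℤ) = PowerSeries.X * qw := by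
      show ps (Pool.Agent.SSE.toZ (X * C (Fintype.card W.Co * W.MM))) * qw * 1 = _
      rw [hcardW, hMMW]
      unfold Pool.Agent.SSE.toZ
      rw [mul_one, mul_one, map_one, mul_one, Polynomial.map_X]
      simp
    have e2 : ∀ v, ps (Pool.Agent.SSE.toZ (gqx Y' SP β (some (some v)))) * (Y' (some v)).kq *
        (Option.elim (some v) 1 u : PowerSeries ℤ) =
        PowerSeries.X ^ a * (((k v : ℕ) : PowerSeries ℤ) * Φ v) := by
      intro v
      show ps (Pool.Agent.SSE.toZ (X ^ a * C (k v))) * (Y v).kq * u v = _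
      have e3 : ps (Pool.Agent.SSE.toZ (X ^ a * C (k v))) =
          PowerSeries.X ^ a * ((k v : ℕ) : PowerSeries ℤ) := by
        rw [← ps_natCast]
        unfold Pool.Agent.SSE.toZ
        rw [Polynomial.map_mul, Polynomial.map_pow, Polynomial.map_X, ps_mul]
        simp
      rw [e3]
      ring
    rw [e1, Finset.sum_congr rfl fun v _ => e2 v, ← Finset.mul_sum, ← hB]
    have e4 : (1 - (Y' none).l) = 1 := by
      show 1 - (0 : PowerSeries ℤ) = 1
      ring
    have e5 : ∏ v, (1 - (Y' (some v)).l) = ∏ v, (1 - (P v).l) :=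
      Finset.prod_congr rfl fun v _ => by
        show 1 - (Y v).l = _
        rw [hYl]
    rw [e4, one_mul, e5, hqw1]
    congr 1
    show 1 - ps Sz - _ = _
    ring

end Pool.Agent.FTO
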