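import Pool.Agent.FTO.KindsB

/-!
# FTO, A2: the kinds of local vertices (definition; kinds (T), (B), (N2), (H2))
-/

set_option autoImplicit false
set_option linter.unusedSectionVars false
set_option linter.unusedVariables false

open scoped BigOperators
open Matrix Polynomial

namespace Pool.Agent.FTO

open Pool.Agent.SSE

attribute [local instance] Classical.propDecidable

variable {K KN KB KH L : Type} [AddCommGroup K] [Module ℤ[X] K] [AddCommGroup KN]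
  [Module ℤ[X] KN] [AddCommGroup KB] [Module ℤ[X] KB] [AddCommGroup KH] [Module ℤ[X] KH]
  [AddCommGroup L] [Module ℤ[X] L]

/-- the requirements on a local vertex, for all small values of the class of the hub -/
def Kind (F : Fil K KN KB KH L) {δ : ℤ[X]} (D : PFM K δ) (r : ℝ) (e : ℕ)
    (l dN dH : PowerSeries ℤ) (cb : KB) (P : ∀ ξ : ℝ, Fib F D r ξ e → Prop) : Prop :=
  ∃ ξ0 : ℝ, 0 < ξ0 ∧ ∀ ξ : ℝ, 0 < ξ → ξ ≤ ξ0 → ∃ Y : Fib F D r ξ e,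
    Y.l = l ∧ Y.dN = dN ∧ Y.dH = dH ∧ Y.cb = cb ∧
    (∃ C : ℕ, ∀ d, PowerSeries.coeff d Y.kq ≤ (C : ℤ)) ∧ HN.Nn Y.kq ∧ P ξ Y

variable {F : Fil K KN KB KH L} {δ : ℤ[X]} {D : PFM K δ} {r : ℝ} {e : ℕ}

/-- every `PreFib` gives a kind -/
theorem PreFib.toKind (P : PreFib F D r) (hr : 1 < D.lam * r) (hr1 : r < 1) (he : 0 < e) :
    Kind F D r e P.l P.dN P.dH P.cb fun _ _ => True := by
  obtain ⟨ξ0, h1, h2⟩ := P.exists_fib hr hr1 e he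
  refine ⟨ξ0, h1, fun ξ hξ hξ1 => ?_⟩
  obtain ⟨Y, h3, h4, h5, h6, h7, h8, -, -⟩ := h2 ξ hξ hξ1
  exact ⟨Y, h3, h4, h5, h6, h7, h8, trivial⟩

/-- **kind (T), (B)**: one element, loop `l`, class `z` -/
theorem kind_triv (hr : 1 < D.lam * r) (hr0 : 0 < r) (hr1 : r < 1) (he : 0 < e)
    {l : PowerSeries ℤ} (hl : TS r l)
    (hl1 : sv D.lam⁻¹ l < 1) {z : K} {y : KB} (hzy : F.s z = F.b y) (hz : 0 < D.tau z) :
    Kind F D r e l 1 1 y fun _ _ => True := by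
  obtain ⟨ξ0, h1, h2⟩ := exists_T hr hr1 he l hl hl1 z y hzy hz
  refine ⟨ξ0, h1, fun ξ hξ hξ1 => ?_⟩
  obtain ⟨Y, h3, h4, h5, h6, h7, h8⟩ := h2 ξ hξ hξ1
  exact ⟨Y, h3, h4, h5, h6, h7, h8, trivial⟩

/-- **kind (N2)**: one block with two elements, classes `z` and `z + F.i n` -/
theorem kind_N2 (hr : 1 < D.lam * r) (hr0 : 0 < r) (hr1 : r < 1) (he : 0 < e)
    {al be : PowerSeries ℤ} (ha : TS r al) (hb : TS r be)
    (hl1 : sv D.lam⁻¹ (al + be) < 1) {z : K} {y : KB} (hzy : F.s z = F.b y) (hz : 0 < D.tau z)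
    (n : KN) (hn : D.tau (F.i n) = 0) :
    Kind F D r e (al + be) (1 - (al - be)) 1 y fun _ Y => Y.IsN n := by
  obtain ⟨ξ0, h1, h2⟩ := exists_N2 hr hr1 he al be ha hb hl1 z y hzy hz n hn
  refine ⟨ξ0, h1, fun ξ hξ hξ1 => ?_⟩
  obtain ⟨Y, h3, h4, h5, h6, h7, h8, h9⟩ := h2 ξ hξ hξ1
  exact ⟨Y, h3, h4, h5, h6, h7, h8, h9⟩

/-- **kind (H2)**: one component with two blocks of one element, loops `al`, `be` -/
theorem kind_H2 (hr : 1 < D.lam * r) (hr0 : 0 < r) (hr1 : r < 1) (he : 0 < e)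
    {al be : PowerSeries ℤ} (ha : TS r al) (hb : TS r be)
    (hl1 : sv D.lam⁻¹ (al + be) < 1) {z : K} {y : KB} (hzy : F.s z = F.b y) (hz : 0 < D.tau z) :
    Kind F D r e (al + be) 1 (1 - (al - be)) (2 • y) fun _ _ => True := by
  obtain ⟨ξ0, h1, h2⟩ := exists_H2_loops hr hr1 he al be ha hb hl1 z y hzy hz
  refine ⟨ξ0, h1, fun ξ hξ hξ1 => ?_⟩
  obtain ⟨Y, h3, h4, h5, h6, h7, h8⟩ := h2 ξ hξ hξ1
  exact ⟨Y, h3, h4, h5, h6, h7, h8, trivial⟩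

/-- **kind (H2)**, without loops, the classes `± z0 + m z` -/
theorem kind_H2' (hr : 1 < D.lam * r) (hr0 : 0 < r) (hr1 : r < 1) (he : 0 < e)
    {z : K} {y : KB} (hzy : F.s z = F.b y)
    (hz : 0 < D.tau z) (z0 : K) :
    ∃ m : ℕ, Kind F D r e 0 1 1 (m • y) fun _ Y => Y.IsH (F.p (F.s z0)) := by
  obtain ⟨m, -, ξ0, h1, h2⟩ := exists_H2_class hr hr1 he z y hzy hz z0
  refine ⟨2 * m, ξ0, h1, fun ξ hξ hξ1 => ?_⟩
  obtain ⟨Y, h3, h4, h5, h6, h7, h8, h9⟩ := h2 ξ hξ hξ1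
  exact ⟨Y, h3, h4, h5, h6, h7, h8, h9⟩

end Pool.Agent.FTO
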