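import Pool.Agent.FTO.Num2

/-!
# FTO: power sums are traces; nonnegative exponents

`Tw (det (1 - X A)) n = trace (A ^ n)`; the exponents of `1 - F` are nonnegative for `0 ≤ F`.
-/

set_option autoImplicit false

open scoped BigOperators
open PowerSeries

namespace Pool.Agent.FTO

open Pool.Agent.SSE Pool.Agent.SSE.HN Pool.Agent.SSE.PF

section leibniz

variable {R : Type} [CommRing R] (D : R →+ R) (hD : ∀ a b, D (a * b) = a * D b + b * D a)

include hD

lemma leib_one : D 1 = 0 := by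
  have h := hD 1 1
  rw [mul_one, one_mul] at h
  have h2 : D 1 + 0 = D 1 + D 1 := by rw [add_zero]; exact h
  exact (add_left_cancel h2).symm

lemma leib_int (z : ℤ) : D (z : R) = 0 := by
  have h : (z : R) = z • (1 : R) := by rw [zsmul_eq_mul, mul_one]
  rw [h, map_zsmul, leib_one D hD, smul_zero]

lemma leib_prod {ι : Type} [DecidableEq ι] (s : Finset ι) (a : ι → R) :
    D (∏ i ∈ s, a i) = ∑ k ∈ s, (∏ i ∈ s.erase k, a i) * D (a k) := by
  induction s using Finset.induction_on with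
  | empty =>
    rw [Finset.prod_empty, Finset.sum_empty]
    exact leib_one D hD
  | insert x s hx ih =>
    rw [Finset.prod_insert hx, hD, ih, Finset.sum_insert hx, Finset.erase_insert hx,
      add_comm, Finset.mul_sum]
    congr 1
    refine Finset.sum_congr rfl fun k hk => ?_
    have hne : x ≠ k := fun h => hx (h ▸ hk)
    rw [Finset.erase_insert_of_ne hne, Finset.prod_insert (fun h => hx (Finset.mem_of_mem_erase h)),
      mul_assoc]

/-- Jacobi's formula -/
theorem leib_det {n : Type} [Fintype n] [DecidableEq n] (M : Matrix n n R) :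
    D M.det = ∑ k, ∑ i, M.adjugate k i * D (M i k) := by
  have h1 : ∀ k, ∑ i, M.adjugate k i * D (M i k) = (M.updateCol k (fun i => D (M i k))).det := by
    intro k
    rw [← Matrix.cramer_apply, Matrix.cramer_eq_adjugate_mulVec]
    rfl
  have h2 : ∀ k, (M.updateCol k (fun i => D (M i k))).det = ∑ σ : Equiv.Perm n,
      ((Equiv.Perm.sign σ : ℤ) : R) *
        ((∏ i ∈ Finset.univ.erase k, M (σ i) i) * D (M (σ k) k)) := by
    intro k
    rw [Matrix.det_apply']
    refine Finset.sum_congr rfl fun σ _ => ?_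
    congr 1
    rw [← Finset.prod_erase_mul Finset.univ _ (Finset.mem_univ k)]
    congr 1
    · refine Finset.prod_congr rfl fun i hi => ?_
      rw [Matrix.updateCol_ne (Finset.ne_of_mem_erase hi)]
    · rw [Matrix.updateCol_self]
  rw [Finset.sum_congr rfl fun k _ => h1 k, Finset.sum_congr rfl fun k _ => h2 k,
    Finset.sum_comm, Matrix.det_apply', map_sum]
  refine Finset.sum_congr rfl fun σ _ => ?_
  rw [hD, leib_int D hD, mul_zero, add_zero, leib_prod D hD, Finset.mul_sum]

end leibniz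

section trace

variable {n : Type} [Fintype n] [DecidableEq n] (A : Matrix n n ℤ)

/-- `1 - X A` -/
noncomputable def oneX : Matrix n n ℤ⟦X⟧ := 1 - (X : ℤ⟦X⟧) • A.map (C (R := ℤ))

/-- `∑_(k ≥ 1) A ^ k X ^ k` -/
noncomputable def powS : Matrix n n ℤ⟦X⟧ :=
  Matrix.of fun i j => PowerSeries.mk fun k => if k = 0 then 0 else (A ^ k) i j

theorem oneX_mul_powS : oneX A * powS A = (X : ℤ⟦X⟧) • A.map (C (R := ℤ)) := by
  ext i j m
  have h1 : (oneX A * powS A) i j = powS A i j - X * ∑ k, C (A i k) * powS A k j := by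
    rw [oneX, Matrix.sub_mul, Matrix.one_mul, Matrix.sub_apply, Matrix.smul_mul,
      Matrix.smul_apply, Matrix.mul_apply, smul_eq_mul]
    rfl
  rw [h1, map_sub, Matrix.smul_apply, smul_eq_mul, Matrix.map_apply]
  rcases m with _ | m
  · rw [coeff_zero_X_mul, coeff_zero_X_mul]
    simp [powS]
  · rw [coeff_succ_X_mul, coeff_succ_X_mul, map_sum, coeff_C]
    simp only [coeff_C_mul, powS, Matrix.of_apply, coeff_mk]
    rcases m with _ | m
    · simp
    · simp only [Nat.succ_ne_zero, if_false]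
      rw [pow_succ', Matrix.mul_apply, sub_self]

theorem coeff_zero_det_oneX : coeff 0 (oneX A).det = 1 := by
  rw [coeff_zero_eq_constantCoeff_apply, RingHom.map_det]
  have h : (constantCoeff (R := ℤ)).mapMatrix (oneX A) = 1 := by
    ext i j
    rw [oneX, RingHom.mapMatrix_apply, Matrix.map_apply, Matrix.sub_apply, Matrix.smul_apply,
      smul_eq_mul, map_sub, map_mul, constantCoeff_X, zero_mul, sub_zero, Matrix.one_apply,
      Matrix.one_apply]
    split_ifs <;> simp
  rw [h, Matrix.det_one]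

/-- **power sums are traces** -/
theorem Tw_det (k : ℕ) (hk : 0 < k) : Tw (oneX A).det k = (A ^ k).trace := by
  have h1 : TS' (oneX A).det = PowerSeries.mk fun k => if k = 0 then 0 else (A ^ k).trace := by
    refine TS'_unique (coeff_zero_det_oneX A) ?_
    have e1 : (PowerSeries.mk fun k => if k = 0 then 0 else (A ^ k).trace : ℤ⟦X⟧) =
        (powS A).trace := by
      ext m
      have e : coeff m (powS A).trace = ∑ i, coeff m (powS A i i) := by
        rw [Matrix.trace, map_sum]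
        rfl
      rw [coeff_mk, e]
      simp only [powS, Matrix.of_apply, coeff_mk]
      split_ifs with h
      · simp
      · rfl
    have e2 : (oneX A).det • powS A = (oneX A).adjugate * ((X : ℤ⟦X⟧) • A.map (C (R := ℤ))) := by
      rw [← oneX_mul_powS, ← Matrix.mul_assoc, Matrix.adjugate_mul, Matrix.smul_mul,
        Matrix.one_mul]
    have e3 : (powS A).trace * (oneX A).det =
        ((oneX A).adjugate * ((X : ℤ⟦X⟧) • A.map (C (R := ℤ)))).trace := by
      rw [← e2, Matrix.trace_smul, smul_eq_mul, mul_comm]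
    have hD : ∀ a b : ℤ⟦X⟧, (d⁄dX ℤ : ℤ⟦X⟧ →+ ℤ⟦X⟧) (a * b) =
        a * (d⁄dX ℤ : ℤ⟦X⟧ →+ ℤ⟦X⟧) b + b * (d⁄dX ℤ : ℤ⟦X⟧ →+ ℤ⟦X⟧) a := fun a b =>
      Derivation.leibniz (d⁄dX ℤ) a b
    have e5 := leib_det (d⁄dX ℤ : ℤ⟦X⟧ →+ ℤ⟦X⟧) hD (oneX A)
    have e6 : d⁄dX ℤ (oneX A).det = ∑ k, ∑ i, (oneX A).adjugate k i * d⁄dX ℤ (oneX A i k) := e5
    rw [e1, e3, e6, Matrix.trace, Finset.mul_sum, ← Finset.sum_neg_distrib]
    refine Finset.sum_congr rfl fun k _ => ?_
    rw [Matrix.diag_apply, Matrix.mul_apply, Finset.mul_sum, ← Finset.sum_neg_distrib]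
    refine Finset.sum_congr rfl fun i _ => ?_
    have e4 : d⁄dX ℤ (oneX A i k) = - C (A i k) := by
      have e5 : oneX A i k = (if i = k then 1 else 0) - X * C (A i k) := by
        rw [oneX, Matrix.sub_apply, Matrix.smul_apply, Matrix.map_apply, smul_eq_mul,
          Matrix.one_apply]
      ext m
      rw [e5, coeff_derivative, map_sub, coeff_succ_X_mul, map_neg, coeff_C]
      have e6 : coeff (m + 1) (if i = k then (1 : ℤ⟦X⟧) else 0) = 0 := by
        split_ifs
        · rw [coeff_one, if_neg (by omega)]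
        · exact map_zero _
      rw [e6]
      split_ifs with h
      · rw [h]
        simp
      · simp
    rw [e4, Matrix.smul_apply, Matrix.map_apply, smul_eq_mul]
    ring
  unfold Tw
  rw [h1, coeff_mk, if_neg hk.ne']

end trace

/-! ### nonnegative exponents -/

/-- dividing `F` by `X ^ p`, as often as its coefficient says -/
theorem div_iter {F : ℤ⟦X⟧} {p : ℕ} (hp : 1 ≤ p) (hF : Nn F) (hlow : ∀ d < p, coeff d F = 0)
    (j : ℕ) (hj : (j : ℤ) ≤ coeff p F) : ∃ G : ℤ⟦X⟧, Nn G ∧ (∀ d < p, coeff d G = 0) ∧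
      coeff p G = coeff p F - j ∧ (1 - F) * geo (X ^ p) ^ j = 1 - G := by
  induction j with
  | zero => exact ⟨F, hF, hlow, by simp, by simp⟩
  | succ j ih =>
    obtain ⟨G, h1, h2, h3, h4⟩ := ih (by push_cast at hj; linarith)
    have hX0 : ∀ d < p, coeff d (X ^ p : ℤ⟦X⟧) = 0 := fun d hd => by
      rw [coeff_X_pow, if_neg hd.ne]
    have hs0 : coeff 0 (X ^ p : ℤ⟦X⟧) = 0 := hX0 0 (by omega)
    have hGX : Nn (G - X ^ p) := by
      intro d
      rw [map_sub, coeff_X_pow]
      split_ifs with hd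
      · rw [hd, h3]
        push_cast at hj
        linarith
      · rw [sub_zero]
        exact h1 d
    refine ⟨dv G (X ^ p), nn_dv hs0 (nn_X_pow p) hGX, ?_, ?_, ?_⟩
    · intro d hd
      rw [(coeff_dv_of_lt (h2 0 (by omega)) hp hX0).1 d hd, h2 d hd]
    · rw [(coeff_dv_of_lt (h2 0 (by omega)) hp hX0).2, h3, coeff_X_pow, if_pos rfl]
      push_cast
      ring
    · rw [pow_succ, ← mul_assoc, h4, one_sub_dv hs0]

theorem exR_nn {F : ℤ⟦X⟧} (hF : Nn F) (h0 : coeff 0 F = 0) (n : ℕ) :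
    ∃ G : ℤ⟦X⟧, Nn G ∧ (∀ d ≤ n, coeff d G = 0) ∧ exR (1 - F) n = 1 - G := by
  induction n with
  | zero => exact ⟨F, hF, fun d hd => by rw [Nat.le_zero.1 hd]; exact h0, rfl⟩
  | succ n ih =>
    obtain ⟨G, h1, h2, h3⟩ := ih
    have hc : coeff (n + 1) (exR (1 - F) n) = - coeff (n + 1) G := by
      rw [h3, map_sub, coeff_one, if_neg (by omega), zero_sub]
    obtain ⟨G', k1, k2, k3, k4⟩ := div_iter (F := G) (p := n + 1) (by omega) h1
      (fun d hd => h2 d (by omega)) (coeff (n + 1) G).toNat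
      (by rw [Int.toNat_of_nonneg (h1 (n + 1))])
    refine ⟨G', k1, fun d hd => ?_, ?_⟩
    · rcases Nat.lt_or_ge d (n + 1) with h | h
      · exact k2 d h
      · have : d = n + 1 := by omega
        rw [this, k3, Int.toNat_of_nonneg (h1 (n + 1)), sub_self]
    · show exR (1 - F) n * (geo (X ^ (n + 1)) ^ (-coeff (n + 1) (exR (1 - F) n)).toNat *
        (1 - X ^ (n + 1)) ^ (coeff (n + 1) (exR (1 - F) n)).toNat) = _
      have e0 : (-coeff (n + 1) G).toNat = 0 := by
        have := h1 (n + 1)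
        omega
      rw [hc, neg_neg, h3, e0, pow_zero, mul_one, k4]

/-- **the exponents of `1 - F` are nonnegative** -/
theorem ex_one_sub_nonneg {F : ℤ⟦X⟧} (hF : Nn F) (h0 : coeff 0 F = 0) (n : ℕ) :
    0 ≤ ex (1 - F) n := by
  rcases n with _ | n
  · exact le_rfl
  · obtain ⟨G, h1, h2, h3⟩ := exR_nn hF h0 n
    show 0 ≤ -coeff (n + 1) (exR (1 - F) n)
    rw [h3, map_sub, coeff_one, if_neg (by omega), zero_sub, neg_neg]
    exact h1 (n + 1)

/-- the exponents of `(1 - H) ∏ (1 - c)` are nonnegative -/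
theorem ex_hub_nonneg {H : ℤ⟦X⟧} (hH : Nn H) (hH0 : coeff 0 H = 0) (cs : List ℤ⟦X⟧)
    (hcs : ∀ c ∈ cs, Nn c ∧ coeff 0 c = 0) {n : ℕ} (hn : 1 ≤ n) :
    0 ≤ ex ((1 - H) * (cs.map fun c => 1 - c).prod) n := by
  have c1 : ∀ {F : ℤ⟦X⟧}, coeff 0 F = 0 → coeff 0 (1 - F) = 1 := fun {F} h => by
    rw [map_sub, h, sub_zero]
    simp
  have key : ∀ cs : List ℤ⟦X⟧, (∀ c ∈ cs, Nn c ∧ coeff 0 c = 0) →
      coeff 0 (cs.map fun c => 1 - c).prod = 1 ∧ 0 ≤ ex (cs.map fun c => 1 - c).prod n := by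
    intro cs
    induction cs with
    | nil =>
      intro _
      refine ⟨by simp, ?_⟩
      have : ([] : List ℤ⟦X⟧).map (fun c => 1 - c) = [] := rfl
      rw [this, List.prod_nil]
      have h := ex_one_sub_nonneg (F := 0) (fun d => by rw [map_zero]) (map_zero _) n
      rwa [sub_zero] at h
    | cons a cs ih =>
      intro h
      obtain ⟨h1, h2⟩ := ih fun c hc => h c (List.mem_cons_of_mem a hc)
      have ha := h a List.mem_cons_self
      rw [List.map_cons, List.prod_cons]
      refine ⟨coeff_zero_mul' (c1 ha.2) h1, ?_⟩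
      rw [ex_mul (c1 ha.2) h1 hn]
      exact add_nonneg (ex_one_sub_nonneg ha.1 ha.2 n) h2
  obtain ⟨h1, h2⟩ := key cs hcs
  rw [ex_mul (c1 hH0) h1 hn]
  exact add_nonneg (ex_one_sub_nonneg hH hH0 n) h2

end Pool.Agent.FTO
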