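import Mathlib

/-!
# MP_59dda0_an (finite-to-one factor codes), words and lifts

`E` is a nonnegative integer matrix on a finite vertex set `V`, `π : V → W` a map; for a word
`j :: l` over `W` the matrix `mat E π j l` counts the `E`-paths over the word.
-/

set_option autoImplicit false

namespace Pool.FTO

variable {V W : Type} [Fintype V] [DecidableEq V] [DecidableEq W]

/-- projection on the fibre of `j` -/
def fibP (π : V → W) (j : W) : Matrix V V ℕ := Matrix.diagonal (fun v => if π v = j then 1 else 0)

/-- `mat E π j l u v` = number of `E`-paths from `u` to `v` over the word `j :: l` -/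
def mat (E : Matrix V V ℕ) (π : V → W) : W → List W → Matrix V V ℕ
  | j, [] => fibP π j
  | j, k :: l => fibP π j * (E * mat E π k l)

variable (E : Matrix V V ℕ) (π : V → W)

@[simp] theorem mat_nil (j : W) : mat E π j [] = fibP π j := rfl

theorem mat_cons (j k : W) (l : List W) :
    mat E π j (k :: l) = fibP π j * (E * mat E π k l) := rfl

theorem fibP_mul (j : W) (M : Matrix V V ℕ) (u v : V) :
    (fibP π j * M) u v = if π u = j then M u v else 0 := by
  rw [fibP, Matrix.diagonal_mul]
  split_ifs <;> simp

theorem mul_fibP (j : W) (M : Matrix V V ℕ) (u v : V) :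
    (M * fibP π j) u v = if π v = j then M u v else 0 := by
  rw [fibP, Matrix.mul_diagonal]
  split_ifs <;> simp

theorem fibP_idem (j : W) : fibP π j * fibP π j = fibP π j := by
  rw [fibP, Matrix.diagonal_mul_diagonal]
  congr 1
  funext v
  split_ifs <;> simp

theorem fibP_mul_mat (j : W) (l : List W) : fibP π j * mat E π j l = mat E π j l := by
  cases l with
  | nil => exact fibP_idem π j
  | cons k l => rw [mat_cons, ← Matrix.mul_assoc, fibP_idem]

theorem mat_mul_fibP (j : W) (l : List W) :
    mat E π j l * fibP π (l.getLastD j) = mat E π j l := by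
  induction l generalizing j with
  | nil => exact fibP_idem π j
  | cons k l ih =>
    rw [mat_cons, List.getLastD_cons, Matrix.mul_assoc, Matrix.mul_assoc, ih]

/-- concatenation of words -/
theorem mat_append (j : W) (l₁ l₂ : List W) :
    mat E π j (l₁ ++ l₂) = mat E π j l₁ * mat E π (l₁.getLastD j) l₂ := by
  induction l₁ generalizing j with
  | nil => simp [fibP_mul_mat]
  | cons k l ih =>
    rw [List.cons_append, mat_cons, ih, mat_cons, List.getLastD_cons, Matrix.mul_assoc,
      Matrix.mul_assoc]

theorem mat_eq_zero_left {j : W} {l : List W} {u v : V} (h : π u ≠ j) : mat E π j l u v = 0 := by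
  rw [← fibP_mul_mat, fibP_mul, if_neg h]

theorem mat_eq_zero_right {j : W} {l : List W} {u v : V} (h : π v ≠ l.getLastD j) :
    mat E π j l u v = 0 := by
  rw [← mat_mul_fibP, mul_fibP, if_neg h]

theorem mat_ne_zero_left {j : W} {l : List W} {u v : V} (h : mat E π j l u v ≠ 0) : π u = j := by
  by_contra hn
  exact h (mat_eq_zero_left E π hn)

theorem mat_ne_zero_right {j : W} {l : List W} {u v : V} (h : mat E π j l u v ≠ 0) :
    π v = l.getLastD j := by
  by_contra hn
  exact h (mat_eq_zero_right E π hn)

/-- one step -/
theorem mat_cons_apply (j k : W) (l : List W) (u v : V) :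
    mat E π j (k :: l) u v = if π u = j then ∑ w, E u w * mat E π k l w v else 0 := by
  rw [mat_cons, fibP_mul, Matrix.mul_apply]

/-! ## sums over words of fixed length -/

variable [Fintype W]

/-- sum of a function over all words of length `n` -/
def sumw : ℕ → (List W → ℝ) → ℝ
  | 0, Q => Q []
  | n + 1, Q => ∑ k : W, sumw n (fun l => Q (k :: l))

omit [DecidableEq W] in
theorem sumw_mono (n : ℕ) {Q R : List W → ℝ} (h : ∀ l, Q l ≤ R l) : sumw n Q ≤ sumw n R := by
  induction n generalizing Q R with
  | zero => exact h []
  | succ n ih => exact Finset.sum_le_sum fun k _ => ih fun l => h (k :: l)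

omit [DecidableEq W] in
theorem sumw_sum {ι : Type} (s : Finset ι) (n : ℕ) (Q : ι → List W → ℝ) :
    sumw n (fun l => ∑ i ∈ s, Q i l) = ∑ i ∈ s, sumw n (Q i) := by
  induction n generalizing Q with
  | zero => rfl
  | succ n ih =>
    simp only [sumw]
    rw [Finset.sum_comm]
    exact Finset.sum_congr rfl fun k _ => ih fun i l => Q i (k :: l)

omit [DecidableEq W] in
theorem sumw_mul_left (n : ℕ) (c : ℝ) (Q : List W → ℝ) :
    sumw n (fun l => c * Q l) = c * sumw n Q := by
  induction n generalizing Q with
  | zero => rfl
  | succ n ih =>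
    simp only [sumw]
    rw [Finset.mul_sum]
    exact Finset.sum_congr rfl fun k _ => ih fun l => Q (k :: l)

omit [DecidableEq W] in
theorem sumw_mul_right (n : ℕ) (c : ℝ) (Q : List W → ℝ) :
    sumw n (fun l => Q l * c) = sumw n Q * c := by
  rw [mul_comm, ← sumw_mul_left]
  congr 1
  funext l
  ring

omit [DecidableEq W] in
theorem sumw_add (m n : ℕ) (Q : List W → ℝ) :
    sumw (m + n) Q = sumw m (fun l₁ => sumw n (fun l₂ => Q (l₁ ++ l₂))) := by
  induction m generalizing Q with
  | zero => simp [sumw]
  | succ m ih =>
    rw [Nat.add_right_comm]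
    simp only [sumw]
    exact Finset.sum_congr rfl fun k _ => by rw [ih]; rfl

omit [DecidableEq W] in
theorem sumw_nonneg (n : ℕ) {Q : List W → ℝ} (h : ∀ l, 0 ≤ Q l) : 0 ≤ sumw n Q := by
  induction n generalizing Q with
  | zero => exact h []
  | succ n ih => exact Finset.sum_nonneg fun k _ => ih fun l => h (k :: l)

omit [DecidableEq W] in
theorem sumw_congr (n : ℕ) {Q R : List W → ℝ} (h : ∀ l, l.length = n → Q l = R l) :
    sumw n Q = sumw n R := by
  induction n generalizing Q R with
  | zero => exact h [] rfl
  | succ n ih =>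
    exact Finset.sum_congr rfl fun k _ => ih fun l hl => h (k :: l) (by simp [hl])

omit [DecidableEq W] in
/-- one summand is at most the sum -/
theorem le_sumw {n : ℕ} {Q : List W → ℝ} (h : ∀ l, 0 ≤ Q l) {l : List W} (hl : l.length = n) :
    Q l ≤ sumw n Q := by
  induction n generalizing Q l with
  | zero =>
    have : l = [] := List.length_eq_zero_iff.mp hl
    subst this
    exact le_refl _
  | succ n ih =>
    obtain ⟨k, l', rfl⟩ : ∃ k l', l = k :: l' := by
      cases l with
      | nil => simp at hl
      | cons k l' => exact ⟨k, l', rfl⟩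
    have h1 : Q (k :: l') ≤ sumw n (fun l => Q (k :: l)) :=
      ih (Q := fun l => Q (k :: l)) (fun l => h _) (by simpa using hl)
    exact h1.trans (Finset.single_le_sum (f := fun k => sumw n (fun l => Q (k :: l)))
      (fun k _ => sumw_nonneg n fun l => h _) (Finset.mem_univ k))

/-- all words together give the powers of `E` -/
theorem sumw_mat (n : ℕ) (u v : V) :
    sumw n (fun l => (mat E π (π u) l u v : ℝ)) = ((E ^ n) u v : ℕ) := by
  induction n generalizing u with
  | zero =>
    simp only [sumw, mat_nil, fibP, pow_zero, Matrix.one_apply, Matrix.diagonal_apply]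
    by_cases h : u = v
    · simp [h]
    · simp [h]
  | succ n ih =>
    simp only [sumw]
    have h1 : ∀ k : W, sumw n (fun l => (mat E π (π u) (k :: l) u v : ℝ)) =
        ∑ w, (E u w : ℝ) * sumw n (fun l => (mat E π k l w v : ℝ)) := by
      intro k
      simp_rw [mat_cons_apply, if_true]
      push_cast
      rw [sumw_sum]
      exact Finset.sum_congr rfl fun w _ => sumw_mul_left _ _ _
    simp_rw [h1]
    rw [Finset.sum_comm, pow_succ', Matrix.mul_apply]
    push_cast
    refine Finset.sum_congr rfl fun w _ => ?_
    rw [← Finset.mul_sum, ← ih w]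
    congr 1
    rw [Finset.sum_eq_single (π w)]
    · intro k _ hk
      have h2 : ∀ l, l.length = n → (mat E π k l w v : ℝ) = 0 := fun l _ => by
        rw [mat_eq_zero_left E π (Ne.symm hk)]
        norm_num
      rw [sumw_congr n h2]
      have h3 := sumw_mul_left n (0 : ℝ) (fun _ : List W => (0 : ℝ))
      simpa using h3
    · intro h
      exact absurd (Finset.mem_univ _) h

end Pool.FTO
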